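import Pool.Agent.MP_ba99b7_an.Arc2

/-! PROJECT STRI, module ARC, part 3: the Fourier coefficients of the pieces. -/

namespace Pool.Agent.MP_ba99b7_an.Arc

open Finset

noncomputable section

/-- sum of Ramanujan sums over a dyadic range -/
def Rm (i : ℕ) (k : ℤ) : ℂ := ∑ z ∈ Fr i, ee ((-k : ℤ) * fr z)

lemma Rep.frs {c : ℤ → ℂ} {g : ℝ → ℂ} (h : Rep c g) (i : ℕ) :
    Rep (fun k => c k * Rm i k) fun x => ∑ z ∈ Fr i, g (x - fr z) :=
  (Rep.sum fun z _ => h.shift (fr z)).congr fun k => by rw [Rm, mul_sum]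

lemma norm_Rm (h : RamStmt) (i : ℕ) (k : ℤ) : ‖Rm i k‖ ≤ 2 * 2 ^ i * dv k (2 * 2 ^ i) := by
  have := h (2 ^ i) (-k)
  rw [sum_sigma'] at this
  simpa only [Rm, Fr, fr, dv, dvd_neg, Nat.cast_pow, Nat.cast_ofNat] using this

lemma dv_le (k : ℤ) (i : ℕ) : (dv k (2 * 2 ^ i) : ℝ) ≤ 2 * 2 ^ i := by
  have : dv k (2 * 2 ^ i) ≤ 2 * 2 ^ i := (card_filter_le _ _).trans (by simp)
  exact_mod_cast this

lemma dv_le_div {k : ℤ} (hk : k ≠ 0) (Q : ℕ) : dv k Q ≤ k.natAbs.divisors.card :=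
  card_le_card fun _ hδ => Nat.mem_divisors.2
    ⟨Int.natCast_dvd.1 (mem_filter.1 hδ).2, Int.natAbs_ne_zero.2 hk⟩

/-- coefficients of `dg` -/
def db (κ l : ℕ) (k : ℤ) : ℂ := bc (wd κ l) k - if l = 0 then 0 else bc (wd κ (l - 1)) k

lemma rep_db {κ l : ℕ} (h : wd κ l ≤ 1 / 4) : Rep (db κ l) fun x => dg κ l x := by
  have a := rep_bump (wd_pos κ l) h
  have b := rep_bump (wd_pos κ (l - 1)) ((wd_mono κ (Nat.sub_le l 1)).trans h)
  unfold db dg
  split_ifs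
  · simpa using a
  · simpa using a.sub b

lemma norm_db (κ l : ℕ) (k : ℤ) : ‖db κ l k‖ ≤ 3 * Cb * wt (wd κ l / 2) k := by
  have w := wd_pos κ l
  have a := norm_bc_le w.le k
  have b := wt_two_mul (show 0 ≤ wd κ l / 2 by positivity) k
  rw [show 2 * (wd κ l / 2) = wd κ l by ring] at b
  have c := mul_le_mul_of_nonneg_left b Cb_pos.le
  have d := mul_nonneg Cb_pos.le (wt_nonneg (show 0 ≤ wd κ l / 2 by positivity) k)
  rcases l with _ | l
  · simp only [db, if_true, sub_zero]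
    linarith
  · have e : wd κ (l + 1) / 2 = wd κ l := by unfold wd; rw [pow_succ]; ring
    have f := norm_bc_le (wd_pos κ l).le k
    rw [db, if_neg (Nat.succ_ne_zero l), Nat.add_sub_cancel]
    refine (norm_sub_le _ _).trans ?_
    rw [e] at c d ⊢
    linarith

lemma sum_db (κ n : ℕ) (k : ℤ) : ∑ l ∈ range (n + 1), db κ l k = bc (wd κ n) k := by
  induction n with
  | zero => simp [db]
  | succ n ih => rw [sum_range_succ, ih, db, if_neg (Nat.succ_ne_zero n), Nat.add_sub_cancel]; ring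

/-- coefficients of `eta` -/
def ec (κ i l : ℕ) (k : ℤ) : ℂ := db κ l k * Rm i k

/-- coefficients of `rho0` -/
def r0 (s κ : ℕ) (k : ℤ) : ℂ :=
  (if k = 0 then 1 else 0) - ∑ i ∈ Is s κ, bc (wd κ (κ - s - i)) k * Rm i k

/-- the index set of the major arc pieces -/
def Ix (s κ : ℕ) : Finset (Σ _ : ℕ, ℕ) := (Is s κ).sigma fun i => range (κ - s - i + 1)

lemma mem_Ix {s κ : ℕ} {p : Σ _ : ℕ, ℕ} (h : p ∈ Ix s κ) : p.1 + p.2 + s ≤ κ := by
  simp only [Ix, mem_sigma, mem_Is, mem_range] at h; omega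

lemma rep_ec {s κ i l : ℕ} (hs : 2 ≤ s) (h : i + l + s ≤ κ) :
    Rep (ec κ i l) fun x => eta κ i l x := by
  simp only [eta, Complex.ofReal_sum]
  exact (rep_db (wd_le hs h)).frs i

lemma rep_r0 {s : ℕ} (hs : 2 ≤ s) (κ : ℕ) : Rep (r0 s κ) fun x => rho0 s κ x := by
  have := Rep.delta.sub (Rep.sum (s := Is s κ) fun i hi => (rep_bump (wd_pos κ (κ - s - i))
    (wd_le (i := i) hs (by have := mem_Is.1 hi; omega))).frs i)
  simp only [rho0, Complex.ofReal_sub, Complex.ofReal_sum, Complex.ofReal_one]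
  exact this

lemma sum_ec (s κ : ℕ) (k : ℤ) :
    ∑ p ∈ Ix s κ, ec κ p.1 p.2 k + r0 s κ k = if k = 0 then 1 else 0 := by
  rw [Ix, sum_sigma, r0]
  simp only [ec, ← sum_mul, sum_db]
  ring

lemma norm_ec (h : RamStmt) (κ i l : ℕ) (k : ℤ) :
    ‖ec κ i l k‖ ≤ 6 * Cb * 2 ^ i * (wt (wd κ l / 2) k * dv k (2 * 2 ^ i)) := by
  have w := wd_pos κ l
  rw [ec, norm_mul]
  refine (mul_le_mul (norm_db κ l k) (norm_Rm h i k) (norm_nonneg _)
    (mul_nonneg (by have := Cb_pos; positivity) (wt_nonneg (by positivity) k))).trans (le_of_eq ?_)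
  ring

lemma norm_ec' (h : RamStmt) (κ i l : ℕ) (k : ℤ) {D : ℝ} (hD : (dv k (2 * 2 ^ i) : ℝ) ≤ D) :
    ‖ec κ i l k‖ ≤ 3 * Cb * (2 ^ (i + l) * D) / (2 ^ κ) ^ 2 := by
  have w := wd_pos κ l
  have c := Cb_pos
  calc _ ≤ _ := norm_ec h κ i l k
    _ ≤ 6 * Cb * 2 ^ i * (wd κ l / 2 * D) := by
        gcongr; exact wt_le (by positivity) k
    _ = _ := by rw [wd, pow_add]; ring

lemma norm_term (h : RamStmt) {s κ i : ℕ} (hi : i + s ≤ κ) (k : ℤ) :
    ‖bc (wd κ (κ - s - i)) k * Rm i k‖ ≤ 2 * Cb / (2 ^ s * 2 ^ κ)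
      * (dv k (2 * 2 ^ i) / (1 + (wd κ (κ - s - i) * k) ^ 2)) := by
  have w := wd_pos κ (κ - s - i)
  have c := Cb_pos
  rw [norm_mul]
  calc _ ≤ Cb * wt (wd κ (κ - s - i)) k * (2 * 2 ^ i * dv k (2 * 2 ^ i)) :=
        mul_le_mul (norm_bc_le w.le k) (norm_Rm h i k) (norm_nonneg _)
          (mul_nonneg c.le (wt_nonneg w.le k))
    _ = 2 * Cb * (wd κ (κ - s - i) * 2 ^ i)
        * (dv k (2 * 2 ^ i) / (1 + (wd κ (κ - s - i) * k) ^ 2)) := by rw [wt]; ring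
    _ ≤ 2 * Cb * (1 / (2 ^ s * 2 ^ κ))
        * (dv k (2 * 2 ^ i) / (1 + (wd κ (κ - s - i) * k) ^ 2)) := by
        gcongr; exact wd_mul_le (by omega)
    _ = _ := by ring

lemma r0_zero (h : RamStmt) {s : ℕ} (hs : 16 * Cb ≤ 2 ^ s) (κ : ℕ) : 1 / 2 ≤ ‖r0 s κ 0‖ := by
  have c := Cb_pos
  have a : ‖∑ i ∈ Is s κ, bc (wd κ (κ - s - i)) 0 * Rm i 0‖ ≤ 1 / 2 := by
    calc _ ≤ ∑ i ∈ Is s κ, 2 * Cb / (2 ^ s * 2 ^ κ) * (2 * 2 ^ i) := by
          refine norm_sum_le_of_le _ fun i hi => (norm_term h (mem_Is.1 hi) 0).trans ?_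
          gcongr
          simpa using dv_le 0 i
      _ ≤ ∑ i ∈ range (κ + 1), 2 * Cb / (2 ^ s * 2 ^ κ) * (2 * 2 ^ i) :=
          sum_le_sum_of_subset_of_nonneg (filter_subset _ _) fun _ _ _ => by positivity
      _ = 2 * Cb / (2 ^ s * 2 ^ κ) * (2 * (2 * 2 ^ κ - 1)) := by
          rw [← mul_sum, ← mul_sum, geom_sum_eq (by norm_num), pow_succ]; ring
      _ ≤ 2 * Cb / (2 ^ s * 2 ^ κ) * (2 * (2 * 2 ^ κ)) := by gcongr; linarith
      _ = 8 * Cb / 2 ^ s := by field_simp; norm_num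
      _ ≤ 1 / 2 := by rw [div_le_iff₀ (by positivity)]; linarith
  have b := norm_sub_norm_le (1 : ℂ) (∑ i ∈ Is s κ, bc (wd κ (κ - s - i)) 0 * Rm i 0)
  rw [norm_one] at b
  rw [r0, if_pos rfl]
  linarith

lemma one_add_log_le {e P : ℝ} (he : 0 < e) (hP : 1 ≤ P) : 1 + Real.log P ≤ (1 + e⁻¹) * P ^ e := by
  have a := Real.log_le_rpow_div (zero_le_one.trans hP) he
  have b := Real.one_le_rpow hP he.le
  rw [div_eq_mul_inv] at a
  linarith

lemma r0_ne (h0 : DivStmt) (h : RamStmt) {e : ℝ} (he : 0 < e) : ∃ K : ℝ, 0 ≤ K ∧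
    ∀ (s κ : ℕ) (k : ℤ), k ≠ 0 → ‖r0 s κ k‖ ≤ K * ((2 : ℝ) ^ κ) ^ (-1 + e) := by
  obtain ⟨Cd, hd⟩ := h0 (e / 6) (by positivity)
  have c := Cb_pos
  refine ⟨2 * (1 + (e / 2)⁻¹) * (2 * Cb * (|Cd| + 2)), by positivity, fun s κ k hk => ?_⟩
  have hN : (1 : ℝ) ≤ 2 ^ κ := one_le_pow₀ one_le_two
  have hX : (1 : ℝ) ≤ (2 ^ κ) ^ (e / 2) := Real.one_le_rpow hN (by positivity)
  have a : ∀ i ∈ Is s κ, ‖bc (wd κ (κ - s - i)) k * Rm i k‖
      ≤ 2 * Cb / 2 ^ κ * ((|Cd| + 2) * (2 ^ κ) ^ (e / 2)) := by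
    intro i hi
    have hi' := mem_Is.1 hi
    refine (norm_term h hi' k).trans (mul_le_mul (div_le_div_of_nonneg_left (by positivity)
      (by positivity) (le_mul_of_one_le_left (by positivity) (one_le_pow₀ one_le_two))) ?_
      (by positivity) (by positivity))
    by_cases hc : |(k : ℝ)| ≤ (2 ^ κ) ^ 3
    · refine (div_le_self (by positivity) (by nlinarith [sq_nonneg (wd κ (κ - s - i) * k)])).trans ?_
      have b : (dv k (2 * 2 ^ i) : ℝ) ≤ k.natAbs.divisors.card := by exact_mod_cast dv_le_div hk _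
      have d := hd k.natAbs (Int.natAbs_ne_zero.2 hk)
      rw [Nat.cast_natAbs, Int.cast_abs] at d
      have f : |(k : ℝ)| ^ (e / 6) ≤ (2 ^ κ) ^ (e / 2) := by
        refine (Real.rpow_le_rpow (abs_nonneg _) hc (by positivity)).trans (le_of_eq ?_)
        rw [← Real.rpow_natCast, ← Real.rpow_mul (by positivity)]
        congr 1; push_cast; ring
      have g : Cd * |(k : ℝ)| ^ (e / 6) ≤ |Cd| * (2 ^ κ) ^ (e / 2) :=
        mul_le_mul (le_abs_self _) f (by positivity) (abs_nonneg _)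
      linarith
    · have b : (2 : ℝ) ^ κ ≤ |wd κ (κ - s - i) * k| := by
        rw [abs_mul, abs_of_pos (wd_pos _ _)]
        calc (2 : ℝ) ^ κ = wd κ 0 * (2 ^ κ) ^ 3 := by unfold wd; field_simp
          _ ≤ _ := mul_le_mul (wd_mono κ (Nat.zero_le _)) (not_le.1 hc).le (by positivity)
            (wd_pos _ _).le
      have d : (2 : ℝ) ^ i ≤ 2 ^ κ := pow_le_pow_right₀ one_le_two (by omega)
      have f := dv_le k i
      have g : (dv k (2 * 2 ^ i) : ℝ) / (1 + (wd κ (κ - s - i) * k) ^ 2) ≤ 2 := by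
        rw [div_le_iff₀ (by positivity), ← sq_abs]
        nlinarith
      nlinarith [abs_nonneg Cd]
  have b : ((Is s κ).card : ℝ) ≤ 2 * ((1 + (e / 2)⁻¹) * (2 ^ κ) ^ (e / 2)) := by
    have b1 : (Is s κ).card ≤ κ + 1 := (card_filter_le _ _).trans (by simp)
    have b2 : ((Is s κ).card : ℝ) ≤ κ + 1 := by exact_mod_cast b1
    have b3 := one_add_log_le (half_pos he) hN
    rw [Real.log_pow] at b3
    nlinarith [Real.log_two_gt_d9, Nat.cast_nonneg (α := ℝ) κ]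
  rw [r0, if_neg hk, zero_sub, norm_neg]
  refine (norm_sum_le_of_le _ a).trans ?_
  rw [sum_const, nsmul_eq_mul]
  refine (mul_le_mul_of_nonneg_right b (by positivity)).trans (le_of_eq ?_)
  rw [show -1 + e = -1 + (e / 2 + e / 2) by ring, Real.rpow_add (by positivity),
    Real.rpow_add (by positivity), Real.rpow_neg_one]
  ring

open Classical in
/-- the part carried by frequencies with many divisors -/
def cb (e : ℝ) (κ i l : ℕ) (k : ℤ) : ℂ :=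
  if k ≠ 0 ∧ ((2 : ℝ) ^ (i + l)) ^ e < dv k (2 * 2 ^ i) then ec κ i l k else 0

lemma norm_cb_le (e : ℝ) (κ i l : ℕ) (k : ℤ) : ‖cb e κ i l k‖ ≤ ‖ec κ i l k‖ := by
  unfold cb; split_ifs <;> simp

lemma cb_sum (h1 : MomStmt) (h : RamStmt) {e : ℝ} (he : 0 < e) (r : ℕ) : ∃ K : ℝ, 0 ≤ K ∧
    ∀ κ i l : ℕ, ∑' k, ‖cb e κ i l k‖ ≤ K * ((2 : ℝ) ^ (i + l)) ^ (-(r : ℝ)) := by
  obtain ⟨B, hB⟩ := exists_nat_ge ((r + 2) / e)
  obtain ⟨Cm, hm⟩ := h1 (B + 1) 1 one_pos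
  have c := Cb_pos
  refine ⟨12 * Cb * |Cm|, by positivity, fun κ i l => ?_⟩
  refine Real.tsum_le_of_sum_le (fun _ => norm_nonneg _) fun u => ?_
  have w := wd_pos κ l
  have hP : (1 : ℝ) ≤ 2 ^ (i + l) := one_le_pow₀ one_le_two
  have hQ : (2 : ℝ) ^ i ≤ 2 ^ (i + l) := pow_le_pow_right₀ one_le_two (by omega)
  have m := hm (2 * 2 ^ i) (Nat.succ_le_of_lt (by positivity)) (wd κ l / 2) (by positivity)
    (u.erase 0) (notMem_erase 0 u)
  have a : ∀ k ∈ u.erase 0, ‖cb e κ i l k‖ ≤ 6 * Cb * 2 ^ i / (((2 : ℝ) ^ (i + l)) ^ e) ^ B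
      * (wd κ l / 2 / (1 + (wd κ l / 2 * k) ^ 2) * (dv k (2 * 2 ^ i) : ℝ) ^ (B + 1)) := by
    intro k _
    unfold cb
    split_ifs with hk
    · refine (norm_ec h κ i l k).trans ?_
      have d : (((2 : ℝ) ^ (i + l)) ^ e) ^ B ≤ (dv k (2 * 2 ^ i) : ℝ) ^ B :=
        pow_le_pow_left₀ (by positivity) hk.2.le B
      rw [div_mul_eq_mul_div, le_div_iff₀ (by positivity), wt]
      calc _ ≤ 6 * Cb * 2 ^ i * (wd κ l / 2 / (1 + (wd κ l / 2 * k) ^ 2) * dv k (2 * 2 ^ i))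
            * (dv k (2 * 2 ^ i) : ℝ) ^ B := by gcongr
        _ = _ := by ring
    · rw [norm_zero]; positivity
  generalize (2 : ℝ) ^ (i + l) = P at *
  rw [← sum_erase u (a := 0) (by simp [cb])]
  refine (sum_le_sum a).trans ?_
  rw [← mul_sum]
  rw [Real.rpow_one] at m
  push_cast at m
  have b : P ^ 2 / (P ^ e) ^ B ≤ P ^ (-(r : ℝ)) := by
    rw [← Real.rpow_natCast, ← Real.rpow_natCast, ← Real.rpow_mul (by positivity),
      ← Real.rpow_sub (by positivity)]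
    refine Real.rpow_le_rpow_of_exponent_le hP ?_
    rw [div_le_iff₀ he] at hB
    push_cast
    linarith
  calc _ ≤ 6 * Cb * P / (P ^ e) ^ B * (|Cm| * (2 * P)) := by
        refine mul_le_mul (by gcongr) (m.trans ?_) (sum_nonneg fun _ _ => by positivity)
          (by positivity)
        exact mul_le_mul (le_abs_self _) (by linarith) (by positivity) (abs_nonneg _)
    _ = 12 * Cb * |Cm| * (P ^ 2 / (P ^ e) ^ B) := by ring
    _ ≤ _ := by gcongr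

end

end Pool.Agent.MP_ba99b7_an.Arc
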