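import Mathlib.CategoryTheory.Category.Init
import Mathlib.MeasureTheory.Integral.Bochner.Basic
import Mathlib.MeasureTheory.Measure.Haar.OfBasis
import Mathlib.Analysis.CStarAlgebra.Classes

/-! PROJECT STRI, analytic half: the abstract spherical system `Sph` and the statements of the
modules. The proofs are in the team store, file STRI_AN.md. -/

namespace Pool.Agent.MP_ba99b7_an

open scoped ComplexConjugate ENNReal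
open MeasureTheory Finset

/-- A compact second countable group with its Borel structure. -/
class TG (G : Type) [Group G] [TopologicalSpace G] [MeasurableSpace G] : Prop
  extends IsTopologicalGroup G, CompactSpace G, T2Space G, SecondCountableTopology G, BorelSpace G

/-- A probability measure invariant under all translations and inversion. -/
class BiH {G : Type} [Group G] [TopologicalSpace G] [MeasurableSpace G] (μ : Measure G) : Prop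
  extends IsProbabilityMeasure μ, μ.IsMulLeftInvariant, μ.IsMulRightInvariant, μ.IsInvInvariant,
    μ.IsOpenPosMeasure

/-- `exp (2 π i x)`. -/
noncomputable def ee (x : ℝ) : ℂ := Complex.exp (2 * Real.pi * x * Complex.I)

/-- The distance to the nearest integer. -/
noncomputable def nr (y : ℝ) : ℝ := |y - round y|

/-- `min (N, 2 / nr y)`. -/
noncomputable def gw (N : ℕ) (y : ℝ) : ℝ := 2 * N / max 2 (N * nr y)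

/-- The Weyl majorant. -/
noncomputable def ww (C1 N : ℕ) (x : ℝ) : ℝ :=
  ∑ l ∈ Finset.Icc (-((C1 * N : ℕ) : ℤ)) ((C1 * N : ℕ) : ℤ), gw N (x * l)

/-- The quadratic form of an integral matrix. -/
def qf {r : ℕ} (A : Matrix (Fin r) (Fin r) ℤ) (m : Fin r → ℕ) : ℤ :=
  ∑ i, ∑ j, A i j * m i * m j

/-- A Fourier series. -/
noncomputable def fs (c : ℤ → ℂ) (x : ℝ) : ℂ := ∑' k : ℤ, c k * ee (k * x)

/-- The number of divisors of `k` in `[1, Q]`. -/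
def dv (k : ℤ) (Q : ℕ) : ℕ := ((Finset.Icc 1 Q).filter fun δ : ℕ => (δ : ℤ) ∣ k).card

/-! ### Number theory -/

def DivStmt : Prop :=
  ∀ ε : ℝ, 0 < ε → ∃ C : ℝ, ∀ n : ℕ, n ≠ 0 → (n.divisors.card : ℝ) ≤ C * (n : ℝ) ^ ε

def ConicStmt : Prop :=
  ∀ (a b c : ℤ), 0 < a → b ^ 2 < 4 * a * c → ∀ (C0 : ℕ) (ε : ℝ), 0 < ε → ∃ C : ℝ,
    ∀ N : ℕ, 1 ≤ N → ∀ d e k : ℤ, |d| ≤ C0 * N → |e| ≤ C0 * N →
      ((((Finset.range (C0 * N)) ×ˢ (Finset.range (C0 * N))).filter fun z : ℕ × ℕ =>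
        a * z.1 ^ 2 + b * z.1 * z.2 + c * z.2 ^ 2 + d * z.1 + e * z.2 = k).card : ℝ)
        ≤ C * (N : ℝ) ^ ε

def MomStmt : Prop :=
  ∀ (B : ℕ) (τ : ℝ), 0 < τ → ∃ C : ℝ, ∀ Q : ℕ, 1 ≤ Q → ∀ w : ℝ, 0 < w →
    ∀ s : Finset ℤ, (0 : ℤ) ∉ s →
      ∑ k ∈ s, w / (1 + (w * k) ^ 2) * (dv k Q : ℝ) ^ B ≤ C * (Q : ℝ) ^ τ

def RamStmt : Prop :=
  ∀ (Q : ℕ) (k : ℤ), ‖∑ q ∈ Finset.Ico Q (2 * Q),
      ∑ a ∈ (Finset.range q).filter (fun a => Nat.Coprime a q), ee (k * (a / q : ℝ))‖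
    ≤ 2 * Q * dv k (2 * Q)

def WeylStmt : Prop :=
  ∀ (r : ℕ) (A : Matrix (Fin r) (Fin r) ℤ), A.IsSymm → A.det ≠ 0 → ∃ C1 : ℕ,
    ∀ N : ℕ, 1 ≤ N → ∀ len : Fin r → ℕ, (∀ j, len j ≤ N) → ∀ z : Fin r → ℂ, (∀ j, ‖z j‖ ≤ 1) →
      ∀ (x : ℝ) (b : Fin r → ℝ),
        ‖∑ m ∈ Fintype.piFinset (fun j => Finset.range (len j)),
          ee (x * qf A m + ∑ j, b j * m j) * ∏ j, z j ^ m j‖ ^ 2 ≤ ww C1 N x ^ r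

def WwStmt : Prop :=
  ∀ C1 : ℕ, ∃ C : ℝ, ∀ N : ℕ, 1 ≤ N → ∀ (x : ℝ) (a : ℤ) (q : ℕ) (L : ℝ), 1 ≤ q →
    IsCoprime a (q : ℤ) → q ≤ (2 * C1 + 2) * N →
    |x - a / q| ≤ 1 / ((2 * C1 + 2) * N * q : ℝ) → 1 ≤ L → L ≤ max 1 (N ^ 2 * |x - a / q|) →
      ww C1 N x ≤ C * (N ^ 2 / (q * L) * (1 + Real.log L) + N * (1 + Real.log q))

/-- The decomposition of the time circle into major arc pieces and the minor arcs. -/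
def ArcStmt : Prop :=
  ∀ (r C1 : ℕ) (θ ε : ℝ), 0 < θ → θ < 1 → 2 * θ < r * (1 - θ) → 0 < ε → ∃ C : ℝ, ∀ κ : ℕ,
    ∃ (J : ℕ) (c : Fin J → ℤ → ℂ) (c0 : ℤ → ℂ) (A B : Fin J → ℝ),
      (∀ p, Summable fun k => ‖c p k‖) ∧ (Summable fun k => ‖c0 k‖) ∧
      (∀ x, ∑ p, fs (c p) x + fs c0 x = 1) ∧ (∀ p, 0 ≤ A p) ∧ (∀ p, 0 ≤ B p) ∧
      (∀ p x, ‖fs (c p) x‖ * ww C1 (2 ^ κ) x ^ ((r : ℝ) / 2) ≤ A p * ((2 : ℝ) ^ κ) ^ r) ∧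
      (∀ p k, ‖c p k‖ ≤ B p / ((2 : ℝ) ^ κ) ^ 2) ∧
      ∑ p, A p ^ (1 - θ) * B p ^ θ ≤ C ∧
      (∀ x, ‖fs c0 x‖ * ww C1 (2 ^ κ) x ^ ((r : ℝ) / 2)
        ≤ C * ((2 : ℝ) ^ κ) ^ ((r : ℝ) / 2 + ε)) ∧
      ‖c0 0‖ ≤ C ∧ ∀ k, k ≠ 0 → ‖c0 k‖ ≤ C * ((2 : ℝ) ^ κ) ^ (-1 + ε)

/-! ### Spherical systems -/

variable {G : Type} [Group G] [TopologicalSpace G] [MeasurableSpace G]

/-- An orthonormal system grouped in finite blocks with reproducing kernels `dim * φ (x y⁻¹)`. -/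
structure Orth (μ : Measure G) (r : ℕ) where
  Λ : Set (Fin r → ℕ)
  dim : (Fin r → ℕ) → ℕ
  bas : ∀ n, Fin (dim n) → G → ℂ
  φ : (Fin r → ℕ) → G → ℂ
  bas_cont : ∀ n ∈ Λ, ∀ i, Continuous (bas n i)
  φ_cont : ∀ n ∈ Λ, Continuous (φ n)
  dim_pos : ∀ n ∈ Λ, 0 < dim n
  φ_one : ∀ n ∈ Λ, φ n 1 = 1
  orth_same : ∀ n ∈ Λ, ∀ i i', ∫ x, conj (bas n i x) * bas n i' x ∂μ = if i = i' then 1 else 0
  orth_ne : ∀ n ∈ Λ, ∀ n' ∈ Λ, n ≠ n' → ∀ i i', ∫ x, conj (bas n i x) * bas n' i' x ∂μ = 0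
  repr : ∀ n ∈ Λ, ∀ x y, ∑ i, bas n i x * conj (bas n i y) = dim n * φ n (x * y⁻¹)

/-- The data on a compact symmetric space of dimension `d` and rank `r` used by the analysis. -/
structure Sph (μ : Measure G) (r d : ℕ) extends Orth μ r where
  two_r : 2 * r ≤ d
  A : Matrix (Fin r) (Fin r) ℤ
  bv : Fin r → ℤ
  A_symm : A.IsSymm
  A_pos : ∀ v : Fin r → ℝ, v ≠ 0 → 0 < ∑ i, ∑ j, (A i j : ℝ) * v i * v j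
  bv_nonneg : ∀ j, 0 ≤ bv j
  e : ℕ
  e_pos : 0 < e
  up : ∀ n ∈ Λ, ∀ m : Fin r → ℕ, n + e • m ∈ Λ
  ν : Measure G
  ν_prob : IsProbabilityMeasure ν
  F : (Fin r → ℕ) → G → ℂ
  f : Fin r → G → ℂ
  F_cont : ∀ n ∈ Λ, Continuous (F n)
  f_cont : ∀ j, Continuous (f j)
  F_le : ∀ n ∈ Λ, ∀ x, ‖F n x‖ ≤ 1
  f_le : ∀ j x, ‖f j x‖ ≤ 1
  φ_int : ∀ n ∈ Λ, ∀ (m : Fin r → ℕ) (x : G),
    φ (n + e • m) x = ∫ k, F n (x * k) * ∏ j, f j (x * k) ^ m j ∂ν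
  blk : Fin r → ℕ
  ψ : Fin r → G → ℝ
  ψ_cont : ∀ j, Continuous (ψ j)
  ψ_nonneg : ∀ j x, 0 ≤ ψ j x
  ψ_le : ∀ j x, ψ j x ≤ 1
  ψ_one : ∀ j, ψ j 1 = 1
  ψ_blk : ∀ i j, blk i = blk j → ψ i = ψ j
  C0 : ℕ
  c0 : ℝ
  c0_pos : 0 < c0
  step : ∀ j, ∀ n ∈ Λ, ∃ (S : Finset (Fin r → ℕ)) (P : (Fin r → ℕ) → ℝ), ↑S ⊆ Λ ∧
    (∀ x, (ψ j x : ℂ) * φ n x = ∑ n' ∈ S, (P n' : ℂ) * φ n' x) ∧ (∀ n' ∈ S, 0 ≤ P n') ∧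
    (∀ n' ∈ S, ∀ l, |(n' l : ℤ) - n l| ≤ C0 ∧ (blk l ≠ blk j → n' l = n l)) ∧
    n + e • Pi.single j 1 ∈ S ∧ c0 ≤ P (n + e • Pi.single j 1)
  dim_mono : ∀ n ∈ Λ, ∀ m : Fin r → ℕ, dim n ≤ dim (n + e • m)
  Cd : ℝ
  Mx : ℕ
  dim_dbl : ∀ n ∈ Λ, ∀ n' ∈ Λ, ∀ T : ℝ, 1 ≤ T → (∀ j, (1 + n' j : ℝ) ≤ T * (1 + n j)) →
    (dim n' : ℝ) ≤ Cd * T ^ Mx * dim n
  dim_le : ∀ n ∈ Λ, ∀ T : ℝ, (∀ j, (1 + n j : ℝ) ≤ T) → 1 ≤ T →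
    (dim n : ℝ) ≤ Cd * T ^ (d - 2 * r) * ∏ j, (1 + n j : ℝ)
  W : ∀ (m : Fin r → ℕ) (x : G), ∫ k, ∏ j, ‖f j (x * k)‖ ^ m j ∂ν
    ≤ Cd * ∏ j, (1 + m j * (1 - ψ j x)) ^ (-(1 / 2) : ℝ)
  rk1 : r = 1 → ∀ n ∈ Λ, ∀ j x, ‖φ n x‖ ≤ Cd * (1 + (n j : ℝ) ^ 2 * (1 - ψ j x)) ^ (-(1 / 4) : ℝ)

/-- The eigenvalue polynomial. -/
def Sph.P {μ : Measure G} {r d : ℕ} (S : Sph μ r d) (n : Fin r → ℕ) : ℤ :=
  qf S.A n + ∑ j, S.bv j * n j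

/-- Lebesgue measure on one period times the measure on the group. -/
noncomputable def mm (μ : Measure G) : Measure (ℝ × G) :=
  (volume.restrict (Set.Ioc (0 : ℝ) 1)).prod μ

section
variable {μ : Measure G} {r : ℕ} (O : Orth μ r)

/-- A finite solution of the evolution with frequencies `τ`. -/
noncomputable def Orth.u (T : Finset (Fin r → ℕ)) (τ : (Fin r → ℕ) → ℤ)
    (a : ∀ n, Fin (O.dim n) → ℂ) (z : ℝ × G) : ℂ :=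
  ∑ n ∈ T, ee (-(τ n * z.1)) * ∑ i, a n i * O.bas n i z.2

/-- The squared norm of the coefficients. -/
noncomputable def Orth.nsq (T : Finset (Fin r → ℕ)) (a : ∀ n, Fin (O.dim n) → ℂ) : ℝ :=
  ∑ n ∈ T, ∑ i, ‖a n i‖ ^ 2

/-- The kernel with multiplier `β`. -/
noncomputable def Orth.ker (S : Finset (Fin r → ℕ)) (τ : (Fin r → ℕ) → ℤ)
    (β : (Fin r → ℕ) → ℝ) (t : ℝ) (g : G) : ℂ :=
  ∑ n ∈ S, β n * ee (-(τ n * t)) * (O.dim n * O.φ n g)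

/-- The kernel `K` is a multiplier bounded by `B`. -/
def Orth.MultBd (K : ℝ → G → ℂ) (B : ℝ) : Prop :=
  ∃ (S : Finset (Fin r → ℕ)) (c : (Fin r → ℕ) → ℤ → ℂ), ↑S ⊆ O.Λ ∧
    (∀ n ∈ S, Summable fun k => ‖c n k‖) ∧ (∀ n ∈ S, ∀ k, ‖c n k‖ ≤ B) ∧
    ∀ t g, K t g = ∑ n ∈ S, fs (c n) t * (O.dim n * O.φ n g)

end

/-- The `T T^*` argument for level sets. -/
def WeakStmt : Prop :=
  ∀ (G : Type) [Group G] [TopologicalSpace G] [MeasurableSpace G] [TG G] (μ : Measure G) [BiH μ]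
    (r : ℕ) (O : Orth μ r) (θ : ℝ), 0 < θ → θ < 1 →
    ∀ (S T : Finset (Fin r → ℕ)) (τ : (Fin r → ℕ) → ℤ) (β : (Fin r → ℕ) → ℝ),
      ↑S ⊆ O.Λ → T ⊆ S → (∀ n ∈ S, 0 ≤ β n) → (∀ n ∈ T, 1 ≤ β n) →
    ∀ (J : Type) [Fintype J] (Kp : J → ℝ → G → ℂ) (Ki : ℝ → G → ℂ) (A B : J → ℝ) (Ai M : ℝ),
      (∀ t g, O.ker S τ β t g = ∑ p, Kp p t g + Ki t g) →
      (∀ p t g, ‖Kp p t g‖ ≤ A p) → (∀ p, 0 ≤ B p) → (∀ p, O.MultBd (Kp p) (B p)) →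
      (∀ t g, ‖Ki t g‖ ≤ Ai) → ∑ p, A p ^ (1 - θ) * B p ^ θ ≤ M →
    ∀ (a : ∀ n, Fin (O.dim n) → ℂ) (α : ℝ), 0 < α → 2 * Ai * O.nsq T a ≤ α ^ 2 →
      α ^ 2 * (mm μ).real {z | α < ‖O.u T τ a z‖} ^ θ ≤ 2 * M * O.nsq T a

/-- Summation of dyadic blocks: weak type at `p0 < p` and the trivial bound give `H^s → L^p`. -/
def SumStmt : Prop :=
  ∀ (d : ℕ) (p0 p C0 : ℝ), 2 ≤ p0 → p0 < p → 0 ≤ C0 → ∃ C : ℝ,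
    ∀ (X : Type) [MeasurableSpace X] (m : Measure X) [IsProbabilityMeasure m]
      (n : ℕ) (u : ℕ → X → ℂ) (a : ℕ → ℝ), (∀ κ, Measurable (u κ)) → (∀ κ, 0 ≤ a κ) →
      (∀ κ x, ‖u κ x‖ ≤ C0 * ((2 : ℝ) ^ κ) ^ ((d : ℝ) / 2) * a κ) →
      (∀ κ (α : ℝ), 0 < α → α ^ p0 * m.real {x | α < ‖u κ x‖}
        ≤ (C0 * ((2 : ℝ) ^ κ) ^ ((d : ℝ) / 2 - (d + 2) / p0) * a κ) ^ p0) →
      eLpNorm (fun x => ∑ κ ∈ Finset.range n, u κ x) (ENNReal.ofReal p) m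
        ≤ ENNReal.ofReal (C * √(∑ κ ∈ Finset.range n,
          (((2 : ℝ) ^ κ) ^ ((d : ℝ) / 2 - (d + 2) / p) * a κ) ^ 2))

section
variable {μ : Measure G} {r d : ℕ} (S : Sph μ r d)

/-- The product of powers of the cut-off functions. -/
noncomputable def Sph.Ψ (m : Fin r → ℕ) (g : G) : ℝ := ∏ j, S.ψ j g ^ m j

/-- The transition kernel of the random walk on the weights. -/
noncomputable def Sph.Q (m : Fin r → ℕ) (y x : Fin r → ℕ) : ℝ :=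
  S.dim x * (∫ g, (S.Ψ m g : ℂ) * S.φ y g * conj (S.φ x g) ∂μ).re

/-- The number of steps made in the block of `j`. -/
def Sph.Mb (m : Fin r → ℕ) (j : Fin r) : ℕ :=
  ∑ i ∈ Finset.univ.filter (fun i => S.blk i = S.blk j), m i

/-- The dyadic box of weights above `γ`. -/
def Sph.box (γ : Fin r → ℕ) (κ : ℕ) : Finset (Fin r → ℕ) :=
  (Fintype.piFinset fun _ : Fin r => Finset.range (2 ^ (κ + 1) - 1)).image fun m => γ + S.e • m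

end

/-- The algebraic properties of the random walk. -/
def WalkStmt : Prop :=
  ∀ (G : Type) [Group G] [TopologicalSpace G] [MeasurableSpace G] [TG G] (μ : Measure G) [BiH μ]
    (r d : ℕ) (S : Sph μ r d) (m : Fin r → ℕ),
    (∀ x ∈ S.Λ, ∃ T : Finset (Fin r → ℕ), ↑T ⊆ S.Λ ∧
      (∀ y ∈ T, ∀ l, |(y l : ℤ) - x l| ≤ S.C0 * S.Mb m l) ∧
      ∀ T' : Finset (Fin r → ℕ), ↑T' ⊆ S.Λ → T ⊆ T' → ∀ g,
        (S.Ψ m g : ℂ) * S.φ x g = ∑ y ∈ T', (S.Q m x y : ℂ) * S.φ y g) ∧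
    (∀ x ∈ S.Λ, ∀ y ∈ S.Λ, S.dim x * S.Q m x y = S.dim y * S.Q m y x) ∧
    (∀ x ∈ S.Λ, ∀ y ∈ S.Λ, 0 ≤ S.Q m x y) ∧
    (∀ y ∈ S.Λ, ∀ T : Finset (Fin r → ℕ), ↑T ⊆ S.Λ → ∑ x ∈ T, S.Q m y x ≤ 1)

/-- The Carne-Varopoulos bound. -/
def TailStmt : Prop :=
  ∀ (G : Type) [Group G] [TopologicalSpace G] [MeasurableSpace G] [TG G] (μ : Measure G) [BiH μ]
    (r d : ℕ) (S : Sph μ r d) (m : Fin r → ℕ), ∀ x ∈ S.Λ, ∀ y ∈ S.Λ, ∀ (j : Fin r) (t : ℝ),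
      0 ≤ t → S.C0 * t < |(x j : ℝ) - y j| →
      S.Q m y x ≤ 2 * √(S.dim x / S.dim y) * Real.exp (-(t ^ 2 / (2 * (1 + S.Mb m j))))

/-- The heat kernel bounds. -/
def HeatStmt : Prop :=
  ∀ (G : Type) [Group G] [TopologicalSpace G] [MeasurableSpace G] [TG G] (μ : Measure G) [BiH μ]
    (r d : ℕ) (S : Sph μ r d) (ε a : ℝ), 0 < ε → ∃ C : ℝ, ∀ N : ℕ, 1 ≤ N →
    ∀ m : Fin r → ℕ, (∀ j, m j ≤ N ^ 2) → ∀ x ∈ S.Λ, (∀ j, x j ≤ N) → ∀ y ∈ S.Λ,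
      S.Q m y x ≤ C * (N : ℝ) ^ ε * ∏ j, (1 + S.Mb m j : ℝ) ^ (-(1 / 2) : ℝ) ∧
      ∀ j, (N : ℝ) ^ ε * √(1 + S.Mb m j) ≤ |(x j : ℝ) - y j| → S.Q m y x ≤ C * (N : ℝ) ^ (-a)

/-- The kernel of a dyadic box, its major arc pieces and the size of the minor arc piece. -/
def MajorStmt : Prop :=
  ∀ (G : Type) [Group G] [TopologicalSpace G] [MeasurableSpace G] [TG G] (μ : Measure G) [BiH μ]
    (r d : ℕ) (S : Sph μ r d), ∀ γ ∈ S.Λ, ∀ θ ε : ℝ, 0 < θ → θ < 1 → 2 * θ < r * (1 - θ) →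
    0 < ε → ∃ C : ℝ, ∀ κ : ℕ, ∃ (β : (Fin r → ℕ) → ℝ) (c0 : ℤ → ℂ) (J : ℕ)
      (Kp : Fin J → ℝ → G → ℂ) (A B : Fin J → ℝ),
      (∀ n ∈ S.box γ κ, 1 ≤ β n ∧ β n ≤ C) ∧
      (∀ t g, S.ker (S.box γ κ) S.P β t g
        = ∑ p, Kp p t g + fs c0 t * S.ker (S.box γ κ) S.P β t g) ∧
      (∀ p t g, ‖Kp p t g‖ ≤ A p) ∧ (∀ p, 0 ≤ B p) ∧ (∀ p, S.MultBd (Kp p) (B p)) ∧
      ∑ p, A p ^ (1 - θ) * B p ^ θ ≤ C * ((2 : ℝ) ^ κ) ^ (d * (1 - θ) - 2 * θ) ∧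
      (Summable fun k => ‖c0 k‖) ∧ ‖c0 0‖ ≤ C ∧
      (∀ k, k ≠ 0 → ‖c0 k‖ ≤ C * ((2 : ℝ) ^ κ) ^ (-1 + ε)) ∧
      ∀ t g, ‖fs c0 t * S.ker (S.box γ κ) S.P β t g‖
        ≤ C * ((2 : ℝ) ^ κ) ^ ((d : ℝ) - r / 2 + ε)
          * ∏ j, (1 + (2 : ℝ) ^ κ * (1 - S.ψ j g)) ^ (-(1 / 2) : ℝ)

/-- Weak type `(2, p0)` at the scaling critical regularity on a dyadic box, rank `r`. -/
def BlockStmt (r : ℕ) : Prop :=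
  ∀ (G : Type) [Group G] [TopologicalSpace G] [MeasurableSpace G] [TG G] (μ : Measure G) [BiH μ]
    (d : ℕ) (S : Sph μ r d), ∀ γ ∈ S.Λ, ∀ p0 : ℝ, 2 + 4 / (r : ℝ) < p0 → ∃ C : ℝ, 0 ≤ C ∧
    ∀ (κ : ℕ) (T : Finset (Fin r → ℕ)), T ⊆ S.box γ κ →
    ∀ (a : ∀ n, Fin (S.dim n) → ℂ) (α : ℝ), 0 < α →
      α ^ p0 * (mm μ).real {z | α < ‖S.u T S.P a z‖}
        ≤ (C * ((2 : ℝ) ^ κ) ^ ((d : ℝ) / 2 - (d + 2) / p0) * √(S.nsq T a)) ^ p0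

/-- The eigenfunction bound in `L⁶` in rank one. -/
def EigStmt : Prop :=
  ∀ (G : Type) [Group G] [TopologicalSpace G] [MeasurableSpace G] [TG G] (μ : Measure G) [BiH μ]
    (d : ℕ) (S : Sph μ 1 d) (ε : ℝ), 0 < ε → ∃ C : ℝ, ∀ N : ℕ, 1 ≤ N → ∀ n ∈ S.Λ, n 0 ≤ N →
    ∀ a : Fin (S.dim n) → ℂ, ∫ x, ‖∑ i, a i * S.bas n i x‖ ^ 6 ∂μ
      ≤ C * (N : ℝ) ^ (2 * (d : ℝ) - 3 + ε) * (∑ i, ‖a i‖ ^ 2) ^ 3

/-- The Strichartz estimate on one period, for finite sums. -/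
def CoreStmt : Prop :=
  ∀ (G : Type) [Group G] [TopologicalSpace G] [MeasurableSpace G] [TG G] (μ : Measure G) [BiH μ]
    (r d : ℕ) (S : Sph μ r d), 1 ≤ r → ∀ p : ℝ, 2 + 4 / (r : ℝ) < p → ∃ C : ℝ,
    ∀ T : Finset (Fin r → ℕ), ↑T ⊆ S.Λ → ∀ a : ∀ n, Fin (S.dim n) → ℂ,
      eLpNorm (S.u T S.P a) (ENNReal.ofReal p) (mm μ) ≤ ENNReal.ofReal (C *
        √(∑ n ∈ T, (1 + S.P n : ℝ) ^ ((d : ℝ) / 2 - (d + 2) / p) * ∑ i, ‖a n i‖ ^ 2))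

/-- The Strichartz estimate on a bounded set of times, for finite sums. -/
def ScaleStmt : Prop :=
  ∀ (G : Type) [Group G] [TopologicalSpace G] [MeasurableSpace G] [TG G] (μ : Measure G) [BiH μ]
    (r d : ℕ) (S : Sph μ r d), 1 ≤ r → ∀ p : ℝ, 2 + 4 / (r : ℝ) < p → ∀ D : ℕ, 0 < D →
    ∀ I : Set ℝ, Bornology.IsBounded I → ∃ C : ℝ,
    ∀ T : Finset (Fin r → ℕ), ↑T ⊆ S.Λ → ∀ a : ∀ n, Fin (S.dim n) → ℂ,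
      eLpNorm (fun z : ℝ × G => ∑ n ∈ T, Complex.exp (-(Complex.I * z.1 * (S.P n / D : ℝ)))
          * ∑ i, a n i * S.bas n i z.2⁻¹) (ENNReal.ofReal p) ((volume.restrict I).prod μ)
        ≤ ENNReal.ofReal (C * √(∑ n ∈ T,
          (1 + S.P n / D : ℝ) ^ ((d : ℝ) / 2 - (d + 2) / p) * ∑ i, ‖a n i‖ ^ 2))

end Pool.Agent.MP_ba99b7_an
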