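import Mathlib.LinearAlgebra.Trace
import Mathlib.Analysis.Calculus.Deriv.Basic
import Mathlib.Analysis.Normed.Algebra.Exponential
import Pool.Agent.MP_ba99b7_an.SpecAn

/-! PROJECT STRI, Lie half: the abstract symmetric pair `Sym`, root data and the statements of the
modules. The proofs are in the team store, file STRI_LIE.md. -/

namespace Pool.Agent.MP_ba99b7_an

open scoped ComplexConjugate RealInnerProductSpace Topology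
open MeasureTheory Module

variable {V : Type} [NormedAddCommGroup V] [InnerProductSpace ℝ V]
  {G : Type} [Group G] [TopologicalSpace G]

/-- Right translation. -/
def Rt (h : G) (f : G → ℂ) : G → ℂ := fun x => f (x * h)

/-- Representative functions. -/
def IsRep (f : G → ℂ) : Prop :=
  Continuous f ∧ FiniteDimensional ℂ (Submodule.span ℂ (Set.range fun h => Rt h f))

/-- The derivative along the left-invariant field `X`. -/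
noncomputable def Dr (ex : V → G) (X : V) (f : G → ℂ) (x : G) : ℂ :=
  deriv (fun t : ℝ => f (x * ex (t • X))) 0

variable [MeasurableSpace G]

/-- The inner product of `L²`. -/
noncomputable def ip (μ : Measure G) (f g : G → ℂ) : ℂ := ∫ x, conj (f x) * g x ∂μ

variable (V G) in
/-- A compact symmetric pair: `V` is the Lie algebra with minus the Killing form. -/
structure Sym where
  ad : V →L[ℝ] V →L[ℝ] V
  ad_anti : ∀ X Y, ad X Y = -ad Y X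
  jacobi : ∀ X Y, ad (ad X Y) = ad X * ad Y - ad Y * ad X
  ad_skew : ∀ X Y Z, ⟪ad X Y, Z⟫ = -⟪Y, ad X Z⟫
  killing : ∀ X Y, LinearMap.trace ℝ V ((ad X * ad Y : V →L[ℝ] V) : V →ₗ[ℝ] V) = -⟪X, Y⟫
  Ad : G →* (V →L[ℝ] V)
  Ad_cont : Continuous Ad
  Ad_inner : ∀ g X Y, ⟪Ad g X, Ad g Y⟫ = ⟪X, Y⟫
  Ad_ad : ∀ g X Y, Ad g (ad X Y) = ad (Ad g X) (Ad g Y)
  ex : V → G
  ex_cont : Continuous ex
  ex_add : ∀ (X : V) (s t : ℝ), ex ((s + t) • X) = ex (s • X) * ex (t • X)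
  Ad_ex : ∀ X, Ad (ex X) = NormedSpace.exp (ad X)
  ex_conj : ∀ g X, g * ex X * g⁻¹ = ex (Ad g X)
  ex_nhds : ∀ U ∈ 𝓝 (0 : V), ex '' U ∈ 𝓝 (1 : G)
  σ : G →* G
  σ_cont : Continuous σ
  σσ : ∀ g, σ (σ g) = g
  θ : V →L[ℝ] V
  θθ : ∀ X, θ (θ X) = X
  θ_ad : ∀ X Y, θ (ad X Y) = ad (θ X) (θ Y)
  θ_inner : ∀ X Y, ⟪θ X, θ Y⟫ = ⟪X, Y⟫
  σ_ex : ∀ X, σ (ex X) = ex (θ X)
  Ad_σ : ∀ g, Ad (σ g) = θ * Ad g * θ
  K : Subgroup G
  K_closed : IsClosed (K : Set G)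
  K_fix : ∀ k ∈ K, σ k = k
  ex_K : ∀ Y, θ Y = Y → ex Y ∈ K
  ν : Measure G
  ν_prob : IsProbabilityMeasure ν
  ν_K : ∀ᵐ k ∂ν, k ∈ K
  ν_left : ∀ k ∈ K, Measure.map (fun x => k * x) ν = ν
  ν_right : ∀ k ∈ K, Measure.map (fun x => x * k) ν = ν
  D_diff : ∀ f, IsRep f → ∀ X x, DifferentiableAt ℝ (fun t : ℝ => f (x * ex (t • X))) 0
  D_add : ∀ f, IsRep f → ∀ X Y, Dr ex (X + Y) f = Dr ex X f + Dr ex Y f
  D_br : ∀ f, IsRep f → ∀ X Y, Dr ex (ad X Y) f = Dr ex X (Dr ex Y f) - Dr ex Y (Dr ex X f)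

namespace Sym
variable (S : Sym V G)

/-- The derivative along the left-invariant field `X`. -/
noncomputable abbrev D (X : V) (f : G → ℂ) : G → ℂ := Dr S.ex X f

/-- The `-1` eigenspace of `θ`. -/
def p : Submodule ℝ V where
  carrier := {X | S.θ X = -X}
  add_mem' := fun {a b} ha hb => by
    simp only [Set.mem_ofPred_eq] at *
    rw [map_add, ha, hb, neg_add]
  zero_mem' := by simp
  smul_mem' := fun c a ha => by
    simp only [Set.mem_ofPred_eq] at *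
    rw [map_smul, ha, smul_neg]

/-- The map `x ↦ σ(x)⁻¹ x`. -/
def s (x : G) : G := (S.σ x)⁻¹ * x

/-- Left `K`-invariant functions. -/
def LInv (f : G → ℂ) : Prop := ∀ k ∈ S.K, ∀ x, f (k * x) = f x

/-- The Casimir operator of an orthonormal basis. -/
noncomputable def cas {ι : Type} [Fintype ι] (B : OrthonormalBasis ι ℝ V) (f : G → ℂ) (x : G) :
    ℂ := ∑ b, S.D (B b) (S.D (B b) f) x

end Sym

/-- An orthonormal basis adapted to a maximal abelian subspace `a` of `p`. -/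
structure Adapt (S : Sym V G) (r : ℕ) where
  m : ℕ
  q : ℕ
  Y : Fin m → V
  η : Fin m → V
  H : Fin r → V
  M : Fin q → V
  al : Fin m → V
  H0 : V
  a : Submodule ℝ V
  B : OrthonormalBasis ((Fin m ⊕ Fin m) ⊕ (Fin r ⊕ Fin q)) ℝ V
  hB : ⇑B = Sum.elim (Sum.elim Y η) (Sum.elim H M)
  a_eq : a = Submodule.span ℝ (Set.range H)
  θY : ∀ i, S.θ (Y i) = Y i
  θη : ∀ i, S.θ (η i) = -η i
  θH : ∀ X ∈ a, S.θ X = -X
  θM : ∀ c, S.θ (M c) = M c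
  al_mem : ∀ i, al i ∈ a
  H0_mem : H0 ∈ a
  pos : ∀ i, 0 < ⟪al i, H0⟫
  adY : ∀ X ∈ a, ∀ i, S.ad X (Y i) = -(⟪al i, X⟫ • η i)
  adη : ∀ X ∈ a, ∀ i, S.ad X (η i) = ⟪al i, X⟫ • Y i
  adH : ∀ X ∈ a, ∀ X' ∈ a, S.ad X X' = 0
  adM : ∀ X ∈ a, ∀ c, S.ad X (M c) = 0
  Yη : ∀ i, S.ad (Y i) (η i) = -al i
  dim_p : finrank ℝ S.p = r + m

/-- Simple roots, fundamental weights, integrality and the irreducible components. -/
structure Roots (S : Sym V G) (r : ℕ) extends Adapt S r where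
  sr : Fin r → Fin m
  sr_inj : Function.Injective sr
  w : Fin r → V
  co : Fin m → Fin r → ℕ
  w_mem : ∀ j, w j ∈ a
  dual : ∀ i j, 2 * ⟪w j, al (sr i)⟫ = if i = j then ‖al (sr i)‖ ^ 2 else 0
  al_eq : ∀ i, al i = ∑ j, (co i j : ℝ) • al (sr j)
  w_span : ∀ X ∈ a, X = ∑ j, (2 * ⟪X, al (sr j)⟫ / ‖al (sr j)‖ ^ 2) • w j
  Dn : ℕ
  Dn_pos : 0 < Dn
  A : Matrix (Fin r) (Fin r) ℤ
  bv : Fin r → ℤ
  hA : ∀ i j, (A i j : ℝ) = Dn * ⟪w i, w j⟫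
  hbv : ∀ j, (bv j : ℝ) = Dn * ⟪w j, ∑ i, al i⟫
  blk : Fin r → ℕ
  c : Fin r → Submodule ℝ V
  π : Fin r → V →L[ℝ] V
  π_mem : ∀ j X, π j X ∈ c j
  π_orth : ∀ j X, ∀ Z ∈ c j, ⟪X - π j X, Z⟫ = 0
  c_ad : ∀ j X, ∀ Z ∈ c j, S.ad X Z ∈ c j
  c_θ : ∀ j, ∀ Z ∈ c j, S.θ Z ∈ c j
  c_Ad : ∀ j g, ∀ Z ∈ c j, S.Ad g Z ∈ c j
  w_c : ∀ j, w j ∈ c j
  sr_c : ∀ j, al (sr j) ∈ c j
  blk_eq : ∀ i j, blk i = blk j → c i = c j
  blk_ne : ∀ i j, blk i ≠ blk j → ∀ X ∈ c i, ∀ Z ∈ c j, ⟪X, Z⟫ = 0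
  c_min : ∀ (j) (I : Submodule ℝ V), (∀ X, ∀ Z ∈ I, S.ad X Z ∈ I) → (∀ Z ∈ I, S.θ Z ∈ I) →
    c j ≤ I ∨ ∀ X ∈ I, ∀ Z ∈ c j, S.ad X Z = 0
  pair_c : ∀ i j, ⟪al i, w j⟫ ≠ 0 → Y i ∈ c j ∧ η i ∈ c j
  perp_k : ∀ X, (∀ j, ∀ Z ∈ c j, ⟪X, Z⟫ = 0) → S.θ X = X

namespace Roots
variable {S : Sym V G} {r : ℕ} (R : Roots S r)

/-- The weight with coordinates `n`. -/
noncomputable def wt (n : Fin r → ℕ) : V := ∑ j, (n j : ℝ) • R.w j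

/-- The raising operators. -/
noncomputable def Np (i : Fin R.m) (f : G → ℂ) : G → ℂ :=
  S.D (R.Y i) f + Complex.I • S.D (R.η i) f

/-- The lowering operators. -/
noncomputable def Nm (i : Fin R.m) (f : G → ℂ) : G → ℂ :=
  S.D (R.Y i) f - Complex.I • S.D (R.η i) f

/-- `f` is a highest weight vector of weight `lam` for the right action. -/
def Top (lam : V) (f : G → ℂ) : Prop :=
  IsRep f ∧ (∀ i, R.Np i f = 0) ∧ ∀ X ∈ R.a, S.D X f = (Complex.I * (⟪lam, X⟫ : ℝ)) • f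

/-- Normalised highest weight functions on `K \ G`. -/
def IsHW (lam : V) (F : G → ℂ) : Prop := R.Top lam F ∧ S.LInv F ∧ F 1 = 1

/-- Normalised hermitian highest weight functions. -/
def IsG (lam : V) (g : G → ℂ) : Prop :=
  R.Top lam g ∧ (∀ c, S.D (R.M c) g = 0) ∧ (∀ u, g u⁻¹ = conj (g u)) ∧ g 1 = 1

/-- The displacement of the fundamental weight `w j`. -/
noncomputable def ρ (j : Fin r) (u : G) : ℝ := ‖S.Ad u (R.w j) - R.w j‖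

/-- The displacement on the component of `j`. -/
noncomputable def δ (j : Fin r) (u : G) : ℝ := ‖(S.Ad u - 1) * R.π j‖

/-- The volume of a multi-scale ball. -/
noncomputable def vol (μ : Measure G) (ε : Fin r → ℝ) : ℝ := μ.real {u | ∀ j, R.ρ j u ≤ ε j}

end Roots

/-- The spherical representations. -/
structure HWD {S : Sym V G} {r : ℕ} (R : Roots S r) (μ : Measure G) extends Orth μ r where
  F : (Fin r → ℕ) → G → ℂ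
  ev : ∀ n, Fin (dim n) → ℝ
  hw : ∀ n ∈ Λ, R.IsHW (R.wt n) (F n)
  uniq : ∀ lam ∈ R.a, ∀ F', R.IsHW lam F' → ∃ n ∈ Λ, lam = R.wt n ∧ F' = F n
  FM : ∀ n ∈ Λ, ∀ c, S.D (R.M c) (F n) = 0
  bas_rep : ∀ n ∈ Λ, ∀ i, IsRep (bas n i)
  bas_inv : ∀ n ∈ Λ, ∀ i, S.LInv (bas n i)
  span_eq : ∀ n ∈ Λ, Submodule.span ℂ (Set.range (bas n))
    = Submodule.span ℂ (Set.range fun g => Rt g (F n))
  lower : ∀ n ∈ Λ, ∀ U : Submodule ℂ (G → ℂ), F n ∈ U →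
    (∀ v ∈ U, v ∈ Submodule.span ℂ (Set.range (bas n)) → ∀ i, R.Nm i v ∈ U) →
    Submodule.span ℂ (Set.range (bas n)) ≤ U
  eig : ∀ n ∈ Λ, ∀ i, S.D R.H0 (bas n i) = (Complex.I * ev n i) • bas n i
  top : ∀ n ∈ Λ, ∃ (i0 : Fin (dim n)) (c : ℂ), bas n i0 = c • F n ∧
    ev n i0 = ⟪R.wt n, R.H0⟫ ∧ ∀ i, i ≠ i0 → ev n i < ⟪R.wt n, R.H0⟫
  φ_eq : ∀ n ∈ Λ, ∀ x, φ n x = ∫ k, F n (x * k) ∂S.ν
  φ_mem : ∀ n ∈ Λ, φ n ∈ Submodule.span ℂ (Set.range (bas n))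
  φ_right : ∀ n ∈ Λ, ∀ k ∈ S.K, ∀ x, φ n (x * k) = φ n x
  expand : ∀ f, IsRep f → S.LInv f → ∃ T : Finset (Fin r → ℕ), ↑T ⊆ Λ ∧
    f = ∑ n ∈ T, ∑ i, ip μ (bas n i) f • bas n i
  expand_bi : ∀ f, IsRep f → S.LInv f → (∀ k ∈ S.K, ∀ x, f (x * k) = f x) →
    ∃ T : Finset (Fin r → ℕ), ↑T ⊆ Λ ∧ f = ∑ n ∈ T, ((dim n : ℂ) * ip μ (φ n) f) • φ n
  casimir : ∀ n ∈ Λ, ∀ v ∈ Submodule.span ℂ (Set.range (bas n)), ∀ x,
    S.cas R.B v x = -((‖R.wt n‖ ^ 2 + ⟪R.wt n, ∑ i, R.al i⟫ : ℝ) : ℂ) * v x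

/-- The diagonal matrix coefficient of the highest weight vector. -/
noncomputable def HWD.g {S : Sym V G} {r : ℕ} {R : Roots S r} {μ : Measure G} (W : HWD R μ)
    (n : Fin r → ℕ) (u : G) : ℂ :=
  ip μ (W.F n) (Rt u (W.F n)) / ip μ (W.F n) (W.F n)

/-- The structure constants of the multiplication by `φ n0`. -/
noncomputable def HWD.T {S : Sym V G} {r : ℕ} {R : Roots S r} {μ : Measure G} (W : HWD R μ)
    (n0 n n' : Fin r → ℕ) : ℂ :=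
  ∫ x, W.φ n0 x * W.φ n x * conj (W.φ n' x) ∂μ

/-! ### The statements -/

def DenseStmt : Prop :=
  ∀ (G : Type) [Group G] [TopologicalSpace G] [MeasurableSpace G] [TG G] (f : G → ℂ),
    Continuous f → ∀ ε : ℝ, 0 < ε → ∃ g, IsRep g ∧ ∀ x, ‖f x - g x‖ < ε

def AdaptStmt : Prop :=
  ∀ (V : Type) [NormedAddCommGroup V] [InnerProductSpace ℝ V] [FiniteDimensional ℝ V]
    (G : Type) [Group G] [TopologicalSpace G] [MeasurableSpace G] (S : Sym V G)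
    (a : Submodule ℝ V), a ≤ S.p → (∀ X ∈ a, ∀ Z ∈ a, S.ad X Z = 0) →
    (∀ X ∈ S.p, (∀ Z ∈ a, S.ad Z X = 0) → X ∈ a) →
    ∃ R : Adapt S (finrank ℝ a), R.a = a

def RootsStmt : Prop :=
  ∀ (V : Type) [NormedAddCommGroup V] [InnerProductSpace ℝ V] [FiniteDimensional ℝ V]
    (G : Type) [Group G] [TopologicalSpace G] [MeasurableSpace G] [TG G] [ConnectedSpace G]
    (S : Sym V G) (r : ℕ), Adapt S r → Nonempty (Roots S r)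

/-- The explicit hermitian highest weight functions (principal minors of `Ad`). -/
def MatStmt : Prop :=
  ∀ (V : Type) [NormedAddCommGroup V] [InnerProductSpace ℝ V] [FiniteDimensional ℝ V]
    (G : Type) [Group G] [TopologicalSpace G] [MeasurableSpace G] [TG G]
    (S : Sym V G) (r : ℕ) (R : Roots S r),
    ∃ (g : Fin r → G → ℂ) (cj : Fin r → ℝ) (c C : ℝ), 0 < c ∧ 0 ≤ C ∧ ∀ j, 0 < cj j ∧
      R.IsG (cj j • R.w j) (g j) ∧ ∀ u, 1 - C * R.ρ j u ^ 2 ≤ ‖g j u‖ ^ 2 ∧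
        ‖g j u‖ ^ 2 ≤ Real.exp (-(c * R.ρ j u ^ 2)) ∧ ‖1 - g j u‖ ≤ C * R.δ j u

/-- Doubling and the lower bound for multi-scale balls. -/
def VolStmt : Prop :=
  ∀ (V : Type) [NormedAddCommGroup V] [InnerProductSpace ℝ V] [FiniteDimensional ℝ V]
    (G : Type) [Group G] [TopologicalSpace G] [MeasurableSpace G] [TG G]
    (μ : Measure G) [BiH μ] (S : Sym V G) (r : ℕ) (R : Roots S r),
    ∃ (c C : ℝ) (Mx : ℕ), 0 < c ∧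
      (∀ ε : Fin r → ℝ, (∀ j, 0 < ε j) → ∀ T : ℝ, 1 ≤ T →
        R.vol μ (fun j => T * ε j) ≤ C * T ^ Mx * R.vol μ ε) ∧
      (∀ (ε : Fin r → ℝ) (η : ℝ), 0 < η → η ≤ 1 → (∀ j, η ≤ ε j ∧ ε j ≤ 1) →
        c * η ^ (2 * (R.m - r)) * ∏ j, ε j ^ 2 ≤ R.vol μ ε)

/-- The Gaussian integral over `K`. -/
def WbStmt : Prop :=
  ∀ (V : Type) [NormedAddCommGroup V] [InnerProductSpace ℝ V] [FiniteDimensional ℝ V]
    (G : Type) [Group G] [TopologicalSpace G] [MeasurableSpace G] [TG G]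
    (S : Sym V G) (r : ℕ) (R : Roots S r), ∃ C : ℝ, ∀ (x : G) (t : Fin r → ℝ), (∀ j, 0 ≤ t j) →
      ∫ k, Real.exp (-∑ j, t j * R.ρ j (S.s (x * k)) ^ 2) ∂S.ν
        ≤ C * ∏ j, (1 + t j * R.δ j (S.s x) ^ 2) ^ (-(1 / 2) : ℝ)

/-- The decay of bounded solutions of the radial equation. -/
def OdeStmt : Prop :=
  ∀ (C0 : ℝ) (m : ℕ), 1 ≤ m → ∃ s0 C : ℝ, 0 < s0 ∧ ∀ c : Fin m → ℝ,
    (∀ i, c i ≠ 0 ∧ |c i| ≤ C0) → ∀ l : ℝ, 0 ≤ l → ∀ u u1 u2 : ℝ → ℂ,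
      (∀ s, HasDerivAt u (u1 s) s) → (∀ s, HasDerivAt u1 (u2 s) s) → Continuous u2 →
      (∀ s, ‖u s‖ ≤ 1) →
      (∀ s, (∀ i, Real.sin (c i * s) ≠ 0) →
        u2 s + ((∑ i, c i * Real.cos (c i * s) / Real.sin (c i * s) : ℝ) : ℂ) * u1 s
          + l * u s = 0) →
      ∀ s, 0 ≤ s → s ≤ s0 → ‖u s‖ ≤ C * (1 + l * s ^ 2) ^ (-(1 / 4) : ℝ)

/-- The decay of spherical functions in rank one near the identity. -/
def Rk1Stmt : Prop :=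
  ∀ (V : Type) [NormedAddCommGroup V] [InnerProductSpace ℝ V] [FiniteDimensional ℝ V]
    (G : Type) [Group G] [TopologicalSpace G] [MeasurableSpace G] [TG G]
    (S : Sym V G) (R : Roots S 1),
    (∀ a : Submodule ℝ V, a ≤ S.p → (∀ X ∈ a, ∀ Z ∈ a, S.ad X Z = 0) → finrank ℝ a ≤ 1) →
    ∃ δ0 C : ℝ, 0 < δ0 ∧ ∀ (φ : G → ℂ) (l : ℝ), IsRep φ → S.LInv φ →
      (∀ k ∈ S.K, ∀ x, φ (x * k) = φ x) → (∀ x, ‖φ x‖ ≤ 1) → 0 ≤ l →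
      (∀ x, S.cas R.B φ x = -(l : ℂ) * φ x) →
      ∀ x, R.δ 0 (S.s x) ≤ δ0 → ‖φ x‖ ≤ C * (1 + l * R.δ 0 (S.s x) ^ 2) ^ (-(1 / 4) : ℝ)

def HwStmt : Prop :=
  ∀ (V : Type) [NormedAddCommGroup V] [InnerProductSpace ℝ V] [FiniteDimensional ℝ V]
    (G : Type) [Group G] [TopologicalSpace G] [MeasurableSpace G] [TG G] [ConnectedSpace G]
    (μ : Measure G) [BiH μ] (S : Sym V G) (r : ℕ) (R : Roots S r), Nonempty (HWD R μ)

/-- The diagonal matrix coefficients. -/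
def GfunStmt : Prop :=
  ∀ (V : Type) [NormedAddCommGroup V] [InnerProductSpace ℝ V] [FiniteDimensional ℝ V]
    (G : Type) [Group G] [TopologicalSpace G] [MeasurableSpace G] [TG G] [ConnectedSpace G]
    (μ : Measure G) [BiH μ] (S : Sym V G) (r : ℕ) (R : Roots S r) (W : HWD R μ),
    (∀ lam g g', R.IsG lam g → R.IsG lam g' → g = g') ∧
    (∀ lam g, R.IsG lam g → R.IsHW ((2 : ℝ) • lam) fun x => g (S.s x)) ∧
    (∀ n ∈ W.Λ, ∀ n' ∈ W.Λ, n + n' ∈ W.Λ ∧ W.F (n + n') = W.F n * W.F n' ∧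
      W.g (n + n') = W.g n * W.g n') ∧
    ∀ n ∈ W.Λ, R.IsG (R.wt n) (W.g n) ∧ (∀ u, ‖W.g n u‖ ≤ 1) ∧
      (∀ x, W.F n x ^ 2 = W.g n (S.s x)) ∧ ∫ u, ‖W.g n u‖ ^ 2 ∂μ = 1 / W.dim n ∧
      ∀ k ∈ S.K, 0 ≤ (W.g n k).re ∧ (W.g n k).im = 0

/-- The product of spherical functions. -/
def StepStmt : Prop :=
  ∀ (V : Type) [NormedAddCommGroup V] [InnerProductSpace ℝ V] [FiniteDimensional ℝ V]
    (G : Type) [Group G] [TopologicalSpace G] [MeasurableSpace G] [TG G] [ConnectedSpace G]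
    (μ : Measure G) [BiH μ] (S : Sym V G) (r : ℕ) (R : Roots S r) (W : HWD R μ) (j : Fin r),
    ∀ n0 ∈ W.Λ, (∀ i, i ≠ j → n0 i = 0) → ∃ (C0 : ℕ) (c0 : ℝ), 0 < c0 ∧ ∀ n ∈ W.Λ,
      c0 ≤ W.dim (n + n0) * (W.T n0 n (n + n0)).re ∧ ∀ n' ∈ W.Λ,
        0 ≤ (W.T n0 n n').re ∧ (W.T n0 n n').im = 0 ∧ (W.T n0 n n' ≠ 0 →
          ∀ l, |(n' l : ℤ) - n l| ≤ C0 ∧ (R.blk l ≠ R.blk j → n' l = n l))

/-- The generators of the semigroup of spherical weights and Gaussian bounds. -/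
def GenStmt : Prop :=
  ∀ (V : Type) [NormedAddCommGroup V] [InnerProductSpace ℝ V] [FiniteDimensional ℝ V]
    (G : Type) [Group G] [TopologicalSpace G] [MeasurableSpace G] [TG G] [ConnectedSpace G]
    (μ : Measure G) [BiH μ] (S : Sym V G) (r : ℕ) (R : Roots S r) (W : HWD R μ),
    ∃ (e : ℕ) (c C : ℝ), 0 < e ∧ 0 < c ∧ 0 ≤ C ∧
      (∀ j, e • (Pi.single j 1 : Fin r → ℕ) ∈ W.Λ ∧ ∀ x,
        ‖W.F (e • Pi.single j 1) x‖ ≤ Real.exp (-(c * R.ρ j (S.s x) ^ 2)) ∧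
        1 - (W.F (e • Pi.single j 1) x).re ≤ C * R.δ j (S.s x) ^ 2) ∧
      ∀ n ∈ W.Λ, ∀ u, ‖W.g n u‖ ^ 2 ≤ Real.exp (-(c * ∑ j, n j * R.ρ j u ^ 2)) ∧
        ((∀ j, (1 + n j) * R.ρ j u ^ 2 ≤ c) → c ≤ ‖W.g n u‖ ^ 2)

/-- The size of the dimensions. -/
def DimStmt : Prop :=
  ∀ (V : Type) [NormedAddCommGroup V] [InnerProductSpace ℝ V] [FiniteDimensional ℝ V]
    (G : Type) [Group G] [TopologicalSpace G] [MeasurableSpace G] [TG G] [ConnectedSpace G]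
    (μ : Measure G) [BiH μ] (S : Sym V G) (r : ℕ) (R : Roots S r) (W : HWD R μ),
    ∃ (C : ℝ) (Mx : ℕ),
      (∀ n ∈ W.Λ, ∀ n' ∈ W.Λ, W.dim n ≤ W.dim (n + n')) ∧
      (∀ n ∈ W.Λ, ∀ n' ∈ W.Λ, ∀ T : ℝ, 1 ≤ T → (∀ j, (1 + n' j : ℝ) ≤ T * (1 + n j)) →
        (W.dim n' : ℝ) ≤ C * T ^ Mx * W.dim n) ∧
      ∀ n ∈ W.Λ, ∀ T : ℝ, (∀ j, (1 + n j : ℝ) ≤ T) → 1 ≤ T →
        (W.dim n : ℝ) ≤ C * T ^ (R.m - r) * ∏ j, (1 + n j : ℝ)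

/-- The output of the Lie half. -/
def LieStmt : Prop :=
  ∀ (V : Type) [NormedAddCommGroup V] [InnerProductSpace ℝ V] [FiniteDimensional ℝ V]
    (G : Type) [Group G] [TopologicalSpace G] [MeasurableSpace G] [TG G] [ConnectedSpace G]
    (μ : Measure G) [BiH μ] (S : Sym V G) (r : ℕ) (R : Roots S r),
    (∀ a : Submodule ℝ V, a ≤ S.p → (∀ X ∈ a, ∀ Z ∈ a, S.ad X Z = 0) → finrank ℝ a ≤ r) →
    ∃ Sp : Sph μ r (r + R.m),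
      (∀ n ∈ Sp.Λ, ∀ i, IsRep (Sp.bas n i) ∧ S.LInv (Sp.bas n i) ∧
        ∀ x, S.cas R.B (Sp.bas n i) x = -((Sp.P n : ℂ) / R.Dn) * Sp.bas n i x) ∧
      ∀ f : G → ℂ, Continuous f → S.LInv f →
        (∀ n ∈ Sp.Λ, ∀ i, ip μ (Sp.bas n i) f = 0) → f = 0

end Pool.Agent.MP_ba99b7_an
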