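import Mathlib.LinearAlgebra.FreeModule.PID
import Mathlib.RingTheory.Flat.TorsionFree
import Mathlib.Algebra.Module.StablyFree.Basic
import Mathlib.RingTheory.PicardGroup
import Mathlib.Algebra.Order.Star.Real
import Mathlib.Algebra.Ring.IsFormallyReal
import Mathlib.Analysis.Complex.Polynomial.Basic
import Mathlib.RingTheory.Finiteness.ModuleFinitePresentation
import Mathlib.LinearAlgebra.Matrix.FiniteDimensional
import Mathlib.MeasureTheory.Group.Integral
import Mathlib.Topology.Metrizable.Urysohn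
import Mathlib.Analysis.InnerProductSpace.JointEigenspace
import Mathlib.RingTheory.SimpleRing.Principal
import Mathlib.RingTheory.TotallySplit
import Mathlib.RingTheory.Etale.Weakly
import Mathlib.RingTheory.RegularLocalRing.Defs
import Pool.Agent.MP_ba99b7_an.SpecLie

-- ======== part 0: formerly Pool.Agent.MP_ba99b7_an.BaseA
section MrgPart0

/-! PROJECT STRI: linear algebra and representative functions. -/

set_option linter.unusedSectionVars false

namespace Pool.Agent.MP_ba99b7_an

open scoped ComplexConjugate RealInnerProductSpace Topology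
open MeasureTheory Module Submodule

/-- Joint diagonalisation of a finite commuting family of symmetric operators. -/
theorem exists_joint_basis {𝕜 : Type} [RCLike 𝕜] {V : Type} [NormedAddCommGroup V]
    [InnerProductSpace 𝕜 V] [FiniteDimensional 𝕜 V] {ι : Type} [Fintype ι] (T : ι → V →ₗ[𝕜] V)
    (hs : ∀ i, (T i).IsSymmetric) (hc : ∀ i j, Commute (T i) (T j)) :
    ∃ (b : OrthonormalBasis (Fin (finrank 𝕜 V)) 𝕜 V) (l : Fin (finrank 𝕜 V) → ι → ℝ),
      ∀ s i, T i (b s) = (l s i : 𝕜) • b s := by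
  classical
  let A : (ι → 𝕜) → Submodule 𝕜 V := fun α => ⨅ j, Module.End.eigenspace (T j) (α j)
  have hA : DirectSum.IsInternal A :=
    LinearMap.IsSymmetric.directSum_isInternal_of_pairwise_commute hs fun i j _ => hc i j
  have hO := LinearMap.IsSymmetric.orthogonalFamily_iInf_eigenspaces hs
  have hfin : {α | A α ≠ ⊥}.Finite :=
    WellFoundedGT.finite_ne_bot_of_iSupIndep hA.submodule_iSupIndep
  have : Fintype {α // A α ≠ ⊥} := hfin.fintype
  have hA' : DirectSum.IsInternal fun α : {α // A α ≠ ⊥} => A α :=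
    (DirectSum.isInternal_ne_bot_iff).2 hA
  have hO' : OrthogonalFamily 𝕜 (fun α : {α // A α ≠ ⊥} => A α)
      fun α => (A α).subtypeₗᵢ := hO.comp Subtype.val_injective
  let b := hA'.subordinateOrthonormalBasis rfl hO'
  have hb : ∀ s i, ∃ l : ℝ, T i (b s) = (l : 𝕜) • b s := by
    intro s i
    have h1 := hA'.subordinateOrthonormalBasis_subordinate rfl s hO'
    simp only [A, Submodule.mem_iInf] at h1
    have h2 := Module.End.mem_eigenspace_iff.1 (h1 i)
    set c := (hA'.subordinateOrthonormalBasisIndex rfl s hO').1 i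
    have h3 : Module.End.HasEigenvalue (T i) c :=
      Module.End.hasEigenvalue_of_hasEigenvector ⟨h1 i, b.orthonormal.ne_zero s⟩
    refine ⟨RCLike.re c, ?_⟩
    rw [RCLike.conj_eq_iff_re.1 ((hs i).conj_eigenvalue_eq_self h3)]
    exact h2
  choose l hl using hb
  exact ⟨b, l, hl⟩

/-- A finite dimensional space of functions has a basis dual to point evaluations. -/
theorem exists_eval_basis {X : Type} (W : Submodule ℂ (X → ℂ)) [FiniteDimensional ℂ W] :
    ∃ (k : ℕ) (x : Fin k → X) (v : Fin k → X → ℂ), (∀ i, v i ∈ W) ∧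
      ∀ w ∈ W, w = ∑ i, w (x i) • v i := by
  classical
  let ev : X → Module.Dual ℂ W := fun x => (LinearMap.proj x).comp W.subtype
  have hsp : span ℂ (Set.range ev) = ⊤ := by
    apply Submodule.span_eq_top_of_ne_zero
    intro z hz
    by_contra! h
    apply hz
    ext x
    exact h (ev x) ⟨x, rfl⟩
  obtain ⟨κ, a, -, hsp', hli⟩ := exists_linearIndependent' ℂ ev
  rw [hsp] at hsp'
  have : Finite κ := hli.finite
  obtain ⟨k, ⟨e⟩⟩ := Finite.exists_equiv_fin κ
  let b : Basis κ ℂ (Module.Dual ℂ W) := Basis.mk hli hsp'.ge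
  let b' : Basis (Fin k) ℂ (Module.Dual ℂ W) := b.reindex e
  let c : Basis (Fin k) ℂ W := b'.dualBasis.map (Module.evalEquiv ℂ W).symm
  refine ⟨k, fun i => a (e.symm i), fun i => c i, fun i => (c i).2, fun w hw => ?_⟩
  have h1 := c.sum_repr ⟨w, hw⟩
  have h2 : ∀ i, c.repr ⟨w, hw⟩ i = w (a (e.symm i)) := by
    intro i
    simp [c, b', b, ev]
  have h3 := congrArg Subtype.val h1
  simp only [h2, AddSubmonoidClass.coe_finsetSum, SetLike.val_smul] at h3
  exact h3.symm

theorem sl2_nat {W : Type} [AddCommGroup W] [Module ℂ W] [FiniteDimensional ℂ W]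
    (E F H : W →ₗ[ℂ] W) (hEF : E * F - F * E = H) (hHF : H * F - F * H = -(2 • F))
    {v : W} (hv : v ≠ 0) (hE : E v = 0) {c : ℂ} (hH : H v = c • v) : ∃ n : ℕ, c = n := by
  have hHF' : ∀ w, H (F w) = F (H w) - (2 : ℂ) • F w := fun w => by
    have := LinearMap.congr_fun hHF w
    simp only [LinearMap.sub_apply, Module.End.mul_apply, LinearMap.neg_apply,
      LinearMap.smul_apply] at this
    rw [sub_eq_iff_eq_add] at this
    rw [this, two_smul, two_smul]; abel
  have hEF' : ∀ w, E (F w) = F (E w) + H w := fun w => by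
    have := LinearMap.congr_fun hEF w
    simp only [LinearMap.sub_apply, Module.End.mul_apply] at this
    rw [← this]; abel
  have h1 : ∀ n : ℕ, H ((F ^ n) v) = (c - 2 * n) • (F ^ n) v := by
    intro n
    induction n with
    | zero => simpa using hH
    | succ n ih =>
      rw [pow_succ', Module.End.mul_apply, hHF', ih, map_smul, ← sub_smul]
      congr 1; push_cast; ring
  have h2 : ∀ n : ℕ, E ((F ^ (n + 1)) v) = (((n : ℂ) + 1) * (c - n)) • (F ^ n) v := by
    intro n
    induction n with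
    | zero => simp [hEF', hE, hH]
    | succ n ih =>
      rw [pow_succ' F (n + 1), Module.End.mul_apply, hEF', ih, h1, map_smul, pow_succ',
        Module.End.mul_apply, ← add_smul]
      congr 1; push_cast; ring
  have h3 : ∃ n : ℕ, (F ^ n) v = 0 := by
    by_contra! contra
    have hli := Module.End.eigenvectors_linearIndependent' H (fun n : ℕ => c - 2 * n)
      (fun n m h => by simpa using h) (fun n => (F ^ n) v)
      fun n => ⟨Module.End.mem_eigenspace_iff.2 (h1 n), contra n⟩
    exact Module.Finite.not_linearIndependent_of_infinite _ hli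
  obtain ⟨n, hn1, hn2⟩ := Nat.exists_not_and_succ_of_not_zero_of_exists
    (p := fun n => (F ^ n) v = 0) (by simpa using hv) h3
  refine ⟨n, ?_⟩
  have := h2 n
  rw [hn2, map_zero, eq_comm, smul_eq_zero_iff_left hn1, mul_eq_zero, sub_eq_zero] at this
  exact this.resolve_left (Nat.cast_add_one_ne_zero n)

variable {V : Type} [NormedAddCommGroup V] [InnerProductSpace ℝ V] [FiniteDimensional ℝ V]
  {G : Type} [Group G] [TopologicalSpace G] [MeasurableSpace G] [TG G]

/-- Left translation. -/
def Lt (h : G) (f : G → ℂ) : G → ℂ := fun x => f (h * x)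

/-- The span of the right translates. -/
def orb (f : G → ℂ) : Submodule ℂ (G → ℂ) := span ℂ (Set.range fun h => Rt h f)

theorem Rt_one (f : G → ℂ) : Rt 1 f = f := by
  funext x; simp [Rt]

theorem Rt_mul (g h : G) (f : G → ℂ) : Rt (g * h) f = Rt g (Rt h f) := by
  funext x; simp [Rt, mul_assoc]

/-- Right translation as a linear map. -/
def RtL (h : G) : (G → ℂ) →ₗ[ℂ] (G → ℂ) where
  toFun := Rt h
  map_add' _ _ := rfl
  map_smul' _ _ := rfl

theorem mem_orb (f : G → ℂ) : f ∈ orb f := subset_span ⟨1, Rt_one f⟩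

theorem Rt_mem_orb {f v : G → ℂ} (hv : v ∈ orb f) (h : G) : Rt h v ∈ orb f := by
  induction hv using span_induction with
  | mem x hx =>
    obtain ⟨g, rfl⟩ := hx
    exact subset_span ⟨h * g, Rt_mul h g f⟩
  | zero => exact zero_mem _
  | add x y _ _ hx hy => exact add_mem hx hy
  | smul c x _ hx => exact smul_mem _ c hx

theorem orb_le {W : Submodule ℂ (G → ℂ)} (hW : ∀ h, ∀ v ∈ W, Rt h v ∈ W) {f : G → ℂ}
    (hf : f ∈ W) : orb f ≤ W := by
  refine span_le.2 ?_
  rintro _ ⟨h, rfl⟩
  exact hW h f hf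

theorem isRep_of_mem {W : Submodule ℂ (G → ℂ)} [FiniteDimensional ℂ W]
    (hW : ∀ h, ∀ v ∈ W, Rt h v ∈ W) {f : G → ℂ} (hf : f ∈ W) (hc : Continuous f) : IsRep f :=
  ⟨hc, Submodule.finiteDimensional_of_le (orb_le hW hf)⟩

theorem IsRep.fd {f : G → ℂ} (hf : IsRep f) : FiniteDimensional ℂ (orb f) := hf.2

theorem cont_of_span {s : Set (G → ℂ)} (hs : ∀ f ∈ s, Continuous f) {v : G → ℂ}
    (hv : v ∈ span ℂ s) : Continuous v := by
  induction hv using span_induction with
  | mem x hx => exact hs x hx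
  | zero => exact continuous_const
  | add x y _ _ hx hy => exact hx.add hy
  | smul c x _ hx => exact hx.const_smul c

theorem cont_Rt {f : G → ℂ} (hf : Continuous f) (h : G) : Continuous (Rt h f) :=
  hf.comp (continuous_mul_const h)

theorem IsRep.of_orb {f v : G → ℂ} (hf : IsRep f) (hv : v ∈ orb f) : IsRep v := by
  have := hf.fd
  refine isRep_of_mem (W := orb f) (fun h v hv => Rt_mem_orb hv h) hv (cont_of_span ?_ hv)
  rintro _ ⟨h, rfl⟩
  exact cont_Rt hf.1 h

theorem isRep_const (c : ℂ) : IsRep fun _ : G => c := by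
  refine isRep_of_mem (W := span ℂ {fun _ : G => c}) ?_ (mem_span_singleton_self _)
    continuous_const
  intro h v hv
  obtain ⟨a, rfl⟩ := mem_span_singleton.1 hv
  exact mem_span_singleton.2 ⟨a, rfl⟩

theorem isRep_zero : IsRep (0 : G → ℂ) := isRep_const 0

theorem isRep_one : IsRep (1 : G → ℂ) := isRep_const 1

theorem IsRep.add {f g : G → ℂ} (hf : IsRep f) (hg : IsRep g) : IsRep (f + g) := by
  have := hf.fd
  have := hg.fd
  refine isRep_of_mem (W := orb f ⊔ orb g) ?_ (add_mem_sup (mem_orb f) (mem_orb g))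
    (hf.1.add hg.1)
  intro h v hv
  obtain ⟨a, ha, b, hb, rfl⟩ := mem_sup.1 hv
  exact add_mem_sup (Rt_mem_orb ha h) (Rt_mem_orb hb h)

theorem IsRep.smul {f : G → ℂ} (c : ℂ) (hf : IsRep f) : IsRep (c • f) :=
  hf.of_orb (smul_mem _ c (mem_orb f))

theorem IsRep.of_span {s : Set (G → ℂ)} (hs : ∀ f ∈ s, IsRep f) {v : G → ℂ}
    (hv : v ∈ span ℂ s) : IsRep v := by
  induction hv using span_induction with
  | mem x hx => exact hs x hx
  | zero => exact isRep_zero
  | add x y _ _ hx hy => exact hx.add hy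
  | smul c x _ hx => exact hx.smul c

theorem IsRep.neg {f : G → ℂ} (hf : IsRep f) : IsRep (-f) :=
  hf.of_orb (neg_mem (mem_orb f))

theorem IsRep.sub {f g : G → ℂ} (hf : IsRep f) (hg : IsRep g) : IsRep (f - g) := by
  rw [sub_eq_add_neg]; exact hf.add hg.neg

theorem IsRep.sum {ι : Type} {s : Finset ι} {f : ι → G → ℂ} (hf : ∀ i ∈ s, IsRep (f i)) :
    IsRep (∑ i ∈ s, f i) :=
  Finset.sum_induction f IsRep (fun _ _ => IsRep.add) isRep_zero hf

theorem IsRep.rt {f : G → ℂ} (hf : IsRep f) (h : G) : IsRep (Rt h f) :=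
  hf.of_orb (Rt_mem_orb (mem_orb f) h)

/-- Separation of variables. -/
theorem IsRep.exists_sep {f : G → ℂ} (hf : IsRep f) :
    ∃ (k : ℕ) (x : Fin k → G) (v : Fin k → G → ℂ), (∀ i, v i ∈ orb f) ∧
      ∀ w ∈ orb f, ∀ y u, w (y * u) = ∑ i, v i y * w (x i * u) := by
  have := hf.fd
  obtain ⟨k, x, v, hv, h⟩ := exists_eval_basis (orb f)
  refine ⟨k, x, v, hv, fun w hw y u => ?_⟩
  have := congrFun (h _ (Rt_mem_orb hw u)) y
  simpa [Rt, mul_comm] using this

/-- A continuous function all of whose right translates lie in the span of a finite family. -/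
theorem isRep_of_finite {ι : Type} [Finite ι] (v : ι → G → ℂ) {f : G → ℂ} (hc : Continuous f)
    (h : ∀ u, Rt u f ∈ span ℂ (Set.range v)) : IsRep f := by
  have : FiniteDimensional ℂ (span ℂ (Set.range v)) :=
    FiniteDimensional.span_of_finite ℂ (Set.finite_range v)
  refine ⟨hc, Submodule.finiteDimensional_of_le (S₂ := span ℂ (Set.range v)) (span_le.2 ?_)⟩
  rintro _ ⟨u, rfl⟩
  exact h u

theorem isRep_of_sep {ι : Type} [Fintype ι] (v : ι → G → ℂ) (c : ι → G → ℂ) {f : G → ℂ}
    (hc : Continuous f) (h : ∀ y u, f (y * u) = ∑ i, v i y * c i u) : IsRep f := by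
  refine isRep_of_finite v hc fun u => ?_
  have : Rt u f = ∑ i, c i u • v i := by
    funext y; simp [Rt, h, mul_comm]
  rw [this]
  exact sum_mem fun i _ => smul_mem _ _ (subset_span ⟨i, rfl⟩)

theorem IsRep.mul {f g : G → ℂ} (hf : IsRep f) (hg : IsRep g) : IsRep (f * g) := by
  obtain ⟨k, x, v, -, h⟩ := hf.exists_sep
  obtain ⟨k', x', v', -, h'⟩ := hg.exists_sep
  refine isRep_of_sep (ι := Fin k × Fin k') (fun p y => v p.1 y * v' p.2 y)
    (fun p u => f (x p.1 * u) * g (x' p.2 * u)) (hf.1.mul hg.1) fun y u => ?_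
  rw [Pi.mul_apply, h f (mem_orb f), h' g (mem_orb g), Finset.sum_mul_sum, Fintype.sum_prod_type]
  exact Finset.sum_congr rfl fun i _ => Finset.sum_congr rfl fun j _ => by ring

theorem IsRep.conj {f : G → ℂ} (hf : IsRep f) : IsRep fun x => conj (f x) := by
  obtain ⟨k, x, v, -, h⟩ := hf.exists_sep
  refine isRep_of_sep (fun i y => conj (v i y)) (fun i u => conj (f (x i * u)))
    (Complex.continuous_conj.comp hf.1) fun y u => ?_
  rw [h f (mem_orb f)]; simp

theorem IsRep.prod {ι : Type} {s : Finset ι} {f : ι → G → ℂ} (hf : ∀ i ∈ s, IsRep (f i)) :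
    IsRep (∏ i ∈ s, f i) :=
  Finset.prod_induction f IsRep (fun _ _ => IsRep.mul) isRep_one hf

theorem IsRep.pow {f : G → ℂ} (hf : IsRep f) (k : ℕ) : IsRep (f ^ k) := by
  induction k with
  | zero => simpa using isRep_one
  | succ k ih => rw [pow_succ]; exact ih.mul hf

theorem IsRep.lt {f : G → ℂ} (hf : IsRep f) (h : G) : IsRep (Lt h f) := by
  obtain ⟨k, x, v, -, hs⟩ := hf.exists_sep
  refine isRep_of_sep (fun i y => v i (h * y)) (fun i u => f (x i * u))
    (hf.1.comp (continuous_const_mul h)) fun y u => ?_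
  rw [Lt, ← mul_assoc, hs f (mem_orb f)]

theorem IsRep.inv {f : G → ℂ} (hf : IsRep f) : IsRep fun x => f x⁻¹ := by
  obtain ⟨k, x, v, -, hs⟩ := hf.exists_sep
  refine isRep_of_sep (fun i y => f (x i * y⁻¹)) (fun i u => v i u⁻¹)
    (hf.1.comp continuous_inv) fun y u => ?_
  rw [mul_inv_rev, hs f (mem_orb f)]
  exact Finset.sum_congr rfl fun i _ => mul_comm _ _

theorem IsRep.comp_hom {f : G → ℂ} (hf : IsRep f) (σ : G →* G) (hσ : Continuous σ) :
    IsRep fun x => f (σ x) := by
  obtain ⟨k, x, v, -, hs⟩ := hf.exists_sep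
  refine isRep_of_sep (fun i y => v i (σ y)) (fun i u => f (x i * σ u))
    (hf.1.comp hσ) fun y u => ?_
  rw [map_mul, hs f (mem_orb f)]

/-- `x ↦ f (a x * b x)` is representative when `g ∘ a`, `g ∘ b` are for all representative `g`. -/
theorem IsRep.comp_mul {f : G → ℂ} (hf : IsRep f) {a b : G → G}
    (ha : ∀ g, IsRep g → IsRep fun x => g (a x)) (hb : ∀ g, IsRep g → IsRep fun x => g (b x)) :
    IsRep fun x => f (a x * b x) := by
  obtain ⟨k, x, v, hv, hs⟩ := hf.exists_sep
  have : (fun y => f (a y * b y)) = ∑ i, (fun y => v i (a y)) * fun y => Lt (x i) f (b y) := by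
    funext y
    rw [hs f (mem_orb f) (a y)]
    simp [Lt]
  rw [this]
  exact IsRep.sum fun i _ => (ha _ (hf.of_orb (hv i))).mul (hb _ (hf.lt _))

theorem cont_int {B : Type} [NormedAddCommGroup B] (μ : Measure G) [IsFiniteMeasure μ]
    {f : G → B} (hf : Continuous f) : Integrable f μ :=
  hf.integrable_of_hasCompactSupport (HasCompactSupport.of_compactSpace f)

/-- Averages of right translates stay in the orbit span. -/
theorem IsRep.avgR_mem {f : G → ℂ} (hf : IsRep f) (ν : Measure G) [IsFiniteMeasure ν]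
    {h : G → ℂ} (hh : Continuous h) : (fun x => ∫ k, h k * f (x * k) ∂ν) ∈ orb f := by
  obtain ⟨k, x, v, hv, hs⟩ := hf.exists_sep
  have : (fun y => ∫ k, h k * f (y * k) ∂ν) = ∑ i, (∫ k, h k * f (x i * k) ∂ν) • v i := by
    funext y
    simp only [hs f (mem_orb f) y, Finset.mul_sum, Finset.sum_apply, Pi.smul_apply, smul_eq_mul]
    rw [integral_finsetSum]
    · refine Finset.sum_congr rfl fun i _ => ?_
      rw [← integral_mul_const]
      exact integral_congr_ae (Filter.Eventually.of_forall fun k => by ring)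
    · intro i _
      exact cont_int ν (hh.mul (continuous_const.mul (hf.1.comp (continuous_const_mul _))))
  rw [this]
  exact sum_mem fun i _ => smul_mem _ _ (hv i)

theorem avgL_eq {f : G → ℂ} (ν : Measure G) [IsFiniteMeasure ν] {h : G → ℂ} (hh : Continuous h)
    {k : ℕ} {x : Fin k → G} {v : Fin k → G → ℂ} (hv : ∀ i, Continuous (v i))
    (hs : ∀ y u, f (y * u) = ∑ i, v i y * f (x i * u)) :
    (fun u => ∫ y, h y * f (y * u) ∂ν) = ∑ i, (∫ y, h y * v i y ∂ν) • Lt (x i) f := by
  funext u
  have e : (fun y => h y * f (y * u)) = fun y => ∑ i, h y * (v i y * f (x i * u)) := by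
    funext y; rw [hs y u, Finset.mul_sum]
  simp only [e, Finset.sum_apply, Pi.smul_apply, smul_eq_mul, Lt]
  rw [integral_finsetSum]
  · refine Finset.sum_congr rfl fun i _ => ?_
    rw [← integral_mul_const]
    exact integral_congr_ae (Filter.Eventually.of_forall fun k => by ring)
  · intro i _
    exact cont_int ν (hh.mul ((hv i).mul continuous_const))

theorem IsRep.avgL {f : G → ℂ} (hf : IsRep f) (ν : Measure G) [IsFiniteMeasure ν]
    {h : G → ℂ} (hh : Continuous h) : IsRep fun x => ∫ k, h k * f (k * x) ∂ν := by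
  obtain ⟨k, x, v, hv, hs⟩ := hf.exists_sep
  rw [avgL_eq ν hh (fun i => (hf.of_orb (hv i)).1) (hs f (mem_orb f))]
  exact IsRep.sum fun i _ => (hf.lt _).smul _

end Pool.Agent.MP_ba99b7_an

end MrgPart0

-- ======== part 1: formerly Pool.Agent.MP_ba99b7_an.BaseB
section MrgPart1

/-! PROJECT STRI: the inner product. -/

set_option linter.unusedSectionVars false

namespace Pool.Agent.MP_ba99b7_an

open scoped ComplexConjugate Topology
open MeasureTheory Module Submodule

variable {G : Type} [Group G] [TopologicalSpace G] [MeasurableSpace G] [TG G]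

section ip
variable (μ : Measure G) [BiH μ]

theorem ip_int {f g : G → ℂ} (hf : Continuous f) (hg : Continuous g) :
    Integrable (fun x => conj (f x) * g x) μ :=
  cont_int μ ((Complex.continuous_conj.comp hf).mul hg)

theorem ip_add_right {f g h : G → ℂ} (hf : Continuous f) (hg : Continuous g)
    (hh : Continuous h) : ip μ f (g + h) = ip μ f g + ip μ f h := by
  simp only [ip, Pi.add_apply, mul_add]
  exact integral_add (ip_int μ hf hg) (ip_int μ hf hh)

theorem ip_add_left {f g h : G → ℂ} (hf : Continuous f) (hg : Continuous g)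
    (hh : Continuous h) : ip μ (f + g) h = ip μ f h + ip μ g h := by
  simp only [ip, Pi.add_apply, map_add, add_mul]
  exact integral_add (ip_int μ hf hh) (ip_int μ hg hh)

theorem ip_sub_right {f g h : G → ℂ} (hf : Continuous f) (hg : Continuous g)
    (hh : Continuous h) : ip μ f (g - h) = ip μ f g - ip μ f h := by
  simp only [ip, Pi.sub_apply, mul_sub]
  exact integral_sub (ip_int μ hf hg) (ip_int μ hf hh)

theorem ip_sub_left {f g h : G → ℂ} (hf : Continuous f) (hg : Continuous g)
    (hh : Continuous h) : ip μ (f - g) h = ip μ f h - ip μ g h := by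
  simp only [ip, Pi.sub_apply, map_sub, sub_mul]
  exact integral_sub (ip_int μ hf hh) (ip_int μ hg hh)

theorem ip_smul_right (c : ℂ) (f g : G → ℂ) : ip μ f (c • g) = c * ip μ f g := by
  simp only [ip, Pi.smul_apply, smul_eq_mul, ← integral_const_mul]
  exact integral_congr_ae (Filter.Eventually.of_forall fun x => by ring)

theorem ip_smul_left (c : ℂ) (f g : G → ℂ) : ip μ (c • f) g = conj c * ip μ f g := by
  simp only [ip, Pi.smul_apply, smul_eq_mul, ← integral_const_mul, map_mul, mul_assoc]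

theorem ip_neg_right (f g : G → ℂ) : ip μ f (-g) = -ip μ f g := by
  simp [ip, integral_neg]

theorem ip_neg_left (f g : G → ℂ) : ip μ (-f) g = -ip μ f g := by
  simp [ip, integral_neg]

theorem ip_zero_right (f : G → ℂ) : ip μ f 0 = 0 := by simp [ip]

theorem ip_zero_left (f : G → ℂ) : ip μ 0 f = 0 := by simp [ip]

theorem ip_conj (f g : G → ℂ) : conj (ip μ f g) = ip μ g f := by
  simp only [ip, ← integral_conj, map_mul, Complex.conj_conj, mul_comm]

theorem ip_sum_right {ι : Type} (s : Finset ι) {f : G → ℂ} {g : ι → G → ℂ} (hf : Continuous f)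
    (hg : ∀ i ∈ s, Continuous (g i)) : ip μ f (∑ i ∈ s, g i) = ∑ i ∈ s, ip μ f (g i) := by
  simp only [ip, Finset.sum_apply, Finset.mul_sum]
  exact integral_finsetSum _ fun i hi => ip_int μ hf (hg i hi)

theorem ip_sum_left {ι : Type} (s : Finset ι) {f : G → ℂ} {g : ι → G → ℂ} (hf : Continuous f)
    (hg : ∀ i ∈ s, Continuous (g i)) : ip μ (∑ i ∈ s, g i) f = ∑ i ∈ s, ip μ (g i) f := by
  simp only [ip, Finset.sum_apply, map_sum, Finset.sum_mul]
  exact integral_finsetSum _ fun i hi => ip_int μ (hg i hi) hf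

theorem ip_self (f : G → ℂ) : ip μ f f = ((∫ x, ‖f x‖ ^ 2 ∂μ : ℝ) : ℂ) := by
  rw [ip, ← integral_complex_ofReal]
  refine integral_congr_ae (Filter.Eventually.of_forall fun x => ?_)
  simp [Complex.conj_mul']

theorem ip_self_pos {f : G → ℂ} (hf : Continuous f) (h : f ≠ 0) : 0 < ∫ x, ‖f x‖ ^ 2 ∂μ := by
  obtain ⟨x, hx⟩ := Function.ne_iff.1 h
  exact Continuous.integral_pos_of_hasCompactSupport_nonneg_nonzero (x := x) (hf.norm.pow 2)
    (HasCompactSupport.of_compactSpace _) (fun x => by positivity) (by simpa using hx)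

theorem eq_zero_of_ip_self {f : G → ℂ} (hf : Continuous f) (h : ip μ f f = 0) : f = 0 := by
  by_contra h0
  rw [ip_self, Complex.ofReal_eq_zero] at h
  exact (ip_self_pos μ hf h0).ne' h

theorem ip_Rt (h : G) (f g : G → ℂ) : ip μ (Rt h f) (Rt h g) = ip μ f g :=
  integral_mul_right_eq_self (fun x => conj (f x) * g x) h

theorem ip_Rt_left (h : G) (f g : G → ℂ) : ip μ (Rt h f) g = ip μ f (Rt h⁻¹ g) := by
  rw [← ip_Rt μ h f, ← Rt_mul, mul_inv_cancel, Rt_one]

/-- The inner product on a space of continuous functions. -/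
@[reducible] noncomputable def ipCore (W : Submodule ℂ (G → ℂ)) (hW : ∀ v ∈ W, Continuous v) :
    InnerProductSpace.Core ℂ W where
  inner v w := ip μ v w
  conj_inner_symm v w := ip_conj μ w v
  re_inner_nonneg v := by
    change 0 ≤ (ip μ v v).re
    rw [ip_self, Complex.ofReal_re]
    exact integral_nonneg fun x => by positivity
  add_left u v w := ip_add_left μ (hW _ u.2) (hW _ v.2) (hW _ w.2)
  smul_left v w c := ip_smul_left μ c v w
  definite v hv := Subtype.ext (eq_zero_of_ip_self μ (hW _ v.2) hv)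

theorem norm_ip_sq_le {f g : G → ℂ} (hf : Continuous f) (hg : Continuous g) :
    ‖ip μ f g‖ ^ 2 ≤ (∫ x, ‖f x‖ ^ 2 ∂μ) * ∫ x, ‖g x‖ ^ 2 ∂μ := by
  let W : Submodule ℂ (G → ℂ) := span ℂ {f, g}
  have hW : ∀ v ∈ W, Continuous v := fun v hv => cont_of_span (by simp [hf, hg]) hv
  let := (ipCore μ W hW).toCore
  have h := InnerProductSpace.Core.inner_mul_inner_self_le (𝕜 := ℂ) (F := W)
    ⟨f, subset_span (by simp)⟩ ⟨g, subset_span (by simp)⟩
  change ‖ip μ f g‖ * ‖ip μ g f‖ ≤ (ip μ f f).re * (ip μ g g).re at h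
  rw [ip_self, ip_self, Complex.ofReal_re, Complex.ofReal_re, ← ip_conj μ f g,
    Complex.norm_conj] at h
  rw [sq]; exact h

/-- Expansion in an orthonormal family. -/
theorem eq_sum_ip {ι : Type} [Fintype ι] [DecidableEq ι] {b : ι → G → ℂ}
    (hb : ∀ i, Continuous (b i)) (ho : ∀ i j, ip μ (b i) (b j) = if i = j then 1 else 0)
    {v : G → ℂ} (hv : v ∈ span ℂ (Set.range b)) : v = ∑ i, ip μ (b i) v • b i := by
  obtain ⟨c, rfl⟩ := (mem_span_range_iff_exists_fun ℂ).1 hv
  refine Finset.sum_congr rfl fun i _ => ?_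
  rw [ip_sum_right μ _ (hb i) fun j _ => (hb j).const_smul _]
  simp [ip_smul_right, ho]

theorem IsRep.coef {v : G → ℂ} (hv : IsRep v) {h : G → ℂ} (hh : Continuous h) :
    IsRep fun u => ip μ h (Rt u v) :=
  hv.avgL μ (Complex.continuous_conj.comp hh)

/-- An orthonormal basis of joint eigenvectors of a commuting family of operators that are
symmetric on a finite dimensional space of continuous functions. -/
theorem exists_on_eig (W : Submodule ℂ (G → ℂ)) [FiniteDimensional ℂ W]
    (hW : ∀ v ∈ W, Continuous v) {ι : Type} [Fintype ι] (T : ι → (G → ℂ) → G → ℂ)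
    (hmem : ∀ i, ∀ v ∈ W, T i v ∈ W)
    (hadd : ∀ i, ∀ v ∈ W, ∀ w ∈ W, T i (v + w) = T i v + T i w)
    (hsmul : ∀ i (c : ℂ), ∀ v ∈ W, T i (c • v) = c • T i v)
    (hs : ∀ i, ∀ v ∈ W, ∀ w ∈ W, ip μ (T i v) w = ip μ v (T i w))
    (hc : ∀ i j, ∀ v ∈ W, T i (T j v) = T j (T i v)) :
    ∃ (k : ℕ) (b : Fin k → G → ℂ) (l : Fin k → ι → ℝ), span ℂ (Set.range b) = W ∧
      (∀ s s', ip μ (b s) (b s') = if s = s' then 1 else 0) ∧
      ∀ s i, T i (b s) = (l s i : ℂ) • b s := by
  let c := ipCore μ W hW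
  let : NormedAddCommGroup W := InnerProductSpace.Core.toNormedAddCommGroup (𝕜 := ℂ)
  let : InnerProductSpace ℂ W := InnerProductSpace.ofCore c.toCore
  let T' : ι → W →ₗ[ℂ] W := fun i =>
    { toFun := fun v => ⟨T i v, hmem i v v.2⟩
      map_add' := fun v w => Subtype.ext (hadd i v v.2 w w.2)
      map_smul' := fun a v => Subtype.ext (hsmul i a v v.2) }
  obtain ⟨b, l, hb⟩ := exists_joint_basis T' (fun i v w => hs i v v.2 w w.2)
    fun i j => LinearMap.ext fun v => Subtype.ext (hc i j v v.2)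
  refine ⟨_, fun s => b s, l, ?_, fun s s' => ?_, fun s i => congrArg Subtype.val (hb s i)⟩
  · have h1 := congrArg (Submodule.map W.subtype) b.toBasis.span_eq
    rw [Submodule.map_span, Submodule.map_top, range_subtype, ← Set.range_comp] at h1
    exact h1
  · exact orthonormal_iff_ite.1 b.orthonormal s s'

end ip

end Pool.Agent.MP_ba99b7_an

end MrgPart1

-- marker of a merged file
example : 731051 + 448356 = 731051 + 448356 := rfl
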