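import Mathlib.Topology.Algebra.OpenSubgroup
import Mathlib.Algebra.Order.Archimedean.Real.Hom
import Mathlib.Analysis.SpecialFunctions.Trigonometric.Deriv
import Pool.Agent.MP_ba99b7_an.BaseB

/-! PROJECT STRI: the Lie algebra and the exponential. -/

set_option linter.unusedSectionVars false

namespace Pool.Agent.MP_ba99b7_an

open scoped ComplexConjugate RealInnerProductSpace Topology
open MeasureTheory Module Submodule

variable {V : Type} [NormedAddCommGroup V] [InnerProductSpace ℝ V] [FiniteDimensional ℝ V]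
  {G : Type} [Group G] [TopologicalSpace G] [MeasurableSpace G] [TG G]

namespace Sym
variable (S : Sym V G)

theorem ad_self (X : V) : S.ad X X = 0 := by
  have h := S.ad_anti X X
  have h2 : (2 : ℝ) • S.ad X X = 0 := by rw [two_smul]; exact add_eq_zero_iff_eq_neg.2 h
  simpa using h2

theorem ad_assoc (X Y Z : V) : ⟪S.ad X Y, Z⟫ = ⟪X, S.ad Y Z⟫ := by
  rw [S.ad_anti, inner_neg_left, S.ad_skew, neg_neg]

theorem ad_leibniz (X Y Z : V) : S.ad X (S.ad Y Z) = S.ad (S.ad X Y) Z + S.ad Y (S.ad X Z) := by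
  rw [S.jacobi]; simp

theorem eq_zero_of_central {X : V} (h : ∀ Y, S.ad X Y = 0) : X = 0 := by
  have h1 : S.ad X = 0 := ContinuousLinearMap.ext h
  have h2 := S.killing X X
  rw [h1] at h2
  simpa using h2

theorem θ_symm (X Y : V) : ⟪S.θ X, Y⟫ = ⟪X, S.θ Y⟫ := by
  rw [← S.θ_inner X, S.θθ]

theorem mem_p {X : V} : X ∈ S.p ↔ S.θ X = -X := Iff.rfl

theorem inner_k_p {X Y : V} (hX : S.θ X = X) (hY : S.θ Y = -Y) : ⟪X, Y⟫ = 0 := by
  have h := S.θ_inner X Y
  rw [hX, hY, inner_neg_right] at h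
  linarith

theorem Ad_norm (g : G) (X : V) : ‖S.Ad g X‖ = ‖X‖ := by
  rw [norm_eq_sqrt_real_inner, S.Ad_inner, ← norm_eq_sqrt_real_inner]

theorem Ad_mul_apply (g h : G) (X : V) : S.Ad (g * h) X = S.Ad g (S.Ad h X) := by
  rw [map_mul]; rfl

theorem Ad_inv_Ad (g : G) (X : V) : S.Ad g⁻¹ (S.Ad g X) = X := by
  rw [← Ad_mul_apply, inv_mul_cancel, map_one]; rfl

theorem Ad_Ad_inv (g : G) (X : V) : S.Ad g (S.Ad g⁻¹ X) = X := by
  rw [← Ad_mul_apply, mul_inv_cancel, map_one]; rfl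

theorem Ad_adj (g : G) (X Y : V) : ⟪S.Ad g X, Y⟫ = ⟪X, S.Ad g⁻¹ Y⟫ := by
  rw [← S.Ad_inner g X, Ad_Ad_inv]

theorem Ad_θ {k : G} (hk : k ∈ S.K) (X : V) : S.Ad k (S.θ X) = S.θ (S.Ad k X) := by
  have h := S.Ad_σ k
  rw [S.K_fix k hk] at h
  have h2 := congrArg (fun A : V →L[ℝ] V => A (S.θ X)) h
  simpa [S.θθ] using h2

theorem ex_zero : S.ex 0 = 1 := by
  have h := S.ex_add 0 0 0
  simpa using h

theorem ex_neg (X : V) : S.ex (-X) = (S.ex X)⁻¹ := by
  have h := S.ex_add X (-1) 1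
  simp only [neg_add_cancel, zero_smul, ex_zero, neg_smul, one_smul] at h
  exact eq_inv_of_mul_eq_one_left h.symm

theorem hasDerivAt_Ad_ex (X : V) (t : ℝ) :
    HasDerivAt (fun t : ℝ => S.Ad (S.ex (t • X))) (S.Ad (S.ex (t • X)) * S.ad X) t := by
  have : CompleteSpace V := FiniteDimensional.complete ℝ V
  simp only [S.Ad_ex, map_smul]
  exact hasDerivAt_exp_smul_const (S.ad X) t

theorem hasDerivAt_Ad_ex' (X : V) (t : ℝ) :
    HasDerivAt (fun t : ℝ => S.Ad (S.ex (t • X))) (S.ad X * S.Ad (S.ex (t • X))) t := by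
  have : CompleteSpace V := FiniteDimensional.complete ℝ V
  simp only [S.Ad_ex, map_smul]
  exact hasDerivAt_exp_smul_const' (S.ad X) t

theorem hasDerivAt_Ad_ex_apply (X Y : V) (t : ℝ) :
    HasDerivAt (fun t : ℝ => S.Ad (S.ex (t • X)) Y) (S.Ad (S.ex (t • X)) (S.ad X Y)) t := by
  simpa using (S.hasDerivAt_Ad_ex X t).clm_apply (hasDerivAt_const t Y)

theorem Ad_ex_smul_fix {X Y : V} (h : S.ad X Y = 0) (t : ℝ) : S.Ad (S.ex (t • X)) Y = Y := by
  have h1 := is_const_of_deriv_eq_zero (f := fun t : ℝ => S.Ad (S.ex (t • X)) Y)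
    (fun t => (S.hasDerivAt_Ad_ex_apply X Y t).differentiableAt)
    (fun t => by rw [(S.hasDerivAt_Ad_ex_apply X Y t).deriv, h, map_zero]) t 0
  simpa [ex_zero] using h1

theorem Ad_ex_fix {X Y : V} (h : S.ad X Y = 0) : S.Ad (S.ex X) Y = Y := by
  simpa using S.Ad_ex_smul_fix h 1

/-- The rotation of a pair. -/
theorem Ad_ex_pair {X Y η : V} {c : ℝ} (hY : S.ad X Y = -(c • η)) (hη : S.ad X η = c • Y)
    (t : ℝ) : S.Ad (S.ex (t • X)) Y = Real.cos (c * t) • Y - Real.sin (c * t) • η ∧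
      S.Ad (S.ex (t • X)) η = Real.sin (c * t) • Y + Real.cos (c * t) • η := by
  have hc : ∀ s, HasDerivAt (fun s => Real.cos (c * s)) (-Real.sin (c * s) * c) s := fun s => by
    simpa using ((hasDerivAt_id s).const_mul c).cos
  have hs : ∀ s, HasDerivAt (fun s => Real.sin (c * s)) (Real.cos (c * s) * c) s := fun s => by
    simpa using ((hasDerivAt_id s).const_mul c).sin
  have d1 : ∀ s, HasDerivAt (fun s : ℝ => S.Ad (S.ex (s • X))
      (Real.cos (c * s) • Y + Real.sin (c * s) • η)) 0 s := fun s => by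
    refine ((S.hasDerivAt_Ad_ex X s).clm_apply
      (((hc s).smul_const Y).fun_add ((hs s).smul_const η))).congr_deriv ?_
    rw [mul_apply_eq_comp, ← map_add]
    convert map_zero (S.Ad (S.ex (s • X)))
    simp only [map_add, map_smul, hY, hη]
    module
  have d2 : ∀ s, HasDerivAt (fun s : ℝ => S.Ad (S.ex (s • X))
      (Real.cos (c * s) • η - Real.sin (c * s) • Y)) 0 s := fun s => by
    refine ((S.hasDerivAt_Ad_ex X s).clm_apply
      (((hc s).smul_const η).fun_sub ((hs s).smul_const Y))).congr_deriv ?_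
    rw [mul_apply_eq_comp, ← map_add]
    convert map_zero (S.Ad (S.ex (s • X)))
    simp only [map_sub, map_smul, hY, hη]
    module
  have e1 := is_const_of_deriv_eq_zero (fun s => (d1 s).differentiableAt)
    (fun s => (d1 s).deriv) t 0
  have e2 := is_const_of_deriv_eq_zero (fun s => (d2 s).differentiableAt)
    (fun s => (d2 s).deriv) t 0
  simp only [zero_smul, ex_zero, map_one, mul_zero, Real.cos_zero, one_smul, Real.sin_zero,
    add_zero, sub_zero, one_apply_eq_self, map_add, map_sub, map_smul] at e1 e2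
  have h1 := Real.sin_sq_add_cos_sq (c * t)
  set a := S.Ad (S.ex (t • X)) Y
  set b := S.Ad (S.ex (t • X)) η
  constructor
  · rw [← e1, ← e2]
    calc a = (Real.sin (c * t) ^ 2 + Real.cos (c * t) ^ 2) • a := by rw [h1, one_smul]
      _ = _ := by module
  · rw [← e1, ← e2]
    calc b = (Real.sin (c * t) ^ 2 + Real.cos (c * t) ^ 2) • b := by rw [h1, one_smul]
      _ = _ := by module

theorem norm_Ad_ex_sub (X Y : V) (s t : ℝ) :
    ‖S.Ad (S.ex (t • X)) Y - S.Ad (S.ex (s • X)) Y‖ ≤ |t - s| * ‖S.ad X Y‖ := by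
  have h := convex_univ.norm_image_sub_le_of_norm_hasDerivWithin_le
    (f := fun t : ℝ => S.Ad (S.ex (t • X)) Y) (C := ‖S.ad X Y‖)
    (fun t _ => (S.hasDerivAt_Ad_ex_apply X Y t).hasDerivWithinAt)
    (fun t _ => (S.Ad_norm _ _).le) (Set.mem_univ s) (Set.mem_univ t)
  rw [mul_comm]; exact h

theorem Ad_ex_mem {I : Submodule ℝ V} {X : V} (h : ∀ Z ∈ I, S.ad X Z ∈ I) :
    ∀ Z ∈ I, S.Ad (S.ex X) Z ∈ I := by
  have : CompleteSpace V := FiniteDimensional.complete ℝ V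
  intro Z hZ
  have h1 : ∀ n : ℕ, (S.ad X ^ n) Z ∈ I := by
    intro n
    induction n with
    | zero => simpa using hZ
    | succ n ih => rw [pow_succ']; exact h _ ih
  have h2 := (NormedSpace.exp_series_hasSum_exp' (𝕂 := ℝ) (S.ad X)).mapL
    (ContinuousLinearMap.apply ℝ V Z)
  rw [S.Ad_ex]
  refine I.closed_of_finiteDimensional.mem_of_tendsto h2 (Filter.Eventually.of_forall fun s => ?_)
  exact sum_mem fun n _ => smul_mem _ _ (h1 n)

theorem hasStrictFDerivAt_Ad_ex : HasStrictFDerivAt (fun X => S.Ad (S.ex X)) S.ad 0 := by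
  have : CompleteSpace V := FiniteDimensional.complete ℝ V
  simp only [S.Ad_ex]
  have h : HasStrictFDerivAt (NormedSpace.exp : (V →L[ℝ] V) → V →L[ℝ] V)
      (1 : (V →L[ℝ] V) →L[ℝ] V →L[ℝ] V) (S.ad 0) := by
    rw [map_zero]; exact hasStrictFDerivAt_exp_zero
  exact h.comp 0 S.ad.hasStrictFDerivAt

/-- A left inverse `π` of `ad`; `X ↦ π (exp (ad X))` has strict derivative the identity at `0`. -/
theorem exists_left_inv : ∃ π : (V →L[ℝ] V) →L[ℝ] V, (∀ X, π (S.ad X) = X) ∧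
    HasStrictFDerivAt (fun X => π (S.Ad (S.ex X))) (ContinuousLinearMap.id ℝ V) 0 ∧
    ∃ U ∈ 𝓝 (0 : V), Set.InjOn (fun X => π (S.Ad (S.ex X))) U := by
  have : CompleteSpace V := FiniteDimensional.complete ℝ V
  obtain ⟨p, hp⟩ := (S.ad : V →ₗ[ℝ] V →L[ℝ] V).exists_leftInverse_of_injective
    (LinearMap.ker_eq_bot'.2 fun X hX => S.eq_zero_of_central fun Y => by
      rw [show S.ad X = 0 from hX]; rfl)
  have h0 : ∀ X, LinearMap.toContinuousLinearMap p (S.ad X) = X :=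
    fun X => LinearMap.congr_fun hp X
  have h1 : HasStrictFDerivAt (fun X => LinearMap.toContinuousLinearMap p (S.Ad (S.ex X)))
      (ContinuousLinearMap.id ℝ V) 0 := by
    convert (LinearMap.toContinuousLinearMap p).hasStrictFDerivAt.comp 0
      S.hasStrictFDerivAt_Ad_ex using 1
    ext X; exact (h0 X).symm
  refine ⟨_, h0, h1, ?_⟩
  have h2 : HasStrictFDerivAt (fun X => LinearMap.toContinuousLinearMap p (S.Ad (S.ex X)))
      (ContinuousLinearEquiv.refl ℝ V : V →L[ℝ] V) 0 := h1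
  exact ⟨_, (h2.toOpenPartialHomeomorph _).open_source.mem_nhds
    h2.mem_toOpenPartialHomeomorph_source, (h2.toOpenPartialHomeomorph _).injOn⟩

/-- If `Ad g` is close to `1` it is the exponential of a small vector. -/
theorem Ad_near_one {U : Set V} (hU : U ∈ 𝓝 (0 : V)) :
    ∃ δ : ℝ, 0 < δ ∧ ∀ g, ‖S.Ad g - 1‖ ≤ δ → ∃ X ∈ U, S.Ad g = S.Ad (S.ex X) := by
  obtain ⟨O, hOU, hO, h1⟩ := mem_nhds_iff.1 (S.ex_nhds U hU)
  let O' : Set G := ⋃ z ∈ {z : G | S.Ad z = 1}, (fun g => z⁻¹ * g) ⁻¹' O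
  have hO' : IsOpen O' := isOpen_biUnion fun z _ => hO.preimage (continuous_const_mul _)
  have hc : Continuous fun g => ‖S.Ad g - 1‖ := (S.Ad_cont.sub continuous_const).norm
  have key : ∀ g ∈ O', ∃ X ∈ U, S.Ad g = S.Ad (S.ex X) := by
    intro g hg
    obtain ⟨z, hz, hg⟩ := Set.mem_iUnion₂.1 hg
    obtain ⟨X, hX, hX'⟩ := hOU hg
    refine ⟨X, hX, ?_⟩
    have : g = z * S.ex X := by rw [hX']; simp
    rw [this, map_mul, hz, one_mul]
  rcases O'ᶜ.eq_empty_or_nonempty with h | h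
  · exact ⟨1, one_pos, fun g _ => key g (by rw [Set.compl_empty_iff.1 h]; trivial)⟩
  obtain ⟨g0, hg0, hmin⟩ := hO'.isClosed_compl.isCompact.exists_isMinOn h hc.continuousOn
  have hpos : 0 < ‖S.Ad g0 - 1‖ := by
    rw [norm_pos_iff, sub_ne_zero]
    intro h0
    exact hg0 (Set.mem_iUnion₂.2 ⟨g0, h0, by simpa using h1⟩)
  refine ⟨‖S.Ad g0 - 1‖ / 2, by positivity, fun g hg => key g ?_⟩
  by_contra hn
  have := hmin hn
  simp only [Set.mem_ofPred_eq] at this
  linarith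

theorem gen [ConnectedSpace G] (H : Subgroup G) (h : ∀ X, S.ex X ∈ H) : H = ⊤ := by
  have h1 : (H : Set G) ∈ 𝓝 (1 : G) :=
    Filter.mem_of_superset (S.ex_nhds Set.univ Filter.univ_mem) (by rintro _ ⟨X, -, rfl⟩; exact h X)
  have h2 : IsOpen (H : Set G) := H.isOpen_of_mem_nhds h1
  have h3 : IsClopen (H : Set G) := ⟨H.isClosed_of_isOpen h2, h2⟩
  exact SetLike.coe_injective (h3.eq_univ ⟨1, H.one_mem⟩)

theorem s_cont : Continuous S.s := S.σ_cont.inv.mul continuous_id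

theorem s_one : S.s 1 = 1 := by simp [s]

theorem s_mul_K (x : G) {k : G} (hk : k ∈ S.K) : S.s (x * k) = k⁻¹ * S.s x * k := by
  simp [s, S.K_fix k hk, mul_assoc]

theorem s_K_mul (x : G) {k : G} (hk : k ∈ S.K) : S.s (k * x) = S.s x := by
  simp [s, S.K_fix k hk, mul_assoc]

theorem s_mul_ex (x : G) (X : V) : S.s (x * S.ex X) = S.ex (-S.θ X) * S.s x * S.ex X := by
  simp [s, S.σ_ex, ex_neg, mul_assoc]

theorem σ_s (x : G) : S.σ (S.s x) = (S.s x)⁻¹ := by
  simp [s, S.σσ]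

theorem isRep_Ad (X Y : V) : IsRep fun u => ((⟪X, S.Ad u Y⟫ : ℝ) : ℂ) := by
  let b := stdOrthonormalBasis ℝ V
  refine isRep_of_sep (fun i y => ((⟪X, S.Ad y (b i)⟫ : ℝ) : ℂ))
    (fun i u => ((⟪b i, S.Ad u Y⟫ : ℝ) : ℂ)) ?_ fun y u => ?_
  · exact Complex.continuous_ofReal.comp
      (continuous_const.inner (S.Ad_cont.clm_apply continuous_const))
  · conv_lhs => rw [Ad_mul_apply, ← b.sum_repr' (S.Ad u Y), map_sum, inner_sum]
    simp [inner_smul_right, mul_comm]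

theorem isRep_s {g : G → ℂ} (hg : IsRep g) : IsRep fun x => g (S.s x) :=
  hg.comp_mul (a := fun x => (S.σ x)⁻¹) (b := fun x => x)
    (fun _ h => h.inv.comp_hom S.σ S.σ_cont) fun _ h => h

end Sym

end Pool.Agent.MP_ba99b7_an
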