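import Mathlib.Algebra.Lie.OfAssociative
import Mathlib.Analysis.Calculus.Deriv.Prod
import Mathlib.Analysis.Calculus.Deriv.Star
import Pool.Agent.MP_ba99b7_an.BaseC

-- ======== part 0: formerly Pool.Agent.MP_ba99b7_an.BaseD
section MrgPart0

/-! PROJECT STRI: derivatives of representative functions. -/

set_option linter.unusedSectionVars false

namespace Pool.Agent.MP_ba99b7_an

open scoped ComplexConjugate RealInnerProductSpace Topology
open MeasureTheory Module Submodule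

variable {V : Type} [NormedAddCommGroup V] [InnerProductSpace ℝ V] [FiniteDimensional ℝ V]
  {G : Type} [Group G] [TopologicalSpace G] [MeasurableSpace G] [TG G]

namespace Sym
variable {S : Sym V G}

theorem hasDerivAt_D0 {f : G → ℂ} (hf : IsRep f) (X : V) (x : G) :
    HasDerivAt (fun t : ℝ => f (x * S.ex (t • X))) (S.D X f x) 0 :=
  (S.D_diff f hf X x).hasDerivAt

theorem hasDerivAt_D {f : G → ℂ} (hf : IsRep f) (X : V) (x : G) (t : ℝ) :
    HasDerivAt (fun t : ℝ => f (x * S.ex (t • X))) (S.D X f (x * S.ex (t • X))) t := by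
  have h := hasDerivAt_D0 (S := S) hf X (x * S.ex (t • X))
  have h2 : HasDerivAt (fun s : ℝ => f (x * S.ex (t • X) * S.ex (s • X)))
      (S.D X f (x * S.ex (t • X))) (t - t) := by rwa [sub_self]
  have h3 := h2.comp_sub_const t t
  refine h3.congr_of_eventuallyEq (Filter.Eventually.of_forall fun s => ?_)
  simp only [mul_assoc, ← S.ex_add, add_sub_cancel]

theorem D_of_hasDerivAt {f : G → ℂ} {X : V} {x : G} {c : ℂ}
    (h : HasDerivAt (fun t : ℝ => f (x * S.ex (t • X))) c 0) : S.D X f x = c := h.deriv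

theorem D_mem {W : Submodule ℂ (G → ℂ)} [FiniteDimensional ℂ W] (hW : ∀ h, ∀ v ∈ W, Rt h v ∈ W)
    {f : G → ℂ} (hf : f ∈ W) (hr : IsRep f) (X : V) : S.D X f ∈ W := by
  obtain ⟨k, x, v, hv, h⟩ := exists_eval_basis W
  have : S.D X f = ∑ i, S.D X f (x i) • v i := by
    funext y
    apply D_of_hasDerivAt
    have e : (fun t : ℝ => f (y * S.ex (t • X)))
        = fun t => ∑ i, f (x i * S.ex (t • X)) * v i y := by
      funext t
      simpa [Rt] using congrFun (h _ (hW (S.ex (t • X)) f hf)) y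
    rw [e]
    simpa using HasDerivAt.fun_sum fun i (_ : i ∈ Finset.univ) =>
      (hasDerivAt_D0 (S := S) hr X (x i)).mul_const (v i y)
  rw [this]
  exact sum_mem fun i _ => smul_mem _ _ (hv i)

theorem D_mem_orb {f v : G → ℂ} (hf : IsRep f) (hv : v ∈ orb f) (X : V) : S.D X v ∈ orb f := by
  have := hf.fd
  exact D_mem (fun h v hv => Rt_mem_orb hv h) hv (hf.of_orb hv) X

theorem isRep_D {f : G → ℂ} (hf : IsRep f) (X : V) : IsRep (S.D X f) :=
  hf.of_orb (D_mem_orb hf (mem_orb f) X)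

theorem D_smul_vec {f : G → ℂ} (hf : IsRep f) (c : ℝ) (X : V) :
    S.D (c • X) f = (c : ℂ) • S.D X f := by
  funext x
  apply D_of_hasDerivAt
  have h : HasDerivAt (fun t : ℝ => f (x * S.ex (t • X))) (S.D X f x) ((0 : ℝ) * c) := by
    rw [zero_mul]; exact hasDerivAt_D0 hf X x
  have h2 := h.scomp (0 : ℝ) ((hasDerivAt_id (0 : ℝ)).mul_const c)
  simp only [smul_smul]
  simpa [Function.comp_def] using h2

theorem D_add_vec {f : G → ℂ} (hf : IsRep f) (X Y : V) : S.D (X + Y) f = S.D X f + S.D Y f :=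
  S.D_add f hf X Y

theorem D_zero_vec (f : G → ℂ) : S.D 0 f = 0 := by
  funext x; simp [Dr]

theorem D_neg_vec {f : G → ℂ} (hf : IsRep f) (X : V) : S.D (-X) f = -S.D X f := by
  simpa using D_smul_vec (S := S) hf (-1) X

theorem D_sub_vec {f : G → ℂ} (hf : IsRep f) (X Y : V) : S.D (X - Y) f = S.D X f - S.D Y f := by
  rw [sub_eq_add_neg, D_add_vec hf, D_neg_vec hf, sub_eq_add_neg]

theorem D_sum_vec {f : G → ℂ} (hf : IsRep f) {ι : Type} (s : Finset ι) (X : ι → V) :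
    S.D (∑ i ∈ s, X i) f = ∑ i ∈ s, S.D (X i) f := by
  classical
  induction s using Finset.induction_on with
  | empty => simpa using D_zero_vec f
  | insert i s hi ih => rw [Finset.sum_insert hi, Finset.sum_insert hi, D_add_vec hf, ih]

theorem D_basis {f : G → ℂ} (hf : IsRep f) {ι : Type} [Fintype ι] (B : OrthonormalBasis ι ℝ V)
    (X : V) : S.D X f = ∑ b, ((⟪B b, X⟫ : ℝ) : ℂ) • S.D (B b) f := by
  conv_lhs => rw [← B.sum_repr' X, D_sum_vec hf]
  exact Finset.sum_congr rfl fun b _ => D_smul_vec hf _ _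

theorem D_bracket {f : G → ℂ} (hf : IsRep f) (X Y : V) :
    S.D X (S.D Y f) = S.D Y (S.D X f) + S.D (S.ad X Y) f := by
  rw [show S.D (S.ad X Y) f = _ from S.D_br f hf X Y]; abel

theorem D_add_fun {f g : G → ℂ} (hf : IsRep f) (hg : IsRep g) (X : V) :
    S.D X (f + g) = S.D X f + S.D X g :=
  funext fun x => D_of_hasDerivAt ((hasDerivAt_D0 hf X x).add (hasDerivAt_D0 hg X x))

theorem D_sub_fun {f g : G → ℂ} (hf : IsRep f) (hg : IsRep g) (X : V) :
    S.D X (f - g) = S.D X f - S.D X g :=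
  funext fun x => D_of_hasDerivAt ((hasDerivAt_D0 hf X x).sub (hasDerivAt_D0 hg X x))

theorem D_smul_fun (c : ℂ) (f : G → ℂ) (X : V) : S.D X (c • f) = c • S.D X f := by
  funext x
  simp only [Dr, Pi.smul_apply, smul_eq_mul]
  exact deriv_const_mul_field c

theorem D_neg_fun (f : G → ℂ) (X : V) : S.D X (-f) = -S.D X f := by
  simpa using D_smul_fun (S := S) (-1) f X

theorem D_const (c : ℂ) (X : V) : S.D X (fun _ : G => c) = 0 := by
  funext x; simp [Dr]

theorem D_zero_fun (X : V) : S.D X (0 : G → ℂ) = 0 := D_const 0 X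

theorem D_sum_fun {ι : Type} (s : Finset ι) {f : ι → G → ℂ} (hf : ∀ i ∈ s, IsRep (f i)) (X : V) :
    S.D X (∑ i ∈ s, f i) = ∑ i ∈ s, S.D X (f i) := by
  funext x
  apply D_of_hasDerivAt
  simpa using HasDerivAt.fun_sum fun i hi => hasDerivAt_D0 (S := S) (hf i hi) X x

theorem D_mul {f g : G → ℂ} (hf : IsRep f) (hg : IsRep g) (X : V) :
    S.D X (f * g) = S.D X f * g + f * S.D X g := by
  funext x
  apply D_of_hasDerivAt
  simpa [ex_zero] using (hasDerivAt_D0 (S := S) hf X x).fun_mul (hasDerivAt_D0 (S := S) hg X x)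

theorem D_conj (f : G → ℂ) (X : V) :
    S.D X (fun x => conj (f x)) = fun x => conj (S.D X f x) := by
  funext x
  exact deriv.star

theorem D_Lt (h : G) (f : G → ℂ) (X : V) : S.D X (Lt h f) = Lt h (S.D X f) := by
  funext x; simp [Dr, Lt, mul_assoc]

theorem mul_ex (h : G) (X : V) : h * S.ex X = S.ex (S.Ad h X) * h := by
  rw [← S.ex_conj]; simp

theorem ex_mul (h : G) (X : V) : S.ex X * h = h * S.ex (S.Ad h⁻¹ X) := by
  rw [mul_ex, Ad_Ad_inv]

theorem Rt_D (h : G) (f : G → ℂ) (X : V) : Rt h (S.D X f) = S.D (S.Ad h X) (Rt h f) := by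
  funext x
  simp only [Dr, Rt, mul_assoc, mul_ex h, map_smul]

theorem D_Ad (X Y Z : V) : S.D Z (fun u => ((⟪X, S.Ad u Y⟫ : ℝ) : ℂ))
    = fun u => ((⟪X, S.Ad u (S.ad Z Y)⟫ : ℝ) : ℂ) := by
  funext u
  apply D_of_hasDerivAt
  have h := ((hasDerivAt_const (0 : ℝ) (S.Ad u⁻¹ X)).inner ℝ
    (S.hasDerivAt_Ad_ex_apply Z Y 0)).ofReal_comp
  simp only [zero_smul, ex_zero, map_one, one_apply_eq_self, inner_zero_left, add_zero] at h
  simp only [Ad_mul_apply]
  have e : ∀ W, ⟪X, S.Ad u W⟫ = ⟪S.Ad u⁻¹ X, W⟫ := fun W => by rw [Ad_adj, inv_inv]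
  simp only [e]
  exact h

/-- The left derivative in terms of the right derivative. -/
theorem hasDerivAt_left {f : G → ℂ} (hf : IsRep f) (X : V) (u : G) :
    HasDerivAt (fun t : ℝ => f (S.ex (t • X) * u)) (S.D (S.Ad u⁻¹ X) f u) 0 := by
  simpa only [ex_mul u, map_smul] using hasDerivAt_D0 (S := S) hf (S.Ad u⁻¹ X) u

/-- The two-sided chain rule. -/
theorem hasDerivAt_two {f : G → ℂ} (hf : IsRep f) (X Y : V) (u : G) :
    HasDerivAt (fun t : ℝ => f (S.ex (t • X) * u * S.ex (t • Y)))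
      (S.D (S.Ad u⁻¹ X) f u + S.D Y f u) 0 := by
  obtain ⟨k, x, v, hv, hs⟩ := hf.exists_sep
  have h1 := HasDerivAt.fun_sum fun i (_ : i ∈ Finset.univ) =>
    (hasDerivAt_left (S := S) (hf.of_orb (hv i)) X u).fun_mul (hasDerivAt_D0 (S := S) hf Y (x i))
  have h2 := HasDerivAt.fun_sum fun i (_ : i ∈ Finset.univ) =>
    (hasDerivAt_left (S := S) (hf.of_orb (hv i)) X u).mul_const (f (x i * 1))
  simp only [← hs f (mem_orb f)] at h1 h2
  simp only [mul_one] at h2
  have h3 := (hasDerivAt_left (S := S) hf X u).unique h2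
  have h4 := hs _ (D_mem_orb (S := S) hf (mem_orb f) Y) u 1
  simp only [mul_one] at h4
  refine h1.congr_deriv ?_
  simp only [zero_smul, ex_zero, mul_one, one_mul, Finset.sum_add_distrib]
  rw [h3, h4]

theorem LInv.D {f : G → ℂ} (hf : S.LInv f) (X : V) : S.LInv (S.D X f) := by
  intro k hk x
  simp only [Dr, mul_assoc, hf k hk]

theorem LInv.rt {f : G → ℂ} (hf : S.LInv f) (h : G) : S.LInv (Rt h f) := by
  intro k hk x
  simp only [Rt, mul_assoc, hf k hk]

theorem LInv.of_span {s : Set (G → ℂ)} (hs : ∀ f ∈ s, S.LInv f) {v : G → ℂ}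
    (hv : v ∈ span ℂ s) : S.LInv v := by
  induction hv using span_induction with
  | mem x hx => exact hs x hx
  | zero => exact fun _ _ _ => rfl
  | add x y _ _ hx hy => exact fun k hk z => by simp [hx k hk, hy k hk]
  | smul c x _ hx => exact fun k hk z => by simp [hx k hk]

/-- A function invariant on the left under the one-parameter group of `Y`. -/
theorem D_eq_zero_of_left {f : G → ℂ} {Y : V} (hY : ∀ (t : ℝ) x, f (S.ex (t • Y) * x) = f x)
    (u : G) : S.D (S.Ad u⁻¹ Y) f u = 0 := by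
  apply D_of_hasDerivAt
  simp only [← map_smul, ← ex_mul, hY]
  exact hasDerivAt_const _ _

theorem D_eq_zero_of_right {f : G → ℂ} (hf : ∀ k ∈ S.K, ∀ x, f (x * k) = f x) {Y : V}
    (hY : S.θ Y = Y) : S.D Y f = 0 := by
  funext x
  apply D_of_hasDerivAt
  have : ∀ t : ℝ, f (x * S.ex (t • Y)) = f x := fun t => hf _ (S.ex_K _ (by simp [hY])) x
  simp only [this]
  exact hasDerivAt_const _ _

theorem Rt_ex_of_eig {f : G → ℂ} (hf : IsRep f) {X : V} {c : ℂ} (h : S.D X f = c • f) (t : ℝ) :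
    Rt (S.ex (t • X)) f = Complex.exp (c * t) • f := by
  funext x
  have d : ∀ s : ℝ, HasDerivAt (fun s : ℝ => Complex.exp (-(c * s)) * f (x * S.ex (s • X))) 0 s := by
    intro s
    have h1 : HasDerivAt (fun s : ℝ => Complex.exp (-(c * s))) (Complex.exp (-(c * s)) * -c) s := by
      simpa using ((Complex.ofRealCLM.hasDerivAt (x := s)).const_mul c).fun_neg.cexp
    refine (h1.fun_mul (hasDerivAt_D hf X x s)).congr_deriv ?_
    rw [h]; simp only [Pi.smul_apply, smul_eq_mul]; ring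
  have e := is_const_of_deriv_eq_zero (fun s => (d s).differentiableAt) (fun s => (d s).deriv) t 0
  simp only [Complex.ofReal_zero, mul_zero, neg_zero, Complex.exp_zero, zero_smul, ex_zero,
    mul_one, one_mul] at e
  simp only [Rt, Pi.smul_apply, smul_eq_mul]
  rw [← e, ← mul_assoc, ← Complex.exp_add]; simp

theorem D_avgL (ν : Measure G) [IsFiniteMeasure ν] {v : G → ℂ} (hv : IsRep v) {h : G → ℂ}
    (hh : Continuous h) (X : V) :
    S.D X (fun u => ∫ y, h y * v (y * u) ∂ν) = fun u => ∫ y, h y * S.D X v (y * u) ∂ν := by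
  obtain ⟨k, x, w, hw, hs⟩ := hv.exists_sep
  have hc := fun i => (hv.of_orb (hw i)).1
  rw [avgL_eq ν hh hc (hs v (mem_orb v)), avgL_eq ν hh hc (hs _ (D_mem_orb hv (mem_orb v) X)),
    D_sum_fun _ fun i _ => (hv.lt _).smul _]
  simp only [D_smul_fun, D_Lt]

section ip
variable (μ : Measure G) [BiH μ]

theorem D_coef {v : G → ℂ} (hv : IsRep v) {h : G → ℂ} (hh : Continuous h) (X : V) :
    S.D X (fun u => ip μ h (Rt u v)) = fun u => ip μ h (Rt u (S.D X v)) :=
  D_avgL μ hv (Complex.continuous_conj.comp hh) X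

theorem integral_D {f : G → ℂ} (hf : IsRep f) (X : V) : ∫ x, S.D X f x ∂μ = 0 := by
  have h := congrFun (D_avgL (S := S) μ hf (h := fun _ => 1) continuous_const X) 1
  simp only [one_mul, mul_one, integral_mul_right_eq_self, D_const] at h
  exact h.symm

theorem ip_D {f g : G → ℂ} (hf : IsRep f) (hg : IsRep g) (X : V) :
    ip μ (S.D X f) g = -ip μ f (S.D X g) := by
  have h := integral_D (S := S) μ (hf.conj.mul hg) X
  rw [D_mul hf.conj hg, D_conj] at h
  simp only [Pi.add_apply, Pi.mul_apply] at h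
  rw [integral_add (ip_int μ (isRep_D hf X).1 hg.1) (ip_int μ hf.1 (isRep_D hg X).1)] at h
  exact eq_neg_of_add_eq_zero_left h

end ip

end Sym

end Pool.Agent.MP_ba99b7_an

end MrgPart0

-- ======== part 1: formerly Pool.Agent.MP_ba99b7_an.Base
section MrgPart1

/-! PROJECT STRI: the calculus of `Sym`, `IsRep`, `D` and `ip`. -/

set_option linter.unusedSectionVars false

namespace Pool.Agent.MP_ba99b7_an

open scoped ComplexConjugate RealInnerProductSpace Topology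
open MeasureTheory Module Submodule

variable {V : Type} [NormedAddCommGroup V] [InnerProductSpace ℝ V] [FiniteDimensional ℝ V]
  {G : Type} [Group G] [TopologicalSpace G] [MeasurableSpace G] [TG G]

namespace Sym
variable {S : Sym V G}

/-- A `D`-stable subspace of the orbit span of a representative function is `Rt`-stable. -/
theorem sub [ConnectedSpace G] {f : G → ℂ} (hf : IsRep f) {U : Submodule ℂ (G → ℂ)}
    (hU : U ≤ orb f) (hD : ∀ X, ∀ v ∈ U, S.D X v ∈ U) : ∀ h, ∀ v ∈ U, Rt h v ∈ U := by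
  have hfd : FiniteDimensional ℂ (orb f) := hf.2
  have hfU : FiniteDimensional ℂ U := Submodule.finiteDimensional_of_le hU
  obtain ⟨k, x, v, hv, hw⟩ := exists_eval_basis U
  have hr : ∀ i, IsRep (v i) := fun i => hf.of_orb (hU (hv i))
  have key : ∀ X : V, ∀ w ∈ U, Rt (S.ex X)⁻¹ w ∈ U := by
    intro X
    let L : (Fin k → ℂ) →L[ℂ] (Fin k → ℂ) := LinearMap.toContinuousLinearMap
      (Matrix.toLin' (Matrix.of fun i j => S.D X (v i) (x j)))
    have hL : ∀ (y : Fin k → ℂ) i, L y i = ∑ j, S.D X (v i) (x j) * y j := by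
      intro y i
      simp [L, Matrix.mulVec, dotProduct]
    have h1 : ∀ y i, v i y
        = ∑ j, NormedSpace.exp (-L) (Pi.single j 1) i * v j (y * S.ex X) := by
      intro y i
      let Y : ℝ → Fin k → ℂ := fun t i => v i (y * S.ex (t • X))
      have hY : ∀ t, HasDerivAt Y (L (Y t)) t := by
        intro t
        refine hasDerivAt_pi.2 fun i => ?_
        have h2 := hasDerivAt_D (S := S) (hr i) X y t
        rw [hw _ (hD X _ (hv i)), Finset.sum_apply] at h2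
        rw [hL]
        exact h2
      have hM : ∀ t : ℝ, HasDerivAt
          (fun t : ℝ => (NormedSpace.exp (t • (-L))).restrictScalars ℝ)
          ((NormedSpace.exp (t • (-L)) * (-L)).restrictScalars ℝ) t := fun t =>
        (ContinuousLinearMap.restrictScalarsL ℂ (Fin k → ℂ) (Fin k → ℂ) ℝ ℝ).hasFDerivAt.comp_hasDerivAt
          t (hasDerivAt_exp_smul_const (-L) t)
      have hΦ : ∀ t : ℝ, HasDerivAt (fun t : ℝ => NormedSpace.exp (t • (-L)) (Y t)) 0 t := by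
        intro t
        have h3 := (hM t).clm_apply (hY t)
        simpa using h3
      have h4 := is_const_of_deriv_eq_zero (fun t => (hΦ t).differentiableAt)
        (fun t => (hΦ t).deriv) 0 1
      have h40 : (0 : ℝ) • (-L) = 0 := by ext; simp
      simp only [h40, one_smul, NormedSpace.exp_zero, one_apply_eq_self] at h4
      have h5 : Y 0 i = v i y := by simp [Y, S.ex_zero]
      have h6 : Y 1 = ∑ j, v j (y * S.ex X) • (Pi.single j 1 : Fin k → ℂ) := by
        funext l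
        simp [Y, Finset.sum_apply, Pi.single_apply]
      rw [← h5, h4, h6, map_sum, Finset.sum_apply]
      refine Finset.sum_congr rfl fun j _ => ?_
      rw [map_smul, Pi.smul_apply, smul_eq_mul, mul_comm]
    have h7 : ∀ i, Rt (S.ex X)⁻¹ (v i) ∈ U := by
      intro i
      have h8 : Rt (S.ex X)⁻¹ (v i) = ∑ j, NormedSpace.exp (-L) (Pi.single j 1) i • v j := by
        funext y
        rw [Finset.sum_apply]
        unfold Rt
        rw [h1]
        simp
      rw [h8]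
      exact sum_mem fun j _ => smul_mem _ _ (hv j)
    intro w hwU
    have h9 : Rt (S.ex X)⁻¹ w = ∑ i, w (x i) • Rt (S.ex X)⁻¹ (v i) := by
      conv_lhs => rw [hw w hwU]
      funext y
      simp [Rt, Finset.sum_apply]
    rw [h9]
    exact sum_mem fun i _ => smul_mem _ _ (h7 i)
  let H : Subgroup G :=
    { carrier := {h | (∀ w ∈ U, Rt h w ∈ U) ∧ ∀ w ∈ U, Rt h⁻¹ w ∈ U}
      mul_mem' := by
        rintro a b ⟨ha, ha'⟩ ⟨hb, hb'⟩
        refine ⟨fun w hw => ?_, fun w hw => ?_⟩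
        · rw [Rt_mul]; exact ha _ (hb _ hw)
        · rw [mul_inv_rev, Rt_mul]; exact hb' _ (ha' _ hw)
      one_mem' := ⟨fun w hw => by rwa [Rt_one], fun w hw => by rwa [inv_one, Rt_one]⟩
      inv_mem' := by
        rintro a ⟨ha, ha'⟩
        exact ⟨ha', by rwa [inv_inv]⟩ }
  have hH : H = ⊤ := S.gen H fun X => ⟨by
    have := key (-X)
    rwa [S.ex_neg, inv_inv] at this, key X⟩
  intro h
  have : h ∈ H := by rw [hH]; trivial
  exact this.1

/-- Monomials: let `T (A, B) = D A + i D B` for `(A, B)` in a set `P`. If every `D X f` is a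
combination of `f` and the `T f`, then a subspace containing `f` whose intersection with the orbit
span is stable under the `T` contains the orbit span. -/
theorem pbw [ConnectedSpace G] {f : G → ℂ} (hf : IsRep f) (P : Set (V × V))
    (h0 : ∀ X, S.D X f ∈ span ℂ
      (insert f ((fun z : V × V => S.D z.1 f + Complex.I • S.D z.2 f) '' P)))
    {U : Submodule ℂ (G → ℂ)} (hf0 : f ∈ U)
    (hU : ∀ v ∈ U, v ∈ orb f → ∀ z ∈ P, S.D z.1 v + Complex.I • S.D z.2 v ∈ U) :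
    orb f ≤ U := by
  let Fam : Set (Submodule ℂ (G → ℂ)) :=
    {Q | f ∈ Q ∧ ∀ v ∈ Q, ∀ z ∈ P, S.D z.1 v + Complex.I • S.D z.2 v ∈ Q}
  have hUF : U ⊓ orb f ∈ Fam := ⟨⟨hf0, mem_orb f⟩, fun v hv z hz => ⟨hU v hv.1 hv.2 z hz,
    add_mem (D_mem_orb hf hv.2 _) (smul_mem _ _ (D_mem_orb hf hv.2 _))⟩⟩
  have hM : sInf Fam ≤ U ⊓ orb f := sInf_le hUF
  have hMf : f ∈ sInf Fam := Submodule.mem_sInf.2 fun Q hQ => hQ.1
  have hMT : ∀ v ∈ sInf Fam, ∀ z ∈ P, S.D z.1 v + Complex.I • S.D z.2 v ∈ sInf Fam :=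
    fun v hv z hz => Submodule.mem_sInf.2 fun Q hQ => hQ.2 v (Submodule.mem_sInf.1 hv Q hQ) z hz
  have hMr : ∀ v ∈ sInf Fam, IsRep v := fun v hv => hf.of_orb (hM hv).2
  let M' : Submodule ℂ (G → ℂ) :=
    { carrier := {v | v ∈ sInf Fam ∧ ∀ X, S.D X v ∈ sInf Fam}
      add_mem' := by
        rintro a b ⟨ha, ha'⟩ ⟨hb, hb'⟩
        refine ⟨add_mem ha hb, fun X => ?_⟩
        rw [D_add_fun (hMr a ha) (hMr b hb)]
        exact add_mem (ha' X) (hb' X)
      zero_mem' := ⟨zero_mem _, fun X => by rw [D_zero_fun]; exact zero_mem _⟩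
      smul_mem' := by
        rintro c a ⟨ha, ha'⟩
        refine ⟨smul_mem _ _ ha, fun X => ?_⟩
        rw [D_smul_fun]
        exact smul_mem _ _ (ha' X) }
  have hM' : M' ∈ Fam := by
    refine ⟨⟨hMf, fun X => ?_⟩, ?_⟩
    · refine span_le.2 ?_ (h0 X)
      rintro _ (rfl | ⟨z, hz, rfl⟩)
      · exact hMf
      · exact hMT f hMf z hz
    · rintro v ⟨hv, hv'⟩ z hz
      refine ⟨hMT v hv z hz, fun X => ?_⟩
      have hr := hMr v hv
      rw [D_add_fun (isRep_D hr _) ((isRep_D hr _).smul _), D_smul_fun, D_bracket hr X z.1,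
        D_bracket hr X z.2, smul_add, add_add_add_comm]
      exact add_mem (hMT _ (hv' X) z hz) (add_mem (hv' _) (smul_mem _ _ (hv' _)))
  have hD : ∀ X, ∀ v ∈ sInf Fam, S.D X v ∈ sInf Fam := fun X v hv => (sInf_le hM' hv).2 X
  have hR := sub hf (hM.trans inf_le_right) hD
  refine le_trans (span_le.2 ?_) (hM.trans inf_le_left)
  rintro _ ⟨h, rfl⟩
  exact hR h f hMf

theorem cas_indep {f : G → ℂ} (hf : IsRep f) {ι κ : Type} [Fintype ι] [Fintype κ]
    (B : OrthonormalBasis ι ℝ V) (B' : OrthonormalBasis κ ℝ V) : S.cas B f = S.cas B' f := by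
  funext x
  unfold cas
  have h1 : ∀ b, S.D (B b) (S.D (B b) f) x
      = ∑ c, ((⟪B b, B' c⟫ : ℝ) : ℂ) * S.D (B' c) (S.D (B b) f) x := by
    intro b
    rw [D_basis (isRep_D hf (B b)) B' (B b), Finset.sum_apply]
    refine Finset.sum_congr rfl fun c _ => ?_
    rw [Pi.smul_apply, smul_eq_mul, real_inner_comm]
  have h2 : ∀ c, S.D (B' c) (S.D (B' c) f) x
      = ∑ b, ((⟪B b, B' c⟫ : ℝ) : ℂ) * S.D (B' c) (S.D (B b) f) x := by
    intro c
    have h3 := D_basis (S := S) hf B (B' c)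
    conv_lhs => rw [h3]
    rw [D_sum_fun _ fun b _ => (isRep_D hf (B b)).smul _, Finset.sum_apply]
    refine Finset.sum_congr rfl fun b _ => ?_
    rw [D_smul_fun, Pi.smul_apply, smul_eq_mul]
  simp_rw [h1, h2]
  exact Finset.sum_comm

theorem cas_Ad {f : G → ℂ} (hf : IsRep f) {ι : Type} [Fintype ι] (B : OrthonormalBasis ι ℝ V)
    (h x : G) : ∑ b, S.D (S.Ad h (B b)) (S.D (S.Ad h (B b)) f) x = S.cas B f x := by
  let e : V ≃ₗ[ℝ] V := LinearEquiv.ofLinearMap (S.Ad h : V →L[ℝ] V) (S.Ad h⁻¹ : V →L[ℝ] V)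
    (LinearMap.ext fun X => S.Ad_Ad_inv h X) (LinearMap.ext fun X => S.Ad_inv_Ad h X)
  rw [cas_indep hf B (B.map (e.isometryOfInner fun X Y => S.Ad_inner h X Y))]
  rfl

theorem Rt_cas {f : G → ℂ} (hf : IsRep f) {ι : Type} [Fintype ι] (B : OrthonormalBasis ι ℝ V)
    (h : G) : Rt h (S.cas B f) = S.cas B (Rt h f) := by
  funext x
  rw [← cas_Ad (hf.rt h) B h x]
  refine Finset.sum_congr rfl fun b _ => ?_
  rw [← Rt_D, ← Rt_D]
  rfl

end Sym

namespace Adapt
variable {S : Sym V G} {r : ℕ} (R : Adapt S r)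

theorem H_mem (l : Fin r) : R.H l ∈ R.a := by
  rw [R.a_eq]; exact subset_span ⟨l, rfl⟩

/-- Expansion in the adapted basis. -/
theorem expand (X : V) : X = ∑ i, ⟪R.Y i, X⟫ • R.Y i + ∑ i, ⟪R.η i, X⟫ • R.η i
    + ∑ l, ⟪R.H l, X⟫ • R.H l + ∑ c, ⟪R.M c, X⟫ • R.M c := by
  conv_lhs => rw [← R.B.sum_repr' X]
  simp only [R.hB, Fintype.sum_sum_type, Sum.elim_inl, Sum.elim_inr, add_assoc]

theorem cas_eq (f : G → ℂ) (x : G) : S.cas R.B f x
    = ∑ i, S.D (R.Y i) (S.D (R.Y i) f) x + ∑ i, S.D (R.η i) (S.D (R.η i) f) x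
      + ∑ l, S.D (R.H l) (S.D (R.H l) f) x + ∑ c, S.D (R.M c) (S.D (R.M c) f) x := by
  unfold Sym.cas
  simp only [R.hB, Fintype.sum_sum_type, Sum.elim_inl, Sum.elim_inr, add_assoc]

theorem expand_a {X : V} (hX : X ∈ R.a) : X = ∑ l, ⟪R.H l, X⟫ • R.H l := by
  have h1 : ∀ i, ⟪R.Y i, X⟫ = 0 := fun i => S.inner_k_p (R.θY i) (R.θH X hX)
  have h2 : ∀ c, ⟪R.M c, X⟫ = 0 := fun c => S.inner_k_p (R.θM c) (R.θH X hX)
  have h3 : ∀ i, ⟪R.η i, X⟫ = 0 := by
    intro i
    rw [R.a_eq] at hX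
    obtain ⟨c, rfl⟩ := (mem_span_range_iff_exists_fun ℝ).1 hX
    rw [inner_sum]
    refine Finset.sum_eq_zero fun l _ => ?_
    have h4 := R.B.orthonormal.2 (i := Sum.inl (Sum.inr i)) (j := Sum.inr (Sum.inl l)) (by simp)
    simp only [R.hB, Sum.elim_inl, Sum.elim_inr] at h4
    rw [real_inner_smul_right, h4, mul_zero]
  conv_lhs => rw [R.expand X]
  simp [h1, h2, h3]

end Adapt

namespace Roots
variable {S : Sym V G} {r : ℕ} (R : Roots S r)

theorem wt_mem (n : Fin r → ℕ) : R.wt n ∈ R.a :=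
  sum_mem fun j _ => smul_mem _ _ (R.w_mem j)

theorem wt_add (n n' : Fin r → ℕ) : R.wt (n + n') = R.wt n + R.wt n' := by
  unfold wt
  rw [← Finset.sum_add_distrib]
  refine Finset.sum_congr rfl fun j _ => ?_
  rw [Pi.add_apply, Nat.cast_add, add_smul]

theorem al_ne_zero (i : Fin R.m) : R.al i ≠ 0 := by
  intro h
  have := R.pos i
  rw [h, inner_zero_left] at this
  exact lt_irrefl _ this

theorem sum_w_inner (c : Fin r → ℝ) (j : Fin r) :
    2 * ⟪∑ i, c i • R.w i, R.al (R.sr j)⟫ = c j * ‖R.al (R.sr j)‖ ^ 2 := by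
  rw [sum_inner, Finset.mul_sum, Finset.sum_eq_single j]
  · rw [real_inner_smul_left, mul_left_comm, R.dual, if_pos rfl]
  · intro i _ hi
    rw [real_inner_smul_left, mul_left_comm, R.dual, if_neg (Ne.symm hi), mul_zero]
  · intro h; exact absurd (Finset.mem_univ _) h

theorem wt_inner (n : Fin r → ℕ) (j : Fin r) :
    2 * ⟪R.wt n, R.al (R.sr j)⟫ = n j * ‖R.al (R.sr j)‖ ^ 2 :=
  R.sum_w_inner (fun i => n i) j

theorem wt_inj : Function.Injective R.wt := by
  intro n n' h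
  funext j
  have h1 := R.wt_inner n j
  rw [h, R.wt_inner] at h1
  have h2 := mul_right_cancel₀ (pow_ne_zero 2 (norm_ne_zero_iff.2 (R.al_ne_zero _))) h1
  exact_mod_cast h2.symm

theorem w_indep {c : Fin r → ℝ} (h : ∑ j, c j • R.w j = 0) : c = 0 := by
  funext j
  have h1 := R.sum_w_inner c j
  rw [h, inner_zero_left, mul_zero] at h1
  exact (mul_eq_zero.1 h1.symm).resolve_right
    (pow_ne_zero 2 (norm_ne_zero_iff.2 (R.al_ne_zero _)))

theorem al_w_nonneg (i : Fin R.m) (j : Fin r) : 0 ≤ ⟪R.al i, R.w j⟫ := by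
  rw [R.al_eq i, sum_inner]
  refine Finset.sum_nonneg fun l _ => ?_
  rw [real_inner_smul_left, real_inner_comm]
  refine mul_nonneg (Nat.cast_nonneg _) ?_
  have h1 := R.dual l j
  split_ifs at h1
  · nlinarith [sq_nonneg ‖R.al (R.sr l)‖]
  · linarith

theorem π_uniq {j : Fin r} {X Y : V} (hY : Y ∈ R.c j) (h : ∀ Z ∈ R.c j, ⟪X - Y, Z⟫ = 0) :
    R.π j X = Y := by
  have h1 : R.π j X - Y ∈ R.c j := sub_mem (R.π_mem j X) hY
  have h2 : ⟪R.π j X - Y, R.π j X - Y⟫ = 0 := by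
    have h3 : R.π j X - Y = (X - Y) - (X - R.π j X) := by abel
    conv_lhs => enter [2]; rw [h3]
    rw [inner_sub_left, h _ h1, R.π_orth j X _ h1, sub_zero]
  exact sub_eq_zero.1 (inner_self_eq_zero.1 h2)

theorem π_of_mem {j : Fin r} {X : V} (hX : X ∈ R.c j) : R.π j X = X :=
  R.π_uniq hX fun Z _ => by rw [sub_self, inner_zero_left]

theorem π_of_perp {j : Fin r} {X : V} (hX : ∀ Z ∈ R.c j, ⟪X, Z⟫ = 0) : R.π j X = 0 :=
  R.π_uniq (zero_mem _) fun Z hZ => by rw [sub_zero, hX Z hZ]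

theorem π_symm (j : Fin r) (X Z : V) : ⟪R.π j X, Z⟫ = ⟪X, R.π j Z⟫ := by
  have h1 := R.π_orth j X _ (R.π_mem j Z)
  have h2 := R.π_orth j Z _ (R.π_mem j X)
  rw [inner_sub_left] at h1 h2
  rw [real_inner_comm, sub_eq_zero.1 h1, sub_eq_zero.1 h2, real_inner_comm]

theorem π_norm_le (j : Fin r) (X : V) : ‖R.π j X‖ ≤ ‖X‖ := by
  have h1 := R.π_orth j X _ (R.π_mem j X)
  rw [inner_sub_left, real_inner_self_eq_norm_sq] at h1
  have h2 := real_inner_le_norm X (R.π j X)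
  by_contra hc
  push Not at hc
  nlinarith [norm_nonneg X]

theorem π_Ad (j : Fin r) (g : G) (X : V) : R.π j (S.Ad g X) = S.Ad g (R.π j X) :=
  R.π_uniq (R.c_Ad j g _ (R.π_mem j X)) fun Z hZ => by
    rw [← map_sub, S.Ad_adj]; exact R.π_orth j X _ (R.c_Ad j _ Z hZ)

theorem π_θ (j : Fin r) (X : V) : R.π j (S.θ X) = S.θ (R.π j X) :=
  R.π_uniq (R.c_θ j _ (R.π_mem j X)) fun Z hZ => by
    rw [← map_sub, S.θ_symm]; exact R.π_orth j X _ (R.c_θ j Z hZ)

theorem π_blk {i j : Fin r} (h : R.blk i = R.blk j) : R.π i = R.π j := by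
  ext X
  have hc := R.blk_eq i j h
  exact R.π_uniq (hc ▸ R.π_mem j X) fun Z hZ => R.π_orth j X Z (hc ▸ hZ)

theorem ad_perp {j : Fin r} {X Z : V} (hX : ∀ Z ∈ R.c j, ⟪X, Z⟫ = 0) (hZ : Z ∈ R.c j) :
    S.ad X Z = 0 := by
  have h1 : ⟪S.ad X Z, S.ad X Z⟫ = 0 := by
    rw [S.ad_assoc]; exact hX _ (R.c_ad j _ _ (R.c_ad j _ _ hZ))
  exact inner_self_eq_zero.1 h1

theorem δ_conj_le (j : Fin r) (g u : G) : R.δ j (g⁻¹ * u * g) ≤ R.δ j u := by
  unfold δ
  refine ContinuousLinearMap.opNorm_le_bound _ (norm_nonneg _) fun X => ?_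
  have h1 : ((S.Ad (g⁻¹ * u * g) - 1) * R.π j) X
      = S.Ad g⁻¹ (((S.Ad u - 1) * R.π j) (S.Ad g X)) := by
    simp only [mul_apply_eq_comp, sub_apply,
      one_apply_eq_self, S.Ad_mul_apply, R.π_Ad, map_sub, S.Ad_inv_Ad]
  rw [h1, S.Ad_norm]
  refine (ContinuousLinearMap.le_opNorm _ _).trans_eq ?_
  rw [S.Ad_norm]

theorem δ_conj (j : Fin r) (g u : G) : R.δ j (g⁻¹ * u * g) = R.δ j u := by
  refine le_antisymm (R.δ_conj_le j g u) ?_
  have h1 := R.δ_conj_le j g⁻¹ (g⁻¹ * u * g)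
  have h2 : g⁻¹⁻¹ * (g⁻¹ * u * g) * g⁻¹ = u := by group
  rwa [h2] at h1

theorem ρ_le (j : Fin r) (u : G) : R.ρ j u ≤ R.δ j u * ‖R.w j‖ := by
  unfold ρ δ
  refine le_of_eq_of_le ?_ (ContinuousLinearMap.le_opNorm _ _)
  simp only [mul_apply_eq_comp, sub_apply,
    one_apply_eq_self, R.π_of_mem (R.w_c j)]

theorem δ_le (j : Fin r) (u : G) : R.δ j u ≤ 2 := by
  unfold δ
  refine ContinuousLinearMap.opNorm_le_bound _ zero_le_two fun X => ?_
  simp only [mul_apply_eq_comp, sub_apply,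
    one_apply_eq_self]
  refine (norm_sub_le _ _).trans ?_
  rw [S.Ad_norm]
  linarith [R.π_norm_le j X]

theorem isRep_Np {f : G → ℂ} (hf : IsRep f) (i : Fin R.m) : IsRep (R.Np i f) :=
  (Sym.isRep_D hf _).add ((Sym.isRep_D hf _).smul _)

theorem isRep_Nm {f : G → ℂ} (hf : IsRep f) (i : Fin R.m) : IsRep (R.Nm i f) :=
  (Sym.isRep_D hf _).sub ((Sym.isRep_D hf _).smul _)

theorem Np_mul {f g : G → ℂ} (hf : IsRep f) (hg : IsRep g) (i : Fin R.m) :
    R.Np i (f * g) = R.Np i f * g + f * R.Np i g := by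
  unfold Np
  rw [Sym.D_mul hf hg, Sym.D_mul hf hg]
  funext x
  simp only [Pi.add_apply, Pi.mul_apply, Pi.smul_apply, smul_eq_mul]
  ring

theorem Nm_mul {f g : G → ℂ} (hf : IsRep f) (hg : IsRep g) (i : Fin R.m) :
    R.Nm i (f * g) = R.Nm i f * g + f * R.Nm i g := by
  unfold Nm
  rw [Sym.D_mul hf hg, Sym.D_mul hf hg]
  funext x
  simp only [Pi.add_apply, Pi.sub_apply, Pi.mul_apply, Pi.smul_apply, smul_eq_mul]
  ring

theorem ip_Nm (μ : Measure G) [BiH μ] {f g : G → ℂ} (hf : IsRep f) (hg : IsRep g) (i : Fin R.m) :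
    ip μ f (R.Nm i g) = -ip μ (R.Np i f) g := by
  unfold Np Nm
  rw [ip_sub_right μ hf.1 (Sym.isRep_D hg _).1 ((Sym.isRep_D hg _).smul _).1,
    ip_add_left μ (Sym.isRep_D hf _).1 ((Sym.isRep_D hf _).smul _).1 hg.1, ip_smul_right,
    ip_smul_left, Sym.ip_D μ hf hg, Sym.ip_D μ hf hg, Complex.conj_I]
  ring

theorem Np_Nm {f : G → ℂ} (hf : IsRep f) (i : Fin R.m) :
    R.Np i (R.Nm i f) = R.Nm i (R.Np i f) + (2 * Complex.I) • S.D (R.al i) f := by
  have hY := Sym.isRep_D (S := S) hf (R.Y i)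
  have hη := Sym.isRep_D (S := S) hf (R.η i)
  have h1 := Sym.D_bracket (S := S) hf (R.Y i) (R.η i)
  rw [R.Yη, Sym.D_neg_vec hf] at h1
  unfold Np Nm
  simp only [Sym.D_add_fun hY (hη.smul _), Sym.D_sub_fun hY (hη.smul _), Sym.D_smul_fun, h1]
  funext x
  simp only [Pi.add_apply, Pi.sub_apply, Pi.neg_apply, Pi.smul_apply, smul_eq_mul]
  ring

theorem D_Np {f : G → ℂ} (hf : IsRep f) {X : V} (hX : X ∈ R.a) (i : Fin R.m) :
    S.D X (R.Np i f) = R.Np i (S.D X f) + (Complex.I * (⟪R.al i, X⟫ : ℝ)) • R.Np i f := by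
  have hY := Sym.isRep_D (S := S) hf (R.Y i)
  have hη := Sym.isRep_D (S := S) hf (R.η i)
  unfold Np
  rw [Sym.D_add_fun hY (hη.smul _), Sym.D_smul_fun, Sym.D_bracket hf X (R.Y i),
    Sym.D_bracket hf X (R.η i), R.adY X hX, R.adη X hX, Sym.D_neg_vec hf, Sym.D_smul_vec hf,
    Sym.D_smul_vec hf]
  funext x
  simp only [Pi.add_apply, Pi.neg_apply, Pi.smul_apply, smul_eq_mul]
  linear_combination (-((⟪R.al i, X⟫ : ℝ) : ℂ) * S.D (R.η i) f x) * Complex.I_mul_I

theorem D_Nm {f : G → ℂ} (hf : IsRep f) {X : V} (hX : X ∈ R.a) (i : Fin R.m) :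
    S.D X (R.Nm i f) = R.Nm i (S.D X f) - (Complex.I * (⟪R.al i, X⟫ : ℝ)) • R.Nm i f := by
  have hY := Sym.isRep_D (S := S) hf (R.Y i)
  have hη := Sym.isRep_D (S := S) hf (R.η i)
  unfold Nm
  rw [Sym.D_sub_fun hY (hη.smul _), Sym.D_smul_fun, Sym.D_bracket hf X (R.Y i),
    Sym.D_bracket hf X (R.η i), R.adY X hX, R.adη X hX, Sym.D_neg_vec hf, Sym.D_smul_vec hf,
    Sym.D_smul_vec hf]
  funext x
  simp only [Pi.add_apply, Pi.sub_apply, Pi.neg_apply, Pi.smul_apply, smul_eq_mul]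
  linear_combination (-((⟪R.al i, X⟫ : ℝ) : ℂ) * S.D (R.η i) f x) * Complex.I_mul_I

variable {R}

theorem Top.mul {lam lam' : V} {f g : G → ℂ} (hf : R.Top lam f) (hg : R.Top lam' g) :
    R.Top (lam + lam') (f * g) := by
  refine ⟨hf.1.mul hg.1, fun i => ?_, fun X hX => ?_⟩
  · rw [R.Np_mul hf.1 hg.1, hf.2.1, hg.2.1, zero_mul, mul_zero, add_zero]
  · rw [Sym.D_mul hf.1 hg.1, hf.2.2 X hX, hg.2.2 X hX, smul_mul_assoc, mul_smul_comm,
      ← add_smul, inner_add_left, Complex.ofReal_add, mul_add]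

theorem Top.sub {lam : V} {f g : G → ℂ} (hf : R.Top lam f) (hg : R.Top lam g) :
    R.Top lam (f - g) := by
  refine ⟨hf.1.sub hg.1, fun i => ?_, fun X hX => ?_⟩
  · have h1 := hf.2.1 i
    have h2 := hg.2.1 i
    unfold Np at h1 h2 ⊢
    rw [Sym.D_sub_fun hf.1 hg.1, Sym.D_sub_fun hf.1 hg.1, smul_sub, sub_add_sub_comm, h1, h2,
      sub_zero]
  · rw [Sym.D_sub_fun hf.1 hg.1, hf.2.2 X hX, hg.2.2 X hX, smul_sub]

theorem Top.smul {lam : V} {f : G → ℂ} (c : ℂ) (hf : R.Top lam f) : R.Top lam (c • f) := by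
  refine ⟨hf.1.smul c, fun i => ?_, fun X hX => ?_⟩
  · have h1 := hf.2.1 i
    unfold Np at h1 ⊢
    rw [Sym.D_smul_fun, Sym.D_smul_fun, smul_comm, ← smul_add, h1, smul_zero]
  · rw [Sym.D_smul_fun, hf.2.2 X hX, smul_comm]

theorem Top.ip_Nm_self (μ : Measure G) [BiH μ] {lam : V} {f : G → ℂ} (hf : R.Top lam f)
    (i : Fin R.m) : ip μ (R.Nm i f) (R.Nm i f) = (2 * ⟪lam, R.al i⟫ : ℝ) * ip μ f f := by
  rw [R.ip_Nm μ (R.isRep_Nm hf.1 i) hf.1, R.Np_Nm hf.1, hf.2.1, hf.2.2 _ (R.al_mem i), smul_smul]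
  have h1 : R.Nm i (0 : G → ℂ) = 0 := by
    unfold Nm; rw [Sym.D_zero_fun, Sym.D_zero_fun, smul_zero, sub_zero]
  rw [h1, zero_add, ip_smul_left]
  simp only [map_mul, Complex.conj_I, Complex.conj_ofReal, map_ofNat]
  push_cast
  linear_combination (-2 * ((⟪lam, R.al i⟫ : ℝ) : ℂ) * ip μ f f) * Complex.I_mul_I

/-- A highest weight vector killed by `m` generates its orbit span under the lowering
operators. -/
theorem Top.lower [ConnectedSpace G] {lam : V} {f : G → ℂ} (hf : R.Top lam f)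
    (hM : ∀ c, S.D (R.M c) f = 0) {U : Submodule ℂ (G → ℂ)} (hf0 : f ∈ U)
    (hU : ∀ v ∈ U, v ∈ orb f → ∀ i, R.Nm i v ∈ U) : orb f ≤ U := by
  have hT : ∀ v, IsRep v → ∀ i, S.D (R.Y i) v + Complex.I • S.D (-R.η i) v = R.Nm i v := by
    intro v hv i
    rw [Sym.D_neg_vec hv, smul_neg, ← sub_eq_add_neg]; rfl
  refine Sym.pbw (S := S) hf.1 (Set.range fun i => (R.Y i, -R.η i)) (fun X => ?_) hf0 ?_
  · set Q := span ℂ (insert f ((fun z : V × V => S.D z.1 f + Complex.I • S.D z.2 f) ''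
      Set.range fun i => (R.Y i, -R.η i)))
    have h1 : f ∈ Q := subset_span (Or.inl rfl)
    have h2 : ∀ i, R.Nm i f ∈ Q := fun i =>
      subset_span (Or.inr ⟨_, ⟨i, rfl⟩, hT f hf.1 i⟩)
    have h3 : ∀ i, S.D (R.Y i) f = (1 / 2 : ℂ) • R.Nm i f ∧
        S.D (R.η i) f = (Complex.I / 2) • R.Nm i f := by
      intro i
      have h4 := hf.2.1 i
      unfold Np at h4
      unfold Nm
      refine ⟨funext fun x => ?_, funext fun x => ?_⟩
      · have h5 := congrFun h4 x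
        simp only [Pi.add_apply, Pi.sub_apply, Pi.smul_apply, smul_eq_mul, Pi.zero_apply] at h5 ⊢
        linear_combination h5 / 2
      · have h5 := congrFun h4 x
        simp only [Pi.add_apply, Pi.sub_apply, Pi.smul_apply, smul_eq_mul, Pi.zero_apply] at h5 ⊢
        linear_combination (-Complex.I / 2) * h5 + (S.D (R.η i) f x) * Complex.I_mul_I
    rw [R.toAdapt.expand X, Sym.D_add_vec hf.1, Sym.D_add_vec hf.1, Sym.D_add_vec hf.1,
      Sym.D_sum_vec hf.1, Sym.D_sum_vec hf.1, Sym.D_sum_vec hf.1, Sym.D_sum_vec hf.1]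
    refine add_mem (add_mem (add_mem (sum_mem fun i _ => ?_) (sum_mem fun i _ => ?_))
      (sum_mem fun l _ => ?_)) (sum_mem fun c _ => ?_)
    · rw [Sym.D_smul_vec hf.1, (h3 i).1]; exact smul_mem _ _ (smul_mem _ _ (h2 i))
    · rw [Sym.D_smul_vec hf.1, (h3 i).2]; exact smul_mem _ _ (smul_mem _ _ (h2 i))
    · rw [Sym.D_smul_vec hf.1, hf.2.2 _ (R.toAdapt.H_mem l)]
      exact smul_mem _ _ (smul_mem _ _ h1)
    · rw [Sym.D_smul_vec hf.1, hM, smul_zero]; exact zero_mem _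
  · rintro v hv hvo _ ⟨i, rfl⟩
    rw [hT v (hf.1.of_orb hvo)]
    exact hU v hv hvo i

end Roots

end Pool.Agent.MP_ba99b7_an

end MrgPart1

-- marker of a merged file
example : 731051 + 667156 = 731051 + 667156 := rfl
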