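import Mathlib.Topology.Sheaves.Presheaf
import Mathlib.Analysis.PSeries
import Mathlib.Combinatorics.SimpleGraph.Basic
import Mathlib.Data.Finset.Functor
import Pool.Agent.MP_ba99b7_an.Base

/-! PROJECT STRI, module GLUE2: the spectral expansion for an abstract spherical system. -/

set_option linter.unusedSectionVars false

namespace Pool.Agent.MP_ba99b7_an

open scoped ComplexConjugate ENNReal NNReal Topology
open MeasureTheory Finset Filter

namespace Glue2

variable {G : Type} [Group G] [TopologicalSpace G] [MeasurableSpace G] [TG G]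
  {μ : Measure G} [BiH μ] {r d : ℕ} (S : Sph μ r d)

/-- The basis functions read on `G / K`. -/
def vt (n : Fin r → ℕ) (i : Fin (S.dim n)) (x : G) : ℂ := S.bas n i x⁻¹

/-- The coefficients. -/
noncomputable def co (f : G → ℂ) (n : Fin r → ℕ) (i : Fin (S.dim n)) : ℂ := ip μ (vt S n i) f

open Classical in
/-- The component in the block `n`. -/
noncomputable def fn (f : G → ℂ) (n : Fin r → ℕ) : G → ℂ :=
  if n ∈ S.Λ then ∑ i, co S f n i • vt S n i else 0

open Classical in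
/-- The squared norm of the component in the block `n`. -/
noncomputable def nq (f : G → ℂ) (n : Fin r → ℕ) : ℝ :=
  if n ∈ S.Λ then ∑ i, ‖co S f n i‖ ^ 2 else 0

/-- The eigenvalues. -/
noncomputable def lam (D : ℕ) (n : Fin r → ℕ) : ℝ := S.P n / D

variable {S}

theorem vt_cont {n : Fin r → ℕ} (hn : n ∈ S.Λ) (i : Fin (S.dim n)) : Continuous (vt S n i) :=
  (S.bas_cont n hn i).comp continuous_inv

theorem fn_of_mem (f : G → ℂ) {n : Fin r → ℕ} (hn : n ∈ S.Λ) :
    fn S f n = ∑ i, co S f n i • vt S n i := if_pos hn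

theorem fn_of_not (f : G → ℂ) {n : Fin r → ℕ} (hn : n ∉ S.Λ) : fn S f n = 0 := if_neg hn

theorem nq_of_mem (f : G → ℂ) {n : Fin r → ℕ} (hn : n ∈ S.Λ) :
    nq S f n = ∑ i, ‖co S f n i‖ ^ 2 := if_pos hn

theorem nq_nonneg (f : G → ℂ) (n : Fin r → ℕ) : 0 ≤ nq S f n := by
  unfold nq
  split_ifs
  · positivity
  · exact le_rfl

theorem fn_cont (f : G → ℂ) (n : Fin r → ℕ) : Continuous (fn S f n) := by
  by_cases hn : n ∈ S.Λ
  · rw [fn_of_mem f hn, Finset.sum_fn]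
    exact continuous_finsetSum _ fun i _ => (vt_cont hn i).const_smul _
  · rw [fn_of_not f hn]
    exact continuous_zero

theorem ip_vt (n : Fin r → ℕ) (i : Fin (S.dim n)) (n' : Fin r → ℕ) (i' : Fin (S.dim n')) :
    ip μ (vt S n i) (vt S n' i') = ∫ x, conj (S.bas n i x) * S.bas n' i' x ∂μ :=
  integral_inv_eq_self (fun x => conj (S.bas n i x) * S.bas n' i' x) μ

theorem co_fn_self (f : G → ℂ) {n : Fin r → ℕ} (hn : n ∈ S.Λ) (i : Fin (S.dim n)) :
    co S (fn S f n) n i = co S f n i := by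
  rw [fn_of_mem f hn, co, ip_sum_right μ _ (vt_cont hn i) fun j _ => (vt_cont hn j).const_smul _]
  simp [ip_smul_right, ip_vt, S.orth_same n hn]

theorem co_fn_ne (f : G → ℂ) {n n' : Fin r → ℕ} (hn : n ∈ S.Λ) (h : n ≠ n') (i : Fin (S.dim n)) :
    co S (fn S f n') n i = 0 := by
  by_cases hn' : n' ∈ S.Λ
  · rw [fn_of_mem f hn', co,
      ip_sum_right μ _ (vt_cont hn i) fun j _ => (vt_cont hn' j).const_smul _]
    simp [ip_smul_right, ip_vt, S.orth_ne n hn n' hn' h]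
  · rw [fn_of_not f hn', co, ip_zero_right]

theorem ip_fn (f : G → ℂ) {g : G → ℂ} (hg : Continuous g) {n : Fin r → ℕ} (hn : n ∈ S.Λ) :
    ip μ (fn S f n) g = ∑ i, conj (co S f n i) * co S g n i := by
  rw [fn_of_mem f hn, ip_sum_left μ _ hg fun j _ => (vt_cont hn j).const_smul _]
  simp only [ip_smul_left, co]

theorem ip_fn_self (f : G → ℂ) (n : Fin r → ℕ) : ip μ (fn S f n) (fn S f n) = nq S f n := by
  by_cases hn : n ∈ S.Λ
  · rw [ip_fn f (fn_cont f n) hn, nq_of_mem f hn]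
    simp only [co_fn_self f hn, Complex.conj_mul']
    push_cast
    rfl
  · rw [fn_of_not f hn, ip_zero_left, nq, if_neg hn, Complex.ofReal_zero]

theorem ip_fn_ne (f : G → ℂ) {n n' : Fin r → ℕ} (h : n ≠ n') :
    ip μ (fn S f n) (fn S f n') = 0 := by
  by_cases hn : n ∈ S.Λ
  · rw [ip_fn f (fn_cont f n') hn]
    simp [co_fn_ne f hn h]
  · rw [fn_of_not f hn, ip_zero_left]

theorem bessel {g : G → ℂ} (hg : Continuous g) (n : Fin r → ℕ) :
    nq S g n ≤ ∫ x, ‖g x‖ ^ 2 ∂μ := by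
  have h0 : 0 ≤ ∫ x, ‖g x‖ ^ 2 ∂μ := integral_nonneg fun x => by positivity
  by_cases hn : n ∈ S.Λ
  · have h1 := norm_ip_sq_le μ (fn_cont (S := S) g n) hg
    have h2 : ∫ x, ‖fn S g n x‖ ^ 2 ∂μ = nq S g n := by
      have := ip_fn_self (S := S) g n
      rw [ip_self] at this
      exact_mod_cast this
    have h3 : ip μ (fn S g n) g = nq S g n := by
      rw [ip_fn g hg hn, nq_of_mem g hn]
      simp only [Complex.conj_mul']
      push_cast
      rfl
    rw [h2, h3, Complex.norm_real, Real.norm_eq_abs, sq_abs] at h1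
    rcases (nq_nonneg (S := S) g n).eq_or_lt with h | h
    · rwa [← h]
    · nlinarith
  · rwa [nq, if_neg hn]

theorem cont_sum (f : G → ℂ) (T : Finset (Fin r → ℕ)) : Continuous (∑ n ∈ T, fn S f n) := by
  rw [Finset.sum_fn]
  exact continuous_finsetSum _ fun n _ => fn_cont f n

theorem int_sum (f : G → ℂ) (T : Finset (Fin r → ℕ)) :
    ∫ x, ‖(∑ n ∈ T, fn S f n) x‖ ^ 2 ∂μ = ∑ n ∈ T, nq S f n := by
  have h := ip_self μ (∑ n ∈ T, fn S f n)
  rw [ip_sum_left μ _ (cont_sum f T) fun n _ => fn_cont f n] at h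
  have e : ∀ n ∈ T, ip μ (fn S f n) (∑ n ∈ T, fn S f n) = nq S f n := fun n hn => by
    rw [ip_sum_right μ _ (fn_cont f n) fun n _ => fn_cont f n,
      sum_eq_single_of_mem n hn fun n' _ h => ip_fn_ne f h.symm, ip_fn_self]
  rw [sum_congr rfl e] at h
  exact_mod_cast h.symm

theorem norm_fn_sq (f : G → ℂ) (n : Fin r → ℕ) (x : G) :
    ‖fn S f n x‖ ^ 2 ≤ nq S f n * S.dim n := by
  by_cases hn : n ∈ S.Λ
  · have h := S.repr n hn x⁻¹ x⁻¹
    rw [mul_inv_cancel, S.φ_one n hn, mul_one] at h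
    simp only [Complex.mul_conj'] at h
    have h' : ∑ i, ‖vt S n i x‖ ^ 2 = S.dim n := by exact_mod_cast h
    rw [fn_of_mem f hn, nq_of_mem f hn, ← h', Finset.sum_apply]
    refine le_trans ?_ (sum_mul_sq_le_sq_mul_sq _ _ _)
    gcongr
    exact (norm_sum_le _ _).trans (le_of_eq (by simp))
  · simp [fn_of_not f hn, nq, hn]

theorem exists_pos (S : Sph μ r d) : ∃ c : ℝ, 0 < c ∧ ∀ v : Fin r → ℝ,
    c * ‖v‖ ^ 2 ≤ ∑ i, ∑ j, (S.A i j : ℝ) * v i * v j := by
  by_cases hne : (Metric.sphere (0 : Fin r → ℝ) 1).Nonempty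
  · obtain ⟨v0, hv0, hmin⟩ := (isCompact_sphere (0 : Fin r → ℝ) 1).exists_isMinOn hne
      (f := fun v => ∑ i, ∑ j, (S.A i j : ℝ) * v i * v j) (by fun_prop)
    have h0 : v0 ≠ 0 := by
      rintro rfl
      simp at hv0
    refine ⟨_, S.A_pos v0 h0, fun v => ?_⟩
    by_cases hv : v = 0
    · simp [hv]
    have h1 : 0 < ‖v‖ := norm_pos_iff.2 hv
    have h2 := hmin (a := ‖v‖⁻¹ • v) (by simp [norm_smul, h1.ne'])
    simp only [Set.mem_ofPred_eq, Pi.smul_apply, smul_eq_mul] at h2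
    have h3 : ∑ i, ∑ j, (S.A i j : ℝ) * v i * v j =
        (∑ i, ∑ j, (S.A i j : ℝ) * (‖v‖⁻¹ * v i) * (‖v‖⁻¹ * v j)) * ‖v‖ ^ 2 := by
      simp only [sum_mul]
      refine sum_congr rfl fun i _ => sum_congr rfl fun j _ => ?_
      field_simp
    rw [h3]
    gcongr
  · refine ⟨1, one_pos, fun v => ?_⟩
    by_cases hv : v = 0
    · simp [hv]
    · exact absurd ⟨‖v‖⁻¹ • v, by simp [norm_smul, norm_ne_zero_iff.2 hv]⟩ hne

theorem lam_bound (S : Sph μ r d) {D : ℕ} (hD : 0 < D) : ∃ C : ℝ, 1 ≤ C ∧ ∀ n : Fin r → ℕ,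
    0 ≤ lam S D n ∧ ∀ j, (1 + n j : ℝ) ≤ C * (1 + lam S D n) := by
  obtain ⟨c, hc, h⟩ := exists_pos S
  have hD' : (0 : ℝ) < D := by exact_mod_cast hD
  have h0 : 0 < D / c := by positivity
  refine ⟨2 * (1 + D / c), by linarith, fun n => ?_⟩
  have h1 := h fun j => n j
  have h2 : ∑ i, ∑ j, (S.A i j : ℝ) * n i * n j ≤ S.P n := by
    simp only [Sph.P, qf]
    push_cast
    refine le_add_of_nonneg_right (sum_nonneg fun j _ => mul_nonneg ?_ (Nat.cast_nonneg _))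
    exact_mod_cast S.bv_nonneg j
  have h3 : 0 ≤ lam S D n := div_nonneg (le_trans (by positivity) (h1.trans h2)) hD'.le
  refine ⟨h3, fun j => ?_⟩
  have h4 : (n j : ℝ) ≤ ‖fun j => (n j : ℝ)‖ :=
    (le_abs_self _).trans (norm_le_pi_norm (fun j => (n j : ℝ)) j)
  have h5 : ‖fun j => (n j : ℝ)‖ ^ 2 ≤ D / c * lam S D n := by
    rw [lam, div_mul_div_comm, mul_comm c, mul_div_mul_left _ _ hD'.ne', le_div_iff₀' hc]
    exact h1.trans h2
  nlinarith [sq_nonneg (‖fun j => (n j : ℝ)‖ - 1)]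

theorem fib_finite (S : Sph μ r d) {D : ℕ} (hD : 0 < D) (l : ℝ) :
    (lam S D ⁻¹' {l}).Finite := by
  obtain ⟨C, -, h⟩ := lam_bound S hD
  refine (Fintype.piFinset fun _ : Fin r => range ⌈C * (1 + l)⌉₊).finite_toSet.subset ?_
  intro n hn
  rw [mem_coe, Fintype.mem_piFinset]
  intro j
  have h1 := (h n).2 j
  rw [show lam S D n = l from hn] at h1
  have h2 := h1.trans (Nat.le_ceil _)
  exact mem_range.2 (by exact_mod_cast (by linarith : (n j : ℝ) < ⌈C * (1 + l)⌉₊))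

theorem summable_prod (r : ℕ) : Summable fun n : Fin r → ℕ => ∏ j, 1 / (1 + n j : ℝ) ^ 2 := by
  have h0 : Summable fun k : ℕ => 1 / (1 + k : ℝ) ^ 2 := by
    have := (summable_nat_add_iff 1).2 (Real.summable_one_div_nat_pow.2 one_lt_two)
    simpa [add_comm] using this
  refine summable_of_sum_le (fun n => by positivity) (c := ∏ _j : Fin r, ∑' k : ℕ,
    1 / (1 + k : ℝ) ^ 2) fun T => ?_
  obtain ⟨N, hN⟩ : ∃ N : ℕ, T ⊆ Fintype.piFinset fun _ : Fin r => range N := by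
    refine ⟨T.sup (fun n => univ.sup n) + 1, fun n hn => Fintype.mem_piFinset.2 fun j => ?_⟩
    exact mem_range.2 (Nat.lt_succ_of_le ((le_sup (f := n) (mem_univ j)).trans
      (le_sup (f := fun n : Fin r → ℕ => univ.sup n) hn)))
  refine (sum_le_sum_of_subset_of_nonneg hN fun _ _ _ => by positivity).trans ?_
  rw [← prod_univ_sum (fun _ : Fin r => range N) fun _ k => 1 / (1 + k : ℝ) ^ 2]
  exact prod_le_prod (fun _ _ => by positivity) fun _ _ => h0.sum_le_tsum _ fun _ _ => by positivity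

theorem exists_bound {D : ℕ} (hD : 0 < D) (f : G → ℂ)
    (hdec : ∀ M : ℕ, ∃ g : G → ℂ, Continuous g ∧ ∀ n ∈ S.Λ, ∀ i,
      co S g n i = ((1 + lam S D n : ℝ) : ℂ) ^ M * co S f n i) :
    ∃ w : (Fin r → ℕ) → ℝ, Summable w ∧ ∀ n x, ‖fn S f n x‖ ≤ w n := by
  obtain ⟨C, hC, h⟩ := lam_bound S hD
  obtain ⟨g, hg, hco⟩ := hdec (d + 2 * r)
  set B := ∫ x, ‖g x‖ ^ 2 ∂μ
  have hB : 0 ≤ B := integral_nonneg fun x => by positivity
  refine ⟨fun n => (√(B * |S.Cd|) * C ^ (d + 2 * r)) * ∏ j, 1 / (1 + n j : ℝ) ^ 2,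
    (summable_prod r).mul_left _, fun n x => ?_⟩
  by_cases hn : n ∈ S.Λ
  swap
  · rw [fn_of_not f hn, Pi.zero_apply, norm_zero]
    positivity
  obtain ⟨h0, h1⟩ := h n
  set T := C * (1 + lam S D n) with hT
  have hT1 : 1 ≤ T := by nlinarith
  have a1 : ∏ j, (1 + n j : ℝ) ≤ T ^ r := by
    refine (prod_le_prod (fun _ _ => by positivity) fun j _ => h1 j).trans ?_
    simp
  have a2 : (S.dim n : ℝ) ≤ |S.Cd| * T ^ (2 * d) := by
    refine (S.dim_le n hn T h1 hT1).trans ?_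
    calc S.Cd * T ^ (d - 2 * r) * ∏ j, (1 + n j : ℝ) ≤ |S.Cd| * T ^ (d - 2 * r) * T ^ r := by
          gcongr
          exact le_abs_self _
      _ = |S.Cd| * T ^ (d - 2 * r + r) := by ring
      _ ≤ _ := by
          have := S.two_r
          gcongr
          omega
  have a3 : ((1 + lam S D n) ^ (d + 2 * r)) ^ 2 * nq S f n ≤ B := by
    refine le_trans (le_of_eq ?_) (bessel (S := S) hg n)
    rw [nq_of_mem f hn, nq_of_mem g hn, mul_sum]
    refine sum_congr rfl fun i _ => ?_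
    rw [hco n hn, norm_mul, norm_pow, Complex.norm_real, Real.norm_of_nonneg (by linarith), mul_pow]
  have a4 : ‖fn S f n x‖ * (1 + lam S D n) ^ (d + 2 * r) ≤ √(B * |S.Cd|) * T ^ d := by
    refine (pow_le_pow_iff_left₀ (by positivity) (by positivity) two_ne_zero).1 ?_
    rw [mul_pow, mul_pow, Real.sq_sqrt (by positivity), ← pow_mul T, mul_comm d 2]
    calc _ ≤ nq S f n * S.dim n * ((1 + lam S D n) ^ (d + 2 * r)) ^ 2 := by
          gcongr
          exact norm_fn_sq f n x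
      _ = ((1 + lam S D n) ^ (d + 2 * r)) ^ 2 * nq S f n * S.dim n := by ring
      _ ≤ B * (|S.Cd| * T ^ (2 * d)) := by gcongr
      _ = _ := by ring
  have a5 : ‖fn S f n x‖ * T ^ (2 * r) ≤ √(B * |S.Cd|) * C ^ (d + 2 * r) := by
    refine le_of_mul_le_mul_right ?_ (by positivity : 0 < T ^ d)
    calc _ = ‖fn S f n x‖ * T ^ (d + 2 * r) := by ring
      _ = ‖fn S f n x‖ * (1 + lam S D n) ^ (d + 2 * r) * C ^ (d + 2 * r) := by
          rw [hT, mul_pow]; ring
      _ ≤ √(B * |S.Cd|) * T ^ d * C ^ (d + 2 * r) := by gcongr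
      _ = _ := by ring
  beta_reduce
  rw [prod_div_distrib, prod_const_one, prod_pow, mul_one_div, le_div_iff₀ (by positivity)]
  refine le_trans ?_ a5
  rw [mul_comm 2 r, pow_mul]
  gcongr

theorem hasSum_ip {f : G → ℂ} {w : (Fin r → ℕ) → ℝ} (hw : Summable w)
    (hb : ∀ n x, ‖fn S f n x‖ ≤ w n) {h : G → ℂ} (hh : Continuous h) :
    HasSum (fun n => ip μ h (fn S f n)) (ip μ h fun x => ∑' n, fn S f n x) := by
  have i1 : ∀ n, Integrable (fun x => conj (h x) * fn S f n x) μ := fun n =>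
    cont_int μ ((Complex.continuous_conj.comp hh).mul (fn_cont f n))
  have := hasSum_integral_of_summable_integral_norm i1 (Summable.of_nonneg_of_le
    (fun n => integral_nonneg fun x => norm_nonneg _) (fun n => ?_)
    (hw.mul_left (∫ x, ‖h x‖ ∂μ)))
  · simpa only [ip, tsum_mul_left] using this
  · rw [← integral_mul_const]
    refine integral_mono (i1 n).norm ((cont_int μ hh.norm).mul_const _) fun x => ?_
    simp only [norm_mul, Complex.norm_conj]
    gcongr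
    exact hb n x

theorem expand (K : Subgroup G) (hvt : ∀ n ∈ S.Λ, ∀ i x, ∀ k ∈ K, vt S n i (x * k) = vt S n i x)
    (hcomp : ∀ g : G → ℂ, Continuous g → (∀ x, ∀ k ∈ K, g (x * k) = g x) →
      (∀ n ∈ S.Λ, ∀ i, co S g n i = 0) → g = 0)
    {f : G → ℂ} (hf : Continuous f) (hK : ∀ x, ∀ k ∈ K, f (x * k) = f x)
    {w : (Fin r → ℕ) → ℝ} (hw : Summable w) (hb : ∀ n x, ‖fn S f n x‖ ≤ w n) :
    (fun x => ∑' n, fn S f n x) = f := by
  have hc : Continuous fun x => ∑' n, fn S f n x := continuous_tsum (fn_cont f) hw hb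
  refine (sub_eq_zero.1 (hcomp _ (hf.sub hc) (fun x k hk => ?_) fun n hn i => ?_)).symm
  · simp only [Pi.sub_apply, hK x k hk]
    congr 2
    ext n
    by_cases hn : n ∈ S.Λ
    · simp [fn_of_mem f hn, hvt n hn _ x k hk]
    · simp [fn_of_not f hn]
  · have h1 := hasSum_ip hw hb (vt_cont hn i)
    have h2 : HasSum (fun n' => ip μ (vt S n i) (fn S f n')) (ip μ (vt S n i) (fn S f n)) :=
      hasSum_single n fun n' h => co_fn_ne f hn (Ne.symm h) i
    rw [co, ip_sub_right μ (vt_cont hn i) hf hc, h1.unique h2]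
    exact sub_eq_zero.2 (co_fn_self f hn i).symm

theorem eLp_sq {g : G → ℂ} (hg : Continuous g) :
    eLpNorm g 2 μ ^ 2 = ENNReal.ofReal (∫ x, ‖g x‖ ^ 2 ∂μ) := by
  have h := eLpNorm_nnreal_pow_eq_lintegral (μ := μ) (f := g) (p := 2) two_ne_zero
  rw [ofReal_integral_eq_lintegral_ofReal (f := fun x => ‖g x‖ ^ 2) (cont_int μ (hg.norm.pow 2))
    (Eventually.of_forall fun x => by positivity)]
  simp only [ENNReal.coe_ofNat, NNReal.coe_ofNat, ENNReal.rpow_ofNat] at h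
  rw [h]
  refine lintegral_congr fun x => ?_
  rw [ENNReal.ofReal_pow (norm_nonneg _), ofReal_norm]

variable (S) in
/-- The spectral projections. -/
noncomputable def proj {D : ℕ} (hD : 0 < D) (f : G → ℂ) (l : ℝ) : G → ℂ :=
  ∑ n ∈ (fib_finite S hD l).toFinset, fn S f n

variable (S) in
/-- The solution. -/
noncomputable def sol (D : ℕ) (f : G → ℂ) (z : ℝ × G) : ℂ :=
  ∑' n, Complex.exp (-(Complex.I * z.1 * lam S D n)) * fn S f n z.2

theorem norm_term (D : ℕ) (f : G → ℂ) (n : Fin r → ℕ) (z : ℝ × G) :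
    ‖Complex.exp (-(Complex.I * z.1 * lam S D n)) * fn S f n z.2‖ = ‖fn S f n z.2‖ := by
  rw [norm_mul, Complex.norm_exp]
  simp

theorem cont_term (D : ℕ) (f : G → ℂ) (n : Fin r → ℕ) :
    Continuous fun z : ℝ × G => Complex.exp (-(Complex.I * z.1 * lam S D n)) * fn S f n z.2 := by
  have := fn_cont (S := S) f n
  fun_prop

section
variable {f : G → ℂ} {w : (Fin r → ℕ) → ℝ} (hw : Summable w) (hb : ∀ n x, ‖fn S f n x‖ ≤ w n)
include hw hb

theorem sol_cont (D : ℕ) : Continuous (sol S D f) :=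
  continuous_tsum (cont_term D f) hw fun n z => (norm_term D f n z).trans_le (hb n _)

theorem sol_hasSum (D : ℕ) (z : ℝ × G) :
    HasSum (fun n => Complex.exp (-(Complex.I * z.1 * lam S D n)) * fn S f n z.2) (sol S D f z) :=
  (Summable.of_norm_bounded hw fun n => (norm_term D f n z).trans_le (hb n _)).hasSum

theorem sol_hasSum' {D : ℕ} (hD : 0 < D) (t : ℝ) (x : G) :
    HasSum (fun l : ℝ => Complex.exp (-(Complex.I * t * l)) * proj S hD f l x)
      (sol S D f (t, x)) := by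
  refine ((sol_hasSum hw hb D (t, x)).tsum_fiberwise (lam S D)).congr_fun ?_
  intro l
  have e : ∀ (A : Set (Fin r → ℕ)) (hA : A.Finite) (F : (Fin r → ℕ) → ℂ),
      ∑' b : A, F b = ∑ b ∈ hA.toFinset, F b := fun A hA F => by
    rw [← Finset.tsum_subtype', hA.coe_toFinset]
  rw [proj, Finset.sum_apply, mul_sum, e _ (fib_finite S hD l)
    fun n => Complex.exp (-(Complex.I * t * lam S D n)) * fn S f n x]
  refine sum_congr rfl fun n hn => ?_
  rw [show lam S D n = l from ((fib_finite S hD l).mem_toFinset).1 hn]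

omit hw hb in
theorem fin_bound {D : ℕ} (hD : 0 < D) (s : ℝ) (T : Finset (Fin r → ℕ)) :
    ENNReal.ofReal (∑ n ∈ T, (1 + lam S D n) ^ s * nq S f n) ≤
      ∑' l : ℝ, ENNReal.ofReal ((1 + l) ^ s) * eLpNorm (proj S hD f l) 2 μ ^ 2 := by
  classical
  obtain ⟨C', -, hl⟩ := lam_bound S hD
  have p1 : ∀ n, 0 ≤ (1 + lam S D n) ^ s * nq S f n := fun n =>
    mul_nonneg (Real.rpow_nonneg (by linarith [(hl n).1]) _) (nq_nonneg f n)
  refine le_trans ?_ (ENNReal.sum_le_tsum (T.image (lam S D)))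
  rw [← sum_fiberwise_of_maps_to (g := lam S D) (fun n hn => mem_image_of_mem _ hn),
    ENNReal.ofReal_sum_of_nonneg fun l _ => sum_nonneg fun n _ => p1 n]
  refine sum_le_sum fun l hl' => ?_
  obtain ⟨n0, -, rfl⟩ := mem_image.1 hl'
  have p2 : 0 ≤ (1 + lam S D n0) ^ s := Real.rpow_nonneg (by linarith [(hl n0).1]) _
  rw [proj, eLp_sq (cont_sum f _), int_sum, ← ENNReal.ofReal_mul p2, mul_sum]
  refine ENNReal.ofReal_le_ofReal ?_
  calc _ = ∑ n ∈ T.filter (lam S D · = lam S D n0), (1 + lam S D n0) ^ s * nq S f n :=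
        sum_congr rfl fun n hn => by rw [(mem_filter.1 hn).2]
    _ ≤ _ := sum_le_sum_of_subset_of_nonneg
        (fun n hn => (Set.Finite.mem_toFinset _).2 (mem_filter.1 hn).2)
        fun n _ _ => mul_nonneg p2 (nq_nonneg f n)

theorem sol_bound {D : ℕ} (hD : 0 < D) (p : ℝ≥0∞) (ν : Measure ℝ) (s C : ℝ)
    (hS : ∀ T : Finset (Fin r → ℕ), ↑T ⊆ S.Λ → ∀ a : ∀ n, Fin (S.dim n) → ℂ,
      eLpNorm (fun z : ℝ × G => ∑ n ∈ T, Complex.exp (-(Complex.I * z.1 * (S.P n / D : ℝ)))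
          * ∑ i, a n i * S.bas n i z.2⁻¹) p (ν.prod μ)
        ≤ ENNReal.ofReal (C * √(∑ n ∈ T, (1 + S.P n / D : ℝ) ^ s * ∑ i, ‖a n i‖ ^ 2))) :
    eLpNorm (sol S D f) p (ν.prod μ) ≤ C.toNNReal * (∑' l : ℝ, ENNReal.ofReal ((1 + l) ^ s)
      * eLpNorm (proj S hD f l) 2 μ ^ 2) ^ (1 / 2 : ℝ) := by
  classical
  obtain ⟨C', -, hl⟩ := lam_bound S hD
  have ht : ∀ z : ℝ × G, Tendsto (fun T : Finset (Fin r → ℕ) =>
      ∑ n ∈ T, Complex.exp (-(Complex.I * z.1 * lam S D n)) * fn S f n z.2) atTop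
      (𝓝 (sol S D f z)) := fun z => sol_hasSum hw hb D z
  have hm : ∀ T : Finset (Fin r → ℕ), AEStronglyMeasurable (fun z : ℝ × G =>
      ∑ n ∈ T, Complex.exp (-(Complex.I * z.1 * lam S D n)) * fn S f n z.2) (ν.prod μ) :=
    fun T => (continuous_finsetSum _ fun n _ => cont_term D f n).aestronglyMeasurable
  refine Lp.eLpNorm_le_of_ae_tendsto (Eventually.of_forall fun T => ?_) hm
    (Eventually.of_forall ht)
  have e1 : (fun z : ℝ × G => ∑ n ∈ T, Complex.exp (-(Complex.I * z.1 * lam S D n)) *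
      fn S f n z.2) = fun z : ℝ × G => ∑ n ∈ T.filter (· ∈ S.Λ),
        Complex.exp (-(Complex.I * z.1 * (S.P n / D : ℝ))) *
          ∑ i, co S f n i * S.bas n i z.2⁻¹ := by
    ext z
    rw [sum_filter]
    refine sum_congr rfl fun n _ => ?_
    split_ifs with hn
    · simp [fn_of_mem f hn, lam, vt]
    · simp [fn_of_not f hn]
  rw [e1]
  refine (hS _ (fun n hn => (mem_filter.1 hn).2) (co S f)).trans ?_
  have e2 : ∑ n ∈ T.filter (· ∈ S.Λ), (1 + S.P n / D : ℝ) ^ s * ∑ i, ‖co S f n i‖ ^ 2 =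
      ∑ n ∈ T, (1 + lam S D n) ^ s * nq S f n := by
    rw [sum_filter]
    refine sum_congr rfl fun n _ => ?_
    unfold nq lam
    split_ifs <;> simp
  have p1 : ∀ n, 0 ≤ (1 + lam S D n) ^ s * nq S f n := fun n =>
    mul_nonneg (Real.rpow_nonneg (by linarith [(hl n).1]) _) (nq_nonneg f n)
  rw [e2, ENNReal.ofReal_mul' (Real.sqrt_nonneg _), Real.sqrt_eq_rpow,
    ← ENNReal.ofReal_rpow_of_nonneg (sum_nonneg fun n _ => p1 n) (by norm_num)]
  exact mul_le_mul_right (ENNReal.rpow_le_rpow (fin_bound hD s T) (by norm_num)) _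

end

end Glue2

end Pool.Agent.MP_ba99b7_an
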