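import Pool.Agent.MP_ba99b7_an.Base

/-! PROJECT STRI, module HW, first part: highest weight functions. -/

set_option linter.unusedSectionVars false

namespace Pool.Agent.MP_ba99b7_an

open scoped ComplexConjugate RealInnerProductSpace
open MeasureTheory Module Submodule Complex

namespace Hw

variable {V : Type} [NormedAddCommGroup V] [InnerProductSpace ℝ V] [FiniteDimensional ℝ V]
  {G : Type} [Group G] [TopologicalSpace G] [MeasurableSpace G] [TG G] {S : Sym V G} {r : ℕ}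
  {R : Roots S r} {lam : V} {F : G → ℂ}

theorem fin_orb (hF : IsRep F) : FiniteDimensional ℂ (orb F) := hF.2

theorem Rt_mem (F : G → ℂ) (g : G) : Rt g F ∈ orb F := subset_span ⟨g, rfl⟩

theorem linv_orb (hL : S.LInv F) {v : G → ℂ} (hv : v ∈ orb F) : S.LInv v :=
  Sym.LInv.of_span (by rintro _ ⟨g, rfl⟩; exact hL.rt g) hv

theorem orb_le {W : Submodule ℂ (G → ℂ)} (hW : ∀ h, ∀ v ∈ W, Rt h v ∈ W) (hF : F ∈ W) :
    orb F ≤ W := span_le.mpr (by rintro _ ⟨g, rfl⟩; exact hW g F hF)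

theorem Np_mem (hF : IsRep F) {v : G → ℂ} (hv : v ∈ orb F) (i : Fin R.m) : R.Np i v ∈ orb F :=
  add_mem (Sym.D_mem_orb hF hv _) (smul_mem _ _ (Sym.D_mem_orb hF hv _))

theorem Dη_eq (hF : R.Top lam F) (i : Fin R.m) : S.D (R.η i) F = I • S.D (R.Y i) F := by
  have h := hF.2.1 i
  unfold Roots.Np at h
  ext x
  have hx := congrFun h x
  simp only [Pi.add_apply, Pi.smul_apply, smul_eq_mul, Pi.zero_apply] at hx ⊢
  linear_combination (-I) * hx + (S.D (R.η i) F x) * I_mul_I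

theorem D_one {v : G → ℂ} (hL : S.LInv v) {Y : V} (hY : S.θ Y = Y) : S.D Y v 1 = 0 := by
  have h := Sym.D_eq_zero_of_left (S := S) (f := v) (Y := Y)
    (fun t x => hL _ (S.ex_K _ (by rw [map_smul, hY])) x) 1
  simpa using h

/-- a highest weight vector generates its orbit span under the compact directions -/
theorem gen_k [ConnectedSpace G] (hF : R.Top lam F) {U : Submodule ℂ (G → ℂ)} (h0 : F ∈ U)
    (hU : ∀ v ∈ U, v ∈ orb F → ∀ Y, S.θ Y = Y → S.D Y v ∈ U) : orb F ≤ U := by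
  refine Sym.pbw (S := S) hF.1 {z | S.θ z.1 = z.1 ∧ z.2 = 0} (fun X => ?_) h0
    fun v hv hv' z hz => ?_
  · have hk : ∀ Y, S.θ Y = Y → S.D Y F ∈ span ℂ (insert F ((fun z : V × V =>
        S.D z.1 F + I • S.D z.2 F) '' {z | S.θ z.1 = z.1 ∧ z.2 = 0})) := fun Y hY =>
      subset_span (Or.inr ⟨(Y, 0), ⟨hY, rfl⟩, by simp [Sym.D_zero_vec]⟩)
    rw [Sym.D_basis hF.1 R.B]
    refine sum_mem fun b _ => smul_mem _ _ ?_
    rw [R.hB]
    rcases b with (i | i) | (i | i)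
    · exact hk _ (R.θY i)
    · simp only [Sum.elim_inl, Sum.elim_inr]
      rw [Dη_eq hF]
      exact smul_mem _ _ (hk _ (R.θY i))
    · simp only [Sum.elim_inl, Sum.elim_inr]
      rw [hF.2.2 _ (R.H_mem i)]
      exact smul_mem _ _ (subset_span (Or.inl rfl))
    · exact hk _ (R.θM i)
  · rw [hz.2, Sym.D_zero_vec, smul_zero, add_zero]
    exact hU v hv hv' _ hz.1

/-- left invariant functions that vanish at `1` -/
def van (S : Sym V G) : Submodule ℂ (G → ℂ) where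
  carrier := {v | S.LInv v ∧ v 1 = 0}
  add_mem' := fun {a b} ha hb => ⟨fun k hk x => by
    simp only [Pi.add_apply, ha.1 k hk x, hb.1 k hk x], by simp [ha.2, hb.2]⟩
  zero_mem' := ⟨fun _ _ _ => rfl, rfl⟩
  smul_mem' := fun c a ha => ⟨fun k hk x => by
    simp only [Pi.smul_apply, ha.1 k hk x], by simp [ha.2]⟩

theorem hw_zero [ConnectedSpace G] (hF : R.Top lam F) (hL : S.LInv F) (h1 : F 1 = 0) : F = 0 := by
  have h := gen_k hF (U := van S) ⟨hL, h1⟩ fun v hv _ Y hY => ⟨hv.1.D Y, D_one hv.1 hY⟩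
  ext g
  simpa [Rt] using (h (Rt_mem F g)).2

theorem hw_uniq [ConnectedSpace G] {F' : G → ℂ} (hF : R.IsHW lam F) (hF' : R.IsHW lam F') :
    F = F' :=
  sub_eq_zero.mp (hw_zero (hF.1.sub hF'.1) (fun k hk x => by
    simp only [Pi.sub_apply, hF.2.1 k hk x, hF'.2.1 k hk x]) (by simp [hF.2.2, hF'.2.2]))

theorem hw_ne (hF : R.IsHW lam F) : F ≠ 0 := fun h => by simpa [h] using hF.2.2

/-! ### integrality -/

/-- the derivative on the orbit span -/
noncomputable def DL (S : Sym V G) (hF : IsRep F) (X : V) : orb F →ₗ[ℂ] orb F where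
  toFun v := ⟨S.D X v, Sym.D_mem_orb hF v.2 X⟩
  map_add' a b := Subtype.ext (Sym.D_add_fun (hF.of_orb a.2) (hF.of_orb b.2) X)
  map_smul' c a := Subtype.ext (Sym.D_smul_fun (S := S) c a.1 X)

theorem sl2' {W : Type} [AddCommGroup W] [Module ℂ W] [FiniteDimensional ℂ W]
    (A B H : W →ₗ[ℂ] W) {a : ℝ} (ha : a ≠ 0) (h1 : ∀ v, A (B v) = B (A v) + (2 * I) • H v)
    (h2 : ∀ v, H (B v) = B (H v) - (I * a) • B v) {v : W} (hv : v ≠ 0) (hA : A v = 0) {t : ℝ}
    (hH : H v = (I * t) • v) : ∃ n : ℕ, 2 * t / a = n := by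
  have ha' : (a : ℂ) ≠ 0 := ofReal_ne_zero.mpr ha
  have h := sl2_nat A ((-(a : ℂ)⁻¹) • B) ((-(a : ℂ)⁻¹ * (2 * I)) • H) ?_ ?_ hv hA
    (c := ((2 * t / a : ℝ) : ℂ)) ?_
  · obtain ⟨n, hn⟩ := h
    exact ⟨n, by exact_mod_cast hn⟩
  · ext w
    simp only [LinearMap.sub_apply, Module.End.mul_apply, LinearMap.smul_apply, map_smul, h1]
    module
  · ext w
    simp only [LinearMap.sub_apply, Module.End.mul_apply, LinearMap.smul_apply, map_smul, h2,
      LinearMap.neg_apply]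
    match_scalars
    · ring
    · field_simp
      simp
  · rw [LinearMap.smul_apply, hH, smul_smul]
    congr 1
    push_cast
    field_simp
    simp

theorem integral_wt (hF : R.Top lam F) (h0 : F ≠ 0) (hl : lam ∈ R.a) : ∃ n, lam = R.wt n := by
  have hr : IsRep F := hF.1
  have := fin_orb hr
  have key : ∀ i, ∃ n : ℕ, 2 * ⟪lam, R.al i⟫ / ‖R.al i‖ ^ 2 = n := fun i => by
    rw [← real_inner_self_eq_norm_sq]
    refine sl2' (DL S hr (R.Y i) + I • DL S hr (R.η i)) (DL S hr (R.Y i) - I • DL S hr (R.η i))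
      (DL S hr (R.al i)) (inner_self_ne_zero.mpr (R.al_ne_zero i)) (fun v => Subtype.ext ?_)
      (fun v => Subtype.ext ?_) (v := ⟨F, mem_orb F⟩) (fun h => h0 (congrArg Subtype.val h))
      (Subtype.ext ?_) (Subtype.ext ?_)
    · exact R.Np_Nm (hr.of_orb v.2) i
    · exact R.D_Nm (hr.of_orb v.2) (R.al_mem i) i
    · exact hF.2.1 i
    · exact hF.2.2 _ (R.al_mem i)
  choose n hn using key
  refine ⟨fun j => n (R.sr j), ?_⟩
  conv_lhs => rw [R.w_span lam hl]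
  simp only [hn, Roots.wt]

/-! ### the centraliser of `a` in `k` kills highest weight functions -/

theorem pair_expand {Y' η' : V} {α : ℝ} (hα : 0 < α) (hY : S.θ Y' = Y') (hη : S.θ η' = -η')
    (h1 : S.ad R.H0 Y' = -(α • η')) (h2 : S.ad R.H0 η' = α • Y') :
    ∃ x : Fin R.m → ℝ, Y' = ∑ a, x a • R.Y a ∧ η' = ∑ a, x a • R.η a := by
  have kp : ∀ {A B : V}, S.θ A = -A → S.θ B = B → ⟪A, B⟫ = 0 := fun hA hB => by
    rw [real_inner_comm]; exact S.inner_k_p hB hA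
  have a1 : ∀ c, ⟪R.M c, Y'⟫ = 0 := fun c => by
    have := S.ad_skew R.H0 (R.M c) η'
    rw [R.adM _ R.H0_mem, h2, inner_zero_left, real_inner_smul_right] at this
    exact (mul_eq_zero.mp (neg_eq_zero.mp this.symm)).resolve_left hα.ne'
  have a2 : ∀ l, ⟪R.H l, η'⟫ = 0 := fun l => by
    have := S.ad_skew R.H0 (R.H l) Y'
    rw [R.adH _ R.H0_mem _ (R.H_mem l), h1, inner_zero_left, inner_neg_right, neg_neg,
      real_inner_smul_right] at this
    exact (mul_eq_zero.mp this.symm).resolve_left hα.ne'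
  have a3 : ∀ a, ⟪R.η a, η'⟫ = ⟪R.Y a, Y'⟫ := fun a => by
    have b1 := S.ad_skew R.H0 (R.Y a) η'
    have b2 := S.ad_skew R.H0 (R.η a) Y'
    rw [R.adY _ R.H0_mem, h2, inner_neg_left, real_inner_smul_left, real_inner_smul_right] at b1
    rw [R.adη _ R.H0_mem, h1, inner_neg_right, real_inner_smul_left, real_inner_smul_right] at b2
    have b3 := R.pos a
    refine mul_left_cancel₀ (a := α + ⟪R.al a, R.H0⟫) (by linarith) ?_
    linarith
  refine ⟨fun a => ⟪R.Y a, Y'⟫, ?_, ?_⟩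
  · conv_lhs => rw [R.expand Y']
    simp [a1, kp (R.θη _) hY, kp (R.θH _ (R.H_mem _)) hY]
  · conv_lhs => rw [R.expand η']
    simp [a2, a3, S.inner_k_p (R.θY _) hη, S.inner_k_p (R.θM _) hη]

theorem FM [ConnectedSpace G] (hF : R.IsHW lam F) (c : Fin R.q) : S.D (R.M c) F = 0 := by
  have hr := hF.1.1
  refine hw_zero (R := R) (lam := lam) ⟨Sym.isRep_D hr _, fun i => ?_, fun X hX => ?_⟩
    (hF.2.1.D _) (D_one hF.2.1 (R.θM c))
  · obtain ⟨x, hx1, hx2⟩ := pair_expand (R := R) (Y' := S.ad (R.Y i) (R.M c))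
      (η' := S.ad (R.η i) (R.M c)) (R.pos i) (by rw [S.θ_ad, R.θY, R.θM])
      (by rw [S.θ_ad, R.θη, R.θM]; simp)
      (by rw [S.ad_leibniz, R.adY _ R.H0_mem, R.adM _ R.H0_mem]; simp)
      (by rw [S.ad_leibniz, R.adη _ R.H0_mem, R.adM _ R.H0_mem]; simp)
    have e1 : S.D (R.M c) (S.D (R.Y i) F) + I • S.D (R.M c) (S.D (R.η i) F) = 0 := by
      rw [← Sym.D_smul_fun, ← Sym.D_add_fun (Sym.isRep_D hr _) ((Sym.isRep_D hr _).smul _)]
      exact (congrArg _ (hF.1.2.1 i)).trans (Sym.D_zero_fun _)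
    have e2 : S.D (S.ad (R.Y i) (R.M c)) F + I • S.D (S.ad (R.η i) (R.M c)) F = 0 := by
      rw [hx1, hx2, Sym.D_sum_vec hr, Sym.D_sum_vec hr, Finset.smul_sum, ← Finset.sum_add_distrib]
      refine Finset.sum_eq_zero fun a _ => ?_
      rw [Sym.D_smul_vec hr, Sym.D_smul_vec hr, smul_comm I, ← smul_add]
      exact (congrArg _ (hF.1.2.1 a)).trans (smul_zero _)
    unfold Roots.Np
    rw [Sym.D_bracket hr (R.Y i), Sym.D_bracket hr (R.η i), smul_add, add_add_add_comm, e1, e2,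
      add_zero]
  · rw [Sym.D_bracket hr X, R.adM X hX, Sym.D_zero_vec, add_zero, hF.1.2.2 X hX, Sym.D_smul_fun]

/-! ### orthogonality -/

section ip
variable (μ : Measure G) [BiH μ]

/-- the orthogonal complement of a function -/
def perp {v : G → ℂ} (hv : Continuous v) : Submodule ℂ (G → ℂ) where
  carrier := {u | Continuous u ∧ ip μ v u = 0}
  add_mem' := fun {a b} ha hb => ⟨ha.1.add hb.1, by
    rw [ip_add_right μ hv ha.1 hb.1, ha.2, hb.2, add_zero]⟩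
  zero_mem' := ⟨continuous_const, ip_zero_right μ v⟩
  smul_mem' := fun c a ha => ⟨ha.1.const_smul c, by rw [ip_smul_right, ha.2, mul_zero]⟩

theorem ip_symm0 {f g : G → ℂ} (h : ip μ f g = 0) : ip μ g f = 0 := by
  rw [← ip_conj, h, map_zero]

theorem eig_orth {v w : G → ℂ} (hv : IsRep v) (hw : IsRep w) {X : V} {a b : ℝ}
    (ha : S.D X v = (I * a) • v) (hb : S.D X w = (I * b) • w) (hab : a ≠ b) : ip μ v w = 0 := by
  have h := Sym.ip_D (S := S) μ hv hw X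
  rw [ha, hb, ip_smul_left, ip_smul_right, map_mul, conj_I, conj_ofReal] at h
  have h2 : ((a : ℂ) - b) * ip μ v w = 0 := by
    linear_combination I * h + (a - b) * ip μ v w * I_mul_I
  exact (mul_eq_zero.mp h2).resolve_left (sub_ne_zero.mpr (by exact_mod_cast hab))

theorem ip_ne {f : G → ℂ} (hf : Continuous f) (h : f ≠ 0) : ip μ f f ≠ 0 :=
  fun h0 => h (eq_zero_of_ip_self μ hf h0)

variable [ConnectedSpace G]

theorem perp_of_np (hF : R.IsHW lam F) {v : G → ℂ} (hv : IsRep v) (hN : ∀ i, R.Np i v = 0)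
    (h0 : ip μ v F = 0) {u : G → ℂ} (hu : u ∈ orb F) : ip μ v u = 0 :=
  (hF.1.lower (FM hF) (U := perp μ hv.1) ⟨hF.1.1.1, h0⟩ (fun w hw hw' i =>
    ⟨(R.isRep_Nm (hF.1.1.of_orb hw') i).1, by
      rw [R.ip_Nm μ hv (hF.1.1.of_orb hw'), hN, ip_zero_left, neg_zero]⟩) hu).2

theorem orth_orb {lam' : V} {F' : G → ℂ} (hF : R.IsHW lam F) (hF' : R.IsHW lam' F')
    (hl : lam ∈ R.a) (hl' : lam' ∈ R.a) (hne : lam ≠ lam') {u u' : G → ℂ} (hu : u ∈ orb F)
    (hu' : u' ∈ orb F') : ip μ u u' = 0 := by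
  have h0 : ip μ F' F = 0 := by
    have hm := R.a.sub_mem hl' hl
    refine eig_orth μ hF'.1.1 hF.1.1 (hF'.1.2.2 _ hm) (hF.1.2.2 _ hm) fun h => hne ?_
    rw [← sub_eq_zero, ← inner_sub_left, inner_self_eq_zero, sub_eq_zero] at h
    exact h.symm
  refine (span_le (p := perp μ (hF.1.1.of_orb hu).1).mpr ?_ hu').2
  rintro _ ⟨g, rfl⟩
  refine ⟨(hF'.1.1.rt g).1, ip_symm0 μ ?_⟩
  rw [ip_Rt_left]
  exact perp_of_np μ hF hF'.1.1 hF'.1.2.1 h0 (Rt_mem_orb hu _)

/-- eigenvectors of `H0` above the top eigenvalue -/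
theorem top_zero (hF : R.IsHW lam F) {e : G → ℂ} (he : e ∈ orb F) {c : ℝ}
    (hc : ⟪lam, R.H0⟫ ≤ c) (hD : S.D R.H0 e = (I * c) • e) (h0 : ip μ e F = 0) : e = 0 := by
  have hr := hF.1.1
  let U : Submodule ℂ (G → ℂ) :=
    { carrier := {v | Continuous v ∧ ∀ e ∈ orb F, ∀ c : ℝ, ⟪lam, R.H0⟫ ≤ c →
        S.D R.H0 e = (I * c) • e → ip μ e F = 0 → ip μ e v = 0}
      add_mem' := fun {a b} ha hb => ⟨ha.1.add hb.1, fun e he c hc hD h0 => by
        rw [ip_add_right μ (hr.of_orb he).1 ha.1 hb.1, ha.2 e he c hc hD h0,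
          hb.2 e he c hc hD h0, add_zero]⟩
      zero_mem' := ⟨continuous_const, fun e _ _ _ _ _ => ip_zero_right μ e⟩
      smul_mem' := fun a v hv => ⟨hv.1.const_smul a, fun e he c hc hD h0 => by
        rw [ip_smul_right, hv.2 e he c hc hD h0, mul_zero]⟩ }
  have h := hF.1.lower (FM hF) (U := U) ⟨hr.1, fun _ _ _ _ _ h => h⟩ fun v hv hv' i =>
    ⟨(R.isRep_Nm (hr.of_orb hv') i).1, fun e he c hc hD _ => by
      have hre := hr.of_orb he
      have hp := R.pos i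
      have hD' : S.D R.H0 (R.Np i e) = (I * ((c + ⟪R.al i, R.H0⟫ : ℝ) : ℂ)) • R.Np i e := by
        rw [R.D_Np hre R.H0_mem, hD, ofReal_add, mul_add, add_smul]
        congr 1
        unfold Roots.Np
        rw [Sym.D_smul_fun, Sym.D_smul_fun, smul_add, smul_comm I]
      rw [R.ip_Nm μ hre (hr.of_orb hv'), hv.2 _ (Np_mem hr he i) _ (by linarith) hD'
        (eig_orth μ (R.isRep_Np hre i) hr hD' (hF.1.2.2 _ R.H0_mem) (by linarith)), neg_zero]⟩
  exact eq_zero_of_ip_self μ (hr.of_orb he).1 ((h he).2 e he c hc hD h0)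

theorem exists_bas (hF : IsRep F) : ∃ (k : ℕ) (b : Fin k → G → ℂ) (ev : Fin k → ℝ),
    span ℂ (Set.range b) = orb F ∧ (∀ s s', ip μ (b s) (b s') = if s = s' then 1 else 0) ∧
      ∀ s, S.D R.H0 (b s) = (I * ev s) • b s := by
  have := fin_orb hF
  obtain ⟨k, b, l, h1, h2, h3⟩ := exists_on_eig μ (orb F) (fun v hv => (hF.of_orb hv).1)
    (ι := Unit) (fun _ v => (-I) • S.D R.H0 v)
    (fun _ v hv => smul_mem _ _ (Sym.D_mem_orb hF hv _))
    (fun _ v hv w hw => by rw [Sym.D_add_fun (hF.of_orb hv) (hF.of_orb hw), smul_add])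
    (fun _ c v _ => by rw [Sym.D_smul_fun, smul_comm])
    (fun _ v hv w hw => by
      rw [ip_smul_left, ip_smul_right, Sym.ip_D μ (hF.of_orb hv) (hF.of_orb hw)]; simp)
    (fun _ _ _ _ => rfl)
  refine ⟨k, b, fun s => l s (), h1, h2, fun s => ?_⟩
  rw [mul_smul, ← h3 s (), smul_smul]
  simp

theorem top (hF : R.IsHW lam F) {k : ℕ} {b : Fin k → G → ℂ} {ev : Fin k → ℝ}
    (h1 : span ℂ (Set.range b) = orb F) (h2 : ∀ s s', ip μ (b s) (b s') = if s = s' then 1 else 0)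
    (h3 : ∀ s, S.D R.H0 (b s) = (I * ev s) • b s) :
    ∃ (i0 : Fin k) (c : ℂ), b i0 = c • F ∧ ev i0 = ⟪lam, R.H0⟫ ∧
      ∀ i, i ≠ i0 → ev i < ⟪lam, R.H0⟫ := by
  have hr := hF.1.1
  have hb : ∀ s, b s ∈ orb F := fun s => h1 ▸ subset_span ⟨s, rfl⟩
  have hbr : ∀ s, IsRep (b s) := fun s => hr.of_orb (hb s)
  have hFF := ip_ne μ hr.1 (hw_ne hF)
  have hD := hF.1.2.2 _ R.H0_mem
  have hb0 : ∀ s, b s ≠ 0 := fun s h => by simpa [h, ip_zero_left] using h2 s s
  have k1 : ∀ s, ev s = ⟪lam, R.H0⟫ → ∃ c : ℂ, b s = c • F := fun s hs => by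
    refine ⟨ip μ F (b s) / ip μ F F, sub_eq_zero.mp (top_zero μ hF
      (sub_mem (hb s) (smul_mem _ _ (mem_orb F))) le_rfl ?_ (ip_symm0 μ ?_))⟩
    · rw [Sym.D_sub_fun (hbr s) (hr.smul _), Sym.D_smul_fun, h3, hD, hs, smul_sub,
        smul_comm (ip μ F (b s) / ip μ F F)]
    · rw [ip_sub_right μ hr.1 (hbr s).1 (hr.smul _).1, ip_smul_right, div_mul_cancel₀ _ hFF,
        sub_self]
  obtain ⟨i0, hi0⟩ : ∃ i0, ip μ (b i0) F ≠ 0 := by
    by_contra! h
    have := eq_sum_ip μ (fun i => (hbr i).1) h2 (h1 ▸ mem_orb F)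
    simp only [h, zero_smul, Finset.sum_const_zero] at this
    exact hw_ne hF this
  have e0 : ev i0 = ⟪lam, R.H0⟫ := by
    by_contra h
    exact hi0 (eig_orth μ (hbr i0) hr (h3 i0) hD h)
  obtain ⟨c0, hc0⟩ := k1 i0 e0
  refine ⟨i0, c0, hc0, e0, fun i hi => ?_⟩
  by_contra! h
  rcases h.eq_or_lt with h' | h'
  · obtain ⟨c, hc⟩ := k1 i h'.symm
    have := h2 i i0
    rw [if_neg hi, hc, hc0, ip_smul_left, ip_smul_right, mul_eq_zero, mul_eq_zero,
      map_eq_zero] at this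
    rcases this with h | h | h
    · exact hb0 i (by rw [hc, h, zero_smul])
    · exact hb0 i0 (by rw [hc0, h, zero_smul])
    · exact hFF h
  · exact hb0 i (top_zero μ hF (hb i) h (h3 i) (eig_orth μ (hbr i) hr (h3 i) hD h'.ne'))

include μ in
/-- every invariant subspace contains a highest weight function -/
theorem exists_hw (R : Roots S r) (W : Submodule ℂ (G → ℂ)) [FiniteDimensional ℂ W]
    (hW : ∀ h, ∀ v ∈ W, Rt h v ∈ W) (hc : ∀ v ∈ W, Continuous v) (hL : ∀ v ∈ W, S.LInv v)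
    (h0 : W ≠ ⊥) : ∃ lam ∈ R.a, ∃ F ∈ W, R.IsHW lam F := by
  have hr : ∀ v ∈ W, IsRep v := fun v hv => isRep_of_mem hW hv (hc v hv)
  have hD : ∀ v ∈ W, ∀ X, S.D X v ∈ W := fun v hv X => Sym.D_mem hW hv (hr v hv) X
  obtain ⟨k, b, l, h1, h2, h3⟩ := exists_on_eig μ W hc
    (ι := Fin r) (fun j v => (-I) • S.D (R.H j) v)
    (fun _ v hv => smul_mem _ _ (hD v hv _))
    (fun _ v hv w hw => by rw [Sym.D_add_fun (hr v hv) (hr w hw), smul_add])
    (fun _ c v _ => by rw [Sym.D_smul_fun, smul_comm])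
    (fun _ v hv w hw => by
      rw [ip_smul_left, ip_smul_right, Sym.ip_D μ (hr v hv) (hr w hw)]; simp)
    (fun i j v hv => by
      rw [Sym.D_smul_fun, Sym.D_smul_fun, Sym.D_bracket (hr v hv) (R.H i),
        R.adH _ (R.H_mem i) _ (R.H_mem j), Sym.D_zero_vec, add_zero])
  have hb : ∀ s, b s ∈ W := fun s => h1 ▸ subset_span ⟨s, rfl⟩
  have h4 : ∀ s j, S.D (R.H j) (b s) = (I * l s j) • b s := fun s j => by
    rw [mul_smul, ← h3 s j, smul_smul]
    simp
  have h5 : ∀ s, ∀ X ∈ R.a, S.D X (b s) = (I * (⟪∑ j, l s j • R.H j, X⟫ : ℝ)) • b s := by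
    intro s X hX
    conv_lhs => rw [R.expand_a hX, Sym.D_sum_vec (hr _ (hb s))]
    simp only [Sym.D_smul_vec (hr _ (hb s)), h4, smul_smul, ← Finset.sum_smul, sum_inner,
      real_inner_smul_left]
    congr 1
    push_cast
    rw [Finset.mul_sum]
    exact Finset.sum_congr rfl fun j _ => by ring
  have hk : (Finset.univ : Finset (Fin k)).Nonempty := by
    rw [Finset.univ_nonempty_iff]
    by_contra h
    rw [not_nonempty_iff] at h
    exact h0 (by rw [← h1, Set.range_eq_empty, span_empty])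
  obtain ⟨s, -, hs⟩ := Finset.exists_max_image Finset.univ
    (fun s => ⟪∑ j, l s j • R.H j, R.H0⟫) hk
  have hT : R.Top (∑ j, l s j • R.H j) (b s) := by
    refine ⟨hr _ (hb s), fun i => ?_, h5 s⟩
    have hm : R.Np i (b s) ∈ W := add_mem (hD _ (hb s) _) (smul_mem _ _ (hD _ (hb s) _))
    have hD' : S.D R.H0 (R.Np i (b s)) = (I * ((⟪∑ j, l s j • R.H j, R.H0⟫ +
        ⟪R.al i, R.H0⟫ : ℝ) : ℂ)) • R.Np i (b s) := by
      rw [R.D_Np (hr _ (hb s)) R.H0_mem, h5 s _ R.H0_mem, ofReal_add, mul_add, add_smul]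
      congr 1
      unfold Roots.Np
      rw [Sym.D_smul_fun, Sym.D_smul_fun, smul_add, smul_comm I]
    rw [eq_sum_ip μ (fun i => hc _ (hb i)) h2 (v := R.Np i (b s)) (h1 ▸ hm)]
    refine Finset.sum_eq_zero fun t _ => ?_
    rw [eig_orth μ (hr _ (hb t)) (hr _ hm) (h5 t _ R.H0_mem) hD'
      (by linarith [hs t (Finset.mem_univ _), R.pos i]), zero_smul]
  have h1' : b s 1 ≠ 0 := fun h => by
    simpa [hw_zero hT (hL _ (hb s)) h, ip_zero_left] using h2 s s
  refine ⟨_, sum_mem fun j _ => smul_mem _ _ (R.H_mem j), (b s 1)⁻¹ • b s, smul_mem _ _ (hb s),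
    hT.smul _, hL _ (smul_mem _ _ (hb s)), by simp [h1']⟩

end ip

/-! ### the Casimir operator -/

theorem casimir [ConnectedSpace G] (hF : R.IsHW lam F) (hl : lam ∈ R.a) {v : G → ℂ}
    (hv : v ∈ orb F) (x : G) :
    S.cas R.B v x = -((‖lam‖ ^ 2 + ⟪lam, ∑ i, R.al i⟫ : ℝ) : ℂ) * v x := by
  have hr := hF.1.1
  have h0 : ∀ x, S.cas R.B F x = -((‖lam‖ ^ 2 + ⟪lam, ∑ i, R.al i⟫ : ℝ) : ℂ) * F x := fun x => by
    have a1 : ∀ i, S.D (R.Y i) (S.D (R.Y i) F) x + S.D (R.η i) (S.D (R.η i) F) x =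
        -((⟪lam, R.al i⟫ : ℝ) : ℂ) * F x := fun i => by
      have b1 := congrFun (Sym.D_bracket (S := S) hr (R.Y i) (R.η i)) x
      rw [R.Yη, Sym.D_neg_vec hr, hF.1.2.2 _ (R.al_mem i), Dη_eq hF.1, Sym.D_smul_fun] at b1
      rw [Dη_eq hF.1, Sym.D_smul_fun]
      simp only [Pi.add_apply, Pi.smul_apply, Pi.neg_apply, smul_eq_mul] at b1 ⊢
      linear_combination (-I) * b1 +
        (S.D (R.Y i) (S.D (R.Y i) F) x + (⟪lam, R.al i⟫ : ℝ) * F x) * I_mul_I
    have a2 : ∀ l, S.D (R.H l) (S.D (R.H l) F) x =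
        -((⟪lam, R.H l⟫ * ⟪lam, R.H l⟫ : ℝ) : ℂ) * F x := fun l => by
      rw [hF.1.2.2 _ (R.H_mem l), Sym.D_smul_fun, hF.1.2.2 _ (R.H_mem l)]
      simp only [Pi.smul_apply, smul_eq_mul]
      push_cast
      linear_combination ((⟪lam, R.H l⟫ : ℝ) * (⟪lam, R.H l⟫ : ℝ) * F x : ℂ) * I_mul_I
    have a3 : ‖lam‖ ^ 2 = ∑ l, ⟪lam, R.H l⟫ * ⟪lam, R.H l⟫ := by
      rw [← real_inner_self_eq_norm_sq]
      conv_lhs => rhs; rw [R.expand_a hl]
      simp only [inner_sum, real_inner_smul_right, real_inner_comm lam]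
    rw [R.cas_eq, ← Finset.sum_add_distrib]
    simp only [a1, a2, FM hF, Sym.D_zero_fun, Pi.zero_apply, Finset.sum_const_zero, add_zero,
      ← Finset.sum_mul, Finset.sum_neg_distrib, a3, inner_sum]
    push_cast
    ring
  induction hv using span_induction generalizing x with
  | mem v hv =>
    obtain ⟨g, rfl⟩ := hv
    rw [← Sym.Rt_cas hr]
    exact h0 _
  | zero => simp [Sym.cas, Sym.D_zero_fun]
  | add a b ha hb iha ihb =>
    have ra := hr.of_orb ha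
    have rb := hr.of_orb hb
    have e : S.cas R.B (a + b) x = S.cas R.B a x + S.cas R.B b x := by
      simp only [Sym.cas, Sym.D_add_fun ra rb, Sym.D_add_fun (Sym.isRep_D ra _) (Sym.isRep_D rb _),
        Pi.add_apply, Finset.sum_add_distrib]
    rw [e, iha, ihb, Pi.add_apply, mul_add]
  | smul c a ha iha =>
    have e : S.cas R.B (c • a) x = c * S.cas R.B a x := by
      simp only [Sym.cas, Sym.D_smul_fun, Pi.smul_apply, smul_eq_mul, Finset.mul_sum]
    rw [e, iha, Pi.smul_apply, smul_eq_mul, mul_left_comm]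

end Hw

end Pool.Agent.MP_ba99b7_an
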