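import Mathlib.MeasureTheory.Integral.Bochner.Basic
import Mathlib.Analysis.InnerProductSpace.Basic
import Mathlib.Analysis.CStarAlgebra.Classes
import Mathlib.Geometry.Manifold.GroupLieAlgebra

/-! Symmetric spaces of compact type `G / K`: functions on `G / K` are read as functions on `G`
that are invariant under right translation by `K`. -/

namespace Pool.Agent.MP_ba99b7_an

open scoped Manifold ContDiff ComplexConjugate
open MeasureTheory

variable (E : Type) [NormedAddCommGroup E] [NormedSpace ℝ E]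
  {G : Type} [Group G] [TopologicalSpace G] [ChartedSpace E G]

/-- The derivative at `x` of `f` along the left-invariant vector field with value `X` at `1`. -/
noncomputable def lder (X : GroupLieAlgebra 𝓘(ℝ, E) G) (f : G → ℂ) (x : G) : ℂ :=
  mvfderiv 𝓘(ℝ, E) (fun y => f (x * y)) 1 X

/-- The `-1` eigenspace of the differential at `1` of `σ`. -/
def pPart (σ : G →* G) : Set (GroupLieAlgebra 𝓘(ℝ, E) G) :=
  {X | (mfderiv 𝓘(ℝ, E) 𝓘(ℝ, E) σ 1 X : E) = -(X : E)}

/-- The sum of the squares of the left-invariant vector fields `b i`. -/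
noncomputable def lap {d : ℕ} (b : Fin d → GroupLieAlgebra 𝓘(ℝ, E) G) (f : G → ℂ) (x : G) : ℂ :=
  ∑ i, lder E (b i) (lder E (b i) f) x

/-- `f` is a smooth function on `G / K`. -/
def IsFn (K : Subgroup G) (f : G → ℂ) : Prop :=
  ContMDiff 𝓘(ℝ, E) 𝓘(ℝ, ℂ) ∞ f ∧ ∀ x, ∀ k ∈ K, f (x * k) = f x

/-- `g` is a smooth function on `G / K` with `Δ g = - l g`. -/
def IsEig (K : Subgroup G) {d : ℕ} (b : Fin d → GroupLieAlgebra 𝓘(ℝ, E) G) (l : ℝ)
    (g : G → ℂ) : Prop :=
  IsFn E K g ∧ ∀ x, lap E b g x = -(l : ℂ) * g x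

/-- `g` is the orthogonal projection in `L²` of `f` onto the eigenspace `Δ = - l`. -/
def IsProj [MeasurableSpace G] (μ : Measure G) (K : Subgroup G) {d : ℕ}
    (b : Fin d → GroupLieAlgebra 𝓘(ℝ, E) G) (l : ℝ) (f g : G → ℂ) : Prop :=
  IsEig E K b l g ∧ ∀ h, IsEig E K b l h → ∫ x, conj (h x) * (f x - g x) ∂μ = 0

end Pool.Agent.MP_ba99b7_an
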