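import Mathlib.Algebra.Lie.Semisimple.Basic
import Mathlib.Algebra.Lie.TraceForm
import Mathlib.Analysis.CStarAlgebra.ContinuousMap
import Mathlib.Analysis.Distribution.AEEqOfIntegralContDiff
import Mathlib.Analysis.InnerProductSpace.Trace
import Mathlib.Geometry.Manifold.IntegralCurve.UniformTime
import Mathlib.Topology.Separation.CompletelyRegular
import Pool.Agent.MP_ba99b7_an.Defs
import Pool.Agent.MP_ba99b7_an.SpecLie
import Pool.Agent.MP_f244e7_gt.Haar
import Pool.Agent.MP_ba99b7_an.Base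
import Pool.Agent.MP_45783b_al.PW

-- ======== part 0: formerly Pool.Agent.MP_ba99b7_an.SpecMain
section MrgPart0

/-! PROJECT STRI: the final statement and the passage from Lie groups to `Sym`. -/

namespace Pool.Agent.MP_ba99b7_an

open scoped Manifold ContDiff ComplexConjugate RealInnerProductSpace ENNReal NNReal
open MeasureTheory Module

/-- A compact semisimple Lie group with an involution gives a `Sym`. -/
def Glue1Stmt : Prop :=
  ∀ (E : Type) [NormedAddCommGroup E] [NormedSpace ℝ E] [FiniteDimensional ℝ E] [CompleteSpace E]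
    (G : Type) [Group G] [TopologicalSpace G] [ChartedSpace E G] [LieGroup 𝓘(ℝ, E) ∞ G]
    [LieGroup 𝓘(ℝ, E) (minSmoothness ℝ 3) G] [T2Space G] [CompactSpace G] [ConnectedSpace G]
    [MeasurableSpace G] [BorelSpace G],
    LieAlgebra.IsSemisimple ℝ (GroupLieAlgebra 𝓘(ℝ, E) G) →
    ∀ σ : G →* G, ContMDiff 𝓘(ℝ, E) 𝓘(ℝ, E) ∞ σ → (∀ g, σ (σ g) = g) →
    ∀ K : Subgroup G, IsClosed (K : Set G) → connectedComponentIn {g | σ g = g} 1 ⊆ K →
    (∀ k ∈ K, σ k = k) →
    ∃ (n : ℕ) (S : Sym (EuclideanSpace ℝ (Fin n)) G)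
      (e : GroupLieAlgebra 𝓘(ℝ, E) G ≃ₗ[ℝ] EuclideanSpace ℝ (Fin n)),
      S.K = K ∧ (∀ X Y, e ⁅X, Y⁆ = S.ad (e X) (e Y)) ∧
      (∀ X Y, ⟪e X, e Y⟫ = -killingForm ℝ (GroupLieAlgebra 𝓘(ℝ, E) G) X Y) ∧
      (∀ X, X ∈ pPart E σ ↔ e X ∈ S.p) ∧
      (∀ f : G → ℂ, ContMDiff 𝓘(ℝ, E) 𝓘(ℝ, ℂ) ∞ f → ∀ X x,
        HasDerivAt (fun t : ℝ => f (x * S.ex (t • e X))) (lder E X f x) 0) ∧
      ∀ f : G → ℂ, IsRep f → ContMDiff 𝓘(ℝ, E) 𝓘(ℝ, ℂ) ∞ f

/-- The scaling critical Strichartz estimates. -/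
def MainStmt : Prop :=
  ∀ (E : Type) [NormedAddCommGroup E] [NormedSpace ℝ E] [FiniteDimensional ℝ E] [CompleteSpace E]
    (G : Type) [Group G] [TopologicalSpace G] [ChartedSpace E G] [LieGroup 𝓘(ℝ, E) ∞ G]
    [LieGroup 𝓘(ℝ, E) (minSmoothness ℝ 3) G] [T2Space G] [CompactSpace G] [ConnectedSpace G]
    [MeasurableSpace G] [BorelSpace G] (μ : Measure G) [μ.IsHaarMeasure],
    LieAlgebra.IsSemisimple ℝ (GroupLieAlgebra 𝓘(ℝ, E) G) →
    ∀ σ : G →* G, ContMDiff 𝓘(ℝ, E) 𝓘(ℝ, E) ∞ σ → (∀ g, σ (σ g) = g) →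
    ∀ K : Subgroup G, IsClosed (K : Set G) → connectedComponentIn {g | σ g = g} 1 ⊆ K →
    (∀ k ∈ K, σ k = k) →
    ∀ (d : ℕ) (b : Fin d → GroupLieAlgebra 𝓘(ℝ, E) G),
    (∀ i j, -killingForm ℝ (GroupLieAlgebra 𝓘(ℝ, E) G) (b i) (b j) = if i = j then 1 else 0) →
    (Submodule.span ℝ (Set.range b) : Set (GroupLieAlgebra 𝓘(ℝ, E) G)) = pPart E σ →
    ∀ r : ℕ, IsGreatest {n | ∃ a : Submodule ℝ (GroupLieAlgebra 𝓘(ℝ, E) G),
      (a : Set (GroupLieAlgebra 𝓘(ℝ, E) G)) ⊆ pPart E σ ∧ (∀ X ∈ a, ∀ Y ∈ a, ⁅X, Y⁆ = 0) ∧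
        finrank ℝ a = n} r → 1 ≤ r →
    ∀ I : Set ℝ, Bornology.IsBounded I → ∀ p : ℝ, 2 + 4 / (r : ℝ) < p →
    ∃ C : ℝ≥0, ∀ f : G → ℂ, IsFn E K f → ∃ (φ : ℝ → G → ℂ) (u : ℝ × G → ℂ),
      (∀ l, IsProj E μ K b l f (φ l)) ∧
      (∀ (t : ℝ) (x : G),
        HasSum (fun l : ℝ => Complex.exp (-(Complex.I * t * l)) * φ l x) (u (t, x))) ∧
      (∀ x, u (0, x) = f x) ∧ Continuous u ∧
      eLpNorm u (ENNReal.ofReal p) ((volume.restrict I).prod μ) ≤
        C * (∑' l : ℝ, ENNReal.ofReal ((1 + l) ^ ((d : ℝ) / 2 - (d + 2) / p))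
          * eLpNorm (φ l) 2 μ ^ 2) ^ (1 / 2 : ℝ)

end Pool.Agent.MP_ba99b7_an

end MrgPart0

-- ======== part 1: formerly Pool.Agent.MP_ba99b7_an.Glue1A
section MrgPart1

/-! PROJECT STRI, module GLUE1, part A: the exponential map of a Lie group. -/

set_option maxSynthPendingDepth 3
set_option linter.unusedSectionVars false

namespace Pool.Agent.MP_ba99b7_an.Glue1

open scoped Manifold ContDiff Topology
open Function Filter Set Pool.Agent.MP_f244e7_gt

variable {E : Type} [NormedAddCommGroup E] [NormedSpace ℝ E] [CompleteSpace E]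
  {G : Type} [Group G] [TopologicalSpace G] [ChartedSpace E G] [LieGroup 𝓘(ℝ, E) ∞ G]
  [LieGroup 𝓘(ℝ, E) (minSmoothness ℝ 3) G] [T2Space G]
  {B : Type} [NormedAddCommGroup B] [NormedSpace ℝ B]

/-- The left-invariant vector field. -/
noncomputable def vf (G : Type) [Group G] [TopologicalSpace G] [ChartedSpace E G] (X : E) :
    (g : G) → TangentSpace 𝓘(ℝ, E) g :=
  mulInvariantVectorField (I := 𝓘(ℝ, E)) (G := G) X

lemma vf_smooth (X : E) : ContMDiff 𝓘(ℝ, E) (𝓘(ℝ, E)).tangent 1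
    (fun x : G => (⟨x, vf G X x⟩ : TangentBundle 𝓘(ℝ, E) G)) :=
  (contMDiff_mulInvariantVectorField (I := 𝓘(ℝ, E)) (G := G) X).of_le
    (le_trans (by norm_num) le_minSmoothness)

/-- The differential at the identity of a homomorphism. -/
noncomputable def dh (E : Type) [NormedAddCommGroup E] [NormedSpace ℝ E] [ChartedSpace E G]
    (φ : G →* G) : E →L[ℝ] E := mfderiv 𝓘(ℝ, E) 𝓘(ℝ, E) φ 1

set_option backward.isDefEq.respectTransparency false in
lemma hom_vf (φ : G →* G) (hφ : ContMDiff 𝓘(ℝ, E) 𝓘(ℝ, E) ∞ φ) (g y : G) (X : E) :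
    (mfderiv 𝓘(ℝ, E) 𝓘(ℝ, E) (fun z => g * φ z) y (vf G X y) : E)
      = vf G (dh E φ X) (g * φ y) := by
  have hL : ∀ a b : G, MDifferentiableAt 𝓘(ℝ, E) 𝓘(ℝ, E) (fun z => a * z) b := fun a b =>
    (contMDiffAt_const.mul contMDiffAt_id).mdifferentiableAt (n := ∞) (by simp)
  have h1 : HasMFDerivAt 𝓘(ℝ, E) 𝓘(ℝ, E) (fun z => g * φ z) (y * 1)
      (mfderiv 𝓘(ℝ, E) 𝓘(ℝ, E) (fun z => g * φ z) y) := by
    rw [mul_one]
    exact ((contMDiffAt_const.mul (hφ y)).mdifferentiableAt (n := ∞) (by simp)).hasMFDerivAt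
  have h2 := h1.comp 1 (hL y 1).hasMFDerivAt
  have h3 : HasMFDerivAt 𝓘(ℝ, E) 𝓘(ℝ, E) (fun z => g * φ y * z) (φ 1)
      (mfderiv 𝓘(ℝ, E) 𝓘(ℝ, E) (fun z => g * φ y * z) 1) := by
    rw [map_one]
    exact (hL _ 1).hasMFDerivAt
  have h4 := h3.comp 1 ((hφ 1).mdifferentiableAt (by simp)).hasMFDerivAt
  have e : ((fun z => g * φ z) ∘ fun z => y * z) = (fun z => g * φ y * z) ∘ φ := by
    funext z; simp [mul_assoc]
  rw [e] at h2
  exact congrArg (fun T : E →L[ℝ] E => T X) (hasMFDerivAt_unique h2 h4)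

set_option backward.isDefEq.respectTransparency false in
lemma hom_curveOn (φ : G →* G) (hφ : ContMDiff 𝓘(ℝ, E) 𝓘(ℝ, E) ∞ φ) (g : G) {X : E}
    {γ : ℝ → G} {s : Set ℝ} (h : IsMIntegralCurveOn γ (vf G X) s) :
    IsMIntegralCurveOn (fun t => g * φ (γ t)) (vf G (dh E φ X)) s := by
  intro t ht
  have h1 : HasMFDerivAt 𝓘(ℝ, E) 𝓘(ℝ, E) (fun z => g * φ z) (γ t)
      (mfderiv 𝓘(ℝ, E) 𝓘(ℝ, E) (fun z => g * φ z) (γ t)) :=
    ((contMDiffAt_const.mul (hφ _)).mdifferentiableAt (n := ∞) (by simp)).hasMFDerivAt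
  have h2 := h1.comp_hasMFDerivWithinAt t (h t ht)
  convert! h2 using 1
  ext
  simp only [ContinuousLinearMap.smulRight_apply, ContinuousLinearMap.comp_apply, map_smul]
  rw [hom_vf φ hφ]

set_option backward.isDefEq.respectTransparency false in
lemma dh_id : dh E (MonoidHom.id G) = ContinuousLinearMap.id ℝ E := mfderiv_id

lemma left_curveOn (g : G) {X : E} {γ : ℝ → G} {s : Set ℝ}
    (h : IsMIntegralCurveOn γ (vf G X) s) : IsMIntegralCurveOn (fun t => g * γ t) (vf G X) s := by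
  have := hom_curveOn (MonoidHom.id G) contMDiff_id g h
  rw [dh_id] at this
  exact this

lemma exists_curve (X : E) : ∃ γ : ℝ → G, γ 0 = 1 ∧ IsMIntegralCurve γ (vf G X) := by
  obtain ⟨γ, h0, h⟩ := exists_isMIntegralCurveAt_of_contMDiffAt_boundaryless (I := 𝓘(ℝ, E))
    (v := vf G X) (x₀ := (1 : G)) 0 (vf_smooth X 1)
  obtain ⟨ε, hε, h⟩ := isMIntegralCurveAt_iff'.1 h
  refine exists_isMIntegralCurve_of_isMIntegralCurveOn (vf_smooth X) hε (fun x => ?_) 1
  refine ⟨fun t => x * γ t, by simp [h0], ?_⟩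
  have := left_curveOn x h
  rwa [Real.ball_eq_Ioo, zero_sub, zero_add] at this

variable (G) in
/-- The one-parameter group of `X`. -/
noncomputable def cur (X : E) : ℝ → G := (exists_curve (G := G) X).choose

lemma cur_zero (X : E) : cur G X 0 = 1 := (exists_curve (G := G) X).choose_spec.1

lemma cur_int (X : E) : IsMIntegralCurve (cur G X) (vf G X) :=
  (exists_curve (G := G) X).choose_spec.2

lemma cur_uniq {X : E} {γ γ' : ℝ → G} (h : IsMIntegralCurve γ (vf G X))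
    (h' : IsMIntegralCurve γ' (vf G X)) (h0 : γ 0 = γ' 0) : γ = γ' :=
  isMIntegralCurve_Ioo_eq_of_contMDiff_boundaryless (vf_smooth X) h h' h0

lemma cur_add (X : E) (s t : ℝ) : cur G X (s + t) = cur G X s * cur G X t := by
  have h1 := (cur_int (G := G) X).comp_add s
  have h2 : IsMIntegralCurve (fun t => cur G X s * cur G X t) (vf G X) :=
    isMIntegralCurve_iff_isMIntegralCurveOn.2
      (left_curveOn _ ((cur_int X).isMIntegralCurveOn univ))
  have := congrFun (cur_uniq h1 h2 (by simp [cur_zero])) t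
  simpa [add_comm] using this

set_option backward.isDefEq.respectTransparency false in
lemma cur_smul (X : E) (a t : ℝ) : cur G (a • X) t = cur G X (t * a) := by
  have h1 := (cur_int (G := G) X).comp_mul a
  have e : a • vf G X = vf G (a • X) :=
    (mulInvariantVectorField_smul (I := 𝓘(ℝ, E)) (G := G) a X).symm
  rw [e] at h1
  exact congrFun (cur_uniq (cur_int _) h1 (by simp [cur_zero])) t

lemma cur_hom (φ : G →* G) (hφ : ContMDiff 𝓘(ℝ, E) 𝓘(ℝ, E) ∞ φ) (X : E) (t : ℝ) :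
    φ (cur G X t) = cur G (dh E φ X) t := by
  have h1 := isMIntegralCurve_iff_isMIntegralCurveOn.2
    (hom_curveOn φ hφ 1 ((cur_int X).isMIntegralCurveOn univ))
  have := congrFun (cur_uniq h1 (cur_int _) (by simp [cur_zero])) t
  simpa using this

variable (G) in
/-- The exponential map. -/
noncomputable def ex0 (X : E) : G := cur G X 1

lemma ex0_smul (X : E) (t : ℝ) : ex0 G (t • X) = cur G X t := by
  rw [ex0, cur_smul, one_mul]

lemma ex0_zero : ex0 G (0 : E) = 1 := by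
  have := ex0_smul (G := G) (0 : E) 0
  rwa [zero_smul, cur_zero] at this

lemma ex0_add (X : E) (s t : ℝ) : ex0 G ((s + t) • X) = ex0 G (s • X) * ex0 G (t • X) := by
  simp only [ex0_smul, cur_add]

lemma ex0_hom (φ : G →* G) (hφ : ContMDiff 𝓘(ℝ, E) 𝓘(ℝ, E) ∞ φ) (X : E) :
    φ (ex0 G X) = ex0 G (dh E φ X) := cur_hom φ hφ X 1

lemma ex0_line (X : E) : Continuous fun t : ℝ => ex0 G (t • X) := by
  simp only [ex0_smul]
  exact (cur_int X).continuous

lemma ex0_nsmul (X : E) (n : ℕ) : ex0 G ((n : ℝ) • X) = ex0 G X ^ n := by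
  induction n with
  | zero => simp [ex0_zero]
  | succ n ih => rw [Nat.cast_succ, ex0_add, ih, one_smul, pow_succ]

set_option backward.isDefEq.respectTransparency false in
lemma hasDerivAt_ex0 {f : G → B} (hf : Sm E f) (X : E) (x : G) (t : ℝ) :
    HasDerivAt (fun t : ℝ => f (x * ex0 G (t • X))) (LD X f (x * ex0 G (t • X))) t := by
  simp only [ex0_smul]
  have h2 : IsMIntegralCurve (fun t => x * cur G X t) (vf G X) :=
    isMIntegralCurve_iff_isMIntegralCurveOn.2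
      (left_curveOn _ ((cur_int X).isMIntegralCurveOn univ))
  set y := x * cur G X t with hy
  have h1 : HasMFDerivAt 𝓘(ℝ, E) 𝓘(ℝ, B) f y (mfderiv 𝓘(ℝ, E) 𝓘(ℝ, B) f y) :=
    ((hf y).mdifferentiableAt (by simp)).hasMFDerivAt
  have h3 := (h1.comp t (h2 t)).hasFDerivAt.hasDerivAt
  have h1' : HasMFDerivAt 𝓘(ℝ, E) 𝓘(ℝ, B) f (y * 1) (mfderiv 𝓘(ℝ, E) 𝓘(ℝ, B) f y) := by
    rw [mul_one]; exact h1
  have hL : MDifferentiableAt 𝓘(ℝ, E) 𝓘(ℝ, E) (fun z => y * z) 1 :=
    (contMDiffAt_const.mul contMDiffAt_id).mdifferentiableAt (n := ∞) (by simp)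
  have h4 := congrArg (fun T : E →L[ℝ] B => T X) (h1'.comp 1 hL.hasMFDerivAt).mfderiv
  convert! h3 using 1
  rw [← mvfderiv_eq_LD hf]
  refine h4.trans ?_
  change mfderiv 𝓘(ℝ, E) 𝓘(ℝ, B) f y (vf G X y)
    = mfderiv 𝓘(ℝ, E) 𝓘(ℝ, B) f y ((1 : ℝ) • vf G X y)
  rw [one_smul]

lemma hasDerivAt_ex0_zero {f : G → B} (hf : Sm E f) (X : E) (x : G) :
    HasDerivAt (fun t : ℝ => f (x * ex0 G (t • X))) (LD X f x) 0 := by
  simpa [ex0_zero] using hasDerivAt_ex0 hf X x 0

set_option backward.isDefEq.respectTransparency false in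
lemma dh_eq (φ : G →* G) (hφ : ContMDiff 𝓘(ℝ, E) 𝓘(ℝ, E) ∞ φ) :
    dh E φ = fderiv ℝ (fun z => cht E (φ (kap G z))) (org E G) := by
  rw [dh, ((hφ 1).mdifferentiableAt (by simp)).mfderiv]
  simp only [modelWithCornersSelf_coe, range_id, fderivWithin_univ, writtenInExtChartAt, map_one]
  rfl

lemma ex0_conj (g : G) (X : E) : g * ex0 G X * g⁻¹ = ex0 G (adj E g⁻¹ X) := by
  have hφ : ContMDiff 𝓘(ℝ, E) 𝓘(ℝ, E) ∞ (MulAut.conj g).toMonoidHom :=
    (contMDiff_const.mul contMDiff_id).mul contMDiff_const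
  have := ex0_hom _ hφ X
  rw [dh_eq _ hφ] at this
  simpa [adj] using this

section rep
variable {R : Type} [NormedRing R] [NormedAlgebra ℝ R] [CompleteSpace R]

lemma LD_rep (ρ : G →* R) (hρ : Sm E ρ) (X : E) (x : G) : LD X ρ x = ρ x * LD X ρ 1 := by
  have := LD_clm (ContinuousLinearMap.mul ℝ R (ρ x)) hρ X 1
  simp only [ContinuousLinearMap.mul_apply'] at this
  rw [← this]
  simp only [LD, map_mul, one_mul]

lemma rep_ex0 (ρ : G →* R) (hρ : Sm E ρ) (X : E) :
    ρ (ex0 G X) = NormedSpace.exp (LD X ρ 1) := by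
  set a := LD X ρ 1 with ha
  have h1 : ∀ t : ℝ, HasDerivAt (fun t : ℝ => ρ (ex0 G (t • X))) (ρ (ex0 G (t • X)) * a) t := by
    intro t
    have := hasDerivAt_ex0 hρ X 1 t
    rw [LD_rep ρ hρ] at this
    simpa only [one_mul] using this
  have h2 : ∀ t : ℝ, HasDerivAt (fun t : ℝ => ρ (ex0 G (t • X)) * NormedSpace.exp (t • (-a)))
      0 t := by
    intro t
    have := (h1 t).mul (hasDerivAt_exp_smul_const' (𝕂 := ℝ) (-a) t)
    convert! this using 1
    simp [mul_assoc]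
  have h3 := is_const_of_deriv_eq_zero (fun t => (h2 t).differentiableAt)
    (fun t => (h2 t).deriv) 1 0
  simp only [one_smul, zero_smul, ex0_zero, map_one, NormedSpace.exp_zero, one_mul] at h3
  have h4 : NormedSpace.exp (-a) * NormedSpace.exp a = 1 := by
    let : NormedAlgebra ℚ R := NormedAlgebra.restrictScalars ℚ ℝ R
    rw [← NormedSpace.exp_add_of_commute (Commute.refl a).neg_left, neg_add_cancel,
      NormedSpace.exp_zero]
  rw [← mul_one (ρ _), ← h4, ← mul_assoc, h3, one_mul]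

lemma exists_local_homeo {F : G → E} (hF : Sm E F) (h1 : DL E F 1 = ContinuousLinearMap.id ℝ E) :
    ∃ P : OpenPartialHomeomorph G E, 1 ∈ P.source ∧ ∀ g ∈ P.source, P g = F g := by
  have h2 : ContDiffAt ℝ ∞ (fun z => F (1 * kap G z)) (org E G) :=
    hF.contDiffAt_L 1 (mem_extChartAt_target (1 : G))
  have h3 : HasStrictFDerivAt (fun z => F (1 * kap G z))
      ((ContinuousLinearEquiv.refl ℝ E : E ≃L[ℝ] E) : E →L[ℝ] E) (org E G) := by
    have := h2.hasStrictFDerivAt (by simp)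
    rw [DL] at h1
    rw [h1] at this
    exact this
  refine ⟨(chartAt E (1 : G)).trans (h3.toOpenPartialHomeomorph _), ?_, fun g hg => ?_⟩
  · rw [OpenPartialHomeomorph.trans_source]
    exact ⟨mem_chart_source E 1, h3.mem_toOpenPartialHomeomorph_source⟩
  · rw [OpenPartialHomeomorph.trans_source] at hg
    have h4 : kap G (chartAt E (1 : G) g) = g := (chartAt E (1 : G)).left_inv hg.1
    simp [h4]

lemma ex0_local [CompactSpace G] (ρ : G →* R) (hρ : Sm E ρ) (π : R →L[ℝ] E)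
    (hπ : ∀ X, π (LD X ρ 1) = X) :
    Continuous (ex0 G : E → G) ∧ map (ex0 G) (𝓝 (0 : E)) = 𝓝 1 := by
  have : IsTopologicalGroup G := topologicalGroup_of_lieGroup 𝓘(ℝ, E) ∞
  obtain ⟨P, hP1, hP⟩ := exists_local_homeo (hρ.clm π) (by
    ext X
    rw [DL_apply, LD_clm π hρ, hπ]
    rfl)
  set Φ : E → E := fun X => π (NormedSpace.exp (DL E ρ 1 X)) with hΦ
  have hF : ∀ X, π (ρ (ex0 G X)) = Φ X := fun X => by rw [rep_ex0 ρ hρ]; rfl
  have hΦc : Continuous Φ := by
    let : NormedAlgebra ℚ R := NormedAlgebra.restrictScalars ℚ ℝ R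
    exact π.continuous.comp (NormedSpace.exp_continuous.comp (DL E ρ 1).continuous)
  have hΦ0 : Φ 0 = P 1 := by rw [hP 1 hP1, ← hF, ex0_zero]
  have hΦd : HasStrictFDerivAt Φ
      ((ContinuousLinearEquiv.refl ℝ E : E ≃L[ℝ] E) : E →L[ℝ] E) 0 := by
    have h1 : HasStrictFDerivAt (NormedSpace.exp : R → R) (1 : R →L[ℝ] R) (DL E ρ 1 0) := by
      rw [map_zero]; exact hasStrictFDerivAt_exp_zero
    have h2 := π.hasStrictFDerivAt.comp 0 (h1.comp 0 (DL E ρ 1).hasStrictFDerivAt)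
    convert! h2 using 1
    ext X
    exact (hπ X).symm
  have hsrc : ∀ᶠ X in 𝓝 (0 : E), ex0 G X ∈ P.source := by
    obtain ⟨C, hC, hCc, hCs⟩ := exists_mem_nhds_isClosed_subset (P.open_source.mem_nhds hP1)
    have hO : (1 : G) ∈ interior C := mem_interior_iff_mem_nhds.2 hC
    have hK : IsClosed ((fun g => π (ρ g)) '' (C \ interior C)) :=
      (((hCc.sdiff isOpen_interior).isCompact).image (hρ.clm π).continuous).isClosed
    have hn : Φ 0 ∉ (fun g => π (ρ g)) '' (C \ interior C) := by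
      rintro ⟨g, hg, h⟩
      have h2 : P g = P 1 := by rw [hP g (hCs hg.1), ← hΦ0]; exact h
      exact hg.2 (P.injOn (hCs hg.1) hP1 h2 ▸ hO)
    obtain ⟨δ, hδ, hb⟩ := Metric.eventually_nhds_iff_ball.1
      (hΦc.continuousAt.eventually (hK.isOpen_compl.mem_nhds hn))
    filter_upwards [Metric.ball_mem_nhds (0 : E) hδ] with X hX
    have hc : IsPreconnected ((fun t : ℝ => ex0 G (t • X)) '' Icc 0 1) :=
      isPreconnected_Icc.image _ (ex0_line X).continuousOn
    have hsub := hc.subset_left_of_subset_union (u := interior C) (v := Cᶜ) isOpen_interior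
      hCc.isOpen_compl (disjoint_compl_right.mono_left interior_subset) (by
        rintro _ ⟨t, ht, rfl⟩
        by_contra hcon
        simp only [mem_union, mem_compl_iff, not_or, not_not] at hcon
        refine hb (t • X) ?_ ⟨_, ⟨hcon.2, hcon.1⟩, hF _⟩
        rw [mem_ball_zero_iff] at hX ⊢
        rw [norm_smul, Real.norm_of_nonneg ht.1]
        exact (mul_le_of_le_one_left (norm_nonneg _) ht.2).trans_lt hX)
      ⟨1, (mem_image _ _ _).2 ⟨0, by simp, by simp [ex0_zero]⟩, hO⟩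
    exact hCs (interior_subset (hsub ⟨1, by simp, by simp⟩))
  have hev : ex0 G =ᶠ[𝓝 (0 : E)] P.symm ∘ Φ := by
    filter_upwards [hsrc] with X hX
    rw [comp_apply, ← hF, ← hP _ hX, P.left_inv hX]
  have hca : ∀ᶠ X in 𝓝 (0 : E), ContinuousAt (ex0 G) X := by
    filter_upwards [hsrc, hev.eventuallyEq_nhds] with X hX hX'
    refine ContinuousAt.congr ?_ hX'.symm
    refine ContinuousAt.comp (P.continuousAt_symm ?_) hΦc.continuousAt
    rw [← hF, ← hP _ hX]
    exact P.map_source hX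
  refine ⟨continuous_iff_continuousAt.2 fun X => ?_, ?_⟩
  · have ht : Tendsto (fun n : ℕ => ((n : ℝ))⁻¹ • X) atTop (𝓝 0) := by
      simpa using (tendsto_inv_atTop_nhds_zero_nat (𝕜 := ℝ)).smul_const X
    obtain ⟨n, hn, hn0⟩ := ((ht.eventually hca).and (eventually_gt_atTop 0)).exists
    have e : (ex0 G : E → G) = fun Y => ex0 G (((n : ℝ))⁻¹ • Y) ^ n := by
      funext Y
      rw [← ex0_nsmul, smul_inv_smul₀ (by positivity)]
    rw [e]
    exact (ContinuousAt.comp (f := fun Y : E => ((n : ℝ))⁻¹ • Y) hn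
      (continuous_const_smul _).continuousAt).pow n
  · rw [map_congr hev, ← map_map, hΦd.map_nhds_eq_of_equiv, hΦ0, P.symm_map_nhds_eq hP1]

end rep

end Pool.Agent.MP_ba99b7_an.Glue1

end MrgPart1

-- ======== part 2: formerly Pool.Agent.MP_ba99b7_an.Glue1B
section MrgPart2

/-! PROJECT STRI, module GLUE1, part B: density and smoothness of representative functions, the
Haar measure of a closed subgroup, definiteness of the Killing form. -/

set_option maxSynthPendingDepth 3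
set_option linter.unusedSectionVars false

namespace Pool.Agent.MP_ba99b7_an

open scoped Manifold ContDiff Topology ComplexConjugate RealInnerProductSpace
open Function Filter Set MeasureTheory Module Pool.Agent.MP_f244e7_gt

namespace Glue1

section dense
variable {G : Type} [Group G] [TopologicalSpace G] [MeasurableSpace G] [TG G]

lemma isRep_entry {n : ℕ} (ρ : G →* Matrix (Fin n) (Fin n) ℂ) (hρ : Continuous ρ) (i j : Fin n) :
    IsRep fun x => ρ x i j := by
  have : FiniteDimensional ℂ (Submodule.span ℂ (range fun k : Fin n => fun x : G => ρ x i k)) :=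
    FiniteDimensional.span_of_finite ℂ (finite_range _)
  refine isRep_of_mem (W := Submodule.span ℂ (range fun k : Fin n => fun x : G => ρ x i k))
    (fun h v hv => ?_) (Submodule.subset_span ⟨j, rfl⟩) (hρ.matrix_elem i j)
  refine Submodule.mem_comap.1 ((Submodule.span_le (p := Submodule.comap (RtL h) _)).2 ?_ hv)
  rintro _ ⟨k, rfl⟩
  have e : RtL h (fun x : G => ρ x i k) = ∑ l, ρ h l k • fun x : G => ρ x i l := by
    funext x
    simp [RtL, Rt, Matrix.mul_apply, mul_comm]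
  rw [SetLike.mem_coe, Submodule.mem_comap, e]
  exact Submodule.sum_mem _ fun l _ => Submodule.smul_mem _ _ (Submodule.subset_span ⟨l, rfl⟩)

variable (G) in
/-- The algebra of representative functions. -/
def repAlg : StarSubalgebra ℂ C(G, ℂ) where
  carrier := {f | IsRep f}
  mul_mem' := fun ha hb => IsRep.mul ha hb
  add_mem' := fun ha hb => IsRep.add ha hb
  algebraMap_mem' := fun c => by
    have e : (algebraMap ℂ C(G, ℂ) c : G → ℂ) = fun _ => c := by
      funext x; simp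
    change IsRep _
    rw [e]
    exact isRep_const c
  star_mem' := fun ha => IsRep.conj ha

end dense

section haar
variable {G : Type} [Group G] [TopologicalSpace G] [MeasurableSpace G] [TG G]

lemma exists_nu (K : Subgroup G) (hK : IsClosed (K : Set G)) :
    ∃ ν : Measure G, IsProbabilityMeasure ν ∧ (∀ᵐ k ∂ν, k ∈ K) ∧
      (∀ k ∈ K, Measure.map (fun x => k * x) ν = ν) ∧
      ∀ k ∈ K, Measure.map (fun x => x * k) ν = ν := by
  have : CompactSpace K := isCompact_iff_compactSpace.1 hK.isCompact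
  obtain ⟨μ, hμ⟩ := exists_biHaar K
  have hm : Measurable (Subtype.val : K → G) := measurable_subtype_coe
  refine ⟨μ.map Subtype.val, Measure.isProbabilityMeasure_map hm.aemeasurable, ?_,
    fun k hk => ?_, fun k hk => ?_⟩
  · exact (ae_map_iff hm.aemeasurable hK.measurableSet).2 (Eventually.of_forall fun k => k.2)
  · rw [Measure.map_map (measurable_const_mul k) hm]
    conv_rhs => rw [← map_mul_left_eq_self μ ⟨k, hk⟩]
    rw [Measure.map_map hm (measurable_const_mul _)]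
    rfl
  · rw [Measure.map_map (measurable_mul_const k) hm]
    conv_rhs => rw [← map_mul_right_eq_self μ ⟨k, hk⟩]
    rw [Measure.map_map hm (measurable_mul_const _)]
    rfl

end haar

section smooth
variable {E : Type} [NormedAddCommGroup E] [NormedSpace ℝ E] [FiniteDimensional ℝ E]
  {G : Type} [Group G] [TopologicalSpace G] [ChartedSpace E G] [LieGroup 𝓘(ℝ, E) ∞ G]
  [MeasurableSpace G] [TG G]

lemma conv_smooth (μ : Measure G) [BiHaar μ] {f : G → ℂ} (hf : Continuous f) {χ : G → ℝ}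
    (hχ : Sm E χ) : Sm E fun x => ∫ u, χ u • f (x * u) ∂μ := by
  let F : G → C(G, ℂ) := fun x =>
    ⟨fun y => (χ (x⁻¹ * y) : ℂ), Complex.continuous_ofReal.comp
      (hχ.continuous.comp (continuous_const_mul _))⟩
  have hF : Sm E F := curry_smooth F
    ((hχ.clm Complex.ofRealCLM).comp (contMDiff_fst.inv.mul contMDiff_snd))
  have h := (hF.clm (ContinuousLinearMap.mul ℝ C(G, ℂ) ⟨f, hf⟩)).clm (intC μ)
  convert! h using 2 with x
  rw [intC_apply]
  conv_rhs => rw [← integral_mul_left_eq_self _ x]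
  simp [F, mul_comm]

variable (E G) in
/-- The space of smooth functions. -/
def smSub : Submodule ℂ (G → ℂ) where
  carrier := {f | Sm E f}
  add_mem' := fun ha hb => ContMDiff.add ha hb
  zero_mem' := contMDiff_const
  smul_mem' := fun c _ ha => Sm.clm (ContinuousLinearMap.mul ℝ ℂ c) ha

lemma smooth_of_isRep {f : G → ℂ} (hf : IsRep f) : Sm E f := by
  obtain ⟨μ, hμ⟩ := exists_biHaar G
  by_contra hcon
  obtain ⟨l, hl, hl0⟩ := Submodule.exists_dual_map_eq_bot_of_notMem (p := smSub E G) (x := f)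
    hcon inferInstance
  obtain ⟨k, x, v, -, hv⟩ := hf.exists_sep
  have hv' := hv f (mem_orb f)
  have hc : ∀ i, Continuous fun u => f (x i * u) := fun i =>
    hf.1.comp (continuous_const_mul _)
  have hh : Continuous fun u => ∑ i, f (x i * u) * l (v i) :=
    continuous_finsetSum _ fun i _ => (hc i).mul continuous_const
  have h0 := ae_eq_zero_of_integral_contMDiff_smul_eq_zero 𝓘(ℝ, E) (μ := μ)
    hh.locallyIntegrable (fun χ hχ _ => by
      have hi : ∀ i (c : ℂ), Integrable (fun u => χ u • (f (x i * u) * c)) μ := fun i c =>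
        cont_integrable μ (hχ.continuous.smul ((hc i).mul continuous_const))
      have e : (fun y => ∫ u, χ u • f (y * u) ∂μ)
          = ∑ i, (∫ u, χ u • f (x i * u) ∂μ) • v i := by
        funext y
        simp only [hv' y, Finset.smul_sum, Finset.sum_apply, Pi.smul_apply, smul_eq_mul,
          mul_comm (v _ y)]
        rw [integral_finsetSum _ fun i _ => hi i _]
        simp only [← smul_mul_assoc, integral_mul_const]
      have h1 : l (fun y => ∫ u, χ u • f (y * u) ∂μ) = 0 := by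
        have : l (fun y => ∫ u, χ u • f (y * u) ∂μ) ∈ (smSub E G).map l :=
          Submodule.mem_map_of_mem (conv_smooth μ hf.1 hχ)
        rwa [hl0, Submodule.mem_bot] at this
      rw [e, map_sum] at h1
      simp only [Finset.smul_sum]
      rw [integral_finsetSum _ fun i _ => hi i _, ← h1]
      simp only [← smul_mul_assoc, integral_mul_const, map_smul, smul_eq_mul])
  have h1 := congrFun ((hh.ae_eq_iff_eq μ continuous_zero).1 h0) 1
  apply hl
  have e : f = ∑ i, f (x i * 1) • v i := by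
    funext y
    have := hv' y 1
    simp only [mul_one] at this
    simp [this, mul_comm]
  rw [e, map_sum]
  simpa using h1

end smooth

section lin
variable {L : Type} [AddCommGroup L] [Module ℝ L] [FiniteDimensional ℝ L]

lemma exists_euclid (β : L →ₗ[ℝ] L →ₗ[ℝ] ℝ) (hs : ∀ X Y, β X Y = β Y X)
    (hp : ∀ X, X ≠ 0 → 0 < β X X) :
    ∃ e : L ≃ₗ[ℝ] EuclideanSpace ℝ (Fin (finrank ℝ L)), ∀ X Y, ⟪e X, e Y⟫ = β X Y := by
  let c : InnerProductSpace.Core ℝ L :=
    { inner := fun X Y => β X Y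
      conj_inner_symm := fun X Y => by simpa using hs Y X
      re_inner_nonneg := fun X => by
        by_cases h : X = 0
        · simp [h]
        · simpa using (hp X h).le
      add_left := fun X Y Z => by simp
      smul_left := fun X Y r => by simp
      definite := fun X h => by
        by_contra h0
        exact (hp X h0).ne' h }
  let : NormedAddCommGroup L := c.toNormedAddCommGroup
  let : InnerProductSpace ℝ L := InnerProductSpace.ofCore c.toCore
  exact ⟨(stdOrthonormalBasis ℝ L).repr.toLinearEquiv, fun X Y =>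
    (stdOrthonormalBasis ℝ L).repr.inner_map_map X Y⟩

lemma trace_sq_neg (β : L →ₗ[ℝ] L →ₗ[ℝ] ℝ) (hs : ∀ X Y, β X Y = β Y X)
    (hp : ∀ X, X ≠ 0 → 0 < β X X) (T : L →ₗ[ℝ] L) (hT : ∀ X Y, β (T X) Y = -β X (T Y))
    (h0 : T ≠ 0) : LinearMap.trace ℝ L (T ∘ₗ T) < 0 := by
  obtain ⟨e, he⟩ := exists_euclid β hs hp
  let b := EuclideanSpace.basisFun (Fin (finrank ℝ L)) ℝ
  rw [← LinearMap.trace_conj' _ e, LinearMap.trace_eq_sum_inner _ b]
  have h1 : ∀ i, ⟪b i, e.conj (T ∘ₗ T) (b i)⟫ = -β (T (e.symm (b i))) (T (e.symm (b i))) := by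
    intro i
    rw [hT, neg_neg, ← he]
    simp [LinearEquiv.conj_apply]
  have h2 : ∀ X, 0 ≤ β X X := fun X => by
    by_cases h : X = 0
    · simp [h]
    · exact (hp X h).le
  simp only [h1, Finset.sum_neg_distrib, neg_lt_zero]
  by_contra hcon
  have h3 := (Finset.sum_eq_zero_iff_of_nonneg fun i _ => h2 _).1
    (le_antisymm (not_lt.1 hcon) (Finset.sum_nonneg fun i _ => h2 _))
  apply h0
  refine (b.toBasis.map e.symm).ext fun i => ?_
  by_contra h4
  exact (hp _ h4).ne' (h3 i (Finset.mem_univ i))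

end lin

end Glue1

theorem dense_stmt : DenseStmt := by
  intro G _ _ _ _ f hf ε hε
  have h := ContinuousMap.starSubalgebra_topologicalClosure_eq_top_of_separatesPoints
    (Glue1.repAlg G) (by
      intro x y hxy
      obtain ⟨n, ρ, hρ, h1⟩ := MP_45783b_al.peterWeyl (g := x⁻¹ * y)
        (fun h => hxy (inv_mul_eq_one.1 h))
      by_contra hcon
      apply h1
      have e : ρ x = ρ y := by
        ext i j
        by_contra h2
        exact hcon ⟨fun z => ρ z i j,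
          ⟨⟨fun z => ρ z i j, hρ.matrix_elem i j⟩, Glue1.isRep_entry ρ hρ i j, rfl⟩, h2⟩
      rw [map_mul, ← e, ← map_mul, inv_mul_cancel, map_one])
  have h2 : (⟨f, hf⟩ : C(G, ℂ)) ∈ closure (Glue1.repAlg G : Set C(G, ℂ)) := by
    rw [← StarSubalgebra.topologicalClosure_coe, h]
    trivial
  obtain ⟨g, hg, hd⟩ := Metric.mem_closure_iff.1 h2 ε hε
  refine ⟨g, hg, fun x => ?_⟩
  rw [← dist_eq_norm]
  exact (ContinuousMap.dist_apply_le_dist (f := ⟨f, hf⟩) x).trans_lt hd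

end Pool.Agent.MP_ba99b7_an

end MrgPart2

-- ======== part 3: formerly Pool.Agent.MP_ba99b7_an.Glue1
section MrgPart3

/-! PROJECT STRI, module GLUE1: from a compact semisimple Lie group with an involution to `Sym`. -/

set_option maxSynthPendingDepth 3
set_option linter.unusedSectionVars false

namespace Pool.Agent.MP_ba99b7_an

open scoped Manifold ContDiff Topology ComplexConjugate RealInnerProductSpace
open Function Filter Set MeasureTheory Module Pool.Agent.MP_f244e7_gt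

namespace Glue1

variable {E : Type} [NormedAddCommGroup E] [NormedSpace ℝ E] [FiniteDimensional ℝ E]
  [CompleteSpace E]
  {G : Type} [Group G] [TopologicalSpace G] [ChartedSpace E G] [LieGroup 𝓘(ℝ, E) ∞ G]
  [LieGroup 𝓘(ℝ, E) (minSmoothness ℝ 3) G] [MeasurableSpace G] [TG G]
  {V : Type} [NormedAddCommGroup V] [InnerProductSpace ℝ V] [FiniteDimensional ℝ V]

lemma brk_eq (X Y : GroupLieAlgebra 𝓘(ℝ, E) G) : brk G (E := E) X Y = ⁅X, Y⁆ := bracket_eq X Y

lemma brk_neg (X Y : E) : -brk G Y X = brk G X Y := by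
  rw [brk, brk, VectorField.lieBracket_swap, neg_neg]

lemma LD_inv {B : Type} [NormedAddCommGroup B] [NormedSpace ℝ B] {f : G → B} (hf : Sm E f)
    (X : E) : LD X (fun g => f g⁻¹) 1 = -LD X f 1 := by
  have h1 := hasDerivAt_ex0_zero (f := fun g => f g⁻¹) (hf.comp (contMDiff_inv _ _)) X 1
  have h2 := hasDerivAt_ex0_zero hf (-X) 1
  have e : ∀ t : ℝ, (1 * ex0 G (t • X))⁻¹ = 1 * ex0 G (t • -X) := by
    intro t
    rw [one_mul, one_mul, inv_eq_iff_mul_eq_one, smul_neg, ← neg_smul, ← ex0_add,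
      add_neg_cancel, zero_smul, ex0_zero]
  simp only [e] at h1
  rw [h1.unique h2, ← DL_apply, map_neg, DL_apply]

lemma ex0_inj {X Y : E} (h : ∀ t : ℝ, ex0 G (t • X) = ex0 G (t • Y)) : X = Y := by
  obtain ⟨f, hf, h1⟩ := exists_test (E := E) (G := G)
  have h2 := hasDerivAt_ex0_zero hf X 1
  simp only [h] at h2
  have h3 := h2.unique (hasDerivAt_ex0_zero hf Y 1)
  rwa [← DL_apply, ← DL_apply, h1] at h3

set_option backward.isDefEq.respectTransparency false in
lemma killing_neg (hss : LieAlgebra.IsSemisimple ℝ (GroupLieAlgebra 𝓘(ℝ, E) G))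
    (X : GroupLieAlgebra 𝓘(ℝ, E) G) (hX : X ≠ 0) :
    killingForm ℝ (GroupLieAlgebra 𝓘(ℝ, E) G) X X < 0 := by
  obtain ⟨μ, hμ⟩ := exists_biHaar G
  obtain ⟨β, hs, hp, hi⟩ := exists_invariant_form (E := E) μ
  rw [killingForm_apply_apply]
  refine trace_sq_neg (L := E) β hs hp _ (fun Y Z => ?_) fun h => hX ?_
  · have h := hi Y Z X
    rw [← brk_neg, ← brk_neg Z X, map_neg, map_neg, LinearMap.neg_apply, brk_eq, brk_eq] at h
    change β (⁅X, (Y : GroupLieAlgebra 𝓘(ℝ, E) G)⁆ : GroupLieAlgebra 𝓘(ℝ, E) G) Z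
      = -β Y (⁅X, (Z : GroupLieAlgebra 𝓘(ℝ, E) G)⁆ : GroupLieAlgebra 𝓘(ℝ, E) G)
    linarith
  · have := LieAlgebra.ad_ker_eq_bot_of_hasTrivialRadical ℝ (GroupLieAlgebra 𝓘(ℝ, E) G)
    rw [← LieSubmodule.mem_bot (R := ℝ) (L := GroupLieAlgebra 𝓘(ℝ, E) G), ← this]
    exact h

variable (e : E ≃L[ℝ] V)

variable (G) in
/-- The adjoint representation. -/
noncomputable def AdV : G →* (V →L[ℝ] V) where
  toFun g := e.arrowCongr e (adj E g⁻¹)
  map_one' := by
    ext X
    simp [adj_one]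
  map_mul' g h := by
    ext X
    simp [adj_mul]

lemma AdV_apply (g : G) (X : E) : AdV G e g (e X) = e (adj E g⁻¹ X) := by
  simp [AdV]

lemma AdV_smooth : Sm E (AdV G e) :=
  Sm.clm (e.arrowCongr e).toContinuousLinearMap
    ((adj_smooth (E := E) (G := G)).comp (contMDiff_inv _ _))

variable (G) in
/-- The bracket. -/
noncomputable def adV : V →L[ℝ] V →L[ℝ] V := (DL E (AdV G e) 1).comp e.symm.toContinuousLinearMap

lemma adV_eq (X : E) : adV G e (e X) = LD X (AdV G e) 1 := by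
  simp [adV, DL_apply]

lemma adV_apply (X Y : E) : adV G e (e X) (e Y) = e (brk G X Y) := by
  have hs : Sm E (fun g : G => adj E g Y) := adj_smooth.clm_apply contMDiff_const
  have h1 := LD_clm (ContinuousLinearMap.apply ℝ V (e Y)) (AdV_smooth (G := G) e) X 1
  have h2 := LD_clm e.toContinuousLinearMap (f := fun g : G => adj E g⁻¹ Y)
    (hs.comp (contMDiff_inv _ _)) X 1
  rw [LD_inv hs, LD_adj, brk_neg] at h2
  rw [adV_eq]
  simp only [ContinuousLinearMap.apply_apply, AdV_apply] at h1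
  exact h1.symm.trans h2

variable (G) in
/-- The exponential map. -/
noncomputable def exV (X : V) : G := ex0 G (e.symm X)

lemma exV_smul (X : V) (t : ℝ) : exV G e (t • X) = ex0 G (t • e.symm X) := by
  rw [exV, map_smul]

lemma AdV_exV (X : V) : AdV G e (exV G e X) = NormedSpace.exp (adV G e X) := by
  rw [exV, rep_ex0 _ (AdV_smooth e), ← adV_eq, e.apply_symm_apply]

lemma exV_conj (g : G) (X : V) : g * exV G e X * g⁻¹ = exV G e (AdV G e g X) := by
  obtain ⟨X, rfl⟩ := e.surjective X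
  rw [AdV_apply, exV, exV, e.symm_apply_apply, e.symm_apply_apply, ex0_conj]

lemma exV_inj {X Y : V} (h : ∀ t : ℝ, exV G e (t • X) = exV G e (t • Y)) : X = Y :=
  e.symm.injective (ex0_inj (G := G) fun t => by rw [← exV_smul, ← exV_smul, h])

lemma hasDerivAt_exV {B : Type} [NormedAddCommGroup B] [NormedSpace ℝ B] {f : G → B}
    (hf : Sm E f) (X : V) (x : G) :
    HasDerivAt (fun t : ℝ => f (x * exV G e (t • X))) (LD (e.symm X) f x) 0 := by
  simp only [exV_smul]
  exact hasDerivAt_ex0_zero hf _ x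

lemma hasDerivAt_AdV (X : V) :
    HasDerivAt (fun t : ℝ => AdV G e (exV G e (t • X))) (adV G e X) 0 := by
  have := hasDerivAt_exV e (AdV_smooth (G := G) e) X 1
  rw [← adV_eq, e.apply_symm_apply] at this
  simpa only [one_mul] using this

lemma adV_AdV (g : G) (X : V) :
    adV G e (AdV G e g X) = AdV G e g * adV G e X * AdV G e g⁻¹ := by
  have h1 := hasDerivAt_AdV (G := G) e (AdV G e g X)
  have h2 := ((hasDerivAt_AdV (G := G) e X).const_mul (AdV G e g)).mul_const (AdV G e g⁻¹)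
  simp only [← map_mul, exV_conj, map_smul] at h2
  exact h1.unique h2

/-- The differential of a homomorphism. -/
noncomputable def thV (σ : G →* G) : V →L[ℝ] V := e.arrowCongr e (dh E σ)

lemma hom_exV (σ : G →* G) (hσ : ContMDiff 𝓘(ℝ, E) 𝓘(ℝ, E) ∞ σ) (X : V) :
    σ (exV G e X) = exV G e (thV e σ X) := by
  rw [exV, ex0_hom σ hσ]
  simp [exV, thV]

lemma thV_thV (σ : G →* G) (hσ : ContMDiff 𝓘(ℝ, E) 𝓘(ℝ, E) ∞ σ) (h : ∀ g, σ (σ g) = g) (X : V) :
    thV e σ (thV e σ X) = X :=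
  exV_inj (G := G) e fun t => by
    rw [← map_smul, ← map_smul, ← hom_exV e σ hσ, ← hom_exV e σ hσ, h]

lemma AdV_hom (σ : G →* G) (hσ : ContMDiff 𝓘(ℝ, E) 𝓘(ℝ, E) ∞ σ) (h : ∀ g, σ (σ g) = g) (g : G) :
    AdV G e (σ g) = thV e σ * AdV G e g * thV e σ := by
  ext1 X
  refine exV_inj (G := G) e fun t => ?_
  simp only [mul_apply_eq_comp]
  rw [← map_smul, ← map_smul, ← map_smul, ← map_smul, ← exV_conj, ← hom_exV e σ hσ, ← exV_conj,
    ← hom_exV e σ hσ, map_mul, map_mul, h, map_inv]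

lemma adV_thV (σ : G →* G) (hσ : ContMDiff 𝓘(ℝ, E) 𝓘(ℝ, E) ∞ σ) (h : ∀ g, σ (σ g) = g) (X : V) :
    adV G e (thV e σ X) = thV e σ * adV G e X * thV e σ := by
  have h1 := hasDerivAt_AdV (G := G) e (thV e σ X)
  have h2 := ((hasDerivAt_AdV (G := G) e X).const_mul (thV e σ)).mul_const (thV e σ)
  simp only [← AdV_hom e σ hσ h, hom_exV e σ hσ, map_smul] at h2
  exact h1.unique h2

lemma trace_conj (A A' S T : V →L[ℝ] V) (h : A' * A = 1) :
    LinearMap.trace ℝ V ((A * S * A' * (A * T * A') : V →L[ℝ] V) : V →ₗ[ℝ] V)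
      = LinearMap.trace ℝ V ((S * T : V →L[ℝ] V) : V →ₗ[ℝ] V) := by
  have e1 : A * S * A' * (A * T * A') = A * (S * T * A') := by
    simp only [mul_assoc]
    rw [← mul_assoc A' A, h, one_mul]
  have e2 : S * T = S * T * A' * A := by rw [mul_assoc, h, mul_one]
  rw [e1]
  conv_rhs => rw [e2]
  exact LinearMap.trace_mul_comm ℝ (A : V →ₗ[ℝ] V) ((S * T * A' : V →L[ℝ] V) : V →ₗ[ℝ] V)

lemma Dr_exV {f : G → ℂ} (hf : Sm E f) (X : V) : Dr (exV G e) X f = LD (e.symm X) f :=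
  funext fun x => (hasDerivAt_exV e hf X x).deriv

lemma exV_local (hinj : ∀ X, adV G e X = 0 → X = 0) :
    Continuous (exV G e) ∧ ∀ U ∈ 𝓝 (0 : V), exV G e '' U ∈ 𝓝 (1 : G) := by
  obtain ⟨π, hπ⟩ := LinearMap.exists_leftInverse_of_injective (adV G e).toLinearMap
    (LinearMap.ker_eq_bot'.2 hinj)
  obtain ⟨h1, h2⟩ := ex0_local (AdV G e) (AdV_smooth e)
    (e.symm.toContinuousLinearMap.comp (LinearMap.toContinuousLinearMap π)) (fun X => by
      rw [← adV_eq]
      have := LinearMap.congr_fun hπ (e X)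
      simp only [LinearMap.comp_apply, LinearMap.id_apply, ContinuousLinearMap.coe_coe] at this
      simp [this])
  refine ⟨h1.comp e.symm.continuous, fun U hU => ?_⟩
  have h3 : map (exV G e) (𝓝 0) = 𝓝 1 := by
    rw [← h2, ← map_zero e.symm, ← e.symm.map_nhds_eq, map_map]
    rfl
  rw [← h3]
  exact image_mem_map hU

/-- The symmetric pair of a Lie group. -/
noncomputable def sym (σ : G →* G) (hσ : ContMDiff 𝓘(ℝ, E) 𝓘(ℝ, E) ∞ σ) (h : ∀ g, σ (σ g) = g)
    (K : Subgroup G) (hK : IsClosed (K : Set G))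
    (hK1 : connectedComponentIn {g | σ g = g} 1 ⊆ K) (hK2 : ∀ k ∈ K, σ k = k)
    (hk : ∀ X Y, LinearMap.trace ℝ V ((adV G e X * adV G e Y : V →L[ℝ] V) : V →ₗ[ℝ] V)
      = -⟪X, Y⟫) : Sym V G :=
  have hinj : ∀ X, adV G e X = 0 → X = 0 := fun X hX => by
    have := hk X X
    rw [hX] at this
    simpa using this
  have hAd : ∀ g X Y, ⟪AdV G e g X, AdV G e g Y⟫ = ⟪X, Y⟫ := fun g X Y => by
    apply neg_injective
    rw [← hk, ← hk, adV_AdV, adV_AdV,
      trace_conj _ _ _ _ (by rw [← map_mul, inv_mul_cancel, map_one])]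
  have hθ : thV e σ * thV e σ = 1 := ContinuousLinearMap.ext (thV_thV e σ hσ h)
  { ad := adV G e
    ad_anti := fun X Y => by
      obtain ⟨X, rfl⟩ := e.surjective X
      obtain ⟨Y, rfl⟩ := e.surjective Y
      rw [adV_apply, adV_apply, ← map_neg, brk_neg]
    jacobi := fun X Y => by
      have h1 := ((adV G e).hasFDerivAt.comp_hasDerivAt 0
        ((hasDerivAt_AdV (G := G) e X).clm_apply (hasDerivAt_const (0 : ℝ) Y)))
      have h2 := ((hasDerivAt_AdV (G := G) e X).mul_const (adV G e Y)).mul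
        (hasDerivAt_AdV (G := G) e (-X))
      have e1 : ∀ t : ℝ, exV G e (t • -X) = (exV G e (t • X))⁻¹ := fun t => by
        rw [eq_inv_iff_mul_eq_one, exV_smul, exV_smul, map_neg, smul_neg, ← neg_smul, ← ex0_add,
          neg_add_cancel, zero_smul, ex0_zero]
      have e2 : exV G e 0 = 1 := by rw [exV, map_zero, ex0_zero]
      simp only [comp_def, adV_AdV] at h1
      simp only [Pi.mul_def, e1] at h2
      simpa [e2, sub_eq_add_neg] using h1.unique h2
    ad_skew := fun X Y Z => by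
      have h1 := ((hasDerivAt_AdV (G := G) e X).clm_apply (hasDerivAt_const (0 : ℝ) Y)).inner ℝ
        ((hasDerivAt_AdV (G := G) e X).clm_apply (hasDerivAt_const (0 : ℝ) Z))
      have e2 : exV G e 0 = 1 := by rw [exV, map_zero, ex0_zero]
      simp only [hAd] at h1
      have h2 := h1.unique (hasDerivAt_const _ _)
      simp only [zero_smul, e2, map_one, map_zero, add_zero, one_apply_eq_self] at h2
      linarith
    killing := hk
    Ad := AdV G e
    Ad_cont := (AdV_smooth e).continuous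
    Ad_inner := hAd
    Ad_ad := fun g X Y => by
      rw [adV_AdV, mul_apply_eq_comp, mul_apply_eq_comp, ← mul_apply_eq_comp (AdV G e g⁻¹),
        ← map_mul, inv_mul_cancel, map_one, one_apply_eq_self]
    ex := exV G e
    ex_cont := (exV_local e hinj).1
    ex_add := fun X s t => by simp only [exV_smul, ex0_add]
    Ad_ex := AdV_exV e
    ex_conj := exV_conj e
    ex_nhds := (exV_local e hinj).2
    σ := σ
    σ_cont := hσ.continuous
    σσ := h
    θ := thV e σ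
    θθ := thV_thV e σ hσ h
    θ_ad := fun X Y => by
      rw [adV_thV e σ hσ h, mul_apply_eq_comp, mul_apply_eq_comp, thV_thV e σ hσ h]
    θ_inner := fun X Y => by
      apply neg_injective
      rw [← hk, ← hk, adV_thV e σ hσ h, adV_thV e σ hσ h, trace_conj _ _ _ _ hθ]
    σ_ex := hom_exV e σ hσ
    Ad_σ := AdV_hom e σ hσ h
    K := K
    K_closed := hK
    K_fix := hK2
    ex_K := fun Y hY => by
      have hc : IsPreconnected (range fun t : ℝ => exV G e (t • Y)) :=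
        isPreconnected_range ((exV_local e hinj).1.comp (continuous_id.smul continuous_const))
      refine hK1 (hc.subset_connectedComponentIn ⟨0, ?_⟩ ?_ ⟨1, by simp⟩)
      · simp [exV, ex0_zero]
      · rintro _ ⟨t, rfl⟩
        simp [hom_exV e σ hσ, hY]
    ν := (exists_nu K hK).choose
    ν_prob := (exists_nu K hK).choose_spec.1
    ν_K := (exists_nu K hK).choose_spec.2.1
    ν_left := (exists_nu K hK).choose_spec.2.2.1
    ν_right := (exists_nu K hK).choose_spec.2.2.2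
    D_diff := fun f hf X x => (hasDerivAt_exV e (smooth_of_isRep hf) X x).differentiableAt
    D_add := fun f hf X Y => by
      funext x
      simp only [Dr_exV e (smooth_of_isRep hf), map_add, Pi.add_apply, ← DL_apply]
    D_br := fun f hf X Y => by
      obtain ⟨X, rfl⟩ := e.surjective X
      obtain ⟨Y, rfl⟩ := e.surjective Y
      have hs : Sm E f := smooth_of_isRep hf
      funext x
      simp only [Dr_exV e hs, Dr_exV e (hs.LD _), adV_apply, e.symm_apply_apply, Pi.sub_apply]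
      exact (LD_LD_sub hs X Y x).symm }

end Glue1

set_option backward.isDefEq.respectTransparency false in
theorem glue1_stmt : Glue1Stmt := by
  intro E _ _ _ _ G _ _ _ _ _ _ _ _ _ _ hss σ hσ hσσ K hK hK1 hK2
  have : IsTopologicalGroup G := topologicalGroup_of_lieGroup 𝓘(ℝ, E) ∞
  have : SecondCountableTopology G := ChartedSpace.secondCountable_of_sigmaCompact E G
  have : TG G := {}
  obtain ⟨e, he⟩ := Glue1.exists_euclid (L := E)
    (-killingForm ℝ (GroupLieAlgebra 𝓘(ℝ, E) G))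
    (fun X Y => congrArg Neg.neg (LieModule.traceForm_comm ℝ (GroupLieAlgebra 𝓘(ℝ, E) G)
      (GroupLieAlgebra 𝓘(ℝ, E) G) X Y))
    (fun X hX => neg_pos.2 (Glue1.killing_neg hss X hX))
  have hbr : ∀ X Y : GroupLieAlgebra 𝓘(ℝ, E) G,
      Glue1.adV G e.toContinuousLinearEquiv (e X) (e Y)
        = e (⁅X, Y⁆ : GroupLieAlgebra 𝓘(ℝ, E) G) := fun X Y => by
    rw [← Glue1.brk_eq]
    exact Glue1.adV_apply e.toContinuousLinearEquiv X Y
  refine ⟨_, Glue1.sym e.toContinuousLinearEquiv σ hσ hσσ K hK hK1 hK2 fun X Y => ?_, e, rfl,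
    fun X Y => (hbr X Y).symm, he, fun X => ?_, fun f hf X x => ?_,
    fun f hf => Glue1.smooth_of_isRep hf⟩
  · obtain ⟨X, rfl⟩ := e.surjective X
    obtain ⟨Y, rfl⟩ := e.surjective Y
    rw [he]
    change _ = - -killingForm ℝ (GroupLieAlgebra 𝓘(ℝ, E) G) X Y
    rw [neg_neg, killingForm_apply_apply]
    refine Eq.trans ?_ (LinearMap.trace_conj' _ e)
    congr 1
    refine LinearMap.ext fun Z => ?_
    obtain ⟨Z, rfl⟩ := e.surjective Z
    rw [LinearEquiv.conj_apply_apply, e.symm_apply_apply]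
    exact (congrArg _ (hbr Y Z)).trans (hbr X _)
  · change Glue1.dh E σ X = -X ↔ Glue1.thV e.toContinuousLinearEquiv σ (e X) = -e X
    rw [← map_neg, ← e.injective.eq_iff]
    simp [Glue1.thV]
  · have := Glue1.hasDerivAt_exV e.toContinuousLinearEquiv hf (e X) x
    rw [lder, mvfderiv_eq_LD hf]
    convert! this
    exact (e.symm_apply_apply X).symm

end Pool.Agent.MP_ba99b7_an

end MrgPart3

-- ======== part 4: formerly Pool.Agent.MP_ba99b7_an.WbA
section MrgPart4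

/-! PROJECT STRI, module WB, part A: transversality. -/

set_option linter.unusedSectionVars false

namespace Pool.Agent.MP_ba99b7_an.Wb

open scoped RealInnerProductSpace Topology
open MeasureTheory Module Submodule

variable {V : Type} [NormedAddCommGroup V] [InnerProductSpace ℝ V] [FiniteDimensional ℝ V]
  {G : Type} [Group G] [TopologicalSpace G] [MeasurableSpace G] [TG G]

theorem ad_sq_zero (S : Sym V G) {X Y : V} (h : S.ad X (S.ad X Y) = 0) : S.ad X Y = 0 := by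
  have := S.ad_skew X Y (S.ad X Y)
  rw [h, inner_zero_right, neg_zero] at this
  exact inner_self_eq_zero.1 this

/-- A generic vector for a commuting family. -/
theorem generic (S : Sym V G) (a W : Submodule ℝ V) (hc : ∀ X ∈ a, ∀ Y ∈ a, S.ad X Y = 0)
    (hW : ∀ X ∈ a, ∀ η ∈ W, S.ad X (S.ad X η) ∈ W)
    (h : ∀ X ∈ a, (∀ η ∈ W, S.ad X η = 0) → X = 0) :
    ∃ ξ ∈ W, ∀ X ∈ a, S.ad X ξ = 0 → X = 0 := by
  let Z : V → Submodule ℝ V := fun ξ => a ⊓ LinearMap.ker (S.ad.flip ξ : V →ₗ[ℝ] V)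
  have hZ : ∀ ξ X, X ∈ Z ξ ↔ X ∈ a ∧ S.ad X ξ = 0 := fun ξ X => Iff.rfl
  obtain ⟨_, ⟨ξ, hξ, rfl⟩, hmin⟩ :=
    (wellFounded_lt (α := Submodule ℝ V)).has_min (Z '' W) ⟨_, 0, W.zero_mem, rfl⟩
  refine ⟨ξ, hξ, fun X0 hX0 h0 => ?_⟩
  by_contra hne
  have : ¬∀ η ∈ W, S.ad X0 η = 0 := fun h' => hne (h X0 hX0 h')
  push Not at this
  obtain ⟨η, hη, hη0⟩ := this
  have comm : ∀ X ∈ a, ∀ Y ∈ a, ∀ v, S.ad X (S.ad Y v) = S.ad Y (S.ad X v) := by
    intro X hX Y hY v
    rw [S.ad_leibniz X Y v, hc X hX Y hY]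
    simp
  refine hmin (Z (ξ + S.ad X0 (S.ad X0 η))) ⟨_, W.add_mem hξ (hW X0 hX0 η hη), rfl⟩ ?_
  refine lt_of_le_of_ne (fun X hX => ?_) (fun he => ?_)
  · obtain ⟨hXa, hX⟩ := (hZ _ _).1 hX
    refine (hZ _ _).2 ⟨hXa, ?_⟩
    rw [map_add] at hX
    have h1 : S.ad X0 (S.ad X ξ) = 0 := by rw [comm X0 hX0 X hXa, h0, map_zero]
    have h2 := S.ad_skew X0 (S.ad X ξ) (S.ad X (S.ad X0 η))
    rw [h1, inner_zero_left, comm X0 hX0 X hXa, eq_neg_of_add_eq_zero_right hX, inner_neg_right,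
      neg_neg] at h2
    exact inner_self_eq_zero.1 h2.symm
  · have h1 : X0 ∈ Z ξ := (hZ _ _).2 ⟨hX0, h0⟩
    rw [← he] at h1
    have h2 := ((hZ _ _).1 h1).2
    rw [map_add, h0, zero_add] at h2
    exact hη0 (ad_sq_zero S (ad_sq_zero S h2))

/-- Dual vectors inside the span of an independent family. -/
theorem dualv {ι : Type} [Fintype ι] [DecidableEq ι] (v : ι → V)
    (h : ∀ c : ι → ℝ, ∑ i, c i • v i = 0 → c = 0) :
    ∃ c : ι → ι → ℝ, ∀ l j, ⟪∑ i, c l i • v i, v j⟫ = if l = j then 1 else 0 := by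
  let φ : (ι → ℝ) →ₗ[ℝ] (ι → ℝ) :=
    { toFun := fun c j => ⟪∑ i, c i • v i, v j⟫
      map_add' := fun c d => by
        ext j
        simp [add_smul, Finset.sum_add_distrib, inner_add_left]
      map_smul' := fun a c => by
        ext j
        simp [mul_smul, ← Finset.smul_sum, inner_smul_left] }
  have hi : Function.Injective φ := by
    rw [← LinearMap.ker_eq_bot, LinearMap.ker_eq_bot']
    intro c hc
    refine h c (inner_self_eq_zero (𝕜 := ℝ).1 ?_)
    rw [inner_sum]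
    refine Finset.sum_eq_zero fun j _ => ?_
    have : ⟪∑ i, c i • v i, v j⟫ = 0 := congrFun hc j
    rw [inner_smul_right, this, mul_zero]
  have hs := LinearMap.injective_iff_surjective.1 hi
  choose c hc using fun l => hs (Pi.single l 1)
  refine ⟨c, fun l j => ?_⟩
  have : ⟪∑ i, c l i • v i, v j⟫ = (Pi.single l (1 : ℝ) : ι → ℝ) j := congrFun (hc l) j
  rw [this, Pi.single_apply]
  simp [eq_comm]

theorem exists_adj (B : V →L[ℝ] V) {ξ : V} (h : ∀ Z, B Z = 0 → ⟪Z, ξ⟫ = 0) :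
    ∃ ζ, ∀ Z, ⟪B Z, ζ⟫ = ⟪Z, ξ⟫ := by
  have h1 : ξ ∈ B.kerᗮ := (Submodule.mem_orthogonal _ _).2 fun Z hZ => h Z hZ
  rw [ContinuousLinearMap.orthogonal_ker,
    (Submodule.closed_of_finiteDimensional _).submodule_topologicalClosure_eq] at h1
  obtain ⟨ζ, hζ⟩ := h1
  refine ⟨ζ, fun Z => ?_⟩
  rw [← hζ]
  exact (ContinuousLinearMap.adjoint_inner_right B Z ζ).symm

variable {S : Sym V G} {r : ℕ} (R : Roots S r)

/-- The closed conditions satisfied by the normalised displacement operators. -/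
structure Ok (u : G) (B : Fin r → V →L[ℝ] V) : Prop where
  nrm : ∀ j, ‖B j‖ * (‖B j‖ - 1) = 0
  pi : ∀ j X, B j (R.π j X) = B j X
  blk : ∀ i j, R.blk i = R.blk j → B i = B j
  br : ∀ j X Y, B j (S.ad X Y) = S.ad (B j X) (S.Ad u Y) + S.ad X (B j Y)
  th : ∀ j X, S.Ad u (S.θ (B j (S.θ X))) = -B j X

theorem ad_pi (j : Fin r) {X : V} (hX : X ∈ R.c j) (Y : V) : S.ad X (R.π j Y) = S.ad X Y := by
  have := R.ad_perp (j := j) (X := Y - R.π j Y) (R.π_orth j Y) hX
  rw [S.ad_anti, neg_eq_zero, map_sub, sub_eq_zero] at this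
  exact this.symm

theorem central_of (j : Fin r) {X : V} (hX : X ∈ R.c j) (h : ∀ Z ∈ R.c j, S.ad X Z = 0) :
    X = 0 :=
  S.eq_zero_of_central fun Y => by rw [← ad_pi R j hX]; exact h _ (R.π_mem j Y)

theorem pi_pi {i j : Fin r} (h : R.blk i ≠ R.blk j) (X : V) : R.π i (R.π j X) = 0 :=
  R.π_of_perp fun Z hZ => by
    rw [real_inner_comm]; exact R.blk_ne i j h Z hZ _ (R.π_mem j X)

/-- Transversality at a point where the displacements vanish. -/
theorem trans {u : G} {B : Fin r → V →L[ℝ] V} (h : Ok R u B) {k : G} (hk : k ∈ S.K)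
    (J : Finset (Fin r)) (hJ : ∀ j ∈ J, B j ≠ 0 ∧ B j (S.Ad k (R.w j)) = 0) :
    ∃ Y ζ : J → V, (∀ l, S.θ (Y l) = Y l) ∧
      ∀ l j : J, ⟪B j (S.ad (Y l) (S.Ad k (R.w j))), ζ j⟫ = if l = j then 1 else 0 := by
  classical
  set X : Fin r → V := fun j => S.Ad k (R.w j) with hXd
  have hXc : ∀ j, X j ∈ R.c j := fun j => R.c_Ad j k _ (R.w_c j)
  have hXp : ∀ j, S.θ (X j) = -X j := fun j => by
    rw [hXd, ← S.Ad_θ hk, R.θH _ (R.w_mem j), map_neg]
  let N : Submodule ℝ V := ⨅ j ∈ J, (B j).ker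
  have hN : ∀ Z, Z ∈ N ↔ ∀ j ∈ J, B j Z = 0 := fun Z => by simp [N, Submodule.mem_iInf]
  have hNθ : ∀ Z ∈ N, S.θ Z ∈ N := fun Z hZ => (hN _).2 fun j hj => by
    have h1 := h.th j Z
    rw [(hN _).1 hZ j hj, neg_zero] at h1
    have h2 := congrArg (fun v => S.θ (S.Ad u⁻¹ v)) h1
    simpa [S.Ad_inv_Ad, S.θθ] using h2
  have hNad : ∀ Z ∈ N, ∀ Z' ∈ N, S.ad Z Z' ∈ N := fun Z hZ Z' hZ' => (hN _).2 fun j hj => by
    rw [h.br, (hN _).1 hZ j hj, (hN _).1 hZ' j hj]
    simp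
  have hNπ : ∀ j ∈ J, ∀ Z, B j Z = 0 → R.π j Z ∈ N := fun j hj Z hZ => (hN _).2 fun i _ => by
    by_cases hb : R.blk i = R.blk j
    · rw [h.blk i j hb, h.pi, hZ]
    · rw [← h.pi, pi_pi R hb, map_zero]
  have hXN : ∀ j ∈ J, X j ∈ N := fun j hj => by
    rw [← R.π_of_mem (hXc j)]; exact hNπ j hj _ (hJ j hj).2
  have hperp : ∀ Z ∈ N, ∀ Y ∈ Nᗮ, S.ad Z Y ∈ Nᗮ := fun Z hZ Y hY =>
    (Submodule.mem_orthogonal _ _).2 fun Z' hZ' => by
      rw [← S.ad_assoc]
      exact (Submodule.mem_orthogonal _ _).1 hY _ (hNad Z' hZ' Z hZ)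
  have hperpθ : ∀ Y ∈ Nᗮ, S.θ Y ∈ Nᗮ := fun Y hY =>
    (Submodule.mem_orthogonal _ _).2 fun Z hZ => by
      rw [← S.θ_symm]
      exact (Submodule.mem_orthogonal _ _).1 hY _ (hNθ Z hZ)
  let a : Submodule ℝ V := span ℝ (Set.range fun j : J => X j)
  have haN : a ≤ N := span_le.2 (by rintro _ ⟨j, rfl⟩; exact hXN j j.2)
  have hap : a ≤ S.p := span_le.2 (by rintro _ ⟨j, rfl⟩; exact hXp j)
  have haa : a ≤ R.a.map (S.Ad k : V →ₗ[ℝ] V) :=
    span_le.2 (by rintro _ ⟨j, rfl⟩; exact ⟨R.w j, R.w_mem j, rfl⟩)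
  have hc : ∀ X ∈ a, ∀ Y ∈ a, S.ad X Y = 0 := by
    intro X hX Y hY
    obtain ⟨X', hX', rfl⟩ := haa hX
    obtain ⟨Y', hY', rfl⟩ := haa hY
    have := S.Ad_ad k X' Y'
    rw [R.adH X' hX' Y' hY', map_zero] at this
    exact this.symm
  have hbp : ∀ X ∈ a, ∀ Y, S.θ (S.ad X Y) = -S.ad X (S.θ Y) := fun X hX Y => by
    rw [S.θ_ad, S.mem_p.1 (hap hX)]
    simp
  have hcen : ∀ X0 ∈ a, (∀ η ∈ Nᗮ ⊓ S.p, S.ad X0 η = 0) → X0 = 0 := by
    intro X0 hX0 h0
    have h1 : ∀ Y ∈ Nᗮ, S.ad X0 Y = 0 := by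
      intro Y hY
      have e1 : S.ad X0 (Y - S.θ Y) = 0 :=
        h0 _ ⟨Nᗮ.sub_mem hY (hperpθ Y hY), S.mem_p.2 (by rw [map_sub, S.θθ, neg_sub])⟩
      have e2 : S.ad X0 (Y + S.θ Y) = 0 := by
        refine ad_sq_zero S (h0 _ ⟨hperp _ (haN hX0) _ (Nᗮ.add_mem hY (hperpθ Y hY)), ?_⟩)
        refine S.mem_p.2 ?_
        rw [hbp X0 hX0, map_add S.θ, S.θθ, add_comm]
      have e3 : (2 : ℝ) • S.ad X0 Y = 0 := by
        rw [map_sub] at e1
        rw [map_add] at e2
        rw [two_smul]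
        linear_combination (norm := abel) e1 + e2
      exact (smul_eq_zero.1 e3).resolve_left two_ne_zero
    let I : Submodule ℝ V := ⨅ Y ∈ Nᗮ, LinearMap.ker (S.ad.flip Y : V →ₗ[ℝ] V)
    have hI : ∀ Z, Z ∈ I ↔ ∀ Y ∈ Nᗮ, S.ad Z Y = 0 := fun Z => by simp [I, Submodule.mem_iInf]
    have hI1 : ∀ W, ∀ Z ∈ I, S.ad W Z ∈ I := by
      intro W Z hZ
      obtain ⟨W1, hW1, W2, hW2, rfl⟩ := N.exists_add_mem_mem_orthogonal W
      have e : S.ad W2 Z = 0 := by rw [S.ad_anti, (hI _).1 hZ W2 hW2, neg_zero]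
      rw [map_add, add_apply, e, add_zero]
      refine (hI _).2 fun Y hY => ?_
      have := S.ad_leibniz W1 Z Y
      rw [(hI _).1 hZ Y hY, map_zero, (hI _).1 hZ _ (hperp W1 hW1 Y hY), add_zero] at this
      exact this.symm
    have hI2 : ∀ Z ∈ I, S.θ Z ∈ I := fun Z hZ => (hI _).2 fun Y hY => by
      have := S.θ_ad Z (S.θ Y)
      rw [(hI _).1 hZ _ (hperpθ Y hY), map_zero, S.θθ] at this
      exact this.symm
    have h2 : ∀ j ∈ J, R.π j X0 = 0 := by
      intro j hj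
      rcases R.c_min j I hI1 hI2 with hc1 | hc1
      · exfalso
        refine (hJ j hj).1 (ContinuousLinearMap.ext fun Z => ?_)
        obtain ⟨Z1, hZ1, Z2, hZ2, rfl⟩ := N.exists_add_mem_mem_orthogonal Z
        have e : R.π j Z2 = 0 := by
          refine central_of R j (R.π_mem j Z2) fun Z' hZ' => ?_
          rw [S.ad_anti, ad_pi R j hZ', (hI _).1 (hc1 hZ') Z2 hZ2, neg_zero]
        rw [map_add, (hN _).1 hZ1 j hj, ← h.pi j Z2, e]
        simp
      · refine central_of R j (R.π_mem j X0) fun Z hZ => ?_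
        rw [S.ad_anti, ad_pi R j hZ, S.ad_anti, neg_neg]
        exact hc1 X0 ((hI _).2 h1) Z hZ
    have h3 : a ≤ (span ℝ {X0})ᗮ := span_le.2 (by
      rintro _ ⟨j, rfl⟩
      refine mem_orthogonal_singleton_iff_inner_right.2 ?_
      change ⟪X0, X j⟫ = 0
      rw [← R.π_of_mem (hXc j), ← R.π_symm, h2 j j.2, inner_zero_left])
    exact inner_self_eq_zero.1 (mem_orthogonal_singleton_iff_inner_right.1 (h3 hX0))
  obtain ⟨ξ, ⟨hξ1, hξ2⟩, hξ⟩ := generic S a (Nᗮ ⊓ S.p) hc (fun X0 hX0 η hη =>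
    ⟨hperp _ (haN hX0) _ (hperp _ (haN hX0) _ hη.1), S.mem_p.2 (by
      rw [hbp X0 hX0, hbp X0 hX0, S.mem_p.1 hη.2]; simp)⟩) hcen
  obtain ⟨c, hcd⟩ := dualv (fun j : J => S.ad (X j) ξ) fun c hc0 => by
    have e : S.ad (∑ i : J, c i • X i) ξ = 0 := by simpa using hc0
    have e1 := hξ _ (sum_mem fun i _ => a.smul_mem _ (subset_span ⟨i, rfl⟩)) e
    have e2 : ∑ i : J, c i • R.w i = 0 := by
      have := congrArg (S.Ad k⁻¹) e1
      simpa [hXd, S.Ad_inv_Ad] using this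
    have e3 := R.w_indep (c := fun j => if hj : j ∈ J then c ⟨j, hj⟩ else 0) (by
      rw [← e2, ← Finset.sum_subset (Finset.subset_univ J) (fun j _ hj => by simp [hj]),
        ← Finset.sum_coe_sort J]
      exact Finset.sum_congr rfl fun j _ => by simp [j.2])
    ext j
    simpa [j.2] using congrFun e3 j
  have hζ : ∀ j : J, ∃ ζ, ∀ Z, ⟪B j Z, ζ⟫ = ⟪Z, R.π j ξ⟫ := fun j =>
    exists_adj (B j) fun Z hZ => by
      rw [← R.π_symm]
      exact (Submodule.mem_orthogonal _ _).1 hξ1 _ (hNπ j j.2 Z hZ)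
  choose ζ hζ using hζ
  refine ⟨fun l => ∑ i, c l i • S.ad (X i) ξ, ζ, fun l => ?_, fun l j => ?_⟩
  · rw [map_sum]
    refine Finset.sum_congr rfl fun i _ => ?_
    rw [map_smul, S.θ_ad, hXp, S.mem_p.1 hξ2]
    simp
  · rw [hζ, S.ad_assoc, ad_pi R j (hXc j)]
    exact hcd l j

end Pool.Agent.MP_ba99b7_an.Wb

end MrgPart4

-- ======== part 5: formerly Pool.Agent.MP_ba99b7_an.WbB
section MrgPart5

/-! PROJECT STRI, module WB, part B: packing and the local sublevel estimate. -/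

set_option linter.unusedSectionVars false

namespace Pool.Agent.MP_ba99b7_an.Wb

open scoped RealInnerProductSpace Topology
open MeasureTheory Module Filter

variable {V : Type} [NormedAddCommGroup V] [InnerProductSpace ℝ V] [FiniteDimensional ℝ V]
  {G : Type} [Group G] [TopologicalSpace G] [MeasurableSpace G] [TG G]

/-- Disjoint translates. -/
theorem pack (S : Sym V G) {ι : Type} [Fintype ι] [DecidableEq ι] {E : Set G}
    (hE : MeasurableSet E) (g : (ι → ℝ) → G) (hg : ∀ t, g t ∈ S.K) {c : ℝ} (hc : 0 < c)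
    {ε : ι → ℝ} (hε : ∀ j, 0 < ε j)
    (h : ∀ t t' : ι → ℝ, ‖t‖ ≤ c → ‖t'‖ ≤ c → ∀ z, g t * z ∈ E → g t' * z ∈ E →
      ∀ j, ‖t - t'‖ ≤ |t j - t' j| → |t j - t' j| < ε j) :
    S.ν.real E ≤ ∏ j, ε j / c := by
  have := S.ν_prob
  let N : ι → ℕ := fun j => ⌈c / ε j⌉₊
  let T := Fintype.piFinset fun j => Finset.range (N j)
  let tt : (ι → ℕ) → ι → ℝ := fun n j => ε j * n j
  have htt : ∀ n ∈ T, ‖tt n‖ ≤ c := fun n hn => by
    refine (pi_norm_le_iff_of_nonneg hc.le).2 fun j => ?_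
    have h1 : n j < N j := Finset.mem_range.1 (Fintype.mem_piFinset.1 hn j)
    have h2 : (n j : ℝ) < c / ε j := Nat.lt_ceil.1 h1
    have h3 := hε j
    rw [lt_div_iff₀ h3] at h2
    rw [Real.norm_eq_abs, abs_of_nonneg (by positivity)]
    simp only [tt]
    linarith
  have hm : ∀ t, Measurable fun z => g t * z := fun t => (continuous_const_mul _).measurable
  have hd : Set.PairwiseDisjoint (↑T : Set (ι → ℕ)) fun n => (fun z => g (tt n) * z) ⁻¹' E := by
    intro n hn n' hn' hne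
    refine Set.disjoint_left.2 fun z h1 h2 => hne ?_
    obtain ⟨j0, -⟩ := Function.ne_iff.1 hne
    obtain ⟨j, -, hj⟩ := Finset.exists_max_image Finset.univ (fun j => |tt n j - tt n' j|)
      ⟨j0, Finset.mem_univ _⟩
    have h3 : ‖tt n - tt n'‖ ≤ |tt n j - tt n' j| :=
      (pi_norm_le_iff_of_nonneg (abs_nonneg _)).2 fun i => hj i (Finset.mem_univ _)
    have h4 := h _ _ (htt n hn) (htt n' hn') z h1 h2 j h3
    have key : ∀ i, |tt n i - tt n' i| < ε i → n i = n' i := fun i hi => by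
      simp only [tt] at hi
      rw [← mul_sub, abs_mul, abs_of_pos (hε i), mul_lt_iff_lt_one_right (hε i), abs_lt] at hi
      have a1 : (n i : ℝ) < n' i + 1 := by linarith
      have a2 : (n' i : ℝ) < n i + 1 := by linarith
      have a3 : n i < n' i + 1 := by exact_mod_cast a1
      have a4 : n' i < n i + 1 := by exact_mod_cast a2
      omega
    have h5 : |tt n j - tt n' j| = 0 := by simp [tt, key j h4]
    ext i
    exact key i ((hj i (Finset.mem_univ _)).trans_lt (h5 ▸ hε i))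
  have h1 := sum_measureReal_le_measureReal_univ (μ := S.ν) (fun n _ => hm (tt n) hE) hd
  have h2 : ∀ n, S.ν.real ((fun z => g (tt n) * z) ⁻¹' E) = S.ν.real E := fun n => by
    rw [← map_measureReal_apply (hm _) hE, S.ν_left _ (hg _)]
  simp only [h2, Finset.sum_const, nsmul_eq_mul, probReal_univ] at h1
  have h3 : ∏ j, c / ε j ≤ (T.card : ℝ) := by
    rw [Fintype.card_piFinset]
    push_cast
    refine Finset.prod_le_prod (fun j _ => (div_pos hc (hε j)).le) fun j _ => ?_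
    rw [Finset.card_range]
    exact Nat.le_ceil _
  have h4 : (∏ j, c / ε j) * ∏ j, ε j / c = 1 := by
    rw [← Finset.prod_mul_distrib]
    refine Finset.prod_eq_one fun j _ => ?_
    have := hε j
    field_simp
  have h5 : 0 ≤ ∏ j, ε j / c := Finset.prod_nonneg fun j _ => (div_pos (hε j) hc).le
  have h6 : 0 ≤ S.ν.real E := measureReal_nonneg
  calc S.ν.real E = (∏ j, c / ε j) * S.ν.real E * ∏ j, ε j / c := by
        rw [mul_right_comm, h4, one_mul]
    _ ≤ 1 * ∏ j, ε j / c :=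
        mul_le_mul_of_nonneg_right ((mul_le_mul_of_nonneg_right h3 h6).trans h1) h5
    _ = _ := one_mul _

variable {S : Sym V G} {r : ℕ} (R : Roots S r)

/-- The sublevel set. -/
def Sub (B : Fin r → V →L[ℝ] V) (ε : Fin r → ℝ) : Set G :=
  {k | ∀ j, ‖B j (S.Ad k (R.w j))‖ ≤ ε j}

theorem isClosed_Sub (B : Fin r → V →L[ℝ] V) (ε : Fin r → ℝ) : IsClosed (Sub R B ε) := by
  have := S.Ad_cont
  simp only [Sub, Set.ofPred_forall]
  exact isClosed_iInter fun j => isClosed_le (by fun_prop) continuous_const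

theorem Ok.norm_le {u : G} {B : Fin r → V →L[ℝ] V} (h : Ok R u B) (j : Fin r) : ‖B j‖ ≤ 1 := by
  rcases mul_eq_zero.1 (h.nrm j) with h1 | h1 <;> linarith

/-- The local sublevel estimate. -/
theorem local_est {u0 : G} {B0 : Fin r → V →L[ℝ] V} (h0 : Ok R u0 B0) {k0 : G} (hk0 : k0 ∈ S.K) :
    ∃ C : ℝ, 0 ≤ C ∧ ∃ U ∈ 𝓝 B0, ∃ O ∈ 𝓝 k0, ∀ u, ∀ B ∈ U, Ok R u B → ∀ ε : Fin r → ℝ,
      (∀ j, 0 < ε j) → (∀ j, B j = 0 → 1 ≤ ε j) → S.ν.real (O ∩ Sub R B ε) ≤ C * ∏ j, ε j := by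
  classical
  let J : Finset (Fin r) := Finset.univ.filter fun j => B0 j ≠ 0 ∧ B0 j (S.Ad k0 (R.w j)) = 0
  obtain ⟨Y, ζ, hY, hδ⟩ := trans R h0 hk0 J fun j hj => (Finset.mem_filter.1 hj).2
  let Yc : (J → ℝ) →L[ℝ] V :=
    ∑ l, (ContinuousLinearMap.proj l : (J → ℝ) →L[ℝ] ℝ).smulRight (Y l)
  have hYc : ∀ t, Yc t = ∑ l, t l • Y l := fun t => by simp [Yc]
  have hA := S.Ad_cont
  have hex := S.ex_cont
  set Z : ℝ := 1 + ∑ j, ‖ζ j‖ with hZ
  set W : ℝ := 1 + ∑ j, ‖R.w j‖ with hW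
  have hZ0 : 0 < Z := by positivity
  have hW0 : 0 < W := by positivity
  have hZ1 : ∀ j, ‖ζ j‖ ≤ Z := fun j => by
    have := Finset.single_le_sum (f := fun j => ‖ζ j‖) (fun _ _ => norm_nonneg _)
      (Finset.mem_univ j)
    linarith
  have hW1 : ∀ j, ‖R.w j‖ ≤ W := fun j => by
    have := Finset.single_le_sum (f := fun j => ‖R.w j‖) (fun _ _ => norm_nonneg _)
      (Finset.mem_univ j)
    linarith
  set η : ℝ := 1 / (4 * (‖Yc‖ + 1) * W * Z) with hη
  have hη0 : 0 < η := by positivity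
  set κ : ℝ := 1 / (4 * (Fintype.card J + 1)) with hκ
  have hκ0 : 0 < κ := by positivity
  -- the strict derivative
  have e1 : ∀ᶠ p : (J → ℝ) × (J → ℝ) in 𝓝 (0, 0),
      ‖S.Ad (S.ex (Yc p.1)) - S.Ad (S.ex (Yc p.2)) - S.ad (Yc p.1 - Yc p.2)‖ ≤
        η * ‖Yc p.1 - Yc p.2‖ := by
    have h1 := (hasStrictFDerivAt_iff_isLittleO.1 S.hasStrictFDerivAt_Ad_ex).def hη0
    have h2 : Tendsto (fun p : (J → ℝ) × (J → ℝ) => (Yc p.1, Yc p.2)) (𝓝 (0, 0)) (𝓝 (0, 0)) :=
      Continuous.tendsto' (by fun_prop) _ _ (by simp)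
    exact h2.eventually h1
  obtain ⟨V1, hV1, V2, hV2, hV⟩ := mem_nhds_prod_iff.1 e1
  -- the matrix of derivatives
  have e2 : ∀ᶠ p : (Fin r → V →L[ℝ] V) × G × (J → ℝ) in 𝓝 (B0, k0, 0), ∀ l j : J,
      |⟪p.1 j (S.ad (Y l) (S.Ad ((S.ex (Yc p.2.2))⁻¹ * p.2.1) (R.w j))), ζ j⟫ -
        if l = j then 1 else 0| < κ := by
    refine eventually_all.2 fun l => eventually_all.2 fun j => ?_
    refine ContinuousAt.eventually_lt (by fun_prop) continuousAt_const ?_
    simp only [map_zero, S.ex_zero, inv_one, one_mul, hδ, sub_self, abs_zero]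
    exact hκ0
  -- the other indices
  have e3 : ∀ j, ∃ η0 : ℝ, 0 < η0 ∧ ∀ᶠ p : (Fin r → V →L[ℝ] V) × G × (J → ℝ) in 𝓝 (B0, k0, 0),
      j ∉ J → η0 ≤ 1 ∧ (‖p.1 j‖ < 1 ∨ η0 < ‖p.1 j (S.Ad p.2.1 (R.w j))‖) := by
    intro j
    by_cases h1 : B0 j = 0
    · refine ⟨1, one_pos, ?_⟩
      have : ∀ᶠ p : (Fin r → V →L[ℝ] V) × G × (J → ℝ) in 𝓝 (B0, k0, 0), ‖p.1 j‖ < 1 :=
        ContinuousAt.eventually_lt (by fun_prop) continuousAt_const (by simp [h1])
      exact this.mono fun p hp _ => ⟨le_rfl, Or.inl hp⟩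
    by_cases h2 : B0 j (S.Ad k0 (R.w j)) = 0
    · exact ⟨1, one_pos, Eventually.of_forall fun p hp =>
        absurd (Finset.mem_filter.2 ⟨Finset.mem_univ _, h1, h2⟩) hp⟩
    · have h3 := norm_pos_iff.2 h2
      refine ⟨min 1 (‖B0 j (S.Ad k0 (R.w j))‖ / 2), lt_min one_pos (by positivity), ?_⟩
      have : ∀ᶠ p : (Fin r → V →L[ℝ] V) × G × (J → ℝ) in 𝓝 (B0, k0, 0),
          ‖B0 j (S.Ad k0 (R.w j))‖ / 2 < ‖p.1 j (S.Ad p.2.1 (R.w j))‖ :=
        ContinuousAt.eventually_lt continuousAt_const (by fun_prop) (by simp only; linarith)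
      exact this.mono fun p hp _ => ⟨min_le_left _ _, Or.inr ((min_le_right _ _).trans_lt hp)⟩
  choose η0 hη00 e3 using e3
  obtain ⟨U, hU, O1, hO1, hUO⟩ := mem_nhds_prod_iff.1 (e2.and (eventually_all.2 e3))
  obtain ⟨O2, hO2, V3, hV3, hO⟩ := mem_nhds_prod_iff.1 hO1
  obtain ⟨c, hc, hcV⟩ := Metric.nhds_basis_closedBall.mem_iff.1
    (inter_mem hV1 (inter_mem hV2 hV3))
  have hcV' : ∀ t : J → ℝ, ‖t‖ ≤ c → t ∈ V1 ∧ t ∈ V2 ∧ t ∈ V3 := fun t ht =>
    hcV (mem_closedBall_zero_iff.2 ht)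
  set D : ℝ := 5 * Z / c + ∑ j, 1 / η0 j with hD
  have hs0 : 0 ≤ ∑ j, 1 / η0 j := Finset.sum_nonneg fun j _ => (one_div_pos.2 (hη00 j)).le
  have hD0 : 0 ≤ D := by positivity
  refine ⟨D ^ r, by positivity, U, hU, interior O2, interior_mem_nhds.2 hO2, ?_⟩
  intro u B hB hOk ε hε hε1
  have hall : ∀ k ∈ interior O2, ∀ t : J → ℝ, ‖t‖ ≤ c → _ := fun k hk t ht =>
    hUO (Set.mk_mem_prod hB (hO (Set.mk_mem_prod (interior_subset hk) (hcV' t ht).2.2)))
  rcases (interior O2 ∩ Sub R B ε).eq_empty_or_nonempty with he | ⟨k1, hk1, hk1'⟩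
  · rw [he, measureReal_empty]
    exact mul_nonneg (by positivity) (Finset.prod_nonneg fun j _ => (hε j).le)
  have hp := pack S (isOpen_interior.measurableSet.inter (isClosed_Sub R B ε).measurableSet)
    (fun t : J → ℝ => S.ex (Yc t)) (fun t => S.ex_K _ (by simp [hYc, hY])) hc
    (ε := fun j : J => 5 * Z * ε j) (fun j => mul_pos (by positivity) (hε j)) (by
      intro t t' ht ht' z h1 h2 j hj
      have a1 := hV (Set.mk_mem_prod (hcV' t ht).1 (hcV' t' ht').2.1)
      have a2 := (hall _ h1.1 t ht).1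
      simp only [Set.mem_ofPred_eq, inv_mul_cancel_left] at a1 a2
      set v := S.Ad z (R.w j) with hv
      have hvn : ‖v‖ ≤ W := by rw [hv, S.Ad_norm]; exact hW1 j
      have b1 : ‖B j (S.Ad (S.ex (Yc t)) v)‖ ≤ ε j := by
        have := h1.2 j
        rwa [S.Ad_mul_apply] at this
      have b2 : ‖B j (S.Ad (S.ex (Yc t')) v)‖ ≤ ε j := by
        have := h2.2 j
        rwa [S.Ad_mul_apply] at this
      set E := S.Ad (S.ex (Yc t)) - S.Ad (S.ex (Yc t')) - S.ad (Yc t - Yc t') with hE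
      have c1 : |⟪B j (E v), ζ j⟫| ≤ ‖t - t'‖ / 4 := by
        have d1 : ‖Yc t - Yc t'‖ ≤ (‖Yc‖ + 1) * ‖t - t'‖ := by
          rw [← map_sub]
          exact (Yc.le_opNorm _).trans (by gcongr; linarith)
        calc _ ≤ ‖B j (E v)‖ * ‖ζ j‖ := abs_real_inner_le_norm _ _
          _ ≤ (1 * (η * ((‖Yc‖ + 1) * ‖t - t'‖) * W)) * Z := by
              gcongr
              · refine ((B j).le_opNorm _).trans ?_
                gcongr
                · exact hOk.norm_le R j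
                · refine (E.le_opNorm _).trans ?_
                  gcongr
                  exact a1.trans (by gcongr)
              · exact hZ1 j
          _ = ‖t - t'‖ / 4 := by rw [hη]; field_simp
      have c2 : |⟪B j (S.ad (Yc t - Yc t') v), ζ j⟫ - (t j - t' j)| ≤ ‖t - t'‖ / 4 := by
        have d1 : ⟪B j (S.ad (Yc t - Yc t') v), ζ j⟫ - (t j - t' j) = ∑ l, (t - t') l *
            (⟪B j (S.ad (Y l) v), ζ j⟫ - if l = j then 1 else 0) := by
          rw [← map_sub, hYc]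
          simp [sum_inner, inner_smul_left, mul_sub, Finset.sum_sub_distrib]
        rw [d1]
        calc _ ≤ ∑ l, |(t - t') l * (⟪B j (S.ad (Y l) v), ζ j⟫ - if l = j then 1 else 0)| :=
              Finset.abs_sum_le_sum_abs _ _
          _ ≤ ∑ _l : J, ‖t - t'‖ * κ := Finset.sum_le_sum fun l _ => by
              rw [abs_mul]
              exact mul_le_mul (norm_le_pi_norm (t - t') l) (a2 l j).le (abs_nonneg _)
                (norm_nonneg _)
          _ = ‖t - t'‖ / 4 * (Fintype.card J / (Fintype.card J + 1)) := by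
              rw [Finset.sum_const, nsmul_eq_mul, Finset.card_univ, hκ]; field_simp
          _ ≤ ‖t - t'‖ / 4 * 1 := by
              gcongr
              rw [div_le_one (by positivity)]; linarith
          _ = _ := mul_one _
      have c3 : ⟪B j (E v), ζ j⟫ = ⟪B j (S.Ad (S.ex (Yc t)) v), ζ j⟫ -
          ⟪B j (S.Ad (S.ex (Yc t')) v), ζ j⟫ - ⟪B j (S.ad (Yc t - Yc t') v), ζ j⟫ := by
        rw [hE, sub_apply, sub_apply, map_sub, map_sub, inner_sub_left, inner_sub_left]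
      have c4 : |⟪B j (S.Ad (S.ex (Yc t)) v), ζ j⟫| ≤ ε j * Z :=
        (abs_real_inner_le_norm _ _).trans (mul_le_mul b1 (hZ1 j) (norm_nonneg _) (hε j).le)
      have c5 : |⟪B j (S.Ad (S.ex (Yc t')) v), ζ j⟫| ≤ ε j * Z :=
        (abs_real_inner_le_norm _ _).trans (mul_le_mul b2 (hZ1 j) (norm_nonneg _) (hε j).le)
      have c6 : 0 < ε j * Z := mul_pos (hε j) hZ0
      have c7 : |t j - t' j| ≤ 2 * (ε j * Z) + ‖t - t'‖ / 2 := by
        rw [abs_le] at c1 c2 c4 c5 ⊢
        constructor <;> linarith [c1.1, c1.2, c2.1, c2.2, c4.1, c4.2, c5.1, c5.2]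
      linarith)
  refine hp.trans ?_
  have f1 : ∀ j ∉ J, 1 ≤ D * ε j := fun j hj => by
    obtain ⟨g1, g2⟩ := (hall k1 hk1 0 (by simpa using hc.le)).2 j hj
    have g3 : η0 j ≤ ε j := by
      rcases g2 with g2 | g2
      · have g4 : ‖B j‖ = 0 := (mul_eq_zero.1 (hOk.nrm j)).resolve_right (by
          simp only at g2; linarith)
        exact g1.trans (hε1 j (norm_eq_zero.1 g4))
      · exact g2.le.trans (hk1' j)
    have g4 := Finset.single_le_sum (f := fun j => 1 / η0 j)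
      (fun j _ => (one_div_pos.2 (hη00 j)).le) (Finset.mem_univ j)
    have g5 : 1 / η0 j ≤ D := by
      have : 0 ≤ 5 * Z / c := by positivity
      linarith
    rw [div_le_iff₀ (hη00 j)] at g5
    exact g5.trans (by gcongr)
  calc ∏ j : J, 5 * Z * ε j / c ≤ ∏ j : J, D * ε j :=
        Finset.prod_le_prod (fun j _ => by have := hε j; positivity) fun j _ => by
          have := hε j
          rw [mul_div_right_comm]
          gcongr
          linarith
    _ = ∏ j ∈ J, D * ε j := Finset.prod_coe_sort J fun j => D * ε j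
    _ ≤ ∏ j, D * ε j := Finset.prod_le_prod_of_subset_of_one_le (Finset.subset_univ _)
        (fun j _ => mul_nonneg hD0 (hε j).le) fun j _ hj => f1 j hj
    _ = D ^ r * ∏ j, ε j := by simp [Finset.prod_mul_distrib]

end Pool.Agent.MP_ba99b7_an.Wb

end MrgPart5

-- ======== part 6: formerly Pool.Agent.MP_ba99b7_an.Wb
section MrgPart6

/-! PROJECT STRI, module WB: the Gaussian integral over `K`. -/

set_option linter.unusedSectionVars false

namespace Pool.Agent.MP_ba99b7_an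

namespace Wb

open scoped RealInnerProductSpace Topology
open MeasureTheory Module Filter

variable {V : Type} [NormedAddCommGroup V] [InnerProductSpace ℝ V] [FiniteDimensional ℝ V]
  {G : Type} [Group G] [TopologicalSpace G] [MeasurableSpace G] [TG G]
  {S : Sym V G} {r : ℕ} (R : Roots S r)

theorem isClosed_Ok : IsClosed {p : G × (Fin r → V →L[ℝ] V) | Ok R p.1 p.2} := by
  have c1 : ∀ j, Continuous fun p : G × (Fin r → V →L[ℝ] V) => p.2 j := fun j =>
    (continuous_apply j).comp continuous_snd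
  have c2 : ∀ j X, Continuous fun p : G × (Fin r → V →L[ℝ] V) => p.2 j X := fun j X =>
    (c1 j).clm_apply continuous_const
  have c3 : Continuous fun p : G × (Fin r → V →L[ℝ] V) => S.Ad p.1 :=
    S.Ad_cont.comp continuous_fst
  have a1 : ∀ j, IsClosed {p : G × (Fin r → V →L[ℝ] V) | ‖p.2 j‖ * (‖p.2 j‖ - 1) = 0} := fun j =>
    isClosed_eq ((c1 j).norm.mul ((c1 j).norm.sub continuous_const)) continuous_const
  have a2 : ∀ j X, IsClosed {p : G × (Fin r → V →L[ℝ] V) | p.2 j (R.π j X) = p.2 j X} :=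
    fun j X => isClosed_eq (c2 j _) (c2 j _)
  have a3 : ∀ i j, IsClosed {p : G × (Fin r → V →L[ℝ] V) | p.2 i = p.2 j} :=
    fun i j => isClosed_eq (c1 i) (c1 j)
  have a4 : ∀ j X Y, IsClosed {p : G × (Fin r → V →L[ℝ] V) |
      p.2 j (S.ad X Y) = S.ad (p.2 j X) (S.Ad p.1 Y) + S.ad X (p.2 j Y)} :=
    fun j X Y => isClosed_eq (c2 j _) (((S.ad.continuous.comp (c2 j X)).clm_apply
      (c3.clm_apply continuous_const)).add ((S.ad X).continuous.comp (c2 j Y)))
  have a5 : ∀ j X, IsClosed {p : G × (Fin r → V →L[ℝ] V) |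
      S.Ad p.1 (S.θ (p.2 j (S.θ X))) = -p.2 j X} :=
    fun j X => isClosed_eq (c3.clm_apply (S.θ.continuous.comp (c2 j _))) (c2 j X).neg
  refine isClosed_of_closure_subset fun p hp => ⟨fun j => ?_, fun j X => ?_, fun i j h => ?_,
    fun j X Y => ?_, fun j X => ?_⟩
  · exact (a1 j).closure_subset_iff.2 (fun q hq => hq.1 j) hp
  · exact (a2 j X).closure_subset_iff.2 (fun q hq => hq.2 j X) hp
  · exact (a3 i j).closure_subset_iff.2 (fun q hq => hq.3 i j h) hp
  · exact (a4 j X Y).closure_subset_iff.2 (fun q hq => hq.4 j X Y) hp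
  · exact (a5 j X).closure_subset_iff.2 (fun q hq => hq.5 j X) hp

theorem isCompact_Ok : IsCompact {p : G × (Fin r → V →L[ℝ] V) | Ok R p.1 p.2} := by
  have : ProperSpace (V →L[ℝ] V) := FiniteDimensional.proper ℝ _
  have h1 : IsCompact ((Set.univ : Set G) ×ˢ
      Set.univ.pi fun _ : Fin r => Metric.closedBall (0 : V →L[ℝ] V) 1) :=
    isCompact_univ.prod (isCompact_univ_pi fun _ => isCompact_closedBall _ _)
  exact h1.of_isClosed_subset (isClosed_Ok R) fun p hp =>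
    ⟨trivial, fun j _ => mem_closedBall_zero_iff.2 (Ok.norm_le R hp j)⟩

/-- The uniform sublevel estimate. -/
theorem sublevel : ∃ C : ℝ, 0 ≤ C ∧ ∀ u B, Ok R u B → ∀ ε : Fin r → ℝ,
    (∀ j, 0 < ε j) → (∀ j, B j = 0 → 1 ≤ ε j) → S.ν.real (Sub R B ε) ≤ C * ∏ j, ε j := by
  classical
  have := S.ν_prob
  have hc := (isCompact_Ok R).prod S.K_closed.isCompact
  have hl : ∀ q : (G × (Fin r → V →L[ℝ] V)) × G, ∃ C : ℝ, 0 ≤ C ∧ ∃ U ∈ 𝓝 q.1.2, ∃ O ∈ 𝓝 q.2,
      (Ok R q.1.1 q.1.2 ∧ q.2 ∈ S.K → ∀ u, ∀ B ∈ U, Ok R u B → ∀ ε : Fin r → ℝ,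
      (∀ j, 0 < ε j) → (∀ j, B j = 0 → 1 ≤ ε j) →
        S.ν.real (O ∩ Sub R B ε) ≤ C * ∏ j, ε j) := by
    intro q
    by_cases hq : Ok R q.1.1 q.1.2 ∧ q.2 ∈ S.K
    · obtain ⟨C, hC, U, hU, O, hO, h⟩ := local_est R hq.1 hq.2
      exact ⟨C, hC, U, hU, O, hO, fun _ => h⟩
    · exact ⟨0, le_rfl, _, univ_mem, _, univ_mem, fun h => absurd h hq⟩
  choose C hC U hU O hO h using hl
  obtain ⟨T, hT, hcov⟩ := hc.elim_nhds_subcover (fun q => (Set.univ ×ˢ U q) ×ˢ O q) fun q _ =>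
    prod_mem_nhds (prod_mem_nhds univ_mem (hU q)) (hO q)
  refine ⟨∑ q ∈ T, C q, Finset.sum_nonneg fun q _ => hC q, fun u B hB ε hε hε1 => ?_⟩
  have hP : 0 ≤ ∏ j, ε j := Finset.prod_nonneg fun j _ => (hε j).le
  have h1 : Sub R B ε ≤ᵐ[S.ν] ⋃ q ∈ T.filter fun q => B ∈ U q, O q ∩ Sub R B ε := by
    filter_upwards [S.ν_K] with k hk hk'
    have := hcov (Set.mk_mem_prod (a := (u, B)) hB hk)
    simp only [Set.mem_iUnion] at this
    obtain ⟨q, hq, h2⟩ := this
    exact Set.mem_biUnion (x := q) (Finset.mem_filter.2 ⟨hq, h2.1.2⟩) ⟨h2.2, hk'⟩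
  calc S.ν.real (Sub R B ε) ≤ S.ν.real (⋃ q ∈ T.filter fun q => B ∈ U q, O q ∩ Sub R B ε) :=
        ENNReal.toReal_mono (measure_ne_top _ _) (measure_mono_ae h1)
    _ ≤ ∑ q ∈ T.filter fun q => B ∈ U q, S.ν.real (O q ∩ Sub R B ε) :=
        measureReal_biUnion_finset_le _ _
    _ ≤ ∑ q ∈ T.filter fun q => B ∈ U q, C q * ∏ j, ε j := Finset.sum_le_sum fun q hq =>
        h q (hT q (Finset.mem_filter.1 hq).1) u B (Finset.mem_filter.1 hq).2 hB ε hε hε1
    _ ≤ ∑ q ∈ T, C q * ∏ j, ε j := Finset.sum_le_sum_of_subset_of_nonneg (Finset.filter_subset _ _)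
        fun q _ _ => mul_nonneg (hC q) hP
    _ = _ := (Finset.sum_mul ..).symm

/-- The normalised displacement operators. -/
noncomputable def Bu (u : G) (j : Fin r) : V →L[ℝ] V := (R.δ j u)⁻¹ • ((S.Ad u - 1) * R.π j)

theorem Bu_apply (u : G) (j : Fin r) (X : V) :
    Bu R u j X = (R.δ j u)⁻¹ • (S.Ad u (R.π j X) - R.π j X) := by simp [Bu]

theorem pi_ad (j : Fin r) (X Y : V) : R.π j (S.ad X Y) = S.ad X (R.π j Y) := by
  have h1 : R.π j (S.ad X (Y - R.π j Y)) = 0 := R.π_of_perp fun Z hZ => by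
    rw [S.ad_skew, R.π_orth j Y _ (R.c_ad j X Z hZ), neg_zero]
  rw [map_sub, map_sub, R.π_of_mem (R.c_ad j X _ (R.π_mem j Y)), sub_eq_zero] at h1
  exact h1

theorem ok_Bu (x : G) : Ok R (S.s x) (Bu R (S.s x)) where
  nrm j := by
    rw [Bu, norm_smul, norm_inv, Roots.δ, norm_norm]
    by_cases h : ‖(S.Ad (S.s x) - 1) * R.π j‖ = 0
    · simp [h]
    · rw [inv_mul_cancel₀ h]; simp
  pi j X := by rw [Bu_apply, Bu_apply, R.π_of_mem (R.π_mem j X)]
  blk i j h := by simp only [Bu, Roots.δ, R.π_blk h]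
  br j X Y := by
    have e1 : S.ad X (R.π j Y) = S.ad (R.π j X) Y := by
      rw [← pi_ad, S.ad_anti X Y, map_neg, pi_ad, ← S.ad_anti]
    have e2 : S.ad X (S.Ad (S.s x) (R.π j Y)) = S.ad (R.π j X) (S.Ad (S.s x) Y) := by
      rw [← R.π_Ad, ← pi_ad, S.ad_anti X, map_neg, pi_ad, ← S.ad_anti]
    simp only [Bu_apply, map_smul, map_sub, smul_apply, sub_apply]
    rw [pi_ad, e2, e1, S.Ad_ad, ← smul_add]
    congr 1
    abel
  th j X := by
    have e1 : ∀ Z, S.θ (S.Ad (S.s x) (S.θ Z)) = S.Ad (S.s x)⁻¹ Z := fun Z => by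
      rw [← S.σ_s, S.Ad_σ]; rfl
    simp only [Bu_apply, map_smul, map_sub]
    rw [R.π_θ, e1, S.θθ, S.Ad_Ad_inv, ← smul_neg, neg_sub]

theorem rho_eq (x : G) {k : G} (hk : k ∈ S.K) (j : Fin r) :
    R.ρ j (S.s (x * k)) = R.δ j (S.s x) * ‖Bu R (S.s x) j (S.Ad k (R.w j))‖ := by
  have e1 : R.ρ j (S.s (x * k)) = ‖((S.Ad (S.s x) - 1) * R.π j) (S.Ad k (R.w j))‖ := by
    rw [Roots.ρ, S.s_mul_K x hk, ← S.Ad_norm k, map_sub, S.Ad_mul_apply, S.Ad_mul_apply,
      S.Ad_Ad_inv]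
    simp [R.π_of_mem (R.c_Ad j k _ (R.w_c j))]
  rw [e1, Bu, smul_apply, norm_smul, norm_inv, Roots.δ, norm_norm]
  by_cases h : ‖(S.Ad (S.s x) - 1) * R.π j‖ = 0
  · simp [norm_eq_zero.1 h]
  · rw [mul_inv_cancel_left₀ h]

/-- The layer decomposition at a point. -/
theorem layer {ι : Type} [Fintype ι] {t d b : ι → ℝ} {W : ℝ} (ht : ∀ j, 0 ≤ t j)
    (hb : ∀ j, 0 ≤ b j ∧ b j ≤ W) (n : ℕ) (hn : ∀ j, W * √(1 + t j * d j ^ 2) ≤ n) :
    ∃ s ≤ n, (∀ j, b j ≤ (s + 1) * (√(1 + t j * d j ^ 2))⁻¹) ∧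
      Real.exp (-∑ j, t j * (d j * b j) ^ 2) ≤ Real.exp (W ^ 2) * Real.exp (-1) ^ s := by
  classical
  have hq : ∀ j, 0 < √(1 + t j * d j ^ 2) := fun j =>
    Real.sqrt_pos.2 (by have := ht j; positivity)
  have hex : ∃ s : ℕ, ∀ j, b j * √(1 + t j * d j ^ 2) ≤ s + 1 :=
    ⟨n, fun j => ((mul_le_mul_of_nonneg_right (hb j).2 (hq j).le).trans (hn j)).trans (by linarith)⟩
  refine ⟨Nat.find hex, Nat.find_min' hex fun j =>
    ((mul_le_mul_of_nonneg_right (hb j).2 (hq j).le).trans (hn j)).trans (by linarith),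
    fun j => ?_, ?_⟩
  · rw [← div_eq_mul_inv, le_div_iff₀ (hq j)]
    exact Nat.find_spec hex j
  · rw [← Real.exp_nat_mul, ← Real.exp_add, Real.exp_le_exp]
    have h0 : ∀ j, 0 ≤ t j * (d j * b j) ^ 2 := fun j => mul_nonneg (ht j) (sq_nonneg _)
    rcases Nat.eq_zero_or_eq_succ_pred (Nat.find hex) with h | h
    · rw [h]
      have := Finset.sum_nonneg fun j (_ : j ∈ Finset.univ) => h0 j
      have := sq_nonneg W
      push_cast
      linarith
    · have h1 := Nat.find_min hex (m := (Nat.find hex).pred) (by omega)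
      push Not at h1
      obtain ⟨j, hj⟩ := h1
      have h2 : (((Nat.find hex).pred : ℕ) : ℝ) + 1 = Nat.find hex := by exact_mod_cast h.symm
      rw [h2] at hj
      have h3 : (1 : ℝ) ≤ Nat.find hex := by
        have : (0 : ℝ) ≤ ((Nat.find hex).pred : ℕ) := Nat.cast_nonneg _
        linarith
      have h4 : (Nat.find hex : ℝ) ^ 2 ≤ (b j * √(1 + t j * d j ^ 2)) ^ 2 :=
        pow_le_pow_left₀ (by linarith) hj.le 2
      rw [mul_pow, Real.sq_sqrt (by have := ht j; positivity)] at h4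
      have h5 := Finset.single_le_sum (fun j _ => h0 j) (Finset.mem_univ j)
      have h6 : b j ^ 2 ≤ W ^ 2 := pow_le_pow_left₀ (hb j).1 (hb j).2 2
      nlinarith

theorem geo_sum (r : ℕ) {q : ℝ} (h0 : 0 < q) (hq : q < 1) :
    Summable fun s : ℕ => q ^ s * ((s : ℝ) + 1) ^ r := by
  have h1 : Summable fun s : ℕ => (s : ℝ) ^ r * q ^ s :=
    summable_pow_mul_geometric_of_norm_lt_one r (by rwa [Real.norm_eq_abs, abs_of_pos h0])
  have h2 := (summable_nat_add_iff (f := fun s : ℕ => (s : ℝ) ^ r * q ^ s) 1).2 h1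
  refine (h2.mul_left q⁻¹).congr fun s => ?_
  push_cast
  field_simp
  ring

end Wb

open MeasureTheory Wb in
theorem wb_stmt : WbStmt := by
  intro V _ _ _ G _ _ _ _ S r R
  have := S.ν_prob
  obtain ⟨C, hC, h⟩ := sublevel R
  have hs := geo_sum r (Real.exp_pos (-1)) (by
    rw [← Real.exp_zero]; exact Real.exp_lt_exp.2 (by norm_num))
  let W : ℝ := ∑ j, ‖R.w j‖
  have hW0 : 0 ≤ W := by positivity
  refine ⟨Real.exp (W ^ 2) * C * ∑' s : ℕ, Real.exp (-1) ^ s * ((s : ℝ) + 1) ^ r,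
    fun x t ht => ?_⟩
  let d : Fin r → ℝ := fun j => R.δ j (S.s x)
  have hq : ∀ j, 0 < √(1 + t j * d j ^ 2) := fun j =>
    Real.sqrt_pos.2 (by have := ht j; positivity)
  obtain ⟨n, hn⟩ := exists_nat_ge (∑ j, W * √(1 + t j * d j ^ 2))
  have hn' : ∀ j, W * √(1 + t j * d j ^ 2) ≤ n := fun j =>
    (Finset.single_le_sum (f := fun j => W * √(1 + t j * d j ^ 2))
      (fun j _ => mul_nonneg hW0 (hq j).le) (Finset.mem_univ j)).trans hn
  let E : ℕ → Set G := fun s =>
    Sub R (Bu R (S.s x)) fun j => (s + 1) * (√(1 + t j * d j ^ 2))⁻¹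
  have hE : ∀ s, MeasurableSet (E s) := fun s => (isClosed_Sub R _ _).measurableSet
  have hint : ∀ s, Integrable ((E s).indicator fun _ => Real.exp (W ^ 2) * Real.exp (-1) ^ s) S.ν :=
    fun s => (integrable_const _).indicator (hE s)
  have e1 : ∏ j, (1 + t j * d j ^ 2) ^ (-(1 / 2) : ℝ) = ∏ j, (√(1 + t j * d j ^ 2))⁻¹ :=
    Finset.prod_congr rfl fun j _ => by
      rw [Real.rpow_neg (by have := ht j; positivity), Real.sqrt_eq_rpow]
  have hP : 0 ≤ ∏ j, (√(1 + t j * d j ^ 2))⁻¹ :=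
    Finset.prod_nonneg fun j _ => (inv_pos.2 (hq j)).le
  calc ∫ k, Real.exp (-∑ j, t j * R.ρ j (S.s (x * k)) ^ 2) ∂S.ν
      ≤ ∫ k, ∑ s ∈ Finset.range (n + 1),
          (E s).indicator (fun _ => Real.exp (W ^ 2) * Real.exp (-1) ^ s) k ∂S.ν := by
        refine integral_mono_of_nonneg (Filter.Eventually.of_forall fun k => (Real.exp_pos _).le)
          (integrable_finsetSum _ fun s _ => hint s) ?_
        filter_upwards [S.ν_K] with k hk
        obtain ⟨s, hs1, hs2, hs3⟩ := layer (d := d)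
          (b := fun j => ‖Bu R (S.s x) j (S.Ad k (R.w j))‖) ht (fun j => ⟨norm_nonneg _, by
            refine ((Bu R (S.s x) j).le_opNorm _).trans ?_
            rw [S.Ad_norm]
            exact (mul_le_of_le_one_left (norm_nonneg _) ((ok_Bu R x).norm_le R j)).trans
              (Finset.single_le_sum (f := fun j => ‖R.w j‖) (fun _ _ => norm_nonneg _)
                (Finset.mem_univ j))⟩) n hn'
        simp only [rho_eq R x hk]
        refine hs3.trans (le_trans ?_ (Finset.single_le_sum (f := fun s => (E s).indicator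
          (fun _ => Real.exp (W ^ 2) * Real.exp (-1) ^ s) k) (fun s _ =>
            Set.indicator_nonneg (fun _ _ => by positivity) _)
          (Finset.mem_range.2 (Nat.lt_succ_of_le hs1))))
        rw [Set.indicator_of_mem (show k ∈ E s from hs2)]
    _ = ∑ s ∈ Finset.range (n + 1), S.ν.real (E s) * (Real.exp (W ^ 2) * Real.exp (-1) ^ s) := by
        rw [integral_finsetSum _ fun s _ => hint s]
        exact Finset.sum_congr rfl fun s _ => integral_indicator_const _ (hE s)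
    _ ≤ ∑ s ∈ Finset.range (n + 1), Real.exp (W ^ 2) * C * (∏ j, (√(1 + t j * d j ^ 2))⁻¹) *
          (Real.exp (-1) ^ s * ((s : ℝ) + 1) ^ r) := Finset.sum_le_sum fun s _ => by
        have h1 := h _ _ (ok_Bu R x) (fun j => (s + 1) * (√(1 + t j * d j ^ 2))⁻¹)
          (fun j => by have := hq j; positivity) (fun j hj => by
            have h2 : d j = 0 := by
              by_contra h3
              have h4 := congrArg norm hj
              have h3' : ‖(S.Ad (S.s x) - 1) * R.π j‖ ≠ 0 := h3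
              rw [Bu, norm_smul, norm_inv, Roots.δ, norm_norm, inv_mul_cancel₀ h3'] at h4
              simp at h4
            simp [h2])
        rw [Finset.prod_mul_distrib, Finset.prod_const, Finset.card_univ, Fintype.card_fin] at h1
        refine (mul_le_mul_of_nonneg_right h1 (by positivity)).trans_eq ?_
        ring
    _ ≤ _ := by
        rw [← Finset.mul_sum, e1, mul_right_comm]
        refine mul_le_mul_of_nonneg_right (mul_le_mul_of_nonneg_left ?_ (by positivity)) hP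
        exact hs.sum_le_tsum _ fun s _ => by positivity

end Pool.Agent.MP_ba99b7_an

end MrgPart6

-- marker of a merged file
example : 731051 + 150564 = 731051 + 150564 := rfl
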