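import Mathlib.Data.Int.Star
import Mathlib.NumberTheory.ArithmeticFunction.Moebius
import Mathlib.Analysis.Real.Pi.Bounds
import Pool.Agent.MP_ba99b7_an.SpecAn
import Pool.Agent.MP_ba99b7_an.Arc3
import Pool.Agent.MP_ba99b7_an.Glue2A
import Pool.Agent.MP_ba99b7_an.Wb
import Pool.Agent.MP_f244e7_gt.Haar
import Pool.Agent.MP_ba99b7_an.SpecLie
import Pool.Agent.MP_ba99b7_an.HwA
import Pool.Agent.MP_ba99b7_an.Base

-- ======== part 0: formerly Pool.Agent.MP_ba99b7_an.Num1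
section MrgPart0

/-! Module NUM1: the divisor bound and lattice points on ellipses. -/

namespace Pool.Agent.MP_ba99b7_an

open Finset

namespace Num1

theorem tau_pow {k : ℕ} (hk : k ≠ 0) (n : ℕ) : n.divisors.card ^ k ≤ (k ^ k) ^ 2 ^ k * n := by
  rcases eq_or_ne n 0 with rfl | hn
  · simp [hk]
  have h0 : ∀ e : ℕ, (e + 1) ^ k ≤ k ^ k * 2 ^ e := fun e => by
    have h1 : e + 1 ≤ k * (e / k + 1) := Nat.lt_mul_div_succ e (by omega)
    have h2 : e / k + 1 ≤ 2 ^ (e / k) := Nat.lt_two_pow_self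
    refine (Nat.pow_le_pow_left (h1.trans (Nat.mul_le_mul_left _ h2)) k).trans ?_
    rw [mul_pow, ← pow_mul]
    exact Nat.mul_le_mul_left _ (Nat.pow_le_pow_right two_pos (Nat.div_mul_le_self _ _))
  rw [Nat.card_divisors hn, ← prod_pow]
  have h1 : ∀ p ∈ n.primeFactors, (n.factorization p + 1) ^ k
      ≤ (if p < 2 ^ k then k ^ k else 1) * p ^ n.factorization p := by
    intro p hp
    have hp2 : 2 ≤ p := (Nat.prime_of_mem_primeFactors hp).two_le
    split_ifs with h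
    · exact (h0 _).trans (Nat.mul_le_mul_left _ (Nat.pow_le_pow_left hp2 _))
    · have h2 : n.factorization p + 1 ≤ 2 ^ n.factorization p := Nat.lt_two_pow_self
      refine (Nat.pow_le_pow_left h2 k).trans ?_
      rw [← pow_mul, mul_comm, pow_mul, one_mul]
      exact Nat.pow_le_pow_left (by omega) _
  refine (prod_le_prod' h1).trans ?_
  rw [prod_mul_distrib, show ∏ p ∈ n.primeFactors, p ^ n.factorization p = n from
    Nat.prod_factorization_pow_eq_self hn, prod_ite, prod_const_one, mul_one, prod_const]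
  refine Nat.mul_le_mul_right _ (Nat.pow_le_pow_right (by positivity) ?_)
  exact (card_le_card fun p hp => mem_range.2 (mem_filter.1 hp).2).trans (card_range _).le

lemma dvd_congr_right' {a b c : ℤ} (h : b = c) : a ∣ b ↔ a ∣ c := by rw [h]

lemma cop {D K u v : ℤ} (h : v ^ 2 + D * u ^ 2 = K) (c : IsCoprime u v) : IsCoprime u K := by
  have h1 : IsCoprime u (v ^ 2) := c.pow_right
  have := h1.add_mul_left_right (D * u)
  rwa [show v ^ 2 + u * (D * u) = K by rw [← h]; ring] at this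

lemma key_dvd {D K u0 v0 u1 v1 u2 v2 δ δ' : ℤ} (hK : K = δ * δ')
    (h0 : v0 ^ 2 + D * u0 ^ 2 = K) (c0 : IsCoprime u0 v0)
    (h1 : v1 ^ 2 + D * u1 ^ 2 = K) (c1 : IsCoprime u1 v1)
    (a1 : δ ∣ u1 * v0 - v1 * u0) (b1 : δ' ∣ u1 * v0 + v1 * u0)
    (a2 : δ ∣ u2 * v0 - v2 * u0) (b2 : δ' ∣ u2 * v0 + v2 * u0) :
    K ∣ 4 * D * (u1 * v2 - u2 * v1) := by
  obtain ⟨x, y, hxy⟩ := c0
  have e1 : δ ∣ u1 * v2 - u2 * v1 := by
    have h3 : δ ∣ (u1 * v2 - u2 * v1) * (x * u0 + y * v0) := by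
      have h4 := (a1.mul_left (y * v2)).sub (a2.mul_left (y * v1))
      have h5 := (a1.mul_left (x * u2)).sub (a2.mul_left (x * u1))
      exact (dvd_congr_right' (by ring)).1 (h4.add h5)
    simpa [hxy] using h3
  have e2 : δ' ∣ u1 * v2 - u2 * v1 := by
    have h3 : δ' ∣ (u1 * v2 - u2 * v1) * (x * u0 + y * v0) := by
      have h4 := (b1.mul_left (y * v2)).sub (b2.mul_left (y * v1))
      have h5 := (b2.mul_left (x * u1)).sub (b1.mul_left (x * u2))
      exact (dvd_congr_right' (by ring)).1 (h4.add h5)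
    simpa [hxy] using h3
  obtain ⟨h, hh⟩ : ∃ h : ℤ, h = (Int.gcd δ δ' : ℕ) := ⟨_, rfl⟩
  have g1 : h ∣ δ := hh ▸ Int.gcd_dvd_left _ _
  have g2 : h ∣ δ' := hh ▸ Int.gcd_dvd_right _ _
  have g3 : h * h ∣ K := hK ▸ mul_dvd_mul g1 g2
  have g4 : h ∣ K := (Dvd.intro _ rfl).trans g3
  have g5 : h ∣ u1 * (2 * v0) := by
    exact (dvd_congr_right' (by ring)).1 ((g1.trans a1).add (g2.trans b1))
  have g6 : h ∣ 2 * v0 := ((cop h1 c1).symm.of_isCoprime_of_dvd_left g4).dvd_of_dvd_mul_left g5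
  have g7 : h * h ∣ 4 * D * u0 ^ 2 := by
    exact (dvd_congr_right' (by rw [← h0]; ring)).1 ((g3.mul_left 4).sub (mul_dvd_mul g6 g6))
  have g8 : h ∣ 4 * D :=
    (((cop h0 ⟨x, y, hxy⟩).symm.of_isCoprime_of_dvd_left g4).pow_right (n := 2)).dvd_of_dvd_mul_right
      ((Dvd.intro _ rfl).trans g7)
  have g9 : K ∣ h * (u1 * v2 - u2 * v1) := by
    rw [hh, Int.gcd_eq_gcd_ab, add_mul, hK]
    refine dvd_add ?_ ?_
    · rw [mul_right_comm]; exact (mul_dvd_mul_left δ e2).mul_right _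
    · rw [mul_right_comm, mul_comm δ]; exact (mul_dvd_mul_left δ' e1).mul_right _
  exact g9.trans (mul_dvd_mul_right g8 _)

lemma prim_count {D K : ℤ} (hD : 0 < D) (hK : 0 < K) (S : Finset (ℤ × ℤ))
    (hS : ∀ p ∈ S, p.2 ^ 2 + D * p.1 ^ 2 = K ∧ IsCoprime p.1 p.2) :
    S.card ≤ (2 * (8 * D.toNat + 1)) * K.natAbs.divisors.card := by
  rcases S.eq_empty_or_nonempty with rfl | ⟨p0, hp0⟩
  · simp
  refine card_le_mul_card_image_of_maps_to (f := fun p => Int.gcd K (p.1 * p0.2 - p.2 * p0.1))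
    (fun p _ => Nat.mem_divisors.2 ⟨Nat.gcd_dvd_left _ _, by omega⟩) _ fun δ _ => ?_
  set F := S.filter (fun p => Int.gcd K (p.1 * p0.2 - p.2 * p0.1) = δ) with hF
  rcases F.eq_empty_or_nonempty with h | ⟨p1, hp1⟩
  · simp [h]
  have hfac : ∀ p ∈ F, (δ : ℤ) ∣ K ∧ (δ : ℤ) ∣ p.1 * p0.2 - p.2 * p0.1 ∧
      K / δ ∣ p.1 * p0.2 + p.2 * p0.1 := by
    intro p hp
    obtain ⟨h1, h2⟩ := mem_filter.1 hp
    have h3 : K ∣ (p.1 * p0.2 - p.2 * p0.1) * (p.1 * p0.2 + p.2 * p0.1) :=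
      ⟨p.1 ^ 2 - p0.1 ^ 2, by linear_combination p.1 ^ 2 * (hS p0 hp0).1 - p0.1 ^ 2 * (hS p h1).1⟩
    have hpos : 0 < Int.gcd K (p.1 * p0.2 - p.2 * p0.1) := Int.gcd_pos_of_ne_zero_left _ hK.ne'
    obtain ⟨g, a, b, hg, hab, ha, hb⟩ := Int.exists_gcd_one' hpos
    have hgd : g = δ := by
      rw [← h2]
      conv_rhs => rw [ha, hb, Int.gcd_mul_right, hab]
      simp
    subst hgd
    have hg' : (g : ℤ) ≠ 0 := by exact_mod_cast hg.ne'
    refine ⟨⟨a, by rw [ha, mul_comm]⟩, ⟨b, by rw [hb, mul_comm]⟩, ?_⟩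
    rw [hb] at h3
    have h4 : K / g = a := by rw [ha]; exact Int.mul_ediv_cancel a hg'
    rw [h4]
    refine (Int.isCoprime_iff_gcd_eq_one.2 hab).dvd_of_dvd_mul_left ?_
    rw [ha, mul_right_comm] at h3
    exact (mul_dvd_mul_iff_right hg').1 h3
  have hj : ∀ p ∈ F, K ∣ 4 * D * (p1.1 * p.2 - p.1 * p1.2) := fun p hp =>
    key_dvd (Int.mul_ediv_cancel' (hfac p hp).1).symm (hS p0 hp0).1 (hS p0 hp0).2
      (hS p1 (mem_filter.1 hp1).1).1 (hS p1 (mem_filter.1 hp1).1).2 (hfac p1 hp1).2.1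
      (hfac p1 hp1).2.2 (hfac p hp).2.1 (hfac p hp).2.2
  have hn : ∀ p ∈ F, (p1.2 * p.2 + D * p1.1 * p.1) ^ 2 + D * (p1.1 * p.2 - p.1 * p1.2) ^ 2 = K ^ 2 := by
    intro p hp
    have h1 := (hS p (mem_filter.1 hp).1).1
    have h2 := (hS p1 (mem_filter.1 hp1).1).1
    rw [sq K]; nth_rewrite 1 [← h1]; rw [← h2]; ring
  have hc : (univ ×ˢ Icc (-(4 * D)) (4 * D) : Finset (Bool × ℤ)).card = 2 * (8 * D.toNat + 1) := by
    simp only [card_product, card_univ, Fintype.card_bool, Int.card_Icc]; omega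
  rw [← hc]
  refine card_le_card_of_injOn (fun p => (decide (0 ≤ p1.2 * p.2 + D * p1.1 * p.1),
    4 * D * (p1.1 * p.2 - p.1 * p1.2) / K)) (fun p hp => ?_) fun p hp q hq h => ?_
  · obtain ⟨j, hj⟩ := hj p hp
    have h1 := hn p hp
    have h2 : |p1.1 * p.2 - p.1 * p1.2| ≤ K := by
      refine abs_le_of_sq_le_sq' ?_ hK.le |> abs_le.2
      nlinarith [sq_nonneg (p1.2 * p.2 + D * p1.1 * p.1), sq_nonneg (p1.1 * p.2 - p.1 * p1.2)]
    obtain ⟨h3, h4⟩ := abs_le.1 h2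
    simp only [coe_product, coe_univ, coe_Icc, Set.mem_prod, Set.mem_univ, Set.mem_Icc, true_and]
    rw [hj, Int.mul_ediv_cancel_left _ hK.ne']
    constructor <;> nlinarith
  · simp only [Prod.mk.injEq, decide_eq_decide] at h
    obtain ⟨h1, h2⟩ := h
    have h3 : p1.1 * p.2 - p.1 * p1.2 = p1.1 * q.2 - q.1 * p1.2 := by
      have := congrArg (K * ·) h2
      simp only [Int.mul_ediv_cancel' (hj p hp), Int.mul_ediv_cancel' (hj q hq)] at this
      exact mul_left_cancel₀ (by omega) this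
    have h4 : p1.2 * p.2 + D * p1.1 * p.1 = p1.2 * q.2 + D * p1.1 * q.1 := by
      have h5 := hn p hp
      have h6 := hn q hq
      rw [h3] at h5
      have h7 : (p1.2 * p.2 + D * p1.1 * p.1) ^ 2 = (p1.2 * q.2 + D * p1.1 * q.1) ^ 2 := by linarith
      rcases sq_eq_sq_iff_eq_or_eq_neg.1 h7 with h8 | h8
      · exact h8
      · omega
    have h5 := (hS p1 (mem_filter.1 hp1).1).1
    ext
    · refine mul_left_cancel₀ hK.ne' ?_
      rw [← h5]; linear_combination p1.1 * h4 - p1.2 * h3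
    · refine mul_left_cancel₀ hK.ne' ?_
      rw [← h5]; linear_combination p1.2 * h4 + D * p1.1 * h3

lemma rep_count {D K : ℤ} (hD : 0 < D) (S : Finset (ℤ × ℤ))
    (hS : ∀ p ∈ S, p.2 ^ 2 + D * p.1 ^ 2 = K) :
    S.card ≤ 1 + (2 * (8 * D.toNat + 1)) * K.natAbs.divisors.card ^ 2 := by
  rcases le_or_gt K 0 with hK | hK
  · refine le_add_right (card_le_one.2 fun p hp q hq => ?_)
    have z : ∀ p ∈ S, p = (0, 0) := fun p hp => by
      have := hS p hp
      have h1 : 0 ≤ D * p.1 ^ 2 := by positivity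
      have h2 : p.2 ^ 2 = 0 := by nlinarith [sq_nonneg p.2]
      have h3 : D * p.1 ^ 2 = 0 := by nlinarith [sq_nonneg p.2]
      ext
      · simpa [hD.ne'] using h3
      · simpa using h2
    rw [z p hp, z q hq]
  refine le_add_left ?_
  rw [sq, ← mul_assoc]
  have hg : ∀ p ∈ S, 0 < Int.gcd p.1 p.2 := fun p hp => by
    rw [Int.gcd_pos_iff]
    by_contra hc
    push Not at hc
    have := hS p hp
    rw [hc.1, hc.2] at this; omega
  have hgK : ∀ p ∈ S, ((Int.gcd p.1 p.2 : ℕ) : ℤ) ^ 2 ∣ K := fun p hp => by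
    rw [← hS p hp]
    exact (pow_dvd_pow_of_dvd (Int.gcd_dvd_right _ _) 2).add
      ((pow_dvd_pow_of_dvd (Int.gcd_dvd_left _ _) 2).mul_left _)
  refine card_le_mul_card_image_of_maps_to (f := fun p => Int.gcd p.1 p.2)
    (fun p hp => Nat.mem_divisors.2 ⟨?_, by omega⟩) _ fun g _ => ?_
  · exact Int.natCast_dvd.1 ((Dvd.intro_left _ (sq _).symm).trans (hgK p hp))
  set F := S.filter (fun p => Int.gcd p.1 p.2 = g) with hF
  rcases F.eq_empty_or_nonempty with h | ⟨p1, hp1⟩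
  · simp [h]
  obtain ⟨h1, h2⟩ := mem_filter.1 hp1
  obtain ⟨K', hK'⟩ := hgK p1 h1
  have g0 := hg p1 h1
  rw [h2] at hK' g0
  have g1 : (g : ℤ) ≠ 0 := by exact_mod_cast g0.ne'
  have hK0 : 0 < K' := by
    rw [hK'] at hK; exact (pos_iff_pos_of_mul_pos hK).1 (by positivity)
  have hp : ∀ p ∈ F, p.1 = g * (p.1 / g) ∧ p.2 = g * (p.2 / g) := fun p hp => by
    rw [← (mem_filter.1 hp).2]
    exact ⟨(Int.mul_ediv_cancel' (Int.gcd_dvd_left _ _)).symm,
      (Int.mul_ediv_cancel' (Int.gcd_dvd_right _ _)).symm⟩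
  rw [← card_image_of_injOn (f := fun p : ℤ × ℤ => (p.1 / g, p.2 / g)) (fun p h q h' e => by
    simp only [Prod.mk.injEq] at e
    ext
    · rw [(hp p h).1, (hp q h').1, e.1]
    · rw [(hp p h).2, (hp q h').2, e.2])]
  refine (prim_count hD hK0 _ fun q hq => ?_).trans (Nat.mul_le_mul_left _ (card_le_card ?_))
  · obtain ⟨p, h, rfl⟩ := mem_image.1 hq
    obtain ⟨h3, h4⟩ := mem_filter.1 h
    constructor
    · refine mul_left_cancel₀ (pow_ne_zero 2 g1) ?_
      rw [← hK', ← hS p h3]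
      conv_rhs => rw [(hp p h).1, (hp p h).2]
      ring
    · rw [Int.isCoprime_iff_gcd_eq_one, ← h4]
      exact Int.gcd_div_gcd_div_gcd (hg p h3)
  · exact Nat.divisors_subset_of_dvd (by omega) (Int.natAbs_dvd_natAbs.2 ⟨(g : ℤ) ^ 2, by rw [hK', mul_comm]⟩)

end Num1

theorem div_stmt : DivStmt := by
  intro ε hε
  obtain ⟨k, hk⟩ := exists_nat_one_div_lt hε
  refine ⟨(((k + 1) ^ (k + 1)) ^ 2 ^ (k + 1) : ℕ), fun n hn => ?_⟩
  have h1 : ((n.divisors.card : ℝ)) ^ (k + 1) ≤ (((k + 1) ^ (k + 1)) ^ 2 ^ (k + 1) : ℕ) * n := by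
    exact_mod_cast Num1.tau_pow (k := k + 1) (by omega) n
  set C : ℕ := ((k + 1) ^ (k + 1)) ^ 2 ^ (k + 1) with hC
  have hC1 : (1 : ℝ) ≤ C := by exact_mod_cast Nat.one_le_iff_ne_zero.2 (by positivity)
  have hn1 : (1 : ℝ) ≤ n := by exact_mod_cast Nat.one_le_iff_ne_zero.2 hn
  refine le_of_pow_le_pow_left₀ (by omega : k + 1 ≠ 0) (by positivity) (h1.trans ?_)
  rw [mul_pow]
  refine mul_le_mul (le_self_pow₀ hC1 (by omega)) ?_ (by positivity) (by positivity)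
  rw [← Real.rpow_natCast, ← Real.rpow_mul (by positivity)]
  conv_lhs => rw [← Real.rpow_one (n : ℝ)]
  refine Real.rpow_le_rpow_of_exponent_le hn1 ?_
  rw [div_lt_iff₀ (by positivity)] at hk
  push_cast; linarith

theorem conic_stmt : ConicStmt := by
  intro a b c ha hb C0 ε hε
  obtain ⟨C, hC⟩ := div_stmt (ε / 4) (by positivity)
  obtain ⟨D, hD⟩ : ∃ D : ℤ, D = 4 * a * c - b ^ 2 := ⟨_, rfl⟩
  have hD0 : 0 < D := by omega
  obtain ⟨M, hM⟩ : ∃ M : ℤ, M = D * ((2 * a + |b| + 1) * C0) ^ 2 +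
    ((D + 2 * a + |b|) * C0) ^ 2 := ⟨_, rfl⟩
  have hM0 : 0 ≤ M := by rw [hM]; positivity
  refine ⟨1 + (2 * (8 * D.toNat + 1) : ℕ) * (C * (M : ℝ) ^ (ε / 4)) ^ 2, fun N hN d e k hd he => ?_⟩
  set S := ((range (C0 * N)) ×ˢ (range (C0 * N))).filter fun z : ℕ × ℕ =>
    a * z.1 ^ 2 + b * z.1 * z.2 + c * z.2 ^ 2 + d * z.1 + e * z.2 = k with hS
  have hN1 : (1 : ℝ) ≤ (N : ℝ) ^ ε := Real.one_le_rpow (by exact_mod_cast hN) hε.le
  rcases S.eq_empty_or_nonempty with h | ⟨z0, hz0⟩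
  · rw [h]; simp only [card_empty, Nat.cast_zero]; positivity
  obtain ⟨K, hK⟩ : ∃ K : ℤ, K = 4 * a * D * k + D * d ^ 2 + (2 * a * e - b * d) ^ 2 := ⟨_, rfl⟩
  have hsol : ∀ z ∈ S, (D * z.2 + (2 * a * e - b * d)) ^ 2 + D * (2 * a * z.1 + b * z.2 + d) ^ 2 = K := by
    intro z hz
    rw [hK, ← (mem_filter.1 hz).2, hD]; ring
  have h1 : S.card ≤ 1 + (2 * (8 * D.toNat + 1)) * K.natAbs.divisors.card ^ 2 := by
    rw [← card_image_of_injOn (f := fun z : ℕ × ℕ =>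
      ((2 * a * z.1 + b * z.2 + d, D * z.2 + (2 * a * e - b * d)) : ℤ × ℤ)) (fun p _ q _ e => by
        simp only [Prod.mk.injEq, add_left_inj] at e
        have h2 : (p.2 : ℤ) = q.2 := mul_left_cancel₀ hD0.ne' e.2
        have h3 : (p.1 : ℤ) = q.1 := mul_left_cancel₀ (by omega : 2 * a ≠ 0) (by
          have := e.1; rw [h2] at this; linarith)
        ext <;> omega)]
    refine Num1.rep_count hD0 _ fun p hp => ?_
    obtain ⟨z, hz, rfl⟩ := mem_image.1 hp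
    exact hsol z hz
  have h2 : (K.natAbs : ℤ) ≤ M * N ^ 2 := by
    have h3 := hsol z0 hz0
    obtain ⟨h4, h5⟩ := mem_product.1 (mem_filter.1 hz0).1
    have h6 : (z0.1 : ℤ) ≤ C0 * N := by exact_mod_cast (mem_range.1 h4).le
    have h7 : (z0.2 : ℤ) ≤ C0 * N := by exact_mod_cast (mem_range.1 h5).le
    have hK0 : 0 ≤ K := by rw [← h3]; positivity
    rw [Int.natAbs_of_nonneg hK0, ← h3, hM]
    have u1 : |2 * a * z0.1 + b * z0.2 + d| ≤ (2 * a + |b| + 1) * C0 * N := by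
      calc _ ≤ |2 * a * z0.1| + |b * z0.2| + |d| := abs_add_three _ _ _
        _ = 2 * a * z0.1 + |b| * z0.2 + |d| := by
            rw [abs_of_nonneg (by positivity), abs_mul, Nat.abs_cast]
        _ ≤ 2 * a * (C0 * N) + |b| * (C0 * N) + C0 * N := by gcongr
        _ = _ := by ring
    have u2 : |D * z0.2 + (2 * a * e - b * d)| ≤ (D + 2 * a + |b|) * C0 * N := by
      calc _ ≤ |D * z0.2| + (|2 * a * e| + |b * d|) :=
            (abs_add_le _ _).trans (by gcongr; exact abs_sub _ _)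
        _ = D * z0.2 + (2 * a * |e| + |b| * |d|) := by
            rw [abs_of_nonneg (by positivity), abs_mul, abs_mul b, abs_of_nonneg (by positivity)]
        _ ≤ D * (C0 * N) + (2 * a * (C0 * N) + |b| * (C0 * N)) := by gcongr
        _ = _ := by ring
    have v1 := pow_le_pow_left₀ (abs_nonneg _) u1 2
    have v2 := pow_le_pow_left₀ (abs_nonneg _) u2 2
    rw [sq_abs] at v1 v2
    nlinarith [mul_le_mul_of_nonneg_left v1 hD0.le]
  have hC0 : 0 ≤ C := by simpa using le_trans (by simp) (hC 1 one_ne_zero)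
  have h3 : (K.natAbs.divisors.card : ℝ) ≤ C * (M : ℝ) ^ (ε / 4) * (N : ℝ) ^ (ε / 2) := by
    have hM' : (0 : ℝ) ≤ M := by exact_mod_cast hM0
    rcases eq_or_ne K.natAbs 0 with h | h
    · rw [h]; simp only [Nat.divisors_zero, card_empty, Nat.cast_zero]; positivity
    · refine (hC _ h).trans ?_
      have h4 : (K.natAbs : ℝ) ≤ M * N ^ 2 := by
        have h5 : (((K.natAbs : ℕ) : ℤ) : ℝ) ≤ ((M * N ^ 2 : ℤ) : ℝ) := Int.cast_le.2 h2
        rw [Int.cast_natCast] at h5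
        simpa using h5
      rw [mul_assoc]
      refine mul_le_mul_of_nonneg_left ((Real.rpow_le_rpow (by positivity) h4 (by positivity)).trans
        (le_of_eq ?_)) hC0
      rw [Real.mul_rpow hM' (by positivity), ← Real.rpow_natCast, ← Real.rpow_mul (by positivity)]
      congr 2; push_cast; ring
  have h4 : (S.card : ℝ) ≤ 1 + (2 * (8 * D.toNat + 1) : ℕ) * (K.natAbs.divisors.card : ℝ) ^ 2 := by
    exact_mod_cast h1
  have h5 : ((N : ℝ) ^ (ε / 2)) ^ 2 = (N : ℝ) ^ ε := by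
    rw [← Real.rpow_natCast, ← Real.rpow_mul (by positivity)]; congr 1; push_cast; ring
  calc (S.card : ℝ) ≤ (N : ℝ) ^ ε + (2 * (8 * D.toNat + 1) : ℕ) *
        (C * (M : ℝ) ^ (ε / 4) * (N : ℝ) ^ (ε / 2)) ^ 2 := by
        refine h4.trans ?_; gcongr
    _ = _ := by rw [mul_pow, h5]; ring

end Pool.Agent.MP_ba99b7_an

end MrgPart0

-- ======== part 1: formerly Pool.Agent.MP_ba99b7_an.Num2
section MrgPart1

/-! PROJECT STRI, module NUM2: divisor moments and Ramanujan sums. -/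

namespace Pool.Agent.MP_ba99b7_an

open Finset

namespace Num2

lemma tele (u : ℝ) (hu : 0 < u) (n : ℕ) :
    ∑ j ∈ range n, u / (1 + (u * ((j : ℝ) + 1)) ^ 2) ≤ 2 - 2 / (1 + u * n) := by
  induction n with
  | zero => simp
  | succ n ih =>
    rw [sum_range_succ]
    have hn : (0 : ℝ) ≤ n := Nat.cast_nonneg n
    have h1 : 0 < 1 + u * n := by positivity
    have h2 : 0 < 1 + u * ((n : ℝ) + 1) := by positivity
    have key : u / (1 + (u * ((n : ℝ) + 1)) ^ 2)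
        ≤ 2 / (1 + u * n) - 2 / (1 + u * ((n : ℝ) + 1)) := by
      rw [div_sub_div _ _ h1.ne' h2.ne', div_le_div_iff₀ (by positivity) (by positivity)]
      have e1 : 2 * (1 + u * ((n : ℝ) + 1)) - (1 + u * n) * 2 = 2 * u := by ring
      rw [e1]
      generalize hy : u * ((n : ℝ) + 1) = y at h2 ⊢
      have hx : u * n ≤ y := by rw [← hy]; nlinarith
      have h3 : (1 + u * n) * (1 + y) ≤ (1 + y) * (1 + y) :=
        mul_le_mul_of_nonneg_right (by linarith) h2.le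
      have h4 : (1 + y) * (1 + y) ≤ 2 * (1 + y ^ 2) := by nlinarith [sq_nonneg (1 - y)]
      have h5 := mul_le_mul_of_nonneg_left (h3.trans h4) hu.le
      linarith
    push_cast
    linarith

lemma half (w : ℝ) (hw : 0 < w) (m : ℕ) (hm : 0 < m) (n : ℕ) :
    ∑ j ∈ range n, w / (1 + (w * ((m : ℝ) * ((j : ℝ) + 1))) ^ 2) ≤ 2 / (m : ℝ) := by
  have hm' : (0 : ℝ) < m := Nat.cast_pos.2 hm
  have h := tele (w * m) (by positivity) n
  have h2 : (0 : ℝ) ≤ 2 / (1 + w * m * n) := by positivity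
  rw [le_div_iff₀ hm', sum_mul]
  refine le_trans (le_of_eq (sum_congr rfl fun j _ => ?_)) (h.trans (by linarith))
  rw [div_mul_eq_mul_div, mul_assoc w]

lemma multi (w : ℝ) (hw : 0 < w) (m : ℕ) (hm : 0 < m) (s : Finset ℤ) (h0 : (0 : ℤ) ∉ s) :
    ∑ k ∈ s.filter (fun k => (m : ℤ) ∣ k), w / (1 + (w * k) ^ 2) ≤ 4 / (m : ℝ) := by
  classical
  set N := s.sup Int.natAbs with hN
  set A := (range N).image (fun j : ℕ => (m : ℤ) * ((j : ℤ) + 1)) with hA
  set B := (range N).image (fun j : ℕ => -((m : ℤ) * ((j : ℤ) + 1))) with hB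
  have hm' : (0 : ℤ) < m := Nat.cast_pos.2 hm
  have hsub : s.filter (fun k => (m : ℤ) ∣ k) ⊆ A ∪ B := by
    intro k hk
    obtain ⟨hks, c, rfl⟩ := mem_filter.1 hk
    have hle : ((m : ℤ) * c).natAbs ≤ N := Finset.le_sup (f := Int.natAbs) hks
    have hc : c ≠ 0 := by
      rintro rfl
      exact h0 (by simpa using hks)
    rw [Int.natAbs_mul, Int.natAbs_natCast] at hle
    have hle' : c.natAbs ≤ N := le_trans (Nat.le_mul_of_pos_left _ hm) hle
    rcases lt_or_gt_of_ne hc with h | h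
    · refine mem_union_right _ (mem_image.2 ⟨c.natAbs - 1, mem_range.2 (by omega), ?_⟩)
      have : ((c.natAbs - 1 : ℕ) : ℤ) + 1 = -c := by omega
      rw [this]; ring
    · refine mem_union_left _ (mem_image.2 ⟨c.natAbs - 1, mem_range.2 (by omega), ?_⟩)
      have : ((c.natAbs - 1 : ℕ) : ℤ) + 1 = c := by omega
      rw [this]
  have hnn : ∀ k : ℤ, 0 ≤ w / (1 + (w * k) ^ 2) := fun k => by positivity
  have h1 : ∑ k ∈ A, w / (1 + (w * k) ^ 2) ≤ 2 / (m : ℝ) := by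
    rw [hA, sum_image]
    · simpa using half w hw m hm N
    · intro a _ b _ hab
      have := mul_left_cancel₀ hm'.ne' hab
      omega
  have h2 : ∑ k ∈ B, w / (1 + (w * k) ^ 2) ≤ 2 / (m : ℝ) := by
    rw [hB, sum_image]
    · simpa using half w hw m hm N
    · intro a _ b _ hab
      have := mul_left_cancel₀ hm'.ne' (neg_injective hab)
      omega
  have h3 := sum_union_inter (s₁ := A) (s₂ := B) (f := fun k : ℤ => w / (1 + (w * k) ^ 2))
  have h4 : 0 ≤ ∑ k ∈ A ∩ B, w / (1 + (w * k) ^ 2) := sum_nonneg fun k _ => hnn k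
  have h5 := sum_le_sum_of_subset_of_nonneg hsub (f := fun k : ℤ => w / (1 + (w * k) ^ 2))
    fun k _ _ => hnn k
  have h6 : (4 : ℝ) / m = 2 / m + 2 / m := by ring
  linarith

lemma dv_pow (B Q : ℕ) (k : ℤ) :
    (dv k Q : ℝ) ^ B = ∑ d ∈ Fintype.piFinset (fun _ : Fin B => Finset.Icc 1 Q),
      if ((univ.lcm d : ℕ) : ℤ) ∣ k then (1 : ℝ) else 0 := by
  classical
  rw [sum_boole]
  have h : (Fintype.piFinset (fun _ : Fin B => Finset.Icc 1 Q)).filter
      (fun d => ((univ.lcm d : ℕ) : ℤ) ∣ k)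
      = Fintype.piFinset (fun _ : Fin B => (Finset.Icc 1 Q).filter fun δ : ℕ => (δ : ℤ) ∣ k) := by
    ext d
    simp only [mem_filter, Fintype.mem_piFinset, Int.natCast_dvd, Finset.lcm_dvd_iff, mem_univ,
      forall_true_left]
    exact ⟨fun h i => ⟨h.1 i, h.2 i⟩, fun h => ⟨fun i => (h i).1, fun i => (h i).2⟩⟩
  rw [h, Fintype.card_piFinset]
  simp [dv]

lemma lcm_mem (B Q : ℕ) (d : Fin B → ℕ)
    (hd : d ∈ Fintype.piFinset (fun _ : Fin B => Finset.Icc 1 Q)) :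
    univ.lcm d ∈ Finset.Icc 1 (Q ^ B) := by
  rw [Fintype.mem_piFinset] at hd
  have h1 : univ.lcm d ∣ ∏ i, d i := Finset.lcm_dvd fun i hi => dvd_prod_of_mem d hi
  have h2 : 0 < ∏ i, d i := prod_pos fun i _ => (mem_Icc.1 (hd i)).1
  have h3 : ∏ i, d i ≤ Q ^ B := by
    simpa using prod_le_pow_card univ d Q fun i _ => (mem_Icc.1 (hd i)).2
  exact mem_Icc.2 ⟨Nat.pos_of_dvd_of_pos h1 h2, (Nat.le_of_dvd h2 h1).trans h3⟩

lemma tuples (B Q : ℕ) :
    ∑ d ∈ Fintype.piFinset (fun _ : Fin B => Finset.Icc 1 Q), (4 : ℝ) / (univ.lcm d : ℕ)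
      ≤ ∑ m ∈ Finset.Icc 1 (Q ^ B), (m.divisors.card : ℝ) ^ B * (4 / m) := by
  classical
  rw [← sum_fiberwise_of_maps_to (lcm_mem B Q)]
  refine sum_le_sum fun m hm => ?_
  have hm0 : m ≠ 0 := by have := (mem_Icc.1 hm).1; omega
  have e : ∑ d ∈ (Fintype.piFinset (fun _ : Fin B => Finset.Icc 1 Q)).filter
      (fun d => univ.lcm d = m), (4 : ℝ) / (univ.lcm d : ℕ)
      = ((Fintype.piFinset (fun _ : Fin B => Finset.Icc 1 Q)).filter
        (fun d => univ.lcm d = m)).card * (4 / m) := by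
    rw [sum_congr rfl (g := fun _ => (4 : ℝ) / m) fun d hd => by rw [(mem_filter.1 hd).2]]
    simp
  rw [e]
  refine mul_le_mul_of_nonneg_right ?_ (by positivity)
  have hsub : (Fintype.piFinset (fun _ : Fin B => Finset.Icc 1 Q)).filter
      (fun d => univ.lcm d = m) ⊆ Fintype.piFinset (fun _ : Fin B => m.divisors) := by
    intro d hd
    rw [Fintype.mem_piFinset]
    intro i
    refine Nat.mem_divisors.2 ⟨?_, hm0⟩
    rw [← (mem_filter.1 hd).2]
    exact Finset.dvd_lcm (mem_univ i)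
  have := card_le_card hsub
  rw [Fintype.card_piFinset] at this
  simp only [prod_const, card_univ, Fintype.card_fin] at this
  exact_mod_cast this

lemma geom (n : ℕ) (hn : 0 < n) (k : ℤ) :
    ‖∑ b ∈ range n, ee (k * (b / n : ℝ))‖ ≤ if (n : ℤ) ∣ k then (n : ℝ) else 0 := by
  have hn' : (n : ℂ) ≠ 0 := Nat.cast_ne_zero.2 hn.ne'
  split_ifs with h
  · refine (norm_sum_le _ _).trans ?_
    have : ∀ b ∈ range n, ‖ee (k * (b / n : ℝ))‖ = 1 := fun b _ => by
      unfold ee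
      have : (2 * Real.pi * ((k * (b / n : ℝ) : ℝ) : ℂ) * Complex.I)
          = ((2 * Real.pi * (k * (b / n : ℝ)) : ℝ) : ℂ) * Complex.I := by push_cast; ring
      rw [this, Complex.norm_exp_ofReal_mul_I]
    rw [sum_congr rfl this]
    simp
  · set z : ℂ := Complex.exp (2 * Real.pi * Complex.I * (k / n)) with hz
    have e : ∀ b ∈ range n, ee (k * (b / n : ℝ)) = z ^ b := fun b _ => by
      unfold ee
      rw [hz, ← Complex.exp_nat_mul]
      congr 1
      push_cast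
      ring
    have hz1 : z ≠ 1 := by
      intro h1
      obtain ⟨c, hc⟩ := Complex.exp_eq_one_iff.1 h1
      apply h
      refine ⟨c, ?_⟩
      have h2 : (2 * Real.pi * Complex.I : ℂ) ≠ 0 := Complex.two_pi_I_ne_zero
      have h3 : (k : ℂ) / n = c := mul_left_cancel₀ h2 (by rw [hc]; ring)
      rw [div_eq_iff hn'] at h3
      have : ((k : ℤ) : ℂ) = (((n : ℤ) * c : ℤ) : ℂ) := by rw [h3]; push_cast; ring
      exact_mod_cast this
    have hzn : z ^ n = 1 := by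
      rw [hz, ← Complex.exp_nat_mul]
      have : (n : ℂ) * (2 * Real.pi * Complex.I * (k / n)) = k * (2 * Real.pi * Complex.I) := by
        field_simp
      rw [this, Complex.exp_int_mul_two_pi_mul_I]
    rw [sum_congr rfl e, geom_sum_eq hz1, hzn]
    simp

lemma ram_one (q : ℕ) (hq : 0 < q) (k : ℤ) :
    ‖∑ a ∈ (range q).filter (fun a => Nat.Coprime a q), ee (k * (a / q : ℝ))‖
      ≤ ∑ δ ∈ q.divisors, if (δ : ℤ) ∣ k then (δ : ℝ) else 0 := by
  classical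
  have h1 : ∀ a : ℕ, (if Nat.Coprime a q then (1 : ℂ) else 0)
      = ∑ t ∈ q.divisors, if t ∣ a then ((ArithmeticFunction.moebius t : ℤ) : ℂ) else 0 := by
    intro a
    have hg : Nat.gcd a q ≠ 0 := (Nat.gcd_pos_of_pos_right a hq).ne'
    have e : q.divisors.filter (fun t => t ∣ a) = (Nat.gcd a q).divisors := by
      ext t
      simp only [mem_filter, Nat.mem_divisors, Nat.dvd_gcd_iff]
      exact ⟨fun h => ⟨⟨h.2, h.1.1⟩, hg⟩, fun h => ⟨⟨h.1.2, hq.ne'⟩, h.1.1⟩⟩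
    rw [← sum_filter, e]
    have h2 := congrArg (fun f : ArithmeticFunction ℤ => f (Nat.gcd a q))
      ArithmeticFunction.moebius_mul_coe_zeta
    simp only [ArithmeticFunction.coe_mul_zeta_apply, ArithmeticFunction.one_apply] at h2
    rw [← Int.cast_sum, h2]
    by_cases h : Nat.gcd a q = 1
    · simp [h, Nat.Coprime]
    · simp [h, Nat.Coprime]
  have h2 : ∑ a ∈ (range q).filter (fun a => Nat.Coprime a q), ee (k * (a / q : ℝ))
      = ∑ t ∈ q.divisors, ((ArithmeticFunction.moebius t : ℤ) : ℂ)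
        * ∑ b ∈ range (q / t), ee (k * (b / (q / t : ℕ) : ℝ)) := by
    rw [sum_filter]
    have e1 : ∀ a ∈ range q, (if Nat.Coprime a q then ee (k * (a / q : ℝ)) else 0)
        = ∑ t ∈ q.divisors, if t ∣ a then ((ArithmeticFunction.moebius t : ℤ) : ℂ)
          * ee (k * (a / q : ℝ)) else 0 := fun a _ => by
      have := congrArg (· * ee (k * (a / q : ℝ))) (h1 a)
      simpa only [sum_mul, ite_mul, one_mul, zero_mul] using this
    rw [sum_congr rfl e1, sum_comm]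
    refine sum_congr rfl fun t ht => ?_
    obtain ⟨n, rfl⟩ := Nat.dvd_of_mem_divisors ht
    have ht0 : 0 < t := Nat.pos_of_mul_pos_right hq |> fun h => by
      rcases Nat.eq_zero_or_pos t with h' | h'
      · simp [h'] at hq
      · exact h'
    rw [← sum_filter, Nat.mul_div_cancel_left _ ht0, mul_sum]
    have e2 : (range (t * n)).filter (fun a => t ∣ a) = (range n).image (fun b => t * b) := by
      ext a
      simp only [mem_filter, mem_range, mem_image]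
      constructor
      · rintro ⟨h, b, rfl⟩
        exact ⟨b, Nat.lt_of_mul_lt_mul_left h, rfl⟩
      · rintro ⟨b, hb, rfl⟩
        exact ⟨Nat.mul_lt_mul_of_pos_left hb ht0, dvd_mul_right _ _⟩
    rw [e2, sum_image fun a _ b _ hab => Nat.eq_of_mul_eq_mul_left ht0 hab]
    refine sum_congr rfl fun b _ => ?_
    have ht1 : (t : ℝ) ≠ 0 := Nat.cast_ne_zero.2 ht0.ne'
    push_cast
    rw [mul_div_mul_left _ _ ht1]
  rw [h2, ← Nat.sum_div_divisors q fun δ => if (δ : ℤ) ∣ k then (δ : ℝ) else 0]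
  refine (norm_sum_le _ _).trans (sum_le_sum fun t ht => ?_)
  have hpos : 0 < q / t :=
    Nat.div_pos (Nat.divisor_le ht) (Nat.pos_of_mem_divisors ht)
  rw [norm_mul]
  have h3 : ‖((ArithmeticFunction.moebius t : ℤ) : ℂ)‖ ≤ 1 := by
    rw [Complex.norm_intCast]
    exact_mod_cast ArithmeticFunction.abs_moebius_le_one
  exact (mul_le_of_le_one_left (norm_nonneg _) h3).trans (geom _ hpos k)

end Num2

open Num2

theorem mom_of (h : DivStmt) : MomStmt := by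
  classical
  intro B τ hτ
  set ε : ℝ := τ / (2 * ((B : ℝ) + 1) ^ 2) with hε
  have hB : (0 : ℝ) ≤ B := Nat.cast_nonneg B
  have hε0 : 0 < ε := by positivity
  obtain ⟨C, hC⟩ := h ε hε0
  have hC0 : 0 ≤ C := by
    have := hC 1 one_ne_zero
    simp at this
    linarith
  set η : ℝ := ε * (B + 1) with hη
  have hη0 : 0 < η := by positivity
  have hs : Summable fun m : ℕ => ((m : ℝ) ^ (1 + η))⁻¹ :=
    Real.summable_nat_rpow_inv.2 (by linarith)
  refine ⟨4 * C ^ B * ∑' m : ℕ, ((m : ℝ) ^ (1 + η))⁻¹, fun Q hQ w hw s h0 => ?_⟩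
  have hQ' : (1 : ℝ) ≤ Q := by exact_mod_cast hQ
  have e1 : ∑ k ∈ s, w / (1 + (w * k) ^ 2) * (dv k Q : ℝ) ^ B
      = ∑ d ∈ Fintype.piFinset (fun _ : Fin B => Finset.Icc 1 Q),
        ∑ k ∈ s.filter (fun k => ((univ.lcm d : ℕ) : ℤ) ∣ k), w / (1 + (w * k) ^ 2) := by
    simp only [dv_pow, mul_sum, sum_filter]
    rw [sum_comm]
    refine sum_congr rfl fun d _ => sum_congr rfl fun k _ => ?_
    split_ifs <;> simp
  rw [e1]
  refine (sum_le_sum fun d hd => multi w hw _ (mem_Icc.1 (lcm_mem B Q d hd)).1 s h0).trans ?_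
  refine (tuples B Q).trans ?_
  have e2 : ∀ m ∈ Finset.Icc 1 (Q ^ B), (m.divisors.card : ℝ) ^ B * (4 / m)
      ≤ 4 * C ^ B * (Q : ℝ) ^ τ * ((m : ℝ) ^ (1 + η))⁻¹ := by
    intro m hm
    obtain ⟨hm1, hm2⟩ := mem_Icc.1 hm
    have hm1' : (1 : ℝ) ≤ m := by exact_mod_cast hm1
    have hm0 : (0 : ℝ) < m := by linarith
    have a1 : (m.divisors.card : ℝ) ^ B ≤ C ^ B * (m : ℝ) ^ η := by
      refine (pow_le_pow_left₀ (Nat.cast_nonneg _) (hC m (by omega)) B).trans ?_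
      rw [mul_pow, ← Real.rpow_natCast ((m : ℝ) ^ ε), ← Real.rpow_mul hm0.le]
      refine mul_le_mul_of_nonneg_left (Real.rpow_le_rpow_of_exponent_le hm1' ?_) (by positivity)
      rw [hη]; nlinarith
    have a2 : (m : ℝ) ^ (2 * η) ≤ (Q : ℝ) ^ τ := by
      have : (m : ℝ) ≤ (Q : ℝ) ^ (B : ℝ) := by rw [Real.rpow_natCast]; exact_mod_cast hm2
      refine (Real.rpow_le_rpow hm0.le this (by positivity)).trans ?_
      rw [← Real.rpow_mul (by linarith)]
      refine Real.rpow_le_rpow_of_exponent_le hQ' ?_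
      have : B * (2 * η) = τ * (B / (B + 1)) := by rw [hη, hε]; field_simp
      rw [this]
      exact mul_le_of_le_one_right hτ.le ((div_le_one (by positivity)).2 (by linarith))
    have a3 : (m : ℝ) ^ η * (4 / m) = 4 * (m : ℝ) ^ (2 * η) * ((m : ℝ) ^ (1 + η))⁻¹ := by
      have hp : 0 < (m : ℝ) ^ η := Real.rpow_pos_of_pos hm0 η
      rw [two_mul, Real.rpow_add hm0, Real.rpow_add hm0, Real.rpow_one]
      field_simp
    calc (m.divisors.card : ℝ) ^ B * (4 / m) ≤ C ^ B * (m : ℝ) ^ η * (4 / m) :=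
          mul_le_mul_of_nonneg_right a1 (by positivity)
      _ = 4 * C ^ B * (m : ℝ) ^ (2 * η) * ((m : ℝ) ^ (1 + η))⁻¹ := by rw [mul_assoc, a3]; ring
      _ ≤ _ := by gcongr
  refine (sum_le_sum e2).trans ?_
  rw [← mul_sum]
  have e3 := hs.sum_le_tsum (Finset.Icc 1 (Q ^ B)) fun m _ => by positivity
  calc _ ≤ 4 * C ^ B * (Q : ℝ) ^ τ * ∑' m : ℕ, ((m : ℝ) ^ (1 + η))⁻¹ := by gcongr
    _ = _ := by ring

theorem ram_stmt : RamStmt := by
  classical
  intro Q k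
  refine (norm_sum_le _ _).trans ?_
  rcases Nat.eq_zero_or_pos Q with rfl | hQ
  · simp
  have e1 : ∀ q ∈ Finset.Ico Q (2 * Q),
      ‖∑ a ∈ (range q).filter (fun a => Nat.Coprime a q), ee (k * (a / q : ℝ))‖
      ≤ ∑ δ ∈ (Finset.Icc 1 (2 * Q)).filter (fun δ : ℕ => (δ : ℤ) ∣ k),
        if δ ∣ q then (δ : ℝ) else 0 := by
    intro q hq
    obtain ⟨h1, h2⟩ := mem_Ico.1 hq
    refine (ram_one q (by omega) k).trans ?_
    rw [← sum_filter, ← sum_filter]
    refine sum_le_sum_of_subset_of_nonneg (fun δ hδ => ?_) fun _ _ _ => Nat.cast_nonneg _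
    obtain ⟨h3, h4⟩ := mem_filter.1 hδ
    have h5 := Nat.divisor_le h3
    exact mem_filter.2 ⟨mem_filter.2 ⟨mem_Icc.2 ⟨Nat.pos_of_mem_divisors h3, by omega⟩, h4⟩,
      Nat.dvd_of_mem_divisors h3⟩
  refine (sum_le_sum e1).trans ?_
  rw [sum_comm]
  have e2 : ∀ δ ∈ (Finset.Icc 1 (2 * Q)).filter (fun δ : ℕ => (δ : ℤ) ∣ k),
      ∑ q ∈ Finset.Ico Q (2 * Q), (if δ ∣ q then (δ : ℝ) else 0) ≤ 2 * Q := by
    intro δ _
    rw [← sum_filter, sum_const, nsmul_eq_mul]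
    have h1 : ((Finset.Ico Q (2 * Q)).filter fun q => δ ∣ q).card ≤ 2 * Q / δ := by
      rw [← Nat.Ioc_filter_dvd_card_eq_div]
      refine card_le_card (filter_subset_filter _ fun q hq => ?_)
      obtain ⟨h1, h2⟩ := mem_Ico.1 hq
      exact mem_Ioc.2 ⟨by omega, by omega⟩
    have h2 : ((Finset.Ico Q (2 * Q)).filter fun q => δ ∣ q).card * δ ≤ 2 * Q :=
      (Nat.mul_le_mul_right δ h1).trans (Nat.div_mul_le_self _ _)
    exact_mod_cast h2
  refine (sum_le_sum e2).trans (le_of_eq ?_)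
  rw [sum_const, nsmul_eq_mul, dv, mul_comm]

end Pool.Agent.MP_ba99b7_an

end MrgPart1

-- ======== part 2: formerly Pool.Agent.MP_ba99b7_an.Arc
section MrgPart2

/-! PROJECT STRI, module ARC: the decomposition of the circle into major and minor arc pieces. -/

namespace Pool.Agent.MP_ba99b7_an

open Finset

noncomputable section

namespace Arc

/-- normalised minor arc coefficients -/
def cz (s κ : ℕ) (k : ℤ) : ℂ := (r0 s κ 0)⁻¹ * r0 s κ k

/-- the main part of a major arc piece -/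
def cg (e : ℝ) (s κ i l : ℕ) (k : ℤ) : ℂ := ec κ i l k - cb e κ i l k - ec κ i l 0 * cz s κ k

lemma sq_rpow {N : ℝ} (hN : 0 ≤ N) (r : ℕ) : (N ^ 2) ^ ((r : ℝ) / 2) = N ^ r := by
  rw [← Real.rpow_natCast N 2, ← Real.rpow_mul hN, ← Real.rpow_natCast]
  congr 1; push_cast; ring

lemma inv_le (h : RamStmt) {s : ℕ} (hs : 16 * Cb ≤ 2 ^ s) (κ : ℕ) : ‖(r0 s κ 0)⁻¹‖ ≤ 2 := by
  rw [norm_inv]
  simpa using inv_anti₀ (by norm_num) (r0_zero h hs κ)

lemma cz_zero (h : RamStmt) {s : ℕ} (hs : 16 * Cb ≤ 2 ^ s) (κ : ℕ) : cz s κ 0 = 1 :=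
  inv_mul_cancel₀ (norm_pos_iff.1 (lt_of_lt_of_le (by norm_num) (r0_zero h hs κ)))

lemma sum_all (h : RamStmt) {s : ℕ} (hs : 16 * Cb ≤ 2 ^ s) (e : ℝ) (κ : ℕ) (k : ℤ) :
    ∑ p ∈ Ix s κ, cg e s κ p.1 p.2 k + ∑ p ∈ Ix s κ, cb e κ p.1 p.2 k + cz s κ k
      = if k = 0 then 1 else 0 := by
  have a := sum_ec s κ k
  have b := sum_ec s κ 0
  have c : r0 s κ 0 * cz s κ k = r0 s κ k := mul_inv_cancel_left₀
    (norm_pos_iff.1 (lt_of_lt_of_le (by norm_num) (r0_zero h hs κ))) _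
  rw [if_pos rfl] at b
  simp only [cg, sum_sub_distrib, ← sum_mul]
  linear_combination a - cz s κ k * b + c

variable {C1 : ℕ} {C e : ℝ} {s : ℕ}

lemma minor (h : RamStmt) (hC : 0 ≤ C) (hW : WwB C1 C) (hs : 2 ≤ s) (hs' : 16 * Cb ≤ 2 ^ s)
    (he : 0 < e) (r : ℕ) : ∃ K : ℝ, 0 ≤ K ∧ ∀ (κ : ℕ) (x : ℝ),
    ‖fs (cz s κ) x‖ * ww C1 (2 ^ κ) x ^ ((r : ℝ) / 2) ≤ K * ((2 : ℝ) ^ κ) ^ ((1 + e) * (r / 2)) := by
  refine ⟨4 * (C * (2 ^ s + (2 * C1 + 3)) * (1 + e⁻¹)) ^ ((r : ℝ) / 2), by positivity,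
    fun κ x => ?_⟩
  have hN : (1 : ℝ) ≤ 2 ^ κ := one_le_pow₀ one_le_two
  have a : fs (cz s κ) x = (r0 s κ 0)⁻¹ * rho0 s κ x := ((rep_r0 hs κ).const_mul _).2 x
  rw [a]
  by_cases hx : rho0 s κ x = 0
  · rw [hx]; simp only [Complex.ofReal_zero, mul_zero, norm_zero, zero_mul]; positivity
  have b : ww C1 (2 ^ κ) x ≤ C * (2 ^ s + (2 * C1 + 3)) * (1 + e⁻¹) * (2 ^ κ) ^ (1 + e) := by
    refine (rho_ww hC hW hs hx).trans ?_
    rw [Real.rpow_add (by positivity), Real.rpow_one]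
    calc _ ≤ C * (2 ^ s + (2 * C1 + 3)) * (2 ^ κ * ((1 + e⁻¹) * (2 ^ κ) ^ e)) := by
          gcongr; exact one_add_log_le he hN
      _ = _ := by ring
  have c := Real.rpow_le_rpow (ww_nonneg _ _ _) b (show 0 ≤ (r : ℝ) / 2 by positivity)
  rw [Real.mul_rpow (by positivity) (by positivity), ← Real.rpow_mul (by positivity)] at c
  rw [mul_assoc 4]
  refine mul_le_mul ?_ c (Real.rpow_nonneg (ww_nonneg _ _ _) _) (by norm_num)
  rw [norm_mul, Complex.norm_real, Real.norm_eq_abs]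
  exact (mul_le_mul (inv_le h hs' κ) (abs_rho_le hs x) (abs_nonneg _) zero_le_two).trans
    (by norm_num)

lemma major (hC : 0 ≤ C) (hW : WwB C1 C) (hs : 2 ≤ s) (hs' : 4 * (2 * C1 + 2 : ℝ) ≤ 2 ^ s)
    (he : 0 < e) (r : ℕ) : ∃ K : ℝ, 0 ≤ K ∧ ∀ κ i l : ℕ, i + l + s ≤ κ → ∀ x : ℝ,
    |eta κ i l x| * ww C1 (2 ^ κ) x ^ ((r : ℝ) / 2)
      ≤ K * ((2 : ℝ) ^ (i + l)) ^ ((-1 + e) * (r / 2)) * ((2 : ℝ) ^ κ) ^ r := by
  refine ⟨(4 * C * (1 + e⁻¹)) ^ ((r : ℝ) / 2), by positivity, fun κ i l h x => ?_⟩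
  have hP : (1 : ℝ) ≤ 2 ^ (i + l) := one_le_pow₀ one_le_two
  by_cases hx : eta κ i l x = 0
  · rw [hx, abs_zero, zero_mul]; positivity
  have b : ww C1 (2 ^ κ) x ≤ 4 * C * (1 + e⁻¹) * (2 ^ (i + l)) ^ (-1 + e) * (2 ^ κ) ^ 2 := by
    refine (eta_ww hC hW hs' h hx).trans ?_
    rw [Real.rpow_add (by positivity), Real.rpow_neg_one]
    calc _ ≤ 4 * C * ((2 ^ κ) ^ 2 / 2 ^ (i + l) * ((1 + e⁻¹) * (2 ^ (i + l)) ^ e)) := by
          gcongr; exact one_add_log_le he hP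
      _ = _ := by ring
  have c := Real.rpow_le_rpow (ww_nonneg _ _ _) b (show 0 ≤ (r : ℝ) / 2 by positivity)
  rw [Real.mul_rpow (by positivity) (by positivity), Real.mul_rpow (by positivity) (by positivity),
    ← Real.rpow_mul (by positivity), sq_rpow (by positivity)] at c
  exact (mul_le_of_le_one_left (Real.rpow_nonneg (ww_nonneg _ _ _) _) (abs_eta_le hs h x)).trans c

lemma sum_cb (hs : 2 ≤ s) {κ i l : ℕ} (h : i + l + s ≤ κ) : Summable fun k => ‖cb e κ i l k‖ :=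
  Summable.of_nonneg_of_le (fun _ => norm_nonneg _) (norm_cb_le e κ i l) (rep_ec hs h).1

lemma bad (h1 : MomStmt) (h : RamStmt) (C1 : ℕ) (hs : 2 ≤ s) (he : 0 < e) (r : ℕ) :
    ∃ K : ℝ, 0 ≤ K ∧ ∀ κ i l : ℕ, i + l + s ≤ κ → ∀ x : ℝ,
    ‖fs (cb e κ i l) x‖ * ww C1 (2 ^ κ) x ^ ((r : ℝ) / 2)
      ≤ K * ((2 : ℝ) ^ (i + l)) ^ (-(r : ℝ)) * ((2 : ℝ) ^ κ) ^ r := by
  obtain ⟨K, hK, H⟩ := cb_sum h1 h he r
  refine ⟨K * (2 * C1 + 1) ^ ((r : ℝ) / 2), by positivity, fun κ i l hi x => ?_⟩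
  have c := Real.rpow_le_rpow (ww_nonneg _ _ _) (ww_le C1 (N := 2 ^ κ) Nat.one_le_two_pow x)
    (show 0 ≤ (r : ℝ) / 2 by positivity)
  rw [Real.mul_rpow (by positivity) (by positivity), sq_rpow (by positivity)] at c
  push_cast at c
  refine (mul_le_mul ((norm_fs_le (sum_cb hs hi) x).trans (H κ i l)) c
    (Real.rpow_nonneg (ww_nonneg _ _ _) _) (by positivity)).trans (le_of_eq ?_)
  ring

lemma ec_le (h : RamStmt) (κ i l : ℕ) (k : ℤ) :
    ‖ec κ i l k‖ ≤ 6 * Cb * (2 ^ (i + l) * 2 ^ i) / (2 ^ κ) ^ 2 :=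
  (norm_ec' h κ i l k (dv_le k i)).trans (le_of_eq (by ring))

lemma core (h0 : DivStmt) (h1 : MomStmt) (h2 : RamStmt) (h3 : WwStmt) (r C1 : ℕ) (he : 0 < e)
    (he1 : e ≤ 1) : ∃ (K : ℝ) (s : ℕ), 0 < K ∧ 2 ≤ s ∧ 16 * Cb ≤ 2 ^ s ∧ ∀ κ : ℕ,
    (∀ x, ‖fs (cz s κ) x‖ * ww C1 (2 ^ κ) x ^ ((r : ℝ) / 2)
      ≤ K * ((2 : ℝ) ^ κ) ^ ((1 + e) * (r / 2))) ∧ 1 ≤ K ∧
    (∀ k, k ≠ 0 → ‖cz s κ k‖ ≤ K * ((2 : ℝ) ^ κ) ^ (-1 + e)) ∧
    ∀ i l : ℕ, i + l + s ≤ κ →
      (∀ x, ‖fs (cg e s κ i l) x‖ * ww C1 (2 ^ κ) x ^ ((r : ℝ) / 2)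
        ≤ K * ((2 : ℝ) ^ (i + l)) ^ ((-1 + e) * (r / 2)) * ((2 : ℝ) ^ κ) ^ r) ∧
      (∀ k, ‖cg e s κ i l k‖ ≤ K * ((2 : ℝ) ^ (i + l)) ^ (1 + e) / ((2 : ℝ) ^ κ) ^ 2) ∧
      (∀ x, ‖fs (cb e κ i l) x‖ * ww C1 (2 ^ κ) x ^ ((r : ℝ) / 2)
        ≤ K * ((2 : ℝ) ^ (i + l)) ^ (-(r : ℝ)) * ((2 : ℝ) ^ κ) ^ r) ∧
      (∀ k, ‖cb e κ i l k‖ ≤ K * ((2 : ℝ) ^ (i + l)) ^ (2 : ℝ) / ((2 : ℝ) ^ κ) ^ 2) := by
  obtain ⟨C, hC, hW⟩ := wwB_of h3 C1
  have c := Cb_pos
  obtain ⟨s, hs⟩ := pow_unbounded_of_one_lt (4 * (2 * C1 + 2 : ℝ) + 16 * Cb) one_lt_two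
  have c1 : (0 : ℝ) ≤ C1 := Nat.cast_nonneg _
  have s1 : 4 * (2 * C1 + 2 : ℝ) ≤ 2 ^ s := by linarith
  have s2 : 16 * Cb ≤ 2 ^ s := by linarith
  have s3 : 2 ≤ s := by
    by_contra hc
    have : (2 : ℝ) ^ s ≤ 2 ^ 2 := pow_le_pow_right₀ one_le_two (by omega)
    linarith
  obtain ⟨K1, k1, H1⟩ := minor h2 hC hW s3 s2 he r
  obtain ⟨K2, k2, H2⟩ := major hC hW s3 s1 he r
  obtain ⟨K3, k3, H3⟩ := bad h1 h2 C1 s3 he r
  obtain ⟨K4, k4, H4⟩ := r0_ne h0 h2 he
  have p1 := mul_nonneg c.le k1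
  have p4 := mul_nonneg c.le k4
  refine ⟨1 + K1 + 2 * K4 + K2 + K3 + 6 * (Cb * K1) + 6 * Cb + 12 * (Cb * K4), s, by positivity,
    s3, s2, fun κ => ?_⟩
  have hN : (1 : ℝ) ≤ 2 ^ κ := one_le_pow₀ one_le_two
  have Z : ∀ k, k ≠ 0 → ‖cz s κ k‖ ≤ 2 * K4 * ((2 : ℝ) ^ κ) ^ (-1 + e) := fun k hk => by
    rw [cz, norm_mul, mul_assoc]
    exact mul_le_mul (inv_le h2 s2 κ) (H4 s κ k hk) (norm_nonneg _) zero_le_two
  refine ⟨fun x => (H1 κ x).trans (by gcongr; linarith), by linarith,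
    fun k hk => (Z k hk).trans (by gcongr; linarith), fun i l h => ?_⟩
  have hP : (1 : ℝ) ≤ 2 ^ (i + l) := one_le_pow₀ one_le_two
  have hQ : (2 : ℝ) ^ i ≤ 2 ^ (i + l) := pow_le_pow_right₀ one_le_two (by omega)
  have hPN : (2 : ℝ) ^ (i + l) ≤ 2 ^ κ := pow_le_pow_right₀ one_le_two (by omega)
  have E : ∀ k, ‖ec κ i l k‖ ≤ 6 * Cb * (2 ^ (i + l) * 2 ^ (i + l)) / (2 ^ κ) ^ 2 := fun k =>
    (ec_le h2 κ i l k).trans (by gcongr)
  refine ⟨fun x => ?_, fun k => ?_, fun x => (H3 κ i l h x).trans (by gcongr; linarith),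
    fun k => (norm_cb_le _ _ _ _ _).trans ((E k).trans ?_)⟩
  · have a : fs (cg e s κ i l) x = eta κ i l x - fs (cb e κ i l) x - ec κ i l 0 * fs (cz s κ) x :=
      (((rep_ec s3 h).sub (Rep.self (sum_cb s3 h))).sub
        ((Rep.self ((rep_r0 s3 κ).const_mul (r0 s κ 0)⁻¹).1).const_mul _)).2 x
    have m : ‖ec κ i l 0‖ ≤ 6 * Cb := (E 0).trans (by
      rw [div_le_iff₀ (by positivity), sq]; gcongr)
    have b : ‖fs (cg e s κ i l) x‖
        ≤ |eta κ i l x| + ‖fs (cb e κ i l) x‖ + 6 * Cb * ‖fs (cz s κ) x‖ := by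
      rw [a]
      refine (norm_sub_le _ _).trans (add_le_add ((norm_sub_le _ _).trans ?_) ?_)
      · rw [Complex.norm_real, Real.norm_eq_abs]
      · rw [norm_mul]; gcongr
    have hr : (0 : ℝ) ≤ r := Nat.cast_nonneg r
    have d1 : ((2 : ℝ) ^ (i + l)) ^ (-(r : ℝ)) ≤ (2 ^ (i + l)) ^ ((-1 + e) * (r / 2)) :=
      Real.rpow_le_rpow_of_exponent_le hP (by nlinarith [mul_nonneg he.le hr])
    have d2 : ((2 : ℝ) ^ κ) ^ ((1 + e) * (r / 2))
        ≤ (2 ^ (i + l)) ^ ((-1 + e) * (r / 2)) * ((2 : ℝ) ^ κ) ^ r := by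
      rw [show (1 + e) * ((r : ℝ) / 2) = (-1 + e) * (r / 2) + r by ring,
        Real.rpow_add (by positivity), Real.rpow_natCast]
      exact mul_le_mul_of_nonneg_right (Real.rpow_le_rpow_of_nonpos (by positivity) hPN
        (mul_nonpos_of_nonpos_of_nonneg (by linarith) (by positivity))) (by positivity)
    have f1 := (H1 κ x).trans (mul_le_mul_of_nonneg_left d2 k1)
    have f2 := H2 κ i l h x
    have f3 := (H3 κ i l h x).trans (mul_le_mul_of_nonneg_right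
      (mul_le_mul_of_nonneg_left d1 k3) (by positivity))
    have f4 := mul_le_mul_of_nonneg_right b
      (Real.rpow_nonneg (ww_nonneg C1 (2 ^ κ) x) ((r : ℝ) / 2))
    have f5 := mul_le_mul_of_nonneg_left f1 c.le
    rw [mul_assoc] at f2 f3 ⊢
    have hX : 0 ≤ ((2 : ℝ) ^ (i + l)) ^ ((-1 + e) * (r / 2)) * ((2 : ℝ) ^ κ) ^ r := by positivity
    generalize ((2 : ℝ) ^ (i + l)) ^ ((-1 + e) * (r / 2)) * ((2 : ℝ) ^ κ) ^ r = X at *
    nlinarith [mul_nonneg k1 hX, mul_nonneg k4 hX, mul_nonneg c.le hX, mul_nonneg p4 hX]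
  · by_cases hk : k = 0
    · rw [hk, cg, cz_zero h2 s2, cb, if_neg (by simp)]
      simp only [sub_zero, mul_one, sub_self, norm_zero]
      positivity
    have a : ‖ec κ i l k - cb e κ i l k‖
        ≤ 3 * Cb * (2 ^ (i + l) * (2 ^ (i + l)) ^ e) / (2 ^ κ) ^ 2 := by
      unfold cb
      split_ifs with hb
      · rw [sub_self, norm_zero]; positivity
      · rw [sub_zero]
        exact norm_ec' h2 κ i l k (not_lt.1 fun h' => hb ⟨hk, h'⟩)
    have b : ((2 : ℝ) ^ κ) ^ (-1 + e) ≤ (2 ^ (i + l))⁻¹ * (2 ^ (i + l)) ^ e := by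
      rw [← Real.rpow_neg_one, ← Real.rpow_add (by positivity)]
      exact Real.rpow_le_rpow_of_nonpos (by positivity) hPN (by linarith)
    have d : ‖ec κ i l 0 * cz s κ k‖
        ≤ 12 * (Cb * K4) * (2 ^ (i + l) * (2 ^ (i + l)) ^ e) / (2 ^ κ) ^ 2 := by
      rw [norm_mul]
      refine (mul_le_mul (E 0) ((Z k hk).trans (mul_le_mul_of_nonneg_left b (by positivity)))
        (norm_nonneg _) (by positivity)).trans (le_of_eq ?_)
      field_simp
      ring
    rw [cg, Real.rpow_add (by positivity), Real.rpow_one]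
    refine (norm_sub_le _ _).trans ((add_le_add a d).trans ?_)
    rw [← add_div, ← add_mul]
    gcongr
    linarith
  · rw [Real.rpow_two, sq ((2 : ℝ) ^ (i + l))]
    gcongr
    linarith

lemma geo {γ : ℝ} (hγ : 0 < γ) : ∃ S : ℝ, 0 ≤ S ∧ ∀ s κ : ℕ,
    ∑ p ∈ Ix s κ, ((2 : ℝ) ^ (p.1 + p.2)) ^ (-γ) ≤ S := by
  have a : (0 : ℝ) ≤ 2 ^ (-γ) := by positivity
  have b : (2 : ℝ) ^ (-γ) < 1 := Real.rpow_lt_one_of_one_lt_of_neg one_lt_two (by linarith)
  have c : ∀ u : Finset ℕ, ∑ n ∈ u, ((2 : ℝ) ^ (-γ)) ^ n ≤ (1 - 2 ^ (-γ))⁻¹ := fun u => by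
    rw [← tsum_geometric_of_lt_one a b]
    exact (summable_geometric_of_lt_one a b).sum_le_tsum u fun _ _ => by positivity
  have d : (0 : ℝ) ≤ (1 - 2 ^ (-γ))⁻¹ := inv_nonneg.2 (by linarith)
  refine ⟨(1 - 2 ^ (-γ))⁻¹ * (1 - 2 ^ (-γ))⁻¹, by positivity, fun s κ => ?_⟩
  rw [Ix, sum_sigma]
  refine le_trans (sum_le_sum fun i _ => ?_) ((sum_mul _ _ _).ge.trans
    (mul_le_mul_of_nonneg_right (c (Is s κ)) d))
  simp only [← Real.rpow_pow_comm zero_le_two]
  simp only [pow_add, ← mul_sum]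
  exact mul_le_mul_of_nonneg_left (c _) (by positivity)

lemma mix {K P a b θ γ : ℝ} (hK : 0 < K) (hP : 1 ≤ P) (h : a * (1 - θ) + b * θ ≤ -γ) :
    (K * P ^ a) ^ (1 - θ) * (K * P ^ b) ^ θ ≤ K * P ^ (-γ) := by
  have p : 0 < P := by linarith
  rw [Real.mul_rpow hK.le (by positivity), Real.mul_rpow hK.le (by positivity), mul_mul_mul_comm,
    ← Real.rpow_add hK, ← Real.rpow_mul p.le, ← Real.rpow_mul p.le, ← Real.rpow_add p,
    sub_add_cancel, Real.rpow_one]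
  exact mul_le_mul_of_nonneg_left (Real.rpow_le_rpow_of_exponent_le hP h) hK.le

end Arc

open Arc in
theorem arc_of (h0 : DivStmt) (h1 : MomStmt) (h2 : RamStmt) (h3 : WwStmt) : ArcStmt := by
  intro r C1 θ ε t0 t1 t2 hε
  have hr : (0 : ℝ) ≤ r := Nat.cast_nonneg r
  obtain ⟨γ, hγ⟩ : ∃ γ : ℝ, γ = (r * (1 - θ) - 2 * θ) / 4 := ⟨_, rfl⟩
  have g0 : 0 < γ := by linarith
  obtain ⟨e, he, e1, e2, e3⟩ : ∃ e : ℝ, 0 < e ∧ e ≤ 1 ∧ e * (r + 1) ≤ ε ∧ e * (r + 1) ≤ γ :=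
    ⟨min 1 (min (ε / (r + 1)) (γ / (r + 1))), by positivity, min_le_left _ _,
      (le_div_iff₀ (by positivity)).1 ((min_le_right _ _).trans (min_le_left _ _)),
      (le_div_iff₀ (by positivity)).1 ((min_le_right _ _).trans (min_le_right _ _))⟩
  have er := mul_nonneg he.le hr
  obtain ⟨K, s, hK, s3, s2, H⟩ := core h0 h1 h2 h3 r C1 he e1
  obtain ⟨S, hS, G⟩ := geo g0
  refine ⟨K + 2 * (K * S), fun κ => ?_⟩
  obtain ⟨a1, a2, a3, a4⟩ := H κ
  have hN : (1 : ℝ) ≤ 2 ^ κ := one_le_pow₀ one_le_two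
  have hKS := mul_nonneg hK.le hS
  have z := ((rep_r0 s3 κ).const_mul (r0 s κ 0)⁻¹).1
  let c : Ix s κ ⊕ Ix s κ → ℤ → ℂ :=
    Sum.elim (fun p => cg e s κ p.1.1 p.1.2) fun p => cb e κ p.1.1 p.1.2
  let A : Ix s κ ⊕ Ix s κ → ℝ :=
    Sum.elim (fun p => K * ((2 : ℝ) ^ (p.1.1 + p.1.2)) ^ ((-1 + e) * (r / 2)))
      fun p => K * ((2 : ℝ) ^ (p.1.1 + p.1.2)) ^ (-(r : ℝ))
  let B : Ix s κ ⊕ Ix s κ → ℝ :=
    Sum.elim (fun p => K * ((2 : ℝ) ^ (p.1.1 + p.1.2)) ^ (1 + e))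
      fun p => K * ((2 : ℝ) ^ (p.1.1 + p.1.2)) ^ (2 : ℝ)
  have sm : ∀ p, Summable fun k => ‖c p k‖ := by
    rintro (p | p)
    · exact (((rep_ec s3 (mem_Ix p.2)).sub (Rep.self (sum_cb s3 (mem_Ix p.2)))).sub
        ((Rep.self z).const_mul _)).1
    · exact sum_cb s3 (mem_Ix p.2)
  let E := (Fintype.equivFin (Ix s κ ⊕ Ix s κ)).symm
  refine ⟨_, fun p => c (E p), cz s κ, fun p => A (E p), fun p => B (E p), fun p => sm _, z,
    fun x => ?_, fun p => ?_, fun p => ?_, fun p x => ?_, fun p k => ?_, ?_, fun x => ?_, ?_,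
    fun k hk => ?_⟩
  · rw [E.sum_comp fun p => fs (c p) x]
    have a := ((Rep.sum (s := univ) fun p _ => Rep.self (sm p)).add (Rep.self z)).2 x
    refine a.symm.trans (Eq.trans ?_ (Rep.delta.2 x))
    congr 1
    funext k
    rw [← sum_all h2 s2 e κ k, Fintype.sum_sum_type, ← sum_coe_sort (Ix s κ), ← sum_coe_sort (Ix s κ)]
    rfl
  · simp only
    rcases E p with p | p <;> exact mul_nonneg hK.le (by positivity)
  · simp only
    rcases E p with p | p <;> exact mul_nonneg hK.le (by positivity)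
  · simp only
    rcases E p with p | p
    exacts [(a4 _ _ (mem_Ix p.2)).1 x, (a4 _ _ (mem_Ix p.2)).2.2.1 x]
  · simp only
    rcases E p with p | p
    exacts [(a4 _ _ (mem_Ix p.2)).2.1 k, (a4 _ _ (mem_Ix p.2)).2.2.2 k]
  · rw [E.sum_comp fun p => A p ^ (1 - θ) * B p ^ θ, Fintype.sum_sum_type]
    have b : ∑ p : Ix s κ, K * ((2 : ℝ) ^ (p.1.1 + p.1.2)) ^ (-γ) ≤ K * S := by
      rw [← mul_sum, sum_coe_sort (Ix s κ) fun p => ((2 : ℝ) ^ (p.1 + p.2)) ^ (-γ)]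
      exact mul_le_mul_of_nonneg_left (G s κ) hK.le
    have b1 : ∑ p : Ix s κ, A (.inl p) ^ (1 - θ) * B (.inl p) ^ θ ≤ K * S :=
      (sum_le_sum fun p _ => mix hK (one_le_pow₀ one_le_two) (by
        nlinarith [mul_nonneg er t0.le, mul_nonneg he.le (sub_pos.2 t1).le])).trans b
    have b2 : ∑ p : Ix s κ, A (.inr p) ^ (1 - θ) * B (.inr p) ^ θ ≤ K * S :=
      (sum_le_sum fun p _ => mix hK (one_le_pow₀ one_le_two) (by linarith)).trans b
    linarith
  · refine (a1 x).trans (mul_le_mul (by linarith) (Real.rpow_le_rpow_of_exponent_le hN ?_)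
      (by positivity) (by positivity))
    linarith
  · rw [cz_zero h2 s2, norm_one]
    linarith
  · refine (a3 k hk).trans (mul_le_mul (by linarith) (Real.rpow_le_rpow_of_exponent_le hN ?_)
      (by positivity) (by positivity))
    linarith

end

end Pool.Agent.MP_ba99b7_an

end MrgPart2

-- ======== part 3: formerly Pool.Agent.MP_ba99b7_an.Glue2
section MrgPart3

/-! PROJECT STRI, module GLUE2: the final assembly. -/

set_option linter.unusedSectionVars false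

namespace Pool.Agent.MP_ba99b7_an

open scoped Manifold ContDiff ComplexConjugate RealInnerProductSpace ENNReal NNReal
open MeasureTheory Module Pool.Agent.MP_f244e7_gt

namespace Glue2

section sym
variable {V : Type} [NormedAddCommGroup V] [InnerProductSpace ℝ V] [FiniteDimensional ℝ V]
  {G : Type} [Group G] [TopologicalSpace G] [MeasurableSpace G] [TG G] {S : Sym V G}

theorem der_inv {v : G → ℂ} (hv : IsRep v) (X : V) (y : G) :
    HasDerivAt (fun t : ℝ => v (y * S.ex (t • X))⁻¹) (S.D (S.Ad y (-X)) v y⁻¹) 0 := by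
  have h := Sym.hasDerivAt_left (S := S) hv (-X) y⁻¹
  simpa only [inv_inv, smul_neg, S.ex_neg, ← mul_inv_rev] using h

theorem DD_inv {v : G → ℂ} (hv : IsRep v) (X : V) (x : G) :
    S.D X (S.D X fun y => v y⁻¹) x = S.D (S.Ad x X) (S.D (S.Ad x X) v) x⁻¹ := by
  have h1 : ∀ y, S.D X (fun y => v y⁻¹) y = S.D (S.Ad y (-X)) v y⁻¹ := fun y =>
    Sym.D_of_hasDerivAt (f := fun y => v y⁻¹) (der_inv hv X y)
  have h2 : ∀ t : ℝ, S.Ad (x * S.ex (t • X)) (-X) = S.Ad x (-X) := fun t => by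
    rw [S.Ad_mul_apply, S.Ad_ex_fix]
    simp [S.ad_self]
  have h3 := der_inv (S := S) (Sym.isRep_D (S := S) hv (S.Ad x (-X))) X x
  rw [Sym.D_of_hasDerivAt (c := S.D (S.Ad x (-X)) (S.D (S.Ad x (-X)) v) x⁻¹)
    (by simpa only [h1, h2] using h3), map_neg, Sym.D_neg_vec hv, Sym.D_neg_fun,
    Sym.D_neg_vec (Sym.isRep_D hv _), neg_neg]

theorem cas_inv {v : G → ℂ} (hv : IsRep v) {ι : Type} [Fintype ι] (B : OrthonormalBasis ι ℝ V)
    (x : G) : S.cas B (fun y => v y⁻¹) x = S.cas B v x⁻¹ := by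
  simp only [Sym.cas, DD_inv hv]
  exact Sym.cas_Ad hv B x x⁻¹

theorem cas_p {g : G → ℂ} (hg : IsRep g) (hK : ∀ k ∈ S.K, ∀ x, g (x * k) = g x) {d : ℕ}
    {c : Fin d → V} (hc : Orthonormal ℝ c) (hs : Submodule.span ℝ (Set.range c) = S.p)
    {ι : Type} [Fintype ι] (B : OrthonormalBasis ι ℝ V) (x : G) :
    ∑ i, S.D (c i) (S.D (c i) g) x = S.cas B g x := by
  classical
  obtain ⟨u, B', hu, hB'⟩ := hc.toSubtypeRange.exists_orthonormalBasis_extension
  have hi := hc.linearIndependent.injective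
  rw [Sym.cas_indep hg B B', Sym.cas, hB', Finset.sum_coe_sort u fun y => S.D y (S.D y g) x,
    ← Finset.sum_image (g := c) (f := fun y => S.D y (S.D y g) x) hi.injOn]
  refine Finset.sum_subset (fun y hy => ?_) fun y hy hy' => ?_
  · obtain ⟨i, -, rfl⟩ := Finset.mem_image.1 hy
    exact hu ⟨i, rfl⟩
  · have h1 : ∀ z ∈ S.p, ⟪y, z⟫ = 0 := by
      intro z hz
      rw [← hs] at hz
      induction hz using Submodule.span_induction with
      | mem z hz =>
        obtain ⟨i, rfl⟩ := hz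
        have h := B'.orthonormal.2 (i := ⟨y, hy⟩) (j := ⟨c i, hu ⟨i, rfl⟩⟩) fun h =>
          hy' (Finset.mem_image.2 ⟨i, Finset.mem_univ _, (congrArg Subtype.val h).symm⟩)
        simpa only [hB'] using h
      | zero => exact inner_zero_right _
      | add a b _ _ ha hb => rw [inner_add_right, ha, hb, add_zero]
      | smul t a _ ha => rw [inner_smul_right, ha, mul_zero]
    have h2 : S.θ (y - S.θ y) = -(y - S.θ y) := by rw [map_sub, S.θθ, neg_sub]
    have h3 : ⟪y - S.θ y, y - S.θ y⟫ = 0 := by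
      rw [inner_sub_left, S.θ_symm, h2, inner_neg_right, h1 _ h2, neg_zero, sub_zero]
    rw [Sym.D_eq_zero_of_right hK (sub_eq_zero.1 (inner_self_eq_zero.1 h3)).symm, Sym.D_zero_fun,
      Pi.zero_apply]

end sym

section lie
variable {E : Type} [NormedAddCommGroup E] [NormedSpace ℝ E] [FiniteDimensional ℝ E]
  {G : Type} [Group G] [TopologicalSpace G] [ChartedSpace E G] [LieGroup 𝓘(ℝ, E) ∞ G]
  {d : ℕ} (b : Fin d → GroupLieAlgebra 𝓘(ℝ, E) G)

/-- An element of the Lie algebra as a vector of the model space. -/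
def tE (X : GroupLieAlgebra 𝓘(ℝ, E) G) : E := X

theorem lder_eq {f : G → ℂ} (hf : Sm E f) (X : GroupLieAlgebra 𝓘(ℝ, E) G) :
    lder E X f = LD (tE X) f := funext fun x => mvfderiv_eq_LD hf x X

theorem lap_eq {f : G → ℂ} (hf : Sm E f) :
    lap E b f = fun x => ∑ i, LD (tE (b i)) (LD (tE (b i)) f) x := by
  ext x
  refine Finset.sum_congr rfl fun i _ => ?_
  rw [lder_eq hf, lder_eq (hf.LD _)]

theorem sm_lap {f : G → ℂ} (hf : Sm E f) : Sm E (lap E b f) := by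
  rw [lap_eq b hf]
  exact contMDiff_finsetSum fun i _ => (hf.LD _).LD _

theorem LD_smul {f : G → ℂ} (hf : Sm E f) (c : ℂ) (X : E) : LD X (c • f) = c • LD X f :=
  funext fun x => LD_clm (ContinuousLinearMap.mul ℝ ℂ c) hf X x

theorem sm_smul {f : G → ℂ} (hf : Sm E f) (c : ℂ) : Sm E (c • f) :=
  hf.clm (ContinuousLinearMap.mul ℝ ℂ c)

variable {b}

theorem eig_zero (K : Subgroup G) (l : ℝ) : IsEig E K b l 0 := by
  refine ⟨⟨contMDiff_const, fun _ _ _ => rfl⟩, fun x => ?_⟩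
  have h : ∀ X : E, LD X (0 : G → ℂ) = 0 := fun X => LD_const X 0
  rw [lap_eq b (f := 0) contMDiff_const]
  simp [h]

theorem eig_add {K : Subgroup G} {l : ℝ} {f g : G → ℂ} (hf : IsEig E K b l f)
    (hg : IsEig E K b l g) : IsEig E K b l (f + g) := by
  refine ⟨⟨hf.1.1.add hg.1.1, fun x k hk => ?_⟩, fun x => ?_⟩
  · rw [Pi.add_apply, hf.1.2 x k hk, hg.1.2 x k hk, Pi.add_apply]
  · have h1 := hf.2 x
    have h2 := hg.2 x
    rw [lap_eq b hf.1.1] at h1
    rw [lap_eq b hg.1.1] at h2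
    rw [lap_eq b (hf.1.1.add hg.1.1)]
    simp only [LD_add hf.1.1 hg.1.1, LD_add (Sm.LD hf.1.1 _) (Sm.LD hg.1.1 _), Pi.add_apply,
      Finset.sum_add_distrib] at h1 h2 ⊢
    rw [h1, h2]
    ring

theorem eig_smul {K : Subgroup G} {l : ℝ} {f : G → ℂ} (hf : IsEig E K b l f) (c : ℂ) :
    IsEig E K b l (c • f) := by
  refine ⟨⟨sm_smul hf.1.1 c, fun x k hk => ?_⟩, fun x => ?_⟩
  · rw [Pi.smul_apply, hf.1.2 x k hk, Pi.smul_apply]
  · have h1 := hf.2 x
    rw [lap_eq b hf.1.1] at h1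
    rw [lap_eq b (sm_smul hf.1.1 c)]
    simp only [LD_smul hf.1.1, LD_smul (Sm.LD hf.1.1 _), Pi.smul_apply, smul_eq_mul,
      ← Finset.mul_sum] at h1 ⊢
    rw [h1]
    ring

theorem eig_sum {K : Subgroup G} {l : ℝ} {ι : Type} (s : Finset ι) {f : ι → G → ℂ}
    (hf : ∀ i ∈ s, IsEig E K b l (f i)) : IsEig E K b l (∑ i ∈ s, f i) :=
  Finset.sum_induction f _ (fun _ _ => eig_add) (eig_zero K l) hf

variable [MeasurableSpace G] [TG G] (μ : Measure G) [BiH μ]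

theorem ip_LD {f g : G → ℂ} (hf : Sm E f) (hg : Sm E g) (X : E) :
    ip μ (LD X f) g = -ip μ f (LD X g) := by
  have : BiHaar μ := {}
  let c : ℂ →L[ℝ] ℂ := Complex.conjCLE
  have h1 := integral_LD μ ((hf.clm c).bilin (ContinuousLinearMap.mul ℝ ℂ) hg) X
  simp only [LD_bilin _ (hf.clm c) hg, LD_clm c hf] at h1
  rw [integral_add] at h1
  · exact eq_neg_of_add_eq_zero_left h1
  · exact cont_int μ (((hf.LD X).clm c).bilin (ContinuousLinearMap.mul ℝ ℂ) hg).continuous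
  · exact cont_int μ ((hf.clm c).bilin (ContinuousLinearMap.mul ℝ ℂ) (hg.LD X)).continuous

theorem ip_lap {f g : G → ℂ} (hf : Sm E f) (hg : Sm E g) :
    ip μ (lap E b f) g = ip μ f (lap E b g) := by
  rw [lap_eq b hf, lap_eq b hg, ← Finset.sum_fn, ← Finset.sum_fn,
    ip_sum_left μ _ hg.continuous fun i _ => ((hf.LD _).LD _).continuous,
    ip_sum_right μ _ hf.continuous fun i _ => ((hg.LD _).LD _).continuous]
  refine Finset.sum_congr rfl fun i _ => ?_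
  rw [ip_LD μ (hf.LD _) hg, ip_LD μ hf (hg.LD _), neg_neg]

theorem ip_lap_eig {K : Subgroup G} {l : ℝ} {v g : G → ℂ} (hv : IsEig E K b l v) (hg : Sm E g) :
    ip μ v (lap E b g) = -(l : ℂ) * ip μ v g := by
  rw [← ip_lap μ hv.1.1 hg, show lap E b v = (-(l : ℂ)) • v from funext hv.2, ip_smul_left]
  simp

/-- The conclusion for a normalised measure, from the spectral data. -/
theorem main_core {r d' : ℕ} (S : Sph μ r d') {D : ℕ} (hD : 0 < D) (K : Subgroup G)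
    (hv : ∀ n ∈ S.Λ, ∀ i, IsEig E K b (lam S D n) (vt S n i))
    (hcomp : ∀ g : G → ℂ, Continuous g → (∀ x, ∀ k ∈ K, g (x * k) = g x) →
      (∀ n ∈ S.Λ, ∀ i, co S g n i = 0) → g = 0) {f : G → ℂ} (hf : IsFn E K f) :
    ∃ w : (Fin r → ℕ) → ℝ, Summable w ∧ (∀ n x, ‖fn S f n x‖ ≤ w n) ∧
      (∀ l, IsProj E μ K b l f (proj S hD f l)) ∧ ∀ x, sol S D f (0, x) = f x := by
  have hdec : ∀ M : ℕ, ∃ g : G → ℂ, Sm E g ∧ ∀ n ∈ S.Λ, ∀ i,
      co S g n i = ((1 + lam S D n : ℝ) : ℂ) ^ M * co S f n i := by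
    intro M
    induction M with
    | zero => exact ⟨f, hf.1, by simp⟩
    | succ M ih =>
      obtain ⟨g, hg, h⟩ := ih
      refine ⟨g - lap E b g, hg.sub (sm_lap b hg), fun n hn i => ?_⟩
      have h1 := h n hn i
      rw [co] at h1
      rw [co, ip_sub_right μ (vt_cont hn i) hg.continuous (sm_lap b hg).continuous,
        ip_lap_eig μ (hv n hn i) hg, h1]
      push_cast
      ring
  obtain ⟨w, hw, hb⟩ := exists_bound hD f fun M => (hdec M).imp fun g hg =>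
    ⟨hg.1.continuous, hg.2⟩
  have hex := expand K (fun n hn i => (hv n hn i).1.2) hcomp hf.1.continuous hf.2 hw hb
  refine ⟨w, hw, hb, fun l => ⟨eig_sum _ fun n hn => ?_, fun h hh => ?_⟩, fun x => ?_⟩
  · by_cases hn' : n ∈ S.Λ
    · rw [fn_of_mem f hn', ← show lam S D n = l from ((fib_finite S hD l).mem_toFinset).1 hn]
      exact eig_sum _ fun i _ => eig_smul (hv n hn' i) _
    · rw [fn_of_not f hn']
      exact eig_zero K l
  · have hc := hh.1.1.continuous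
    have h1 := hasSum_ip hw hb hc
    rw [hex] at h1
    have h2 : HasSum (fun n => ip μ h (fn S f n))
        (∑ n ∈ (fib_finite S hD l).toFinset, ip μ h (fn S f n)) := by
      refine hasSum_sum_of_ne_finset_zero fun n hn => ?_
      by_cases hn' : n ∈ S.Λ
      · have e : ∀ i, co S h n i = 0 := by
          intro i
          have h3 := ip_lap_eig μ (hv n hn' i) hh.1.1
          rw [show lap E b h = (-(l : ℂ)) • h from funext hh.2, ip_smul_right] at h3
          have h4 : ((lam S D n : ℂ) - l) * co S h n i = 0 := by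
            rw [co]
            linear_combination h3
          refine (mul_eq_zero.1 h4).resolve_left fun h5 => hn ?_
          exact ((fib_finite S hD l).mem_toFinset).2
            (show lam S D n = l by exact_mod_cast sub_eq_zero.1 h5)
        rw [← ip_conj, ip_fn f hc hn']
        simp [e]
      · rw [fn_of_not f hn', ip_zero_right]
    have h3 := ip_sub_right μ hc hf.1.continuous (cont_sum (S := S) f (fib_finite S hD l).toFinset)
    rw [ip_sum_right μ _ hc fun n _ => fn_cont f n, h1.unique h2, sub_self] at h3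
    exact h3
  · rw [← congrFun hex x]
    simp [sol]

end lie

theorem exists_norm {G : Type} [Group G] [TopologicalSpace G] [MeasurableSpace G] [TG G]
    (μ : Measure G) [μ.IsHaarMeasure] :
    ∃ (μ0 : Measure G) (c : ℝ≥0), BiH μ0 ∧ c ≠ 0 ∧ μ = c • μ0 := by
  have h0 : μ Set.univ ≠ 0 := (isOpen_univ.measure_pos μ Set.univ_nonempty).ne'
  have h1 : μ Set.univ ≠ ⊤ := isCompact_univ.measure_lt_top.ne
  let ν : Measure G := (μ Set.univ)⁻¹ • μ
  have hh : ν.IsHaarMeasure :=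
    Measure.IsHaarMeasure.smul μ (ENNReal.inv_ne_zero.2 h1) (ENNReal.inv_ne_top.2 h0)
  have hp : IsProbabilityMeasure ν := ⟨ENNReal.inv_mul_cancel h0 h1⟩
  have hr : ν.IsMulRightInvariant := ⟨fun g => by
    have : IsProbabilityMeasure (Measure.map (· * g) ν) :=
      Measure.isProbabilityMeasure_map (measurable_mul_const g).aemeasurable
    exact Measure.isHaarMeasure_eq_of_isProbabilityMeasure _ _⟩
  have hi : ν.IsInvInvariant := ⟨by
    have : IsProbabilityMeasure ν.inv :=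
      Measure.isProbabilityMeasure_map measurable_inv.aemeasurable
    have : ν.inv.IsHaarMeasure := {}
    exact Measure.isHaarMeasure_eq_of_isProbabilityMeasure _ _⟩
  refine ⟨ν, (μ Set.univ).toNNReal, {}, ENNReal.toNNReal_ne_zero.2 ⟨h0, h1⟩, ?_⟩
  rw [ENNReal.smul_def, ENNReal.coe_toNNReal h1, smul_smul, ENNReal.mul_inv_cancel h0 h1,
    one_smul]

theorem rescale {G : Type} [MeasurableSpace G] (μ : Measure G) [SFinite μ] (ν : Measure ℝ)
    {c : ℝ≥0} (hc : c ≠ 0) (C : ℝ≥0) (p : ℝ≥0∞) : ∃ C' : ℝ≥0, ∀ (u : ℝ × G → ℂ) (φ : ℝ → G → ℂ)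
      (a : ℝ → ℝ≥0∞),
      eLpNorm u p (ν.prod μ) ≤ C * (∑' l : ℝ, a l * eLpNorm (φ l) 2 μ ^ 2) ^ (1 / 2 : ℝ) →
      eLpNorm u p (ν.prod (c • μ)) ≤
        C' * (∑' l : ℝ, a l * eLpNorm (φ l) 2 (c • μ) ^ 2) ^ (1 / 2 : ℝ) := by
  refine ⟨c ^ p.toReal⁻¹ * C * (c ^ (1 / 2 : ℝ))⁻¹, fun u φ a h => ?_⟩
  have e1 : ∀ l, a l * eLpNorm (φ l) 2 (c • μ) ^ 2 = c * (a l * eLpNorm (φ l) 2 μ ^ 2) := by
    intro l
    rw [eLpNorm_smul_measure_of_ne_zero' hc, ENNReal.smul_def, smul_eq_mul, mul_pow,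
      ← ENNReal.coe_pow, ← NNReal.rpow_natCast, ← NNReal.rpow_mul]
    simp [mul_left_comm]
  have e2 : c ^ (1 / 2 : ℝ) ≠ 0 := (NNReal.rpow_pos (pos_iff_ne_zero.2 hc)).ne'
  simp only [e1]
  rw [Measure.prod_smul_right, eLpNorm_smul_measure_of_ne_zero' hc, ENNReal.tsum_mul_left,
    ENNReal.mul_rpow_of_nonneg _ _ (by norm_num), ← ENNReal.coe_rpow_of_nonneg _ (by norm_num),
    ← mul_assoc, ← ENNReal.coe_mul, inv_mul_cancel_right₀ e2, ENNReal.smul_def, smul_eq_mul,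
    ENNReal.coe_mul, mul_assoc]
  exact mul_le_mul_right h _

end Glue2

open Glue2 in
theorem main_of (h1 : Glue1Stmt) (h2 : AdaptStmt) (h3 : RootsStmt) (h4 : LieStmt)
    (h5 : ScaleStmt) : MainStmt := by
  intro E _ _ _ _ G _ _ _ _ _ _ _ _ _ _ μ _ hss σ hσ hσσ K hKc hK1 hK2 d b hb hsp r hr hr1 I hI p hp
  have := topologicalGroup_of_lieGroup 𝓘(ℝ, E) ∞ (G := G)
  have := ChartedSpace.secondCountable_of_sigmaCompact E G
  have : TG G := {}
  obtain ⟨μ0, c, hμ0, hc, rfl⟩ := exists_norm μ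
  obtain ⟨n, S, e, rfl, hbr, hkil, hp', hder, hsm⟩ := h1 E G hss σ hσ hσσ K hKc hK1 hK2
  have hmax : ∀ a : Submodule ℝ (EuclideanSpace ℝ (Fin n)), a ≤ S.p →
      (∀ X ∈ a, ∀ Z ∈ a, S.ad X Z = 0) → finrank ℝ a ≤ r := by
    intro a ha hab
    refine hr.2 ⟨a.map e.symm.toLinearMap, ?_, ?_, e.symm.finrank_map_eq a⟩
    · rintro _ ⟨X, hX, rfl⟩
      exact (hp' _).2 (by simpa using ha hX)
    · rintro _ ⟨X, hX, rfl⟩ _ ⟨Z, hZ, rfl⟩
      apply e.injective
      rw [hbr, map_zero]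
      simpa using hab X hX Z hZ
  obtain ⟨a0, ha1, ha2, ha3⟩ := hr.1
  have ha4 : finrank ℝ (a0.map e.toLinearMap) = r := (e.finrank_map_eq a0).trans ha3
  have ha5 : a0.map e.toLinearMap ≤ S.p := by
    rintro _ ⟨X, hX, rfl⟩
    exact (hp' _).1 (ha1 hX)
  have ha6 : ∀ X ∈ a0.map e.toLinearMap, ∀ Z ∈ a0.map e.toLinearMap, S.ad X Z = 0 := by
    rintro _ ⟨X, hX, rfl⟩ _ ⟨Z, hZ, rfl⟩
    exact (hbr X Z).symm.trans (by rw [ha2 X hX Z hZ, map_zero])
  obtain ⟨A, -⟩ := h2 _ G S _ ha5 ha6 fun X hX hXa => by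
    have h := hmax (a0.map e.toLinearMap ⊔ Submodule.span ℝ {X})
      (sup_le ha5 ((Submodule.span_singleton_le_iff_mem _ _).2 hX)) (by
        intro Y hY Z hZ
        obtain ⟨y, hy, y', hy', rfl⟩ := Submodule.mem_sup.1 hY
        obtain ⟨z, hz, z', hz', rfl⟩ := Submodule.mem_sup.1 hZ
        obtain ⟨s, rfl⟩ := Submodule.mem_span_singleton.1 hy'
        obtain ⟨t, rfl⟩ := Submodule.mem_span_singleton.1 hz'
        simp [ha6 y hy z hz, hXa y hy, S.ad_anti X z, hXa z hz, S.ad_self])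
    rw [Submodule.eq_of_le_of_finrank_le le_sup_left (h.trans ha4.ge)]
    exact Submodule.mem_sup_right (Submodule.mem_span_singleton_self X)
  rw [ha4] at A
  obtain ⟨R⟩ := h3 _ G S r A
  obtain ⟨Sp, hbas, hcomp⟩ := h4 _ G μ0 S r R hmax
  have hon : Orthonormal ℝ fun i => e (b i) := orthonormal_iff_ite.2 fun i j => by
    rw [hkil, hb]
  have hspan : Submodule.span ℝ (Set.range fun i => e (b i)) = S.p := by
    rw [show (fun i => e (b i)) = e.toLinearMap ∘ b from rfl, Set.range_comp,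
      ← Submodule.map_span]
    ext X
    obtain ⟨Y, rfl⟩ := e.surjective X
    rw [← hp', ← hsp]
    exact Submodule.mem_map_equiv _ |>.trans (by simp)
  have hd : d = r + R.m := by
    rw [← R.dim_p, ← hspan, finrank_span_eq_card hon.linearIndependent, Fintype.card_fin]
  subst hd
  obtain ⟨C, hC⟩ := h5 G μ0 r _ Sp hr1 p hp R.Dn R.Dn_pos I hI
  obtain ⟨C', hC'⟩ := rescale μ0 (volume.restrict I) hc C.toNNReal (ENNReal.ofReal p)
  have hD : ∀ g : G → ℂ, IsRep g → ∀ X, lder E X g = S.D (e X) g := fun g hg X =>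
    funext fun x => (Sym.D_of_hasDerivAt (hder g (hsm g hg) X x)).symm
  have hv : ∀ m ∈ Sp.Λ, ∀ i, IsEig E S.K b (lam Sp R.Dn m) (vt Sp m i) := by
    intro m hm i
    obtain ⟨q1, q2, q3⟩ := hbas m hm i
    have q4 : IsRep (vt Sp m i) := q1.inv
    have q5 : ∀ k ∈ S.K, ∀ x, vt Sp m i (x * k) = vt Sp m i x := fun k hk x => by
      simp only [vt, mul_inv_rev, q2 _ (S.K.inv_mem hk)]
    refine ⟨⟨hsm _ q4, fun x k hk => q5 k hk x⟩, fun x => ?_⟩
    simp only [lap, hD _ q4, hD _ (Sym.isRep_D q4 _)]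
    rw [cas_p q4 q5 hon hspan R.B]
    refine (cas_inv q1 R.B x).trans ((q3 _).trans ?_)
    simp [lam, vt]
  have hcomp' : ∀ g : G → ℂ, Continuous g → (∀ x, ∀ k ∈ S.K, g (x * k) = g x) →
      (∀ m ∈ Sp.Λ, ∀ i, co Sp g m i = 0) → g = 0 := by
    intro g hg hK h0
    have h := hcomp (fun x => g x⁻¹) (hg.comp continuous_inv)
      (fun k hk x => by simp only [mul_inv_rev, hK _ _ (S.K.inv_mem hk)]) fun m hm i => by
        rw [← h0 m hm i, co, ip, ip, ← integral_inv_eq_self]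
        simp only [vt, inv_inv]
    ext x
    simpa using congrFun h x⁻¹
  refine ⟨C', fun f hf => ?_⟩
  obtain ⟨w, hw, hb', hpr, h0⟩ := main_core μ0 Sp R.Dn_pos S.K hv hcomp' hf
  refine ⟨proj Sp R.Dn_pos f, sol Sp R.Dn f, fun l => ⟨(hpr l).1, fun h hh => ?_⟩,
    sol_hasSum' hw hb' R.Dn_pos, h0, sol_cont hw hb' _,
    hC' _ _ _ (sol_bound hw hb' R.Dn_pos _ _ _ C hC)⟩
  rw [integral_smul_nnreal_measure, (hpr l).2 h hh, smul_zero]

end Pool.Agent.MP_ba99b7_an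

end MrgPart3

-- ======== part 4: formerly Pool.Agent.MP_ba99b7_an.OdeA
section MrgPart4

/-! PROJECT STRI, module ODE: decay of bounded solutions of the radial equation. -/

namespace Pool.Agent.MP_ba99b7_an

open Set

namespace Ode

theorem xcot_pos {x : ℝ} (h0 : 0 < x) (h1 : x ≤ 1) :
    0 < Real.sin x ∧ 1 - x ^ 2 / 2 ≤ x * Real.cos x / Real.sin x ∧
      x * Real.cos x / Real.sin x ≤ 1 := by
  have hpi := Real.pi_gt_three
  have hs : 0 < Real.sin x := Real.sin_pos_of_pos_of_lt_pi h0 (by linarith)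
  have hc : 0 < Real.cos x := Real.cos_pos_of_mem_Ioo ⟨by linarith, by linarith⟩
  refine ⟨hs, ?_, ?_⟩
  · rw [le_div_iff₀ hs]
    have a1 := Real.one_sub_sq_div_two_le_cos (x := x)
    have a2 := Real.sin_le h0.le
    nlinarith
  · have a1 := Real.le_tan h0.le (by linarith)
    rw [Real.tan_eq_sin_div_cos, le_div_iff₀ hc] at a1
    rwa [div_le_one hs]

theorem xcot {x : ℝ} (h0 : x ≠ 0) (h1 : |x| ≤ 1) :
    Real.sin x ≠ 0 ∧ 1 - x ^ 2 / 2 ≤ x * Real.cos x / Real.sin x ∧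
      x * Real.cos x / Real.sin x ≤ 1 := by
  rcases lt_or_gt_of_ne h0 with h | h
  · obtain ⟨a1, a2⟩ := xcot_pos (x := -x) (by linarith) (by linarith [(abs_le.mp h1).1])
    rw [Real.sin_neg] at a1
    simp only [Real.sin_neg, Real.cos_neg, neg_mul, neg_div_neg_eq, neg_sq] at a2
    exact ⟨by linarith, a2⟩
  · obtain ⟨a1, a2⟩ := xcot_pos h (abs_le.mp h1).2
    exact ⟨a1.ne', a2⟩

theorem anti {f f' : ℝ → ℝ} {a b : ℝ} (hab : a ≤ b) (hc : ContinuousOn f (Icc a b))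
    (hd : ∀ s ∈ Ioo a b, HasDerivAt f (f' s) s) (h0 : ∀ s ∈ Ioo a b, f' s ≤ 0) : f b ≤ f a := by
  refine antitoneOn_of_deriv_nonpos (convex_Icc a b) hc ?_ ?_ (left_mem_Icc.mpr hab)
    (right_mem_Icc.mpr hab) hab
  · rw [interior_Icc]
    exact fun s hs => (hd s hs).differentiableAt.differentiableWithinAt
  · rw [interior_Icc]
    exact fun s hs => (hd s hs).deriv ▸ h0 s hs

theorem real_case {K m a : ℝ} (hK : 0 < K) (hm : 0 ≤ m) (ha : 0 < a) {u u1 u2 b : ℝ → ℝ}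
    (h1 : ∀ s, HasDerivAt u (u1 s) s) (h2 : ∀ s, HasDerivAt u1 (u2 s) s) (hc : Continuous u2)
    (hu : |u 0| ≤ 1)
    (hb : ∀ s, 0 < s → K * s ≤ 1 → 1 - (K * s) ^ 2 / 2 ≤ s * b s ∧ s * b s ≤ m)
    (he : ∀ s, 0 < s → K * s ≤ 1 → u2 s + b s * u1 s + a ^ 2 * u s = 0)
    {s : ℝ} (hs : 1 ≤ a * s) (hsK : K * s ≤ 1) : u s ^ 2 * (a * s) ≤ 3 * Real.exp (m + 1) := by
  have cu : Continuous u := continuous_iff_continuousAt.mpr fun s => (h1 s).continuousAt
  have cu1 : Continuous u1 := continuous_iff_continuousAt.mpr fun s => (h2 s).continuousAt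
  have hs0 : 0 < s := (mul_pos_iff_of_pos_left ha).mp (by linarith)
  have hb2 : ∀ t, 0 < t → K * t ≤ 1 → 1 / 2 ≤ t * b t := fun t ht htK => by
    have a1 := (hb t ht htK).1
    have a2 : (K * t) ^ 2 ≤ 1 := pow_le_one₀ (by positivity) htK
    linarith
  have hsub : ∀ t, t ≤ s → K * t ≤ 1 := fun t ht => le_trans (by gcongr) hsK
  -- the first derivative vanishes at `0`
  have h0 : u1 0 = 0 := by
    have a1 : ∀ t ∈ Ioo 0 s, |u1 t| ≤ 2 * (t * |u2 t + a ^ 2 * u t|) := fun t ht => by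
      have b1 := hb2 t ht.1 (hsub t ht.2.le)
      have b2 : (t * b t) * u1 t = -(t * (u2 t + a ^ 2 * u t)) := by
        linear_combination t * he t ht.1 (hsub t ht.2.le)
      have b3 := congrArg abs b2
      rw [abs_neg, abs_mul, abs_mul t (u2 t + _), abs_of_pos ht.1,
        abs_of_pos (show 0 < t * b t by linarith)] at b3
      nlinarith [abs_nonneg (u1 t)]
    have a2 : |u1 0| ≤ 2 * (0 * |u2 0 + a ^ 2 * u 0|) := by
      have hcl : IsClosed {t : ℝ | |u1 t| ≤ 2 * (t * |u2 t + a ^ 2 * u t|)} :=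
        isClosed_le (by fun_prop) (by fun_prop)
      have : closure (Ioo 0 s) ⊆ _ := hcl.closure_subset_iff.mpr a1
      rw [closure_Ioo hs0.ne] at this
      exact this ⟨le_rfl, hs0.le⟩
    simpa using a2
  -- the energy is bounded
  have hE0 : ∀ t, 0 ≤ t → t ≤ s → a ^ 2 * u t ^ 2 + u1 t ^ 2 ≤ a ^ 2 := fun t ht hts => by
    have a1 := anti (f := fun t => a ^ 2 * u t ^ 2 + u1 t ^ 2)
      (f' := fun t => -(2 * b t * u1 t ^ 2)) ht (by fun_prop) (fun r hr => ?_) fun r hr => ?_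
    · have a2 : u 0 ^ 2 ≤ 1 := by rw [← sq_abs]; exact pow_le_one₀ (abs_nonneg _) hu
      simp only [h0] at a1
      nlinarith [sq_nonneg a]
    · have b1 := he r hr.1 (hsub r (hr.2.le.trans hts))
      refine ((((h1 r).pow 2).const_mul (a ^ 2)).add ((h2 r).pow 2)).congr_deriv ?_
      simp only [Nat.cast_ofNat, Nat.add_one_sub_one, pow_one]
      linear_combination (2 * u1 r) * b1
    · have b1 := hb2 r hr.1 (hsub r (hr.2.le.trans hts))
      have b2 : 0 < b r := (mul_pos_iff_of_pos_left hr.1).mp (by linarith)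
      have : 0 ≤ 2 * b r * u1 r ^ 2 := by positivity
      linarith
  -- the modified energy
  have hX : ∀ t, |u t * u1 t| * (2 * a) ≤ a ^ 2 * u t ^ 2 + u1 t ^ 2 := fun t => by
    rw [abs_mul, ← sq_abs (u t), ← sq_abs (u1 t)]
    nlinarith [sq_nonneg (a * |u t| - |u1 t|)]
  have hs1 : 1 / a ≤ s := by rw [div_le_iff₀ ha]; linarith
  have ha1 : 0 < 1 / a := by positivity
  have key := anti (a := 1 / a) (b := s)
    (f := fun t => (t * (a ^ 2 * u t ^ 2 + u1 t ^ 2) + u t * u1 t) *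
      Real.exp (m / a * t⁻¹ - (K * t) ^ 2))
    (f' := fun t => ((2 - 2 * (t * b t)) * u1 t ^ 2 - b t * (u t * u1 t) -
      (t * (a ^ 2 * u t ^ 2 + u1 t ^ 2) + u t * u1 t) * (m / a / t ^ 2 + 2 * K ^ 2 * t)) *
      Real.exp (m / a * t⁻¹ - (K * t) ^ 2)) hs1 ?_ (fun t ht => ?_) fun t ht => ?_
  · have a1 := hE0 (1 / a) ha1.le hs1
    have a2 := hX (1 / a)
    have a3 := hX s
    have a4 := le_abs_self (u (1 / a) * u1 (1 / a))
    have a5 := neg_abs_le (u s * u1 s)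
    set E1 := a ^ 2 * u (1 / a) ^ 2 + u1 (1 / a) ^ 2
    set E := a ^ 2 * u s ^ 2 + u1 s ^ 2 with hE
    have hE1 : 0 ≤ E := by positivity
    have b1 : 1 / a * E1 + u (1 / a) * u1 (1 / a) ≤ 3 / 2 * a := by
      have c1 : 1 / a * E1 ≤ a := by
        rw [one_div, inv_mul_le_iff₀ ha]; linarith
      have c2 : |u (1 / a) * u1 (1 / a)| ≤ a / 2 := by
        refine le_of_mul_le_mul_right ?_ (show 0 < 2 * a by positivity)
        linarith
      linarith
    have b2 : s * E / 2 ≤ s * E + u s * u1 s := by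
      have c1 : |u s * u1 s| ≤ s * E / 2 := by
        refine le_of_mul_le_mul_right ?_ (show 0 < 2 * a by positivity)
        nlinarith
      linarith
    have b3 : Real.exp (m / a * (1 / a)⁻¹ - (K * (1 / a)) ^ 2) ≤ Real.exp m := by
      refine Real.exp_le_exp.mpr ?_
      have : m / a * (1 / a)⁻¹ = m := by field_simp
      linarith [sq_nonneg (K * (1 / a))]
    have b4 : Real.exp (-1) ≤ Real.exp (m / a * s⁻¹ - (K * s) ^ 2) := by
      refine Real.exp_le_exp.mpr ?_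
      have c1 : (K * s) ^ 2 ≤ 1 := pow_le_one₀ (by positivity) hsK
      have c2 : 0 ≤ m / a * s⁻¹ := by positivity
      linarith
    have b5 : s * E / 2 * Real.exp (-1) ≤ 3 / 2 * a * Real.exp m := by
      calc _ ≤ (s * E + u s * u1 s) * Real.exp (m / a * s⁻¹ - (K * s) ^ 2) :=
            mul_le_mul b2 b4 (Real.exp_pos _).le (le_trans (by positivity) b2)
        _ ≤ _ := key
        _ ≤ 3 / 2 * a * Real.exp (m / a * (1 / a)⁻¹ - (K * (1 / a)) ^ 2) := by gcongr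
        _ ≤ _ := by gcongr
    have b6 : s * E ≤ 3 * a * Real.exp (m + 1) := by
      have c1 : Real.exp (-1) * Real.exp 1 = 1 := by rw [← Real.exp_add]; simp
      rw [Real.exp_add]
      calc s * E = 2 * (s * E / 2 * Real.exp (-1)) * Real.exp 1 := by
            linear_combination (-(s * E)) * c1
        _ ≤ 2 * (3 / 2 * a * Real.exp m) * Real.exp 1 := by gcongr
        _ = _ := by ring
    refine le_of_mul_le_mul_left ?_ ha
    nlinarith [mul_nonneg hs0.le (sq_nonneg (u1 s))]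
  · refine ContinuousOn.mul (by fun_prop) (Real.continuous_exp.comp_continuousOn
      (ContinuousOn.sub (continuousOn_const.mul (continuousOn_id.inv₀ fun t ht => ?_))
        (by fun_prop)))
    exact (ha1.trans_le ht.1).ne'
  · have ht0 : 0 < t := ha1.trans ht.1
    have b1 := he t ht0 (hsub t ht.2.le)
    have d1 := (((hasDerivAt_id t).mul ((((h1 t).pow 2).const_mul (a ^ 2)).add
      ((h2 t).pow 2))).add ((h1 t).mul (h2 t))).mul
      ((((hasDerivAt_inv ht0.ne').const_mul (m / a)).sub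
        (((hasDerivAt_id t).const_mul K).pow 2)).exp)
    refine d1.congr_deriv ?_
    have b2 : u2 t = -(b t * u1 t + a ^ 2 * u t) := by linarith
    simp only [id, Pi.add_apply, Pi.mul_apply, Pi.pow_apply, Pi.sub_apply, b2, Nat.cast_ofNat,
      Nat.add_one_sub_one, pow_one]
    field_simp
    ring
  · have ht0 : 0 < t := ha1.trans ht.1
    have hat : 1 ≤ a * t := by
      have := ht.1.le
      rw [div_le_iff₀ ha] at this; linarith
    obtain ⟨b1, b2⟩ := hb t ht0 (hsub t ht.2.le)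
    have b3 := hb2 t ht0 (hsub t ht.2.le)
    have b4 : 0 < b t := (mul_pos_iff_of_pos_left ht0).mp (by linarith)
    refine mul_nonpos_of_nonpos_of_nonneg ?_ (Real.exp_pos _).le
    have a3 := hX t
    have a5 := neg_abs_le (u t * u1 t)
    set E := a ^ 2 * u t ^ 2 + u1 t ^ 2 with hE
    have hE1 : 0 ≤ E := by positivity
    have c1 : |u t * u1 t| ≤ t * E / 2 := by
      refine le_of_mul_le_mul_right ?_ (show 0 < 2 * a by positivity)
      nlinarith
    have c2 : t * E / 2 * (m / a / t ^ 2 + 2 * K ^ 2 * t) ≤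
        (t * E + u t * u1 t) * (m / a / t ^ 2 + 2 * K ^ 2 * t) := by
      gcongr; linarith
    have c3 : (2 - 2 * (t * b t)) * u1 t ^ 2 ≤ (K * t) ^ 2 * E := by
      have : u1 t ^ 2 ≤ E := by rw [hE]; nlinarith [sq_nonneg (a * u t)]
      calc _ ≤ (K * t) ^ 2 * u1 t ^ 2 := by gcongr; linarith
        _ ≤ _ := by gcongr
    have c4 : -(b t * (u t * u1 t)) ≤ m / t * (E / (2 * a)) := by
      have e1 : b t ≤ m / t := by rw [le_div_iff₀ ht0]; linarith
      have e2 : |u t * u1 t| ≤ E / (2 * a) := by rw [le_div_iff₀ (by positivity)]; exact a3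
      calc _ ≤ b t * |u t * u1 t| := by nlinarith
        _ ≤ _ := by gcongr
    have c5 : t * E / 2 * (m / a / t ^ 2 + 2 * K ^ 2 * t) =
        m / t * (E / (2 * a)) + (K * t) ^ 2 * E := by field_simp
    linarith

theorem real_bound {K m l : ℝ} (hK : 0 < K) (hm : 0 ≤ m) (hl : 0 ≤ l) {u u1 u2 b : ℝ → ℝ}
    (h1 : ∀ s, HasDerivAt u (u1 s) s) (h2 : ∀ s, HasDerivAt u1 (u2 s) s) (hc : Continuous u2)
    (hu : ∀ s, |u s| ≤ 1)
    (hb : ∀ s, 0 < s → K * s ≤ 1 → 1 - (K * s) ^ 2 / 2 ≤ s * b s ∧ s * b s ≤ m)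
    (he : ∀ s, 0 < s → K * s ≤ 1 → u2 s + b s * u1 s + l * u s = 0)
    {s : ℝ} (hs : 0 ≤ s) (hsK : K * s ≤ 1) :
    |u s| ≤ 6 * Real.exp (m + 1) * (1 + l * s ^ 2) ^ (-(1 / 4) : ℝ) := by
  set A := 3 * Real.exp (m + 1) with hA
  have hA1 : 1 ≤ A := by have := Real.add_one_le_exp (m + 1); linarith
  have hp : 0 < 1 + l * s ^ 2 := by positivity
  have k1 : |u s| ^ 4 * (1 + l * s ^ 2) ≤ 2 * A ^ 2 := by
    have e1 : l * s ^ 2 = (√l * s) ^ 2 := by rw [mul_pow, Real.sq_sqrt hl]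
    rw [e1]
    rcases le_total (√l * s) 1 with h | h
    · have a1 : |u s| ^ 4 ≤ 1 := pow_le_one₀ (abs_nonneg _) (hu s)
      have a2 : (√l * s) ^ 2 ≤ 1 := pow_le_one₀ (by positivity) h
      calc |u s| ^ 4 * (1 + (√l * s) ^ 2) ≤ 1 * (1 + 1) := by gcongr
        _ ≤ 2 * A ^ 2 := by nlinarith
    · have ha : 0 < √l := by
        rcases (Real.sqrt_nonneg l).eq_or_lt with h0 | h0
        · rw [← h0] at h; linarith
        · exact h0
      have a1 := real_case hK hm ha h1 h2 hc (hu 0) hb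
        (fun s h3 h4 => by rw [Real.sq_sqrt hl]; exact he s h3 h4) h hsK
      have a2 : (u s ^ 2 * (√l * s)) ^ 2 ≤ A ^ 2 := pow_le_pow_left₀ (by positivity) a1 2
      have a3 : 1 ≤ (√l * s) ^ 2 := one_le_pow₀ h
      calc _ ≤ |u s| ^ 4 * (2 * (√l * s) ^ 2) := by gcongr; linarith
        _ = 2 * (u s ^ 2 * (√l * s)) ^ 2 := by rw [← sq_abs (u s)]; ring
        _ ≤ _ := by gcongr
  have k2 : ((1 + l * s ^ 2) ^ (-(1 / 4) : ℝ)) ^ 4 = (1 + l * s ^ 2)⁻¹ := by
    rw [← Real.rpow_mul_natCast hp.le, ← Real.rpow_neg_one]; norm_num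
  refine le_of_pow_le_pow_left₀ (n := 4) (by norm_num) (by positivity) ?_
  rw [mul_pow, k2, ← div_eq_mul_inv, le_div_iff₀ hp]
  have k3 : A ^ 2 ≤ A ^ 4 := pow_le_pow_right₀ hA1 (by norm_num)
  have k4 : (6 * Real.exp (m + 1)) ^ 4 = 16 * A ^ 4 := by rw [hA]; ring
  nlinarith [pow_pos (show 0 < A by linarith) 4]

end Ode

open Ode

theorem ode_stmt : OdeStmt := by
  intro C0 m hm
  have hK : 0 < |C0| + 1 := by positivity
  refine ⟨1 / (|C0| + 1), 12 * Real.exp (m + 1), by positivity,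
    fun c hc l hl u u1 u2 h1 h2 h3 hu he s hs hs0 => ?_⟩
  set K := |C0| + 1 with hKd
  set b : ℝ → ℝ := fun s => ∑ i, c i * Real.cos (c i * s) / Real.sin (c i * s) with hbd
  have hx : ∀ s, 0 < s → K * s ≤ 1 → ∀ i, c i * s ≠ 0 ∧ |c i * s| ≤ K * s := fun s h0 _ i => by
    refine ⟨mul_ne_zero (hc i).1 h0.ne', ?_⟩
    rw [abs_mul, abs_of_pos h0]
    gcongr
    linarith [(hc i).2, le_abs_self C0]
  have hb : ∀ s, 0 < s → K * s ≤ 1 → 1 - (K * s) ^ 2 / 2 ≤ s * b s ∧ s * b s ≤ (m : ℝ) := by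
    intro s h0 hsK
    have e : s * b s = ∑ i, c i * s * Real.cos (c i * s) / Real.sin (c i * s) := by
      rw [hbd, Finset.mul_sum]
      exact Finset.sum_congr rfl fun i _ => by ring
    have a1 : ∀ i, 1 - (K * s) ^ 2 / 2 ≤ c i * s * Real.cos (c i * s) / Real.sin (c i * s) ∧
        c i * s * Real.cos (c i * s) / Real.sin (c i * s) ≤ 1 := fun i => by
      obtain ⟨b1, b2⟩ := hx s h0 hsK i
      obtain ⟨-, b3, b4⟩ := xcot b1 (b2.trans hsK)
      have b5 : (c i * s) ^ 2 ≤ (K * s) ^ 2 := by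
        rw [← sq_abs (c i * s)]; exact pow_le_pow_left₀ (abs_nonneg _) b2 2
      exact ⟨by linarith, b4⟩
    have a2 : (K * s) ^ 2 ≤ 1 := pow_le_one₀ (by positivity) hsK
    rw [e]
    constructor
    · refine (a1 ⟨0, hm⟩).1.trans (Finset.single_le_sum (f := fun i =>
        c i * s * Real.cos (c i * s) / Real.sin (c i * s)) (fun i _ => ?_) (Finset.mem_univ _))
      linarith [(a1 i).1]
    · simpa using Finset.sum_le_card_nsmul Finset.univ _ 1 fun i _ => (a1 i).2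
  have he' : ∀ s, 0 < s → K * s ≤ 1 → u2 s + (b s : ℂ) * u1 s + l * u s = 0 := fun s h0 hsK =>
    he s fun i => (xcot (hx s h0 hsK i).1 ((hx s h0 hsK i).2.trans hsK)).1
  have hsK : K * s ≤ 1 := by rw [le_div_iff₀ hK] at hs0; linarith
  have r1 := real_bound (u := fun s => (u s).re) (u1 := fun s => (u1 s).re)
    (u2 := fun s => (u2 s).re) hK (Nat.cast_nonneg m) hl
    (fun s => Complex.reCLM.hasFDerivAt.comp_hasDerivAt s (h1 s))
    (fun s => Complex.reCLM.hasFDerivAt.comp_hasDerivAt s (h2 s))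
    (Complex.continuous_re.comp h3) (fun s => (Complex.abs_re_le_norm _).trans (hu s)) hb
    (fun s h0 hsK => by simpa using congrArg Complex.re (he' s h0 hsK)) hs hsK
  have r2 := real_bound (u := fun s => (u s).im) (u1 := fun s => (u1 s).im)
    (u2 := fun s => (u2 s).im) hK (Nat.cast_nonneg m) hl
    (fun s => Complex.imCLM.hasFDerivAt.comp_hasDerivAt s (h1 s))
    (fun s => Complex.imCLM.hasFDerivAt.comp_hasDerivAt s (h2 s))
    (Complex.continuous_im.comp h3) (fun s => (Complex.abs_im_le_norm _).trans (hu s)) hb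
    (fun s h0 hsK => by simpa using congrArg Complex.im (he' s h0 hsK)) hs hsK
  have r3 := Complex.norm_le_abs_re_add_abs_im (u s)
  linarith

end Pool.Agent.MP_ba99b7_an

end MrgPart4

-- ======== part 5: formerly Pool.Agent.MP_ba99b7_an.Hw
section MrgPart5

/-! PROJECT STRI, module HW: the spherical representations. -/

set_option linter.unusedSectionVars false

namespace Pool.Agent.MP_ba99b7_an

open scoped ComplexConjugate RealInnerProductSpace
open MeasureTheory Module Submodule Complex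

namespace Hw

variable {V : Type} [NormedAddCommGroup V] [InnerProductSpace ℝ V] [FiniteDimensional ℝ V]
  {G : Type} [Group G] [TopologicalSpace G] [MeasurableSpace G] [TG G] {S : Sym V G} {r : ℕ}
  {R : Roots S r} {lam : V} {F : G → ℂ} (μ : Measure G) [BiH μ]

/-- the zonal function -/
noncomputable def zon (S : Sym V G) (F : G → ℂ) (x : G) : ℂ := ∫ k, F (x * k) ∂S.ν

theorem zon_mem (hF : IsRep F) : zon S F ∈ orb F := by
  have := S.ν_prob
  have h := hF.avgR_mem S.ν (h := fun _ => 1) continuous_const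
  simp only [one_mul] at h
  exact h

theorem zon_right (hF : IsRep F) {k : G} (hk : k ∈ S.K) (x : G) : zon S F (x * k) = zon S F x := by
  unfold zon
  conv_rhs => rw [← S.ν_left k hk]
  rw [integral_map (f := fun y => F (x * y)) (measurable_const_mul k).aemeasurable
    (hF.1.comp (continuous_const_mul x)).aestronglyMeasurable]
  simp only [mul_assoc]

theorem zon_one (hL : S.LInv F) (h1 : F 1 = 1) : zon S F 1 = 1 := by
  have := S.ν_prob
  have h : (fun k => F (1 * k)) =ᵐ[S.ν] fun _ => 1 := S.ν_K.mono fun k hk => by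
    have := hL k hk 1
    rw [mul_one, h1] at this
    simpa using this
  rw [zon, integral_congr_ae h]
  simp

theorem ext_ip (hF : IsRep F) {v w : G → ℂ} (hv : v ∈ orb F) (hw : w ∈ orb F)
    (h : ∀ u ∈ orb F, ip μ u v = ip μ u w) : v = w := by
  have hm := sub_mem hv hw
  refine sub_eq_zero.mp (eq_zero_of_ip_self μ (hF.of_orb hm).1 ?_)
  rw [ip_sub_right μ (hF.of_orb hm).1 (hF.of_orb hv).1 (hF.of_orb hw).1, h _ hm, sub_self]

include μ in
theorem fixed_eq [ConnectedSpace G] (hF : R.IsHW lam F) {v : G → ℂ} (hv : v ∈ orb F)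
    (hR : ∀ k ∈ S.K, ∀ x, v (x * k) = v x) : v = v 1 • zon S F := by
  have hr : IsRep F := hF.1.1
  have h0 : ∀ w ∈ orb F, (∀ k ∈ S.K, ∀ x, w (x * k) = w x) → ip μ F w = 0 → w = 0 := by
    intro w hw hwR hw0
    have rw' := hr.of_orb hw
    have h := gen_k hF.1 (U := perp μ rw'.1) ⟨hr.1, ip_symm0 μ hw0⟩ fun u _ hu Y hY =>
      ⟨(Sym.isRep_D (hr.of_orb hu) Y).1, by
        have := Sym.ip_D (S := S) μ rw' (hr.of_orb hu) Y
        rw [Sym.D_eq_zero_of_right hwR hY, ip_zero_left] at this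
        exact neg_eq_zero.mp this.symm⟩
    exact eq_zero_of_ip_self μ rw'.1 (h hw).2
  have hz := zon_mem (S := S) hr
  have h1 := zon_one hF.2.1 hF.2.2
  have h2 : ip μ F (zon S F) ≠ 0 := fun h => by
    simp [h0 _ hz (fun k hk x => zon_right hr hk x) h] at h1
  have h3 := h0 (v - (ip μ F v / ip μ F (zon S F)) • zon S F) (sub_mem hv (smul_mem _ _ hz))
    (fun k hk x => by simp only [Pi.sub_apply, Pi.smul_apply, hR k hk x, zon_right hr hk x])
    (by rw [ip_sub_right μ hr.1 (hr.of_orb hv).1 (hr.of_orb (smul_mem _ _ hz)).1, ip_smul_right,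
      div_mul_cancel₀ _ h2, sub_self])
  have h4 := sub_eq_zero.mp h3
  have h5 := congrFun h4 1
  simp only [Pi.smul_apply, h1, smul_eq_mul, mul_one] at h5
  rw [h5]
  exact h4

section bas
variable {k : ℕ} {b : Fin k → G → ℂ}

theorem bas_mem (h1 : span ℂ (Set.range b) = orb F) (s : Fin k) : b s ∈ orb F :=
  h1 ▸ subset_span ⟨s, rfl⟩

/-- the orthogonal projection -/
noncomputable def pr (b : Fin k → G → ℂ) (f : G → ℂ) : G → ℂ := ∑ i, ip μ (b i) f • b i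

theorem pr_mem (h1 : span ℂ (Set.range b) = orb F) (f : G → ℂ) : pr μ b f ∈ orb F :=
  sum_mem fun i _ => smul_mem _ _ (bas_mem h1 i)

theorem pr_sub (hF : IsRep F) (h1 : span ℂ (Set.range b) = orb F) {f g : G → ℂ}
    (hf : Continuous f) (hg : Continuous g) : pr μ b (f - g) = pr μ b f - pr μ b g := by
  simp only [pr, ← Finset.sum_sub_distrib, ← sub_smul]
  exact Finset.sum_congr rfl fun i _ => by
    rw [ip_sub_right μ (hF.of_orb (bas_mem h1 i)).1 hf hg]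

theorem pr_zero (h1 : span ℂ (Set.range b) = orb F) {f : G → ℂ}
    (h : ∀ u ∈ orb F, ip μ u f = 0) : pr μ b f = 0 :=
  Finset.sum_eq_zero fun i _ => by rw [h _ (bas_mem h1 i), zero_smul]

theorem ip_pr (hF : IsRep F) (h1 : span ℂ (Set.range b) = orb F)
    (h2 : ∀ s s', ip μ (b s) (b s') = if s = s' then 1 else 0) {f : G → ℂ} (hf : Continuous f)
    {u : G → ℂ} (hu : u ∈ orb F) : ip μ u (pr μ b f) = ip μ u f := by
  have hb : ∀ i, Continuous (b i) := fun i => (hF.of_orb (bas_mem h1 i)).1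
  conv_rhs => rw [eq_sum_ip μ hb h2 (v := u) (h1 ▸ hu)]
  rw [pr, ip_sum_right μ _ (hF.of_orb hu).1 fun i _ => (hb i).const_smul _,
    ip_sum_left μ _ hf fun i _ => (hb i).const_smul _]
  refine Finset.sum_congr rfl fun i _ => ?_
  rw [ip_smul_right, ip_smul_left, ip_conj, mul_comm]

/-- the reproducing kernel -/
noncomputable def ker (b : Fin k → G → ℂ) (y : G) : G → ℂ := ∑ i, conj (b i y) • b i

theorem ker_mem (h1 : span ℂ (Set.range b) = orb F) (y : G) : ker b y ∈ orb F :=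
  sum_mem fun i _ => smul_mem _ _ (bas_mem h1 i)

theorem ip_ker (hF : IsRep F) (h1 : span ℂ (Set.range b) = orb F)
    (h2 : ∀ s s', ip μ (b s) (b s') = if s = s' then 1 else 0) (y : G) {v : G → ℂ}
    (hv : v ∈ orb F) : ip μ (ker b y) v = v y := by
  have hb : ∀ i, Continuous (b i) := fun i => (hF.of_orb (bas_mem h1 i)).1
  conv_rhs => rw [eq_sum_ip μ hb h2 (v := v) (h1 ▸ hv)]
  rw [ker, ip_sum_left μ _ (hF.of_orb hv).1 fun i _ => (hb i).const_smul _, Finset.sum_apply]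
  refine Finset.sum_congr rfl fun i _ => ?_
  rw [ip_smul_left, conj_conj, Pi.smul_apply, smul_eq_mul, mul_comm]

theorem ker_eq (hF : IsRep F) (h1 : span ℂ (Set.range b) = orb F)
    (h2 : ∀ s s', ip μ (b s) (b s') = if s = s' then 1 else 0) (y : G) :
    ker b y = Rt y⁻¹ (ker b 1) := by
  refine ext_ip μ hF (ker_mem h1 y) (Rt_mem_orb (ker_mem h1 1) _) fun u hu => ?_
  rw [← ip_conj, ip_ker μ hF h1 h2 y hu, ← ip_conj, ip_Rt_left, inv_inv,
    ip_ker μ hF h1 h2 1 (Rt_mem_orb hu y), Rt, one_mul]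

theorem ker_one [ConnectedSpace G] (hF : R.IsHW lam F) (h1 : span ℂ (Set.range b) = orb F)
    (h2 : ∀ s s', ip μ (b s) (b s') = if s = s' then 1 else 0) :
    ker b 1 = (k : ℂ) • zon S F := by
  have hr : IsRep F := hF.1.1
  have hb : ∀ i, Continuous (b i) := fun i => (hr.of_orb (bas_mem h1 i)).1
  have a1 : ∀ y, ∑ i, conj (b i y) * b i y = ker b 1 1 := fun y => by
    have := congrFun (ker_eq μ hr h1 h2 y) y
    rw [Rt, mul_inv_cancel] at this
    rw [← this, ker, Finset.sum_apply]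
    rfl
  have a2 : ker b 1 1 = k := by
    have : ∫ y, ∑ i, conj (b i y) * b i y ∂μ = ∑ i, ip μ (b i) (b i) :=
      integral_finsetSum _ fun i _ => cont_int μ ((continuous_conj.comp (hb i)).mul (hb i))
    simp only [a1, h2] at this
    simpa using this
  rw [← a2]
  refine fixed_eq μ hF (ker_mem h1 1) fun g hg x => ?_
  have a3 : ker b g⁻¹ = ker b 1 := Finset.sum_congr rfl fun i _ => by
    have := linv_orb hF.2.1 (bas_mem h1 i) g⁻¹ (S.K.inv_mem hg) 1
    rw [mul_one] at this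
    rw [this]
  have a4 := congrFun (ker_eq μ hr h1 h2 g⁻¹) x
  rw [inv_inv, a3] at a4
  exact a4.symm

theorem repr_eq [ConnectedSpace G] (hF : R.IsHW lam F) (h1 : span ℂ (Set.range b) = orb F)
    (h2 : ∀ s s', ip μ (b s) (b s') = if s = s' then 1 else 0) (x y : G) :
    ∑ i, b i x * conj (b i y) = k * zon S F (x * y⁻¹) := by
  have := congrFun (ker_eq μ hF.1.1 h1 h2 y) x
  rw [ker_one μ hF h1 h2, ker, Finset.sum_apply] at this
  simpa [Rt, mul_comm] using this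

theorem pr_fixed [ConnectedSpace G] (hF : R.IsHW lam F) (h1 : span ℂ (Set.range b) = orb F)
    (h2 : ∀ s s', ip μ (b s) (b s') = if s = s' then 1 else 0) {f : G → ℂ} (hf : Continuous f)
    (hR : ∀ k ∈ S.K, ∀ x, f (x * k) = f x) :
    pr μ b f = ((k : ℂ) * ip μ (zon S F) f) • zon S F := by
  have hr : IsRep F := hF.1.1
  have a1 : pr μ b f 1 = k * ip μ (zon S F) f := by
    rw [← ip_ker μ hr h1 h2 1 (pr_mem μ h1 f), ip_pr μ hr h1 h2 hf (ker_mem h1 1),
      ker_one μ hF h1 h2, ip_smul_left, conj_natCast]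
  rw [← a1]
  refine fixed_eq μ hF (pr_mem μ h1 f) fun g hg x => ?_
  refine congrFun (ext_ip μ hr (Rt_mem_orb (pr_mem μ h1 f) g) (pr_mem μ h1 f) fun u hu => ?_) x
  have e : Rt g f = f := funext fun x => hR g hg x
  have a2 := ip_Rt_left μ g⁻¹ u (pr μ b f)
  have a3 := ip_Rt_left μ g⁻¹ u f
  rw [inv_inv] at a2 a3
  rw [← a2, ip_pr μ hr h1 h2 hf (Rt_mem_orb hu _), a3, e, ip_pr μ hr h1 h2 hf hu]

end bas

/-- complete reducibility -/
theorem expand_aux {ι : Type} (Λ : Set ι) (F : ι → G → ℂ) (k : ι → ℕ)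
    (b : ∀ n, Fin (k n) → G → ℂ) (hF : ∀ n, IsRep (F n)) (h0 : ∀ n ∈ Λ, F n ≠ 0)
    (h1 : ∀ n, span ℂ (Set.range (b n)) = orb (F n))
    (h2 : ∀ n s s', ip μ (b n s) (b n s') = if s = s' then 1 else 0)
    (ho : ∀ n ∈ Λ, ∀ n' ∈ Λ, n ≠ n' → ∀ u ∈ orb (F n), ∀ u' ∈ orb (F n'), ip μ u u' = 0)
    (hex : ∀ W : Submodule ℂ (G → ℂ), FiniteDimensional ℂ W → (∀ h, ∀ v ∈ W, Rt h v ∈ W) →
      (∀ v ∈ W, Continuous v) → (∀ v ∈ W, S.LInv v) → W ≠ ⊥ → ∃ n ∈ Λ, F n ∈ W)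
    (d : ℕ) : ∀ W : Submodule ℂ (G → ℂ), FiniteDimensional ℂ W → finrank ℂ W = d →
      (∀ h, ∀ v ∈ W, Rt h v ∈ W) → (∀ v ∈ W, Continuous v) → (∀ v ∈ W, S.LInv v) →
      ∃ T : Finset ι, ↑T ⊆ Λ ∧ ∀ f ∈ W, f = ∑ n ∈ T, pr μ (b n) f := by
  classical
  induction d using Nat.strong_induction_on with
  | _ d ih =>
  intro W hfin hd hW hc hL
  rcases eq_or_ne W ⊥ with rfl | hne
  · exact ⟨∅, by simp, fun f hf => by simpa using hf⟩
  obtain ⟨n, hn, hFn⟩ := hex W hfin hW hc hL hne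
  have hle := orb_le hW hFn
  let W' : Submodule ℂ (G → ℂ) :=
    { carrier := {v | v ∈ W ∧ ∀ u ∈ orb (F n), ip μ u v = 0}
      add_mem' := fun {a c} ha hc' => ⟨add_mem ha.1 hc'.1, fun u hu => by
        rw [ip_add_right μ ((hF n).of_orb hu).1 (hc _ ha.1) (hc _ hc'.1), ha.2 u hu, hc'.2 u hu,
          add_zero]⟩
      zero_mem' := ⟨zero_mem _, fun u _ => ip_zero_right μ u⟩
      smul_mem' := fun a v hv => ⟨smul_mem _ _ hv.1, fun u hu => by
        rw [ip_smul_right, hv.2 u hu, mul_zero]⟩ }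
  have hW' : W' ≤ W := fun v hv => hv.1
  have hlt : W' < W := lt_of_le_of_ne hW' fun h => by
    have : F n ∈ W' := h ▸ hFn
    exact ip_ne μ (hF n).1 (h0 n hn) (this.2 _ (mem_orb _))
  obtain ⟨T, hT, hT'⟩ := ih _ (hd ▸ finrank_lt_finrank_of_lt hlt) W'
    (finiteDimensional_of_le hW') rfl (fun h v hv => ⟨hW h v hv.1, fun u hu => by
      have := ip_Rt_left μ h⁻¹ u v
      rw [inv_inv] at this
      rw [← this]
      exact hv.2 _ (Rt_mem_orb hu _)⟩) (fun v hv => hc v hv.1) fun v hv => hL v hv.1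
  refine ⟨insert n (T.erase n), ?_, fun f hf => ?_⟩
  · intro m hm
    rcases Finset.mem_insert.mp hm with rfl | hm
    · exact hn
    · exact hT (Finset.mem_of_mem_erase hm)
  have hp := pr_mem μ (h1 n) f
  have hf' : f - pr μ (b n) f ∈ W' := ⟨sub_mem hf (hle hp), fun u hu => by
    rw [ip_sub_right μ ((hF n).of_orb hu).1 (hc f hf) (hc _ (hle hp)),
      ip_pr μ (hF n) (h1 n) (h2 n) (hc f hf) hu, sub_self]⟩
  have e1 := hT' _ hf'
  rw [← Finset.sum_erase T (a := n) (pr_zero μ (h1 n) hf'.2)] at e1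
  have e2 : ∑ m ∈ T.erase n, pr μ (b m) (f - pr μ (b n) f) = ∑ m ∈ T.erase n, pr μ (b m) f :=
    Finset.sum_congr rfl fun m hm => by
      rw [pr_sub μ (hF m) (h1 m) (hc f hf) (hc _ (hle hp)), pr_zero μ (h1 m) fun u hu =>
        ho m (hT (Finset.mem_of_mem_erase hm)) n hn (Finset.ne_of_mem_erase hm) u hu _ hp,
        sub_zero]
  rw [Finset.sum_insert (Finset.notMem_erase n T), ← e2, ← e1, add_sub_cancel]

end Hw

open Hw

theorem hw_stmt : HwStmt := by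
  intro V _ _ _ G _ _ _ _ _ μ _ S r R
  classical
  let Λ : Set (Fin r → ℕ) := {n | ∃ F, R.IsHW (R.wt n) F}
  obtain ⟨F, hF, hr⟩ : ∃ F : (Fin r → ℕ) → G → ℂ, (∀ n ∈ Λ, R.IsHW (R.wt n) (F n)) ∧
      ∀ n, IsRep (F n) := by
    refine ⟨fun n => if h : n ∈ Λ then h.choose else 0, fun n hn => ?_, fun n => ?_⟩
    · simp only [dif_pos hn]; exact hn.choose_spec
    · by_cases h : n ∈ Λ
      · simp only [dif_pos h]; exact h.choose_spec.1.1
      · simp only [dif_neg h]; exact isRep_zero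
  choose k b ev h1 h2 h3 using fun n => exists_bas (R := R) μ (hr n)
  have huniq : ∀ lam ∈ R.a, ∀ F', R.IsHW lam F' → ∃ n ∈ Λ, lam = R.wt n ∧ F' = F n := by
    intro lam hl F' hF'
    obtain ⟨n, rfl⟩ := integral_wt hF'.1 (hw_ne hF') hl
    exact ⟨n, ⟨F', hF'⟩, rfl, hw_uniq hF' (hF n ⟨F', hF'⟩)⟩
  have ho : ∀ n ∈ Λ, ∀ n' ∈ Λ, n ≠ n' → ∀ u ∈ orb (F n), ∀ u' ∈ orb (F n'), ip μ u u' = 0 :=
    fun n hn n' hn' hne u hu u' hu' => orth_orb μ (hF n hn) (hF n' hn') (R.wt_mem n) (R.wt_mem n')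
      (fun h => hne (R.wt_inj h)) hu hu'
  have hexp : ∀ f, IsRep f → S.LInv f → ∃ T : Finset (Fin r → ℕ), ↑T ⊆ Λ ∧
      f = ∑ n ∈ T, pr μ (b n) f := fun f hf hL => by
    obtain ⟨T, hT, hT'⟩ := expand_aux (S := S) μ Λ F k b hr (fun n hn => hw_ne (hF n hn)) h1 h2 ho
      (fun W _ a1 a2 a3 a4 => by
        obtain ⟨lam, hl, F', hF', hw⟩ := exists_hw μ R W a1 a2 a3 a4
        obtain ⟨n, hn, -, rfl⟩ := huniq lam hl F' hw
        exact ⟨n, hn, hF'⟩)
      _ (orb f) (fin_orb hf) rfl (fun h v hv => Rt_mem_orb hv h) (fun v hv => (hf.of_orb hv).1)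
      fun v hv => linv_orb hL hv
    exact ⟨T, hT, hT' f (mem_orb f)⟩
  exact ⟨{
    Λ := Λ
    dim := k
    bas := b
    φ := fun n => zon S (F n)
    bas_cont := fun n _ i => ((hr n).of_orb (bas_mem (h1 n) i)).1
    φ_cont := fun n _ => ((hr n).of_orb (zon_mem (hr n))).1
    dim_pos := fun n hn => (top μ (hF n hn) (h1 n) (h2 n) (h3 n)).choose.pos
    φ_one := fun n hn => zon_one (hF n hn).2.1 (hF n hn).2.2
    orth_same := fun n _ => h2 n
    orth_ne := fun n hn n' hn' hne i i' =>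
      ho n hn n' hn' hne _ (bas_mem (h1 n) i) _ (bas_mem (h1 n') i')
    repr := fun n hn => repr_eq μ (hF n hn) (h1 n) (h2 n)
    F := F
    ev := ev
    hw := hF
    uniq := huniq
    FM := fun n hn => FM (hF n hn)
    bas_rep := fun n _ i => (hr n).of_orb (bas_mem (h1 n) i)
    bas_inv := fun n hn i => linv_orb (hF n hn).2.1 (bas_mem (h1 n) i)
    span_eq := fun n _ => h1 n
    lower := fun n hn U hU hN => by
      rw [h1 n] at hN ⊢
      exact (hF n hn).1.lower (FM (hF n hn)) hU hN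
    eig := fun n _ => h3 n
    top := fun n hn => top μ (hF n hn) (h1 n) (h2 n) (h3 n)
    φ_eq := fun _ _ _ => rfl
    φ_mem := fun n _ => by rw [h1 n]; exact zon_mem (hr n)
    φ_right := fun n _ g hg x => zon_right (hr n) hg x
    expand := hexp
    expand_bi := fun f hf hL hR => by
      obtain ⟨T, hT, e⟩ := hexp f hf hL
      refine ⟨T, hT, e.trans (Finset.sum_congr rfl fun n hn => ?_)⟩
      exact pr_fixed μ (hF n (hT hn)) (h1 n) (h2 n) hf.1 hR
    casimir := fun n hn v hv x => casimir (hF n hn) (R.wt_mem n) (h1 n ▸ hv) x }⟩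

end Pool.Agent.MP_ba99b7_an

end MrgPart5

-- ======== part 6: formerly Pool.Agent.MP_ba99b7_an.SphA
section MrgPart6

/-! PROJECT STRI, module SPH, part A: elementary facts on the spherical data. -/

set_option linter.unusedSectionVars false

namespace Pool.Agent.MP_ba99b7_an.SphM

open scoped ComplexConjugate RealInnerProductSpace Topology
open MeasureTheory Module Submodule

theorem rpow_cmp {u v L p : ℝ} (hu : 0 < u) (hv : 0 < v) (hL : 1 ≤ L) (h : u ≤ L * v)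
    (hp0 : 0 ≤ p) (hp1 : p ≤ 1) : v ^ (-p) ≤ L * u ^ (-p) := by
  have h1 : u ^ p ≤ L * v ^ p := by
    calc u ^ p ≤ (L * v) ^ p := Real.rpow_le_rpow hu.le h hp0
      _ = L ^ p * v ^ p := Real.mul_rpow (by linarith) hv.le
      _ ≤ L * v ^ p := by
        have : L ^ p ≤ L ^ (1 : ℝ) := Real.rpow_le_rpow_of_exponent_le hL hp1
        rw [Real.rpow_one] at this
        exact mul_le_mul_of_nonneg_right this (Real.rpow_nonneg hv.le _)
  have hup : 0 < u ^ p := Real.rpow_pos_of_pos hu p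
  have hvp : 0 < v ^ p := Real.rpow_pos_of_pos hv p
  rw [Real.rpow_neg hu.le, Real.rpow_neg hv.le, ← div_eq_mul_inv, le_div_iff₀ hup,
    inv_mul_le_iff₀ hvp]
  linarith

theorem exists_pos_le {ι : Type} [Fintype ι] (c : ι → ℝ) (hc : ∀ i, 0 < c i) :
    ∃ c0 : ℝ, 0 < c0 ∧ ∀ i, c0 ≤ c i := by
  rcases isEmpty_or_nonempty ι with h | h
  · exact ⟨1, one_pos, fun i => h.elim i⟩
  · obtain ⟨i, hi⟩ := Finite.exists_min c
    exact ⟨c i, hc i, hi⟩

variable {V : Type} [NormedAddCommGroup V] [InnerProductSpace ℝ V] [FiniteDimensional ℝ V]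
  {G : Type} [Group G] [TopologicalSpace G] [MeasurableSpace G] [TG G]
  {μ : Measure G} [BiH μ] {S : Sym V G} {r : ℕ} {R : Roots S r}

theorem cont_sum {ι : Type} (s : Finset ι) {f : ι → G → ℂ} (hf : ∀ i ∈ s, Continuous (f i)) :
    Continuous (∑ i ∈ s, f i) :=
  (continuous_finsetSum s hf).congr fun x => (Finset.sum_apply x s f).symm

/-! ### The quadratic form -/

theorem A_symm (R : Roots S r) : R.A.IsSymm := by
  ext i j
  have h : ((R.A j i : ℤ) : ℝ) = R.A i j := by rw [R.hA, R.hA, real_inner_comm]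
  rw [Matrix.transpose_apply]
  exact_mod_cast h

theorem A_form (R : Roots S r) (v : Fin r → ℝ) :
    ∑ i, ∑ j, (R.A i j : ℝ) * v i * v j = R.Dn * ‖∑ j, v j • R.w j‖ ^ 2 := by
  rw [← real_inner_self_eq_norm_sq, sum_inner, Finset.mul_sum]
  refine Finset.sum_congr rfl fun i _ => ?_
  rw [inner_sum, Finset.mul_sum]
  refine Finset.sum_congr rfl fun j _ => ?_
  rw [R.hA, real_inner_smul_left, real_inner_smul_right]
  ring

theorem A_pos (R : Roots S r) (v : Fin r → ℝ) (hv : v ≠ 0) :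
    0 < ∑ i, ∑ j, (R.A i j : ℝ) * v i * v j := by
  rw [A_form]
  have h : ∑ j, v j • R.w j ≠ 0 := fun h => hv (R.w_indep h)
  have h1 : (0 : ℝ) < R.Dn := by exact_mod_cast R.Dn_pos
  have h2 : 0 < ‖∑ j, v j • R.w j‖ := norm_pos_iff.2 h
  positivity

theorem w_al_nonneg (R : Roots S r) (j : Fin r) : 0 ≤ ⟪R.w j, ∑ i, R.al i⟫ := by
  rw [inner_sum]
  exact Finset.sum_nonneg fun i _ => by rw [real_inner_comm]; exact R.al_w_nonneg i j

theorem bv_nonneg (R : Roots S r) (j : Fin r) : 0 ≤ R.bv j := by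
  have h : (0 : ℝ) ≤ (R.bv j : ℝ) := by
    rw [R.hbv]
    exact mul_nonneg (Nat.cast_nonneg _) (w_al_nonneg R j)
  exact_mod_cast h

theorem wt_al (R : Roots S r) (n : Fin r → ℕ) :
    ⟪R.wt n, ∑ i, R.al i⟫ = ∑ j, (n j : ℝ) * ⟪R.w j, ∑ i, R.al i⟫ := by
  rw [Roots.wt, sum_inner]
  exact Finset.sum_congr rfl fun j _ => real_inner_smul_left _ _ _

theorem wt_al_nonneg (R : Roots S r) (n : Fin r → ℕ) : 0 ≤ ⟪R.wt n, ∑ i, R.al i⟫ := by
  rw [wt_al]
  exact Finset.sum_nonneg fun j _ => mul_nonneg (Nat.cast_nonneg _) (w_al_nonneg R j)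

theorem P_eq (R : Roots S r) (n : Fin r → ℕ) :
    ((qf R.A n + ∑ j, R.bv j * n j : ℤ) : ℝ) = R.Dn * (‖R.wt n‖ ^ 2 + ⟪R.wt n, ∑ i, R.al i⟫) := by
  have h := A_form R fun j => (n j : ℝ)
  rw [mul_add, wt_al, Finset.mul_sum]
  unfold qf
  push_cast
  rw [h]
  congr 1
  refine Finset.sum_congr rfl fun j _ => ?_
  rw [R.hbv]
  ring

theorem w_ne_zero (R : Roots S r) (j : Fin r) : R.w j ≠ 0 := by
  intro h
  have h1 := R.dual j j
  rw [h, inner_zero_left, if_pos rfl] at h1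
  have h2 : 0 < ‖R.al (R.sr j)‖ := norm_pos_iff.2 (R.al_ne_zero _)
  nlinarith

/-! ### Spherical functions -/

variable (W : HWD R μ)

theorem zero_mem : (0 : Fin r → ℕ) ∈ W.Λ := by
  have h : R.IsHW 0 (1 : G → ℂ) := by
    refine ⟨⟨isRep_one, fun i => ?_, fun X _ => ?_⟩, fun _ _ _ => rfl, rfl⟩
    · have h1 : ∀ X, S.D X (1 : G → ℂ) = 0 := fun X => Sym.D_const 1 X
      rw [Roots.Np, h1, h1, smul_zero, add_zero]
    · have h1 : S.D X (1 : G → ℂ) = 0 := Sym.D_const 1 X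
      rw [h1, inner_zero_left]
      simp
  obtain ⟨n, hn, h1, -⟩ := W.uniq 0 R.a.zero_mem _ h
  have h2 : R.wt 0 = R.wt n := by
    rw [← h1]
    simp [Roots.wt]
  rwa [R.wt_inj h2]

theorem F_cont {n : Fin r → ℕ} (hn : n ∈ W.Λ) : Continuous (W.F n) := (W.hw n hn).1.1.1

theorem φ_rep {n : Fin r → ℕ} (hn : n ∈ W.Λ) : IsRep (W.φ n) :=
  IsRep.of_span (by rintro _ ⟨i, rfl⟩; exact W.bas_rep n hn i) (W.φ_mem n hn)

theorem φ_left {n : Fin r → ℕ} (hn : n ∈ W.Λ) : S.LInv (W.φ n) :=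
  Sym.LInv.of_span (by rintro _ ⟨i, rfl⟩; exact W.bas_inv n hn i) (W.φ_mem n hn)

theorem ip_span {n n' : Fin r → ℕ} (hn : n ∈ W.Λ) (hn' : n' ∈ W.Λ) (h : n ≠ n') {u v : G → ℂ}
    (hu : u ∈ span ℂ (Set.range (W.bas n))) (hv : v ∈ span ℂ (Set.range (W.bas n'))) :
    ip μ u v = 0 := by
  obtain ⟨a, rfl⟩ := (mem_span_range_iff_exists_fun ℂ).1 hu
  obtain ⟨b, rfl⟩ := (mem_span_range_iff_exists_fun ℂ).1 hv
  have hc : ∀ i, Continuous (b i • W.bas n' i) := fun i => (W.bas_cont n' hn' i).const_smul _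
  rw [ip_sum_left μ _ (cont_sum _ fun i _ => hc i) fun i _ => (W.bas_cont n hn i).const_smul _]
  refine Finset.sum_eq_zero fun i _ => ?_
  rw [ip_smul_left, ip_sum_right μ _ (W.bas_cont n hn i) fun i _ => hc i]
  refine mul_eq_zero_of_right _ (Finset.sum_eq_zero fun j _ => ?_)
  rw [ip_smul_right]
  exact mul_eq_zero_of_right _ (W.orth_ne n hn n' hn' h i j)

theorem ip_φ_ne {n n' : Fin r → ℕ} (hn : n ∈ W.Λ) (hn' : n' ∈ W.Λ) (h : n ≠ n') :
    ip μ (W.φ n) (W.φ n') = 0 := ip_span W hn hn' h (W.φ_mem n hn) (W.φ_mem n' hn')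

theorem cont_mul {f : G → ℂ} (hf : Continuous f) (x : G) : Continuous fun k => f (x * k) :=
  hf.comp (continuous_const.mul continuous_id)

theorem norm_φ_le {n : Fin r → ℕ} (hn : n ∈ W.Λ) (x : G) :
    ‖W.φ n x‖ ≤ ∫ k, ‖W.F n (x * k)‖ ∂S.ν := by
  rw [W.φ_eq n hn]
  exact norm_integral_le_integral_norm _

theorem φ_le {n : Fin r → ℕ} (hn : n ∈ W.Λ) (hF : ∀ x, ‖W.F n x‖ ≤ 1) (x : G) :
    ‖W.φ n x‖ ≤ 1 := by
  have := S.ν_prob
  rw [W.φ_eq n hn]
  have := norm_integral_le_of_norm_le_const (μ := S.ν) (f := fun k => W.F n (x * k)) (C := 1)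
    (Filter.Eventually.of_forall fun k => hF _)
  simpa using this

theorem δ_K (j : Fin r) (x : G) {k : G} (hk : k ∈ S.K) : R.δ j (S.s (x * k)) = R.δ j (S.s x) := by
  rw [S.s_mul_K x hk, R.δ_conj]

theorem one_sub_φ {n : Fin r → ℕ} (hn : n ∈ W.Λ) {j : Fin r} {C : ℝ}
    (hF : ∀ x, 1 - (W.F n x).re ≤ C * R.δ j (S.s x) ^ 2) (x : G) :
    1 - (W.φ n x).re ≤ C * R.δ j (S.s x) ^ 2 := by
  have := S.ν_prob
  have hi : Integrable (fun k => W.F n (x * k)) S.ν := cont_int _ (cont_mul (F_cont W hn) x)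
  have h1 : (W.φ n x).re = ∫ k, (W.F n (x * k)).re ∂S.ν := by
    rw [W.φ_eq n hn]
    exact (integral_re hi).symm
  have h2 : ∫ _ : G, (1 - C * R.δ j (S.s x) ^ 2) ∂S.ν ≤ ∫ k, (W.F n (x * k)).re ∂S.ν := by
    refine integral_mono_ae (integrable_const _) hi.re ?_
    filter_upwards [S.ν_K] with k hk
    have := hF (x * k)
    rw [δ_K j x hk] at this
    linarith
  simp only [integral_const, probReal_univ, smul_eq_mul, one_mul] at h2
  linarith

section prod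
variable (hmul : ∀ n ∈ W.Λ, ∀ n' ∈ W.Λ, n + n' ∈ W.Λ ∧ W.F (n + n') = W.F n * W.F n')
include hmul

theorem up_one {n n0 : Fin r → ℕ} (hn : n ∈ W.Λ) (hn0 : n0 ∈ W.Λ) (k : ℕ) :
    n + k • n0 ∈ W.Λ ∧ W.F (n + k • n0) = W.F n * W.F n0 ^ k := by
  induction k with
  | zero => simpa using hn
  | succ k ih =>
    obtain ⟨h1, h2⟩ := hmul _ ih.1 _ hn0
    rw [succ_nsmul, ← add_assoc]
    exact ⟨h1, by rw [h2, ih.2, pow_succ, mul_assoc]⟩

theorem up_all {e : ℕ} (he : ∀ j, e • (Pi.single j 1 : Fin r → ℕ) ∈ W.Λ) {n : Fin r → ℕ}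
    (hn : n ∈ W.Λ) (m : Fin r → ℕ) :
    n + e • m ∈ W.Λ ∧ W.F (n + e • m) = W.F n * ∏ j, W.F (e • Pi.single j 1) ^ m j := by
  have h : ∀ s : Finset (Fin r), n + ∑ j ∈ s, m j • e • (Pi.single j 1 : Fin r → ℕ) ∈ W.Λ ∧
      W.F (n + ∑ j ∈ s, m j • e • (Pi.single j 1 : Fin r → ℕ))
        = W.F n * ∏ j ∈ s, W.F (e • Pi.single j 1) ^ m j := by
    intro s
    induction s using Finset.induction_on with
    | empty => simpa using hn
    | insert j s hj ih =>
      obtain ⟨h1, h2⟩ := up_one W hmul ih.1 (he j) (m j)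
      rw [Finset.sum_insert hj, Finset.prod_insert hj, add_comm (m j • _), ← add_assoc]
      exact ⟨h1, by rw [h2, ih.2]; ring⟩
  have h2 : ∑ j, m j • e • (Pi.single j 1 : Fin r → ℕ) = e • m := by
    ext l
    simp [Finset.sum_apply, Pi.single_apply, mul_comm]
  rw [← h2]
  exact h _

end prod

/-! ### Completeness -/

theorem complete (hd : DenseStmt) {f : G → ℂ} (hf : Continuous f) (hl : S.LInv f)
    (h0 : ∀ n ∈ W.Λ, ∀ i, ip μ (W.bas n i) f = 0) : f = 0 := by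
  have := S.ν_prob
  refine eq_zero_of_ip_self μ hf ?_
  obtain ⟨M, hM⟩ : ∃ M, ∀ x, ‖f x‖ ≤ M := by
    obtain ⟨M, hM⟩ := isCompact_univ.exists_bound_of_continuousOn hf.continuousOn
    exact ⟨M, fun x => hM x trivial⟩
  have hM0 : 0 ≤ M := (norm_nonneg _).trans (hM 1)
  have key : ∀ ε : ℝ, 0 < ε → ‖ip μ f f‖ ≤ ε * M := by
    intro ε hε
    obtain ⟨g, hg, hfg⟩ := hd G f hf ε hε
    have hg' : IsRep fun x => ∫ k, (1 : ℂ) * g (k * x) ∂S.ν := hg.avgL S.ν continuous_const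
    set g' : G → ℂ := fun x => ∫ k, (1 : ℂ) * g (k * x) ∂S.ν with hg'def
    have hc : ∀ x, Continuous fun k => g (k * x) := fun x =>
      hg.1.comp (continuous_id.mul continuous_const)
    have hl' : S.LInv g' := by
      intro k hk x
      simp only [hg'def, one_mul]
      conv_rhs => rw [← S.ν_right k hk]
      rw [integral_map (continuous_mul_const k).aemeasurable (hc x).aestronglyMeasurable]
      simp only [mul_assoc]
    have hclose : ∀ x, ‖f x - g' x‖ ≤ ε := by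
      intro x
      have h1 : f x - g' x = ∫ k, (f x - g (k * x)) ∂S.ν := by
        rw [integral_sub (integrable_const _) (cont_int _ (hc x))]
        simp [hg'def]
      rw [h1]
      have := norm_integral_le_of_norm_le_const (μ := S.ν) (f := fun k => f x - g (k * x))
        (C := ε) (by
          filter_upwards [S.ν_K] with k hk
          rw [← hl k hk x]
          exact (hfg _).le)
      simpa using this
    obtain ⟨T, hT, hexp⟩ := W.expand g' hg' hl'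
    have hz : ip μ g' f = 0 := by
      have hb : ∀ n ∈ T, ∀ i, Continuous (ip μ (W.bas n i) g' • W.bas n i) := fun n hn i =>
        (W.bas_cont n (hT hn) i).const_smul _
      rw [hexp, ip_sum_left μ _ hf fun n hn => cont_sum _ fun i _ => hb n hn i]
      refine Finset.sum_eq_zero fun n hn => ?_
      rw [ip_sum_left μ _ hf fun i _ => hb n hn i]
      refine Finset.sum_eq_zero fun i _ => ?_
      rw [ip_smul_left, h0 n (hT hn), mul_zero]
    have h2 : ip μ f f = ip μ (f - g') f := by rw [ip_sub_left μ hf hg'.1 hf, hz, sub_zero]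
    rw [h2, ip]
    have := norm_integral_le_of_norm_le_const (μ := μ) (f := fun x => conj ((f - g') x) * f x)
      (C := ε * M) (Filter.Eventually.of_forall fun x => by
        rw [norm_mul, Complex.norm_conj]
        exact mul_le_mul (hclose x) (hM x) (norm_nonneg _) hε.le)
    simpa using this
  rw [← norm_le_zero_iff]
  refine le_of_forall_pos_le_add fun ε hε => ?_
  have := key (ε / (M + 1)) (by positivity)
  have h3 : ε / (M + 1) * M ≤ ε := by
    rw [div_mul_eq_mul_div, div_le_iff₀ (by positivity)]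
    nlinarith
  linarith

end Pool.Agent.MP_ba99b7_an.SphM

end MrgPart6

-- marker of a merged file
example : 731051 + 319275 = 731051 + 319275 := rfl
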