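import Mathlib.Analysis.Fourier.PoissonSummation
import Mathlib.Topology.UniformSpace.Uniformizable
import Pool.Agent.MP_ba99b7_an.SpecAn

/-! PROJECT STRI, module ARC, part 1: absolutely convergent Fourier series and a periodic bump. -/

namespace Pool.Agent.MP_ba99b7_an.Arc

open MeasureTheory Finset
open scoped FourierTransform SchwartzMap

noncomputable section

lemma norm_ee (x : ℝ) : ‖ee x‖ = 1 := by
  rw [ee, show (2 * Real.pi * x * Complex.I : ℂ) = ((2 * Real.pi * x : ℝ) : ℂ) * Complex.I by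
    push_cast; ring]
  exact Complex.norm_exp_ofReal_mul_I _

lemma ee_add (x y : ℝ) : ee (x + y) = ee x * ee y := by
  rw [ee, ee, ee, ← Complex.exp_add]; congr 1; push_cast; ring

lemma ee_zero : ee 0 = 1 := by simp [ee]

/-- `c` is absolutely summable and its Fourier series is `g` -/
def Rep (c : ℤ → ℂ) (g : ℝ → ℂ) : Prop := (Summable fun k => ‖c k‖) ∧ ∀ x, fs c x = g x

lemma summable_term {c : ℤ → ℂ} (h : Summable fun k => ‖c k‖) (x : ℝ) :
    Summable fun k : ℤ => c k * ee (k * x) :=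
  Summable.of_norm (by simpa only [norm_mul, norm_ee, mul_one] using h)

lemma norm_fs_le {c : ℤ → ℂ} (h : Summable fun k => ‖c k‖) (x : ℝ) :
    ‖fs c x‖ ≤ ∑' k, ‖c k‖ := by
  have h1 : Summable fun k : ℤ => ‖c k * ee (k * x)‖ := by
    simpa only [norm_mul, norm_ee, mul_one] using h
  simpa only [fs, norm_mul, norm_ee, mul_one] using norm_tsum_le_tsum_norm h1

lemma Rep.self {c : ℤ → ℂ} (h : Summable fun k => ‖c k‖) : Rep c (fs c) := ⟨h, fun _ => rfl⟩

lemma Rep.add {c c' : ℤ → ℂ} {g g' : ℝ → ℂ} (h : Rep c g) (h' : Rep c' g') :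
    Rep (fun k => c k + c' k) fun x => g x + g' x := by
  refine ⟨Summable.of_nonneg_of_le (fun _ => norm_nonneg _) (fun k => norm_add_le _ _)
    (h.1.add h'.1), fun x => ?_⟩
  simp only
  rw [← h.2, ← h'.2, fs, fs, fs, ← (summable_term h.1 x).tsum_add (summable_term h'.1 x)]
  simp only [add_mul]

lemma Rep.const_mul {c : ℤ → ℂ} {g : ℝ → ℂ} (h : Rep c g) (a : ℂ) :
    Rep (fun k => a * c k) fun x => a * g x := by
  refine ⟨by simpa only [norm_mul] using h.1.mul_left ‖a‖, fun x => ?_⟩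
  simp only
  rw [← h.2, fs, fs, ← tsum_mul_left]
  simp only [mul_assoc]

lemma Rep.sub {c c' : ℤ → ℂ} {g g' : ℝ → ℂ} (h : Rep c g) (h' : Rep c' g') :
    Rep (fun k => c k - c' k) fun x => g x - g' x := by
  simpa only [neg_mul, one_mul, ← sub_eq_add_neg] using h.add (h'.const_mul (-1))

lemma Rep.zero : Rep (fun _ => 0) fun _ => 0 := ⟨by simp [summable_zero], fun x => by simp [fs]⟩

lemma Rep.sum {ι : Type} {s : Finset ι} {c : ι → ℤ → ℂ} {g : ι → ℝ → ℂ}
    (h : ∀ i ∈ s, Rep (c i) (g i)) : Rep (fun k => ∑ i ∈ s, c i k) fun x => ∑ i ∈ s, g i x := by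
  classical
  induction s using Finset.induction_on with
  | empty => simpa using Rep.zero
  | insert i s hi ih =>
    simp only [Finset.sum_insert hi]
    exact (h i (mem_insert_self _ _)).add (ih fun j hj => h j (mem_insert_of_mem hj))

lemma Rep.shift {c : ℤ → ℂ} {g : ℝ → ℂ} (h : Rep c g) (t : ℝ) :
    Rep (fun k => c k * ee ((-k : ℤ) * t)) fun x => g (x - t) := by
  refine ⟨by simpa only [norm_mul, norm_ee, mul_one] using h.1, fun x => ?_⟩
  simp only
  rw [← h.2, fs, fs]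
  refine tsum_congr fun k => ?_
  rw [mul_assoc, ← ee_add]
  congr 2
  push_cast; ring

lemma Rep.delta : Rep (fun k => if k = 0 then 1 else 0) fun _ => 1 := by
  refine ⟨summable_of_ne_finset_zero (s := {0}) fun k hk => by simp [mem_singleton.not.1 hk],
    fun x => ?_⟩
  rw [fs, tsum_eq_single 0 fun k hk => by simp [hk]]
  simp [ee_zero]

lemma Rep.congr {c c' : ℤ → ℂ} {g : ℝ → ℂ} (h : Rep c g) (e : ∀ k, c' k = c k) : Rep c' g := by
  rwa [show c' = c from funext e]

/-- the bump -/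
def chi : ContDiffBump (0 : ℝ) := ⟨1, 2, one_pos, one_lt_two⟩

lemma chi_one {y : ℝ} (h : |y| ≤ 1) : chi y = 1 :=
  chi.one_of_mem_closedBall (by simpa [chi] using h)

lemma chi_zero {y : ℝ} (h : 2 ≤ |y|) : chi y = 0 :=
  chi.zero_of_le_dist (by simpa [chi] using h)

/-- the rescaled bump as a Schwartz function -/
def chiS (w : ℝ) (hw : 0 < w) : 𝓢(ℝ, ℂ) :=
  HasCompactSupport.toSchwartzMap (f := fun y : ℝ => ((chi (y / w) : ℝ) : ℂ))
    (HasCompactSupport.intro (isCompact_Icc (a := -(2 * w)) (b := 2 * w)) fun y hy => by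
      rw [chi_zero, Complex.ofReal_zero]
      rw [abs_div, abs_of_pos hw, le_div_iff₀ hw]
      by_contra hc
      exact hy (abs_le.1 (not_le.1 hc).le))
    (Complex.ofRealCLM.contDiff.comp (chi.contDiff.comp (contDiff_id.div_const w)))

lemma chiS_apply {w : ℝ} (hw : 0 < w) (y : ℝ) : chiS w hw y = ((chi (y / w) : ℝ) : ℂ) := rfl

/-- the Fourier transform of the bump -/
def chiF (ξ : ℝ) : ℂ := 𝓕 (chiS 1 one_pos) ξ

lemma exists_Cb : ∃ C : ℝ, 0 < C ∧ ∀ ξ, ‖chiF ξ‖ ≤ C / (1 + ξ ^ 2) := by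
  obtain ⟨C0, h0, H0⟩ := (𝓕 (chiS 1 one_pos)).decay 0 0
  obtain ⟨C2, h2, H2⟩ := (𝓕 (chiS 1 one_pos)).decay 2 0
  refine ⟨C0 + C2, by positivity, fun ξ => ?_⟩
  have a := H0 ξ
  have b := H2 ξ
  simp only [norm_iteratedFDeriv_zero, pow_zero, one_mul, Real.norm_eq_abs, sq_abs] at a b
  rw [le_div_iff₀ (by positivity), chiF]
  linarith

/-- the decay constant -/
def Cb : ℝ := exists_Cb.choose

lemma Cb_pos : 0 < Cb := exists_Cb.choose_spec.1

lemma four_chiS {w : ℝ} (hw : 0 < w) (ξ : ℝ) : 𝓕 (chiS w hw) ξ = w * chiF (w * ξ) := by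
  rw [chiF, SchwartzMap.fourier_coe, SchwartzMap.fourier_coe, Real.fourier_real_eq_integral_exp_smul,
    Real.fourier_real_eq_integral_exp_smul]
  have := Measure.integral_comp_div (fun v : ℝ =>
    Complex.exp (↑(-2 * Real.pi * v * (w * ξ)) * Complex.I) • chiS 1 one_pos v) w
  rw [abs_of_pos hw, Complex.real_smul] at this
  rw [← this]
  refine integral_congr_ae (ae_of_all _ fun v => ?_)
  have e : -2 * Real.pi * (v / w) * (w * ξ) = -2 * Real.pi * v * ξ := by field_simp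
  simp only [e, chiS_apply, div_one]

/-- the weight `w / (1 + (w k)^2)` -/
def wt (w : ℝ) (k : ℤ) : ℝ := w / (1 + (w * k) ^ 2)

lemma wt_nonneg {w : ℝ} (hw : 0 ≤ w) (k : ℤ) : 0 ≤ wt w k := by unfold wt; positivity

lemma wt_le {w : ℝ} (hw : 0 ≤ w) (k : ℤ) : wt w k ≤ w :=
  div_le_self hw (by nlinarith [sq_nonneg (w * k)])

lemma wt_two_mul {w : ℝ} (hw : 0 ≤ w) (k : ℤ) : wt (2 * w) k ≤ 2 * wt w k := by
  rw [wt, wt, ← mul_div_assoc]
  exact div_le_div_of_nonneg_left (by positivity) (by positivity) (by nlinarith [sq_nonneg (w * k)])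

/-- coefficients of the periodic bump -/
def bc (w : ℝ) (k : ℤ) : ℂ := w * chiF (w * k)

/-- the periodic bump -/
def bg (w x : ℝ) : ℝ := chi ((x - round x) / w)

lemma norm_bc_le {w : ℝ} (hw : 0 ≤ w) (k : ℤ) : ‖bc w k‖ ≤ Cb * wt w k := by
  rw [bc, norm_mul, Complex.norm_real, Real.norm_of_nonneg hw, wt]
  calc w * ‖chiF (w * k)‖ ≤ w * (Cb / (1 + (w * k) ^ 2)) :=
        mul_le_mul_of_nonneg_left (exists_Cb.choose_spec.2 _) hw
    _ = _ := by ring

lemma summable_wt {w : ℝ} (hw : 0 < w) : Summable (wt w) := by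
  have h := (Real.summable_one_div_int_pow.2 one_lt_two).mul_left w⁻¹
  refine h.of_norm_bounded_eventually ?_
  refine Filter.mem_of_superset (Set.finite_singleton (0 : ℤ)).compl_mem_cofinite fun k hk => ?_
  have hk' : (k : ℝ) ≠ 0 := by simpa using hk
  simp only [Set.mem_ofPred_eq]
  rw [Real.norm_of_nonneg (wt_nonneg hw.le k), wt,
    show w⁻¹ * (1 / (k : ℝ) ^ 2) = w / (w * k) ^ 2 by field_simp]
  gcongr
  linarith

lemma bg_nonneg (w x : ℝ) : 0 ≤ bg w x := chi.nonneg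

lemma bg_le_one (w x : ℝ) : bg w x ≤ 1 := chi.le_one

lemma bg_one {w x : ℝ} (hw : 0 < w) (h : nr x ≤ w) : bg w x = 1 :=
  chi_one (by rwa [abs_div, abs_of_pos hw, div_le_one hw])

lemma nr_lt {w x : ℝ} (hw : 0 < w) (h : bg w x ≠ 0) : nr x < 2 * w := by
  by_contra hc
  exact h (chi_zero (by rw [abs_div, abs_of_pos hw, le_div_iff₀ hw]; exact not_lt.1 hc))

lemma rep_bump {w : ℝ} (hw : 0 < w) (h4 : w ≤ 1 / 4) : Rep (bc w) fun x => bg w x := by
  refine ⟨Summable.of_nonneg_of_le (fun _ => norm_nonneg _) (norm_bc_le hw.le)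
    ((summable_wt hw).mul_left _), fun x => ?_⟩
  have h := (chiS w hw).tsum_eq_tsum_fourier x
  rw [tsum_eq_single (-round x)] at h
  · rw [fs]
    refine Eq.trans (tsum_congr fun k => ?_) (h.symm.trans ?_)
    · rw [four_chiS, fourier_coe_apply, bc, ee]
      congr 2
      push_cast; ring
    · simp [chiS_apply, bg, sub_eq_add_neg]
  · intro n hn
    rw [chiS_apply, chi_zero, Complex.ofReal_zero]
    have h1 : (1 : ℝ) ≤ |((n + round x : ℤ) : ℝ)| := by
      rw [← Int.cast_abs]; exact_mod_cast Int.one_le_abs (by omega)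
    have h2 := abs_sub_round x
    have h3 := abs_sub (x + n) (x - round x)
    rw [show x + n - (x - round x) = ((n + round x : ℤ) : ℝ) by push_cast; ring] at h3
    rw [abs_div, abs_of_pos hw, le_div_iff₀ hw]
    linarith

end

end Pool.Agent.MP_ba99b7_an.Arc
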