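import Mathlib.Analysis.Complex.ExponentialBounds
import Mathlib.NumberTheory.DiophantineApproximation.Basic
import Pool.Agent.MP_ba99b7_an.Arc1

/-! PROJECT STRI, module ARC, part 2: the arcs are disjoint; the Weyl majorant on the arcs. -/

namespace Pool.Agent.MP_ba99b7_an.Arc

open Finset

noncomputable section

/-- reduced fractions with denominator in a dyadic range -/
def Fr (i : ℕ) : Finset (Σ _ : ℕ, ℕ) :=
  (Finset.Ico (2 ^ i) (2 * 2 ^ i)).sigma fun q => (range q).filter fun a => Nat.Coprime a q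

/-- the value of a fraction -/
def fr (z : Σ _ : ℕ, ℕ) : ℝ := (z.2 : ℝ) / z.1

lemma mem_Fr {i : ℕ} {z : Σ _ : ℕ, ℕ} :
    z ∈ Fr i ↔ (2 ^ i ≤ z.1 ∧ z.1 < 2 * 2 ^ i) ∧ z.2 < z.1 ∧ Nat.Coprime z.2 z.1 := by
  simp only [Fr, mem_sigma, mem_Ico, mem_filter, mem_range]

lemma den_pos {i : ℕ} {z : Σ _ : ℕ, ℕ} (h : z ∈ Fr i) : 0 < z.1 :=
  lt_of_lt_of_le (by positivity) (mem_Fr.1 h).1.1

lemma Fr_idx {i i' : ℕ} {z : Σ _ : ℕ, ℕ} (h : z ∈ Fr i) (h' : z ∈ Fr i') : i = i' := by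
  have a := (mem_Fr.1 h).1
  have b := (mem_Fr.1 h').1
  have c : 2 ^ i < 2 ^ (i' + 1) := by rw [pow_succ]; omega
  have d : 2 ^ i' < 2 ^ (i + 1) := by rw [pow_succ]; omega
  rw [Nat.pow_lt_pow_iff_right one_lt_two] at c d
  omega

lemma disj {i i' : ℕ} {z z' : Σ _ : ℕ, ℕ} (h : z ∈ Fr i) (h' : z' ∈ Fr i') {x δ : ℝ}
    (a : nr (x - fr z) < δ / z.1) (a' : nr (x - fr z') < δ / z'.1)
    (hδ : δ * (z.1 + z'.1) ≤ 1) : z = z' := by
  have p := den_pos h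
  have p' := den_pos h'
  obtain ⟨-, b, c⟩ := mem_Fr.1 h
  obtain ⟨-, b', c'⟩ := mem_Fr.1 h'
  obtain ⟨q, u⟩ := z
  obtain ⟨q', u'⟩ := z'
  simp only [nr, fr] at *
  generalize round (x - (u : ℝ) / q) = n at a
  generalize round (x - (u' : ℝ) / q') = n' at a'
  have hq : (0 : ℝ) < q := by exact_mod_cast p
  have hq' : (0 : ℝ) < q' := by exact_mod_cast p'
  have e : (u + n * q) * q' - (u' + n' * q') * q = (0 : ℤ) := by
    rw [← Int.abs_lt_one_iff]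
    have e1 : (((u + n * q) * q' - (u' + n' * q') * q : ℤ) : ℝ)
        = ((x - (u' : ℝ) / q' - n') - (x - (u : ℝ) / q - n)) * (q * q') := by
      push_cast; field_simp; ring
    have e2 : |(((u + n * q) * q' - (u' + n' * q') * q : ℤ) : ℝ)| < 1 := by
      rw [e1, abs_mul, abs_of_pos (mul_pos hq hq')]
      calc _ ≤ (|x - (u' : ℝ) / q' - n'| + |x - (u : ℝ) / q - n|) * (q * q') := by
            gcongr; exact abs_sub _ _
        _ < (δ / q' + δ / q) * (q * q') := by gcongr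
        _ = δ * (q + q') := by field_simp
        _ ≤ 1 := hδ
    exact_mod_cast e2
  have k : IsCoprime ((u : ℤ) + n * q) q := (Nat.isCoprime_iff_coprime.2 c).add_mul_right_left n
  have k' : IsCoprime ((u' : ℤ) + n' * q') q' :=
    (Nat.isCoprime_iff_coprime.2 c').add_mul_right_left n'
  have d1 : (q : ℤ) ∣ q' := k.symm.dvd_of_dvd_mul_left ⟨u' + n' * q', by linear_combination e⟩
  have d2 : (q' : ℤ) ∣ q := k'.symm.dvd_of_dvd_mul_left ⟨u + n * q, by linear_combination -e⟩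
  obtain rfl : q = q' := Nat.dvd_antisymm (Int.natCast_dvd_natCast.1 d1)
    (Int.natCast_dvd_natCast.1 d2)
  have e3 : (u : ℤ) - u' = q * (n' - n) :=
    mul_right_cancel₀ (b := (q : ℤ)) (by omega) (by linear_combination e)
  have e4 : (u : ℤ) - u' = 0 := Int.eq_zero_of_abs_lt_dvd ⟨_, e3⟩ (by rw [abs_lt]; omega)
  obtain rfl : u = u' := by omega
  rfl

/-- the widths -/
def wd (κ l : ℕ) : ℝ := 2 ^ l / (2 ^ κ) ^ 2

lemma wd_pos (κ l : ℕ) : 0 < wd κ l := by unfold wd; positivity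

lemma wd_mono (κ : ℕ) {l l' : ℕ} (h : l ≤ l') : wd κ l ≤ wd κ l' := by
  unfold wd; gcongr; exact one_le_two

lemma pow3_le {s κ i l : ℕ} (h : i + l + s ≤ κ) : (2 : ℝ) ^ i * 2 ^ l * 2 ^ s ≤ 2 ^ κ := by
  rw [← pow_add, ← pow_add]; exact pow_le_pow_right₀ one_le_two h

lemma wd_mul_le {s κ i l : ℕ} (h : i + l + s ≤ κ) : wd κ l * 2 ^ i ≤ 1 / (2 ^ s * 2 ^ κ) := by
  have := pow3_le h
  rw [wd, div_mul_eq_mul_div, div_le_div_iff₀ (by positivity) (by positivity)]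
  nlinarith [mul_le_mul_of_nonneg_right this (show (0 : ℝ) ≤ 2 ^ κ by positivity)]

lemma four_le {s : ℕ} (hs : 2 ≤ s) : (4 : ℝ) ≤ 2 ^ s :=
  le_trans (by norm_num) (pow_le_pow_right₀ one_le_two hs)

lemma wd_le {s κ i l : ℕ} (hs : 2 ≤ s) (h : i + l + s ≤ κ) : wd κ l ≤ 1 / 4 := by
  have h1 : (1 : ℝ) ≤ 2 ^ i := one_le_pow₀ one_le_two
  have h2 : (1 : ℝ) ≤ 2 ^ κ := one_le_pow₀ one_le_two
  have h3 := four_le hs
  calc wd κ l ≤ wd κ l * 2 ^ i := le_mul_of_one_le_right (wd_pos _ _).le h1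
    _ ≤ 1 / (2 ^ s * 2 ^ κ) := wd_mul_le h
    _ ≤ 1 / 4 := one_div_le_one_div_of_le (by norm_num) (by nlinarith)

lemma rad_le {s κ i l : ℕ} (h : i + l + s ≤ κ) {z : Σ _ : ℕ, ℕ} (hz : z ∈ Fr i) :
    2 * wd κ l ≤ 4 / (2 ^ s * 2 ^ κ) / z.1 := by
  have p : (0 : ℝ) < z.1 := by exact_mod_cast den_pos hz
  have a : (z.1 : ℝ) ≤ 2 * 2 ^ i := by exact_mod_cast (mem_Fr.1 hz).1.2.le
  have b := wd_mul_le h
  have c := wd_pos κ l
  rw [le_div_iff₀ p]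
  calc 2 * wd κ l * z.1 ≤ 2 * wd κ l * (2 * 2 ^ i) := by gcongr
    _ = 4 * (wd κ l * 2 ^ i) := by ring
    _ ≤ 4 * (1 / (2 ^ s * 2 ^ κ)) := by gcongr
    _ = _ := by ring

lemma den_le {s κ i l : ℕ} (h : i + l + s ≤ κ) {z : Σ _ : ℕ, ℕ} (hz : z ∈ Fr i) :
    (z.1 : ℝ) * 2 ^ s ≤ 2 * 2 ^ κ := by
  have a : (z.1 : ℝ) ≤ 2 * 2 ^ i := by exact_mod_cast (mem_Fr.1 hz).1.2.le
  have b := pow3_le (show i + 0 + s ≤ κ by omega)
  rw [pow_zero, mul_one] at b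
  calc (z.1 : ℝ) * 2 ^ s ≤ 2 * 2 ^ i * 2 ^ s := by gcongr
    _ ≤ _ := by linarith

lemma uniq {s κ i l i' l' : ℕ} (hs : 2 ≤ s) (h : i + l + s ≤ κ) (h' : i' + l' + s ≤ κ)
    {z z' : Σ _ : ℕ, ℕ} (hz : z ∈ Fr i) (hz' : z' ∈ Fr i') {x : ℝ}
    (a : nr (x - fr z) < 2 * wd κ l) (a' : nr (x - fr z') < 2 * wd κ l') : z = z' := by
  refine disj hz hz' (a.trans_le (rad_le h hz)) (a'.trans_le (rad_le h' hz')) ?_
  have b := den_le h hz
  have b' := den_le h' hz'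
  have c := four_le hs
  have d : (0 : ℝ) < 2 ^ κ := by positivity
  rw [div_mul_eq_mul_div, div_le_one (by positivity)]
  refine le_of_mul_le_mul_right ?_ (show (0 : ℝ) < 2 ^ s by positivity)
  nlinarith [mul_le_mul_of_nonneg_right (mul_le_mul c c (by norm_num) (by positivity)) d.le]

lemma abs_sum_le_one {ι : Type} {s : Finset ι} {t : ι → ℝ} (h1 : ∀ a ∈ s, |t a| ≤ 1)
    (h : ∀ a ∈ s, ∀ b ∈ s, t a ≠ 0 → t b ≠ 0 → a = b) : |∑ a ∈ s, t a| ≤ 1 := by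
  by_cases h0 : ∑ a ∈ s, t a = 0
  · rw [h0]; simp
  · obtain ⟨a, ha, h2⟩ := exists_ne_zero_of_sum_ne_zero h0
    rw [sum_eq_single_of_mem a ha fun b hb hba => by_contra fun hc => hba (h b hb a ha hc h2)]
    exact h1 a ha

/-- difference of two consecutive bumps -/
def dg (κ l : ℕ) (x : ℝ) : ℝ := bg (wd κ l) x - if l = 0 then 0 else bg (wd κ (l - 1)) x

lemma abs_dg_le (κ l : ℕ) (x : ℝ) : |dg κ l x| ≤ 1 := by
  have a := bg_nonneg (wd κ l) x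
  have b := bg_le_one (wd κ l) x
  have c := bg_nonneg (wd κ (l - 1)) x
  have d := bg_le_one (wd κ (l - 1)) x
  rw [dg, abs_le]
  split_ifs <;> constructor <;> linarith

lemma dg_supp {κ l : ℕ} {x : ℝ} (h : dg κ l x ≠ 0) : nr x < 2 * wd κ l := by
  by_contra hc
  have a : bg (wd κ l) x = 0 := by_contra fun h' => hc (nr_lt (wd_pos _ _) h')
  have b : bg (wd κ (l - 1)) x = 0 := by_contra fun h' =>
    hc ((nr_lt (wd_pos _ _) h').trans_le (by linarith [wd_mono κ (Nat.sub_le l 1)]))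
  exact h (by simp [dg, a, b])

lemma dg_low {κ l : ℕ} {x : ℝ} (h : dg κ l x ≠ 0) :
    ∃ L : ℝ, 1 ≤ L ∧ 2 ^ l ≤ 2 * L ∧ L ≤ 2 ^ l ∧ L ≤ max 1 ((2 ^ κ) ^ 2 * nr x) := by
  rcases l with _ | l
  · exact ⟨1, le_rfl, by norm_num, by norm_num, le_max_left _ _⟩
  · refine ⟨2 ^ l, one_le_pow₀ one_le_two, by rw [pow_succ]; linarith,
      pow_le_pow_right₀ one_le_two (Nat.le_succ l), le_max_of_le_right ?_⟩
    by_contra hc
    have a : nr x ≤ wd κ l := by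
      rw [wd, le_div_iff₀ (by positivity), mul_comm]; exact (not_le.1 hc).le
    refine h ?_
    simp [dg, bg_one (wd_pos _ _) a, bg_one (wd_pos _ _) (a.trans (wd_mono κ (Nat.le_succ l)))]

/-- a major arc piece -/
def eta (κ i l : ℕ) (x : ℝ) : ℝ := ∑ z ∈ Fr i, dg κ l (x - fr z)

/-- the scales of the denominators -/
def Is (s κ : ℕ) : Finset ℕ := (range (κ + 1)).filter fun i => i + s ≤ κ

/-- the minor arc cut-off -/
def rho0 (s κ : ℕ) (x : ℝ) : ℝ :=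
  1 - ∑ i ∈ Is s κ, ∑ z ∈ Fr i, bg (wd κ (κ - s - i)) (x - fr z)

lemma mem_Is {s κ i : ℕ} : i ∈ Is s κ ↔ i + s ≤ κ := by
  simp only [Is, mem_filter, mem_range]; omega

lemma abs_eta_le {s κ i l : ℕ} (hs : 2 ≤ s) (h : i + l + s ≤ κ) (x : ℝ) : |eta κ i l x| ≤ 1 :=
  abs_sum_le_one (fun _ _ => abs_dg_le _ _ _) fun _ ha _ hb h1 h2 =>
    uniq hs h h ha hb (dg_supp h1) (dg_supp h2)

lemma rho_uniq {s κ : ℕ} (hs : 2 ≤ s) (x : ℝ) : ∀ a ∈ (Is s κ).sigma Fr, ∀ b ∈ (Is s κ).sigma Fr,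
    bg (wd κ (κ - s - a.1)) (x - fr a.2) ≠ 0 → bg (wd κ (κ - s - b.1)) (x - fr b.2) ≠ 0 →
    a = b := by
  rintro ⟨i, z⟩ ha ⟨i', z'⟩ hb h1 h2
  simp only [mem_sigma, mem_Is] at ha hb
  obtain rfl : z = z' := uniq (κ := κ) (l := κ - s - i) (l' := κ - s - i') hs (by omega) (by omega)
    ha.2 hb.2 (nr_lt (wd_pos _ _) h1) (nr_lt (wd_pos _ _) h2)
  obtain rfl : i = i' := Fr_idx ha.2 hb.2
  rfl

lemma abs_rho_le {s κ : ℕ} (hs : 2 ≤ s) (x : ℝ) : |rho0 s κ x| ≤ 2 := by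
  rw [rho0, sum_sigma']
  have := abs_sum_le_one (t := fun a : Σ _ : ℕ, Σ _ : ℕ, ℕ => bg (wd κ (κ - s - a.1)) (x - fr a.2))
    (fun a _ => by rw [abs_of_nonneg (bg_nonneg _ _)]; exact bg_le_one _ _) (rho_uniq hs x)
  refine (abs_sub _ _).trans ?_
  rw [abs_one]
  linarith

lemma rho_supp {s κ : ℕ} (hs : 2 ≤ s) {x : ℝ} (h : rho0 s κ x ≠ 0) {i : ℕ} (hi : i + s ≤ κ)
    {z : Σ _ : ℕ, ℕ} (hz : z ∈ Fr i) : wd κ (κ - s - i) < nr (x - fr z) := by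
  by_contra hc
  have a := bg_one (wd_pos _ _) (not_lt.1 hc)
  have m : (⟨i, z⟩ : Σ _ : ℕ, Σ _ : ℕ, ℕ) ∈ (Is s κ).sigma Fr := mem_sigma.2 ⟨mem_Is.2 hi, hz⟩
  refine h ?_
  rw [rho0, sum_sigma', sum_eq_single_of_mem _ m fun b hb hba => by_contra fun hc =>
    hba (rho_uniq hs x b hb _ m hc (by simp [a])), a, sub_self]

/-- the conclusion of `WwStmt` -/
def WwB (C1 : ℕ) (C : ℝ) : Prop :=
  ∀ N : ℕ, 1 ≤ N → ∀ (x : ℝ) (a : ℤ) (q : ℕ) (L : ℝ), 1 ≤ q →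
    IsCoprime a (q : ℤ) → q ≤ (2 * C1 + 2) * N →
    |x - a / q| ≤ 1 / ((2 * C1 + 2) * N * q : ℝ) → 1 ≤ L → L ≤ max 1 (N ^ 2 * |x - a / q|) →
      ww C1 N x ≤ C * (N ^ 2 / (q * L) * (1 + Real.log L) + N * (1 + Real.log q))

lemma wwB_of (h : WwStmt) (C1 : ℕ) : ∃ C : ℝ, 0 ≤ C ∧ WwB C1 C := by
  obtain ⟨C, hC⟩ := h C1
  refine ⟨|C|, abs_nonneg C, fun N hN x a q L h1 h2 h3 h4 h5 h6 =>
    (hC N hN x a q L h1 h2 h3 h4 h5 h6).trans (mul_le_mul_of_nonneg_right (le_abs_self C) ?_)⟩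
  have := Real.log_nonneg h5
  have := Real.log_natCast_nonneg q
  positivity

lemma log_two_le : Real.log 2 ≤ 1 := by linarith [Real.log_two_lt_d9]

lemma eta_ww {C1 : ℕ} {C : ℝ} (hC : 0 ≤ C) (hW : WwB C1 C) {s κ i l : ℕ}
    (hs : 4 * (2 * C1 + 2 : ℝ) ≤ 2 ^ s) (h : i + l + s ≤ κ) {x : ℝ} (hx : eta κ i l x ≠ 0) :
    ww C1 (2 ^ κ) x ≤ 4 * C * ((2 ^ κ) ^ 2 / 2 ^ (i + l) * (1 + Real.log (2 ^ (i + l)))) := by
  obtain ⟨z, hz, h1⟩ := exists_ne_zero_of_sum_ne_zero hx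
  obtain ⟨L, l1, l2, l3, l4⟩ := dg_low h1
  have p : (0 : ℝ) < z.1 := by exact_mod_cast den_pos hz
  obtain ⟨⟨q1, q2⟩, -, c⟩ := mem_Fr.1 hz
  have q1' : (2 : ℝ) ^ i ≤ z.1 := by exact_mod_cast q1
  have q2' : (z.1 : ℝ) ≤ 2 * 2 ^ i := by exact_mod_cast q2.le
  have e : |x - ((z.2 + round (x - fr z) * z.1 : ℤ) : ℝ) / z.1| = nr (x - fr z) := by
    rw [nr]; congr 1; generalize round (x - fr z) = n; rw [fr]; push_cast; field_simp; ring
  have hN : (0 : ℝ) < 2 ^ κ := by positivity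
  have hM : (0 : ℝ) < 2 * C1 + 2 := by positivity
  have hd := den_le h hz
  have w := hW (2 ^ κ) Nat.one_le_two_pow x (z.2 + round (x - fr z) * z.1) z.1 L (den_pos hz)
    ((Nat.isCoprime_iff_coprime.2 c).add_mul_right_left _) (by
      have : (z.1 : ℝ) ≤ (2 * C1 + 2) * 2 ^ κ := by
        have : (0 : ℝ) ≤ C1 := Nat.cast_nonneg _
        nlinarith [mul_nonneg this hN.le, mul_nonneg this p.le]
      exact_mod_cast this) (by
      rw [e]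
      refine ((dg_supp h1).le.trans (rad_le h hz)).trans ?_
      push_cast
      rw [div_div, div_le_div_iff₀ (by positivity) (by positivity)]
      nlinarith [mul_le_mul_of_nonneg_right hs (mul_pos hN p).le]) l1 (by
      rw [e]; push_cast; exact l4)
  push_cast at w
  have P1 : (1 : ℝ) ≤ 2 ^ i := one_le_pow₀ one_le_two
  have P2 : (1 : ℝ) ≤ 2 ^ l := one_le_pow₀ one_le_two
  have P3 : (2 : ℝ) ^ (i + l) ≤ 2 ^ κ := pow_le_pow_right₀ one_le_two (by omega)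
  have P0 : (0 : ℝ) < 2 ^ (i + l) := by positivity
  have g0 : 0 ≤ Real.log (2 ^ (i + l)) := Real.log_nonneg (one_le_pow₀ one_le_two)
  have g1 : Real.log L ≤ Real.log (2 ^ (i + l)) :=
    Real.log_le_log (by linarith) (by rw [pow_add]; nlinarith)
  have g2 : Real.log z.1 ≤ 1 + Real.log (2 ^ (i + l)) := by
    refine (Real.log_le_log p (show _ ≤ 2 * 2 ^ (i + l) by rw [pow_add]; nlinarith)).trans ?_
    rw [Real.log_mul two_ne_zero P0.ne']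
    linarith [log_two_le]
  have g3 : ((2 : ℝ) ^ κ) ^ 2 / (z.1 * L) ≤ 2 * ((2 ^ κ) ^ 2 / 2 ^ (i + l)) := by
    rw [← mul_div_assoc, div_le_div_iff₀ (by positivity) P0, pow_add]
    have : (2 : ℝ) ^ i * 2 ^ l ≤ z.1 * (2 * L) := mul_le_mul q1' l2 (by positivity) p.le
    nlinarith [mul_le_mul_of_nonneg_left this (sq_nonneg ((2 : ℝ) ^ κ))]
  have g4 : (2 : ℝ) ^ κ ≤ (2 ^ κ) ^ 2 / 2 ^ (i + l) := by
    rw [le_div_iff₀ P0, sq]; gcongr
  have g5 := Real.log_nonneg l1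
  have g6 := Real.log_natCast_nonneg z.1
  refine w.trans ?_
  generalize ((2 : ℝ) ^ κ) ^ 2 / 2 ^ (i + l) = X at *
  have hX : 0 ≤ X := hN.le.trans g4
  calc _ ≤ C * (2 * X * (1 + Real.log (2 ^ (i + l))) + X * (1 + (1 + Real.log (2 ^ (i + l))))) := by
        gcongr
    _ ≤ _ := by nlinarith [mul_nonneg hC (mul_nonneg hX g0)]

lemma rho_ww {C1 : ℕ} {C : ℝ} (hC : 0 ≤ C) (hW : WwB C1 C) {s κ : ℕ} (hs : 2 ≤ s) {x : ℝ}
    (hx : rho0 s κ x ≠ 0) :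
    ww C1 (2 ^ κ) x ≤ C * (2 ^ s + (2 * C1 + 3)) * (2 ^ κ * (1 + Real.log (2 ^ κ))) := by
  have hN : (1 : ℝ) ≤ 2 ^ κ := one_le_pow₀ one_le_two
  obtain ⟨ρ, r1, r2⟩ := Real.exists_rat_abs_sub_le_and_den_le x
    (show 0 < (2 * C1 + 2) * 2 ^ κ by positivity)
  have p : (0 : ℝ) < ρ.den := by exact_mod_cast ρ.pos
  have p' : (0 : ℤ) < ρ.den := by exact_mod_cast ρ.pos
  rw [Rat.cast_def] at r1
  have q1 : 2 ^ Nat.log 2 ρ.den ≤ ρ.den := Nat.pow_log_le_self 2 ρ.pos.ne'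
  have q2 : ρ.den < 2 * 2 ^ Nat.log 2 ρ.den := by
    rw [← pow_succ']; exact Nat.lt_pow_succ_log_self one_lt_two _
  generalize Nat.log 2 ρ.den = i at q1 q2
  have q1' : (2 : ℝ) ^ i ≤ ρ.den := by exact_mod_cast q1
  obtain ⟨L, l1, l2, l3, l4⟩ : ∃ L : ℝ, 1 ≤ L ∧ L ≤ 2 ^ κ ∧ 2 ^ κ ≤ ρ.den * L * 2 ^ s ∧
      L ≤ max 1 ((2 ^ κ) ^ 2 * |x - ρ.num / ρ.den|) := by
    by_cases hi : i + s ≤ κ
    · refine ⟨2 ^ (κ - s - i), one_le_pow₀ one_le_two, pow_le_pow_right₀ one_le_two (by omega), ?_,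
        le_max_of_le_right ?_⟩
      · calc (2 : ℝ) ^ κ = 2 ^ i * 2 ^ (κ - s - i) * 2 ^ s := by
              rw [← pow_add, ← pow_add]; congr 1; omega
          _ ≤ _ := by gcongr
      · have e : (((ρ.num % ρ.den).toNat : ℕ) : ℤ) = ρ.num - ρ.den * (ρ.num / ρ.den) := by
          rw [Int.toNat_of_nonneg (Int.emod_nonneg _ p'.ne'), Int.emod_def]
        have m : (⟨ρ.den, (ρ.num % ρ.den).toNat⟩ : Σ _ : ℕ, ℕ) ∈ Fr i := by
          refine mem_Fr.2 ⟨⟨q1, q2⟩, ?_, ?_⟩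
          · have := Int.emod_lt_of_pos ρ.num p'
            simp only
            omega
          · rw [← Nat.isCoprime_iff_coprime]
            simp only
            rw [e, sub_eq_add_neg, ← mul_neg]
            exact ρ.isCoprime_num_den.add_mul_left_left _
        have a := rho_supp hs hx hi m
        have b := round_le (x - fr ⟨ρ.den, (ρ.num % ρ.den).toNat⟩) (ρ.num / ρ.den)
        have e' : (((ρ.num % ρ.den).toNat : ℕ) : ℝ) = ρ.num - ρ.den * (ρ.num / ρ.den : ℤ) := by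
          exact_mod_cast e
        have e2 : x - fr ⟨ρ.den, (ρ.num % ρ.den).toNat⟩ - (ρ.num / ρ.den : ℤ)
            = x - ρ.num / ρ.den := by
          simp only [fr]
          rw [e']
          field_simp
          ring
        rw [e2] at b
        have c := a.trans_le b
        rw [wd, div_lt_iff₀ (by positivity), mul_comm] at c
        exact c.le
    · refine ⟨1, le_rfl, hN, ?_, le_max_left _ _⟩
      calc (2 : ℝ) ^ κ ≤ 2 ^ (i + s) := pow_le_pow_right₀ one_le_two (by omega)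
        _ ≤ _ := by rw [pow_add, mul_one]; gcongr
  have w := hW (2 ^ κ) Nat.one_le_two_pow x ρ.num ρ.den L ρ.pos ρ.isCoprime_num_den r2
    (r1.trans (one_div_le_one_div_of_le (by positivity) (by push_cast; nlinarith))) l1
    (by push_cast; exact l4)
  push_cast at w
  have g0 : 0 ≤ Real.log (2 ^ κ) := Real.log_nonneg hN
  have g1 : Real.log L ≤ Real.log (2 ^ κ) := Real.log_le_log (by linarith) l2
  have c1 : (0 : ℝ) ≤ C1 := Nat.cast_nonneg _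
  have g2 : Real.log ρ.den ≤ 2 * C1 + 2 + Real.log (2 ^ κ) := by
    have : (ρ.den : ℝ) ≤ (2 * C1 + 2) * 2 ^ κ := by exact_mod_cast r2
    refine (Real.log_le_log p this).trans ?_
    rw [Real.log_mul (by positivity) (by positivity)]
    linarith [Real.log_le_sub_one_of_pos (show (0 : ℝ) < 2 * C1 + 2 by positivity)]
  have g3 : ((2 : ℝ) ^ κ) ^ 2 / (ρ.den * L) ≤ 2 ^ s * 2 ^ κ := by
    rw [div_le_iff₀ (by positivity)]
    nlinarith [mul_le_mul_of_nonneg_left l3 (show (0 : ℝ) ≤ 2 ^ κ by positivity)]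
  have g5 := Real.log_nonneg l1
  have g6 := Real.log_natCast_nonneg ρ.den
  refine w.trans ?_
  rw [mul_assoc]
  refine mul_le_mul_of_nonneg_left ?_ hC
  calc _ ≤ 2 ^ s * 2 ^ κ * (1 + Real.log (2 ^ κ))
        + 2 ^ κ * (1 + (2 * C1 + 2 + Real.log (2 ^ κ))) := by gcongr
    _ ≤ _ := by nlinarith [mul_nonneg (mul_nonneg c1 g0) (zero_le_one.trans hN),
        mul_nonneg g0 (zero_le_one.trans hN)]

lemma gw_nonneg (N : ℕ) (y : ℝ) : 0 ≤ gw N y :=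
  div_nonneg (by positivity) (le_max_of_le_left zero_le_two)

lemma ww_nonneg (C1 N : ℕ) (x : ℝ) : 0 ≤ ww C1 N x := sum_nonneg fun _ _ => gw_nonneg _ _

lemma ww_le (C1 : ℕ) {N : ℕ} (hN : 1 ≤ N) (x : ℝ) : ww C1 N x ≤ (2 * C1 + 1) * (N : ℝ) ^ 2 := by
  have h1 : ∀ y, gw N y ≤ N := fun y => by
    rw [gw, div_le_iff₀ (lt_max_of_lt_left two_pos), mul_comm]
    exact mul_le_mul_of_nonneg_left (le_max_left _ _) (Nat.cast_nonneg N)
  refine (sum_le_card_nsmul _ _ _ fun l _ => h1 _).trans ?_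
  have e : ((C1 * N : ℕ) + 1 - -((C1 * N : ℕ) : ℤ)).toNat = 2 * (C1 * N) + 1 := by omega
  have hN' : (1 : ℝ) ≤ N := by exact_mod_cast hN
  rw [Int.card_Icc, e, nsmul_eq_mul]
  push_cast
  nlinarith

end

end Pool.Agent.MP_ba99b7_an.Arc
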