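import Mathlib.Topology.Sheaves.Presheaf
import Mathlib.Data.Int.Star
import Mathlib.AlgebraicTopology.FundamentalGroupoid.SimplyConnected
import Mathlib.Analysis.Convex.Contractible
import Mathlib.MeasureTheory.Covering.BesicovitchVectorSpace
import Mathlib.Combinatorics.SimpleGraph.Basic
import Mathlib.Data.Set.Finite.List
import Mathlib.RingTheory.PiTensorProduct
import Mathlib.Tactic.Polynomial.Basic
import Pool.Agent.MP_ba99b7_an.SpecAn
import Pool.Agent.MP_ba99b7_an.Base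

-- ======== part 0: formerly Pool.Agent.MP_ba99b7_an.SumA
section MrgPart0

/-! PROJECT STRI, module SUM, part A: summation of dyadic blocks. -/

namespace Pool.Agent.MP_ba99b7_an

open scoped ComplexConjugate ENNReal
open MeasureTheory Finset

namespace Sum

lemma geo_le {r : ℝ} (h0 : 0 ≤ r) (h1 : r < 1) (n : ℕ) :
    ∑ i ∈ range n, r ^ i ≤ 1 / (1 - r) := by
  have h := geom_sum_mul_neg r n
  have h2 : 0 ≤ r ^ n := pow_nonneg h0 n
  rw [le_div_iff₀ (by linarith)]
  linarith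

lemma geo_up {r : ℝ} (h0 : 0 ≤ r) (h1 : r < 1) (j n : ℕ) :
    ∑ k ∈ (range n).filter (fun k => j < k), r ^ (k - j) ≤ 1 / (1 - r) := by
  have hs : (range n).filter (fun k => j < k) = Ico (j + 1) n := by
    ext k; simp only [mem_filter, mem_range, mem_Ico]; omega
  rw [hs, sum_Ico_eq_sum_range]
  refine le_trans (sum_le_sum fun i _ => ?_) (geo_le h0 h1 (n - (j + 1)))
  exact pow_le_pow_of_le_one h0 h1.le (by omega)

lemma geo_down {r : ℝ} (h0 : 0 ≤ r) (h1 : r < 1) (k : ℕ) :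
    ∑ j ∈ range k, r ^ (k - j) ≤ 1 / (1 - r) := by
  rw [← sum_range_reflect]
  refine le_trans (sum_le_sum fun i hi => ?_) (geo_le h0 h1 k)
  have := mem_range.1 hi
  exact pow_le_pow_of_le_one h0 h1.le (by omega)

lemma geo_big {G : ℝ} (hG : 1 < G) (j : ℕ) :
    ∑ k ∈ range (j + 1), G ^ k ≤ G / (G - 1) * G ^ j := by
  have h := geom_sum_mul G (j + 1)
  rw [div_mul_eq_mul_div, le_div_iff₀ (by linarith), h, pow_succ]
  linarith

/-- The pointwise alternative. -/
lemma point {G r : ℝ} (hG : 1 < G) (h0 : 0 ≤ r) (h1 : r < 1) (n : ℕ) (v : ℕ → ℝ)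
    (hv : ∀ k < n, v k ≤ G ^ k) :
    ∑ k ∈ range n, v k ≤ 2 * (G / (G - 1)) ∨ ∃ j k, j < k ∧ k < n ∧
      ∑ k ∈ range n, v k ≤ 2 * (G / (G - 1)) * G ^ (j + 1) ∧
      (1 - r) * (G / (G - 1)) * G ^ j * r ^ (k - j) < v k := by
  set K := G / (G - 1) with hK
  have hK0 : 0 < K := div_pos (by linarith) (by linarith)
  set U := ∑ k ∈ range n, v k with hU
  by_cases hU0 : U ≤ 2 * K
  · exact Or.inl hU0
  right
  have hex : ∃ j, U ≤ 2 * K * G ^ (j + 1) := by
    obtain ⟨j, hj⟩ := pow_unbounded_of_one_lt (U / (2 * K)) hG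
    refine ⟨j, ?_⟩
    rw [div_lt_iff₀ (by positivity)] at hj
    have : G ^ j ≤ G ^ (j + 1) := pow_le_pow_right₀ hG.le (by omega)
    nlinarith
  classical
  set j := Nat.find hex with hj
  have hj1 : U ≤ 2 * K * G ^ (j + 1) := Nat.find_spec hex
  have hj2 : 2 * K * G ^ j < U := by
    rcases Nat.eq_zero_or_pos j with h | h
    · rw [h]; simpa using hU0
    · have := Nat.find_min hex (m := j - 1) (by omega)
      rw [show j - 1 + 1 = j by omega] at this
      exact not_le.1 this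
  by_contra hcon
  have hall : ∀ k, j < k → k < n → v k ≤ (1 - r) * K * G ^ j * r ^ (k - j) := by
    intro k hk hk'
    by_contra h
    exact hcon ⟨j, k, hk, hk', hj1, not_le.1 h⟩
  have hsplit := sum_filter_add_sum_filter_not (range n) (fun k => j < k) v
  have hA : ∑ k ∈ (range n).filter (fun k => j < k), v k ≤ K * G ^ j := by
    calc _ ≤ ∑ k ∈ (range n).filter (fun k => j < k), (1 - r) * K * G ^ j * r ^ (k - j) :=
          sum_le_sum fun k hk => by
            rw [mem_filter, mem_range] at hk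
            exact hall k hk.2 hk.1
      _ = (1 - r) * K * G ^ j * ∑ k ∈ (range n).filter (fun k => j < k), r ^ (k - j) := by
          rw [mul_sum]
      _ ≤ (1 - r) * K * G ^ j * (1 / (1 - r)) := by
          have : 0 ≤ (1 - r) * K * G ^ j := by
            have : 0 < 1 - r := by linarith
            positivity
          exact mul_le_mul_of_nonneg_left (geo_up h0 h1 j n) this
      _ = K * G ^ j := by
          have : 1 - r ≠ 0 := by linarith
          field_simp
  have hB : ∑ k ∈ (range n).filter (fun k => ¬ j < k), v k ≤ K * G ^ j := by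
    calc _ ≤ ∑ k ∈ (range n).filter (fun k => ¬ j < k), G ^ k :=
          sum_le_sum fun k hk => by
            rw [mem_filter, mem_range] at hk
            exact hv k hk.1
      _ ≤ ∑ k ∈ range (j + 1), G ^ k := by
          refine sum_le_sum_of_subset_of_nonneg ?_ fun _ _ _ => by positivity
          intro k hk
          rw [mem_filter, mem_range] at hk
          rw [mem_range]; omega
      _ ≤ K * G ^ j := geo_big hG j
  linarith

/-- The normalised summation lemma. -/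
lemma core {G p0 p : ℝ} (hG : 1 < G) (hp0 : 2 ≤ p0) (hp : p0 < p) : ∃ C : ℝ, 0 ≤ C ∧
    ∀ (X : Type) [MeasurableSpace X] (m : Measure X) [IsProbabilityMeasure m] (n : ℕ)
      (v : ℕ → X → ℝ) (β : ℕ → ℝ), (∀ k, Measurable (v k)) → (∀ k x, 0 ≤ v k x) →
      (∀ k, 0 ≤ β k) → ∑ k ∈ range n, β k ^ 2 ≤ 1 → (∀ k < n, ∀ x, v k x ≤ G ^ k) →
      (∀ k < n, ∀ α : ℝ, 0 < α → α ^ p0 * m.real {x | α < v k x}
        ≤ ((G ^ (p - p0))⁻¹) ^ k * β k ^ p0) →
      ∫⁻ x, ENNReal.ofReal ((∑ k ∈ range n, v k x) ^ p) ∂m ≤ ENNReal.ofReal C := by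
  have hG0 : 0 < G := by linarith
  have hp00 : 0 < p0 := by linarith
  have hpp : 0 < p := by linarith
  set K := G / (G - 1) with hK
  have hK0 : 0 < K := div_pos (by linarith) (by linarith)
  set ρ : ℝ := G ^ (-((p - p0) / 2)) with hρ
  set r : ℝ := G ^ (-((p - p0) / (2 * p0))) with hr
  have hρ0 : 0 < ρ := Real.rpow_pos_of_pos hG0 _
  have hr0 : 0 < r := Real.rpow_pos_of_pos hG0 _
  have hρ1 : ρ < 1 := Real.rpow_lt_one_of_one_lt_of_neg hG (by linarith)
  have hr1 : r < 1 := Real.rpow_lt_one_of_one_lt_of_neg hG (by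
    have : 0 < (p - p0) / (2 * p0) := div_pos (by linarith) (by linarith)
    linarith)
  have hrρ : r ^ p0 = ρ := by
    rw [hr, hρ, ← Real.rpow_mul hG0.le]
    congr 1
    field_simp
  have hρ2 : ρ * ρ * G ^ (p - p0) = 1 := by
    rw [hρ, ← Real.rpow_add hG0, ← Real.rpow_add hG0]
    rw [show -((p - p0) / 2) + -((p - p0) / 2) + (p - p0) = 0 by ring, Real.rpow_zero]
  have h1r : 0 < 1 - r := by linarith
  set E : ℝ := (2 * K * G) ^ p / ((1 - r) * K) ^ p0 with hE
  have hE0 : 0 ≤ E := by positivity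
  have h1ρ : 0 < 1 - ρ := by linarith
  refine ⟨(2 * K) ^ p + E * (1 / (1 - ρ)), by positivity, ?_⟩
  intro X _ m _ n v β hvm hv0 hβ0 hβ hvG hw
  set t : ℕ → ℕ → ℝ := fun j k => (1 - r) * K * G ^ j * r ^ (k - j) with ht
  have ht0 : ∀ j k, 0 < t j k := fun j k => by simp only [ht]; positivity
  set A : ℕ → ℕ → Set X := fun j k => {x | t j k < v k x} with hA
  have hAm : ∀ j k, MeasurableSet (A j k) := fun j k =>
    measurableSet_lt measurable_const (hvm k)
  set w : ℕ → ℝ := fun j => (2 * K * G ^ (j + 1)) ^ p with hwd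
  have hw0 : ∀ j, 0 ≤ w j := fun j => by simp only [hwd]; positivity
  set F : X → ℝ := fun x => (2 * K) ^ p + ∑ k ∈ range n, ∑ j ∈ range k,
    (A j k).indicator (fun _ => w j) x with hF
  have hind0 : ∀ j k x, 0 ≤ (A j k).indicator (fun _ => w j) x := fun j k x =>
    Set.indicator_nonneg (fun _ _ => hw0 j) x
  have hpt : ∀ x, (∑ k ∈ range n, v k x) ^ p ≤ F x := by
    intro x
    have hU0 : 0 ≤ ∑ k ∈ range n, v k x := sum_nonneg fun k _ => hv0 k x
    have hS0 : 0 ≤ ∑ k ∈ range n, ∑ j ∈ range k, (A j k).indicator (fun _ => w j) x :=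
      sum_nonneg fun k _ => sum_nonneg fun j _ => hind0 j k x
    rcases point hG hr0.le hr1 n (fun k => v k x) (fun k hk => hvG k hk x) with h | h
    · have := Real.rpow_le_rpow hU0 h hpp.le
      simp only [hF]; linarith
    · obtain ⟨j, k, hjk, hkn, h1, h2⟩ := h
      have h3 := Real.rpow_le_rpow hU0 h1 hpp.le
      have h4 : w j ≤ ∑ k ∈ range n, ∑ j ∈ range k, (A j k).indicator (fun _ => w j) x := by
        calc w j = (A j k).indicator (fun _ => w j) x := by
              rw [Set.indicator_of_mem]; exact h2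
          _ ≤ ∑ j ∈ range k, (A j k).indicator (fun _ => w j) x :=
              single_le_sum (f := fun j => (A j k).indicator (fun _ => w j) x)
                (fun j _ => hind0 j k x) (mem_range.2 hjk)
          _ ≤ _ := single_le_sum
                (f := fun k => ∑ j ∈ range k, (A j k).indicator (fun _ => w j) x)
                (fun k _ => sum_nonneg fun j _ => hind0 j k x) (mem_range.2 hkn)
      have h5 : 0 ≤ (2 * K) ^ p := by positivity
      simp only [hF]
      simp only [hwd] at h4 ⊢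
      linarith
  have hint : ∀ j k, Integrable ((A j k).indicator (fun _ => w j)) m := fun j k =>
    (integrable_const _).indicator (hAm j k)
  have hint2 : ∀ k, Integrable (fun x => ∑ j ∈ range k, (A j k).indicator (fun _ => w j) x) m :=
    fun k => integrable_finsetSum _ fun j _ => hint j k
  have hint3 : Integrable (fun x => ∑ k ∈ range n, ∑ j ∈ range k,
      (A j k).indicator (fun _ => w j) x) m := integrable_finsetSum _ fun k _ => hint2 k
  have hFi : Integrable F m := (integrable_const _).add hint3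
  have hF0 : ∀ x, 0 ≤ F x := fun x => le_trans (Real.rpow_nonneg
    (sum_nonneg fun k _ => hv0 k x) _) (hpt x)
  have hterm : ∀ k < n, ∀ j < k, m.real (A j k) * w j ≤ E * ρ ^ (k - j) * β k ^ 2 := by
    intro k hk j hj
    have h1 := hw k hk (t j k) (ht0 j k)
    have hβ1 : β k ≤ 1 := by
      have : β k ^ 2 ≤ 1 := le_trans (single_le_sum (f := fun k => β k ^ 2)
        (fun k _ => sq_nonneg _) (mem_range.2 hk)) hβ
      nlinarith [hβ0 k]
    have h2 : β k ^ p0 ≤ β k ^ 2 := by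
      have := Real.rpow_le_rpow_of_exponent_ge' (hβ0 k) hβ1 (by norm_num : (0 : ℝ) ≤ 2) hp0
      simpa using this
    obtain ⟨i, rfl⟩ : ∃ i, k = j + i := ⟨k - j, by omega⟩
    rw [Nat.add_sub_cancel_left]
    set Gd := G ^ (p - p0) with hGd
    have hGd0 : 0 < Gd := Real.rpow_pos_of_pos hG0 _
    set Gq := G ^ p0 with hGq
    have hGq0 : 0 < Gq := Real.rpow_pos_of_pos hG0 _
    have htp : t j (j + i) ^ p0 = ((1 - r) * K) ^ p0 * Gq ^ j * ρ ^ i := by
      simp only [ht]
      rw [Nat.add_sub_cancel_left, Real.mul_rpow (by positivity) (by positivity),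
        Real.mul_rpow (by positivity) (by positivity), ← Real.rpow_pow_comm hG0.le,
        ← Real.rpow_pow_comm hr0.le, hrρ]
    have hwj : w j = (2 * K * G) ^ p * (Gd ^ j * Gq ^ j) := by
      simp only [hwd]
      rw [show 2 * K * G ^ (j + 1) = 2 * K * G * G ^ j by ring,
        Real.mul_rpow (by positivity) (by positivity), ← Real.rpow_pow_comm hG0.le, ← mul_pow,
        hGd, hGq, ← Real.rpow_add hG0, sub_add_cancel]
    set B := ((1 - r) * K) ^ p0 with hB
    have hB0 : 0 < B := by positivity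
    have hGi : Gd⁻¹ = ρ * ρ := by
      field_simp
      nlinarith [hρ2]
    have hm : m.real (A j (j + i)) ≤ Gd⁻¹ ^ (j + i) * β (j + i) ^ 2 / (B * Gq ^ j * ρ ^ i) := by
      rw [le_div_iff₀ (by positivity), ← htp, mul_comm]
      refine le_trans h1 ?_
      exact mul_le_mul_of_nonneg_left h2 (by positivity)
    calc m.real (A j (j + i)) * w j
        ≤ Gd⁻¹ ^ (j + i) * β (j + i) ^ 2 / (B * Gq ^ j * ρ ^ i) * w j :=
          mul_le_mul_of_nonneg_right hm (hw0 j)
      _ = E * ρ ^ i * β (j + i) ^ 2 := by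
          rw [hwj, pow_add, hE]
          have e1 : Gd⁻¹ ^ i = ρ ^ i * ρ ^ i := by rw [hGi, mul_pow]
          rw [e1, inv_pow]
          field_simp
  have hFint : ∫ x, F x ∂m ≤ (2 * K) ^ p + E * (1 / (1 - ρ)) := by
    simp only [hF]
    rw [integral_add (integrable_const _) hint3, integral_finsetSum _ fun k _ => hint2 k]
    simp only [integral_const, probReal_univ, smul_eq_mul, one_mul]
    gcongr
    calc ∑ k ∈ range n, ∫ x, ∑ j ∈ range k, (A j k).indicator (fun _ => w j) x ∂m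
        ≤ ∑ k ∈ range n, E * (1 / (1 - ρ)) * β k ^ 2 := by
          refine sum_le_sum fun k hk => ?_
          rw [integral_finsetSum _ fun j _ => hint j k]
          calc ∑ j ∈ range k, ∫ x, (A j k).indicator (fun _ => w j) x ∂m
              ≤ ∑ j ∈ range k, E * ρ ^ (k - j) * β k ^ 2 := by
                refine sum_le_sum fun j hj => ?_
                rw [integral_indicator_const _ (hAm j k), smul_eq_mul]
                exact hterm k (mem_range.1 hk) j (mem_range.1 hj)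
            _ = E * (∑ j ∈ range k, ρ ^ (k - j)) * β k ^ 2 := by
                rw [mul_sum, sum_mul]
            _ ≤ _ := by
                gcongr
                exact geo_down hρ0.le hρ1 k
      _ = E * (1 / (1 - ρ)) * ∑ k ∈ range n, β k ^ 2 := by rw [mul_sum]
      _ ≤ E * (1 / (1 - ρ)) * 1 := by gcongr
      _ = _ := mul_one _
  calc ∫⁻ x, ENNReal.ofReal ((∑ k ∈ range n, v k x) ^ p) ∂m
      ≤ ∫⁻ x, ENNReal.ofReal (F x) ∂m :=
        lintegral_mono fun x => ENNReal.ofReal_le_ofReal (hpt x)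
    _ = ENNReal.ofReal (∫ x, F x ∂m) :=
        (ofReal_integral_eq_lintegral_ofReal hFi (Filter.Eventually.of_forall hF0)).symm
    _ ≤ _ := ENNReal.ofReal_le_ofReal hFint

/-- From a bound of the `p`-th moment of a majorant to the `L^p` norm. -/
lemma eLp_le {X : Type} [MeasurableSpace X] (m : Measure X) {p C S : ℝ} (hp : 0 < p)
    (hC : 0 ≤ C) (hS : 0 ≤ S) (f : X → ℂ) (U : X → ℝ) (hU : ∀ x, 0 ≤ U x)
    (hf : ∀ x, ‖f x‖ ≤ S * U x)
    (h : ∫⁻ x, ENNReal.ofReal (U x ^ p) ∂m ≤ ENNReal.ofReal C) :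
    eLpNorm f (ENNReal.ofReal p) m ≤ ENNReal.ofReal (C ^ (1 / p) * S) := by
  rw [eLpNorm_eq_lintegral_rpow_enorm_toReal (by simpa using hp) ENNReal.ofReal_ne_top,
    ENNReal.toReal_ofReal hp.le]
  have h1 : ∫⁻ x, ‖f x‖ₑ ^ p ∂m ≤ ENNReal.ofReal (S ^ p * C) := by
    calc ∫⁻ x, ‖f x‖ₑ ^ p ∂m
        ≤ ∫⁻ x, ENNReal.ofReal (S ^ p) * ENNReal.ofReal (U x ^ p) ∂m := by
          refine lintegral_mono fun x => ?_
          rw [← ofReal_norm, ENNReal.ofReal_rpow_of_nonneg (norm_nonneg _) hp.le,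
            ← ENNReal.ofReal_mul (by positivity), ← Real.mul_rpow hS (hU x)]
          exact ENNReal.ofReal_le_ofReal (Real.rpow_le_rpow (norm_nonneg _) (hf x) hp.le)
      _ = ENNReal.ofReal (S ^ p) * ∫⁻ x, ENNReal.ofReal (U x ^ p) ∂m :=
          lintegral_const_mul' _ _ ENNReal.ofReal_ne_top
      _ ≤ ENNReal.ofReal (S ^ p) * ENNReal.ofReal C := by gcongr
      _ = _ := (ENNReal.ofReal_mul (by positivity)).symm
  refine le_trans (ENNReal.rpow_le_rpow h1 (by positivity)) (le_of_eq ?_)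
  rw [ENNReal.ofReal_rpow_of_nonneg (by positivity) (by positivity),
    Real.mul_rpow (by positivity) hC, ← Real.rpow_mul hS, mul_one_div_cancel hp.ne',
    Real.rpow_one, mul_comm]

end Sum

theorem sum_stmt : SumStmt := by
  intro d p0 p C0 hp0 hp hC0
  have hpp : 0 < p := by linarith
  have hp00 : 0 < p0 := by linarith
  set g : ℝ := (d + 2) / p with hg
  have hg0 : 0 < g := by positivity
  set G : ℝ := (2 : ℝ) ^ g with hG
  have hG1 : 1 < G := Real.one_lt_rpow (by norm_num) hg0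
  obtain ⟨C, hC, hcore⟩ := Sum.core hG1 hp0 hp
  refine ⟨C ^ (1 / p) * C0, ?_⟩
  intro X _ m _ n u a hum ha hsup hweak
  set b : ℕ → ℝ := fun k => ((2 : ℝ) ^ k) ^ ((d : ℝ) / 2 - g) * a k with hb
  have hb0 : ∀ k, 0 ≤ b k := fun k => mul_nonneg (by positivity) (ha k)
  set S : ℝ := √(∑ k ∈ range n, b k ^ 2) with hS
  have hS0 : 0 ≤ S := Real.sqrt_nonneg _
  have hbS : ∀ k < n, b k ≤ S := fun k hk => Real.le_sqrt_of_sq_le
    (single_le_sum (f := fun k => b k ^ 2) (fun k _ => sq_nonneg _) (mem_range.2 hk))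
  have hGk : ∀ k : ℕ, G ^ k = ((2 : ℝ) ^ k) ^ g := fun k =>
    Real.rpow_pow_comm (by norm_num) _ _
  have hsup' : ∀ k x, ‖u k x‖ ≤ C0 * G ^ k * b k := by
    intro k x
    refine le_trans (hsup k x) (le_of_eq ?_)
    simp only [hb]
    rw [hGk, mul_assoc, mul_assoc, ← mul_assoc (_ ^ g), ← Real.rpow_add (by positivity)]
    congr 3
    ring
  rcases (mul_nonneg hC0 hS0).eq_or_lt with h0 | h0
  · have hz : (fun x => ∑ κ ∈ range n, u κ x) = 0 := by
      funext x
      refine sum_eq_zero fun k hk => ?_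
      have h1 := hsup' k x
      have h2 : C0 * G ^ k * b k ≤ C0 * G ^ k * S :=
        mul_le_mul_of_nonneg_left (hbS k (mem_range.1 hk)) (by positivity)
      have h3 : C0 * G ^ k * S = 0 := by
        rw [show C0 * G ^ k * S = C0 * S * G ^ k by ring, ← h0, zero_mul]
      exact norm_le_zero_iff.1 (by linarith)
    rw [hz, eLpNorm_zero]
    exact zero_le
  have hSpos : 0 < S := by
    rcases hS0.eq_or_lt with h | h
    · rw [← h] at h0; simp at h0
    · exact h
  have hC0pos : 0 < C0 := by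
    rcases hC0.eq_or_lt with h | h
    · rw [← h] at h0; simp at h0
    · exact h
  have key := hcore X m n (fun k x => ‖u k x‖ / (C0 * S)) (fun k => b k / S)
    (fun k => (hum k).norm.div_const _) (fun k x => by positivity)
    (fun k => div_nonneg (hb0 k) hS0) ?_ ?_ ?_
  · have := Sum.eLp_le m hpp hC h0.le (fun x => ∑ κ ∈ range n, u κ x)
      (fun x => ∑ k ∈ range n, ‖u k x‖ / (C0 * S))
      (fun x => sum_nonneg fun k _ => by positivity) (fun x => by
        rw [← sum_div, mul_div_cancel₀ _ h0.ne']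
        exact norm_sum_le _ _) key
    rw [mul_assoc]
    exact this
  · simp only [div_pow]
    rw [← sum_div, div_le_one (by positivity), hS,
      Real.sq_sqrt (sum_nonneg fun k _ => sq_nonneg _)]
  · intro k hk x
    rw [div_le_iff₀ h0]
    refine le_trans (hsup' k x) ?_
    have := mul_le_mul_of_nonneg_left (hbS k hk) (show 0 ≤ C0 * G ^ k by positivity)
    linarith
  · intro k hk α hα
    have h1 := hweak k (α * (C0 * S)) (by positivity)
    have hset : {x | α < ‖u k x‖ / (C0 * S)} = {x | α * (C0 * S) < ‖u k x‖} := by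
      ext x
      simp only [Set.mem_ofPred_eq]
      rw [lt_div_iff₀ h0]
    rw [hset]
    have hCS : 0 < (C0 * S) ^ p0 := Real.rpow_pos_of_pos h0 _
    rw [Real.mul_rpow hα.le h0.le] at h1
    have h2 : (C0 * ((2 : ℝ) ^ k) ^ ((d : ℝ) / 2 - (d + 2) / p0) * a k) ^ p0
        = (C0 * S) ^ p0 * (((G ^ (p - p0))⁻¹) ^ k * (b k / S) ^ p0) := by
      have e1 : ((G ^ (p - p0))⁻¹) ^ k = (((2 : ℝ) ^ k) ^ (g - (d + 2) / p0)) ^ p0 := by
        rw [hG, ← Real.rpow_mul (by norm_num), ← Real.rpow_neg (by norm_num),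
          Real.rpow_pow_comm (by norm_num), ← Real.rpow_mul (by positivity)]
        congr 1
        rw [hg]
        field_simp
        ring
      rw [e1, ← Real.mul_rpow (by positivity) (div_nonneg (hb0 k) hS0),
        ← Real.mul_rpow h0.le (mul_nonneg (by positivity) (div_nonneg (hb0 k) hS0))]
      congr 1
      simp only [hb]
      have e2 : ((2 : ℝ) ^ k) ^ ((d : ℝ) / 2 - (d + 2) / p0)
          = ((2 : ℝ) ^ k) ^ (g - (d + 2) / p0) * ((2 : ℝ) ^ k) ^ ((d : ℝ) / 2 - g) := by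
        rw [← Real.rpow_add (by positivity)]
        congr 1
        ring
      rw [e2]
      field_simp
    rw [h2] at h1
    have h3 : (C0 * S) ^ p0 * (α ^ p0 * m.real {x | α * (C0 * S) < ‖u k x‖})
        ≤ (C0 * S) ^ p0 * (((G ^ (p - p0))⁻¹) ^ k * (b k / S) ^ p0) := by
      linarith
    exact le_of_mul_le_mul_left h3 hCS

end Pool.Agent.MP_ba99b7_an

end MrgPart0

-- ======== part 1: formerly Pool.Agent.MP_ba99b7_an.MinorA
section MrgPart1

/-! PROJECT STRI, module MINOR: the cut-off pieces and the lattice point count. -/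

namespace Pool.Agent.MP_ba99b7_an.Minor

open Finset MeasureTheory

/-- The smaller exponent of a piece. -/
def lo (l : ℕ) : ℕ := if l = 0 then 0 else 2 ^ (l - 1)

/-- The larger exponent of a piece. -/
def hi (κ l : ℕ) : ℕ := 2 ^ (min l κ)

/-- The sign of the second term of a piece. -/
def sg (κ l : ℕ) : ℝ := if l ≤ κ then -1 else 0

/-- The pieces of the partition of unity. -/
def pc (κ l : ℕ) (s : ℝ) : ℝ := sg κ l * s ^ hi κ l + s ^ lo l

theorem sum_pc (κ : ℕ) (s : ℝ) : ∑ l ∈ range (κ + 2), pc κ l s = 1 := by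
  have h : ∀ n, n ≤ κ → ∑ l ∈ range (n + 1), pc κ l s = 1 - s ^ 2 ^ n := by
    intro n
    induction n with
    | zero => intro _; simp [pc, sg, hi, lo]; ring
    | succ n ih =>
      intro hn
      rw [sum_range_succ, ih (by omega)]
      simp only [pc, sg, hi, lo, hn, if_true, min_eq_left hn, Nat.succ_ne_zero, if_false,
        Nat.add_sub_cancel]
      ring
  rw [sum_range_succ, h κ le_rfl]
  simp [pc, sg, lo]

theorem lo_le_hi (κ l : ℕ) (hl : l ≤ κ + 1) : lo l ≤ hi κ l := by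
  unfold lo hi
  split_ifs with h
  · exact Nat.zero_le _
  · exact Nat.pow_le_pow_right (by norm_num) (by omega)

theorem hi_le (κ l : ℕ) : hi κ l ≤ 2 ^ κ :=
  Nat.pow_le_pow_right (by norm_num) (min_le_right _ _)

theorem two_pow_le_lo (l : ℕ) : 2 ^ l ≤ 2 * (1 + lo l) := by
  unfold lo
  split_ifs with h
  · simp [h]
  · obtain ⟨k, rfl⟩ := Nat.exists_eq_succ_of_ne_zero h
    simp only [Nat.succ_eq_add_one, Nat.add_sub_cancel, pow_succ]
    omega

theorem abs_sg_le (κ l : ℕ) : |sg κ l| ≤ 1 := by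
  unfold sg; split_ifs <;> simp

theorem one_sub_pow_le (s : ℝ) (h0 : 0 ≤ s) (n : ℕ) : 1 - s ^ n ≤ n * (1 - s) := by
  have := one_add_mul_le_pow (a := s - 1) (by linarith) n
  rw [add_sub_cancel] at this
  linarith

theorem pc_nonneg (κ l : ℕ) (hl : l ≤ κ + 1) (s : ℝ) (h0 : 0 ≤ s) (h1 : s ≤ 1) :
    0 ≤ pc κ l s := by
  have := pow_le_pow_of_le_one h0 h1 (lo_le_hi κ l hl)
  unfold pc sg
  split_ifs
  · linarith
  · have := pow_nonneg h0 (lo l); linarith

theorem pc_le_one (κ l : ℕ) (s : ℝ) (h0 : 0 ≤ s) (h1 : s ≤ 1) : pc κ l s ≤ 1 := by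
  have h2 := pow_le_one₀ h0 h1 (n := lo l)
  have h3 := pow_nonneg h0 (hi κ l)
  unfold pc sg
  split_ifs <;> linarith

theorem pc_sq_le (κ l : ℕ) (hl : l ≤ κ + 1) (s : ℝ) (h0 : 0 ≤ s) (h1 : s ≤ 1) :
    pc κ l s ^ 2 ≤ (2 : ℝ) ^ l / 2 ^ κ * (1 + 2 ^ κ * (1 - s)) := by
  have a0 := pc_nonneg κ l hl s h0 h1
  have a1 := pc_le_one κ l s h0 h1
  have hN : (0 : ℝ) < 2 ^ κ := by positivity
  have hy : 0 ≤ 1 - s := by linarith
  have e : (2 : ℝ) ^ l / 2 ^ κ * (1 + 2 ^ κ * (1 - s)) = 2 ^ l / 2 ^ κ + 2 ^ l * (1 - s) := by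
    field_simp
  rw [e]
  have h4 : (0 : ℝ) ≤ 2 ^ l / 2 ^ κ := by positivity
  have h5 : (0 : ℝ) ≤ 2 ^ l * (1 - s) := by positivity
  by_cases hk : l ≤ κ
  · have h6 : pc κ l s ≤ 2 ^ l * (1 - s) := by
      have h7 := one_sub_pow_le s h0 (2 ^ l)
      have h8 := pow_le_one₀ h0 h1 (n := lo l)
      simp only [pc, sg, hi, hk, if_true, min_eq_left hk]
      push_cast at h7
      linarith
    nlinarith
  · have h6 : (1 : ℝ) ≤ 2 ^ l / 2 ^ κ := by
      rw [le_div_iff₀ hN, one_mul]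
      exact pow_le_pow_right₀ (by norm_num) (by omega)
    nlinarith

/-- The piece against the decay factor. -/
theorem pc_mul_le (κ l : ℕ) (hl : l ≤ κ + 1) (s : ℝ) (h0 : 0 ≤ s) (h1 : s ≤ 1) :
    (1 + (2 : ℝ) ^ κ * (1 - s)) ^ (-(1 / 2) : ℝ) * pc κ l s ≤ √((2 : ℝ) ^ l / 2 ^ κ) := by
  have hy : 0 ≤ 1 - s := by linarith
  have hp : (0 : ℝ) < 1 + 2 ^ κ * (1 - s) := by positivity
  have h2 : pc κ l s ≤ √((2 : ℝ) ^ l / 2 ^ κ) * √(1 + 2 ^ κ * (1 - s)) := by
    rw [← Real.sqrt_mul (by positivity)]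
    exact Real.le_sqrt_of_sq_le (pc_sq_le κ l hl s h0 h1)
  rw [Real.rpow_neg hp.le, ← Real.sqrt_eq_rpow, inv_mul_le_iff₀ (Real.sqrt_pos.2 hp), mul_comm]
  exact h2

/-- The two largest values carry at least the average. -/
theorem exists_pair {r : ℕ} (hr : 2 ≤ r) (l : Fin r → ℕ) :
    ∃ j1 j2 : Fin r, j1 ≠ j2 ∧ 2 * ∑ j, l j ≤ r * (l j1 + l j2) := by
  have hne : (univ : Finset (Fin r)).Nonempty := ⟨⟨0, by omega⟩, mem_univ _⟩
  obtain ⟨j1, -, h1⟩ := exists_max_image univ l hne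
  have hc : (univ.erase j1).card = r - 1 := by simp
  have hne2 : (univ.erase j1).Nonempty := by
    rw [← card_pos, hc]; omega
  obtain ⟨j2, hj2, h2⟩ := exists_max_image (univ.erase j1) l hne2
  refine ⟨j1, j2, (ne_of_mem_erase hj2).symm, ?_⟩
  have h3 : ∑ j ∈ univ.erase j1, l j ≤ (r - 1) * l j2 := by
    have := sum_le_card_nsmul _ _ _ h2
    rwa [hc, smul_eq_mul] at this
  rw [← add_sum_erase _ _ (mem_univ j1)]
  have h4 := h1 j2 (mem_univ _)
  obtain ⟨k, rfl⟩ : ∃ k, r = k + 2 := ⟨r - 2, by omega⟩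
  have : k + 2 - 1 = k + 1 := by omega
  rw [this] at h3
  nlinarith

theorem card_near (M : ℕ) (y R : ℝ) (hR : 0 ≤ R) :
    (((range M).filter fun x : ℕ => |(x : ℝ) - y| < R).card : ℝ) ≤ 2 * R + 1 := by
  set s := (range M).filter fun x : ℕ => |(x : ℝ) - y| < R with hs
  rcases s.eq_empty_or_nonempty with h | h
  · rw [h]; simp; linarith
  · have h1 := s.min'_mem h
    have h2 : s ⊆ Icc (s.min' h) (s.min' h + ⌊2 * R⌋₊) := by
      intro x hx
      have h3 := s.min'_le x hx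
      rw [mem_Icc]
      refine ⟨h3, ?_⟩
      have h4 := abs_lt.1 (mem_filter.1 hx).2
      have h5 := abs_lt.1 (mem_filter.1 h1).2
      have h6 : x - s.min' h ≤ ⌊2 * R⌋₊ := by
        apply Nat.le_floor
        rw [Nat.cast_sub h3]
        linarith [h4.2, h5.1]
      omega
    have h7 := card_le_card h2
    rw [Nat.card_Icc] at h7
    have h8 : s.card ≤ ⌊2 * R⌋₊ + 1 := by omega
    have h9 : (⌊2 * R⌋₊ : ℝ) ≤ 2 * R := Nat.floor_le (by linarith)
    have h10 : (s.card : ℝ) ≤ ⌊2 * R⌋₊ + 1 := by exact_mod_cast h8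
    linarith

/-- Forget two coordinates. -/
def pr {r : ℕ} (j1 j2 : Fin r) (x : Fin r → ℕ) : Fin r → ℕ :=
  fun j => if j = j1 ∨ j = j2 then 0 else x j

theorem sum_two {r : ℕ} {j1 j2 : Fin r} (h : j1 ≠ j2) (x : Fin r → ℕ) (c : Fin r → ℤ) :
    ∑ j, c j * x j = c j1 * x j1 + c j2 * x j2 + ∑ j, c j * pr j1 j2 x j := by
  have e : ∀ j, c j * x j = (if j = j1 then c j1 * x j1 else 0)
      + (if j = j2 then c j2 * x j2 else 0) + c j * pr j1 j2 x j := by
    intro j
    by_cases h1 : j = j1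
    · subst h1; simp [pr, h]
    · by_cases h2 : j = j2
      · subst h2; simp [pr, h1]
      · simp [pr, h1, h2]
  rw [sum_congr rfl fun j _ => e j]
  simp [sum_add_distrib]

theorem qf_two {r : ℕ} (A : Matrix (Fin r) (Fin r) ℤ) (hA : A.IsSymm) {j1 j2 : Fin r}
    (h : j1 ≠ j2) (x : Fin r → ℕ) :
    qf A x = A j1 j1 * x j1 ^ 2 + 2 * A j1 j2 * x j1 * x j2 + A j2 j2 * x j2 ^ 2
      + 2 * (∑ j, A j1 j * pr j1 j2 x j) * x j1 + 2 * (∑ j, A j2 j * pr j1 j2 x j) * x j2
      + qf A (pr j1 j2 x) := by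
  have hs : ∀ i j, A i j = A j i := fun i j => (hA.apply j i)
  have e1 : ∀ u v : Fin r → ℕ, ∑ i, ∑ j, A i j * u i * v j = ∑ i, (∑ j, A i j * v j) * u i := by
    intro u v
    refine sum_congr rfl fun i _ => ?_
    rw [sum_mul]
    exact sum_congr rfl fun j _ => by ring
  unfold qf
  rw [e1, e1, sum_two h x, sum_two h x (A j1), sum_two h x (A j2)]
  have e2 : ∑ i, (∑ j, A i j * x j) * pr j1 j2 x i
      = (∑ j, A j1 j * pr j1 j2 x j) * x j1 + (∑ j, A j2 j * pr j1 j2 x j) * x j2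
        + ∑ i, (∑ j, A i j * pr j1 j2 x j) * pr j1 j2 x i := by
    rw [sum_mul, sum_mul, ← sum_add_distrib, ← sum_add_distrib]
    refine sum_congr rfl fun i _ => ?_
    rw [sum_two h x (A i), hs i j1, hs i j2]
    ring
  rw [e2, hs j2 j1]
  ring

theorem sum_two_real {r : ℕ} {j1 j2 : Fin r} (h : j1 ≠ j2) (s t : ℝ) (c : Fin r → ℝ) :
    ∑ j, c j * (if j = j1 then s else if j = j2 then t else 0) = c j1 * s + c j2 * t := by
  have e : ∀ j, c j * (if j = j1 then s else if j = j2 then t else 0)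
      = (if j = j1 then c j1 * s else 0) + (if j = j2 then c j2 * t else 0) := by
    intro j
    by_cases h1 : j = j1
    · subst h1; simp [h]
    · by_cases h2 : j = j2
      · subst h2; simp [h1]
      · simp [h1, h2]
  rw [sum_congr rfl fun j _ => e j]
  simp [sum_add_distrib]

theorem minor_pos {r : ℕ} (A : Matrix (Fin r) (Fin r) ℤ) (hA : A.IsSymm)
    (hp : ∀ v : Fin r → ℝ, v ≠ 0 → 0 < ∑ i, ∑ j, (A i j : ℝ) * v i * v j) {j1 j2 : Fin r}
    (h : j1 ≠ j2) : 0 < A j1 j1 ∧ (2 * A j1 j2) ^ 2 < 4 * A j1 j1 * A j2 j2 := by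
  have hs : A j2 j1 = A j1 j2 := hA.apply j1 j2
  have key : ∀ s t : ℝ, (s ≠ 0 ∨ t ≠ 0) →
      0 < (A j1 j1 : ℝ) * s ^ 2 + 2 * A j1 j2 * s * t + A j2 j2 * t ^ 2 := by
    intro s t hst
    have h1 := hp (fun j => if j = j1 then s else if j = j2 then t else 0) (by
      intro h0
      have a1 := congrFun h0 j1
      have a2 := congrFun h0 j2
      simp [h.symm] at a1 a2
      tauto)
    have e : ∀ v : Fin r → ℝ, ∑ i, ∑ j, (A i j : ℝ) * v i * v j
        = ∑ i, (∑ j, (A i j : ℝ) * v j) * v i := by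
      intro v
      refine sum_congr rfl fun i _ => ?_
      rw [sum_mul]
      exact sum_congr rfl fun j _ => by ring
    rw [e, sum_two_real h, sum_two_real h, sum_two_real h, hs] at h1
    nlinarith
  have h1 : (0 : ℝ) < A j1 j1 := by simpa using key 1 0 (Or.inl one_ne_zero)
  have h2 := key (-A j1 j2) (A j1 j1) (Or.inr h1.ne')
  have h3 : (0 : ℝ) < A j1 j1 * (A j1 j1 * A j2 j2 - A j1 j2 ^ 2) := by nlinarith
  have h4 := (mul_pos_iff_of_pos_left h1).1 h3
  constructor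
  · exact_mod_cast h1
  · have : ((2 * A j1 j2) ^ 2 : ℝ) < 4 * A j1 j1 * A j2 j2 := by nlinarith
    exact_mod_cast this

theorem lin_le {r : ℕ} (c : Fin r → ℤ) (b : ℤ) (C1 N : ℕ) (hN : 1 ≤ N) (w : Fin r → ℕ)
    (hw : ∀ j, w j ≤ C1 * N) (C0 : ℕ) (hC : 2 * (∑ j, |c j|) * C1 + |b| ≤ C0) :
    |2 * (∑ j, c j * w j) + b| ≤ C0 * N := by
  have h1 : |∑ j, c j * w j| ≤ (∑ j, |c j|) * (C1 * N) := by
    rw [sum_mul]
    refine (abs_sum_le_sum_abs _ _).trans (sum_le_sum fun j _ => ?_)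
    rw [abs_mul, Nat.abs_cast]
    exact mul_le_mul_of_nonneg_left (by exact_mod_cast hw j) (abs_nonneg _)
  have h2 : (1 : ℤ) ≤ N := by exact_mod_cast hN
  have h3 := abs_add_le (2 * (∑ j, c j * w j)) b
  rw [abs_mul, abs_two] at h3
  have h4 := abs_nonneg b
  have h5 := mul_le_mul_of_nonneg_right hC (by linarith : (0 : ℤ) ≤ N)
  nlinarith

/-- Lattice points on a level set of the eigenvalue polynomial in a box. -/
theorem count_pair (h5 : ConicStmt) {r : ℕ} (A : Matrix (Fin r) (Fin r) ℤ) (hA : A.IsSymm)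
    (hp : ∀ v : Fin r → ℝ, v ≠ 0 → 0 < ∑ i, ∑ j, (A i j : ℝ) * v i * v j) (bv : Fin r → ℤ)
    (C1 : ℕ) (ε : ℝ) (hε : 0 < ε) (j1 j2 : Fin r) : ∃ C : ℝ, 0 ≤ C ∧ (j1 ≠ j2 →
      ∀ N : ℕ, 1 ≤ N → ∀ (X : Finset (Fin r → ℕ)) (k : ℤ) (y R : Fin r → ℝ), (∀ j, 0 ≤ R j) →
        (∀ x ∈ X, ∀ j, x j < C1 * N) → (∀ x ∈ X, qf A x + ∑ j, bv j * x j = k) →
        (∀ x ∈ X, ∀ j, |(x j : ℝ) - y j| < R j) →
        (X.card : ℝ) ≤ C * (N : ℝ) ^ ε * ∏ j ∈ (univ.erase j1).erase j2, (2 * R j + 1)) := by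
  by_cases h : j1 = j2
  · exact ⟨0, le_rfl, fun h' => absurd h h'⟩
  obtain ⟨ha, hb⟩ := minor_pos A hA hp h
  set C0 : ℕ := C1 + (2 * (∑ j, |A j1 j|) * C1 + |bv j1|).toNat
    + (2 * (∑ j, |A j2 j|) * C1 + |bv j2|).toNat with hC0
  obtain ⟨C, hC⟩ := h5 _ _ _ ha hb C0 ε hε
  refine ⟨max C 0, le_max_right _ _, fun _ N hN X k y R hR hX hk hy => ?_⟩
  have hNe : (0 : ℝ) ≤ (N : ℝ) ^ ε := by positivity
  have hfib : ∀ w ∈ X.image (pr j1 j2),
      (X.filter fun x => pr j1 j2 x = w).card ≤ ⌊max C 0 * (N : ℝ) ^ ε⌋₊ := by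
    intro w hw
    obtain ⟨x0, hx0, hw0⟩ := mem_image.1 hw
    have hwle : ∀ j, w j ≤ C1 * N := by
      intro j
      rw [← hw0]
      unfold pr
      split_ifs
      · exact Nat.zero_le _
      · exact (hX x0 hx0 j).le
    have hd := lin_le (A j1) (bv j1) C1 N hN w hwle C0 (by
      have := Int.self_le_toNat (2 * (∑ j, |A j1 j|) * C1 + |bv j1|)
      rw [hC0]; push_cast; omega)
    have he := lin_le (A j2) (bv j2) C1 N hN w hwle C0 (by
      have := Int.self_le_toNat (2 * (∑ j, |A j2 j|) * C1 + |bv j2|)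
      rw [hC0]; push_cast; omega)
    have hc := hC N hN _ _ (k - (qf A w + ∑ j, bv j * w j)) hd he
    apply Nat.le_floor
    refine le_trans ?_ (hc.trans (mul_le_mul_of_nonneg_right (le_max_left _ _) hNe))
    have hle : C1 * N ≤ C0 * N := Nat.mul_le_mul_right _ (by omega)
    norm_cast
    refine card_le_card_of_injOn (fun x => (x j1, x j2)) ?_ ?_
    · intro x hx
      obtain ⟨hx1, hx2⟩ := mem_filter.1 (mem_coe.1 hx)
      refine mem_coe.2 (mem_filter.2 ⟨mem_product.2 ⟨mem_range.2 ((hX x hx1 j1).trans_le hle),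
        mem_range.2 ((hX x hx1 j2).trans_le hle)⟩, ?_⟩)
      have e1 := hk x hx1
      rw [qf_two A hA h x, sum_two h x bv, hx2] at e1
      push_cast
      linarith
    · intro x hx x' hx' hxx
      obtain ⟨-, hx2⟩ := mem_filter.1 (mem_coe.1 hx)
      obtain ⟨-, hx2'⟩ := mem_filter.1 (mem_coe.1 hx')
      simp only [Prod.mk.injEq] at hxx
      funext j
      by_cases h1 : j = j1
      · rw [h1]; exact hxx.1
      by_cases h2 : j = j2
      · rw [h2]; exact hxx.2
      have := congrFun (hx2.trans hx2'.symm) j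
      simpa [pr, h1, h2] using this
  have h1 := card_le_mul_card_image X _ hfib
  have h2 : X.image (pr j1 j2) ⊆ Fintype.piFinset fun j => if j = j1 ∨ j = j2 then {0}
      else (range (C1 * N)).filter fun x : ℕ => |(x : ℝ) - y j| < R j := by
    intro w hw
    obtain ⟨x, hx, rfl⟩ := mem_image.1 hw
    rw [Fintype.mem_piFinset]
    intro j
    unfold pr
    split_ifs
    · simp
    · exact mem_filter.2 ⟨mem_range.2 (hX x hx j), hy x hx j⟩
  have h3 := card_le_card h2
  rw [Fintype.card_piFinset] at h3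
  have h4 : ((X.image (pr j1 j2)).card : ℝ) ≤ ∏ j ∈ (univ.erase j1).erase j2, (2 * R j + 1) := by
    refine (Nat.cast_le.2 h3).trans ?_
    rw [Nat.cast_prod, ← mul_prod_erase _ _ (mem_univ j1),
      ← mul_prod_erase _ _ (mem_erase.2 ⟨Ne.symm h, mem_univ j2⟩)]
    simp only [true_or, or_true, if_true, card_singleton, Nat.cast_one, one_mul]
    refine prod_le_prod (fun j _ => Nat.cast_nonneg _) fun j hj => ?_
    have a1 := ne_of_mem_erase hj
    have a2 := ne_of_mem_erase (mem_of_mem_erase hj)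
    rw [if_neg (by tauto)]
    exact card_near _ _ _ (hR j)
  have h6 : (⌊max C 0 * (N : ℝ) ^ ε⌋₊ : ℝ) ≤ max C 0 * (N : ℝ) ^ ε :=
    Nat.floor_le (mul_nonneg (le_max_right _ _) hNe)
  calc (X.card : ℝ) ≤ ⌊max C 0 * (N : ℝ) ^ ε⌋₊ * ((X.image (pr j1 j2)).card : ℝ) := by
        exact_mod_cast h1
    _ ≤ _ := mul_le_mul h6 h4 (Nat.cast_nonneg _) (mul_nonneg (le_max_right _ _) hNe)

/-- The same with a constant that does not depend on the pair. -/
theorem count_all (h5 : ConicStmt) {r : ℕ} (A : Matrix (Fin r) (Fin r) ℤ) (hA : A.IsSymm)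
    (hp : ∀ v : Fin r → ℝ, v ≠ 0 → 0 < ∑ i, ∑ j, (A i j : ℝ) * v i * v j) (bv : Fin r → ℤ)
    (C1 : ℕ) (ε : ℝ) (hε : 0 < ε) : ∃ C : ℝ, 0 ≤ C ∧ ∀ j1 j2 : Fin r, j1 ≠ j2 →
      ∀ N : ℕ, 1 ≤ N → ∀ (X : Finset (Fin r → ℕ)) (k : ℤ) (y R : Fin r → ℝ), (∀ j, 0 ≤ R j) →
        (∀ x ∈ X, ∀ j, x j < C1 * N) → (∀ x ∈ X, qf A x + ∑ j, bv j * x j = k) →
        (∀ x ∈ X, ∀ j, |(x j : ℝ) - y j| < R j) →
        (X.card : ℝ) ≤ C * (N : ℝ) ^ ε * ∏ j ∈ (univ.erase j1).erase j2, (2 * R j + 1) := by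
  choose C hC0 hC using fun p : Fin r × Fin r => count_pair h5 A hA hp bv C1 ε hε p.1 p.2
  refine ⟨∑ p, C p, sum_nonneg fun p _ => hC0 p, fun j1 j2 h N hN X k y R hR hX hk hy => ?_⟩
  refine (hC (j1, j2) h N hN X k y R hR hX hk hy).trans ?_
  have h1 : C (j1, j2) ≤ ∑ p, C p := single_le_sum (fun p _ => hC0 p) (mem_univ _)
  have h2 : 0 ≤ ∏ j ∈ (univ.erase j1).erase j2, (2 * R j + 1) :=
    prod_nonneg fun j _ => by linarith [hR j]
  exact mul_le_mul_of_nonneg_right (mul_le_mul_of_nonneg_right h1 (by positivity)) h2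

end Pool.Agent.MP_ba99b7_an.Minor

end MrgPart1

-- ======== part 2: formerly Pool.Agent.MP_ba99b7_an.Vol
section MrgPart2

/-! PROJECT STRI, module VOL: doubling and the lower bound for multi-scale balls. -/

set_option linter.unusedSectionVars false

namespace Pool.Agent.MP_ba99b7_an

open scoped RealInnerProductSpace Topology
open MeasureTheory Module Finset Filter

namespace Vol

/-- A bounded set has a small net. -/
lemma net {E : Type} [NormedAddCommGroup E] [NormedSpace ℝ E] [FiniteDimensional ℝ E]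
    (A : Set E) (hA : ∀ a ∈ A, ‖a‖ ≤ 2) :
    ∃ s : Finset E, ↑s ⊆ A ∧ s.card ≤ 5 ^ finrank ℝ E ∧ ∀ a ∈ A, ∃ c ∈ s, ‖a - c‖ ≤ 1 := by
  classical
  let P : ℕ → Prop := fun k => ∃ s : Finset E, ↑s ⊆ A ∧ s.card = k ∧
    ∀ c ∈ s, ∀ d ∈ s, c ≠ d → 1 ≤ ‖c - d‖
  have hb : ∀ k, P k → k ≤ 5 ^ finrank ℝ E := by
    rintro k ⟨s, h1, rfl, h3⟩
    exact Besicovitch.card_le_of_separated s (fun c hc => hA c (h1 hc)) h3
  have h0 : P 0 := ⟨∅, by simp, rfl, by simp⟩
  obtain ⟨s, h1, h2, h3⟩ : P (Nat.findGreatest P (5 ^ finrank ℝ E)) :=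
    Nat.findGreatest_spec (Nat.zero_le _) h0
  refine ⟨s, h1, h2 ▸ Nat.findGreatest_le _, fun a ha => ?_⟩
  by_contra hcon
  push Not at hcon
  have has : a ∉ s := fun h => by
    have := hcon a h
    simp at this
    linarith
  have hP : P (s.card + 1) := by
    refine ⟨insert a s, ?_, card_insert_of_notMem has, ?_⟩
    · rw [coe_insert]
      exact Set.insert_subset ha h1
    · intro c hc d hd hcd
      rcases mem_insert.1 hc with rfl | hc' <;> rcases mem_insert.1 hd with rfl | hd'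
      · exact absurd rfl hcd
      · exact (hcon d hd').le
      · rw [norm_sub_rev]
        exact (hcon c hc').le
      · exact h3 c hc' d hd' hcd
  have := Nat.le_findGreatest (hb _ hP) hP
  omega

variable {V : Type} [NormedAddCommGroup V] [InnerProductSpace ℝ V] [FiniteDimensional ℝ V]
  {G : Type} [Group G] [TopologicalSpace G] [MeasurableSpace G] [TG G]

lemma cover_le (μ : Measure G) [BiH μ] {κ : Type} (A B : Set G) (s : Finset κ) (h : κ → G)
    (hc : ∀ u ∈ A, ∃ k ∈ s, (h k)⁻¹ * u ∈ B) : μ.real A ≤ s.card * μ.real B := by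
  have h1 : A ⊆ ⋃ k ∈ s, (fun u => (h k)⁻¹ * u) ⁻¹' B := fun u hu => by
    obtain ⟨k, hk, hB⟩ := hc u hu
    exact Set.mem_biUnion hk hB
  refine (measureReal_mono h1 (measure_ne_top _ _)).trans ((measureReal_biUnion_finset_le _ _).trans (le_of_eq ?_))
  simp only [Measure.real, measure_preimage_mul, sum_const, nsmul_eq_mul]

variable {S : Sym V G} {r : ℕ} (R : Roots S r)

lemma rho_inv_mul (j : Fin r) (h u : G) :
    R.ρ j (h⁻¹ * u) = ‖S.Ad u (R.w j) - S.Ad h (R.w j)‖ := by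
  rw [Roots.ρ, ← S.Ad_norm h, map_sub, S.Ad_mul_apply, S.Ad_Ad_inv]

lemma vol_mono (μ : Measure G) [BiH μ] {ε ε' : Fin r → ℝ} (h : ∀ j, ε j ≤ ε' j) :
    R.vol μ ε ≤ R.vol μ ε' :=
  measureReal_mono fun _ hu j => (hu j).trans (h j)

lemma double (μ : Measure G) [BiH μ] (ε : Fin r → ℝ) (hε : ∀ j, 0 < ε j) :
    R.vol μ (fun j => 2 * ε j) ≤ 5 ^ finrank ℝ (Fin r → V) * R.vol μ ε := by
  classical
  let Φ : G → Fin r → V := fun u j => (ε j)⁻¹ • (S.Ad u (R.w j) - R.w j)
  obtain ⟨s, h1, h2, h3⟩ := net (Φ '' {u | ∀ j, R.ρ j u ≤ 2 * ε j}) (by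
    rintro _ ⟨u, hu, rfl⟩
    refine (pi_norm_le_iff_of_nonneg (by norm_num)).2 fun j => ?_
    have := hu j
    simp only [Φ, norm_smul, norm_inv, Real.norm_eq_abs, abs_of_pos (hε j)]
    rw [inv_mul_le_iff₀ (hε j), mul_comm]
    exact this)
  have hch : ∀ c : Fin r → V, ∃ u : G, c ∈ s → Φ u = c := fun c => by
    by_cases hc : c ∈ s
    · obtain ⟨u, -, hu⟩ := h1 hc
      exact ⟨u, fun _ => hu⟩
    · exact ⟨1, fun h => absurd h hc⟩
  choose h hh using hch
  refine (cover_le μ _ {u | ∀ j, R.ρ j u ≤ ε j} s h fun u hu => ?_).trans ?_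
  · obtain ⟨c, hc, hd⟩ := h3 _ ⟨u, hu, rfl⟩
    refine ⟨c, hc, fun j => ?_⟩
    rw [← hh c hc] at hd
    have := (norm_le_pi_norm _ j).trans hd
    simp only [Φ, Pi.sub_apply, ← smul_sub, sub_sub_sub_cancel_right, norm_smul, norm_inv,
      Real.norm_eq_abs, abs_of_pos (hε j)] at this
    rw [inv_mul_le_iff₀ (hε j), mul_one] at this
    rw [rho_inv_mul]
    exact this
  · have : (s.card : ℝ) ≤ 5 ^ finrank ℝ (Fin r → V) := by exact_mod_cast h2
    exact mul_le_mul_of_nonneg_right this measureReal_nonneg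

lemma double_pow (μ : Measure G) [BiH μ] (ε : Fin r → ℝ) (hε : ∀ j, 0 < ε j) (k : ℕ) :
    R.vol μ (fun j => 2 ^ k * ε j) ≤ (5 ^ finrank ℝ (Fin r → V)) ^ k * R.vol μ ε := by
  induction k with
  | zero => simp
  | succ k ih =>
    have h := double R μ (fun j => 2 ^ k * ε j) fun j => by have := hε j; positivity
    have e : (fun j => 2 ^ (k + 1) * ε j) = fun j => 2 * (2 ^ k * ε j) := by
      funext j
      ring
    rw [e, pow_succ', mul_assoc]
    exact h.trans (mul_le_mul_of_nonneg_left ih (by positivity))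

lemma doubling (μ : Measure G) [BiH μ] (ε : Fin r → ℝ) (hε : ∀ j, 0 < ε j) (T : ℝ)
    (hT : 1 ≤ T) : R.vol μ (fun j => T * ε j) ≤
      2 ^ (3 * finrank ℝ (Fin r → V)) * T ^ (3 * finrank ℝ (Fin r → V)) * R.vol μ ε := by
  obtain ⟨k, h1, h2⟩ := exists_nat_pow_near hT (one_lt_two (α := ℝ))
  set d := finrank ℝ (Fin r → V)
  refine (vol_mono R μ fun j => mul_le_mul_of_nonneg_right h2.le (hε j).le).trans
    ((double_pow R μ ε hε (k + 1)).trans (mul_le_mul_of_nonneg_right ?_ measureReal_nonneg))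
  calc ((5 : ℝ) ^ d) ^ (k + 1) ≤ ((2 ^ 3) ^ d) ^ (k + 1) := by gcongr; norm_num
    _ = (2 * 2 ^ k) ^ (3 * d) := by
        rw [← pow_succ', ← pow_mul, ← pow_mul, ← pow_mul]
        congr 1
        ring
    _ ≤ (2 * T) ^ (3 * d) := by gcongr
    _ = _ := mul_pow _ _ _

/-- Ordered products of one-parameter groups. -/
noncomputable def pr (S : Sym V G) {ι : Type} (b : ι → V) (l : List ι) (t : ι → ℝ) : G :=
  (l.map fun i => S.ex (t i • b i)).prod

lemma pr_fix {ι : Type} (b : ι → V) (l : List ι) (t : ι → ℝ) {w : V}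
    (h : ∀ i ∈ l, S.ad (b i) w = 0) : S.Ad (pr S b l t) w = w := by
  induction l with
  | nil => simp [pr]
  | cons a l ih =>
    have e : pr S b (a :: l) t = S.ex (t a • b a) * pr S b l t := by simp [pr]
    rw [e, S.Ad_mul_apply, ih fun i hi => h i (List.mem_cons_of_mem _ hi)]
    apply S.Ad_ex_fix
    simp [h a List.mem_cons_self]

lemma tele {ι : Type} (b : ι → V) (hb : ∀ i, ‖b i‖ = 1) (s t t' : ι → ℝ) {κ e : ℝ} (hκ : 0 ≤ κ)
    (he : 0 ≤ e) (ht : ∀ i, |t i - t' i| ≤ κ * s i) {w : V}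
    (hw : ∀ i, e < s i → S.ad (b i) w = 0) (l : List ι)
    (hl : l.Pairwise fun i j => s i ≤ s j) :
    ‖S.Ad (pr S b l t) w - S.Ad (pr S b l t') w‖ ≤ l.length * (κ * e * (‖S.ad‖ * ‖w‖)) := by
  induction l with
  | nil => simp [pr]
  | cons a l ih =>
    rw [List.pairwise_cons] at hl
    by_cases ha : e < s a
    · have h : ∀ i ∈ a :: l, S.ad (b i) w = 0 := fun i hi => by
        rcases List.mem_cons.1 hi with rfl | hi
        · exact hw _ ha
        · exact hw i (ha.trans_le (hl.1 i hi))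
      rw [pr_fix b _ t h, pr_fix b _ t' h, sub_self, norm_zero]
      positivity
    · have e1 : ∀ t : ι → ℝ, pr S b (a :: l) t = S.ex (t a • b a) * pr S b l t := fun t => by
        simp [pr]
      rw [e1, e1, S.Ad_mul_apply, S.Ad_mul_apply]
      set x := S.Ad (pr S b l t) w
      set x' := S.Ad (pr S b l t') w with hx'
      have h1 : ‖S.Ad (S.ex (t a • b a)) x - S.Ad (S.ex (t a • b a)) x'‖ = ‖x - x'‖ := by
        rw [← map_sub, S.Ad_norm]
      have h2 := S.norm_Ad_ex_sub (b a) x' (t' a) (t a)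
      have h3 : ‖S.ad (b a) x'‖ ≤ ‖S.ad‖ * ‖w‖ := by
        have := S.ad.le_opNorm₂ (b a) x'
        rwa [hb, mul_one, hx', S.Ad_norm] at this
      have h4 : |t a - t' a| ≤ κ * e :=
        (ht a).trans (mul_le_mul_of_nonneg_left (not_lt.1 ha) hκ)
      have h5 : |t a - t' a| * ‖S.ad (b a) x'‖ ≤ κ * e * (‖S.ad‖ * ‖w‖) :=
        mul_le_mul h4 h3 (norm_nonneg _) (by positivity)
      have h6 := norm_sub_le_norm_sub_add_norm_sub (S.Ad (S.ex (t a • b a)) x)
        (S.Ad (S.ex (t a • b a)) x') (S.Ad (S.ex (t' a • b a)) x')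
      have h7 := ih hl.2
      rw [List.length_cons]
      push_cast
      linarith

lemma pr_deriv {ι : Type} (b : ι → V) (l : List ι) :
    HasStrictFDerivAt (fun X : V => S.Ad (pr S b l fun i => ⟪b i, X⟫))
      (S.ad ∘L (l.map fun i => (innerSL ℝ (b i)).smulRight (b i)).sum) 0 := by
  induction l with
  | nil => simpa [pr] using hasStrictFDerivAt_const (1 : V →L[ℝ] V) (0 : V)
  | cons a l ih =>
    have h0 : HasStrictFDerivAt (fun X => S.Ad (S.ex X)) S.ad
        (((innerSL ℝ (b a)).smulRight (b a)) (0 : V)) := by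
      rw [map_zero]
      exact S.hasStrictFDerivAt_Ad_ex
    have h1 := h0.comp 0 ((innerSL ℝ (b a)).smulRight (b a)).hasStrictFDerivAt
    have h2 := h1.mul' ih
    have h3 : pr S b l (fun _ => 0) = 1 := by simp [pr, S.ex_zero]
    refine (h2.congr_fderiv ?_).congr_of_eventuallyEq (Eventually.of_forall fun X => ?_)
    · ext X Y
      simp [h3, S.ex_zero, add_comm]
    · simp [pr]

lemma chart {ι : Type} [Fintype ι] (B : OrthonormalBasis ι ℝ V) (l : List ι)
    (hl : l.Perm univ.toList) :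
    ∀ᶠ u in 𝓝 (1 : G), ∃ t : ι → ℝ, (∀ i, |t i| ≤ 1) ∧ S.Ad u = S.Ad (pr S B l t) := by
  obtain ⟨π, h1, -, U, hU, hinj⟩ := S.exists_left_inv
  obtain ⟨δ, hδ, hnear⟩ := S.Ad_near_one hU
  have hd := pr_deriv (S := S) B l
  have hsum : (l.map fun i => (innerSL ℝ (B i)).smulRight (B i)).sum
      = ContinuousLinearMap.id ℝ V := by
    rw [(hl.map _).sum_eq, Finset.sum_map_toList]
    ext X
    simp [B.sum_repr' X]
  rw [hsum] at hd
  have h0 : S.Ad (pr S B l fun i => ⟪B i, (0 : V)⟫) = 1 := by simp [pr, S.ex_zero]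
  have hF := (π.hasStrictFDerivAt.comp 0 hd).map_nhds_eq_of_surj (by
    rw [LinearMap.range_eq_top]
    intro X
    exact ⟨X, by simp [h1]⟩)
  have hW : ∀ᶠ X : V in 𝓝 0, ‖X‖ ≤ 1 ∧ ‖S.Ad (pr S B l fun i => ⟪B i, X⟫) - 1‖ ≤ δ := by
    refine Eventually.and ?_ ?_
    · filter_upwards [Metric.closedBall_mem_nhds (0 : V) one_pos] with X hX
      simpa using hX
    · have := hd.continuousAt.tendsto
      rw [h0] at this
      filter_upwards [this (Metric.closedBall_mem_nhds _ hδ)] with X hX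
      simpa [dist_eq_norm] using hX
  have hW' := image_mem_map (m := fun X : V => π (S.Ad (pr S B l fun i => ⟪B i, X⟫))) hW
  rw [hF, h0] at hW'
  have hc : Tendsto S.Ad (𝓝 1) (𝓝 1) := by simpa using S.Ad_cont.tendsto 1
  filter_upwards [(π.continuous.tendsto 1).comp hc hW',
    hc (Metric.closedBall_mem_nhds _ hδ)] with u hu1 hu2
  obtain ⟨X, ⟨hX1, hX2⟩, hX3⟩ := hu1
  refine ⟨fun i => ⟪B i, X⟫, fun i => ?_, ?_⟩
  · refine (abs_real_inner_le_norm _ _).trans ?_
    rw [B.norm_eq_one, one_mul]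
    exact hX1
  · obtain ⟨Z, hZ, e1⟩ := hnear u (by simpa [dist_eq_norm] using hu2)
    obtain ⟨Z', hZ', e2⟩ := hnear _ hX2
    have : Z = Z' := hinj hZ hZ' (by
      simp only [← e1, ← e2]
      exact hX3.symm)
    rw [e1, e2, this]

lemma grid (μ : Measure G) [BiH μ] : ∃ c : ℝ, 0 < c ∧
    ∀ (ε : Fin r → ℝ) (s : (Fin R.m ⊕ Fin R.m) ⊕ (Fin r ⊕ Fin R.q) → ℝ), (∀ j, 0 ≤ ε j) →
      (∀ i, 0 < s i ∧ s i ≤ 1) → (∀ j i, ε j < s i → S.ad (R.B i) (R.w j) = 0) →
      c * ∏ i, s i ≤ R.vol μ ε := by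
  classical
  set n := Fintype.card ((Fin R.m ⊕ Fin R.m) ⊕ (Fin r ⊕ Fin R.q)) with hn
  have hall := (eventually_all_finite ((List.finite_length_eq _ n).subset
    (t := {l | l.Perm univ.toList}) fun l hl => by
      simpa [hn] using List.Perm.length_eq hl)).2 fun l hl => chart (S := S) R.B l hl
  have hpos := Measure.measure_pos_of_mem_nhds μ hall
  set U := {u : G | ∀ l ∈ {l : List ((Fin R.m ⊕ Fin R.m) ⊕ (Fin r ⊕ Fin R.q)) |
    l.Perm univ.toList}, ∃ t, (∀ i, |t i| ≤ 1) ∧ S.Ad u = S.Ad (pr S R.B l t)}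
  have hU : 0 < μ.real U := ENNReal.toReal_pos hpos.ne' (measure_ne_top _ _)
  set K : ℝ := n * (‖S.ad‖ * ∑ j, ‖R.w j‖) with hK
  have hK0 : 0 ≤ K := by positivity
  set κ : ℝ := (1 + K)⁻¹ with hκ
  have hκ0 : 0 < κ := by positivity
  have hκ1 : κ ≤ 1 := inv_le_one_of_one_le₀ (by linarith)
  have hκK : κ * K ≤ 1 := by
    rw [hκ, inv_mul_le_iff₀ (by positivity)]
    linarith
  refine ⟨μ.real U * ∏ _i : (Fin R.m ⊕ Fin R.m) ⊕ (Fin r ⊕ Fin R.q), (κ / 3), by positivity,
    fun ε s hε hs hfix => ?_⟩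
  let rel := fun i j => s i ≤ s j
  have : Std.Total rel := ⟨fun a b => le_total _ _⟩
  have : IsTrans _ rel := ⟨fun a b c => le_trans⟩
  let l := univ.toList.insertionSort rel
  have hl : l.Perm univ.toList := List.perm_insertionSort _ _
  have hlen : (l.length : ℝ) = n := by simp [hl.length_eq, hn]
  have hp : ∀ i, 0 < κ * s i := fun i => mul_pos hκ0 (hs i).1
  have h1 := cover_le μ U {u | ∀ j, R.ρ j u ≤ ε j}
    (Fintype.piFinset fun i => range (⌊2 / (κ * s i)⌋₊ + 1))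
    (fun k => pr S R.B l fun i => k i * (κ * s i) - 1) (by
      intro u hu
      obtain ⟨t, ht, hAd⟩ := hu l hl
      refine ⟨fun i => ⌊(t i + 1) / (κ * s i)⌋₊, Fintype.mem_piFinset.2 fun i => ?_, fun j => ?_⟩
      · refine mem_range.2 (Nat.lt_succ_of_le (Nat.floor_le_floor ?_))
        have := (abs_le.1 (ht i)).2
        have := hp i
        gcongr
        linarith
      · rw [rho_inv_mul, hAd]
        refine (tele R.B R.B.norm_eq_one s _ _ hκ0.le (hε j) (fun i => ?_) (hfix j) l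
          (List.pairwise_insertionSort _ _)).trans ?_
        · have h0 : 0 ≤ (t i + 1) / (κ * s i) :=
            div_nonneg (by linarith [(abs_le.1 (ht i)).1]) (hp i).le
          have a1 := (le_div_iff₀ (hp i)).1 (Nat.floor_le h0)
          have a2 := (div_lt_iff₀ (hp i)).1 (Nat.lt_floor_add_one ((t i + 1) / (κ * s i)))
          have := hp i
          rw [abs_le]
          constructor <;> linarith
        · rw [hlen]
          have a1 : ‖R.w j‖ ≤ ∑ j, ‖R.w j‖ :=
            single_le_sum (f := fun j => ‖R.w j‖) (fun _ _ => norm_nonneg _) (mem_univ j)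
          have := hε j
          calc n * (κ * ε j * (‖S.ad‖ * ‖R.w j‖)) ≤ n * (κ * ε j * (‖S.ad‖ * ∑ j, ‖R.w j‖)) := by
                gcongr
            _ = κ * K * ε j := by rw [hK]; ring
            _ ≤ 1 * ε j := by gcongr
            _ = ε j := one_mul _)
  rw [Fintype.card_piFinset, Nat.cast_prod] at h1
  have h2 : (∏ i, ((range (⌊2 / (κ * s i)⌋₊ + 1)).card : ℝ)) * ∏ i, (κ / 3 * s i) ≤ 1 := by
    rw [← prod_mul_distrib]
    refine prod_le_one (fun i _ => by have := (hs i).1; positivity) fun i _ => ?_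
    rw [card_range]
    push_cast
    have a1 := (le_div_iff₀ (hp i)).1 (Nat.floor_le (div_pos two_pos (hp i)).le)
    have a2 : κ * s i ≤ 1 := mul_le_one₀ hκ1 (hs i).1.le (hs i).2
    linarith
  have h3 : 0 ≤ ∏ i, (κ / 3 * s i) := prod_nonneg fun i _ => by have := (hs i).1; positivity
  rw [mul_assoc, ← prod_mul_distrib]
  have h4 : 0 ≤ R.vol μ ε := measureReal_nonneg
  calc _ ≤ (∏ i, ((range (⌊2 / (κ * s i)⌋₊ + 1)).card : ℝ)) * R.vol μ ε * ∏ i, (κ / 3 * s i) :=
        mul_le_mul_of_nonneg_right h1 h3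
    _ = (∏ i, ((range (⌊2 / (κ * s i)⌋₊ + 1)).card : ℝ)) * (∏ i, (κ / 3 * s i)) * R.vol μ ε := by
        ring
    _ ≤ 1 * R.vol μ ε := by gcongr
    _ = _ := one_mul _

lemma lower (μ : Measure G) [BiH μ] : ∃ c : ℝ, 0 < c ∧
    ∀ (ε : Fin r → ℝ) (η : ℝ), 0 < η → η ≤ 1 → (∀ j, η ≤ ε j ∧ ε j ≤ 1) →
      c * η ^ (2 * (R.m - r)) * ∏ j, ε j ^ 2 ≤ R.vol μ ε := by
  classical
  obtain ⟨c, hc, hg⟩ := grid R μ
  refine ⟨c, hc, fun ε η h0 h1 hε => ?_⟩
  let σ : Fin R.m → ℝ := Function.extend R.sr ε fun _ => η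
  have hσ1 : ∀ j, σ (R.sr j) = ε j := fun j => R.sr_inj.extend_apply _ _ j
  have hσ2 : ∀ i, (¬ ∃ j, R.sr j = i) → σ i = η := fun i hi => Function.extend_apply' _ _ i hi
  have hσ3 : ∀ i, 0 < σ i ∧ σ i ≤ 1 := fun i => by
    by_cases hi : ∃ j, R.sr j = i
    · obtain ⟨j, rfl⟩ := hi
      rw [hσ1]
      exact ⟨h0.trans_le (hε j).1, (hε j).2⟩
    · rw [hσ2 i hi]
      exact ⟨h0, h1⟩
  have hσ4 : ∀ j i, ε j < σ i → ⟪R.al i, R.w j⟫ = 0 := fun j i h => by
    by_cases hi : ∃ j, R.sr j = i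
    · obtain ⟨j', rfl⟩ := hi
      rw [hσ1] at h
      have hne : j' ≠ j := by
        rintro rfl
        exact lt_irrefl _ h
      have := R.dual j' j
      rw [if_neg hne, real_inner_comm] at this
      linarith
    · rw [hσ2 i hi] at h
      exact absurd (hε j).1 (not_le.2 h)
  have h := hg ε (Sum.elim (Sum.elim σ σ) fun _ => 1) (fun j => h0.le.trans (hε j).1)
    (by rintro ((i | i) | i) <;> simp [hσ3]) (by
      intro j i hi
      rw [S.ad_anti, neg_eq_zero, R.hB]
      rcases i with (i | i) | (i | i)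
      · simp [R.adY _ (R.w_mem j), hσ4 j i hi]
      · simp [R.adη _ (R.w_mem j), hσ4 j i hi]
      · exact R.adH _ (R.w_mem j) _ (R.toAdapt.H_mem i)
      · exact R.adM _ (R.w_mem j) i)
  refine le_trans (le_of_eq ?_) h
  have e : ∏ i, σ i = η ^ (R.m - r) * ∏ j, ε j := by
    rw [← prod_compl_mul_prod (univ.image R.sr), prod_image fun _ _ _ _ h => R.sr_inj h,
      prod_congr rfl fun j _ => hσ1 j,
      prod_congr rfl fun i hi => hσ2 i (by simpa using hi), prod_const, card_compl,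
      card_image_of_injective _ R.sr_inj]
    simp
  simp only [Fintype.prod_sum_type, Sum.elim_inl, Sum.elim_inr, prod_const_one, e, prod_pow]
  ring

end Vol

theorem vol_stmt : VolStmt := by
  intro V _ _ _ G _ _ _ _ μ _ S r R
  obtain ⟨c, hc, h⟩ := Vol.lower R μ
  exact ⟨c, _, _, hc, Vol.doubling R μ, h⟩

end Pool.Agent.MP_ba99b7_an

end MrgPart2

-- ======== part 3: formerly Pool.Agent.MP_ba99b7_an.Gfun
section MrgPart3

/-! PROJECT STRI: the diagonal matrix coefficients of the highest weight vectors. -/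

set_option linter.unusedSectionVars false

namespace Pool.Agent.MP_ba99b7_an

open scoped ComplexConjugate RealInnerProductSpace Topology
open MeasureTheory Module Submodule Filter

namespace Gfun

variable {V : Type} [NormedAddCommGroup V] [InnerProductSpace ℝ V] [FiniteDimensional ℝ V]
  {G : Type} [Group G] [TopologicalSpace G] [MeasurableSpace G] [TG G]
  {S : Sym V G} {r : ℕ} {R : Roots S r}

theorem herm_left {g : G → ℂ} (hg : IsRep g) (hh : ∀ u, g u⁻¹ = conj (g u)) (X : V) (u : G) :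
    HasDerivAt (fun t : ℝ => g (S.ex (t • X) * u)) (-conj (S.D X g u⁻¹)) 0 := by
  have h1 := (Sym.hasDerivAt_D0 (S := S) hg (-X) u⁻¹).star
  rw [Sym.D_neg_vec hg] at h1
  have e1 : (fun t : ℝ => g (S.ex (t • X) * u)) =
      fun t : ℝ => star (g (u⁻¹ * S.ex (t • -X))) := by
    funext t
    have : S.ex (t • X) * u = (u⁻¹ * S.ex (t • -X))⁻¹ := by
      rw [smul_neg, S.ex_neg, mul_inv_rev, inv_inv, inv_inv]
    rw [this, hh]
    rfl
  rw [e1]
  simpa using h1

theorem herm_D {g : G → ℂ} (hg : IsRep g) (hh : ∀ u, g u⁻¹ = conj (g u)) (X : V) (u : G) :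
    S.D (S.Ad u⁻¹ X) g u = -conj (S.D X g u⁻¹) :=
  (Sym.hasDerivAt_left hg X u).unique (herm_left hg hh X u)

theorem eq_zero_of_herm [ConnectedSpace G] {lam : V} {h : G → ℂ} (ht : R.Top lam h)
    (hM : ∀ c, S.D (R.M c) h = 0) (hh : ∀ u, h u⁻¹ = conj (h u)) (h1 : h 1 = 0) : h = 0 := by
  obtain ⟨k, x, v, hv, hs⟩ := ht.1.exists_sep
  have key : ∀ w ∈ orb h, ∀ X u, HasDerivAt (fun t : ℝ => w (S.ex (t • X) * u))
      (∑ i, S.D X (v i) 1 * w (x i * u)) 0 := by
    intro w hw X u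
    have e : (fun t : ℝ => w (S.ex (t • X) * u)) =
        fun t : ℝ => ∑ i, v i (S.ex (t • X)) * w (x i * u) := funext fun t => hs w hw _ _
    rw [e]
    refine HasDerivAt.fun_sum (fun i _ => HasDerivAt.mul_const ?_ _)
    simpa using Sym.hasDerivAt_D0 (S := S) (ht.1.of_orb (hv i)) X 1
  have comb : ∀ (w : G → ℂ) j u, ∑ i, R.Nm j (v i) 1 * w (x i * u) =
      ∑ i, S.D (R.Y j) (v i) 1 * w (x i * u) -
        Complex.I * ∑ i, S.D (R.η j) (v i) 1 * w (x i * u) := by
    intro w j u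
    rw [Finset.mul_sum, ← Finset.sum_sub_distrib]
    refine Finset.sum_congr rfl (fun i _ => ?_)
    simp only [Roots.Nm, Pi.sub_apply, Pi.smul_apply, smul_eq_mul]
    ring
  let U : Submodule ℂ (G → ℂ) :=
    { carrier := {w | w 1 = 0 ∧ ∀ j, ∑ i, R.Nm j (v i) 1 • Lt (x i) w = 0}
      add_mem' := by
        rintro a b ⟨a1, a2⟩ ⟨b1, b2⟩
        refine ⟨by simp [a1, b1], fun j => ?_⟩
        have : ∀ i, Lt (x i) (a + b) = Lt (x i) a + Lt (x i) b := fun i => rfl
        simp only [this, smul_add, Finset.sum_add_distrib, a2, b2, add_zero]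
      zero_mem' := ⟨rfl, fun j => by
        have : ∀ i, Lt (x i) (0 : G → ℂ) = 0 := fun i => rfl
        simp [this]⟩
      smul_mem' := by
        rintro c a ⟨a1, a2⟩
        refine ⟨by simp [a1], fun j => ?_⟩
        have : ∀ i, Lt (x i) (c • a) = c • Lt (x i) a := fun i => rfl
        simp only [this, smul_comm _ c, ← Finset.smul_sum, a2, smul_zero] }
  have hU : orb h ≤ U := by
    refine ht.lower hM ⟨h1, fun j => ?_⟩ ?_
    · funext u
      simp only [Finset.sum_apply, Pi.smul_apply, smul_eq_mul, Lt, comb, Pi.zero_apply]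
      rw [(key h (mem_orb h) _ u).unique (herm_left ht.1 hh _ u),
        (key h (mem_orb h) _ u).unique (herm_left ht.1 hh _ u)]
      have := congrArg conj (congrFun (ht.2.1 j) u⁻¹)
      simp only [Roots.Np, Pi.add_apply, Pi.smul_apply, smul_eq_mul, map_add, map_mul,
        Complex.conj_I, Pi.zero_apply, map_zero] at this
      linear_combination -this
    · rintro w ⟨-, w2⟩ hw j
      have hr := ht.1.of_orb hw
      refine ⟨?_, fun l => ?_⟩
      · have e := congrFun (w2 j) 1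
        simp only [Finset.sum_apply, Pi.smul_apply, smul_eq_mul, Lt, comb, Pi.zero_apply] at e
        have d : ∀ X, ∑ i, S.D X (v i) 1 * w (x i * 1) = S.D X w 1 := fun X =>
          (key w hw X 1).unique (by simpa using Sym.hasDerivAt_D0 (S := S) hr X 1)
        rw [d, d] at e
        simpa [Roots.Nm] using e
      · have d : ∀ X, ∑ i, R.Nm l (v i) 1 • Lt (x i) (S.D X w) = 0 := fun X => by
          have := congrArg (S.D X) (w2 l)
          rw [Sym.D_sum_fun _ (fun i _ => (hr.lt _).smul _), Sym.D_zero_fun] at this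
          simpa only [Sym.D_smul_fun, Sym.D_Lt] using this
        have : ∀ i, Lt (x i) (R.Nm j w) = Lt (x i) (S.D (R.Y j) w) -
            Complex.I • Lt (x i) (S.D (R.η j) w) := fun i => rfl
        simp only [this, smul_sub, Finset.sum_sub_distrib, smul_comm _ Complex.I,
          ← Finset.smul_sum, d, smul_zero, sub_zero]
  funext u
  simpa [Rt] using (hU (Rt_mem_orb (mem_orb h) u)).1

theorem isG_unique [ConnectedSpace G] {lam : V} {g g' : G → ℂ} (h : R.IsG lam g)
    (h' : R.IsG lam g') : g = g' := by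
  refine sub_eq_zero.1 (eq_zero_of_herm (h.1.sub h'.1) (fun c => ?_) (fun u => ?_) ?_)
  · rw [Sym.D_sub_fun h.1.1 h'.1.1, h.2.1, h'.2.1, sub_zero]
  · simp [h.2.2.1, h'.2.2.1]
  · simp [h.2.2.2, h'.2.2.2]

theorem D_s {g : G → ℂ} (hg : IsRep g) (hh : ∀ u, g u⁻¹ = conj (g u)) (X : V) (x : G) :
    S.D X (fun x => g (S.s x)) x = conj (S.D (S.θ X) g (S.s x)⁻¹) + S.D X g (S.s x) := by
  refine Sym.D_of_hasDerivAt ?_
  have := Sym.hasDerivAt_two (S := S) hg (-S.θ X) X (S.s x)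
  rw [herm_D hg hh, Sym.D_neg_vec hg] at this
  have e : (fun t : ℝ => g (S.s (x * S.ex (t • X)))) =
      fun t : ℝ => g (S.ex (t • -S.θ X) * S.s x * S.ex (t • X)) := by
    funext t
    rw [S.s_mul_ex, map_smul, smul_neg]
  rw [e]
  simpa using this

theorem isHW_s {lam : V} {g : G → ℂ} (h : R.IsG lam g) :
    R.IsHW ((2 : ℝ) • lam) fun x => g (S.s x) := by
  obtain ⟨⟨h1, h2, h3⟩, -, h5, h6⟩ := h
  refine ⟨⟨S.isRep_s h1, fun i => ?_, fun X hX => ?_⟩, fun k hk x => by
    simp only [S.s_K_mul x hk], by simp only [S.s_one, h6]⟩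
  · funext x
    have a1 := congrFun (h2 i) (S.s x)
    have a2 := congrArg conj (congrFun (h2 i) (S.s x)⁻¹)
    simp only [Roots.Np, Pi.add_apply, Pi.smul_apply, smul_eq_mul, map_add, map_mul,
      Complex.conj_I, Pi.zero_apply, map_zero, D_s h1 h5, R.θY, R.θη, Sym.D_neg_vec h1,
      Pi.neg_apply, map_neg] at a1 a2 ⊢
    linear_combination a1 + a2
  · funext x
    rw [D_s h1 h5, R.θH X hX, Sym.D_neg_vec h1, h3 X hX]
    simp [h5, inner_smul_left]
    ring

theorem isG_mul {lam lam' : V} {g g' : G → ℂ} (h : R.IsG lam g) (h' : R.IsG lam' g') :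
    R.IsG (lam + lam') (g * g') :=
  ⟨h.1.mul h'.1, fun c => by rw [Sym.D_mul h.1.1 h'.1.1, h.2.1, h'.2.1]; simp,
    fun u => by simp [h.2.2.1, h'.2.2.1], by simp [h.2.2.2, h'.2.2.2]⟩

theorem isHW_mul {lam lam' : V} {g g' : G → ℂ} (h : R.IsHW lam g) (h' : R.IsHW lam' g') :
    R.IsHW (lam + lam') (g * g') :=
  ⟨h.1.mul h'.1, fun k hk x => by simp [h.2.1 k hk, h'.2.1 k hk], by simp [h.2.2, h'.2.2]⟩

variable {μ : Measure G} [BiH μ] (W : HWD R μ) {n : Fin r → ℕ}

/-- The square of the norm of the highest weight function. -/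
noncomputable def N (n : Fin r → ℕ) : ℝ := ∫ x, ‖W.F n x‖ ^ 2 ∂μ

theorem ipN (n : Fin r → ℕ) : ip μ (W.F n) (W.F n) = (N W n : ℂ) := ip_self μ _

variable (hn : n ∈ W.Λ)
include hn

theorem repF : IsRep (W.F n) := (W.hw n hn).1.1

theorem N_pos : 0 < N W n :=
  ip_self_pos μ (repF W hn).1 (fun h => by simpa [h] using (W.hw n hn).2.2)

theorem N_ne : (N W n : ℂ) ≠ 0 := by exact_mod_cast (N_pos W hn).ne'

omit hn in
theorem g_eq : W.g n = (N W n : ℂ)⁻¹ • fun u => ip μ (W.F n) (Rt u (W.F n)) := by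
  funext u
  simp [HWD.g, ipN, div_eq_inv_mul]

theorem isG_g : R.IsG (R.wt n) (W.g n) := by
  have hF := repF W hn
  obtain ⟨⟨-, h2, h3⟩, -, -⟩ := W.hw n hn
  have hD : ∀ X, S.D X (W.g n) =
      (N W n : ℂ)⁻¹ • fun u => ip μ (W.F n) (Rt u (S.D X (W.F n))) := fun X => by
    rw [g_eq, Sym.D_smul_fun, Sym.D_coef μ hF hF.1]
  refine ⟨⟨by rw [g_eq]; exact (hF.coef μ hF.1).smul _, fun i => ?_, fun X hX => ?_⟩,
    fun c => ?_, fun u => ?_, ?_⟩
  · funext u
    have : ip μ (W.F n) (Rt u (R.Np i (W.F n))) = 0 := by rw [h2]; exact ip_zero_right μ _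
    rw [show Rt u (R.Np i (W.F n)) = Rt u (S.D (R.Y i) (W.F n)) +
      Complex.I • Rt u (S.D (R.η i) (W.F n)) from rfl, ip_add_right μ hF.1
      ((Sym.isRep_D hF _).rt u).1 (((Sym.isRep_D hF _).rt u).smul _).1, ip_smul_right] at this
    simp only [Roots.Np, hD, Pi.add_apply, Pi.smul_apply, smul_eq_mul, Pi.zero_apply]
    linear_combination (N W n : ℂ)⁻¹ * this
  · rw [hD, h3 X hX, g_eq]
    funext u
    simp only [Pi.smul_apply, smul_eq_mul]
    rw [show ∀ c : ℂ, Rt u (c • W.F n) = c • Rt u (W.F n) from fun _ => rfl, ip_smul_right]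
    ring
  · rw [hD, W.FM n hn]
    funext u
    have : Rt u (0 : G → ℂ) = 0 := rfl
    simp [this, ip_zero_right]
  · simp only [HWD.g, ipN, map_div₀, Complex.conj_ofReal, ip_conj, ip_Rt_left]
  · rw [HWD.g, Rt_one, ipN, div_self (N_ne W hn)]

theorem norm_g (u : G) : ‖W.g n u‖ ≤ 1 := by
  have hF := repF W hn
  have h1 := norm_ip_sq_le μ hF.1 (hF.rt u).1
  have h2 : ∫ x, ‖Rt u (W.F n) x‖ ^ 2 ∂μ = N W n := by
    have := ip_Rt μ u (W.F n) (W.F n)
    rw [ip_self, ipN] at this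
    exact_mod_cast this
  rw [h2] at h1
  have h3 := N_pos W hn
  rw [HWD.g, ipN, norm_div, Complex.norm_real, Real.norm_of_nonneg h3.le, div_le_one h3]
  exact (pow_le_pow_iff_left₀ (norm_nonneg _) h3.le two_ne_zero).1 (by rw [sq (N W n)]; exact h1)

theorem F_mul {n' : Fin r → ℕ} (hn' : n' ∈ W.Λ) :
    n + n' ∈ W.Λ ∧ W.F (n + n') = W.F n * W.F n' := by
  obtain ⟨m, hm, e1, e2⟩ := W.uniq _ (R.a.add_mem (R.wt_mem n) (R.wt_mem n')) _
    (isHW_mul (W.hw n hn) (W.hw n' hn'))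
  rw [← R.wt_add] at e1
  rw [R.wt_inj e1]
  exact ⟨hm, e2.symm⟩

theorem F_sq (x : G) : W.F n x ^ 2 = W.g n (S.s x) := by
  obtain ⟨m, -, e1, e2⟩ := W.uniq _ (R.a.smul_mem _ (R.wt_mem n)) _ (isHW_s (isG_g W hn))
  rw [two_smul, ← R.wt_add] at e1
  rw [← R.wt_inj e1, (F_mul W hn hn).2] at e2
  rw [congrFun e2 x, sq]; rfl

theorem mem_Rt {v : G → ℂ} (hv : v ∈ span ℂ (Set.range (W.bas n))) (h : G) :
    Rt h v ∈ span ℂ (Set.range (W.bas n)) := by
  rw [W.span_eq n hn] at hv ⊢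
  exact Rt_mem_orb hv h

theorem mem_F : W.F n ∈ span ℂ (Set.range (W.bas n)) := by
  rw [W.span_eq n hn]; exact mem_orb _

theorem cont_mem {v : G → ℂ} (hv : v ∈ span ℂ (Set.range (W.bas n))) : Continuous v :=
  (IsRep.of_span (by rintro _ ⟨i, rfl⟩; exact W.bas_rep n hn i) hv).1

theorem on (i j : Fin (W.dim n)) :
    ip μ (W.bas n i) (W.bas n j) = if i = j then 1 else 0 := W.orth_same n hn i j

theorem expand {v : G → ℂ} (hv : v ∈ span ℂ (Set.range (W.bas n))) :
    v = ∑ i, ip μ (W.bas n i) v • W.bas n i :=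
  eq_sum_ip μ (W.bas_cont n hn) (W.orth_same n hn) hv

theorem parseval {v w : G → ℂ} (hv : v ∈ span ℂ (Set.range (W.bas n))) (hw : Continuous w) :
    ip μ v w = ∑ i, conj (ip μ (W.bas n i) v) * ip μ (W.bas n i) w := by
  conv_lhs => rw [expand W hn hv]
  rw [ip_sum_left μ _ hw (fun i _ => (W.bas_cont n hn i).const_smul _)]
  simp only [ip_smul_left]

theorem Rt_bas (i : Fin (W.dim n)) (t : ℝ) : Rt (S.ex (t • R.H0)) (W.bas n i) =
    Complex.exp (Complex.I * W.ev n i * t) • W.bas n i :=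
  Sym.Rt_ex_of_eig (W.bas_rep n hn i) (W.eig n hn i) t

theorem schur : ∫ u, ‖W.g n u‖ ^ 2 ∂μ = 1 / W.dim n := by
  have hF := repF W hn
  obtain ⟨A, hA⟩ : ∃ A : (G → ℂ) → G → ℂ, ∀ v, A v = fun u => ip μ v (Rt u (W.F n)) :=
    ⟨_, fun _ => rfl⟩
  have Ac : ∀ v, Continuous v → Continuous (A v) := fun v hv => by
    rw [hA]; exact (hF.coef μ hv).1
  have Aadd : ∀ v w, Continuous v → Continuous w → A (v + w) = A v + A w := fun v w hv hw => by
    funext u; simp only [hA, Pi.add_apply]; exact ip_add_left μ hv hw (hF.rt u).1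
  have Asm : ∀ (c : ℂ) v, A (c • v) = conj c • A v := fun c v => by
    funext u; simp only [hA, Pi.smul_apply, ip_smul_left, smul_eq_mul]
  have Ainv : ∀ h v w, ip μ (A (Rt h v)) (A (Rt h w)) = ip μ (A v) (A w) := fun h v w => by
    have : ∀ v u, A (Rt h v) u = A v (h⁻¹ * u) := fun v u => by
      simp only [hA, ip_Rt_left, Rt_mul]
    simp only [ip, this]
    exact integral_mul_left_eq_self (fun u => conj (A v u) * A w u) h⁻¹
  obtain ⟨i0, c, h0, h1, h2⟩ := W.top n hn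
  have z : ∀ i, i ≠ i0 → ip μ (A (W.F n)) (A (W.bas n i)) = 0 := by
    intro i hi
    have hd : 0 < ⟪R.wt n, R.H0⟫ - W.ev n i := sub_pos.2 (h2 i hi)
    have := Ainv (S.ex ((Real.pi / (⟪R.wt n, R.H0⟫ - W.ev n i)) • R.H0)) (W.F n) (W.bas n i)
    rw [Rt_bas W hn, Sym.Rt_ex_of_eig hF ((W.hw n hn).1.2.2 _ R.H0_mem), Asm, Asm, ip_smul_left,
      ip_smul_right, ← mul_assoc, Complex.conj_conj, ← Complex.exp_conj, ← Complex.exp_add] at this
    have e : Complex.I * (⟪R.wt n, R.H0⟫ : ℝ) * (Real.pi / (⟪R.wt n, R.H0⟫ - W.ev n i) : ℝ) +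
        conj (Complex.I * W.ev n i * (Real.pi / (⟪R.wt n, R.H0⟫ - W.ev n i) : ℝ)) =
        Real.pi * Complex.I := by
      have : ((⟪R.wt n, R.H0⟫ : ℝ) : ℂ) - W.ev n i ≠ 0 := by exact_mod_cast hd.ne'
      simp only [map_mul, Complex.conj_I, Complex.conj_ofReal]
      push_cast
      field_simp
      ring
    rw [e, Complex.exp_pi_mul_I] at this
    linear_combination (-1 / 2 : ℂ) * this
  obtain ⟨κ, hκ⟩ : ∃ κ, κ = c * ip μ (A (W.F n)) (A (W.bas n i0)) := ⟨_, rfl⟩
  have Asum : ∀ (s : Finset (Fin (W.dim n))) (a : Fin (W.dim n) → ℂ),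
      A (∑ i ∈ s, a i • W.bas n i) = ∑ i ∈ s, conj (a i) • A (W.bas n i) := fun s a => by
    funext u
    simp only [hA, Finset.sum_apply, Pi.smul_apply, smul_eq_mul]
    rw [ip_sum_left μ _ (hF.rt u).1 (fun i _ => (W.bas_cont n hn i).const_smul _)]
    simp only [ip_smul_left]
  have b1 : ∀ v ∈ span ℂ (Set.range (W.bas n)), ip μ (A (W.F n)) (A v) = κ * ip μ v (W.F n) := by
    intro v hv
    conv_lhs => rw [expand W hn hv]
    rw [Asum, ip_sum_right μ _ (Ac _ hF.1)
      (fun i _ => (Ac _ (W.bas_cont n hn i)).const_smul _), Finset.sum_eq_single i0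
      (fun i _ hi => by rw [ip_smul_right, z i hi, mul_zero]) (by simp), ip_smul_right, hκ]
    conv_lhs => rw [ip_conj, h0, ip_smul_right, ← h0]
    ring
  have b2 : ∀ v ∈ span ℂ (Set.range (W.bas n)), ∀ w ∈ span ℂ (Set.range (W.bas n)),
      ip μ (A w) (A v) = κ * ip μ v w := by
    intro v hv w hw
    have hc := cont_mem W hn hv
    have hw' := hw
    rw [W.span_eq n hn] at hw'
    induction hw' using span_induction with
    | mem w h =>
      obtain ⟨h, rfl⟩ := h
      rw [← Ainv h⁻¹, ← Rt_mul, inv_mul_cancel, Rt_one, b1 _ (mem_Rt W hn hv _), ip_Rt_left, inv_inv]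
    | zero =>
      have : A 0 = 0 := by funext u; simp [hA, ip_zero_left]
      rw [this, ip_zero_left, ip_zero_right, mul_zero]
    | add x y hx hy ix iy =>
      rw [← W.span_eq n hn] at hx hy
      have cx := cont_mem W hn hx
      have cy := cont_mem W hn hy
      rw [Aadd _ _ cx cy, ip_add_left μ (Ac _ cx) (Ac _ cy) (Ac _ hc), ip_add_right μ hc cx cy,
        ix hx, iy hy, mul_add]
    | smul a x hx ix =>
      rw [← W.span_eq n hn] at hx
      rw [Asm, ip_smul_left, ip_smul_right, ix hx, Complex.conj_conj]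
      ring
  have tr : κ * W.dim n = N W n := by
    have e1 : ∑ i, ip μ (A (W.bas n i)) (A (W.bas n i)) = κ * W.dim n := by
      rw [Finset.sum_congr rfl (fun i _ => b2 _ (subset_span ⟨i, rfl⟩) _ (subset_span ⟨i, rfl⟩))]
      have : ∀ i, ip μ (W.bas n i) (W.bas n i) = 1 := fun i => by
        simpa using on W hn i i
      simp [this, mul_comm]
    rw [← e1]
    simp only [ip]
    rw [← integral_finsetSum (f := fun i u => conj (A (W.bas n i) u) * A (W.bas n i) u) _
      (fun i _ => cont_int μ ((Complex.continuous_conj.comp (Ac _ (W.bas_cont n hn i))).mul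
        (Ac _ (W.bas_cont n hn i))))]
    have : ∀ u, ∑ i, conj (A (W.bas n i) u) * A (W.bas n i) u = N W n := fun u => by
      simp only [hA]
      rw [← parseval W hn (mem_Rt W hn (mem_F W hn) u) (hF.rt u).1, ip_Rt, ipN]
    simp [this]
  have e2 := b2 _ (mem_F W hn) _ (mem_F W hn)
  have e3 : A (W.F n) = (N W n : ℂ) • W.g n := by
    rw [g_eq, smul_smul, mul_inv_cancel₀ (N_ne W hn), one_smul, hA]
  rw [e3, ip_smul_left, ip_smul_right, ip_self, ipN, Complex.conj_ofReal] at e2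
  have hd : (W.dim n : ℂ) ≠ 0 := by exact_mod_cast (W.dim_pos n hn).ne'
  have hN := N_ne W hn
  have : ((∫ u, ‖W.g n u‖ ^ 2 ∂μ : ℝ) : ℂ) = 1 / W.dim n := by
    rw [eq_div_iff hd]
    refine mul_left_cancel₀ hN (mul_left_cancel₀ hN ?_)
    linear_combination (W.dim n : ℂ) * e2 + (N W n : ℂ) * tr
  exact Complex.ofReal_injective (by rw [this]; push_cast; rfl)

theorem pos_K {k : G} (hk : k ∈ S.K) : 0 ≤ (W.g n k).re ∧ (W.g n k).im = 0 := by
  have hF := repF W hn
  have hv := mem_Rt W hn (mem_F W hn) k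
  obtain ⟨c, hc⟩ : ∃ c : Fin (W.dim n) → ℂ, ∀ i, c i = ip μ (W.bas n i) (Rt k (W.F n)) :=
    ⟨_, fun _ => rfl⟩
  have ev : Rt k (W.F n) = ∑ i, c i • W.bas n i := by
    simp only [hc]; exact expand W hn hv
  have evt : ∀ t : ℝ, Rt (S.ex (t • R.H0)) (Rt k (W.F n)) =
      ∑ i, (c i * Complex.exp (Complex.I * W.ev n i * t)) • W.bas n i := fun t => by
    rw [ev]
    have := map_sum (RtL (S.ex (t • R.H0))) (fun i => c i • W.bas n i) Finset.univ
    simp only [map_smul] at this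
    refine this.trans (Finset.sum_congr rfl (fun i _ => ?_))
    rw [← smul_smul, ← Rt_bas W hn]; rfl
  obtain ⟨a, ha⟩ : ∃ a : ℂ → ℂ, a = fun z => ∑ i, c i * Complex.exp (z * W.ev n i) * W.bas n i 1 :=
    ⟨_, rfl⟩
  obtain ⟨b, hb⟩ : ∃ b : ℂ → ℂ, b = fun z =>
      (∑ i, conj (c i) * c i * Complex.exp (2 * z * W.ev n i)) / N W n := ⟨_, rfl⟩
  have da : Differentiable ℂ a := by rw [ha]; fun_prop
  have db : Differentiable ℂ b := by rw [hb]; fun_prop
  have im : ∀ s : ℝ, a (Complex.I * s) ^ 2 = b (Complex.I * s) := by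
    intro s
    have e1 : a (Complex.I * s) = W.F n (S.ex (s • R.H0) * k) := by
      have := congrFun (evt s) 1
      simp only [Rt, one_mul, Finset.sum_apply, Pi.smul_apply, smul_eq_mul] at this
      rw [this, ha]
      refine Finset.sum_congr rfl (fun i _ => ?_)
      rw [mul_right_comm Complex.I]
    have e2 : S.s (S.ex (s • R.H0)) = S.ex ((2 * s) • R.H0) := by
      have := S.s_mul_ex 1 (s • R.H0)
      rw [one_mul, S.s_one, mul_one, R.θH _ (R.a.smul_mem _ R.H0_mem), neg_neg, ← S.ex_add] at this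
      rw [this, two_mul]
    rw [e1, F_sq W hn, S.s_mul_K _ hk, e2, HWD.g, ipN, mul_assoc, Rt_mul, ← ip_Rt_left, Rt_mul,
      parseval W hn hv ((hF.rt _).rt _).1, hb]
    congr 1
    refine Finset.sum_congr rfl (fun i _ => ?_)
    rw [← hc, evt, ip_sum_right μ _ (W.bas_cont n hn i)
      (fun i _ => (W.bas_cont n hn i).const_smul _), Finset.sum_eq_single i (fun j _ hj => by
        rw [ip_smul_right, show ip μ (W.bas n i) (W.bas n j) = 0 by
          simpa [hj.symm] using on W hn i j, mul_zero]) (by simp), ip_smul_right,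
      show ip μ (W.bas n i) (W.bas n i) = 1 by simpa using on W hn i i]
    push_cast
    ring_nf
  have all : (fun z => a z ^ 2) = b := by
    refine AnalyticOnNhd.eq_of_frequently_eq (z₀ := 0)
      (Complex.analyticOnNhd_univ_iff_differentiable.2 (da.pow 2))
      (Complex.analyticOnNhd_univ_iff_differentiable.2 db) ?_
    have t1 : Tendsto (fun s : ℝ => Complex.I * s) (𝓝[≠] 0) (𝓝[≠] 0) := by
      refine tendsto_nhdsWithin_iff.2 ⟨?_, ?_⟩
      · have : Continuous (fun s : ℝ => Complex.I * s) := by fun_prop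
        simpa using (this.tendsto 0).mono_left nhdsWithin_le_nhds
      · filter_upwards [self_mem_nhdsWithin] with s hs
        simpa using hs
    exact t1.frequently (Eventually.of_forall im).frequently
  have hN := N_pos W hn
  have real : ∀ t : ℝ, ∃ β : ℝ, 0 < β ∧ a t ^ 2 = β := by
    intro t
    refine ⟨(∑ i, ‖c i‖ ^ 2 * Real.exp (2 * t * W.ev n i)) / N W n, div_pos ?_ hN, ?_⟩
    · have : ∃ i, c i ≠ 0 := by
        by_contra h
        push Not at h
        have := congrFun ev 1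
        simp only [h, zero_smul, Finset.sum_const_zero, Rt, one_mul, Pi.zero_apply] at this
        have e := (W.hw n hn).2.1 k hk 1
        rw [mul_one, this, (W.hw n hn).2.2] at e
        exact zero_ne_one e
      obtain ⟨i, hi⟩ := this
      exact Finset.sum_pos' (fun i _ => by positivity) ⟨i, Finset.mem_univ _, by positivity⟩
    · rw [congrFun all t, hb]
      simp only [Complex.conj_mul']
      push_cast
      rfl
  have re0 : ∀ t : ℝ, (a t).im = 0 ∧ (a t).re ≠ 0 := by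
    intro t
    obtain ⟨β, h1, h2⟩ := real t
    have e1 := congrArg Complex.re h2
    have e2 := congrArg Complex.im h2
    simp only [sq, Complex.mul_re, Complex.mul_im, Complex.ofReal_re, Complex.ofReal_im] at e1 e2
    have : (a t).re ≠ 0 := fun h => by rw [h] at e1; nlinarith [mul_self_nonneg (a t).im]
    exact ⟨mul_left_cancel₀ this (by linarith), this⟩
  have a0 : a 0 = 1 := by
    have := congrFun ev 1
    simp only [Rt, one_mul, Finset.sum_apply, Pi.smul_apply, smul_eq_mul] at this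
    have e := (W.hw n hn).2.1 k hk 1
    rw [mul_one, this, (W.hw n hn).2.2] at e
    simpa [ha] using e
  have pos : ∀ t : ℝ, 0 < (a t).re := by
    intro t
    by_contra h
    have cont : Continuous fun t : ℝ => (a t).re :=
      Complex.continuous_re.comp (da.continuous.comp Complex.continuous_ofReal)
    obtain ⟨s, hs⟩ := intermediate_value_univ t 0 cont (show (0 : ℝ) ∈ Set.Icc _ _ from
      ⟨not_lt.1 h, by simp [a0]⟩)
    exact (re0 s).2 hs
  obtain ⟨i0, d, h0, h1, h2⟩ := W.top n hn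
  have lim : Tendsto (fun t : ℝ => (Real.exp (-(t * W.ev n i0)) : ℂ) * a t) atTop
      (𝓝 (W.g n k)) := by
    have e : W.g n k = ∑ i, c i * ((if i = i0 then 1 else 0 : ℝ) : ℂ) * W.bas n i 1 := by
      rw [Finset.sum_eq_single i0 (fun j _ hj => by simp [hj]) (by simp), hc]
      have o : ip μ (W.bas n i0) (W.bas n i0) = 1 := by simpa using on W hn i0 i0
      rw [h0, ip_smul_left, ip_smul_right, ipN] at o
      rw [h0, ip_smul_left, HWD.g, ipN, div_eq_iff (N_ne W hn)]
      simp only [if_true, Complex.ofReal_one, mul_one, Pi.smul_apply, smul_eq_mul, (W.hw n hn).2.2]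
      linear_combination (-ip μ (W.F n) (Rt k (W.F n))) * o
    rw [e]
    simp only [ha, Finset.mul_sum]
    refine tendsto_finsetSum _ (fun i _ => ?_)
    have : ∀ t : ℝ, (Real.exp (-(t * W.ev n i0)) : ℂ) * (c i * Complex.exp (t * W.ev n i) *
        W.bas n i 1) = c i * (Real.exp (t * (W.ev n i - W.ev n i0)) : ℝ) * W.bas n i 1 := by
      intro t
      rw [mul_sub, sub_eq_add_neg, Real.exp_add]
      push_cast
      ring
    simp only [this]
    refine (Tendsto.const_mul _ ((Complex.continuous_ofReal.tendsto _).comp ?_)).mul_const _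
    split_ifs with h
    · simp [h]
    · exact Real.tendsto_exp_atBot.comp
        (tendsto_id.atTop_mul_const_of_neg (by rw [h1]; exact sub_neg.2 (h2 i h)))
  constructor
  · refine ge_of_tendsto' ((Complex.continuous_re.tendsto _).comp lim) (fun t => ?_)
    simp only [Function.comp, Complex.re_ofReal_mul]
    exact (mul_pos (Real.exp_pos _) (pos t)).le
  · refine tendsto_nhds_unique ((Complex.continuous_im.tendsto _).comp lim) ?_
    simp only [Function.comp_def, Complex.im_ofReal_mul, (re0 _).1, mul_zero]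
    exact tendsto_const_nhds

end Gfun

theorem gfun_stmt : GfunStmt := by
  intro V _ _ _ G _ _ _ _ _ μ _ S r R W
  refine ⟨fun _ _ _ => Gfun.isG_unique, fun _ _ => Gfun.isHW_s, fun n hn n' hn' => ?_,
    fun n hn => ⟨Gfun.isG_g W hn, Gfun.norm_g W hn, Gfun.F_sq W hn, Gfun.schur W hn,
      fun _ => Gfun.pos_K W hn⟩⟩
  obtain ⟨h1, h2⟩ := Gfun.F_mul W hn hn'
  refine ⟨h1, h2, Gfun.isG_unique (Gfun.isG_g W h1) ?_⟩
  rw [R.wt_add]
  exact Gfun.isG_mul (Gfun.isG_g W hn) (Gfun.isG_g W hn')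

end Pool.Agent.MP_ba99b7_an

end MrgPart3

-- ======== part 4: formerly Pool.Agent.MP_ba99b7_an.Dim
section MrgPart4

/-! PROJECT STRI, module DIM: generators of the semigroup of spherical weights, Gaussian bounds
for the diagonal matrix coefficients and the size of the dimensions. -/

set_option linter.unusedSectionVars false

namespace Pool.Agent.MP_ba99b7_an

open scoped ComplexConjugate RealInnerProductSpace Topology
open MeasureTheory Module

namespace Dim

variable {V : Type} [NormedAddCommGroup V] [InnerProductSpace ℝ V] [FiniteDimensional ℝ V]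
  {G : Type} [Group G] [TopologicalSpace G] [MeasurableSpace G] [TG G]
  {S : Sym V G} {r : ℕ} {R : Roots S r}

theorem isG_mul {lam lam' : V} {f g : G → ℂ} (hf : R.IsG lam f) (hg : R.IsG lam' g) :
    R.IsG (lam + lam') (f * g) := by
  refine ⟨hf.1.mul hg.1, fun c => ?_, fun u => ?_, ?_⟩
  · rw [Sym.D_mul hf.1.1 hg.1.1, hf.2.1 c, hg.2.1 c]; simp
  · simp [hf.2.2.1 u, hg.2.2.1 u]
  · simp [hf.2.2.2, hg.2.2.2]

theorem D_one (X : V) : S.D X (1 : G → ℂ) = 0 := Sym.D_const 1 X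

theorem top_one : R.Top 0 (1 : G → ℂ) := by
  refine ⟨isRep_one, fun i => ?_, fun X _ => ?_⟩
  · simp [Roots.Np, D_one]
  · simp [D_one]

theorem isG_one : R.IsG 0 (1 : G → ℂ) :=
  ⟨top_one, fun _ => D_one _, fun _ => by simp, rfl⟩

theorem isHW_one : R.IsHW 0 (1 : G → ℂ) := ⟨top_one, fun _ _ _ => rfl, rfl⟩

theorem wt_zero : R.wt 0 = 0 := by simp [Roots.wt]

theorem norm_one_sub_pow (y : ℂ) (hy : ‖y‖ ≤ 1) (q : ℕ) : ‖1 - y ^ q‖ ≤ q * ‖1 - y‖ := by
  induction q with
  | zero => simp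
  | succ q ih =>
    have h : 1 - y ^ (q + 1) = (1 - y) + y * (1 - y ^ q) := by ring
    rw [h]
    refine (norm_add_le _ _).trans ?_
    rw [norm_mul]
    push_cast
    nlinarith [norm_nonneg (1 - y ^ q), norm_nonneg y, norm_nonneg (1 - y)]

theorem one_sub_re (z : ℂ) : 1 - z.re = (‖1 - z‖ ^ 2 + (1 - ‖z‖ ^ 2)) / 2 := by
  rw [Complex.sq_norm, Complex.sq_norm, Complex.normSq_apply, Complex.normSq_apply]
  simp
  ring

theorem bern (x : ℝ) (hx : 0 ≤ x) (q : ℕ) : 1 - q * (1 - x) ≤ x ^ q := by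
  have := one_add_mul_le_pow (a := x - 1) (by linarith) q
  simp only [add_sub_cancel] at this
  linarith

theorem rho_nonneg (j : Fin r) (u : G) : 0 ≤ R.ρ j u := norm_nonneg _

theorem delta_nonneg (j : Fin r) (u : G) : 0 ≤ R.δ j u := norm_nonneg _

theorem rho_cont (j : Fin r) : Continuous (R.ρ j) :=
  ((S.Ad_cont.clm_apply continuous_const).sub continuous_const).norm

theorem rho_sq_le (j : Fin r) (u : G) : R.ρ j u ^ 2 ≤ R.δ j u ^ 2 * ∑ i, ‖R.w i‖ ^ 2 := by
  have h1 := R.ρ_le j u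
  have h2 : ‖R.w j‖ ^ 2 ≤ ∑ i, ‖R.w i‖ ^ 2 :=
    Finset.single_le_sum (f := fun i => ‖R.w i‖ ^ 2) (fun i _ => by positivity)
      (Finset.mem_univ j)
  calc R.ρ j u ^ 2 ≤ (R.δ j u * ‖R.w j‖) ^ 2 := pow_le_pow_left₀ (rho_nonneg j u) h1 2
    _ = R.δ j u ^ 2 * ‖R.w j‖ ^ 2 := by ring
    _ ≤ _ := by gcongr

end Dim

open Dim

theorem gen_of (h1 : MatStmt) (h2 : GfunStmt) : GenStmt := by
  intro V _ _ _ G _ _ _ _ _ μ _ S r R W
  obtain ⟨g, cj, c, C, hc, hC, hg⟩ := h1 V G S r R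
  obtain ⟨huniq, hs, hadd, hW⟩ := h2 V G μ S r R W
  -- the zero weight
  have h0 : (0 : Fin r → ℕ) ∈ W.Λ ∧ W.F 0 = 1 ∧ W.g 0 = 1 := by
    obtain ⟨n, hn, h1, h2⟩ := W.uniq 0 R.a.zero_mem 1 isHW_one
    have : n = 0 := R.wt_inj (by rw [← h1, wt_zero])
    subst this
    refine ⟨hn, h2.symm, huniq 0 _ _ ?_ isG_one⟩
    have := (hW 0 hn).1
    rwa [wt_zero] at this
  have hmul : ∀ n ∈ W.Λ, ∀ k : ℕ, k • n ∈ W.Λ ∧ W.F (k • n) = W.F n ^ k ∧
      W.g (k • n) = W.g n ^ k := by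
    intro n hn k
    induction k with
    | zero => simpa using h0
    | succ k ih =>
      obtain ⟨a1, a2, a3⟩ := hadd _ ih.1 n hn
      rw [succ_nsmul]
      exact ⟨a1, by rw [a2, ih.2.1, pow_succ], by rw [a3, ih.2.2, pow_succ]⟩
  have hsum : ∀ (n : Fin r → Fin r → ℕ), (∀ j, n j ∈ W.Λ) → ∀ s : Finset (Fin r),
      ∑ j ∈ s, n j ∈ W.Λ ∧ W.g (∑ j ∈ s, n j) = ∏ j ∈ s, W.g (n j) := by
    intro n hn s
    induction s using Finset.induction_on with
    | empty => simpa using ⟨h0.1, h0.2.2⟩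
    | insert j s hj ih =>
      rw [Finset.sum_insert hj, Finset.prod_insert hj]
      obtain ⟨a1, -, a3⟩ := hadd _ (hn j) _ ih.1
      exact ⟨a1, by rw [a3, ih.2]⟩
  -- the generators
  have hgen : ∀ j, ∃ e : ℕ, 0 < e ∧ e • (Pi.single j 1 : Fin r → ℕ) ∈ W.Λ ∧
      W.F (e • Pi.single j 1) = (fun x => g j (S.s x)) ∧
      W.g (e • Pi.single j 1) = g j ^ 2 := by
    intro j
    obtain ⟨hcj, hG, -⟩ := hg j
    obtain ⟨n, hn, h1, h2⟩ := W.uniq _
      (R.a.smul_mem _ (R.a.smul_mem _ (R.w_mem j))) _ (hs _ _ hG)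
    have h3 : (fun i => (n i : ℝ) - (Pi.single j (2 * cj j) : Fin r → ℝ) i) = 0 := by
      apply R.w_indep
      simp only [sub_smul, Finset.sum_sub_distrib]
      have : ∑ i, (Pi.single j (2 * cj j) : Fin r → ℝ) i • R.w i = (2 : ℝ) • cj j • R.w j := by
        rw [Finset.sum_eq_single j]
        · simp [mul_smul]
        · intro i _ hi; simp [hi]
        · simp
      rw [this, h1, Roots.wt, sub_self]
    have h4 : (n j : ℝ) = 2 * cj j := by
      have := congrFun h3 j
      simpa [sub_eq_zero] using this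
    have h5 : n = n j • (Pi.single j 1 : Fin r → ℕ) := by
      funext i
      by_cases hi : i = j
      · subst hi; simp
      · have := congrFun h3 i
        simp only [Pi.single_eq_of_ne hi, sub_zero, Pi.zero_apply, Nat.cast_eq_zero] at this
        simp [hi, this]
    refine ⟨n j, ?_, h5 ▸ hn, by rw [← h5, h2], ?_⟩
    · have : (0 : ℝ) < n j := by rw [h4]; positivity
      exact_mod_cast this
    · rw [← h5]
      refine huniq (R.wt n) _ _ (hW n hn).1 ?_
      rw [← h1, two_smul, sq]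
      exact isG_mul hG hG
  choose e he hmem hF hgg using hgen
  set E : ℕ := ∏ j, e j with hE
  set q : Fin r → ℕ := fun j => ∏ i ∈ Finset.univ.erase j, e i with hq
  have hEq : ∀ j, E = q j * e j := fun j => by
    rw [hE, hq, Finset.prod_erase_mul _ _ (Finset.mem_univ j)]
  have hE0 : 0 < E := Finset.prod_pos fun j _ => he j
  have hq0 : ∀ j, 0 < q j := fun j => Finset.prod_pos fun i _ => he i
  have hqE : ∀ j, q j ≤ E := fun j => by
    rw [hEq j]; exact Nat.le_mul_of_pos_right _ (he j)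
  have hE1 : (1 : ℝ) ≤ E := by exact_mod_cast hE0
  have hg1 : ∀ j u, ‖g j u‖ ^ 2 ≤ 1 := fun j u =>
    ((hg j).2.2 u).2.1.trans (Real.exp_le_one_iff.2 (by
      have := mul_nonneg hc.le (sq_nonneg (R.ρ j u)); linarith))
  have hg1' : ∀ j u, ‖g j u‖ ≤ 1 := fun j u => by
    have := hg1 j u
    nlinarith [norm_nonneg (g j u)]
  set W2 : ℝ := ∑ i, ‖R.w i‖ ^ 2 with hW2
  have hW20 : 0 ≤ W2 := Finset.sum_nonneg fun i _ => by positivity
  set c' : ℝ := min (c / (2 * E)) (min ((1 / 2) ^ r) (1 / (4 * E * (C + 1)))) with hc'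
  have hc'0 : 0 < c' := by rw [hc']; positivity
  have hc'1 : c' ≤ c / (2 * E) := min_le_left _ _
  have hc'2 : c' ≤ (1 / 2) ^ r := (min_le_right _ _).trans (min_le_left _ _)
  have hc'3 : c' ≤ 1 / (4 * E * (C + 1)) := (min_le_right _ _).trans (min_le_right _ _)
  have hc'4 : 2 * E * c' ≤ c := by
    rw [le_div_iff₀ (by positivity)] at hc'1; linarith
  have hc'5 : 4 * E * (C + 1) * c' ≤ 1 := by
    rw [le_div_iff₀ (by positivity)] at hc'3; linarith
  refine ⟨E, c', (E ^ 2 * C ^ 2 + E * C * W2) / 2, hE0, hc'0, by positivity, fun j => ?_,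
    fun n hn u => ?_⟩
  · have e1 : E • (Pi.single j 1 : Fin r → ℕ) = q j • e j • (Pi.single j 1 : Fin r → ℕ) := by
      rw [hEq j, mul_smul]
    obtain ⟨a1, a2, -⟩ := hmul _ (hmem j) (q j)
    rw [e1]
    refine ⟨a1, fun x => ?_⟩
    rw [a2, hF j]
    simp only [Pi.pow_apply]
    obtain ⟨b1, b2, b3⟩ := (hg j).2.2 (S.s x)
    set y := g j (S.s x)
    have hy := hg1' j (S.s x)
    constructor
    · rw [norm_pow]
      have b4 : ‖y‖ ^ q j ≤ ‖y‖ := pow_le_of_le_one (norm_nonneg _) hy (hq0 j).ne'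
      refine b4.trans ?_
      refine le_of_sq_le_sq (b2.trans ?_) (Real.exp_pos _).le
      rw [← Real.exp_nat_mul]
      apply Real.exp_le_exp.2
      have : 2 * c' ≤ c := by nlinarith
      push_cast
      nlinarith [sq_nonneg (R.ρ j (S.s x))]
    · rw [one_sub_re]
      have b5 := norm_one_sub_pow y hy (q j)
      have hqE' : (q j : ℝ) ≤ E := by exact_mod_cast hqE j
      have hd := delta_nonneg (R := R) j (S.s x)
      have b6 : ‖1 - y ^ q j‖ ≤ E * (C * R.δ j (S.s x)) := by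
        refine b5.trans ?_
        gcongr
      have b7 : ‖1 - y ^ q j‖ ^ 2 ≤ (E * (C * R.δ j (S.s x))) ^ 2 :=
        pow_le_pow_left₀ (norm_nonneg _) b6 2
      have b8 := bern (‖y‖ ^ 2) (by positivity) (q j)
      have b9 : ‖y ^ q j‖ ^ 2 = (‖y‖ ^ 2) ^ q j := by rw [norm_pow, ← pow_mul, ← pow_mul, mul_comm]
      have b10 := rho_sq_le (R := R) j (S.s x)
      have b11 : (q j : ℝ) * (1 - ‖y‖ ^ 2) ≤ E * (C * (R.δ j (S.s x) ^ 2 * W2)) := by
        have : 1 - ‖y‖ ^ 2 ≤ C * (R.δ j (S.s x) ^ 2 * W2) := by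
          have := mul_le_mul_of_nonneg_left b10 hC
          linarith
        have h0' : 0 ≤ 1 - ‖y‖ ^ 2 := by linarith [hg1 j (S.s x)]
        gcongr
      rw [b9]
      nlinarith
  · have e1 : E • n = ∑ j, (n j * q j) • e j • (Pi.single j 1 : Fin r → ℕ) := by
      funext i
      rw [Finset.sum_apply, Finset.sum_eq_single i]
      · simp [hEq i]; ring
      · intro j _ hj; simp [Ne.symm hj]
      · simp
    have e2 : W.g n ^ E = ∏ j, (g j ^ 2) ^ (n j * q j) := by
      rw [← (hmul n hn E).2.2, e1,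
        (hsum _ (fun j => (hmul _ (hmem j) (n j * q j)).1) Finset.univ).2]
      refine Finset.prod_congr rfl fun j _ => ?_
      rw [(hmul _ (hmem j) (n j * q j)).2.2, hgg j]
    have e3 : (‖W.g n u‖ ^ 2) ^ E = ∏ j, (‖g j u‖ ^ 2) ^ (2 * (n j * q j)) := by
      have := congrArg (fun f : G → ℂ => ‖f u‖ ^ 2) e2
      simp only [Pi.pow_apply, Finset.prod_apply, norm_pow, norm_prod] at this
      rw [← pow_mul, mul_comm, pow_mul, this, ← Finset.prod_pow]
      refine Finset.prod_congr rfl fun j _ => ?_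
      rw [← pow_mul, ← pow_mul, ← pow_mul]
      congr 1
      ring
    constructor
    · refine le_of_pow_le_pow_left₀ hE0.ne' (Real.exp_pos _).le ?_
      rw [e3, ← Real.exp_nat_mul]
      have : ∏ j, (‖g j u‖ ^ 2) ^ (2 * (n j * q j))
          ≤ ∏ j, Real.exp (-(E * c' * (n j * R.ρ j u ^ 2))) := by
        refine Finset.prod_le_prod (fun j _ => by positivity) fun j _ => ?_
        refine (pow_le_pow_left₀ (by positivity) ((hg j).2.2 u).2.1 _).trans ?_
        rw [← Real.exp_nat_mul]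
        apply Real.exp_le_exp.2
        have hq1 : (1 : ℝ) ≤ q j := by exact_mod_cast hq0 j
        have h7 : 0 ≤ (n j : ℝ) * R.ρ j u ^ 2 := by positivity
        have h8 : E * c' ≤ 2 * q j * c := by nlinarith
        push_cast
        nlinarith
      refine this.trans (le_of_eq ?_)
      rw [← Real.exp_sum]
      congr 1
      rw [Finset.sum_neg_distrib, ← Finset.mul_sum]
      ring
    · intro hsm
      have hle : ‖W.g n u‖ ^ 2 ≤ 1 := by
        have := (hW n hn).2.1 u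
        nlinarith [norm_nonneg (W.g n u)]
      have h6 : (‖W.g n u‖ ^ 2) ^ E ≤ ‖W.g n u‖ ^ 2 :=
        pow_le_of_le_one (by positivity) hle hE0.ne'
      refine hc'2.trans (le_trans ?_ h6)
      rw [e3]
      have : ((1 : ℝ) / 2) ^ r = ∏ _j : Fin r, ((1 : ℝ) / 2) := by simp
      rw [this]
      refine Finset.prod_le_prod (fun j _ => by positivity) fun j _ => ?_
      refine le_trans ?_ (bern _ (by positivity) _)
      have b1 := ((hg j).2.2 u).1
      have b2 := hsm j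
      have hqE' : (q j : ℝ) ≤ E := by exact_mod_cast hqE j
      have b3 : (n j : ℝ) * R.ρ j u ^ 2 ≤ c' := by nlinarith [sq_nonneg (R.ρ j u)]
      have b4 : (n j : ℝ) * (1 - ‖g j u‖ ^ 2) ≤ C * c' := by
        calc (n j : ℝ) * (1 - ‖g j u‖ ^ 2) ≤ n j * (C * R.ρ j u ^ 2) := by
              gcongr; linarith
          _ = C * (n j * R.ρ j u ^ 2) := by ring
          _ ≤ C * c' := by gcongr
      have b5 : (q j : ℝ) * (n j * (1 - ‖g j u‖ ^ 2)) ≤ E * (C * c') := by
        have h0' : 0 ≤ 1 - ‖g j u‖ ^ 2 := by linarith [hg1 j u]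
        gcongr
      push_cast
      nlinarith

namespace Dim

variable {V : Type} [NormedAddCommGroup V] [InnerProductSpace ℝ V] [FiniteDimensional ℝ V]
  {G : Type} [Group G] [TopologicalSpace G] [MeasurableSpace G] [TG G]
  {S : Sym V G} {r : ℕ} {R : Roots S r}

theorem ball_meas (ε : Fin r → ℝ) : MeasurableSet {u : G | ∀ j, R.ρ j u ≤ ε j} := by
  rw [Set.ofPred_forall]
  exact (isClosed_iInter fun j => isClosed_le (rho_cont j) continuous_const).measurableSet

theorem vol_mono (μ : Measure G) [BiH μ] {ε ε' : Fin r → ℝ} (h : ∀ j, ε j ≤ ε' j) :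
    R.vol μ ε ≤ R.vol μ ε' :=
  measureReal_mono (fun _ hu j => (hu j).trans (h j))

theorem vol_nonneg (μ : Measure G) (ε : Fin r → ℝ) : 0 ≤ R.vol μ ε := measureReal_nonneg

/-- The scale of a weight. -/
noncomputable def eps (n : Fin r → ℕ) (j : Fin r) : ℝ := (Real.sqrt (1 + n j))⁻¹

theorem eps_pos (n : Fin r → ℕ) (j : Fin r) : 0 < eps n j := by unfold eps; positivity

theorem eps_sq (n : Fin r → ℕ) (j : Fin r) : eps n j ^ 2 = (1 + n j : ℝ)⁻¹ := by
  unfold eps; rw [inv_pow, Real.sq_sqrt (by positivity)]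

theorem eps_mul (n : Fin r → ℕ) (j : Fin r) : (1 + n j : ℝ) * eps n j ^ 2 = 1 := by
  rw [eps_sq]; field_simp

theorem gauss (μ : Measure G) [BiH μ] {c C : ℝ} {Mx : ℕ} (hc : 0 < c) (hC : 0 ≤ C)
    (hv : ∀ ε : Fin r → ℝ, (∀ j, 0 < ε j) → ∀ T : ℝ, 1 ≤ T →
      R.vol μ (fun j => T * ε j) ≤ C * T ^ Mx * R.vol μ ε) :
    ∃ b : ℝ, 0 ≤ b ∧ ∀ n : Fin r → ℕ,
      ∫ u, Real.exp (-(c * ∑ j, n j * R.ρ j u ^ 2)) ∂μ ≤ b * R.vol μ (eps n) := by
  set W2 : ℝ := 4 * ∑ i, ‖R.w i‖ ^ 2 with hW2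
  have hW20 : 0 ≤ W2 := mul_nonneg (by norm_num) (Finset.sum_nonneg fun i _ => by positivity)
  have hρ : ∀ j u, R.ρ j u ^ 2 ≤ W2 := fun j u => by
    refine (rho_sq_le j u).trans ?_
    have h1 := R.δ_le j u
    have h2 := delta_nonneg (R := R) j u
    have h3 : R.δ j u ^ 2 ≤ 4 := by nlinarith
    rw [hW2]
    gcongr
  set a : ℕ → ℝ := fun i => Real.exp (c * W2) * Real.exp (-c * i) with ha
  have ha0 : ∀ i, 0 ≤ a i := fun i => by rw [ha]; positivity
  have hsum : Summable fun i : ℕ => a i * ((i : ℝ) + 1) ^ Mx := by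
    have h1 := (summable_nat_add_iff 1).2 (Real.summable_pow_mul_exp_neg_nat_mul Mx hc)
    refine (h1.mul_left (Real.exp (c * W2) * Real.exp c)).congr fun i => ?_
    rw [ha]
    push_cast
    have : Real.exp (-c * i) = Real.exp c * Real.exp (-c * (i + 1)) := by
      rw [← Real.exp_add]; congr 1; ring
    simp only [this]
    ring
  refine ⟨C * ∑' i : ℕ, a i * ((i : ℝ) + 1) ^ Mx,
    mul_nonneg hC (tsum_nonneg fun i => by have := ha0 i; positivity), fun n => ?_⟩
  set A : ℕ → Set G := fun i => {u | ∀ j, R.ρ j u ≤ ((i : ℝ) + 1) * eps n j} with hA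
  obtain ⟨N, hN⟩ : ∃ N : ℕ, ∀ u, u ∈ A N := by
    obtain ⟨N, hN⟩ := exists_nat_ge (W2 * ∑ j, (1 + n j : ℝ))
    refine ⟨N, fun u j => ?_⟩
    refine le_of_sq_le_sq ?_ (by have := eps_pos n j; positivity)
    have h1 : (1 + n j : ℝ) ≤ ∑ j, (1 + n j : ℝ) :=
      Finset.single_le_sum (f := fun j => (1 + n j : ℝ)) (fun i _ => by positivity)
        (Finset.mem_univ j)
    have h2 : W2 * (1 + n j) ≤ ((N : ℝ) + 1) ^ 2 := by
      have := mul_le_mul_of_nonneg_left h1 hW20
      have h3 : (0 : ℝ) ≤ N := by positivity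
      nlinarith
    rw [mul_pow, eps_sq, ← div_eq_mul_inv, le_div_iff₀ (by positivity)]
    refine le_trans ?_ h2
    have := hρ j u
    gcongr
  have hpt : ∀ u, Real.exp (-(c * ∑ j, n j * R.ρ j u ^ 2))
      ≤ ∑ i ∈ Finset.range (N + 1), (A i).indicator (fun _ => a i) u := by
    intro u
    classical
    have hex : ∃ i, u ∈ A i := ⟨N, hN u⟩
    set i := Nat.find hex with hi
    have hiN : i ≤ N := Nat.find_min' hex (hN u)
    have hiA : u ∈ A i := Nat.find_spec hex
    refine le_trans ?_ (Finset.single_le_sum (f := fun i => (A i).indicator (fun _ => a i) u)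
      (fun i _ => Set.indicator_nonneg (fun _ _ => ha0 i) u)
      (Finset.mem_range.2 (Nat.lt_succ_of_le hiN)))
    simp only [Set.indicator_of_mem hiA, ha]
    rw [← Real.exp_add]
    apply Real.exp_le_exp.2
    have hS : 0 ≤ ∑ j, n j * R.ρ j u ^ 2 := Finset.sum_nonneg fun j _ => by positivity
    have key : (i : ℝ) - W2 ≤ ∑ j, n j * R.ρ j u ^ 2 := by
      rcases Nat.eq_zero_or_pos i with h0 | h0
      · rw [h0]; simp; linarith
      · have h1 : u ∉ A (i - 1) := Nat.find_min hex (by omega)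
        simp only [hA, Set.mem_ofPred_eq, not_forall, not_le] at h1
        obtain ⟨j, hj⟩ := h1
        have h2 : ((i - 1 : ℕ) : ℝ) + 1 = i := by
          rw [Nat.cast_sub h0]; simp
        rw [h2] at hj
        have h3 : ((i : ℝ) * eps n j) ^ 2 ≤ R.ρ j u ^ 2 :=
          pow_le_pow_left₀ (by have := eps_pos n j; positivity) hj.le 2
        have h4 : (i : ℝ) ^ 2 ≤ (1 + n j) * R.ρ j u ^ 2 := by
          calc (i : ℝ) ^ 2 = (1 + n j) * ((i : ℝ) * eps n j) ^ 2 := by
                rw [mul_pow, mul_left_comm, eps_mul, mul_one]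
            _ ≤ _ := by gcongr
        have h5 : (n j : ℝ) * R.ρ j u ^ 2 ≤ ∑ j, n j * R.ρ j u ^ 2 :=
          Finset.single_le_sum (f := fun j => (n j : ℝ) * R.ρ j u ^ 2)
            (fun i _ => by positivity) (Finset.mem_univ j)
        have h6 : (1 : ℝ) ≤ i := by exact_mod_cast h0
        have := hρ j u
        nlinarith
    nlinarith
  have hmA : ∀ i, MeasurableSet (A i) := fun i => ball_meas _
  have hint : ∀ i, Integrable ((A i).indicator fun _ => a i) μ := fun i =>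
    (integrable_const _).indicator (hmA i)
  have hcont : Continuous fun u => Real.exp (-(c * ∑ j, n j * R.ρ j u ^ 2)) := by
    have := fun j => rho_cont (R := R) j
    fun_prop
  refine (integral_mono (cont_int μ hcont) (integrable_finsetSum _ fun i _ => hint i) hpt).trans ?_
  rw [integral_finsetSum _ fun i _ => hint i]
  have h7 : ∀ i, ∫ u, (A i).indicator (fun _ => a i) u ∂μ
      ≤ a i * ((i : ℝ) + 1) ^ Mx * (C * R.vol μ (eps n)) := fun i => by
    rw [integral_indicator_const _ (hmA i), smul_eq_mul]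
    have h8 := hv (eps n) (eps_pos n) ((i : ℝ) + 1) (by linarith [Nat.cast_nonneg (α := ℝ) i])
    have h9 := mul_le_mul_of_nonneg_right h8 (ha0 i)
    calc μ.real (A i) * a i ≤ _ := h9
      _ = _ := by ring
  refine (Finset.sum_le_sum fun i _ => h7 i).trans ?_
  rw [← Finset.sum_mul]
  have h10 := hsum.sum_le_tsum (Finset.range (N + 1)) fun i _ => by have := ha0 i; positivity
  have h11 := vol_nonneg (R := R) μ (eps n)
  calc _ ≤ (∑' i : ℕ, a i * ((i : ℝ) + 1) ^ Mx) * (C * R.vol μ (eps n)) := by gcongr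
    _ = _ := by ring

end Dim

theorem dim_of (h1 : GfunStmt) (h2 : GenStmt) (h3 : VolStmt) : DimStmt := by
  intro V _ _ _ G _ _ _ _ _ μ _ S r R W
  obtain ⟨-, -, hadd, hW⟩ := h1 V G μ S r R W
  obtain ⟨e, c, -, -, hc, -, -, hgen⟩ := h2 V G μ S r R W
  obtain ⟨c1, C0, Mx, hc1, hv0, hlow⟩ := h3 V G μ S r R
  set C1 : ℝ := max C0 1 with hC1
  have hC1p : 0 < C1 := lt_of_lt_of_le one_pos (le_max_right _ _)
  have hv : ∀ ε : Fin r → ℝ, (∀ j, 0 < ε j) → ∀ T : ℝ, 1 ≤ T →
      R.vol μ (fun j => T * ε j) ≤ C1 * T ^ Mx * R.vol μ ε := fun ε hε T hT => by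
    refine (hv0 ε hε T hT).trans ?_
    have := vol_nonneg (R := R) μ ε
    have h0 : C0 ≤ C1 := le_max_left _ _
    gcongr
  have hcont : ∀ n ∈ W.Λ, Continuous fun u => ‖W.g n u‖ ^ 2 := fun n hn => by
    have := (hW n hn).1.1.1.1
    fun_prop
  have hdim : ∀ n ∈ W.Λ, (0 : ℝ) < W.dim n := fun n hn => by exact_mod_cast W.dim_pos n hn
  obtain ⟨b, hb, hup0⟩ := gauss μ hc hC1p.le hv
  have hup : ∀ n ∈ W.Λ, 1 / (W.dim n : ℝ) ≤ b * R.vol μ (eps n) := fun n hn => by
    rw [← (hW n hn).2.2.2.1]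
    refine le_trans (integral_mono (cont_int μ (hcont n hn)) (cont_int μ ?_)
      fun u => (hgen n hn u).1) (hup0 n)
    have := fun j => rho_cont (R := R) j
    fun_prop
  obtain ⟨a, ha, hlo⟩ : ∃ a : ℝ, 0 < a ∧ ∀ n ∈ W.Λ, R.vol μ (eps n) ≤ a * (1 / W.dim n) := by
    set t : ℝ := min c 1 with ht
    have ht0 : 0 < t := lt_min hc one_pos
    have ht1 : t ≤ 1 := min_le_right _ _
    have htc : t ≤ c := min_le_left _ _
    refine ⟨C1 * t⁻¹ ^ Mx / c, by positivity, fun n hn => ?_⟩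
    have h4 := hv (fun j => t * eps n j) (fun j => mul_pos ht0 (eps_pos n j)) t⁻¹
      (one_le_inv_iff₀.2 ⟨ht0, ht1⟩)
    have h5 : (fun j => t⁻¹ * (t * eps n j)) = eps n := by
      funext j; field_simp
    rw [h5] at h4
    have hm := ball_meas (R := R) fun j => t * eps n j
    have h6 : R.vol μ (fun j => t * eps n j) * c ≤ 1 / W.dim n := by
      rw [← (hW n hn).2.2.2.1, Roots.vol, ← smul_eq_mul, ← integral_indicator_const _ hm]
      refine integral_mono ((integrable_const _).indicator hm) (cont_int μ (hcont n hn))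
        fun u => ?_
      refine Set.indicator_apply_le' (fun hu => (hgen n hn u).2 fun j => ?_)
        fun _ => by positivity
      have h7 : R.ρ j u ^ 2 ≤ (t * eps n j) ^ 2 := pow_le_pow_left₀ (rho_nonneg j u) (hu j) 2
      calc (1 + n j : ℝ) * R.ρ j u ^ 2 ≤ (1 + n j) * (t * eps n j) ^ 2 := by gcongr
        _ = t ^ 2 := by rw [mul_pow, mul_left_comm, eps_mul, mul_one]
        _ ≤ c := by nlinarith
    refine h4.trans ?_
    calc C1 * t⁻¹ ^ Mx * R.vol μ (fun j => t * eps n j)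
        = C1 * t⁻¹ ^ Mx / c * (R.vol μ (fun j => t * eps n j) * c) := by field_simp
      _ ≤ _ := by gcongr
  refine ⟨max (b * C1 * a) (a / c1), Mx, fun n hn n' hn' => ?_, fun n hn n' hn' T hT hTn => ?_,
    fun n hn T hTn hT => ?_⟩
  · obtain ⟨a1, -, a3⟩ := hadd n hn n' hn'
    have h4 : 1 / (W.dim (n + n') : ℝ) ≤ 1 / W.dim n := by
      rw [← (hW n hn).2.2.2.1, ← (hW _ a1).2.2.2.1]
      refine integral_mono (cont_int μ (hcont _ a1)) (cont_int μ (hcont n hn)) fun u => ?_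
      simp only [a3, Pi.mul_apply, norm_mul]
      refine pow_le_pow_left₀ (by positivity) ?_ 2
      exact mul_le_of_le_one_right (norm_nonneg _) ((hW n' hn').2.1 u)
    have := (one_div_le_one_div (hdim _ a1) (hdim n hn)).1 h4
    exact_mod_cast this
  · have h4 : R.vol μ (eps n) ≤ R.vol μ fun j => T * eps n' j := by
      refine vol_mono μ fun j => ?_
      refine le_of_sq_le_sq ?_ (by have := eps_pos n' j; positivity)
      rw [mul_pow, eps_sq, eps_sq, ← div_eq_mul_inv, le_div_iff₀ (by positivity),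
        inv_mul_le_iff₀ (by positivity)]
      have h5 := hTn j
      have h6 : (0 : ℝ) ≤ 1 + n j := by positivity
      have h7 : T ≤ T ^ 2 := by nlinarith
      nlinarith
    have h5 := hv (eps n') (eps_pos n') T hT
    have h6 : 1 / (W.dim n : ℝ) ≤ b * C1 * a * T ^ Mx * (1 / W.dim n') := by
      calc 1 / (W.dim n : ℝ) ≤ b * R.vol μ (eps n) := hup n hn
        _ ≤ b * (C1 * T ^ Mx * R.vol μ (eps n')) := by gcongr; exact h4.trans h5
        _ ≤ b * (C1 * T ^ Mx * (a * (1 / W.dim n'))) := by gcongr; exact hlo n' hn'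
        _ = _ := by ring
    have h7 := hdim n hn
    have h8 := hdim n' hn'
    rw [mul_one_div, div_le_div_iff₀ h7 h8, one_mul] at h6
    refine h6.trans ?_
    gcongr
    exact le_max_left _ _
  · have hT0 : 0 < T := by linarith
    have h4 := hlow (eps n) (Real.sqrt T)⁻¹ (by positivity)
      (inv_le_one_of_one_le₀ (Real.one_le_sqrt.2 hT)) fun j =>
        ⟨inv_anti₀ (by positivity) (Real.sqrt_le_sqrt (hTn j)),
          inv_le_one_of_one_le₀ (Real.one_le_sqrt.2 (by linarith [Nat.cast_nonneg (α := ℝ) (n j)]))⟩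
    rw [pow_mul, inv_pow, Real.sq_sqrt hT0.le, inv_pow] at h4
    simp only [eps_sq, Finset.prod_inv_distrib] at h4
    have h5 := h4.trans (hlo n hn)
    have h7 := hdim n hn
    have h8 : 0 < ∏ j, (1 + n j : ℝ) := Finset.prod_pos fun j _ => by positivity
    have h9 : (W.dim n : ℝ) ≤ a / c1 * T ^ (R.m - r) * ∏ j, (1 + n j : ℝ) := by
      have h10 : 0 < T ^ (R.m - r) := by positivity
      rw [mul_one_div, le_div_iff₀ h7] at h5
      calc (W.dim n : ℝ) = (c1 * (T ^ (R.m - r))⁻¹ * (∏ j, (1 + n j : ℝ))⁻¹ * W.dim n) / c1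
            * T ^ (R.m - r) * ∏ j, (1 + n j : ℝ) := by field_simp
        _ ≤ _ := by gcongr
    refine h9.trans ?_
    gcongr
    exact le_max_right _ _

end Pool.Agent.MP_ba99b7_an

end MrgPart4

-- marker of a merged file
example : 731051 + 507129 = 731051 + 507129 := rfl
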