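import Mathlib.Algebra.Order.Star.Real
import Mathlib.Analysis.Calculus.Deriv.Mul
import Mathlib.Analysis.Calculus.Deriv.Add
import Mathlib.Analysis.CStarAlgebra.Classes
import Mathlib.Analysis.Matrix.PosDef

/-! PROJECT STRI, module MAT: principal minors of unitary matrices. -/

set_option linter.unusedSectionVars false

namespace Pool.Agent.MP_ba99b7_an.Mat

open Matrix Finset
open scoped ComplexOrder

variable {n : Type} [Fintype n] [DecidableEq n]

theorem det_deriv {M : ℝ → Matrix n n ℂ} {M' : Matrix n n ℂ} {x : ℝ}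
    (h : ∀ a b, HasDerivAt (fun t => M t a b) (M' a b) x) :
    HasDerivAt (fun t => (M t).det) (∑ b, ((M x).updateCol b fun a => M' a b).det) x := by
  simp only [det_apply']
  rw [sum_comm]
  refine HasDerivAt.fun_sum fun σ _ => ?_
  rw [← mul_sum]
  refine HasDerivAt.const_mul _ ?_
  have h1 := HasDerivAt.fun_finsetProd (u := univ) (f := fun i t => M t (σ i) i)
    (f' := fun i => M' (σ i) i) fun i _ => h (σ i) i
  refine h1.congr_deriv (sum_congr rfl fun b _ => ?_)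
  rw [← mul_prod_erase univ _ (mem_univ b), updateCol_self, smul_eq_mul, mul_comm]
  congr 1
  exact prod_congr rfl fun i hi => (updateCol_ne (ne_of_mem_erase hi)).symm

theorem norm_prod_sub {ι : Type} (s : Finset ι) (a b : ι → ℂ) (ha : ∀ i, ‖a i‖ ≤ 1)
    (hb : ∀ i, ‖b i‖ ≤ 1) : ‖∏ i ∈ s, a i - ∏ i ∈ s, b i‖ ≤ ∑ i ∈ s, ‖a i - b i‖ := by
  classical
  induction s using Finset.induction_on with
  | empty => simp
  | insert i s hi ih =>
    rw [prod_insert hi, prod_insert hi, sum_insert hi]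
    have h1 : ‖∏ j ∈ s, b j‖ ≤ 1 := by
      rw [norm_prod]; exact prod_le_one (fun _ _ => norm_nonneg _) fun j _ => hb j
    calc _ = ‖(a i - b i) * ∏ j ∈ s, b j + a i * (∏ j ∈ s, a j - ∏ j ∈ s, b j)‖ := by
          congr 1; ring
      _ ≤ ‖a i - b i‖ * ‖∏ j ∈ s, b j‖ + ‖a i‖ * ‖∏ j ∈ s, a j - ∏ j ∈ s, b j‖ := by
          rw [← norm_mul, ← norm_mul]; exact norm_add_le _ _
      _ ≤ ‖a i - b i‖ * 1 + 1 * ∑ j ∈ s, ‖a j - b j‖ := by gcongr; exact ha i
      _ = _ := by ring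

theorem det_lip (E : Matrix n n ℂ) {δ : ℝ} (h1 : ∀ a b, ‖E a b‖ ≤ 1)
    (h2 : ∀ a b, ‖(1 : Matrix n n ℂ) a b - E a b‖ ≤ δ) :
    ‖1 - E.det‖ ≤ (Fintype.card (Equiv.Perm n) * Fintype.card n : ℝ) * δ := by
  have e : (1 : ℂ) = (1 : Matrix n n ℂ).det := det_one.symm
  rw [e, det_apply', det_apply', ← sum_sub_distrib]
  refine (norm_sum_le _ _).trans ?_
  calc _ ≤ ∑ _σ : Equiv.Perm n, ∑ _i : n, δ := sum_le_sum fun σ _ => by
        rw [← mul_sub, norm_mul]
        have e1 : ‖(((Equiv.Perm.sign σ : ℤˣ) : ℤ) : ℂ)‖ = 1 := by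
          rcases Int.units_eq_one_or (Equiv.Perm.sign σ) with h | h <;> simp [h]
        rw [e1, one_mul]
        refine (norm_prod_sub _ _ _ (fun i => ?_) fun i => h1 _ _).trans
          (sum_le_sum fun i _ => h2 _ _)
        rw [one_apply]; split_ifs <;> simp
    _ = _ := by simp [mul_assoc]

theorem one_sub_sum_le {ι : Type} (s : Finset ι) (a : ι → ℝ) (h0 : ∀ i, 0 ≤ a i)
    (h1 : ∀ i, a i ≤ 1) : 1 - ∑ i ∈ s, (1 - a i) ≤ ∏ i ∈ s, a i := by
  classical
  induction s using Finset.induction_on with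
  | empty => simp
  | insert i s hi ih =>
    rw [prod_insert hi, sum_insert hi]
    have h2 : 0 ≤ ∑ j ∈ s, (1 - a j) := sum_nonneg fun j _ => sub_nonneg.2 (h1 j)
    nlinarith [mul_le_mul_of_nonneg_left ih (h0 i), mul_nonneg (sub_nonneg.2 (h1 i)) h2]

theorem det_bounds (E : Matrix n n ℂ) (h : (1 - Eᴴ * E).PosSemidef) :
    1 - ∑ k, (1 - ∑ b, ‖E b k‖ ^ 2) ≤ ‖E.det‖ ^ 2 ∧
      ‖E.det‖ ^ 2 ≤ Real.exp (-∑ k, (1 - ∑ b, ‖E b k‖ ^ 2)) := by
  have hB := posSemidef_conjTranspose_mul_self E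
  set s := hB.isHermitian.eigenvalues with hs
  have h0 : ∀ i, 0 ≤ s i := hB.eigenvalues_nonneg
  have h1 : ∀ i, s i ≤ 1 := fun i => by
    have e1 := h.re_dotProduct_nonneg (hB.isHermitian.eigenvectorBasis i).ofLp
    rw [sub_mulVec, one_mulVec, dotProduct_sub, map_sub, ← hB.isHermitian.eigenvalues_eq,
      dotProduct_comm, ← EuclideanSpace.inner_eq_star_dotProduct, inner_self_eq_norm_sq,
      hB.isHermitian.eigenvectorBasis.orthonormal.1 i] at e1
    linarith
  have e2 : ‖E.det‖ ^ 2 = ∏ i, s i := by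
    have := hB.isHermitian.det_eq_prod_eigenvalues
    rw [det_mul, det_conjTranspose, Complex.star_def, Complex.conj_mul'] at this
    apply Complex.ofReal_injective
    push_cast
    exact this
  have e3 : ∑ k, ∑ b, ‖E b k‖ ^ 2 = ∑ i, s i := by
    have := hB.isHermitian.trace_eq_sum_eigenvalues
    simp only [trace, Matrix.diag, mul_apply, conjTranspose_apply, Complex.star_def,
      Complex.conj_mul'] at this
    apply Complex.ofReal_injective
    push_cast
    exact this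
  have e4 : ∑ k, (1 - ∑ b, ‖E b k‖ ^ 2) = ∑ i, (1 - s i) := by
    rw [sum_sub_distrib, sum_sub_distrib, e3]
  rw [e2, e4]
  refine ⟨one_sub_sum_le _ _ h0 h1, ?_⟩
  rw [← sum_neg_distrib, Real.exp_sum]
  exact prod_le_prod (fun i _ => h0 i) fun i _ => by linarith [Real.add_one_le_exp (-(1 - s i))]

variable (p : n → Prop) [DecidablePred p]

/-- The principal submatrix. -/
def sb (A : Matrix n n ℂ) : Matrix (Subtype p) (Subtype p) ℂ :=
  A.submatrix Subtype.val Subtype.val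

/-- The derivative of the principal minor. -/
noncomputable def LL (A Z : Matrix n n ℂ) : ℂ :=
  ∑ b : Subtype p, ((sb p A).updateCol b fun a => (A * Z) a b).det

theorem LL_add (A Z Z' : Matrix n n ℂ) (c : ℂ) :
    LL p A (Z + c • Z') = LL p A Z + c * LL p A Z' := by
  unfold LL
  rw [mul_sum, ← sum_add_distrib]
  refine sum_congr rfl fun b _ => ?_
  rw [← det_updateCol_smul, ← det_updateCol_add]
  congr 2
  ext a
  simp [Matrix.mul_add]

theorem LL_block (A Z : Matrix n n ℂ) (h : ∀ k l, ¬ p k → p l → Z k l = 0) :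
    LL p A Z = (∑ b : Subtype p, Z b b) * (sb p A).det := by
  unfold LL
  rw [sum_mul]
  refine sum_congr rfl fun b _ => ?_
  rw [← smul_eq_mul (Z b b), ← det_updateCol_sum (sb p A) b fun k => Z k b]
  congr 2
  ext a
  rw [mul_apply, ← Fintype.sum_subtype_add_sum_subtype p]
  simp [sb, mul_comm, fun k : {x // ¬ p x} => h k b k.2 b.2]

theorem trace_comm (P Q : Matrix n n ℂ) (hP : ∀ k l, ¬ p k → p l → P k l = 0)
    (hQ : ∀ k l, ¬ p k → p l → Q k l = 0) :
    ∑ b : Subtype p, (P * Q - Q * P) b b = 0 := by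
  have e : ∀ P Q : Matrix n n ℂ, (∀ k l, ¬ p k → p l → Q k l = 0) →
      ∀ b : Subtype p, (P * Q) b b = ∑ k : Subtype p, P b k * Q k b := fun P Q h b => by
    rw [mul_apply, ← Fintype.sum_subtype_add_sum_subtype p]
    simp [fun k : {x // ¬ p x} => h k b k.2 b.2]
  simp only [Matrix.sub_apply, e P Q hQ, e Q P hP, sum_sub_distrib]
  rw [sum_comm, sub_eq_zero]
  exact sum_congr rfl fun _ _ => sum_congr rfl fun _ _ => mul_comm _ _

theorem conj_diag (A : Matrix n n ℂ) (d : n → ℂ) (b : n) :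
    (A * diagonal d * Aᴴ) b b = ∑ k, d k * ((‖A b k‖ ^ 2 : ℝ) : ℂ) := by
  rw [mul_apply]
  refine sum_congr rfl fun k _ => ?_
  rw [mul_diagonal, conjTranspose_apply, Complex.star_def, mul_right_comm, Complex.mul_conj',
    mul_comm]
  push_cast; rfl

theorem col_sum {A : Matrix n n ℂ} (h : Aᴴ * A = 1) (k : n) : ∑ b, ‖A b k‖ ^ 2 = 1 := by
  have := congrFun (congrFun h k) k
  simp only [mul_apply, conjTranspose_apply, Complex.star_def, Complex.conj_mul',
    one_apply_eq] at this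
  exact_mod_cast this

theorem row_sum {A : Matrix n n ℂ} (h : Aᴴ * A = 1) (b : n) : ∑ k, ‖A b k‖ ^ 2 = 1 := by
  have h' : A * Aᴴ = 1 := mul_eq_one_comm.1 h
  have := congrFun (congrFun h' b) b
  simp only [mul_apply, conjTranspose_apply, Complex.star_def, Complex.mul_conj',
    one_apply_eq] at this
  exact_mod_cast this

theorem entry_le {A : Matrix n n ℂ} (h : Aᴴ * A = 1) (b k : n) : ‖A b k‖ ≤ 1 := by
  have := single_le_sum (f := fun k => ‖A b k‖ ^ 2) (fun _ _ => sq_nonneg _) (mem_univ k)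
  rw [row_sum h] at this
  exact (sq_le_one_iff₀ (norm_nonneg _)).1 this

theorem sb_psd {A : Matrix n n ℂ} (h : Aᴴ * A = 1) : (1 - (sb p A)ᴴ * sb p A).PosSemidef := by
  have e : 1 - (sb p A)ᴴ * sb p A =
      (A.submatrix (Subtype.val : {x // ¬ p x} → n) (Subtype.val : Subtype p → n))ᴴ *
        A.submatrix (Subtype.val : {x // ¬ p x} → n) (Subtype.val : Subtype p → n) := by
    ext a b
    have := congrFun (congrFun h a) b
    rw [mul_apply, ← Fintype.sum_subtype_add_sum_subtype p] at this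
    have e1 : (1 : Matrix (Subtype p) (Subtype p) ℂ) a b = (1 : Matrix n n ℂ) a b := by
      simp [one_apply, Subtype.ext_iff]
    rw [Matrix.sub_apply, e1, ← this, mul_apply, mul_apply]
    simp [sb]
  rw [e]
  exact posSemidef_conjTranspose_mul_self _

/-- The Gaussian bounds for the principal minor of a unitary matrix. -/
theorem minor_bounds (t : n → ℝ) : ∃ c C : ℝ, 0 < c ∧ 0 ≤ C ∧ ∀ A : Matrix n n ℂ, Aᴴ * A = 1 →
    ∀ y : ℝ, y = ∑ k : {k // 0 < t k}, t k - ∑ b : {k // 0 < t k}, ∑ k, t k * ‖A b k‖ ^ 2 →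
      1 - C * y ≤ ‖(sb (fun k => 0 < t k) A).det‖ ^ 2 ∧
        ‖(sb (fun k => 0 < t k) A).det‖ ^ 2 ≤ Real.exp (-(c * y)) := by
  set M : ℝ := ∑ k, |t k| + 1 with hM
  have hM0 : 0 < M := by positivity
  have hM1 : ∀ k, |t k| ≤ M := fun k =>
    (single_le_sum (f := fun k => |t k|) (fun _ _ => abs_nonneg _) (mem_univ k)).trans
      (by linarith)
  set C : ℝ := ∑ k : {k // 0 < t k}, (t k)⁻¹ with hC
  have hC0 : 0 ≤ C := sum_nonneg fun k _ => (inv_pos.2 k.2).le
  have hC1 : ∀ k : {k // 0 < t k}, 1 ≤ C * t k := fun k => by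
    have := single_le_sum (f := fun k : {k // 0 < t k} => (t k)⁻¹)
      (fun k _ => (inv_pos.2 k.2).le) (mem_univ k)
    calc (1 : ℝ) = (t k)⁻¹ * t k := (inv_mul_cancel₀ k.2.ne').symm
      _ ≤ _ := mul_le_mul_of_nonneg_right this k.2.le
  refine ⟨(2 * M)⁻¹, C, by positivity, hC0, fun A hA y hy => ?_⟩
  obtain ⟨b1, b2⟩ := det_bounds _ (sb_psd (fun k => 0 < t k) hA)
  set Q : n → ℝ := fun k => ∑ b : {k // 0 < t k}, ‖A b k‖ ^ 2 with hQ
  have q0 : ∀ k, 0 ≤ Q k := fun k => sum_nonneg fun _ _ => sq_nonneg _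
  have q1 : ∀ k, Q k ≤ 1 := fun k => by
    have := col_sum hA k
    rw [← Fintype.sum_subtype_add_sum_subtype (fun k => 0 < t k)] at this
    have h2 : 0 ≤ ∑ b : {k // ¬ 0 < t k}, ‖A b k‖ ^ 2 := sum_nonneg fun _ _ => sq_nonneg _
    simp only [hQ]; linarith
  set D : ℝ := ∑ k : {k // 0 < t k}, (1 - Q k) with hD
  change 1 - D ≤ _ at b1
  change _ ≤ Real.exp (-D) at b2
  have d1 : ∑ k : {k // ¬ 0 < t k}, Q k = D := by
    have e1 : ∑ k, Q k = ∑ _b : {k // 0 < t k}, (1 : ℝ) := by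
      simp only [hQ]; rw [sum_comm]; exact sum_congr rfl fun b _ => row_sum hA b
    rw [← Fintype.sum_subtype_add_sum_subtype (fun k => 0 < t k)] at e1
    rw [hD, sum_sub_distrib]; linarith
  have d2 : y = ∑ k : {k // 0 < t k}, t k * (1 - Q k) + ∑ k : {k // ¬ 0 < t k}, -t k * Q k := by
    rw [hy, sum_comm]
    simp only [← mul_sum]
    rw [← Fintype.sum_subtype_add_sum_subtype (fun k => 0 < t k)]
    simp only [mul_sub, mul_one, sum_sub_distrib, neg_mul, sum_neg_distrib, hQ]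
    ring
  have d3 : 0 ≤ ∑ k : {k // ¬ 0 < t k}, -t k * Q k :=
    sum_nonneg fun k _ => mul_nonneg (neg_nonneg.2 (not_lt.1 k.2)) (q0 k)
  have d4 : D ≤ C * y := by
    calc D ≤ ∑ k : {k // 0 < t k}, C * (t k * (1 - Q k)) := sum_le_sum fun k _ => by
          nlinarith [mul_le_mul_of_nonneg_right (hC1 k) (sub_nonneg.2 (q1 k))]
      _ = C * ∑ k : {k // 0 < t k}, t k * (1 - Q k) := by rw [mul_sum]
      _ ≤ C * y := by gcongr; linarith
  have d5 : y ≤ 2 * M * D := by
    have e1 : ∑ k : {k // 0 < t k}, t k * (1 - Q k) ≤ M * D := by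
      rw [hD, mul_sum]
      exact sum_le_sum fun k _ =>
        mul_le_mul_of_nonneg_right ((le_abs_self _).trans (hM1 k)) (sub_nonneg.2 (q1 k))
    have e2 : ∑ k : {k // ¬ 0 < t k}, -t k * Q k ≤ M * D := by
      rw [← d1, mul_sum]
      exact sum_le_sum fun k _ => mul_le_mul_of_nonneg_right ((neg_le_abs _).trans (hM1 k)) (q0 k)
    linarith
  refine ⟨by linarith, b2.trans (Real.exp_le_exp.2 (neg_le_neg ?_))⟩
  rw [inv_mul_le_iff₀ (by positivity)]
  exact d5

end Pool.Agent.MP_ba99b7_an.Mat
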