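import Pool.Agent.MP_ba99b7_an.Base
import Pool.Agent.MP_ba99b7_an.MatA

/-! PROJECT STRI, module MAT: principal minors of `Ad` as highest weight functions. -/

set_option linter.unusedSectionVars false

namespace Pool.Agent.MP_ba99b7_an

open scoped ComplexConjugate RealInnerProductSpace Topology
open Matrix Finset Complex

namespace Mat

abbrev Ix (m r q : ℕ) : Type := (Fin m ⊕ Fin m) ⊕ (Fin r ⊕ Fin q)

/-- `1 / √2`. -/
noncomputable def s2 : ℂ := ((√2)⁻¹ : ℝ)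

theorem s2_sq : s2 * s2 = 1 / 2 := by
  unfold s2
  rw [← ofReal_mul, ← mul_inv, Real.mul_self_sqrt (by norm_num)]
  norm_num

theorem conj_s2 : conj s2 = s2 := conj_ofReal _

/-- The change of basis. -/
noncomputable def Cm (m r q : ℕ) : Matrix (Ix m r q) (Ix m r q) ℂ :=
  fromBlocks (fromBlocks (s2 • 1) (s2 • 1) ((I * s2) • 1) ((-(I * s2)) • 1)) 0 0 1

theorem Cm_mul (m r q : ℕ) : Cm m r q * (Cm m r q)ᴴ = 1 := by
  have h1 : s2 * s2 + s2 * s2 = 1 := by rw [s2_sq]; norm_num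
  have h2 : -I * s2 * s2 + -(-I * s2) * s2 = 0 := by ring
  have h3 : s2 * (I * s2) + s2 * -(I * s2) = 0 := by ring
  have h4 : -I * s2 * (I * s2) + -(-I * s2) * -(I * s2) = 1 := by
    linear_combination (-2 * (s2 * s2)) * I_mul_I + h1
  unfold Cm
  simp only [fromBlocks_conjTranspose, fromBlocks_multiply, conjTranspose_smul, conjTranspose_one,
    conjTranspose_zero, Matrix.mul_zero, Matrix.zero_mul, add_zero, zero_add, Matrix.mul_one,
    Matrix.mul_smul, smul_smul, star_def, map_mul, map_neg, conj_I, conj_s2,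
    ← add_smul, h1, h2, h3, h4, one_smul, zero_smul, fromBlocks_one]

theorem mul_Cm (m r q : ℕ) : (Cm m r q)ᴴ * Cm m r q = 1 := mul_eq_one_comm.1 (Cm_mul m r q)

theorem Cm_entry {m r q : ℕ} (M : Matrix (Ix m r q) (Ix m r q) ℂ) (a b : Fin m) :
    ((Cm m r q)ᴴ * M * Cm m r q) (.inl (.inl a)) (.inl (.inl b)) =
      1 / 2 * (M (.inl (.inl a)) (.inl (.inl b)) + M (.inl (.inr a)) (.inl (.inr b)) +
        I * (M (.inl (.inl a)) (.inl (.inr b)) - M (.inl (.inr a)) (.inl (.inl b)))) := by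
  simp [mul_apply, Fintype.sum_sum_type, Cm, one_apply, apply_ite, conj_s2]
  linear_combination (-(s2 * s2 * M (.inl (.inr a)) (.inl (.inr b)))) * I_mul_I +
    (M (.inl (.inl a)) (.inl (.inl b)) + M (.inl (.inr a)) (.inl (.inr b)) +
      I * (M (.inl (.inl a)) (.inl (.inr b)) - M (.inl (.inr a)) (.inl (.inl b)))) * s2_sq

variable {V : Type} [NormedAddCommGroup V] [InnerProductSpace ℝ V] [FiniteDimensional ℝ V]
  {G : Type} [Group G] [TopologicalSpace G] [MeasurableSpace G] [TG G]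
  {S : Sym V G} {r : ℕ} (R : Adapt S r)

/-- The matrix of an operator in the adapted basis. -/
noncomputable def Mx (A : V →L[ℝ] V) : Matrix (Ix R.m r R.q) (Ix R.m r R.q) ℂ :=
  Matrix.of fun a b => ((⟪R.B a, A (R.B b)⟫ : ℝ) : ℂ)

/-- The matrix of an operator in the weight basis. -/
noncomputable def U (A : V →L[ℝ] V) : Matrix (Ix R.m r R.q) (Ix R.m r R.q) ℂ :=
  (Cm R.m r R.q)ᴴ * Mx R A * Cm R.m r R.q

theorem orth (a b : Ix R.m r R.q) : ⟪R.B a, R.B b⟫ = if a = b then 1 else 0 :=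
  orthonormal_iff_ite.1 R.B.orthonormal a b

theorem BY (i : Fin R.m) : R.B (.inl (.inl i)) = R.Y i := by rw [R.hB]; rfl
theorem Bη (i : Fin R.m) : R.B (.inl (.inr i)) = R.η i := by rw [R.hB]; rfl
theorem BH (i : Fin r) : R.B (.inr (.inl i)) = R.H i := by rw [R.hB]; rfl
theorem BM (i : Fin R.q) : R.B (.inr (.inr i)) = R.M i := by rw [R.hB]; rfl

theorem Mx_mul (A A' : V →L[ℝ] V) : Mx R (A * A') = Mx R A * Mx R A' := by
  ext a b
  simp only [Mx, mul_apply, of_apply, mul_apply_eq_comp]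
  conv_lhs => rw [← R.B.sum_repr' (A' (R.B b))]
  rw [map_sum, inner_sum, ofReal_sum]
  refine sum_congr rfl fun k _ => ?_
  rw [map_smul, real_inner_smul_right, ofReal_mul, mul_comm]

theorem U_mul (A A' : V →L[ℝ] V) : U R (A * A') = U R A * U R A' := by
  unfold U
  rw [Mx_mul]
  simp only [Matrix.mul_assoc]
  rw [← Matrix.mul_assoc (Cm _ _ _), Cm_mul, Matrix.one_mul]

theorem U_one : U R 1 = 1 := by
  have : Mx R 1 = 1 := by
    ext a b
    simp [Mx, orth, one_apply, apply_ite]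
  rw [U, this, Matrix.mul_one, mul_Cm]

theorem U_sub (A A' : V →L[ℝ] V) : U R (A - A') = U R A - U R A' := by
  have : Mx R (A - A') = Mx R A - Mx R A' := by
    ext a b
    simp [Mx, inner_sub_right]
  rw [U, this, Matrix.mul_sub, Matrix.sub_mul]; rfl

theorem U_smul (c : ℝ) (A : V →L[ℝ] V) : U R (c • A) = (c : ℂ) • U R A := by
  have : Mx R (c • A) = (c : ℂ) • Mx R A := by
    ext a b
    simp [Mx, real_inner_smul_right]
  rw [U, this, Matrix.mul_smul, Matrix.smul_mul]; rfl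

theorem U_zero : U R 0 = 0 := by simpa using U_smul R 0 0

theorem U_inv (u : G) : U R (S.Ad u⁻¹) = (U R (S.Ad u))ᴴ := by
  have : Mx R (S.Ad u⁻¹) = (Mx R (S.Ad u))ᴴ := by
    ext a b
    simp only [Mx, of_apply, conjTranspose_apply, star_def, conj_ofReal]
    rw [← S.Ad_adj, real_inner_comm]
  rw [U, this, U, conjTranspose_mul, conjTranspose_mul, conjTranspose_conjTranspose,
    Matrix.mul_assoc]

theorem U_unit (u : G) : (U R (S.Ad u))ᴴ * U R (S.Ad u) = 1 := by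
  rw [← U_inv, ← U_mul, ← map_mul, inv_mul_cancel, map_one, U_one]

theorem U_apply (A : V →L[ℝ] V) (k l : Ix R.m r R.q) : U R A k l =
    ∑ b, ∑ a, (conj (Cm R.m r R.q a k) * Cm R.m r R.q b l) * ((⟪R.B a, A (R.B b)⟫ : ℝ) : ℂ) := by
  simp only [U, mul_apply, sum_mul, conjTranspose_apply, star_def, Mx, of_apply]
  exact sum_congr rfl fun _ _ => sum_congr rfl fun _ _ => by ring

theorem U_entry (A : V →L[ℝ] V) (a b : Fin R.m) : U R A (.inl (.inl a)) (.inl (.inl b)) =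
    1 / 2 * ((⟪R.Y a, A (R.Y b)⟫ : ℝ) + (⟪R.η a, A (R.η b)⟫ : ℝ) +
      I * ((⟪R.Y a, A (R.η b)⟫ : ℝ) - (⟪R.η a, A (R.Y b)⟫ : ℝ))) := by
  rw [U, Cm_entry]
  simp only [Mx, of_apply, BY, Bη]

/-- The weights. -/
noncomputable def tt (X : V) : Ix R.m r R.q → ℝ :=
  Sum.elim (Sum.elim (fun i => ⟪R.al i, X⟫) fun i => -⟪R.al i, X⟫) fun _ => 0

theorem U_diag {X : V} (hX : X ∈ R.a) : U R (S.ad X) = diagonal fun k => I * tt R X k := by
  have h1 : ∀ i, S.ad X (R.B (.inl (.inl i))) = -(⟪R.al i, X⟫ • R.B (.inl (.inr i))) :=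
    fun i => by rw [BY, Bη, R.adY X hX]
  have h2 : ∀ i, S.ad X (R.B (.inl (.inr i))) = ⟪R.al i, X⟫ • R.B (.inl (.inl i)) :=
    fun i => by rw [BY, Bη, R.adη X hX]
  have h3 : ∀ k, S.ad X (R.B (.inr k)) = 0 := fun k => by
    rcases k with k | k
    · rw [BH, R.adH X hX _ (R.H_mem k)]
    · rw [BM, R.adM X hX]
  have h : Mx R (S.ad X) * Cm R.m r R.q = Cm R.m r R.q * diagonal fun k => I * tt R X k := by
    ext a k
    rw [mul_diagonal, mul_apply, Fintype.sum_sum_type, Fintype.sum_sum_type]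
    simp only [Mx, of_apply, h1, h2, h3, inner_neg_right, real_inner_smul_right, orth]
    rcases k with (k | k) | k <;> rcases a with (a | a) | a <;>
      simp [Cm, tt, one_apply, apply_ite]
    all_goals
      split_ifs with h
      · first | ring1 | linear_combination (-((⟪R.al k, X⟫ : ℝ) * s2)) * I_mul_I
      · exact fun h' => absurd h' h
  rw [U, Matrix.mul_assoc, h, ← Matrix.mul_assoc, mul_Cm, Matrix.one_mul]

theorem U_add (A A' : V →L[ℝ] V) : U R (A + A') = U R A + U R A' := by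
  have := U_sub R (A + A') A'
  rw [add_sub_cancel_right] at this
  rw [this, sub_add_cancel]

theorem U_deriv {A : ℝ → V →L[ℝ] V} {A' : V →L[ℝ] V} {x : ℝ} (h : HasDerivAt A A' x)
    (k l : Ix R.m r R.q) : HasDerivAt (fun t => U R (A t) k l) (U R A' k l) x := by
  simp only [U_apply]
  refine HasDerivAt.fun_sum fun b _ => HasDerivAt.fun_sum fun a _ => HasDerivAt.const_mul _ ?_
  refine HasDerivAt.ofReal_comp ?_
  have h1 := h.clm_apply (hasDerivAt_const x (R.B b))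
  simpa using (hasDerivAt_const x (R.B a)).inner ℝ h1

section
variable (p : Ix R.m r R.q → Prop) [DecidablePred p]

/-- The principal minor. -/
noncomputable def gm (u : G) : ℂ := (sb p (U R (S.Ad u))).det

theorem D_gm (X : V) (u : G) :
    S.D X (gm R p) u = LL p (U R (S.Ad u)) (U R (S.ad X)) := by
  apply Sym.D_of_hasDerivAt
  have h0 : HasDerivAt (fun t : ℝ => S.Ad (u * S.ex (t • X))) (S.Ad u * S.ad X) 0 := by
    simpa [S.ex_zero] using (S.hasDerivAt_Ad_ex X 0).const_mul (S.Ad u)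
  have := det_deriv (M := fun t : ℝ => sb p (U R (S.Ad (u * S.ex (t • X)))))
    (M' := sb p (U R (S.Ad u * S.ad X))) fun a b => U_deriv R h0 a b
  simp only [zero_smul, S.ex_zero, mul_one, U_mul] at this
  exact this

theorem isRep_gm : IsRep (gm R p) := by
  have h : ∀ k l, IsRep fun u => U R (S.Ad u) k l := fun k l => by
    have : (fun u => U R (S.Ad u) k l) = ∑ b, ∑ a, (conj (Cm R.m r R.q a k) * Cm R.m r R.q b l) •
        fun u => ((⟪R.B a, S.Ad u (R.B b)⟫ : ℝ) : ℂ) := by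
      ext u; simp [U_apply]
    rw [this]
    exact IsRep.sum fun b _ => IsRep.sum fun a _ => (S.isRep_Ad _ _).smul _
  have : gm R p = ∑ σ : Equiv.Perm (Subtype p), (((Equiv.Perm.sign σ : ℤˣ) : ℤ) : ℂ) •
      ∏ i : Subtype p, fun u => U R (S.Ad u) (σ i) i := by
    ext u; simp [gm, det_apply', sb]
  rw [this]
  exact IsRep.sum fun σ _ => (IsRep.prod fun i _ => h _ _).smul _

theorem gm_inv (u : G) : gm R p u⁻¹ = conj (gm R p u) := by
  rw [gm, U_inv, gm, ← star_def, ← det_conjTranspose]; rfl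

theorem gm_one : gm R p 1 = 1 := by
  rw [gm, map_one, U_one, sb, submatrix_one _ Subtype.val_injective, det_one]

end

theorem U_br (X Z : V) :
    U R (S.ad (S.ad X Z)) = U R (S.ad X) * U R (S.ad Z) - U R (S.ad Z) * U R (S.ad X) := by
  rw [S.jacobi, U_sub, U_mul, U_mul]

theorem block {X : V} (hX : X ∈ R.a) {Z : Matrix (Ix R.m r R.q) (Ix R.m r R.q) ℂ} {c : ℝ}
    (hc : 0 ≤ c) (h : U R (S.ad X) * Z - Z * U R (S.ad X) = (I * c) • Z) (k l : Ix R.m r R.q)
    (hk : ¬ 0 < tt R X k) (hl : 0 < tt R X l) : Z k l = 0 := by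
  have e := congrFun (congrFun h k) l
  rw [U_diag R hX, Matrix.sub_apply, diagonal_mul, mul_diagonal, Matrix.smul_apply,
    smul_eq_mul] at e
  have e2 : ((tt R X k - tt R X l - c : ℝ) : ℂ) ≠ 0 := ofReal_ne_zero.2 (by linarith)
  refine (mul_eq_zero.1 (?_ : _ * Z k l = 0)).resolve_left (mul_ne_zero I_ne_zero e2)
  push_cast
  linear_combination e

theorem block0 {X Z : V} (hX : X ∈ R.a) (h : S.ad X Z = 0) (k l : Ix R.m r R.q)
    (hk : ¬ 0 < tt R X k) (hl : 0 < tt R X l) : U R (S.ad Z) k l = 0 :=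
  block R hX le_rfl (by rw [← U_br, h, map_zero, U_zero]; simp) k l hk hl

theorem blockN {X : V} (hX : X ∈ R.a) (i : Fin R.m) (hc : 0 ≤ ⟪R.al i, X⟫) (k l : Ix R.m r R.q)
    (hk : ¬ 0 < tt R X k) (hl : 0 < tt R X l) :
    (U R (S.ad (R.Y i)) + I • U R (S.ad (R.η i))) k l = 0 := by
  refine block R hX hc ?_ k l hk hl
  have h1 := U_br R X (R.Y i)
  have h2 := U_br R X (R.η i)
  rw [R.adY X hX, ← neg_smul, map_smul, U_smul] at h1
  rw [R.adη X hX, map_smul, U_smul] at h2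
  rw [Matrix.mul_add, Matrix.add_mul, Matrix.mul_smul, Matrix.smul_mul, add_sub_add_comm,
    ← smul_sub, ← h1, ← h2, smul_add, smul_smul, smul_smul, add_comm]
  congr 2
  push_cast
  linear_combination (-((⟪R.al i, X⟫ : ℝ) : ℂ)) * I_mul_I

theorem U_dg (X : V) (i : Fin R.m) :
    U R (S.ad X) (.inl (.inl i)) (.inl (.inl i)) = I * (⟪R.al i, X⟫ : ℝ) := by
  have h0 : ∀ Z, ⟪Z, S.ad X Z⟫ = 0 := fun Z => by
    have := S.ad_skew X Z Z
    rw [real_inner_comm] at this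
    linarith
  have h1 : ⟪S.ad X (R.Y i), R.η i⟫ = -⟪R.al i, X⟫ := by
    rw [S.ad_assoc, R.Yη, inner_neg_right, real_inner_comm]
  have h2 : ⟪R.Y i, S.ad X (R.η i)⟫ = ⟪R.al i, X⟫ := by
    have := S.ad_skew X (R.Y i) (R.η i)
    linarith
  rw [U_entry, h0, h0, h2, real_inner_comm (S.ad X (R.Y i)), h1]
  push_cast
  ring

theorem a_perp {X : V} (hX : X ∈ R.a) (k : Ix R.m r R.q) (hk : ∀ l, .inr (.inl l) ≠ k) :
    ⟪X, R.B k⟫ = 0 := by
  rw [R.expand_a hX, sum_inner]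
  refine sum_eq_zero fun l _ => ?_
  rw [real_inner_smul_left, ← BH, orth, if_neg (hk l), mul_zero]

/-- The roots as vectors. -/
def bt : Ix R.m r R.q → V := Sum.elim (Sum.elim R.al 0) 0

/-- The sum of the roots that are positive on `X`. -/
noncomputable def r2 (X : V) : V := ∑ b : {k // 0 < tt R X k}, bt R b

theorem r2_mem (X : V) : r2 R X ∈ R.a := Submodule.sum_mem _ fun b _ => by
  rcases b with ⟨(i | i) | i, _⟩
  exacts [R.al_mem i, R.a.zero_mem, R.a.zero_mem]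

section
variable {X : V} (hX : X ∈ R.a) (h0 : ∀ i, 0 ≤ ⟪R.al i, X⟫)
include h0

theorem pos_cases (b : {k // 0 < tt R X k}) : ∃ i, b.1 = .inl (.inl i) ∧ 0 < ⟪R.al i, X⟫ := by
  rcases b with ⟨(i | i) | i, hb⟩
  · exact ⟨i, rfl, hb⟩
  · exact absurd hb (not_lt.2 (neg_nonpos.2 (h0 i)))
  · exact absurd hb (lt_irrefl _)

theorem sum_dg (Z : V) :
    ∑ b : {k // 0 < tt R X k}, U R (S.ad Z) b b = I * (⟪r2 R X, Z⟫ : ℝ) := by
  rw [r2, sum_inner, ofReal_sum, mul_sum]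
  refine sum_congr rfl fun b _ => ?_
  obtain ⟨i, hi, -⟩ := pos_cases R h0 b
  rw [hi, U_dg]; rfl

theorem sum_tt : ∑ b : {k // 0 < tt R X k}, tt R X b = ⟪r2 R X, X⟫ := by
  rw [r2, sum_inner]
  refine sum_congr rfl fun b _ => ?_
  obtain ⟨i, hi, -⟩ := pos_cases R h0 b
  rw [hi]; rfl

include hX

theorem D_comm {Z : V} (h : S.ad X Z = 0) :
    S.D Z (gm R fun k => 0 < tt R X k) = (I * (⟪r2 R X, Z⟫ : ℝ)) • gm R fun k => 0 < tt R X k := by
  ext u
  rw [D_gm, LL_block _ _ _ (block0 R hX h), sum_dg R h0]; rfl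

theorem D_raise (i : Fin R.m) : S.D (R.Y i) (gm R fun k => 0 < tt R X k)
    + I • S.D (R.η i) (gm R fun k => 0 < tt R X k) = 0 := by
  ext u
  rw [Pi.add_apply, Pi.smul_apply, D_gm, D_gm, smul_eq_mul, ← LL_add,
    LL_block _ _ _ (blockN R hX i (h0 i))]
  simp only [Matrix.add_apply, Matrix.smul_apply, smul_eq_mul, sum_add_distrib, ← mul_sum,
    sum_dg R h0]
  rw [← BY, ← Bη, a_perp R (r2_mem R X) _ (by simp), a_perp R (r2_mem R X) _ (by simp)]
  simp

theorem r2_perp (i : Fin R.m) (hi : ⟪R.al i, X⟫ = 0) : ⟪r2 R X, R.al i⟫ = 0 := by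
  have h1 := trace_comm (fun k => 0 < tt R X k) _ _
    (block0 R hX (Z := R.Y i) (by rw [R.adY X hX, hi, zero_smul, neg_zero]))
    (block0 R hX (Z := R.η i) (by rw [R.adη X hX, hi, zero_smul]))
  rw [← U_br, sum_dg R h0, R.Yη, inner_neg_right] at h1
  simpa using h1

theorem sum_conj (u : G) : ∑ b : {k // 0 < tt R X k}, ∑ k, tt R X k * ‖U R (S.Ad u) b k‖ ^ 2 =
    ⟪r2 R X, S.Ad u X⟫ := by
  have h1 : S.ad (S.Ad u X) = S.Ad u * S.ad X * S.Ad u⁻¹ := by
    ext Z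
    rw [mul_apply_eq_comp, mul_apply_eq_comp, S.Ad_ad, S.Ad_Ad_inv]
  have h2 := sum_dg R h0 (S.Ad u X)
  rw [h1, U_mul, U_mul, U_inv, U_diag R hX] at h2
  simp only [conj_diag, mul_assoc, ← mul_sum] at h2
  exact_mod_cast mul_left_cancel₀ I_ne_zero h2

end

theorem main (R : Roots S r) (j : Fin r) : ∃ (g : G → ℂ) (cj c C : ℝ), 0 < c ∧ 0 ≤ C ∧ 0 < cj ∧
    R.IsG (cj • R.w j) g ∧ ∀ u, 1 - C * R.ρ j u ^ 2 ≤ ‖g u‖ ^ 2 ∧
      ‖g u‖ ^ 2 ≤ Real.exp (-(c * R.ρ j u ^ 2)) ∧ ‖1 - g u‖ ≤ C * R.δ j u := by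
  have hX := R.w_mem j
  have h0 : ∀ i, 0 ≤ ⟪R.toAdapt.al i, R.w j⟫ := fun i => R.al_w_nonneg i j
  set cj : ℝ := 2 * ⟪r2 R.toAdapt (R.w j), R.al (R.sr j)⟫ / ‖R.al (R.sr j)‖ ^ 2 with hcj
  have e1 : r2 R.toAdapt (R.w j) = cj • R.w j := by
    rw [R.w_span _ (r2_mem _ _), sum_eq_single j]
    · intro l _ hl
      have := R.dual l j
      rw [if_neg hl, real_inner_comm] at this
      rw [r2_perp _ hX h0 _ (by linarith)]; simp
    · simp
  have e2 : 0 < cj := by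
    have h1 : 0 < tt R.toAdapt (R.w j) (.inl (.inl (R.sr j))) := by
      have := R.dual j j
      rw [if_pos rfl, real_inner_comm] at this
      have h2 := pow_pos (norm_pos_iff.2 (R.al_ne_zero (R.sr j))) 2
      change 0 < ⟪R.al (R.sr j), R.w j⟫
      linarith
    have h2 : 0 < ∑ b : {k // 0 < tt R.toAdapt (R.w j) k}, tt R.toAdapt (R.w j) b :=
      sum_pos (fun b _ => b.2) ⟨⟨_, h1⟩, mem_univ _⟩
    rw [sum_tt _ h0, e1, real_inner_smul_left] at h2
    exact lt_of_not_ge fun h => h2.not_ge (mul_nonpos_of_nonpos_of_nonneg h real_inner_self_nonneg)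
  obtain ⟨c, C, hc, hC, hb⟩ := minor_bounds (tt R.toAdapt (R.w j))
  set N : ℝ := Fintype.card (Equiv.Perm {k // 0 < tt R.toAdapt (R.w j) k}) *
    Fintype.card {k // 0 < tt R.toAdapt (R.w j) k} with hN
  have hN0 : 0 ≤ N := by positivity
  refine ⟨gm R.toAdapt fun k => 0 < tt R.toAdapt (R.w j) k, cj, c * (cj / 2),
    C * (cj / 2) + N * 2, by positivity, by positivity, e2,
    ⟨⟨isRep_gm _ _, D_raise _ hX h0, fun Z hZ => ?_⟩, fun l => ?_, gm_inv _ _, gm_one _ _⟩,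
    fun u => ?_⟩
  · rw [D_comm _ hX h0 (R.adH _ hX _ hZ), e1]
  · rw [D_comm _ hX h0 (R.adM _ hX l), ← BM, a_perp _ (r2_mem _ _) _ (by simp)]
    simp
  · obtain ⟨b1, b2⟩ := hb _ (U_unit R.toAdapt u) (cj / 2 * R.ρ j u ^ 2) (by
      rw [sum_tt _ h0, sum_conj _ hX h0, e1, real_inner_smul_left, real_inner_smul_left, Roots.ρ,
        norm_sub_sq_real, S.Ad_norm, real_inner_self_eq_norm_sq, real_inner_comm]
      ring)
    have hδ : 0 ≤ R.δ j u := norm_nonneg _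
    have b3 : ‖1 - gm R.toAdapt (fun k => 0 < tt R.toAdapt (R.w j) k) u‖ ≤ N * (2 * R.δ j u) := by
      refine det_lip _ (fun a b => entry_le (U_unit R.toAdapt u) _ _) fun a b => ?_
      have h1 : ∀ k l, R.B l ∈ R.c j → ‖((⟪R.B k, (S.Ad u - 1) (R.B l)⟫ : ℝ) : ℂ)‖ ≤ R.δ j u :=
        fun k l hl => by
          rw [norm_real]
          refine (norm_inner_le_norm _ _).trans ?_
          rw [R.B.orthonormal.1, one_mul, ← R.π_of_mem hl, ← mul_apply_eq_comp]
          refine (ContinuousLinearMap.le_opNorm _ _).trans ?_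
          rw [R.B.orthonormal.1, mul_one]; rfl
      have h2 : (1 : Matrix _ _ ℂ) a b - sb (fun k => 0 < tt R.toAdapt (R.w j) k)
          (U R.toAdapt (S.Ad u)) a b = -U R.toAdapt (S.Ad u - 1) a b := by
        simp [U_sub, U_one, sb, one_apply, Subtype.ext_iff]
      obtain ⟨i, hi, -⟩ := pos_cases _ h0 a
      obtain ⟨i', hi', hp⟩ := pos_cases _ h0 b
      obtain ⟨m1, m2⟩ := R.pair_c i' j hp.ne'
      rw [← BY] at m1
      rw [← Bη] at m2
      rw [h2, norm_neg, hi, hi', U_entry, ← BY, ← BY, ← Bη, ← Bη, norm_mul]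
      have h3 := norm_add_le_of_le (norm_add_le_of_le (h1 (.inl (.inl i)) _ m1)
        (h1 (.inl (.inr i)) _ m2)) ((norm_mul_le I _).trans (mul_le_mul_of_nonneg_left
          (norm_sub_le_of_le (h1 (.inl (.inl i)) _ m2) (h1 (.inl (.inr i)) _ m1)) (norm_nonneg _)))
      rw [norm_I] at h3
      have h4 : ‖(1 / 2 : ℂ)‖ = 1 / 2 := by simp
      rw [h4]
      linarith
    refine ⟨?_, by rwa [mul_assoc], b3.trans ?_⟩
    · have : 0 ≤ N * 2 * R.ρ j u ^ 2 := by positivity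
      refine le_trans ?_ b1
      linarith
    · have : 0 ≤ C * (cj / 2) * R.δ j u := by positivity
      linarith

end Mat

theorem mat_stmt : MatStmt := fun V _ _ _ G _ _ _ _ S r R => by
  choose g cj c C hc hC hcj hG hb using Mat.main R
  have h1 : 0 < ∑ j, (c j)⁻¹ + 1 :=
    add_pos_of_nonneg_of_pos (sum_nonneg fun j _ => (inv_pos.2 (hc j)).le) one_pos
  refine ⟨g, cj, (∑ j, (c j)⁻¹ + 1)⁻¹, ∑ j, C j, inv_pos.2 h1, sum_nonneg fun j _ => hC j,
    fun j => ⟨hcj j, hG j, fun u => ?_⟩⟩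
  have h2 : C j ≤ ∑ j, C j := single_le_sum (fun j _ => hC j) (mem_univ j)
  have h3 : (∑ j, (c j)⁻¹ + 1)⁻¹ ≤ c j := by
    rw [inv_le_comm₀ h1 (hc j)]
    exact (single_le_sum (f := fun j => (c j)⁻¹) (fun j _ => (inv_pos.2 (hc j)).le)
      (mem_univ j)).trans (by linarith)
  obtain ⟨b1, b2, b3⟩ := hb j u
  refine ⟨le_trans ?_ b1, b2.trans ?_, b3.trans ?_⟩
  · gcongr
  · gcongr
  · exact mul_le_mul_of_nonneg_right h2 (norm_nonneg _)

end Pool.Agent.MP_ba99b7_an
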