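import Pool.Agent.MP_ba99b7_an.Heat1
import Pool.Agent.MP_ba99b7_an.Dim

-- ======== part 0: formerly Pool.Agent.MP_ba99b7_an.Heat2
section MrgPart0

/-! PROJECT STRI, module HEAT, part 2: the Nash iteration. -/

namespace Pool.Agent.MP_ba99b7_an.Heat

open scoped ComplexConjugate
open MeasureTheory Finset

lemma dirichlet_abs {α : Type} (V : Finset α) (K : α → α → ℝ) (D w : α → ℝ)
    (hs : ∀ u ∈ V, ∀ v ∈ V, K u v = K v u) (hrow : ∀ u ∈ V, ∑ v ∈ V, K u v ≤ D u) :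
    ∑ u ∈ V, ∑ v ∈ V, K u v * (w v - w u) ^ 2
      ≤ 2 * (∑ u ∈ V, D u * w u ^ 2 - ∑ u ∈ V, ∑ v ∈ V, K u v * (w u * w v)) := by
  have h1 : ∑ u ∈ V, ∑ v ∈ V, K u v * w u ^ 2 ≤ ∑ u ∈ V, D u * w u ^ 2 := by
    refine Finset.sum_le_sum fun u hu => ?_
    rw [← Finset.sum_mul]
    exact mul_le_mul_of_nonneg_right (hrow u hu) (sq_nonneg _)
  have h2 : ∑ u ∈ V, ∑ v ∈ V, K u v * w v ^ 2 = ∑ u ∈ V, ∑ v ∈ V, K u v * w u ^ 2 := by
    rw [Finset.sum_comm]
    exact Finset.sum_congr rfl fun u hu => Finset.sum_congr rfl fun v hv => by rw [hs u hu v hv]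
  have h3 : ∑ u ∈ V, ∑ v ∈ V, K u v * (w v - w u) ^ 2
      = ∑ u ∈ V, ∑ v ∈ V, K u v * w v ^ 2 + ∑ u ∈ V, ∑ v ∈ V, K u v * w u ^ 2
        - 2 * ∑ u ∈ V, ∑ v ∈ V, K u v * (w u * w v) := by
    simp only [Finset.mul_sum, ← Finset.sum_add_distrib, ← Finset.sum_sub_distrib]
    exact Finset.sum_congr rfl fun u _ => Finset.sum_congr rfl fun v _ => by ring
  rw [h3, h2]
  linarith

variable {G : Type} [Group G] [TopologicalSpace G] [MeasurableSpace G] [TG G] {μ : Measure G}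
  [BiH μ] {r d : ℕ} (S : Sph μ r d)

lemma B_nonneg (h1 : WalkStmt) (m : Fin r → ℕ) {u v : Fin r → ℕ} (hu : u ∈ S.Λ) (hv : v ∈ S.Λ) :
    0 ≤ B S m u v := by
  have h := (h1 G μ r d S m).2.2.1 u hu v hv
  rw [Q_eq] at h
  exact nonneg_of_mul_nonneg_right h (dim_pos' S hv)

lemma J_eq (h1 : WalkStmt) (s : Fin r → ℕ) {z : Fin r → ℕ} (T : Finset (Fin r → ℕ))
    (hT : ↑T ⊆ S.Λ)
    (h : ∀ g, (S.Ψ s g : ℂ) * S.φ z g = ∑ y ∈ T, (S.Q s z y : ℂ) * S.φ y g) :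
    B S (s + s + 0) z z = ∑ u ∈ T, S.dim u * B S s z u ^ 2 := by
  classical
  rw [B_semigroup S s 0 T hT _ h]
  refine Finset.sum_congr rfl fun u hu => ?_
  rw [Finset.sum_eq_single u]
  · have h3 := dim_pos' S (hT hu)
    rw [B_zero S h1 (hT hu) (hT hu), if_pos rfl, Q_eq]
    field_simp
  · intro v hv hne
    rw [B_zero S h1 (hT hu) (hT hv), if_neg (Ne.symm hne), mul_zero]
  · intro h
    exact absurd hu h

/-- The lattice gradient is controlled by the Dirichlet form. -/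
lemma grad_le (h1 : WalkStmt) (s : Fin r → ℕ) {z : Fin r → ℕ} (hz : z ∈ S.Λ) (j : Fin r)
    (U : Finset (Fin r → ℕ)) (hU : ↑U ⊆ S.Λ) :
    S.c0 * ∑ u ∈ U, S.dim u * (B S s z (u + S.e • Pi.single j 1) - B S s z u) ^ 2
      ≤ 2 * (B S (s + s + 0) z z - B S (s + s + Pi.single j 1) z z) := by
  classical
  obtain ⟨T, hT, -, hT'⟩ := (h1 G μ r d S s).1 z hz
  set V := T ∪ (U ∪ U.image fun u => u + S.e • Pi.single j 1) with hV
  have hVΛ : ↑V ⊆ S.Λ := by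
    intro v hv
    simp only [hV, Finset.coe_union, Set.mem_union, Finset.mem_coe, Finset.coe_image,
      Set.mem_image] at hv
    rcases hv with hv | hv | ⟨u, hu, rfl⟩
    · exact hT hv
    · exact hU hv
    · exact S.up u (hU hu) _
  have h2 := hT' V hVΛ Finset.subset_union_left
  obtain ⟨-, hsym, hnn, hrow⟩ := h1 G μ r d S (Pi.single j 1)
  have h3 := dirichlet_abs V (fun u v => S.dim u * S.Q (Pi.single j 1) u v)
    (fun u => S.dim u) (fun u => B S s z u)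
    (fun u hu v hv => hsym u (hVΛ hu) v (hVΛ hv))
    (fun u hu => by
      rw [← Finset.mul_sum]
      exact mul_le_of_le_one_right (Nat.cast_nonneg _) (hrow u (hVΛ hu) V hVΛ))
  rw [J_eq S h1 s V hVΛ h2, B_semigroup S s _ V hVΛ _ h2]
  have h4 : ∑ u ∈ V, ∑ v ∈ V, S.Q s z u * S.Q s z v * B S (Pi.single j 1) u v
      = ∑ u ∈ V, ∑ v ∈ V, S.dim u * S.Q (Pi.single j 1) u v * (B S s z u * B S s z v) :=
    Finset.sum_congr rfl fun u _ => Finset.sum_congr rfl fun v _ => by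
      simp only [Q_eq]
      ring
  rw [h4]
  refine le_trans ?_ h3
  have hUV : U ⊆ V := Finset.subset_union_left.trans Finset.subset_union_right
  refine le_trans ?_ (Finset.sum_le_sum_of_subset_of_nonneg hUV fun u hu _ =>
    Finset.sum_nonneg fun v hv => mul_nonneg
      (mul_nonneg (Nat.cast_nonneg _) (hnn u (hVΛ hu) v (hVΛ hv))) (sq_nonneg _))
  rw [Finset.mul_sum]
  refine Finset.sum_le_sum fun u hu => ?_
  have hmem : u + S.e • Pi.single j 1 ∈ V :=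
    Finset.mem_union_right _ (Finset.mem_union_right _ (Finset.mem_image_of_mem _ hu))
  refine le_trans ?_ (Finset.single_le_sum (f := fun v => (S.dim u : ℝ) *
    S.Q (Pi.single j 1) u v * (B S s z v - B S s z u) ^ 2) (fun v hv => mul_nonneg
      (mul_nonneg (Nat.cast_nonneg _) (hnn u (hU hu) v (hVΛ hv))) (sq_nonneg _)) hmem)
  have h5 := step_lower S h1 j (hU hu)
  have h6 : 0 ≤ (S.dim u : ℝ) * (B S s z (u + S.e • Pi.single j 1) - B S s z u) ^ 2 :=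
    mul_nonneg (Nat.cast_nonneg _) (sq_nonneg _)
  have h7 := mul_le_mul_of_nonneg_right h5 h6
  linarith

omit [TG G] [BiH μ] in
/-- Telescoping along lattice steps. -/
lemma telescope (w h : (Fin r → ℕ) → ℝ) (D : Fin r → ℝ) (H : ℝ)
    (hD : ∀ j, ∀ U : Finset (Fin r → ℕ), ↑U ⊆ S.Λ →
      ∑ u ∈ U, S.dim u * (w (u + S.e • Pi.single j 1) - w u) ^ 2 ≤ D j)
    (U : Finset (Fin r → ℕ)) (hU : ↑U ⊆ S.Λ) (hH : ∑ u ∈ U, S.dim u * h u ^ 2 ≤ H)
    (a : Fin r → ℕ) :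
    ∑ u ∈ U, S.dim u * h u * (w u - w (u + S.e • a)) ≤ √H * ∑ j, a j * √(D j) := by
  classical
  induction hn : ∑ j, a j generalizing a with
  | zero =>
    have : a = 0 := by
      funext j
      exact (Finset.sum_eq_zero_iff.1 hn) j (Finset.mem_univ j)
    subst this
    simp
  | succ n ih =>
    obtain ⟨j, hj⟩ : ∃ j, a j ≠ 0 := by
      by_contra hcon
      push Not at hcon
      simp [hcon] at hn
    obtain ⟨a', rfl⟩ : ∃ a' : Fin r → ℕ, a = a' + Pi.single j 1 := by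
      refine ⟨a - Pi.single j 1, ?_⟩
      funext l
      by_cases hl : l = j
      · subst hl
        simp only [Pi.add_apply, Pi.sub_apply, Pi.single_eq_same]
        omega
      · simp [Pi.single_eq_of_ne hl]
    have hn' : ∑ l, a' l = n := by
      simp only [Pi.add_apply, Finset.sum_add_distrib, Finset.sum_pi_single', Finset.mem_univ,
        if_true] at hn
      omega
    have h1 := ih a' hn'
    have hinj : Function.Injective fun u : Fin r → ℕ => u + S.e • a' := add_left_injective _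
    have h2 : ∑ u ∈ U, S.dim u * (w (u + S.e • a' + S.e • Pi.single j 1) - w (u + S.e • a')) ^ 2
        ≤ D j := by
      refine le_trans ?_ (hD j (U.image fun u => u + S.e • a') ?_)
      · rw [Finset.sum_image fun u _ v _ huv => hinj huv]
        refine Finset.sum_le_sum fun u hu => mul_le_mul_of_nonneg_right ?_ (sq_nonneg _)
        exact_mod_cast S.dim_mono u (hU hu) a'
      · intro v hv
        simp only [Finset.coe_image, Set.mem_image, Finset.mem_coe] at hv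
        obtain ⟨u, hu, rfl⟩ := hv
        exact S.up u (hU hu) _
    have h3 : (∑ u ∈ U, S.dim u * h u *
          (w (u + S.e • a') - w (u + S.e • a' + S.e • Pi.single j 1))) ^ 2
        ≤ (∑ u ∈ U, S.dim u * h u ^ 2) * ∑ u ∈ U, S.dim u *
          (w (u + S.e • a' + S.e • Pi.single j 1) - w (u + S.e • a')) ^ 2 :=
      Finset.sum_sq_le_sum_mul_sum_of_sq_le_mul U
        (fun u _ => mul_nonneg (Nat.cast_nonneg _) (sq_nonneg _))
        (fun u _ => mul_nonneg (Nat.cast_nonneg _) (sq_nonneg _))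
        fun u _ => le_of_eq (by ring)
    have hH0 : 0 ≤ H :=
      le_trans (Finset.sum_nonneg fun u _ => mul_nonneg (Nat.cast_nonneg _) (sq_nonneg _)) hH
    have h4 : ∑ u ∈ U, S.dim u * h u *
          (w (u + S.e • a') - w (u + S.e • a' + S.e • Pi.single j 1)) ≤ √H * √(D j) := by
      rw [← Real.sqrt_mul hH0]
      refine Real.le_sqrt_of_sq_le (h3.trans ?_)
      exact mul_le_mul hH h2
        (Finset.sum_nonneg fun u _ => mul_nonneg (Nat.cast_nonneg _) (sq_nonneg _)) hH0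
    have h5 : ∑ l, ((a' + Pi.single j 1 : Fin r → ℕ) l : ℝ) * √(D l)
        = ∑ l, (a' l : ℝ) * √(D l) + √(D j) := by
      simp only [Pi.add_apply, Nat.cast_add, add_mul, Finset.sum_add_distrib]
      congr 1
      rw [Finset.sum_eq_single j]
      · simp
      · intro l _ hl
        simp [Pi.single_eq_of_ne hl]
      · simp
    have h6 : ∑ u ∈ U, S.dim u * h u * (w u - w (u + S.e • (a' + Pi.single j 1)))
        = ∑ u ∈ U, S.dim u * h u * (w u - w (u + S.e • a')) + ∑ u ∈ U, S.dim u * h u *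
          (w (u + S.e • a') - w (u + S.e • a' + S.e • Pi.single j 1)) := by
      rw [← Finset.sum_add_distrib]
      refine Finset.sum_congr rfl fun u _ => ?_
      rw [smul_add, ← add_assoc]
      ring
    rw [h5, h6, mul_add]
    linarith

omit [TG G] [BiH μ] in
lemma one_le_Cd {z : Fin r → ℕ} (hz : z ∈ S.Λ) : 1 ≤ S.Cd := by
  have h := S.dim_dbl z hz z hz 1 le_rfl (fun j => by simp)
  have h2 := dim_pos' S hz
  rw [one_pow, mul_one] at h
  exact le_of_mul_le_mul_right (by linarith) h2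

omit [TG G] [BiH μ] in
/-- Doubling, for weights at distance `≤ (Tn - 1) (ρ + 1)` shifted by `ρ`. -/
lemma dim_shift {z u : Fin r → ℕ} (hz : z ∈ S.Λ) (hu : u ∈ S.Λ) (ρ : Fin r → ℕ) {Tn : ℝ}
    (hT : 1 ≤ Tn) (h : ∀ j, (z j : ℝ) - u j ≤ (Tn - 1) * (ρ j + 1)) :
    (S.dim (z + S.e • ρ) : ℝ) ≤ S.Cd * Tn ^ S.Mx * S.dim (u + S.e • ρ) := by
  refine S.dim_dbl _ (S.up u hu ρ) _ (S.up z hz ρ) Tn hT fun j => ?_
  have h1 := h j
  have he : (1 : ℝ) ≤ S.e := by exact_mod_cast S.e_pos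
  have h2 : (0 : ℝ) ≤ ρ j := Nat.cast_nonneg _
  have h3 : (0 : ℝ) ≤ u j := Nat.cast_nonneg _
  simp only [Pi.add_apply, Pi.smul_apply, smul_eq_mul, Nat.cast_add, Nat.cast_mul]
  have h4 : (ρ j : ℝ) + 1 ≤ 1 + (u j + S.e * ρ j) := by nlinarith
  have h5 := mul_le_mul_of_nonneg_left h4 (sub_nonneg.2 hT)
  linarith

/-- The sum of the kernel over a box of shifts. -/
lemma shift_sum_le (h1 : WalkStmt) (h2 : TailStmt) (s M ρ : Fin r → ℕ) (hM : ∀ j, S.Mb s j ≤ M j)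
    {z u : Fin r → ℕ} (hz : z ∈ S.Λ) (hu : u ∈ S.Λ) {σ Tn : ℝ} (hσ : 0 ≤ σ) (hT : 1 ≤ Tn)
    (hTn : ∀ j, S.C0 * (σ * √(1 + M j)) + 2 * S.e * (ρ j + 1) ≤ (Tn - 1) * (ρ j + 1)) :
    ∑ a ∈ Fintype.piFinset (fun j => Finset.range (ρ j + 1)), B S s z (u + S.e • (ρ + a))
      ≤ S.Cd * Tn ^ S.Mx / S.dim (z + S.e • ρ)
        + (∏ j, (ρ j + 1 : ℝ)) * (2 * Real.exp (-(σ ^ 2 / 2))) := by
  classical
  have hCd := one_le_Cd S hz
  have hzρ := dim_pos' S (S.up z hz ρ)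
  have huρ := dim_pos' S (S.up u hu ρ)
  have hA : 0 ≤ S.Cd * Tn ^ S.Mx / S.dim (z + S.e • ρ) := by positivity
  have hB : 0 ≤ (∏ j, (ρ j + 1 : ℝ)) * (2 * Real.exp (-(σ ^ 2 / 2))) := by positivity
  by_cases hnear : ∀ j, (z j : ℝ) - u j ≤ (Tn - 1) * (ρ j + 1)
  · refine le_trans ?_ (le_add_of_nonneg_right hB)
    have h3 := dim_shift S hz hu ρ hT hnear
    have hinj : Function.Injective fun a : Fin r → ℕ => u + S.e • (ρ + a) := by
      intro a b hab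
      funext j
      have := congrFun hab j
      simp only [Pi.add_apply, Pi.smul_apply, smul_eq_mul, add_right_inj] at this
      have := Nat.eq_of_mul_eq_mul_left S.e_pos this
      omega
    have h4 := (h1 G μ r d S s).2.2.2 z hz
      ((Fintype.piFinset fun j => Finset.range (ρ j + 1)).image fun a => u + S.e • (ρ + a)) (by
        intro v hv
        simp only [Finset.coe_image, Set.mem_image, Finset.mem_coe] at hv
        obtain ⟨a, -, rfl⟩ := hv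
        exact S.up u hu _)
    rw [Finset.sum_image fun a _ b _ hab => hinj hab] at h4
    have h5 : S.dim (u + S.e • ρ) * ∑ a ∈ Fintype.piFinset (fun j => Finset.range (ρ j + 1)),
        B S s z (u + S.e • (ρ + a)) ≤ 1 := by
      refine le_trans ?_ h4
      rw [Finset.mul_sum]
      refine Finset.sum_le_sum fun a _ => ?_
      rw [Q_eq]
      refine mul_le_mul_of_nonneg_right ?_ (B_nonneg S h1 s hz (S.up u hu _))
      rw [smul_add, ← add_assoc]
      exact_mod_cast S.dim_mono _ (S.up u hu ρ) a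
    have h6 : 0 ≤ ∑ a ∈ Fintype.piFinset (fun j => Finset.range (ρ j + 1)),
        B S s z (u + S.e • (ρ + a)) :=
      Finset.sum_nonneg fun a _ => B_nonneg S h1 s hz (S.up u hu _)
    rw [le_div_iff₀ hzρ]
    have h7 := mul_le_mul_of_nonneg_left h3 h6
    have h8 : 0 ≤ S.Cd * Tn ^ S.Mx := by positivity
    have h9 := mul_le_mul_of_nonneg_left h5 h8
    linarith
  · refine le_trans ?_ (le_add_of_nonneg_left hA)
    push Not at hnear
    obtain ⟨j, hj⟩ := hnear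
    have hcard : ((Fintype.piFinset fun j => Finset.range (ρ j + 1)).card : ℝ)
        = ∏ j, (ρ j + 1 : ℝ) := by
      simp [Fintype.card_piFinset]
    rw [← hcard, ← nsmul_eq_mul]
    refine Finset.sum_le_card_nsmul _ _ _ fun a ha => ?_
    have haj : a j < ρ j + 1 := by
      simpa using (Fintype.mem_piFinset.1 ha) j
    have haj' : (a j : ℝ) ≤ ρ j + 1 := by exact_mod_cast haj.le
    set v := u + S.e • (ρ + a) with hv
    have hvΛ : v ∈ S.Λ := S.up u hu _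
    have hvj : (v j : ℝ) = u j + S.e * (ρ j + a j) := by simp [hv, mul_add]
    have he : (0 : ℝ) ≤ S.e := Nat.cast_nonneg _
    have h3 : S.C0 * (σ * √(1 + M j)) < |(v j : ℝ) - z j| := by
      refine lt_of_lt_of_le ?_ (neg_le_abs _)
      have := hTn j
      have h4 := mul_le_mul_of_nonneg_left haj' he
      rw [hvj]
      nlinarith
    have h4 := h2 G μ r d S s v hvΛ z hz j (σ * √(1 + M j)) (by positivity) h3
    have hv1 := one_le_dim S hvΛ
    have hz1 := one_le_dim S hz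
    have h5 : √((S.dim v : ℝ) / S.dim z) ≤ S.dim v := by
      refine Real.sqrt_le_iff.2 ⟨by linarith, ?_⟩
      refine (div_le_self (by linarith) hz1).trans ?_
      nlinarith
    have h6 : Real.exp (-((σ * √(1 + M j)) ^ 2 / (2 * (1 + S.Mb s j))))
        ≤ Real.exp (-(σ ^ 2 / 2)) := by
      refine Real.exp_le_exp.2 (neg_le_neg ?_)
      have h7 : (S.Mb s j : ℝ) ≤ M j := by exact_mod_cast hM j
      have h8 : (0 : ℝ) ≤ S.Mb s j := Nat.cast_nonneg _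
      rw [mul_pow, Real.sq_sqrt (by positivity), le_div_iff₀ (by positivity)]
      nlinarith [sq_nonneg σ]
    rw [Q_eq] at h4
    have h7 : 2 * √((S.dim v : ℝ) / S.dim z) *
        Real.exp (-((σ * √(1 + M j)) ^ 2 / (2 * (1 + S.Mb s j))))
        ≤ S.dim v * (2 * Real.exp (-(σ ^ 2 / 2))) := by
      have := mul_le_mul h5 h6 (Real.exp_pos _).le (by linarith)
      linarith
    exact le_of_mul_le_mul_left (h4.trans h7) (by linarith)

end Pool.Agent.MP_ba99b7_an.Heat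

end MrgPart0

-- ======== part 1: formerly Pool.Agent.MP_ba99b7_an.Heat3
section MrgPart1

/-! PROJECT STRI, module HEAT, part 3: the on-diagonal bound. -/

namespace Pool.Agent.MP_ba99b7_an.Heat

open scoped ComplexConjugate
open MeasureTheory Finset

variable {G : Type} [Group G] [TopologicalSpace G] [MeasurableSpace G] [TG G] {μ : Measure G}
  [BiH μ] {r d : ℕ} (S : Sph μ r d)

/-- One step of the Nash iteration. -/
lemma nash_step (h1 : WalkStmt) (h2 : TailStmt) (s t M : Fin r → ℕ)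
    (hM : ∀ j, S.Mb (s + t) j ≤ M j) {z : Fin r → ℕ} (hz : z ∈ S.Λ) {σ Tn : ℝ} (hσ : 0 ≤ σ)
    (hT : 1 ≤ Tn) (ρ : Fin r → ℕ) (hρ : ∀ j, ρ j ^ 2 ≤ S.Mb t j)
    (hTn : ∀ j, S.C0 * (σ * √(1 + M j)) + 2 * S.e * (ρ j + 1) ≤ (Tn - 1) * (ρ j + 1)) :
    B S ((s + t) + (s + t) + 0) z z
      ≤ 2 * (S.Cd * Tn ^ S.Mx / S.dim (z + S.e • ρ) / (∏ j, (ρ j + 1 : ℝ))
          + 2 * Real.exp (-(σ ^ 2 / 2)))
        + 8 * r ^ 2 / S.c0 * (B S (s + s + 0) z z - B S ((s + t) + (s + t) + 0) z z) := by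
  classical
  obtain ⟨T, hT0, -, hT'⟩ := (h1 G μ r d S (s + t)).1 z hz
  have hJ := J_eq S h1 (s + t) T hT0 (hT' T hT0 subset_rfl)
  set J := B S ((s + t) + (s + t) + 0) z z with hJdef
  set Δ := B S (s + s + 0) z z - J with hΔ
  have hΔ0 : 0 ≤ Δ := sub_nonneg.2 (B_diag_anti S (fun j => by simp only [Pi.add_apply]; omega) hz)
  have hJ0 : 0 ≤ J := B_nonneg S h1 _ hz hz
  have hc := S.c0_pos
  set D : Fin r → ℝ := fun j =>
    2 * (J - B S ((s + t) + (s + t) + Pi.single j 1) z z) / S.c0 with hD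
  have hD1 : ∀ j, ∀ U : Finset (Fin r → ℕ), ↑U ⊆ S.Λ → ∑ u ∈ U, S.dim u *
      (B S (s + t) z (u + S.e • Pi.single j 1) - B S (s + t) z u) ^ 2 ≤ D j := by
    intro j U hU
    have := grad_le S h1 (s + t) hz j U hU
    rw [hD, le_div_iff₀ hc]
    linarith
  have hD0 : ∀ j, 0 ≤ D j := fun j => by simpa using hD1 j ∅ (by simp)
  have hD2 : ∀ j, S.Mb t j * D j ≤ 2 * Δ / S.c0 := by
    intro j
    have := energy_le S s t j hz
    rw [hD, ← mul_div_assoc]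
    refine div_le_div_of_nonneg_right ?_ hc.le
    linarith
  set A := Fintype.piFinset (fun j => Finset.range (ρ j + 1)) with hA
  set V : ℝ := ∏ j, (ρ j + 1 : ℝ) with hV
  have hV0 : 0 < V := by positivity
  have hcard : (A.card : ℝ) = V := by simp [hA, hV, Fintype.card_piFinset]
  have h3 : ∀ a ∈ A, ∑ u ∈ T, S.dim u * B S (s + t) z u *
      (B S (s + t) z u - B S (s + t) z (u + S.e • (ρ + a))) ≤ J / 2 + 4 * r ^ 2 / S.c0 * Δ := by
    intro a ha
    refine (telescope S (B S (s + t) z) (B S (s + t) z) D J hD1 T hT0 hJ.ge (ρ + a)).trans ?_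
    have h4 : ∀ j, ((ρ + a) j : ℝ) * √(D j) ≤ √(8 * Δ / S.c0) := by
      intro j
      refine Real.le_sqrt_of_sq_le ?_
      have haj : a j < ρ j + 1 := by simpa using (Fintype.mem_piFinset.1 ha) j
      have h5 : (ρ + a) j ^ 2 ≤ 4 * S.Mb t j := by
        have h6 : (ρ + a) j ≤ 2 * ρ j := by simp only [Pi.add_apply]; omega
        have := Nat.pow_le_pow_left h6 2
        have := hρ j
        nlinarith
      have h5' : (((ρ + a) j : ℕ) : ℝ) ^ 2 ≤ 4 * S.Mb t j := by exact_mod_cast h5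
      rw [mul_pow, Real.sq_sqrt (hD0 j)]
      have h7 := mul_le_mul_of_nonneg_right h5' (hD0 j)
      have h8 := hD2 j
      have h9 : 8 * Δ / S.c0 = 4 * (2 * Δ / S.c0) := by ring
      linarith
    have h5 : ∑ j, ((ρ + a) j : ℝ) * √(D j) ≤ r * √(8 * Δ / S.c0) := by
      have := Finset.sum_le_card_nsmul Finset.univ _ _ fun j _ => h4 j
      simpa using this
    have h6 := mul_le_mul_of_nonneg_left h5 (Real.sqrt_nonneg J)
    have h7 := Real.sq_sqrt hJ0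
    have h8 : √(8 * Δ / S.c0) ^ 2 = 8 * Δ / S.c0 := Real.sq_sqrt (by positivity)
    have h9 : 4 * r ^ 2 / S.c0 * Δ = (r * √(8 * Δ / S.c0)) ^ 2 / 2 := by
      rw [mul_pow, h8]
      ring
    nlinarith [sq_nonneg (√J - r * √(8 * Δ / S.c0))]
  set β := S.Cd * Tn ^ S.Mx / S.dim (z + S.e • ρ) + V * (2 * Real.exp (-(σ ^ 2 / 2))) with hβ
  have hCd := one_le_Cd S hz
  have hβ0 : 0 ≤ β := by positivity
  have h4 : ∑ a ∈ A, ∑ u ∈ T, S.dim u * B S (s + t) z u * B S (s + t) z (u + S.e • (ρ + a))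
      ≤ β := by
    rw [Finset.sum_comm]
    have h5 := (h1 G μ r d S (s + t)).2.2.2 z hz T hT0
    have h6 : ∑ u ∈ T, ∑ a ∈ A, S.dim u * B S (s + t) z u * B S (s + t) z (u + S.e • (ρ + a))
        ≤ ∑ u ∈ T, S.Q (s + t) z u * β := by
      refine Finset.sum_le_sum fun u hu => ?_
      rw [← Finset.mul_sum, Q_eq]
      exact mul_le_mul_of_nonneg_left (shift_sum_le S h1 h2 (s + t) M ρ hM hz (hT0 hu) hσ hT hTn)
        (mul_nonneg (Nat.cast_nonneg _) (B_nonneg S h1 _ hz (hT0 hu)))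
    rw [← Finset.sum_mul] at h6
    exact h6.trans (mul_le_of_le_one_left hβ0 h5)
  have h5 : V * J ≤ V * (J / 2 + 4 * r ^ 2 / S.c0 * Δ) + β := by
    have h6 := Finset.sum_le_card_nsmul A _ _ h3
    rw [nsmul_eq_mul, hcard] at h6
    have h7 : V * J = ∑ a ∈ A, ∑ u ∈ T, S.dim u * B S (s + t) z u *
        (B S (s + t) z u - B S (s + t) z (u + S.e • (ρ + a)))
        + ∑ a ∈ A, ∑ u ∈ T, S.dim u * B S (s + t) z u * B S (s + t) z (u + S.e • (ρ + a)) := by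
      rw [← Finset.sum_add_distrib, ← hcard, ← nsmul_eq_mul, ← Finset.sum_const]
      refine Finset.sum_congr rfl fun a _ => ?_
      rw [← Finset.sum_add_distrib, hJ]
      exact Finset.sum_congr rfl fun u _ => by ring
    linarith
  have h6 : S.Cd * Tn ^ S.Mx / S.dim (z + S.e • ρ) / V + 2 * Real.exp (-(σ ^ 2 / 2)) = β / V := by
    rw [hβ]
    field_simp
  rw [h6]
  have h7 : J ≤ J / 2 + 4 * r ^ 2 / S.c0 * Δ + β / V := by
    refine le_of_mul_le_mul_left ?_ hV0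
    rw [mul_add V _ (β / V), mul_div_cancel₀ _ hV0.ne']
    exact h5
  have h8 : 8 * r ^ 2 / S.c0 * Δ = 2 * (4 * r ^ 2 / S.c0 * Δ) := by ring
  linarith

lemma iterate_abs (J : ℕ → ℝ) {β C : ℝ} (hβ : 0 ≤ β) (hC : 0 ≤ C) (k : ℕ) (h0 : J 0 ≤ 1)
    (h : ∀ i < k, J (i + 1) ≤ β + C * (J i - J (i + 1))) :
    J k ≤ β + Real.exp (-(k / (1 + C))) := by
  induction k with
  | zero => simp; linarith
  | succ n ih =>
    have h1 := ih fun i hi => h i (Nat.lt_succ_of_lt hi)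
    have h2 := h n (Nat.lt_succ_self n)
    have h3 : Real.exp (-(((n + 1 : ℕ) : ℝ) / (1 + C)))
        = Real.exp (-(n / (1 + C))) * Real.exp (-(1 / (1 + C))) := by
      rw [← Real.exp_add]
      congr 1
      push_cast
      ring
    have h4 : C ≤ (1 + C) * Real.exp (-(1 / (1 + C))) := by
      have h5 := Real.add_one_le_exp (-(1 / (1 + C)))
      have h6 := mul_le_mul_of_nonneg_left h5 (by linarith : 0 ≤ 1 + C)
      have h7 : (1 + C) * (-(1 / (1 + C)) + 1) = C := by field_simp; ring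
      linarith
    rw [h3]
    have h5 := Real.exp_pos (-(n / (1 + C)))
    refine le_of_mul_le_mul_left ?_ (by linarith : 0 < 1 + C)
    have h6 := mul_le_mul_of_nonneg_left h1 hC
    have h7 := mul_le_mul_of_nonneg_left h4 h5.le
    nlinarith

omit [TG G] [BiH μ] in
lemma Mb_mono {m n : Fin r → ℕ} (h : ∀ j, n j ≤ m j) (j : Fin r) : S.Mb n j ≤ S.Mb m j :=
  Finset.sum_le_sum fun i _ => h i

omit [TG G] [BiH μ] in
lemma Mb_le {m : Fin r → ℕ} {L : ℕ} (h : ∀ j, m j ≤ L) (j : Fin r) : S.Mb m j ≤ r * L := by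
  unfold Sph.Mb
  refine (Finset.sum_le_card_nsmul _ _ L fun i _ => h i).trans ?_
  rw [smul_eq_mul]
  refine Nat.mul_le_mul_right _ ((Finset.card_filter_le _ _).trans ?_)
  simp

omit [TG G] [BiH μ] in
/-- The comparison of the scale of the shifts with the diffusive scale. -/
lemma scale_le (m : Fin r → ℕ) {k : ℕ} (hk : 1 ≤ k) (j : Fin r) :
    1 + S.Mb m j ≤ 2 * k * (r + 1) * (Nat.sqrt (S.Mb (fun i => m i / (2 * k)) j) + 1) ^ 2 := by
  have h1 : S.Mb m j ≤ 2 * k * S.Mb (fun i => m i / (2 * k)) j + r * (2 * k - 1) := by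
    have h2 : ∀ i, m i ≤ ((fun i => 2 * k * (m i / (2 * k))) + fun i => m i % (2 * k)) i := by
      intro i
      simp only [Pi.add_apply]
      exact (Nat.div_add_mod (m i) (2 * k)).ge
    refine (Mb_mono S h2 j).trans ?_
    have h3 := Mb_le S (m := fun i => m i % (2 * k)) (L := 2 * k - 1)
      (fun i => Nat.le_sub_one_of_lt (Nat.mod_lt _ (by omega))) j
    unfold Sph.Mb at h3 ⊢
    simp only [Pi.add_apply, Finset.sum_add_distrib, ← Finset.mul_sum]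
    exact Nat.add_le_add_left h3 _
  have h2 := Nat.lt_succ_sqrt' (S.Mb (fun i => m i / (2 * k)) j)
  rw [Nat.succ_eq_add_one] at h2
  set T := S.Mb (fun i => m i / (2 * k)) j
  have h3 : r * (2 * k - 1) ≤ r * (2 * k) := Nat.mul_le_mul_left _ (Nat.sub_le _ _)
  have h4 : 2 * k * (r + 1) * (T + 1) ≤ 2 * k * (r + 1) * (Nat.sqrt T + 1) ^ 2 :=
    Nat.mul_le_mul_left _ h2
  nlinarith [Nat.zero_le (k * r * T)]

/-- The on-diagonal bound. -/
lemma diag_bound (h1 : WalkStmt) (h2 : TailStmt) (m : Fin r → ℕ) (k : ℕ) {z : Fin r → ℕ}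
    (hz : z ∈ S.Λ) {σ Tn : ℝ} (hσ : 0 ≤ σ) (hT : 1 ≤ Tn) (ρ : Fin r → ℕ)
    (hρ : ∀ j, ρ j ^ 2 ≤ S.Mb (fun i => m i / (2 * k)) j)
    (hTn : ∀ j, S.C0 * (σ * √(1 + S.Mb m j)) + 2 * S.e * (ρ j + 1) ≤ (Tn - 1) * (ρ j + 1)) :
    B S m z z ≤ 2 * (S.Cd * Tn ^ S.Mx / S.dim (z + S.e • ρ) / (∏ j, (ρ j + 1 : ℝ))
          + 2 * Real.exp (-(σ ^ 2 / 2))) + Real.exp (-(k / (1 + 8 * r ^ 2 / S.c0))) := by
  set t : Fin r → ℕ := fun i => m i / (2 * k) with ht
  have hk : ∀ j, 2 * k * t j ≤ m j := fun j => Nat.mul_div_le _ _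
  have hCd := one_le_Cd S hz
  have hc := S.c0_pos
  refine le_trans (B_diag_anti S (n := k • t + k • t + 0) (fun j => ?_) hz) ?_
  · have := hk j
    simp only [Pi.add_apply, Pi.smul_apply, smul_eq_mul, Pi.zero_apply]
    linarith
  refine iterate_abs (fun i => B S (i • t + i • t + 0) z z) (by positivity) (by positivity) k ?_ ?_
  · simp only [zero_smul, add_zero]
    rw [B_zero S h1 hz hz, if_pos rfl]
    exact inv_le_one_of_one_le₀ (one_le_dim S hz)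
  · intro i hi
    simp only [succ_nsmul]
    refine nash_step S h1 h2 (i • t) t (S.Mb m) (Mb_mono S fun j => ?_) hz hσ hT ρ hρ hTn
    have := hk j
    have h3 : (i + 1) * t j ≤ k * t j := Nat.mul_le_mul_right _ hi
    simp only [Pi.add_apply, Pi.smul_apply, smul_eq_mul]
    nlinarith [Nat.zero_le (k * t j)]

end Pool.Agent.MP_ba99b7_an.Heat

end MrgPart1

-- ======== part 2: formerly Pool.Agent.MP_ba99b7_an.Heat
section MrgPart2

/-! PROJECT STRI, module HEAT: the heat kernel bounds. -/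

namespace Pool.Agent.MP_ba99b7_an.Heat

open scoped ComplexConjugate
open MeasureTheory Finset

lemma exp_small {c ε : ℝ} (hc : 0 < c) (hε : 0 < ε) (a : ℝ) :
    ∃ C : ℝ, 0 ≤ C ∧ ∀ N : ℝ, 1 ≤ N → Real.exp (-(c * N ^ ε)) ≤ C * N ^ (-a) := by
  obtain ⟨n, hn⟩ := exists_nat_ge (a / ε)
  refine ⟨n.factorial / c ^ n, by positivity, fun N hN => ?_⟩
  have hN0 : 0 < N := by linarith
  have h1 := Real.pow_div_factorial_le_exp (c * N ^ ε) (by positivity) n
  have h2 : N ^ a ≤ (N ^ ε) ^ n := by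
    rw [← Real.rpow_mul_natCast hN0.le]
    refine Real.rpow_le_rpow_of_exponent_le hN ?_
    rw [div_le_iff₀ hε] at hn
    linarith
  have h3 : 0 < N ^ a := Real.rpow_pos_of_pos hN0 a
  have h4 : (0 : ℝ) < n.factorial := by exact_mod_cast n.factorial_pos
  rw [Real.exp_neg, Real.rpow_neg hN0.le]
  have h5 : c ^ n * N ^ a / n.factorial ≤ Real.exp (c * N ^ ε) := by
    refine le_trans ?_ h1
    rw [mul_pow]
    gcongr
  refine (inv_anti₀ (by positivity) h5).trans (le_of_eq ?_)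
  field_simp

variable {G : Type} [Group G] [TopologicalSpace G] [MeasurableSpace G] [TG G] {μ : Measure G}
  [BiH μ] {r d : ℕ} (S : Sph μ r d)

omit [TG G] [BiH μ] in
lemma dim_le_pow {N : ℕ} (hN : 1 ≤ N) {x : Fin r → ℕ} (hx : x ∈ S.Λ) (hxN : ∀ j, x j ≤ N) :
    (S.dim x : ℝ) ≤ S.Cd * 2 ^ d * (N : ℝ) ^ d := by
  have hN' : (1 : ℝ) ≤ N := by exact_mod_cast hN
  have h1 : ∀ j, (1 + x j : ℝ) ≤ 2 * N := fun j => by
    have : (x j : ℝ) ≤ N := by exact_mod_cast hxN j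
    linarith
  have h2 := S.dim_le x hx (2 * N) h1 (by linarith)
  have h3 : ∏ j, (1 + x j : ℝ) ≤ (2 * N) ^ r := by
    have := Finset.prod_le_prod (s := Finset.univ) (fun j _ => by positivity) fun j _ => h1 j
    simpa using this
  have hCd := one_le_Cd S hx
  have h4 : (2 * N : ℝ) ^ (d - 2 * r) * (2 * N) ^ r ≤ (2 * N) ^ d := by
    rw [← pow_add]
    refine pow_le_pow_right₀ (by linarith) ?_
    have := S.two_r
    omega
  calc (S.dim x : ℝ) ≤ S.Cd * (2 * N) ^ (d - 2 * r) * (2 * N) ^ r :=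
        h2.trans (mul_le_mul_of_nonneg_left h3 (by positivity))
    _ ≤ S.Cd * (2 * N) ^ d := by
        rw [mul_assoc]
        exact mul_le_mul_of_nonneg_left h4 (by linarith)
    _ = _ := by ring

/-- The off-diagonal bound. -/
lemma tail_part (h2 : TailStmt) {ε : ℝ} (hε : 0 < ε) (a : ℝ) : ∃ C : ℝ, 0 ≤ C ∧ ∀ N : ℕ, 1 ≤ N →
    ∀ m : Fin r → ℕ, ∀ x ∈ S.Λ, (∀ j, x j ≤ N) → ∀ y ∈ S.Λ, ∀ j,
      (N : ℝ) ^ ε * √(1 + S.Mb m j) ≤ |(x j : ℝ) - y j| → S.Q m y x ≤ C * (N : ℝ) ^ (-a) := by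
  obtain ⟨C, hC, hC'⟩ := exp_small (c := 1 / (2 * (S.C0 + 1) ^ 2)) (by positivity) hε (a + d)
  refine ⟨2 * (|S.Cd| * 2 ^ d) * C, by positivity, fun N hN m x hx hxN y hy j hj => ?_⟩
  have hN' : (1 : ℝ) ≤ N := by exact_mod_cast hN
  have hX : 1 ≤ (N : ℝ) ^ ε := Real.one_le_rpow hN' hε.le
  set X := (N : ℝ) ^ ε with hXdef
  have hM : (0 : ℝ) < 1 + S.Mb m j := by positivity
  have hs : 0 < √(1 + S.Mb m j : ℝ) := Real.sqrt_pos.2 hM
  have h3 : S.C0 * (X * √(1 + S.Mb m j) / (S.C0 + 1)) < |(x j : ℝ) - y j| := by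
    refine lt_of_lt_of_le ?_ hj
    rw [← mul_div_assoc, div_lt_iff₀ (by positivity)]
    nlinarith [mul_pos (by linarith : 0 < X) hs]
  have h4 := h2 G μ r d S m x hx y hy j _ (by positivity) h3
  have hx1 := one_le_dim S hx
  have hy1 := one_le_dim S hy
  have h5 : √((S.dim x : ℝ) / S.dim y) ≤ S.dim x := by
    refine Real.sqrt_le_iff.2 ⟨by linarith, ?_⟩
    refine (div_le_self (by linarith) hy1).trans ?_
    nlinarith
  have h6 : Real.exp (-((X * √(1 + S.Mb m j) / (S.C0 + 1)) ^ 2 / (2 * (1 + S.Mb m j))))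
      ≤ Real.exp (-(1 / (2 * (S.C0 + 1) ^ 2) * X)) := by
    refine Real.exp_le_exp.2 (neg_le_neg ?_)
    have h7 : (X * √(1 + S.Mb m j) / (S.C0 + 1)) ^ 2 / (2 * (1 + S.Mb m j))
        = 1 / (2 * (S.C0 + 1) ^ 2) * X ^ 2 := by
      rw [div_pow, mul_pow, Real.sq_sqrt hM.le]
      field_simp
    rw [h7]
    exact mul_le_mul_of_nonneg_left (by nlinarith) (by positivity)
  have h7 := dim_le_pow S hN hx hxN
  have h8 := hC' N hN'
  have hCd := one_le_Cd S hx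
  rw [abs_of_nonneg (by linarith : 0 ≤ S.Cd)]
  have h9 : (N : ℝ) ^ d * (N : ℝ) ^ (-(a + d)) = (N : ℝ) ^ (-a) := by
    rw [← Real.rpow_natCast, ← Real.rpow_add (by linarith)]
    congr 1
    ring
  calc S.Q m y x ≤ _ := h4
    _ ≤ 2 * (S.Cd * 2 ^ d * (N : ℝ) ^ d) * (C * (N : ℝ) ^ (-(a + d))) :=
        mul_le_mul (mul_le_mul_of_nonneg_left (h5.trans h7) (by norm_num)) (h6.trans h8)
          (Real.exp_pos _).le (by positivity)
    _ = 2 * (S.Cd * 2 ^ d) * C * ((N : ℝ) ^ d * (N : ℝ) ^ (-(a + d))) := by ring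
    _ = _ := by rw [h9]

lemma prod_scale {r : ℕ} (M R : Fin r → ℝ) (hM : ∀ j, 0 < M j) (hR : ∀ j, 0 < R j) {κ : ℝ}
    (h : ∀ j, √(M j) ≤ κ * R j) :
    (∏ j, R j)⁻¹ ≤ κ ^ r * ∏ j, M j ^ (-(1 / 2) : ℝ) := by
  have h1 : κ ^ r * ∏ j, M j ^ (-(1 / 2) : ℝ) = ∏ j, κ * M j ^ (-(1 / 2) : ℝ) := by
    rw [Finset.prod_mul_distrib]
    simp
  rw [h1, ← Finset.prod_inv_distrib]
  refine Finset.prod_le_prod (fun j _ => (inv_pos.2 (hR j)).le) fun j _ => ?_
  have h2 : 0 < √(M j) := Real.sqrt_pos.2 (hM j)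
  rw [Real.rpow_neg (hM j).le, ← Real.sqrt_eq_rpow, ← div_eq_mul_inv, le_div_iff₀ h2,
    inv_mul_le_iff₀ (hR j)]
  linarith [h j]

/-- The on-diagonal bound in its final form. -/
lemma diag_part (h1 : WalkStmt) (h2 : TailStmt) {ε : ℝ} (hε : 0 < ε) :
    ∃ C : ℝ, 0 ≤ C ∧ ∀ N : ℕ, 1 ≤ N → ∀ m : Fin r → ℕ, (∀ j, m j ≤ N ^ 2) →
      ∀ x ∈ S.Λ, (∀ j, x j ≤ N) → ∀ y ∈ S.Λ,
        S.Q m y x ≤ C * (N : ℝ) ^ ε * ∏ j, (1 + S.Mb m j : ℝ) ^ (-(1 / 2) : ℝ) := by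
  set n : ℕ := 4 * S.Mx + r with hn
  set ε' : ℝ := ε / (n + 1) with hε'
  have hε'0 : 0 < ε' := by positivity
  have hc := S.c0_pos
  obtain ⟨C1, hC1, hC1'⟩ := tail_part S h2 hε'0 (r : ℝ)
  obtain ⟨C2, hC2, hC2'⟩ := exp_small (c := 1 / 2) (by norm_num) hε'0 (r + d)
  obtain ⟨C3, hC3, hC3'⟩ := exp_small (c := 1 / (1 + 8 * r ^ 2 / S.c0)) (by positivity) hε'0 (r + d)
  set c : ℝ := 1 + 2 * S.e + 2 * (S.C0 + 1) * (r + 1) with hcdef
  set C4 : ℝ := C1 + |S.Cd| * 2 ^ d * (4 * C2 + C3) with hC4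
  refine ⟨2 * S.Cd ^ 2 * c ^ (2 * S.Mx) * (2 * (r + 1)) ^ r + C4 * (r + 1) ^ r,
    by positivity, fun N hN m hm x hx hxN y hy => ?_⟩
  have hN' : (1 : ℝ) ≤ N := by exact_mod_cast hN
  have hN0 : (0 : ℝ) < N := by linarith
  have hX : 1 ≤ (N : ℝ) ^ ε' := Real.one_le_rpow hN' hε'0.le
  have hXε : ((N : ℝ) ^ ε') ^ n ≤ (N : ℝ) ^ ε := by
    rw [← Real.rpow_mul_natCast hN0.le]
    refine Real.rpow_le_rpow_of_exponent_le hN' ?_
    rw [hε', div_mul_eq_mul_div, div_le_iff₀ (by positivity)]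
    nlinarith
  have hε1 : 1 ≤ (N : ℝ) ^ ε := Real.one_le_rpow hN' hε.le
  set X := (N : ℝ) ^ ε' with hXdef
  set PP := ∏ j, (1 + S.Mb m j : ℝ) ^ (-(1 / 2) : ℝ) with hPP
  have hPP0 : 0 ≤ PP := Finset.prod_nonneg fun j _ => Real.rpow_nonneg (by positivity) _
  have hr0 : (0 : ℝ) ≤ r := Nat.cast_nonneg r
  have hNr : (N : ℝ) ^ (-(r : ℝ)) ≤ (r + 1) ^ r * PP := by
    have h3 := prod_scale (fun j => (1 + S.Mb m j : ℝ)) (fun _ => (N : ℝ)) (fun j => by positivity)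
      (fun _ => hN0) (κ := r + 1) fun j => by
        refine Real.sqrt_le_iff.2 ⟨by positivity, ?_⟩
        have h4 : (S.Mb m j : ℝ) ≤ r * N ^ 2 := by exact_mod_cast Mb_le S hm j
        have h5 : (1 : ℝ) ≤ N ^ 2 := by nlinarith
        nlinarith [mul_nonneg (mul_nonneg hr0 hr0) (sq_nonneg (N : ℝ)),
          mul_nonneg hr0 (sq_nonneg (N : ℝ))]
    rw [Real.rpow_neg hN0.le, Real.rpow_natCast]
    rw [Finset.prod_const, Finset.card_univ, Fintype.card_fin] at h3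
    exact h3
  have hCd := one_le_Cd S hx
  have hA0 : 0 ≤ 2 * S.Cd ^ 2 * c ^ (2 * S.Mx) * (2 * (r + 1)) ^ r * (N : ℝ) ^ ε * PP := by
    positivity
  have hfin : ∀ C' : ℝ, 0 ≤ C' → C' ≤ C4 →
      C' * (N : ℝ) ^ (-(r : ℝ)) ≤ C4 * (r + 1) ^ r * (N : ℝ) ^ ε * PP := by
    intro C' h3 h4
    calc C' * (N : ℝ) ^ (-(r : ℝ)) ≤ C4 * ((r + 1) ^ r * PP) :=
          mul_le_mul h4 hNr (Real.rpow_nonneg hN0.le _) (h3.trans h4)
      _ = C4 * (r + 1) ^ r * 1 * PP := by ring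
      _ ≤ _ := by
          have := h3.trans h4
          gcongr
  rw [add_mul, add_mul]
  by_cases hfar : ∃ j, X * √(1 + S.Mb m j) ≤ |(x j : ℝ) - y j|
  · obtain ⟨j, hj⟩ := hfar
    have h3 := hC1' N hN m x hx hxN y hy j hj
    have h4 := hfin C1 hC1 (le_add_of_nonneg_right (by positivity))
    linarith
  push Not at hfar
  set k : ℕ := ⌈X⌉₊ with hk
  have hk1 : 1 ≤ k := Nat.one_le_iff_ne_zero.2 (Nat.ceil_pos.2 (by linarith)).ne'
  have hkX : X ≤ k := Nat.le_ceil X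
  have hkX' : (k : ℝ) ≤ 2 * X := by
    have := Nat.ceil_lt_add_one (by linarith : 0 ≤ X)
    linarith
  set ρ : Fin r → ℕ := fun j => Nat.sqrt (S.Mb (fun i => m i / (2 * k)) j) with hρ
  have hscale : ∀ j, √(1 + S.Mb m j : ℝ) ≤ 2 * (r + 1) * X * (ρ j + 1) := by
    intro j
    refine Real.sqrt_le_iff.2 ⟨by positivity, ?_⟩
    have h3 : (1 + S.Mb m j : ℝ) ≤ 2 * k * (r + 1) * (ρ j + 1) ^ 2 := by
      exact_mod_cast scale_le S m hk1 j
    refine h3.trans ?_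
    rw [mul_pow]
    refine mul_le_mul_of_nonneg_right ?_ (sq_nonneg _)
    have h4 : (r + 1 : ℝ) ≤ (r + 1) ^ 2 := by nlinarith
    have h5 : X ≤ X ^ 2 := by nlinarith
    calc 2 * (k : ℝ) * (r + 1) ≤ 2 * (2 * X) * (r + 1) := by gcongr
      _ ≤ 2 * (2 * X ^ 2) * (r + 1) ^ 2 := by gcongr
      _ = _ := by ring
  have he : (0 : ℝ) ≤ S.e := Nat.cast_nonneg _
  have hC0 : (0 : ℝ) ≤ S.C0 := Nat.cast_nonneg _
  have hX2 : 1 ≤ X ^ 2 := by nlinarith
  set Tn : ℝ := c * X ^ 2 with hTn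
  have hTn1 : 2 * S.e + 2 * (S.C0 + 1) * (r + 1) * X ^ 2 ≤ Tn - 1 := by
    rw [hTn, hcdef]
    nlinarith
  have hT : 1 ≤ Tn := by
    have : 0 ≤ 2 * S.e + 2 * (S.C0 + 1) * (r + 1) * X ^ 2 := by positivity
    linarith
  have hXs : ∀ j, X * √(1 + S.Mb m j : ℝ) ≤ 2 * (r + 1) * X ^ 2 * (ρ j + 1) := fun j => by
    have := mul_le_mul_of_nonneg_left (hscale j) (by linarith : 0 ≤ X)
    linarith
  have hTn2 : ∀ j, (S.C0 + 1) * (X * √(1 + S.Mb m j)) + 2 * S.e * (ρ j + 1)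
      ≤ (Tn - 1) * (ρ j + 1) := fun j => by
    have h3 := mul_le_mul_of_nonneg_left (hXs j) (by linarith : (0 : ℝ) ≤ S.C0 + 1)
    have h4 := mul_le_mul_of_nonneg_right hTn1 (by positivity : (0 : ℝ) ≤ ρ j + 1)
    linarith
  have hXs0 : ∀ j, 0 ≤ X * √(1 + S.Mb m j : ℝ) := fun j => by positivity
  have hV := prod_scale (fun j => (1 + S.Mb m j : ℝ)) (fun j => (ρ j + 1 : ℝ))
    (fun j => by positivity) (fun j => by positivity) hscale
  have hx0 := dim_pos' S hx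
  have key : ∀ z ∈ S.Λ, (∀ j, (x j : ℝ) - z j ≤ X * √(1 + S.Mb m j)) → S.dim x * B S m z z
      ≤ 2 * S.Cd ^ 2 * c ^ (2 * S.Mx) * (2 * (r + 1)) ^ r * (N : ℝ) ^ ε * PP
        + C4 * (r + 1) ^ r * (N : ℝ) ^ ε * PP := by
    intro z hz hxz
    have h3 := diag_bound S h1 h2 m k hz (σ := X) (by linarith) hT ρ (fun j => Nat.sqrt_le' _)
      fun j => by
        have := hTn2 j
        have := hXs0 j
        linarith
    have h4 := dim_shift S hx hz ρ hT fun j => by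
      have h5 := hTn2 j
      have h6 := mul_nonneg hC0 (hXs0 j)
      have h7 : (0 : ℝ) ≤ 2 * S.e * (ρ j + 1) := by positivity
      linarith [hxz j]
    have h5 : (S.dim x : ℝ) ≤ S.dim (x + S.e • ρ) := by exact_mod_cast S.dim_mono x hx ρ
    have hzρ := dim_pos' S (S.up z hz ρ)
    have h6 : S.dim x * (S.Cd * Tn ^ S.Mx / S.dim (z + S.e • ρ) / (∏ j, (ρ j + 1 : ℝ)))
        ≤ S.Cd ^ 2 * c ^ (2 * S.Mx) * (2 * (r + 1)) ^ r * (N : ℝ) ^ ε * PP := by
      have h7 : S.dim x * (S.Cd * Tn ^ S.Mx / S.dim (z + S.e • ρ)) ≤ (S.Cd * Tn ^ S.Mx) ^ 2 := by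
        rw [← mul_div_assoc, div_le_iff₀ hzρ]
        have := mul_le_mul_of_nonneg_right (h5.trans h4) (by positivity : 0 ≤ S.Cd * Tn ^ S.Mx)
        linarith
      calc S.dim x * (S.Cd * Tn ^ S.Mx / S.dim (z + S.e • ρ) / (∏ j, (ρ j + 1 : ℝ)))
          = S.dim x * (S.Cd * Tn ^ S.Mx / S.dim (z + S.e • ρ)) * (∏ j, (ρ j + 1 : ℝ))⁻¹ := by
            rw [div_eq_mul_inv _ (∏ j, (ρ j + 1 : ℝ)), mul_assoc]
        _ ≤ (S.Cd * Tn ^ S.Mx) ^ 2 * ((2 * (r + 1) * X) ^ r * PP) :=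
            mul_le_mul h7 hV (by positivity) (by positivity)
        _ = S.Cd ^ 2 * c ^ (2 * S.Mx) * (2 * (r + 1)) ^ r * X ^ n * PP := by
            rw [hTn, hn, mul_pow (2 * ((r : ℝ) + 1)) X]
            generalize (2 * ((r : ℝ) + 1)) ^ r = w
            generalize c = c'
            ring
        _ ≤ _ := by gcongr
    have h7 : Real.exp (-(X ^ 2 / 2)) ≤ C2 * (N : ℝ) ^ (-((r : ℝ) + d)) := by
      refine le_trans (Real.exp_le_exp.2 (neg_le_neg ?_)) (hC2' N hN')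
      nlinarith
    have h8 : Real.exp (-(k / (1 + 8 * r ^ 2 / S.c0))) ≤ C3 * (N : ℝ) ^ (-((r : ℝ) + d)) := by
      refine le_trans (Real.exp_le_exp.2 (neg_le_neg ?_)) (hC3' N hN')
      rw [one_div_mul_eq_div]
      gcongr
    have h9 := dim_le_pow S hN hx hxN
    have h10 : (N : ℝ) ^ d * (N : ℝ) ^ (-((r : ℝ) + d)) = (N : ℝ) ^ (-(r : ℝ)) := by
      rw [← Real.rpow_natCast, ← Real.rpow_add hN0]
      congr 1
      ring
    have h11 : S.dim x * (4 * Real.exp (-(X ^ 2 / 2))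
          + Real.exp (-(k / (1 + 8 * r ^ 2 / S.c0))))
        ≤ |S.Cd| * 2 ^ d * (4 * C2 + C3) * (N : ℝ) ^ (-(r : ℝ)) := by
      rw [abs_of_nonneg (by linarith : 0 ≤ S.Cd), ← h10]
      calc _ ≤ S.Cd * 2 ^ d * (N : ℝ) ^ d * (4 * (C2 * (N : ℝ) ^ (-((r : ℝ) + d)))
            + C3 * (N : ℝ) ^ (-((r : ℝ) + d))) :=
            mul_le_mul h9 (by linarith) (by positivity) (by positivity)
        _ = _ := by ring
    have h12 := hfin (|S.Cd| * 2 ^ d * (4 * C2 + C3)) (by positivity) (le_add_of_nonneg_left hC1)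
    have h13 := mul_le_mul_of_nonneg_left h3 hx0.le
    linarith
  have h3 := key x hx fun j => by simpa using hXs0 j
  have h4 := key y hy fun j => (le_abs_self _).trans (hfar j).le
  have h5 := mul_le_mul_of_nonneg_left (B_le_diag S m hx hy) hx0.le
  rw [Q_eq]
  linarith

end Pool.Agent.MP_ba99b7_an.Heat

namespace Pool.Agent.MP_ba99b7_an

theorem heat_of (h1 : WalkStmt) (h2 : TailStmt) : HeatStmt := by
  intro G _ _ _ _ μ _ r d S ε a hε
  obtain ⟨C1, hC1, hC1'⟩ := Heat.diag_part S h1 h2 hε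
  obtain ⟨C2, hC2, hC2'⟩ := Heat.tail_part S h2 hε a
  refine ⟨C1 + C2, fun N hN m hm x hx hxN y hy => ⟨?_, fun j hj => ?_⟩⟩
  · refine (hC1' N hN m hm x hx hxN y hy).trans ?_
    have h3 : 0 ≤ ∏ j, (1 + S.Mb m j : ℝ) ^ (-(1 / 2) : ℝ) :=
      Finset.prod_nonneg fun j _ => Real.rpow_nonneg (by positivity) _
    gcongr
    linarith
  · refine (hC2' N hN m x hx hxN y hy j hj).trans ?_
    gcongr
    linarith

end Pool.Agent.MP_ba99b7_an

end MrgPart2

-- ======== part 3: formerly Pool.Agent.MP_ba99b7_an.MinorB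
section MrgPart3

/-! PROJECT STRI, module MINOR: the multiplier bounds of the pieces. -/

namespace Pool.Agent.MP_ba99b7_an.Minor

open Finset MeasureTheory

theorem ee_add (x y : ℝ) : ee (x + y) = ee x * ee y := by
  unfold ee
  rw [← Complex.exp_add]
  congr 1
  push_cast
  ring

theorem norm_ee (x : ℝ) : ‖ee x‖ = 1 := by
  have : (2 * Real.pi * x * Complex.I : ℂ) = ((2 * Real.pi * x : ℝ) : ℂ) * Complex.I := by
    push_cast; ring
  unfold ee
  rw [this, Complex.norm_exp_ofReal_mul_I]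

theorem fs_shift (c : ℤ → ℂ) (P : ℤ) (t : ℝ) :
    fs (fun k => c (k + P)) t = fs c t * ee (-(P * t)) := by
  unfold fs
  rw [← (Equiv.addRight P).tsum_eq (fun k => c k * ee (k * t)), ← tsum_mul_right]
  refine tsum_congr fun k => ?_
  simp only [Equiv.coe_addRight]
  rw [mul_assoc, ← ee_add]
  congr 2
  push_cast
  ring

theorem fs_sum {ι : Type} (s : Finset ι) (a : ι → ℂ) (c : ι → ℤ → ℂ)
    (hc : ∀ i ∈ s, Summable fun k => ‖c i k‖) (t : ℝ) :
    fs (fun k => ∑ i ∈ s, a i * c i k) t = ∑ i ∈ s, a i * fs (c i) t := by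
  unfold fs
  have h1 : ∀ i ∈ s, Summable fun k : ℤ => a i * (c i k * ee (k * t)) := by
    intro i hi
    refine Summable.mul_left _ (Summable.of_norm ?_)
    simpa [norm_ee] using hc i hi
  simp_rw [sum_mul, mul_assoc]
  rw [Summable.tsum_finsetSum h1]
  exact sum_congr rfl fun i _ => tsum_mul_left

theorem summable_comb {ι : Type} (s : Finset ι) (a : ι → ℂ) (c : ι → ℤ → ℂ)
    (hc : ∀ i ∈ s, Summable fun k => ‖c i k‖) :
    Summable fun k => ‖∑ i ∈ s, a i * c i k‖ := by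
  refine Summable.of_nonneg_of_le (fun _ => norm_nonneg _) (fun k => norm_sum_le _ _) ?_
  refine summable_sum fun i hi => ?_
  simp_rw [norm_mul]
  exact (hc i hi).mul_left _

variable {G : Type} [Group G] [TopologicalSpace G] [MeasurableSpace G] [TG G] {μ : Measure G}
  [BiH μ] {r d : ℕ}

theorem shift_summable (c0 : ℤ → ℂ) (hc : Summable fun k => ‖c0 k‖) (P : ℤ) :
    Summable fun k => ‖c0 (k + P)‖ :=
  hc.comp_injective (add_left_injective P)

theorem walk_choice (h3 : WalkStmt) (S : Sph μ r d) {ι : Type} (m : ι → Fin r → ℕ) :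
    ∃ T : ι → (Fin r → ℕ) → Finset (Fin r → ℕ), (∀ i, ∀ x ∈ S.Λ, ↑(T i x) ⊆ S.Λ) ∧
      ∀ i, ∀ x ∈ S.Λ, ∀ T' : Finset (Fin r → ℕ), ↑T' ⊆ S.Λ → T i x ⊆ T' → ∀ g,
        (S.Ψ (m i) g : ℂ) * S.φ x g = ∑ y ∈ T', (S.Q (m i) x y : ℂ) * S.φ y g := by
  choose! T hT1 _hT2 hT3 using fun i x hx => (h3 G μ r d S (m i)).1 x hx
  exact ⟨T, hT1, hT3⟩

/-- The algebra behind the multiplier form. -/
theorem alg {ι κ : Type} (I : Finset ι) (X T : Finset κ) (σ Ψ : ι → ℂ) (β e dm φ : κ → ℂ)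
    (Q : ι → κ → κ → ℂ) (f : ℂ)
    (h1 : ∀ i ∈ I, ∀ x ∈ X, ∀ y ∈ T, dm x * Q i x y = dm y * Q i y x)
    (h2 : ∀ i ∈ I, ∀ x ∈ X, Ψ i * φ x = ∑ y ∈ T, Q i x y * φ y) :
    f * (∑ x ∈ X, β x * e x * (dm x * φ x)) * ∑ i ∈ I, σ i * Ψ i
      = ∑ y ∈ T, (∑ p ∈ I ×ˢ X, σ p.1 * β p.2 * Q p.1 y p.2 * (f * e p.2)) * (dm y * φ y) := by
  simp_rw [sum_mul (I ×ˢ X)]
  rw [sum_comm, mul_assoc, mul_comm (∑ x ∈ X, _), sum_mul_sum, ← sum_product', mul_sum]
  refine sum_congr rfl fun p hp => ?_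
  obtain ⟨hi, hx⟩ := mem_product.1 hp
  have e1 : ∀ y ∈ T, σ p.1 * β p.2 * Q p.1 y p.2 * (f * e p.2) * (dm y * φ y)
      = σ p.1 * β p.2 * (f * e p.2) * dm p.2 * (Q p.1 p.2 y * φ y) := by
    intro y hy
    linear_combination (-σ p.1 * β p.2 * (f * e p.2) * φ y) * h1 _ hi _ hx y hy
  rw [sum_congr rfl e1, ← mul_sum, ← h2 _ hi _ hx]
  ring

theorem mult (h3 : WalkStmt) (S : Sph μ r d) (X : Finset (Fin r → ℕ)) (hX : ↑X ⊆ S.Λ)
    (β : (Fin r → ℕ) → ℝ) (c0 : ℤ → ℂ) (hc : Summable fun k => ‖c0 k‖) {ι : Type} [Fintype ι]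
    (σ : ι → ℝ) (m : ι → Fin r → ℕ) (B : ℝ)
    (hB : ∀ y ∈ S.Λ, ∀ k : ℤ, ‖∑ p ∈ (univ : Finset ι) ×ˢ X,
      ((σ p.1 * β p.2 * S.Q (m p.1) y p.2 : ℝ) : ℂ) * c0 (k + S.P p.2)‖ ≤ B) :
    S.MultBd (fun t g => fs c0 t * S.ker X S.P β t g * ((∑ i, σ i * S.Ψ (m i) g : ℝ) : ℂ)) B := by
  classical
  obtain ⟨T, hT1, hT3⟩ := walk_choice h3 S m
  obtain ⟨T', hΛ, hT'⟩ : ∃ T' : Finset (Fin r → ℕ), ↑T' ⊆ S.Λ ∧ ∀ i, ∀ x ∈ X, T i x ⊆ T' := by
    refine ⟨((univ : Finset ι) ×ˢ X).biUnion fun p => T p.1 p.2, fun y hy => ?_,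
      fun i x hx y hy => mem_biUnion.2 ⟨(i, x), mem_product.2 ⟨mem_univ _, hx⟩, hy⟩⟩
    obtain ⟨p, hp, hy'⟩ := mem_biUnion.1 (mem_coe.1 hy)
    exact hT1 p.1 p.2 (hX (mem_product.1 hp).2) hy'
  have hsum : ∀ p ∈ (univ : Finset ι) ×ˢ X, Summable fun k => ‖c0 (k + S.P p.2)‖ :=
    fun p _ => shift_summable c0 hc _
  refine ⟨T', fun y k => ∑ p ∈ (univ : Finset ι) ×ˢ X,
      ((σ p.1 * β p.2 * S.Q (m p.1) y p.2 : ℝ) : ℂ) * c0 (k + S.P p.2), hΛ,
    fun y _ => ?_, fun y hy k => hB y (hΛ hy) k, fun t g => ?_⟩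
  · exact summable_comb ((univ : Finset ι) ×ˢ X)
      (fun p => ((σ p.1 * β p.2 * S.Q (m p.1) y p.2 : ℝ) : ℂ)) (fun p k => c0 (k + S.P p.2)) hsum
  have e1 : ∀ y, fs (fun k => ∑ p ∈ (univ : Finset ι) ×ˢ X,
      ((σ p.1 * β p.2 * S.Q (m p.1) y p.2 : ℝ) : ℂ) * c0 (k + S.P p.2)) t
      = ∑ p ∈ (univ : Finset ι) ×ˢ X, (σ p.1 : ℂ) * β p.2 * S.Q (m p.1) y p.2
        * (fs c0 t * ee (-(S.P p.2 * t))) := by
    intro y
    refine (fs_sum ((univ : Finset ι) ×ˢ X)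
      (fun p => ((σ p.1 * β p.2 * S.Q (m p.1) y p.2 : ℝ) : ℂ))
      (fun p k => c0 (k + S.P p.2)) hsum t).trans (sum_congr rfl fun p _ => ?_)
    rw [fs_shift, Complex.ofReal_mul, Complex.ofReal_mul]
  have e2 := alg (univ : Finset ι) X T' (fun i => (σ i : ℂ)) (fun i => (S.Ψ (m i) g : ℂ))
    (fun x => (β x : ℂ)) (fun x => ee (-(S.P x * t))) (fun x => (S.dim x : ℂ)) (fun x => S.φ x g)
    (fun i x y => (S.Q (m i) x y : ℂ)) (fs c0 t)
    (fun i _ x hx y hy => by exact_mod_cast (h3 G μ r d S (m i)).2.1 x (hX hx) y (hΛ hy))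
    (fun i _ x hx => hT3 i x (hX hx) T' hΛ (hT' i x hx) g)
  simp only [e1]
  simp only [Orth.ker, Complex.ofReal_sum, Complex.ofReal_mul]
  exact e2

omit [TG G] [BiH μ] in
theorem box_sub (S : Sph μ r d) {γ : Fin r → ℕ} (hγ : γ ∈ S.Λ) (κ : ℕ) : ↑(S.box γ κ) ⊆ S.Λ := by
  intro x hx
  obtain ⟨m, -, rfl⟩ := mem_image.1 (mem_coe.1 hx)
  exact S.up γ hγ m

omit [TG G] [BiH μ] in
theorem box_lt (S : Sph μ r d) (γ : Fin r → ℕ) (κ : ℕ) (x : Fin r → ℕ) (hx : x ∈ S.box γ κ)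
    (j : Fin r) : x j < (∑ j, γ j + 2 * S.e + 1) * 2 ^ κ := by
  obtain ⟨m, hm, rfl⟩ := mem_image.1 hx
  have h1 := mem_range.1 (Fintype.mem_piFinset.1 hm j)
  have h2 : γ j ≤ ∑ j, γ j := single_le_sum (fun _ _ => Nat.zero_le _) (mem_univ j)
  have h3 : 1 ≤ 2 ^ κ := Nat.one_le_two_pow
  have h4 : m j ≤ 2 * 2 ^ κ := by rw [pow_succ] at h1; omega
  simp only [Pi.add_apply, Pi.smul_apply, smul_eq_mul]
  have h5 := Nat.mul_le_mul_left S.e h4
  nlinarith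

omit [TG G] [BiH μ] in
theorem box_card (S : Sph μ r d) (γ : Fin r → ℕ) (κ : ℕ) :
    (S.box γ κ).card ≤ (2 * 2 ^ κ) ^ r := by
  refine card_image_le.trans ?_
  rw [Fintype.card_piFinset]
  simp only [card_range, prod_const, card_univ, Fintype.card_fin]
  exact Nat.pow_le_pow_left (by rw [pow_succ]; omega) r

omit [TG G] [BiH μ] in
theorem le_Mb (S : Sph μ r d) (m : Fin r → ℕ) (j : Fin r) : m j ≤ S.Mb m j :=
  single_le_sum (f := m) (fun _ _ => Nat.zero_le _) (mem_filter.2 ⟨mem_univ _, rfl⟩)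

theorem decay_le (l M : ℕ) (h : lo l ≤ M) :
    (1 + M : ℝ) ^ (-(1 / 2) : ℝ) ≤ (2 : ℝ) ^ ((1 - l : ℝ) / 2) := by
  have h1 : (2 : ℝ) ^ l ≤ 2 * (1 + M) := by
    have := two_pow_le_lo l
    have h2 : 2 ^ l ≤ 2 * (1 + M) := by omega
    exact_mod_cast h2
  have h2 : (2 : ℝ) ^ ((l : ℝ) - 1) ≤ 1 + M := by
    rw [Real.rpow_sub (by norm_num), Real.rpow_natCast, Real.rpow_one]
    linarith
  refine (Real.rpow_le_rpow_of_nonpos (by positivity) h2 (by norm_num)).trans (le_of_eq ?_)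
  rw [← Real.rpow_mul (by norm_num)]
  congr 1
  ring

theorem inv_le_avg (hr : 2 ≤ r) (κ : ℕ) (l : Fin r → ℕ) (hl : ∀ j, l j ≤ κ + 1) :
    (2 : ℝ) ^ (-(κ : ℝ)) ≤ 2 * (2 : ℝ) ^ (-((∑ j, l j : ℕ) / r : ℝ)) := by
  have hr' : (0 : ℝ) < r := by exact_mod_cast (by omega : 0 < r)
  have h1 : ∑ j, l j ≤ r * (κ + 1) := by
    simpa using sum_le_card_nsmul univ l _ fun j _ => hl j
  have h2 : ((∑ j, l j : ℕ) / r : ℝ) ≤ κ + 1 := by
    rw [div_le_iff₀ hr', mul_comm]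
    exact_mod_cast h1
  nth_rewrite 2 [← Real.rpow_one 2]
  rw [← Real.rpow_add (by norm_num)]
  exact Real.rpow_le_rpow_of_exponent_le (by norm_num) (by linarith)

/-- The resonant part of a row of the transition kernel. -/
theorem res (h4 : HeatStmt) (h5 : ConicStmt) (hr : 2 ≤ r) (S : Sph μ r d) {γ : Fin r → ℕ}
    (hγ : γ ∈ S.Λ) (ε : ℝ) (hε : 0 < ε) : ∃ C : ℝ, 0 ≤ C ∧ ∀ (κ : ℕ) (l m : Fin r → ℕ),
      (∀ j, l j ≤ κ + 1) → (∀ j, lo (l j) ≤ m j) → (∀ j, m j ≤ 2 ^ κ) → ∀ y ∈ S.Λ, ∀ k : ℤ,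
      ∑ x ∈ (S.box γ κ).filter (fun x => S.P x = k), S.Q m y x
        ≤ C * (2 : ℝ) ^ ((r + 2) * ε * κ - (∑ j, l j : ℕ) / r) := by
  classical
  set C1 : ℕ := ∑ j, γ j + 2 * S.e + 1 with hC1
  have hC1p : 1 ≤ C1 := by omega
  obtain ⟨Ch, hh⟩ := h4 G μ r d S ε (r + 1) hε
  obtain ⟨Cc, hCc, hc⟩ := count_all h5 S.A S.A_symm S.A_pos S.bv C1 ε hε
  set Ch' := max Ch 0 with hCh'
  have hCh0 : 0 ≤ Ch' := le_max_right _ _
  have hC1e : (1 : ℝ) ≤ (C1 : ℝ) ^ ε := Real.one_le_rpow (by exact_mod_cast hC1p) hε.le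
  refine ⟨Cc * Ch' * (3 * (C1 : ℝ) ^ ε) ^ (r + 1) * 2 + Ch' * 2 ^ r * 2, by positivity,
    fun κ l m hl hlo hm y hy k => ?_⟩
  obtain ⟨j1, j2, hj, hjl⟩ := exists_pair hr l
  have hr' : (0 : ℝ) < r := by exact_mod_cast (by omega : 0 < r)
  have hN : 1 ≤ 2 ^ κ := Nat.one_le_two_pow
  have hN' : 1 ≤ C1 * 2 ^ κ := Nat.mul_pos hC1p hN
  have hNN : 2 ^ κ ≤ C1 * 2 ^ κ := Nat.le_mul_of_pos_left _ hC1p
  have hm2 : ∀ j, m j ≤ (C1 * 2 ^ κ) ^ 2 := fun j => by nlinarith [hm j]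
  have hQ := fun x (hx : x ∈ S.box γ κ) =>
    hh (C1 * 2 ^ κ) hN' m hm2 x (box_sub S hγ κ hx) (fun j => (box_lt S γ κ x hx j).le) y hy
  set E : ℝ := (2 : ℝ) ^ (ε * κ) with hE
  have hE1 : 1 ≤ E := Real.one_le_rpow (by norm_num) (by positivity)
  have eN : ((2 ^ κ : ℕ) : ℝ) ^ ε = E := by
    push_cast
    rw [← Real.rpow_natCast, ← Real.rpow_mul (by norm_num), mul_comm]
  have eN' : ((C1 * 2 ^ κ : ℕ) : ℝ) ^ ε = (C1 : ℝ) ^ ε * E := by
    rw [Nat.cast_mul, Real.mul_rpow (by positivity) (by positivity), eN]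
  set F : ℝ := (C1 : ℝ) ^ ε * E with hF
  have hF1 : 1 ≤ F := by nlinarith
  set V : ℝ := (2 : ℝ) ^ (-((∑ j, l j : ℕ) / r : ℝ)) with hV
  have hV0 : 0 < V := by positivity
  have eT : (2 : ℝ) ^ ((r + 2) * ε * κ - (∑ j, l j : ℕ) / r) = E ^ (r + 2) * V := by
    rw [hE, hV, ← Real.rpow_natCast, ← Real.rpow_mul (by norm_num), ← Real.rpow_add (by norm_num)]
    congr 1
    push_cast
    ring
  rw [eT, ← sum_filter_add_sum_filter_not _
    (fun x => ∀ j, |(x j : ℝ) - y j| < F * √(1 + S.Mb m j))]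
  set D : Fin r → ℝ := fun j => (1 + S.Mb m j : ℝ) ^ (-(1 / 2) : ℝ) with hD
  have hD0 : ∀ j, 0 ≤ D j := fun j => by positivity
  have near : ∑ x ∈ ((S.box γ κ).filter (fun x => S.P x = k)).filter
      (fun x => ∀ j, |(x j : ℝ) - y j| < F * √(1 + S.Mb m j)), S.Q m y x
        ≤ Cc * Ch' * (3 * (C1 : ℝ) ^ ε) ^ (r + 1) * 2 * (E ^ (r + 2) * V) := by
    set X := ((S.box γ κ).filter (fun x => S.P x = k)).filter
      (fun x => ∀ j, |(x j : ℝ) - y j| < F * √(1 + S.Mb m j)) with hX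
    have hXb : ∀ x ∈ X, x ∈ S.box γ κ := fun x hx => (mem_filter.1 (mem_filter.1 hx).1).1
    have a1 := hc j1 j2 hj (2 ^ κ) hN X k (fun j => y j) (fun j => F * √(1 + S.Mb m j))
      (fun j => by positivity) (fun x hx j => box_lt S γ κ x (hXb x hx) j)
      (fun x hx => (mem_filter.1 (mem_filter.1 hx).1).2) (fun x hx => (mem_filter.1 hx).2)
    rw [eN] at a1
    have a2 : ∀ x ∈ X, S.Q m y x ≤ Ch' * F * ∏ j, D j := by
      intro x hx
      have := (hQ x (hXb x hx)).1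
      rw [eN'] at this
      refine this.trans (mul_le_mul_of_nonneg_right (mul_le_mul_of_nonneg_right
        (le_max_left _ _) (by linarith)) (prod_nonneg fun j _ => hD0 j))
    have a3 := sum_le_card_nsmul X _ _ a2
    rw [nsmul_eq_mul] at a3
    have a4 : (∏ j ∈ (univ.erase j1).erase j2, (2 * (F * √(1 + S.Mb m j)) + 1))
        * ∏ j ∈ (univ.erase j1).erase j2, D j ≤ (3 * F) ^ r := by
      rw [← prod_mul_distrib]
      have b1 : ∀ j, (2 * (F * √(1 + S.Mb m j)) + 1) * D j ≤ 3 * F := by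
        intro j
        have c1 : (1 : ℝ) ≤ √(1 + S.Mb m j) := Real.one_le_sqrt.2 (by simp)
        have c2 : D j = (√(1 + S.Mb m j : ℝ))⁻¹ := by
          rw [hD]; simp only
          rw [Real.rpow_neg (by positivity), Real.sqrt_eq_rpow]
        rw [c2, ← div_eq_mul_inv, div_le_iff₀ (by linarith)]
        nlinarith
      refine (prod_le_prod (fun j _ => by have := hD0 j; positivity) fun j _ => b1 j).trans ?_
      rw [prod_const]
      refine pow_le_pow_right₀ (by linarith) ?_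
      simpa using card_le_univ ((univ.erase j1).erase j2)
    have a5 : D j1 * D j2 ≤ 2 * V := by
      have b1 := decay_le (l j1) _ ((hlo j1).trans (le_Mb S m j1))
      have b2 := decay_le (l j2) _ ((hlo j2).trans (le_Mb S m j2))
      refine (mul_le_mul b1 b2 (hD0 j2) (by positivity)).trans ?_
      rw [hV]
      nth_rewrite 5 [← Real.rpow_one 2]
      rw [← Real.rpow_add (by norm_num), ← Real.rpow_add (by norm_num)]
      refine Real.rpow_le_rpow_of_exponent_le (by norm_num) ?_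
      have b3 : ((∑ j, l j : ℕ) / r : ℝ) ≤ (l j1 + l j2) / 2 := by
        rw [div_le_div_iff₀ hr' (by norm_num)]
        have : ((2 * ∑ j, l j : ℕ) : ℝ) ≤ ((r * (l j1 + l j2) : ℕ) : ℝ) := by exact_mod_cast hjl
        rw [Nat.cast_mul, Nat.cast_mul, Nat.cast_add] at this
        push_cast at this ⊢
        linarith
      linarith
    have a6 : ∏ j, D j = D j1 * D j2 * ∏ j ∈ (univ.erase j1).erase j2, D j := by
      rw [← mul_prod_erase _ _ (mem_univ j1),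
        ← mul_prod_erase _ _ (mem_erase.2 ⟨Ne.symm hj, mem_univ j2⟩), mul_assoc]
    have a7 : 0 ≤ ∏ j ∈ (univ.erase j1).erase j2, D j := prod_nonneg fun j _ => hD0 j
    have a8 : 0 ≤ Ch' * F * ∏ j, D j := by
      have := prod_nonneg fun j (_ : j ∈ univ) => hD0 j
      positivity
    refine a3.trans ((mul_le_mul_of_nonneg_right a1 a8).trans ?_)
    rw [a6]
    have a9 : 0 ≤ D j1 * D j2 := mul_nonneg (hD0 _) (hD0 _)
    calc _ = Cc * Ch' * E * F * ((∏ j ∈ (univ.erase j1).erase j2,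
          (2 * (F * √(1 + S.Mb m j)) + 1)) * ∏ j ∈ (univ.erase j1).erase j2, D j)
          * (D j1 * D j2) := by ring
      _ ≤ Cc * Ch' * E * F * (3 * F) ^ r * (2 * V) := by gcongr
      _ ≤ Cc * Ch' * E * (3 * F) * (3 * F) ^ r * (2 * V) := by gcongr; linarith
      _ = _ := by rw [hF]; ring
  have far : ∑ x ∈ ((S.box γ κ).filter (fun x => S.P x = k)).filter
      (fun x => ¬∀ j, |(x j : ℝ) - y j| < F * √(1 + S.Mb m j)), S.Q m y x
        ≤ Ch' * 2 ^ r * 2 * (E ^ (r + 2) * V) := by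
    set X := ((S.box γ κ).filter (fun x => S.P x = k)).filter
      (fun x => ¬∀ j, |(x j : ℝ) - y j| < F * √(1 + S.Mb m j)) with hX
    have hXb : X ⊆ S.box γ κ := fun x hx => (mem_filter.1 (mem_filter.1 hx).1).1
    have a2 : ∀ x ∈ X, S.Q m y x ≤ Ch' * (((2 : ℝ) ^ κ) ^ (r + 1))⁻¹ := by
      intro x hx
      obtain ⟨j, hj⟩ := not_forall.1 (mem_filter.1 hx).2
      have := (hQ x (hXb hx)).2 j (by rw [eN']; exact not_lt.1 hj)
      refine this.trans (mul_le_mul (le_max_left _ _) ?_ (by positivity) hCh0)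
      rw [Real.rpow_neg (by positivity), ← Nat.cast_succ, Real.rpow_natCast]
      refine inv_anti₀ (by positivity) (pow_le_pow_left₀ (by positivity) ?_ _)
      exact_mod_cast hNN
    have a3 := sum_le_card_nsmul X _ _ a2
    rw [nsmul_eq_mul] at a3
    have a4 : (X.card : ℝ) ≤ (2 * 2 ^ κ) ^ r := by
      exact_mod_cast (card_le_card hXb).trans (box_card S γ κ)
    have a5 := inv_le_avg hr κ l hl
    rw [Real.rpow_neg (by norm_num), Real.rpow_natCast] at a5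
    have a6 : 1 ≤ E ^ (r + 2) := one_le_pow₀ hE1
    refine a3.trans ((mul_le_mul_of_nonneg_right a4 (by positivity)).trans ?_)
    calc _ = Ch' * 2 ^ r * ((2 : ℝ) ^ κ)⁻¹ := by
          rw [mul_pow, pow_succ]; field_simp
      _ ≤ Ch' * 2 ^ r * (2 * V) := by gcongr
      _ = Ch' * 2 ^ r * 2 * (1 * V) := by ring
      _ ≤ _ := by gcongr
  linarith

end Pool.Agent.MP_ba99b7_an.Minor

end MrgPart3

-- ======== part 4: formerly Pool.Agent.MP_ba99b7_an.Minor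
section MrgPart4

/-! PROJECT STRI, module MINOR: the weak type estimate on a dyadic box in rank at least two. -/

namespace Pool.Agent.MP_ba99b7_an.Minor

open Finset MeasureTheory

theorem poly_le (r : ℕ) (hr : 0 < r) (η : ℝ) (hη : 0 < η) :
    ∃ C : ℝ, 0 ≤ C ∧ ∀ κ : ℕ, ((κ : ℝ) + 2) ^ r ≤ C * (2 : ℝ) ^ (η * κ) := by
  have hr' : (0 : ℝ) < r := by exact_mod_cast hr
  have hl : 0 < Real.log 2 := Real.log_pos (by norm_num)
  set s := η * Real.log 2 / r with hs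
  have hs0 : 0 < s := by positivity
  refine ⟨(2 + 1 / s) ^ r, by positivity, fun κ => ?_⟩
  have e : (2 : ℝ) ^ (η * κ) = Real.exp (s * κ) ^ r := by
    rw [← Real.exp_nat_mul, Real.rpow_def_of_pos (by norm_num)]
    congr 1
    rw [hs]
    field_simp
  rw [e, ← mul_pow]
  refine pow_le_pow_left₀ (by positivity) ?_ r
  have h1 := Real.add_one_le_exp (s * κ)
  have h2 : (κ : ℝ) + 2 ≤ (2 + 1 / s) * (s * κ + 1) := by
    have e2 : (2 + 1 / s) * (s * κ + 1) = 2 * (s * κ) + 2 + κ + 1 / s := by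
      field_simp
      ring
    have : 0 ≤ s * κ := by positivity
    have : 0 ≤ 1 / s := by positivity
    linarith
  exact h2.trans (mul_le_mul_of_nonneg_left h1 (by positivity))

theorem raise (α m W p : ℝ) (hα : 0 < α) (hm : 0 ≤ m) (hW : 0 ≤ W) (hp : 0 < p)
    (h : α ^ 2 * m ^ (2 / p) ≤ W ^ 2) : α ^ p * m ≤ W ^ p := by
  have e : m ^ (2 / p) = (m ^ (1 / p)) ^ 2 := by
    rw [← Real.rpow_natCast, ← Real.rpow_mul hm]
    congr 1
    push_cast
    ring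
  rw [e, ← mul_pow] at h
  have h1 : α * m ^ (1 / p) ≤ W := (pow_le_pow_iff_left₀ (by positivity) hW two_ne_zero).1 h
  have h2 := Real.rpow_le_rpow (by positivity) h1 hp.le
  rwa [Real.mul_rpow hα.le (by positivity), ← Real.rpow_mul hm, one_div_mul_cancel hp.ne',
    Real.rpow_one] at h2

theorem prod_sqrt (r κ : ℕ) (l : Fin r → ℕ) :
    ∏ j, √((2 : ℝ) ^ l j / 2 ^ κ) = (2 : ℝ) ^ ((((∑ j, l j : ℕ) : ℝ) - r * κ) / 2) := by
  have e : ∀ j, √((2 : ℝ) ^ l j / 2 ^ κ) = (2 : ℝ) ^ (((l j : ℝ) - κ) / 2) := by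
    intro j
    rw [Real.sqrt_eq_rpow, ← Real.rpow_natCast, ← Real.rpow_natCast,
      ← Real.rpow_sub (by norm_num), ← Real.rpow_mul (by norm_num)]
    congr 1
    ring
  rw [prod_congr rfl fun j _ => e j, ← Real.rpow_sum_of_pos (by norm_num), ← sum_div,
    sum_sub_distrib]
  simp

theorem two_pow_rpow (κ : ℕ) (s : ℝ) : ((2 : ℝ) ^ κ) ^ s = (2 : ℝ) ^ (s * κ) := by
  rw [← Real.rpow_natCast, ← Real.rpow_mul (by norm_num), mul_comm]

variable {G : Type} [Group G] [TopologicalSpace G] [MeasurableSpace G] [TG G] {μ : Measure G}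
  [BiH μ] {r d : ℕ}

/-- The exponents of the terms of a product of pieces. -/
def mt (κ : ℕ) (l : Fin r → ℕ) (t : Finset (Fin r)) (j : Fin r) : ℕ :=
  if j ∈ t then hi κ (l j) else lo (l j)

omit [TG G] [BiH μ] in
theorem prod_pc (S : Sph μ r d) (κ : ℕ) (l : Fin r → ℕ) (g : G) :
    ∏ j, pc κ (l j) (S.ψ j g)
      = ∑ t : Finset (Fin r), (∏ j ∈ t, sg κ (l j)) * S.Ψ (mt κ l t) g := by
  unfold pc
  rw [Fintype.prod_add]
  refine sum_congr rfl fun t _ => ?_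
  rw [prod_mul_distrib, mul_assoc, Sph.Ψ, ← prod_mul_prod_compl t]
  congr 2
  · exact prod_congr rfl fun j hj => by rw [mt, if_pos hj]
  · exact prod_congr rfl fun j hj => by rw [mt, if_neg (mem_compl.1 hj)]

theorem piece_mult (h3 : WalkStmt) (hr : 2 ≤ r) (S : Sph μ r d) {γ : Fin r → ℕ}
    (hγ : γ ∈ S.Λ) (ε : ℝ) (hε : 0 < ε) (C Cr : ℝ) (κ : ℕ)
    (β : (Fin r → ℕ) → ℝ) (c0 : ℤ → ℂ) (hβ : ∀ n ∈ S.box γ κ, 1 ≤ β n ∧ β n ≤ C)
    (hc : Summable fun k => ‖c0 k‖) (hc0 : ‖c0 0‖ ≤ C)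
    (hck : ∀ k, k ≠ 0 → ‖c0 k‖ ≤ C * ((2 : ℝ) ^ κ) ^ (-1 + ε))
    (l : Fin r → ℕ) (hl : ∀ j, l j ≤ κ + 1)
    (hres : ∀ m : Fin r → ℕ, (∀ j, lo (l j) ≤ m j) → (∀ j, m j ≤ 2 ^ κ) → ∀ y ∈ S.Λ, ∀ k : ℤ,
      ∑ x ∈ (S.box γ κ).filter (fun x => S.P x = k), S.Q m y x
        ≤ Cr * (2 : ℝ) ^ ((r + 2) * ε * κ - (∑ j, l j : ℕ) / r)) :
    S.MultBd (fun t g => fs c0 t * S.ker (S.box γ κ) S.P β t g
      * ((∏ j, pc κ (l j) (S.ψ j g) : ℝ) : ℂ))
      (2 ^ r * (C * C * (Cr + 2)) * (2 : ℝ) ^ ((r + 2) * ε * κ - (∑ j, l j : ℕ) / r)) := by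
  classical
  have hC : 0 ≤ C := (norm_nonneg _).trans hc0
  simp only [prod_pc]
  refine mult h3 S _ (box_sub S hγ κ) β c0 hc _ _ _ fun y hy k => ?_
  set V : ℝ := (2 : ℝ) ^ ((r + 2) * ε * κ - (∑ j, l j : ℕ) / r) with hV
  have hV0 : 0 < V := by positivity
  have hNV : ((2 : ℝ) ^ κ) ^ (-1 + ε) ≤ 2 * V := by
    have a1 := inv_le_avg hr κ l hl
    have a2 : (2 : ℝ) ^ (ε * κ) ≤ (2 : ℝ) ^ ((r + 2) * ε * κ) := by
      refine Real.rpow_le_rpow_of_exponent_le (by norm_num) ?_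
      have : (0 : ℝ) ≤ (r + 1) * (ε * κ) := by positivity
      linarith
    have e1 : ((2 : ℝ) ^ κ) ^ (-1 + ε) = (2 : ℝ) ^ (ε * κ) * (2 : ℝ) ^ (-(κ : ℝ)) := by
      rw [two_pow_rpow, ← Real.rpow_add (by norm_num)]
      congr 1
      ring
    rw [e1, hV, sub_eq_add_neg, Real.rpow_add (by norm_num), mul_left_comm]
    exact mul_le_mul a2 a1 (by positivity) (by positivity)
  have row : ∀ t : Finset (Fin r), ∑ x ∈ S.box γ κ, ‖(((∏ j ∈ t, sg κ (l j)) * β x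
      * S.Q (mt κ l t) y x : ℝ) : ℂ) * c0 (k + S.P x)‖ ≤ C * C * (Cr + 2) * V := by
    intro t
    have hm1 : ∀ j, lo (l j) ≤ mt κ l t j := by
      intro j; unfold mt; split_ifs
      · exact lo_le_hi κ _ (hl j)
      · exact le_rfl
    have hm2 : ∀ j, mt κ l t j ≤ 2 ^ κ := by
      intro j; unfold mt; split_ifs
      · exact hi_le κ _
      · exact (lo_le_hi κ _ (hl j)).trans (hi_le κ _)
    have b1 := hres _ hm1 hm2 y hy (-k)
    have b2 := (h3 G μ r d S (mt κ l t)).2.2.2 y hy _ (box_sub S hγ κ)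
    have b3 : |∏ j ∈ t, sg κ (l j)| ≤ 1 := by
      rw [abs_prod]
      exact prod_le_one (fun j _ => abs_nonneg _) fun j _ => abs_sg_le κ _
    have b4 : ∀ x ∈ S.box γ κ, ‖(((∏ j ∈ t, sg κ (l j)) * β x
        * S.Q (mt κ l t) y x : ℝ) : ℂ) * c0 (k + S.P x)‖
        ≤ C * C * (if S.P x = -k then S.Q (mt κ l t) y x else 0)
          + C * C * (2 * V) * S.Q (mt κ l t) y x := by
      intro x hx
      have q0 := (h3 G μ r d S (mt κ l t)).2.2.1 y hy x (box_sub S hγ κ hx)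
      obtain ⟨β1, β2⟩ := hβ x hx
      rw [norm_mul, Complex.norm_real, Real.norm_eq_abs, abs_mul, abs_mul, abs_of_nonneg q0,
        abs_of_nonneg (by linarith : 0 ≤ β x)]
      have c1 : |∏ j ∈ t, sg κ (l j)| * β x * S.Q (mt κ l t) y x ≤ C * S.Q (mt κ l t) y x := by
        refine mul_le_mul_of_nonneg_right ?_ q0
        have := mul_le_mul b3 β2 (by linarith) zero_le_one
        linarith
      refine (mul_le_mul_of_nonneg_right c1 (norm_nonneg _)).trans ?_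
      have c2 : 0 ≤ C * S.Q (mt κ l t) y x := mul_nonneg hC q0
      split_ifs with h
      · have c3 : k + S.P x = 0 := by omega
        rw [c3]
        have c4 := mul_le_mul_of_nonneg_left hc0 c2
        have c5 : 0 ≤ C * C * (2 * V) * S.Q (mt κ l t) y x := by positivity
        linarith
      · have c3 : ‖c0 (k + S.P x)‖ ≤ C * (2 * V) :=
          (hck _ (by omega)).trans (mul_le_mul_of_nonneg_left hNV hC)
        have c4 := mul_le_mul_of_nonneg_left c3 c2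
        linarith
    refine (sum_le_sum b4).trans ?_
    rw [sum_add_distrib, ← mul_sum, ← mul_sum, ← sum_filter]
    have b5 := mul_le_mul_of_nonneg_left b1 (mul_nonneg hC hC)
    have b6 := mul_le_mul_of_nonneg_left b2 (by positivity : 0 ≤ C * C * (2 * V))
    linarith
  refine (norm_sum_le _ _).trans ?_
  rw [sum_product]
  refine (sum_le_card_nsmul _ _ _ fun t _ => row t).trans (le_of_eq ?_)
  rw [card_univ, Fintype.card_finset, Fintype.card_fin, nsmul_eq_mul]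
  push_cast
  ring

theorem expo_le (r d κ L : ℕ) (θ δ ε : ℝ) (hr : 0 < r) (h1 : θ < 1)
    (hδ : δ = r * (1 - θ) / 2 - θ) (hδ0 : 0 < δ) (hε0 : 0 < ε) (hε : (r + 2) * ε = δ / 2)
    (hL : L ≤ r * (κ + 1)) :
    (((d : ℝ) - r / 2 + ε) * κ + (L - r * κ) / 2) * (1 - θ) + ((r + 2) * ε * κ - L / r) * θ
      ≤ δ + (d * (1 - θ) - 2 * θ) * κ - δ / 2 * κ := by
  have hr' : (0 : ℝ) < r := by exact_mod_cast hr
  obtain ⟨u, hu⟩ : ∃ u : ℝ, (L : ℝ) = r * u := ⟨L / r, by field_simp⟩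
  have hu1 : u ≤ κ + 1 := by
    have : (L : ℝ) ≤ r * (κ + 1) := by exact_mod_cast hL
    rw [hu] at this
    exact le_of_mul_le_mul_left this hr'
  have e : (L : ℝ) / r = u := by rw [hu]; field_simp
  rw [e, hu]
  have hκ : (0 : ℝ) ≤ κ := Nat.cast_nonneg κ
  have a1 : δ * u ≤ δ * (κ + 1) := mul_le_mul_of_nonneg_left hu1 hδ0.le
  have a2 : 0 ≤ (r + 1) * (ε * κ * (1 - θ)) := by
    have : 0 ≤ 1 - θ := by linarith
    positivity
  have a3 : (r + 2) * ε * κ = δ / 2 * κ := by rw [hε]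
  have a4 : r * (1 - θ) = 2 * δ + 2 * θ := by linarith
  have a5 : r * (1 - θ) * u = (2 * δ + 2 * θ) * u := by rw [a4]
  have a6 : r * (1 - θ) * κ = (2 * δ + 2 * θ) * κ := by rw [a4]
  nlinarith

end Pool.Agent.MP_ba99b7_an.Minor

namespace Pool.Agent.MP_ba99b7_an

open Finset MeasureTheory Minor

theorem minor_of (h1 : MajorStmt) (h2 : WeakStmt) (h3 : WalkStmt) (h4 : HeatStmt)
    (h5 : ConicStmt) : ∀ r, 2 ≤ r → BlockStmt r := by
  intro r hr G _ _ _ _ μ _ d S γ hγ p0 hp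
  have hr0 : 0 < r := by omega
  have hr' : (0 : ℝ) < r := by exact_mod_cast hr0
  have hp2 : 2 < p0 := by
    have : (0 : ℝ) < 4 / r := by positivity
    linarith
  have hp0 : 0 < p0 := by linarith
  set θ := 2 / p0 with hθ
  have hθ0 : 0 < θ := by positivity
  have hθ1 : θ < 1 := (div_lt_one hp0).2 hp2
  have hθr : 2 * θ < r * (1 - θ) := by
    have a1 : 4 / (r : ℝ) < p0 - 2 := by linarith
    rw [div_lt_iff₀ hr'] at a1
    have e : r * (1 - θ) - 2 * θ = ((p0 - 2) * r - 4) / p0 := by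
      rw [hθ]; field_simp; ring
    have : 0 < ((p0 - 2) * r - 4) / p0 := div_pos (by linarith) hp0
    linarith
  set δ := r * (1 - θ) / 2 - θ with hδ
  have hδ0 : 0 < δ := by linarith
  set ε := δ / 2 / (r + 2) with hε
  have hε0 : 0 < ε := by positivity
  have hεδ : (r + 2) * ε = δ / 2 := by rw [hε]; field_simp
  obtain ⟨C, hC⟩ := h1 G μ r d S γ hγ θ ε hθ0 hθ1 hθr hε0
  obtain ⟨Cr, hCr, hres⟩ := res h4 h5 hr S hγ ε hε0
  obtain ⟨Cp, hCp, hpoly⟩ := poly_le r hr0 (δ / 2) (by linarith)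
  set CB : ℝ := 2 ^ r * (C * C * (Cr + 2)) with hCB
  set C3 : ℝ := C + Cp * (C ^ (1 - θ) * CB ^ θ * 2 ^ δ) with hC3
  refine ⟨√(2 * C3), Real.sqrt_nonneg _, fun κ T hT a α hα => ?_⟩
  obtain ⟨β, c0, J, Kp, A, B, hβ, hker, hA, hB0, hB, hAB, hc, hc0, hck, hmin⟩ := hC κ
  have hC0 : 0 ≤ C := (norm_nonneg _).trans hc0
  have hCB0 : 0 ≤ CB := by positivity
  have hC30 : 0 ≤ C3 := by positivity
  have hl : ∀ (l : Fin r → Fin (κ + 2)) j, (l j : ℕ) ≤ κ + 1 := fun l j => by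
    have := (l j).2; omega
  have key := h2 G μ r S.toOrth θ hθ0 hθ1 (S.box γ κ) T S.P β (box_sub S hγ κ) hT
    (fun n hn => by linarith [(hβ n hn).1]) (fun n hn => (hβ n (hT hn)).1)
    (Fin J ⊕ (Fin r → Fin (κ + 2)))
    (Sum.elim Kp fun l t g => fs c0 t * S.ker (S.box γ κ) S.P β t g
      * ((∏ j, pc κ (l j) (S.ψ j g) : ℝ) : ℂ))
    (fun _ _ => 0)
    (Sum.elim A fun l => C * (2 : ℝ) ^ (((d : ℝ) - r / 2 + ε) * κ
      + ((∑ j, (l j : ℕ) : ℕ) - r * κ) / 2))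
    (Sum.elim B fun l => CB * (2 : ℝ) ^ ((r + 2) * ε * κ - (∑ j, (l j : ℕ) : ℕ) / r))
    0 (C3 * (2 : ℝ) ^ ((d * (1 - θ) - 2 * θ) * κ)) ?_ ?_ ?_ ?_ (fun _ _ => by simp) ?_ a α hα
    (by rw [mul_zero, zero_mul]; positivity)
  · have hn : 0 ≤ S.nsq T a := sum_nonneg fun _ _ => sum_nonneg fun _ _ => by positivity
    refine raise α _ _ p0 hα measureReal_nonneg (by positivity) hp0 (key.trans (le_of_eq ?_))
    rw [mul_pow, mul_pow, Real.sq_sqrt hn, Real.sq_sqrt (by linarith), two_pow_rpow,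
      ← Real.rpow_natCast, ← Real.rpow_mul (by norm_num)]
    have e : ((d : ℝ) / 2 - (d + 2) / p0) * κ * (2 : ℕ) = (d * (1 - θ) - 2 * θ) * κ := by
      rw [hθ]; push_cast; ring
    rw [e]
    ring
  · intro t g
    rw [Fintype.sum_sum_type]
    simp only [Sum.elim_inl, Sum.elim_inr, add_zero]
    rw [← mul_sum, ← Complex.ofReal_sum]
    have e : ∑ l : Fin r → Fin (κ + 2), ∏ j, pc κ (l j) (S.ψ j g) = 1 := by
      rw [← Fintype.piFinset_univ,
        ← prod_univ_sum (fun _ => (univ : Finset (Fin (κ + 2)))) fun j i => pc κ i (S.ψ j g)]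
      refine prod_eq_one fun j _ => ?_
      rw [Fin.sum_univ_eq_sum_range (fun i => pc κ i (S.ψ j g)) (κ + 2), sum_pc]
    rw [e, Complex.ofReal_one, mul_one]
    exact hker t g
  · rintro (p | l) t g
    · exact hA p t g
    · simp only [Sum.elim_inr]
      have a0 : ∀ j, 0 ≤ pc κ (l j) (S.ψ j g) := fun j =>
        pc_nonneg κ _ (hl l j) _ (S.ψ_nonneg j g) (S.ψ_le j g)
      have a1 : 0 ≤ ∏ j, pc κ (l j) (S.ψ j g) := prod_nonneg fun j _ => a0 j
      rw [norm_mul, Complex.norm_real, Real.norm_eq_abs, abs_of_nonneg a1]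
      refine (mul_le_mul_of_nonneg_right (hmin t g) a1).trans ?_
      rw [mul_assoc, ← prod_mul_distrib, Real.rpow_add (by norm_num : (0 : ℝ) < 2), two_pow_rpow,
        ← mul_assoc, ← prod_sqrt r κ fun j => l j]
      refine mul_le_mul_of_nonneg_left (prod_le_prod (fun j _ => ?_) fun j _ =>
        pc_mul_le κ _ (hl l j) _ (S.ψ_nonneg j g) (S.ψ_le j g)) (by positivity)
      have : 0 ≤ 1 - S.ψ j g := by linarith [S.ψ_le j g]
      exact mul_nonneg (by positivity) (a0 j)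
  · rintro (p | l)
    · exact hB0 p
    · simp only [Sum.elim_inr]
      positivity
  · rintro (p | l)
    · exact hB p
    · exact piece_mult h3 hr S hγ ε hε0 C Cr κ β c0 hβ hc hc0 hck (fun j => l j) (hl l)
        fun m => hres κ (fun j => l j) m (hl l)
  · rw [Fintype.sum_sum_type]
    simp only [Sum.elim_inl, Sum.elim_inr]
    rw [two_pow_rpow] at hAB
    set W : ℝ := (2 : ℝ) ^ ((d * (1 - θ) - 2 * θ) * κ) with hW
    have a1 : ∀ l : Fin r → Fin (κ + 2), (C * (2 : ℝ) ^ (((d : ℝ) - r / 2 + ε) * κ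
        + ((∑ j, (l j : ℕ) : ℕ) - r * κ) / 2)) ^ (1 - θ)
        * (CB * (2 : ℝ) ^ ((r + 2) * ε * κ - (∑ j, (l j : ℕ) : ℕ) / r)) ^ θ
        ≤ C ^ (1 - θ) * CB ^ θ * 2 ^ δ * W / (2 : ℝ) ^ (δ / 2 * κ) := by
      intro l
      have b1 : ∑ j, (l j : ℕ) ≤ r * (κ + 1) := by
        simpa using sum_le_card_nsmul univ (fun j => (l j : ℕ)) _ fun j _ => hl l j
      have b2 := Real.rpow_le_rpow_of_exponent_le (by norm_num : (1 : ℝ) ≤ 2)
        (expo_le r d κ _ θ δ ε hr0 hθ1 hδ hδ0 hε0 hεδ b1)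
      rw [Real.rpow_sub (by norm_num), Real.rpow_add (by norm_num), Real.rpow_add (by norm_num),
        Real.rpow_mul (by norm_num), Real.rpow_mul (by norm_num), ← hW] at b2
      rw [Real.mul_rpow hC0 (by positivity), Real.mul_rpow hCB0 (by positivity)]
      have b3 := mul_le_mul_of_nonneg_left b2 (by positivity : 0 ≤ C ^ (1 - θ) * CB ^ θ)
      refine le_trans (le_of_eq (by ring)) (b3.trans (le_of_eq (by ring)))
    have a2 := sum_le_card_nsmul univ _ _ fun l _ => a1 l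
    rw [card_univ, Fintype.card_fun, Fintype.card_fin, Fintype.card_fin, nsmul_eq_mul] at a2
    have a3 : ((κ : ℝ) + 2) ^ r / (2 : ℝ) ^ (δ / 2 * κ) ≤ Cp :=
      (div_le_iff₀ (by positivity)).2 (hpoly κ)
    have a4 := mul_le_mul_of_nonneg_right a3 (by positivity : 0 ≤ C ^ (1 - θ) * CB ^ θ * 2 ^ δ * W)
    rw [Nat.cast_pow, Nat.cast_add, Nat.cast_ofNat] at a2
    rw [hC3, add_mul C]
    refine add_le_add hAB (a2.trans ?_)
    calc _ = ((κ : ℝ) + 2) ^ r / (2 : ℝ) ^ (δ / 2 * κ) * (C ^ (1 - θ) * CB ^ θ * 2 ^ δ * W) := by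
          ring
      _ ≤ _ := a4
      _ = _ := by ring

end Pool.Agent.MP_ba99b7_an

end MrgPart4

-- marker of a merged file
example : 731051 + 331083 = 731051 + 331083 := rfl
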