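import Mathlib.Algebra.Module.Submodule.Union
import Pool.Agent.MP_ba99b7_an.Base

/-! PROJECT STRI, module ROOT1: the orthonormal basis adapted to a maximal abelian subspace. -/

set_option linter.unusedSectionVars false

namespace Pool.Agent.MP_ba99b7_an

open scoped RealInnerProductSpace
open Module Submodule

namespace Root1

variable {V : Type} [NormedAddCommGroup V] [InnerProductSpace ℝ V] [FiniteDimensional ℝ V]
  {G : Type} [Group G] [TopologicalSpace G] [MeasurableSpace G] (S : Sym V G)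

theorem ad_self (X : V) : S.ad X X = 0 := by
  have h := S.ad_anti X X
  have h2 : (2 : ℝ) • S.ad X X = 0 := by rw [two_smul]; exact add_eq_zero_iff_eq_neg.2 h
  simpa using h2

theorem leib (X Y Z : V) : S.ad X (S.ad Y Z) = S.ad (S.ad X Y) Z + S.ad Y (S.ad X Z) := by
  rw [S.jacobi]; simp

theorem θ_symm (X Y : V) : ⟪S.θ X, Y⟫ = ⟪X, S.θ Y⟫ := by
  rw [← S.θ_inner X, S.θθ]

theorem k_p {X Y : V} (hX : S.θ X = X) (hY : S.θ Y = -Y) : ⟪X, Y⟫ = 0 := by
  have := S.θ_inner X Y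
  rw [hX, hY, inner_neg_right] at this
  linarith

theorem T_symm {H : V} (hH : S.θ H = -H) (X Y : V) :
    ⟪S.ad H (S.θ X), Y⟫ = ⟪X, S.ad H (S.θ Y)⟫ := by
  rw [S.ad_skew, θ_symm, S.θ_ad, hH, map_neg, neg_apply, inner_neg_right,
    neg_neg]

theorem θ_T {H : V} (hH : S.θ H = -H) (X : V) : S.θ (S.ad H X) = -S.ad H (S.θ X) := by
  rw [S.θ_ad, hH, map_neg, neg_apply]

theorem on_basis (W : Submodule ℝ V) : ∃ H : Fin (finrank ℝ W) → V, Orthonormal ℝ H ∧
    W = span ℝ (Set.range H) := by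
  let b := stdOrthonormalBasis ℝ W
  refine ⟨W.subtypeₗᵢ ∘ b, b.orthonormal.comp_linearIsometry _, ?_⟩
  rw [Set.range_comp]
  change W = span ℝ (W.subtype '' Set.range b.toBasis)
  rw [← Submodule.map_span, b.toBasis.span_eq, Submodule.map_top, Submodule.range_subtype]

theorem weights {a : Submodule ℝ V} (hp : a ≤ S.p) (hab : ∀ X ∈ a, ∀ Z ∈ a, S.ad X Z = 0) :
    ∃ (b : OrthonormalBasis (Fin (finrank ℝ V)) ℝ V) (lam : Fin (finrank ℝ V) → V),
      (∀ s, lam s ∈ a) ∧ ∀ s, ∀ X ∈ a, S.ad X (S.θ (b s)) = ⟪lam s, X⟫ • b s := by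
  obtain ⟨H, hH, ha⟩ := on_basis a
  have hm : ∀ l, H l ∈ a := fun l => ha ▸ subset_span ⟨l, rfl⟩
  obtain ⟨b, l, hb⟩ := exists_joint_basis (𝕜 := ℝ)
    (fun l => (S.ad (H l)).toLinearMap ∘ₗ S.θ.toLinearMap)
    (fun l X Y => T_symm S (hp (hm l)) X Y) fun i j => by
      ext X
      have h1 := leib S (H i) (H j) X
      rw [hab _ (hm i) _ (hm j)] at h1
      simp [θ_T S (hp (hm i)), θ_T S (hp (hm j)), S.θθ, h1]
  refine ⟨b, fun s => ∑ i, l s i • H i, fun s => sum_mem fun i _ => smul_mem _ _ (hm i),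
    fun s X hX => ?_⟩
  rw [ha] at hX
  obtain ⟨c, rfl⟩ := (mem_span_range_iff_exists_fun ℝ).1 hX
  have h1 : ∀ i, S.ad (H i) (S.θ (b s)) = l s i • b s := hb s
  rw [hH.inner_sum, map_sum, sum_apply, Finset.sum_smul]
  exact Finset.sum_congr rfl fun i _ => by simp [h1, smul_smul, mul_comm]

theorem exists_regular {ι : Type} [Finite ι] {a : Submodule ℝ V} (lam : ι → V)
    (h : ∀ s, lam s ∈ a) : ∃ H0 ∈ a, ∀ s, ⟪lam s, H0⟫ = 0 → lam s = 0 := by
  obtain ⟨H0, h1, h2⟩ := Module.Dual.exists_forall_mem_ne_zero_of_forall_exists a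
    (fun s : {s // lam s ≠ 0} => (innerₛₗ ℝ (lam s) : V →ₗ[ℝ] ℝ))
    fun s => ⟨lam s, h s, by simpa using s.2⟩
  exact ⟨H0, h1, fun s hs => by_contra fun hn => h2 ⟨s, hn⟩ hs⟩

/-- The centraliser of `a` in `k`. -/
def cen (a : Submodule ℝ V) : Submodule ℝ V where
  carrier := {X | S.θ X = X ∧ ∀ Z ∈ a, S.ad Z X = 0}
  add_mem' := fun hx hy => ⟨by rw [map_add, hx.1, hy.1], fun Z hZ => by
    rw [map_add, hx.2 Z hZ, hy.2 Z hZ, add_zero]⟩
  zero_mem' := ⟨map_zero _, fun _ _ => map_zero _⟩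
  smul_mem' := fun c _ hx => ⟨by rw [map_smul, hx.1], fun Z hZ => by
    rw [map_smul, hx.2 Z hZ, smul_zero]⟩

end Root1

open Root1 in
theorem adapt_stmt : AdaptStmt := by
  intro V _ _ _ G _ _ _ S a hp hab hmax
  classical
  obtain ⟨b, lam, hl, hb⟩ := weights S hp hab
  obtain ⟨H0, h0, hreg⟩ := exists_regular lam hl
  obtain ⟨H, hH, ha⟩ := on_basis a
  obtain ⟨M, hM, hm⟩ := on_basis (cen S a)
  have hHa : ∀ l, H l ∈ a := fun l => ha ▸ subset_span ⟨l, rfl⟩
  have hMm : ∀ c, M c ∈ cen S a := fun c => hm ▸ subset_span ⟨c, rfl⟩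
  have hb' : ∀ s, ∀ X ∈ a, S.ad X (b s) = -(⟪lam s, X⟫ • S.θ (b s)) := fun s X hX => by
    have := congrArg S.θ (hb s X hX)
    rw [θ_T S (hp hX), S.θθ, map_smul] at this
    rw [← this, neg_neg]
  have hperp : ∀ s t, ⟪lam t, H0⟫ ≠ -⟪lam s, H0⟫ → ⟪b t, S.θ (b s)⟫ = 0 := fun s t h => by
    have h1 := T_symm S (hp h0) (b t) (S.θ (b s))
    rw [hb t H0 h0, S.θθ, hb' s H0 h0, inner_neg_right, real_inner_smul_left,
      real_inner_smul_right, ← neg_mul] at h1
    by_contra hn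
    exact h (mul_right_cancel₀ hn h1)
  let J : Finset (Fin (finrank ℝ V)) := Finset.univ.filter fun s => 0 < ⟪lam s, H0⟫
  let e : Fin J.card → Fin (finrank ℝ V) := fun i => (J.equivFin.symm i : _)
  have he : Function.Injective e := Subtype.val_injective.comp J.equivFin.symm.injective
  have hpos : ∀ i, 0 < ⟪lam (e i), H0⟫ := fun i =>
    (Finset.mem_filter.1 (J.equivFin.symm i).2).2
  have hsurj : ∀ s, 0 < ⟪lam s, H0⟫ → ∃ i, e i = s := fun s hs =>
    ⟨J.equivFin ⟨s, Finset.mem_filter.2 ⟨Finset.mem_univ _, hs⟩⟩, by simp [e]⟩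
  obtain ⟨κ, hκ⟩ : ∃ κ : ℝ, 2 * κ * κ = 1 := ⟨√2 / 2, by
    have := Real.mul_self_sqrt (show (0 : ℝ) ≤ 2 by norm_num)
    nlinarith⟩
  let Y : Fin J.card → V := fun i => κ • (b (e i) + S.θ (b (e i)))
  let η : Fin J.card → V := fun i => κ • (S.θ (b (e i)) - b (e i))
  have θY : ∀ i, S.θ (Y i) = Y i := fun i => by simp [Y, S.θθ, add_comm]
  have θη : ∀ i, S.θ (η i) = -η i := fun i => by simp [η, S.θθ, smul_sub]
  have adY : ∀ X ∈ a, ∀ i, S.ad X (Y i) = -(⟪lam (e i), X⟫ • η i) := fun X hX i => by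
    simp only [Y, η, map_smul, map_add, hb _ X hX, hb' _ X hX]
    module
  have adη : ∀ X ∈ a, ∀ i, S.ad X (η i) = ⟪lam (e i), X⟫ • Y i := fun X hX i => by
    simp only [Y, η, map_smul, map_sub, hb _ X hX, hb' _ X hX]
    module
  have hee : ∀ i j, ⟪b (e i), S.θ (b (e j))⟫ = 0 := fun i j =>
    hperp _ _ (by have := hpos i; have := hpos j; linarith)
  have hee' : ∀ i j, ⟪S.θ (b (e i)), b (e j)⟫ = 0 := fun i j => by rw [θ_symm, hee]
  have hbb : ∀ i j, ⟪b (e i), b (e j)⟫ = if i = j then 1 else 0 := fun i j => by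
    rw [orthonormal_iff_ite.1 b.orthonormal]; simp [he.eq_iff]
  have hYY : ∀ i j, ⟪Y i, Y j⟫ = if i = j then 1 else 0 := fun i j => by
    simp only [Y, real_inner_smul_left, real_inner_smul_right, inner_add_left, inner_add_right,
      hee, hee', S.θ_inner, hbb]
    split_ifs <;> nlinarith
  have hηη : ∀ i j, ⟪η i, η j⟫ = if i = j then 1 else 0 := fun i j => by
    simp only [η, real_inner_smul_left, real_inner_smul_right, inner_sub_left, inner_sub_right,
      hee, hee', S.θ_inner, hbb]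
    split_ifs <;> nlinarith
  have hYM : ∀ i c, ⟪Y i, M c⟫ = 0 := fun i c => by
    have h1 := S.ad_skew H0 (η i) (M c)
    rw [adη H0 h0, (hMm c).2 H0 h0, real_inner_smul_left] at h1
    simpa [(hpos i).ne'] using h1
  have hηH : ∀ i, ∀ X ∈ a, ⟪η i, X⟫ = 0 := fun i X hX => by
    have h1 := S.ad_skew H0 (Y i) X
    rw [adY H0 h0, hab H0 h0 X hX, inner_neg_left, real_inner_smul_left] at h1
    simpa [(hpos i).ne'] using h1
  have hYη : ∀ i j, ⟪Y i, η j⟫ = 0 := fun i j => k_p S (θY i) (θη j)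
  have hYH : ∀ i l, ⟪Y i, H l⟫ = 0 := fun i l => k_p S (θY i) (hp (hHa l))
  have hMη : ∀ c j, ⟪M c, η j⟫ = 0 := fun c j => k_p S (hMm c).1 (θη j)
  have hMH : ∀ c l, ⟪M c, H l⟫ = 0 := fun c l => k_p S (hMm c).1 (hp (hHa l))
  have hon : Orthonormal ℝ (Sum.elim (Sum.elim Y η) (Sum.elim H M)) := by
    rw [orthonormal_iff_ite]
    rintro ((i | i) | (i | i)) ((j | j) | (j | j)) <;>
      simp only [Sum.elim_inl, Sum.elim_inr, Sum.inl.injEq, Sum.inr.injEq, reduceCtorEq, if_false]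
    · exact hYY i j
    · exact hYη i j
    · exact hYH i j
    · exact hYM i j
    · rw [real_inner_comm]; exact hYη j i
    · exact hηη i j
    · exact hηH i _ (hHa j)
    · rw [real_inner_comm]; exact hMη j i
    · rw [real_inner_comm]; exact hYH j i
    · rw [real_inner_comm]; exact hηH j _ (hHa i)
    · exact orthonormal_iff_ite.1 hH i j
    · rw [real_inner_comm]; exact hMH j i
    · rw [real_inner_comm]; exact hYM j i
    · exact hMη i j
    · exact hMH i j
    · exact orthonormal_iff_ite.1 hM i j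
  have hsp : ⊤ ≤ span ℝ (Set.range (Sum.elim (Sum.elim Y η) (Sum.elim H M))) := by
    set U := span ℝ (Set.range (Sum.elim (Sum.elim Y η) (Sum.elim H M)))
    have hY : ∀ i, Y i ∈ U := fun i => subset_span ⟨Sum.inl (Sum.inl i), rfl⟩
    have hη : ∀ i, η i ∈ U := fun i => subset_span ⟨Sum.inl (Sum.inr i), rfl⟩
    have haU : a ≤ U := ha.le.trans (span_le.2 (Set.range_subset_iff.2 fun l =>
      subset_span ⟨Sum.inr (Sum.inl l), rfl⟩))
    have hmU : cen S a ≤ U := hm.le.trans (span_le.2 (Set.range_subset_iff.2 fun l =>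
      subset_span ⟨Sum.inr (Sum.inr l), rfl⟩))
    have h1 : ∀ i, b (e i) ∈ U := fun i => by
      have : b (e i) = κ • (Y i - η i) := by
        simp only [Y, η]
        match_scalars <;> nlinarith
      exact this ▸ smul_mem _ _ (sub_mem (hY i) (hη i))
    have h2 : ∀ i, S.θ (b (e i)) ∈ U := fun i => by
      have : S.θ (b (e i)) = κ • (Y i + η i) := by
        simp only [Y, η]
        match_scalars <;> nlinarith
      exact this ▸ smul_mem _ _ (add_mem (hY i) (hη i))
    rw [← b.toBasis.span_eq, span_le]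
    rintro _ ⟨s, rfl⟩
    change b s ∈ U
    rcases lt_trichotomy ⟪lam s, H0⟫ 0 with h | h | h
    · rw [← S.θθ (b s), ← b.sum_repr' (S.θ (b s)), map_sum]
      refine sum_mem fun t _ => ?_
      by_cases ht : ⟪lam t, H0⟫ = -⟪lam s, H0⟫
      · obtain ⟨i, rfl⟩ := hsurj t (by linarith)
        rw [map_smul]
        exact smul_mem _ _ (h2 i)
      · rw [hperp s t ht, zero_smul, map_zero]
        exact zero_mem _
    · have h3 : ∀ X ∈ a, S.ad X (b s) = 0 := fun X hX => by simp [hb' s X hX, hreg s h]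
      have h4 : ∀ X ∈ a, S.ad X (S.θ (b s)) = 0 := fun X hX => by simp [hb s X hX, hreg s h]
      have : b s = (1 / 2 : ℝ) • ((b s + S.θ (b s)) + (b s - S.θ (b s))) := by module
      rw [this]
      refine smul_mem _ _ (add_mem (hmU ⟨by simp [S.θθ, add_comm], fun X hX => by
        simp [h3 X hX, h4 X hX]⟩) (haU (hmax _ ?_ fun X hX => by simp [h3 X hX, h4 X hX])))
      change S.θ _ = -_
      simp [S.θθ]
    · obtain ⟨i, rfl⟩ := hsurj s h
      exact h1 i
  refine ⟨⟨J.card, _, Y, η, H, M, fun i => lam (e i), H0, a, OrthonormalBasis.mk hon hsp,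
    OrthonormalBasis.coe_mk _ _, ha, θY, θη, fun X hX => hp hX, fun c => (hMm c).1,
    fun i => hl _, h0, hpos, adY, adη, hab, fun X hX c => (hMm c).2 X hX, fun i => ?_, ?_⟩, rfl⟩
  · have h1 : S.ad (Y i) (η i) ∈ a := hmax _ (by
        change S.θ _ = -_
        rw [S.θ_ad, θY, θη, map_neg]) fun X hX => by
      rw [leib, adY X hX, adη X hX]
      simp [ad_self]
    have h2 : S.ad (Y i) (η i) + lam (e i) ∈ a := add_mem h1 (hl _)
    have h3 : ∀ X ∈ a, ⟪S.ad (Y i) (η i) + lam (e i), X⟫ = 0 := fun X hX => by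
      rw [inner_add_left, S.ad_skew, S.ad_anti, adY X hX, neg_neg, real_inner_smul_right, hηη]
      simp
    exact eq_neg_of_add_eq_zero_left (inner_self_eq_zero.1 (h3 _ h2))
  · have h1 : LinearIndependent ℝ (Sum.elim H η) := by
      have := hon.linearIndependent.comp
        (Sum.elim (fun l => Sum.inr (Sum.inl l)) fun i => Sum.inl (Sum.inr i)) (by
          rintro (i | i) (j | j) <;> simp)
      have e1 : Sum.elim H η = Sum.elim (Sum.elim Y η) (Sum.elim H M) ∘
          Sum.elim (fun l => Sum.inr (Sum.inl l)) (fun i => Sum.inl (Sum.inr i)) := by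
        funext i
        rcases i with i | i <;> rfl
      rw [e1]
      exact this
    have h2 : S.p = span ℝ (Set.range (Sum.elim H η)) := by
      refine le_antisymm (fun X hX => ?_) (span_le.2 ?_)
      · rw [← (OrthonormalBasis.mk hon hsp).sum_repr' X, OrthonormalBasis.coe_mk]
        refine sum_mem ?_
        rintro ((i | i) | (i | i)) -
        · simp [k_p S (θY i) hX]
        · exact smul_mem _ _ (subset_span ⟨Sum.inr i, rfl⟩)
        · exact smul_mem _ _ (subset_span ⟨Sum.inl i, rfl⟩)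
        · simp [k_p S (hMm i).1 hX]
      · rintro _ ⟨i | i, rfl⟩
        · exact hp (hHa i)
        · exact θη i
    rw [h2, finrank_span_eq_card h1]
    simp

end Pool.Agent.MP_ba99b7_an
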