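import Mathlib.LinearAlgebra.QuadraticForm.Dual
import Mathlib.Analysis.InnerProductSpace.Trace
import Pool.Agent.MP_ba99b7_an.Base

/-! PROJECT STRI, module ROOT2, first half: weights, simple roots, the dual basis. -/

set_option linter.unusedSectionVars false

namespace Pool.Agent.MP_ba99b7_an.Root2

open scoped RealInnerProductSpace
open Module Submodule

variable {V : Type} [NormedAddCommGroup V] [InnerProductSpace ℝ V] [FiniteDimensional ℝ V]
  {G : Type} [Group G] [TopologicalSpace G] [MeasurableSpace G] [TG G]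
  {S : Sym V G} {r : ℕ} (R : Adapt S r)

theorem B_Y (i : Fin R.m) : R.B (Sum.inl (Sum.inl i)) = R.Y i := by rw [R.hB]; rfl

theorem B_η (i : Fin R.m) : R.B (Sum.inl (Sum.inr i)) = R.η i := by rw [R.hB]; rfl

theorem B_H (i : Fin r) : R.B (Sum.inr (Sum.inl i)) = R.H i := by rw [R.hB]; rfl

theorem B_M (i : Fin R.q) : R.B (Sum.inr (Sum.inr i)) = R.M i := by rw [R.hB]; rfl

theorem Y_Y (i : Fin R.m) : ⟪R.Y i, R.Y i⟫ = 1 := by
  rw [← B_Y, real_inner_self_eq_norm_sq, R.B.orthonormal.1, one_pow]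

theorem η_η (i : Fin R.m) : ⟪R.η i, R.η i⟫ = 1 := by
  rw [← B_η, real_inner_self_eq_norm_sq, R.B.orthonormal.1, one_pow]

theorem skew' (X Y Z : V) : ⟪Y, S.ad X Z⟫ = -⟪S.ad X Y, Z⟫ := by
  rw [S.ad_skew, neg_neg]

theorem al_ne (i : Fin R.m) : R.al i ≠ 0 := fun h => by
  have := R.pos i
  rw [h, inner_zero_left] at this
  exact lt_irrefl _ this

theorem finrank_a : finrank ℝ R.a = r := by
  have h : LinearIndependent ℝ R.H := by
    have h1 := R.B.orthonormal.linearIndependent.comp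
      (fun i : Fin r => (Sum.inr (Sum.inl i) : (Fin R.m ⊕ Fin R.m) ⊕ (Fin r ⊕ Fin R.q)))
      (fun a b hab => by simpa using hab)
    have h2 : (⇑R.B ∘ fun i : Fin r =>
      (Sum.inr (Sum.inl i) : (Fin R.m ⊕ Fin R.m) ⊕ (Fin r ⊕ Fin R.q))) = R.H :=
      funext fun i => B_H R i
    rwa [h2] at h1
  rw [R.a_eq, finrank_span_eq_card h, Fintype.card_fin]

/-- The Killing form on `a`. -/
theorem killing_a {X X' : V} (hX : X ∈ R.a) (hX' : X' ∈ R.a) :
    ⟪X, X'⟫ = 2 * ∑ i, ⟪R.al i, X⟫ * ⟪R.al i, X'⟫ := by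
  have h := S.killing X X'
  rw [LinearMap.trace_eq_sum_inner _ R.B] at h
  simp only [Fintype.sum_sum_type, B_Y, B_η, B_H, B_M, ContinuousLinearMap.coe_coe,
    mul_apply_eq_comp, R.adY X' hX', R.adη X' hX', R.adM X' hX',
    R.adH X' hX' _ (R.H_mem _), map_neg, map_smul, R.adY X hX, R.adη X hX, map_zero,
    inner_zero_right, Finset.sum_const_zero, add_zero, inner_neg_right, inner_smul_right,
    Y_Y, η_η, mul_one, smul_neg, Finset.sum_neg_distrib] at h
  have h2 : ∑ i, ⟪R.al i, X'⟫ * ⟪R.al i, X⟫ = ∑ i, ⟪R.al i, X⟫ * ⟪R.al i, X'⟫ :=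
    Finset.sum_congr rfl fun i _ => mul_comm _ _
  linarith

theorem eq_zero_of_perp {X : V} (hX : X ∈ R.a) (h : ∀ i, ⟪R.al i, X⟫ = 0) : X = 0 := by
  have := killing_a R hX hX
  simp only [h, mul_zero, Finset.sum_const_zero] at this
  exact inner_self_eq_zero.1 this

/-- The centraliser of `H0` in `p` is `a`. -/
theorem mem_a {X : V} (hθ : S.θ X = -X) (h : S.ad R.H0 X = 0) : X ∈ R.a := by
  have h1 : ∀ i, ⟪R.η i, X⟫ = 0 := fun i => by
    have h2 : ⟪R.Y i, S.ad R.H0 X⟫ = 0 := by rw [h, inner_zero_right]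
    rw [skew', R.adY _ R.H0_mem, inner_neg_left, neg_neg, real_inner_smul_left] at h2
    exact (mul_eq_zero.1 h2).resolve_left (R.pos i).ne'
  have h3 := R.expand X
  simp only [h1, fun i => S.inner_k_p (R.θY i) hθ, fun c => S.inner_k_p (R.θM c) hθ, zero_smul,
    Finset.sum_const_zero, zero_add, add_zero] at h3
  rw [h3]
  exact sum_mem fun l _ => smul_mem _ _ (R.H_mem l)

/-- The weights of `a` are `0` and `± al i`. -/
theorem weight_cases {lam u v : V} (hl : lam ∈ R.a)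
    (hu : ∀ X ∈ R.a, S.ad X u = -(⟪lam, X⟫ • v)) (hv : ∀ X ∈ R.a, S.ad X v = ⟪lam, X⟫ • u)
    (h0 : lam ≠ 0) (h1 : ∀ i, lam ≠ R.al i) (h2 : ∀ i, lam ≠ -R.al i) : u = 0 ∧ v = 0 := by
  have hll : ⟪lam, lam⟫ ≠ 0 := fun h => h0 (inner_self_eq_zero.1 h)
  have hz : ∀ Z, S.ad lam Z = 0 → ⟪Z, u⟫ = 0 ∧ ⟪Z, v⟫ = 0 := fun Z hZ => by
    have a1 := skew' (S := S) lam Z u
    have a2 := skew' (S := S) lam Z v
    rw [hZ, inner_zero_left, neg_zero] at a1 a2
    rw [hu _ hl, inner_neg_right, inner_smul_right, neg_eq_zero] at a1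
    rw [hv _ hl, inner_smul_right] at a2
    exact ⟨(mul_eq_zero.1 a2).resolve_left hll, (mul_eq_zero.1 a1).resolve_left hll⟩
  have hp : ∀ i, (⟪R.Y i, u⟫ = 0 ∧ ⟪R.η i, u⟫ = 0) ∧ ⟪R.Y i, v⟫ = 0 ∧ ⟪R.η i, v⟫ = 0 := by
    intro i
    have key : ∀ X ∈ R.a, ⟪R.al i, X⟫ * ⟪R.η i, u⟫ = -(⟪lam, X⟫ * ⟪R.Y i, v⟫) ∧
        ⟪R.al i, X⟫ * ⟪R.Y i, u⟫ = ⟪lam, X⟫ * ⟪R.η i, v⟫ ∧
        ⟪R.al i, X⟫ * ⟪R.η i, v⟫ = ⟪lam, X⟫ * ⟪R.Y i, u⟫ ∧
        ⟪R.al i, X⟫ * ⟪R.Y i, v⟫ = -(⟪lam, X⟫ * ⟪R.η i, u⟫) := fun X hX => by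
      have a1 := skew' (S := S) X (R.Y i) u
      have a2 := skew' (S := S) X (R.η i) u
      have a3 := skew' (S := S) X (R.Y i) v
      have a4 := skew' (S := S) X (R.η i) v
      simp only [hu X hX, hv X hX, R.adY X hX, R.adη X hX, inner_neg_right, inner_neg_left,
        inner_smul_right, real_inner_smul_left, neg_neg] at a1 a2 a3 a4
      exact ⟨by linarith, by linarith, by linarith, by linarith⟩
    obtain ⟨b1, b2, b3, b4⟩ := key (lam - R.al i) (sub_mem hl (R.al_mem i))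
    obtain ⟨c1, c2, c3, c4⟩ := key (lam + R.al i) (add_mem hl (R.al_mem i))
    have hm : ⟪lam, lam - R.al i⟫ - ⟪R.al i, lam - R.al i⟫ ≠ 0 := by
      rw [← inner_sub_left]
      exact fun h => h1 i (sub_eq_zero.1 (inner_self_eq_zero.1 h))
    have hq : ⟪lam, lam + R.al i⟫ + ⟪R.al i, lam + R.al i⟫ ≠ 0 := by
      rw [← inner_add_left]
      exact fun h => h2 i (eq_neg_of_add_eq_zero_left (inner_self_eq_zero.1 h))
    have e1 : ⟪R.Y i, u⟫ + ⟪R.η i, v⟫ = 0 :=
      (mul_eq_zero.1 (by linarith : _ * (⟪R.Y i, u⟫ + ⟪R.η i, v⟫) = 0)).resolve_left hm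
    have e2 : ⟪R.η i, u⟫ - ⟪R.Y i, v⟫ = 0 :=
      (mul_eq_zero.1 (by linarith : _ * (⟪R.η i, u⟫ - ⟪R.Y i, v⟫) = 0)).resolve_left hm
    have e3 : ⟪R.Y i, u⟫ - ⟪R.η i, v⟫ = 0 :=
      (mul_eq_zero.1 (by linarith : _ * (⟪R.Y i, u⟫ - ⟪R.η i, v⟫) = 0)).resolve_left hq
    have e4 : ⟪R.η i, u⟫ + ⟪R.Y i, v⟫ = 0 :=
      (mul_eq_zero.1 (by linarith : _ * (⟪R.η i, u⟫ + ⟪R.Y i, v⟫) = 0)).resolve_left hq
    exact ⟨⟨by linarith, by linarith⟩, by linarith, by linarith⟩
  have hH := fun l => hz (R.H l) (R.adH _ hl _ (R.H_mem l))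
  have hM := fun c => hz (R.M c) (R.adM _ hl c)
  constructor
  · rw [R.expand u]
    simp [fun i => (hp i).1.1, fun i => (hp i).1.2, fun l => (hH l).1, fun c => (hM c).1]
  · rw [R.expand v]
    simp [fun i => (hp i).2.1, fun i => (hp i).2.2, fun l => (hH l).2, fun c => (hM c).2]

/-- Two roots with a positive inner product differ by a weight. -/
theorem sub_root {i j : Fin R.m} (h : 0 < ⟪R.al i, R.al j⟫) (hne : R.al i ≠ R.al j) :
    ∃ k, R.al i - R.al j = R.al k ∨ R.al i - R.al j = -R.al k := by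
  by_contra hc
  push Not at hc
  obtain ⟨h1, h2⟩ := weight_cases R (lam := R.al i - R.al j)
    (u := S.ad (R.Y j) (R.Y i) + S.ad (R.η j) (R.η i))
    (v := S.ad (R.Y j) (R.η i) - S.ad (R.η j) (R.Y i)) (sub_mem (R.al_mem i) (R.al_mem j))
    (fun X hX => by
      rw [map_add, S.ad_leibniz X (R.Y j), S.ad_leibniz X (R.η j)]
      simp only [R.adY X hX, R.adη X hX, map_neg, map_smul, neg_apply,
        smul_apply, inner_sub_left]
      module)
    (fun X hX => by
      rw [map_sub, S.ad_leibniz X (R.Y j), S.ad_leibniz X (R.η j)]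
      simp only [R.adY X hX, R.adη X hX, map_neg, map_smul, neg_apply,
        smul_apply, inner_sub_left]
      module)
    (sub_ne_zero.2 hne) (fun k => (hc k).1) (fun k => (hc k).2)
  have e1 : S.ad (R.Y j) (R.Y i) = -S.ad (R.η j) (R.η i) := eq_neg_of_add_eq_zero_left h1
  have e2 : S.ad (R.Y j) (R.η i) = S.ad (R.η j) (R.Y i) := sub_eq_zero.1 h2
  have e3 := S.ad_leibniz (R.Y j) (R.η j) (R.η i)
  rw [R.Yη, map_neg, neg_apply, R.adη _ (R.al_mem j)] at e3
  have e4 := congrArg (fun Z => ⟪R.Y i, Z⟫) e3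
  simp only [inner_add_right, inner_neg_right, inner_smul_right, Y_Y] at e4
  rw [skew' (R.Y j), skew' (R.η j) (R.Y i), e1, e2, inner_neg_left] at e4
  have n1 := real_inner_self_nonneg (x := S.ad (R.η j) (R.η i))
  have n2 := real_inner_self_nonneg (x := S.ad (R.η j) (R.Y i))
  linarith

/-- Simple roots. -/
theorem exists_simple : ∃ (sr : Fin r → Fin R.m) (co : Fin R.m → Fin r → ℕ),
    Function.Injective sr ∧ ∀ i, R.al i = ∑ j, (co i j : ℝ) • R.al (sr j) := by
  classical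
  let T := {i : Fin R.m // (¬∃ j k, R.al i = R.al j + R.al k) ∧ ∀ k, R.al k = R.al i → i ≤ k}
  have hind : LinearIndependent ℝ fun i : T => R.al i := by
    refine LinearMap.BilinForm.linearIndependent_of_pairwise_le_zero (innerₗ V) ?_
      (innerₗ V R.H0) _ (fun i => ?_) fun i j hij => ?_
    · intro x hx
      simpa using real_inner_self_pos.2 hx
    · rw [innerₗ_apply_apply, real_inner_comm]
      exact R.pos i
    · change ⟪R.al i, R.al j⟫ ≤ 0
      by_contra hlt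
      have hne : R.al i ≠ R.al j := fun h =>
        hij (Subtype.ext (le_antisymm (i.2.2 _ h.symm) (j.2.2 _ h)))
      obtain ⟨k, hk | hk⟩ := sub_root R (not_le.1 hlt) hne
      · exact i.2.1 ⟨j, k, by rw [← hk]; abel⟩
      · exact j.2.1 ⟨i, k, by rw [← neg_neg (R.al k), ← hk]; abel⟩
  have hco : ∀ i, ∃ c : T → ℕ, R.al i = ∑ j, (c j : ℝ) • R.al j := by
    intro i
    have hwf : WellFounded fun j k : Fin R.m => ⟪R.al j, R.H0⟫ < ⟪R.al k, R.H0⟫ := by
      have : IsTrans (Fin R.m) fun j k => ⟪R.al j, R.H0⟫ < ⟪R.al k, R.H0⟫ :=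
        ⟨fun _ _ _ => lt_trans⟩
      have : Std.Irrefl fun j k : Fin R.m => ⟪R.al j, R.H0⟫ < ⟪R.al k, R.H0⟫ :=
        ⟨fun _ => lt_irrefl _⟩
      exact Finite.wellFounded_of_trans_of_irrefl _
    induction i using hwf.induction with
    | _ i ih =>
    by_cases hs : ∃ j k, R.al i = R.al j + R.al k
    · obtain ⟨j, k, hjk⟩ := hs
      have hj := R.pos j
      have hk := R.pos k
      obtain ⟨c, hc⟩ := ih j (by rw [hjk, inner_add_left]; linarith)
      obtain ⟨d, hd⟩ := ih k (by rw [hjk, inner_add_left]; linarith)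
      refine ⟨c + d, ?_⟩
      rw [hjk, hc, hd, ← Finset.sum_add_distrib]
      simp [add_smul]
    · obtain ⟨i0, hi0, hmin⟩ := Finset.exists_min_image
        (Finset.univ.filter fun k => R.al k = R.al i) id ⟨i, by simp⟩
      have h0 : R.al i0 = R.al i := by simpa using hi0
      let t : T := ⟨i0, by rw [h0]; exact hs, fun k hk => hmin k (by simp [hk, h0])⟩
      refine ⟨Pi.single t 1, ?_⟩
      rw [Finset.sum_eq_single t (fun b _ hb => by simp [Pi.single_eq_of_ne hb]) (by simp)]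
      simp [t, h0]
  choose c hc using hco
  have hspan : span ℝ (Set.range fun i : T => R.al i) = R.a := by
    set U := span ℝ (Set.range fun i : T => R.al i)
    have hU : U ≤ R.a := span_le.2 (by rintro _ ⟨i, rfl⟩; exact R.al_mem _)
    refine le_antisymm hU fun X hX => ?_
    have h1 : X - U.starProjection X = 0 :=
      eq_zero_of_perp R (sub_mem hX (hU (U.starProjection_apply_mem X))) fun i => by
        rw [real_inner_comm]
        refine U.starProjection_inner_eq_zero X _ ?_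
        rw [hc i]
        exact sum_mem fun j _ => smul_mem _ _ (subset_span ⟨j, rfl⟩)
    rw [sub_eq_zero.1 h1]
    exact U.starProjection_apply_mem X
  have hcard : Fintype.card T = r := by
    rw [← finrank_span_eq_card hind, hspan, finrank_a]
  let e := (Fintype.equivFinOfCardEq hcard).symm
  refine ⟨fun j => (e j).1, fun i j => c i (e j), Subtype.val_injective.comp e.injective,
    fun i => ?_⟩
  rw [hc i]
  exact (e.sum_comp fun t : T => (c i t : ℝ) • R.al t).symm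

section simple
variable {R} {sr : Fin r → Fin R.m} {co : Fin R.m → Fin r → ℕ}
  (hco : ∀ i, R.al i = ∑ j, (co i j : ℝ) • R.al (sr j))
include hco

theorem zero_of_perp {X : V} (hX : X ∈ R.a) (h : ∀ j, ⟪X, R.al (sr j)⟫ = 0) : X = 0 :=
  eq_zero_of_perp R hX fun i => by
    rw [hco i, real_inner_comm, inner_sum]
    simp [inner_smul_right, h]

/-- The basis of `a` dual to the simple roots. -/
theorem exists_dual : ∃ u : Fin r → V, (∀ j, u j ∈ R.a) ∧
    ∀ j l, ⟪u j, R.al (sr l)⟫ = if l = j then 1 else 0 := by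
  let f : R.a →ₗ[ℝ] (Fin r → ℝ) :=
    LinearMap.pi fun l => (innerₗ V (R.al (sr l))).comp R.a.subtype
  have hf : ∀ X l, f X l = ⟪(X : V), R.al (sr l)⟫ := fun X l => real_inner_comm _ _
  have hinj : Function.Injective f := (injective_iff_map_eq_zero f).2 fun X hX =>
    Subtype.ext (zero_of_perp hco X.2 fun j => by rw [← hf, hX]; rfl)
  have hs := (LinearMap.injective_iff_surjective_of_finrank_eq_finrank
    (by rw [finrank_a]; simp)).1 hinj
  choose u hu using fun j => hs (Pi.single j 1)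
  exact ⟨fun j => u j, fun j => (u j).2, fun j l => by rw [← hf, hu, Pi.single_apply]⟩

/-- The squared lengths of the simple roots are rational. -/
theorem exists_den {u : Fin r → V} (hu : ∀ j, u j ∈ R.a)
    (hd : ∀ j l, ⟪u j, R.al (sr l)⟫ = if l = j then 1 else 0) :
    (∀ i j, ⟪R.al i, u j⟫ = co i j) ∧ (∀ j l, ∃ z : ℤ, ⟪u j, u l⟫ = z) ∧
      ∃ d : ℤ, d ≠ 0 ∧ ∀ j, ∃ z : ℤ, d * ‖R.al (sr j)‖ ^ 2 = z := by
  have h1 : ∀ i j, ⟪R.al i, u j⟫ = co i j := fun i j => by
    rw [hco i, real_inner_comm, inner_sum]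
    simp [inner_smul_right, hd]
  let Gm : Matrix (Fin r) (Fin r) ℤ := fun j l => 2 * ∑ i, (co i j : ℤ) * co i l
  have h2 : ∀ j l, ⟪u j, u l⟫ = Gm j l := fun j l => by
    rw [killing_a R (hu j) (hu l)]
    simp [Gm, h1]
  let Γ : Matrix (Fin r) (Fin r) ℝ := fun j l => ⟪R.al (sr j), R.al (sr l)⟫
  have h3 : ∀ l, R.al (sr l) = ∑ k, Γ k l • u k := fun l => by
    refine sub_eq_zero.1 (zero_of_perp hco
      (sub_mem (R.al_mem _) (sum_mem fun k _ => smul_mem _ _ (hu k))) fun j => ?_)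
    rw [inner_sub_left, sum_inner]
    simp only [real_inner_smul_left, hd, mul_ite, mul_one, mul_zero, Finset.sum_ite_eq,
      Finset.mem_univ, if_true, Γ]
    rw [real_inner_comm, sub_self]
  have h4 : (Int.castRingHom ℝ).mapMatrix Gm * Γ = 1 := by
    ext j l
    rw [Matrix.mul_apply, Matrix.one_apply]
    have := hd j l
    rw [h3 l, inner_sum] at this
    simp only [inner_smul_right, h2] at this
    simp only [RingHom.mapMatrix_apply, Matrix.map_apply, eq_intCast, eq_comm (a := j)]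
    rw [← this]
    exact Finset.sum_congr rfl fun k _ => mul_comm _ _
  have h5 : ((Int.castRingHom ℝ).mapMatrix Gm).det = (Gm.det : ℝ) :=
    ((Int.castRingHom ℝ).map_det Gm).symm
  refine ⟨h1, fun j l => ⟨_, h2 j l⟩, Gm.det, fun h0 => ?_, fun j => ⟨Gm.adjugate j j, ?_⟩⟩
  · have := congrArg Matrix.det h4
    rw [Matrix.det_mul, h5, h0] at this
    simp at this
  · have h6 : ((Int.castRingHom ℝ).mapMatrix Gm).adjugate = (Gm.det : ℝ) • Γ := by
      rw [← mul_one ((Int.castRingHom ℝ).mapMatrix Gm).adjugate, ← h4, ← mul_assoc,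
        Matrix.adjugate_mul, h5, smul_mul_assoc, one_mul]
    rw [← RingHom.map_adjugate] at h6
    have := congrFun (congrFun h6 j) j
    simp only [RingHom.mapMatrix_apply, Matrix.map_apply, eq_intCast, Matrix.smul_apply,
      smul_eq_mul, Γ, real_inner_self_eq_norm_sq] at this
    exact this.symm

end simple

end Pool.Agent.MP_ba99b7_an.Root2
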