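import Mathlib.Topology.Sheaves.Presheaf
import Mathlib.Tactic.Monotonicity.Lemmas
import Mathlib.Data.Int.Star
import Mathlib.Combinatorics.SimpleGraph.Basic
import Mathlib.Analysis.SpecialFunctions.Trigonometric.Series
import Mathlib.RingTheory.PiTensorProduct
import Pool.Agent.MP_ba99b7_an.SpecAn
import Pool.Agent.MP_ba99b7_an.Base

-- ======== part 0: formerly Pool.Agent.MP_ba99b7_an.Walk
section MrgPart0

/-! PROJECT STRI, module WALK: the random walk on the weights and the Carne-Varopoulos bound. -/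

namespace Pool.Agent.MP_ba99b7_an

open scoped ComplexConjugate ENNReal NNReal
open MeasureTheory Finset

namespace Walk

variable {G : Type} [Group G] [TopologicalSpace G] [MeasurableSpace G]

theorem integrable_of_cont [TG G] (μ : Measure G) [BiH μ] {E : Type} [NormedAddCommGroup E]
    {f : G → E} (hf : Continuous f) : Integrable f μ :=
  hf.integrable_of_hasCompactSupport (HasCompactSupport.of_compactSpace f)

section Orth

variable {μ : Measure G} {r : ℕ} (O : Orth μ r)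

theorem phi_eq {n : Fin r → ℕ} (hn : n ∈ O.Λ) (x : G) :
    (O.dim n : ℂ) * O.φ n x = ∑ i, O.bas n i x * conj (O.bas n i 1) := by
  rw [O.repr n hn x 1, inv_one, mul_one]

theorem sum_one {n : Fin r → ℕ} (hn : n ∈ O.Λ) :
    ∑ i, O.bas n i 1 * conj (O.bas n i 1) = O.dim n := by
  rw [← phi_eq O hn, O.φ_one n hn, mul_one]

theorem orth_phi [TG G] [BiH μ] {n n' : Fin r → ℕ} (hn : n ∈ O.Λ) (hn' : n' ∈ O.Λ) :
    ∫ g, O.φ n g * conj (O.φ n' g) ∂μ = if n = n' then 1 / (O.dim n : ℂ) else 0 := by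
  have d1 : (O.dim n : ℂ) ≠ 0 := Nat.cast_ne_zero.2 (O.dim_pos n hn).ne'
  have d2 : (O.dim n' : ℂ) ≠ 0 := Nat.cast_ne_zero.2 (O.dim_pos n' hn').ne'
  have key : (O.dim n : ℂ) * O.dim n' * ∫ g, O.φ n g * conj (O.φ n' g) ∂μ =
      ∑ i, ∑ i', conj (O.bas n i 1) * O.bas n' i' 1 *
        ∫ g, conj (O.bas n' i' g) * O.bas n i g ∂μ := by
    rw [← integral_const_mul]
    have e : ∀ g, (O.dim n : ℂ) * O.dim n' * (O.φ n g * conj (O.φ n' g)) =
        ∑ i, ∑ i', conj (O.bas n i 1) * O.bas n' i' 1 * (conj (O.bas n' i' g) * O.bas n i g) := by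
      intro g
      have e1 := phi_eq O hn g
      have e2 := congrArg conj (phi_eq O hn' g)
      rw [map_mul, map_natCast, map_sum] at e2
      calc _ = ((O.dim n : ℂ) * O.φ n g) * (O.dim n' * conj (O.φ n' g)) := by ring
        _ = _ := by
          rw [e1, e2, sum_mul_sum]
          refine sum_congr rfl fun i _ => sum_congr rfl fun i' _ => ?_
          rw [map_mul, Complex.conj_conj]
          ring
    have hc : ∀ i i', Integrable (fun g => conj (O.bas n i 1) * O.bas n' i' 1 *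
        (conj (O.bas n' i' g) * O.bas n i g)) μ := fun i i' =>
      integrable_of_cont μ (continuous_const.mul
        ((Complex.continuous_conj.comp (O.bas_cont n' hn' i')).mul (O.bas_cont n hn i)))
    simp_rw [e]
    rw [integral_finsetSum _ fun i _ => integrable_finsetSum _ fun i' _ => hc i i']
    refine sum_congr rfl fun i _ => ?_
    rw [integral_finsetSum _ fun i' _ => hc i i']
    exact sum_congr rfl fun i' _ => integral_const_mul _ _
  split_ifs with h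
  · subst h
    have e : ∑ i, ∑ i', conj (O.bas n i 1) * O.bas n i' 1 *
        ∫ g, conj (O.bas n i' g) * O.bas n i g ∂μ = O.dim n := by
      rw [← sum_one O hn]
      refine sum_congr rfl fun i _ => ?_
      simp_rw [O.orth_same n hn]
      simp [mul_comm]
    rw [e] at key
    field_simp
    apply mul_left_cancel₀ d1
    rw [mul_one]
    linear_combination key
  · have e : ∑ i, ∑ i', conj (O.bas n i 1) * O.bas n' i' 1 *
        ∫ g, conj (O.bas n' i' g) * O.bas n i g ∂μ = 0 := by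
      refine sum_eq_zero fun i _ => sum_eq_zero fun i' _ => ?_
      rw [O.orth_ne n' hn' n hn (Ne.symm h), mul_zero]
    rw [e] at key
    exact (mul_eq_zero.1 key).resolve_left (mul_ne_zero d1 d2)

/-- Multiplication by `h` moves the weights along the relation `Rel`. -/
def Has (R : Type) [Semiring R] [Module R ℂ] (h : G → ℂ)
    (Rel : (Fin r → ℕ) → (Fin r → ℕ) → Prop) : Prop :=
  ∀ x ∈ O.Λ, h * O.φ x ∈ Submodule.span R (O.φ '' {y | y ∈ O.Λ ∧ Rel x y})

variable {O} {R : Type} [Semiring R] [Module R ℂ]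

theorem Has.mono {h : G → ℂ} {R1 R2 : (Fin r → ℕ) → (Fin r → ℕ) → Prop} (H : Has O R h R1)
    (h12 : ∀ x y, R1 x y → R2 x y) : Has O R h R2 := fun x hx =>
  Submodule.span_mono (Set.image_mono (t := {y | y ∈ O.Λ ∧ R2 x y})
    fun y hy => ⟨hy.1, h12 x y hy.2⟩) (H x hx)

theorem Has.one {R1 : (Fin r → ℕ) → (Fin r → ℕ) → Prop} (h1 : ∀ x, R1 x x) : Has O R 1 R1 :=
  fun x hx => by
    rw [one_mul]
    exact Submodule.subset_span ⟨x, ⟨hx, h1 x⟩, rfl⟩

theorem Has.mul [SMulCommClass R ℂ ℂ] {h1 h2 : G → ℂ}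
    {R1 R2 R3 : (Fin r → ℕ) → (Fin r → ℕ) → Prop} (H1 : Has O R h1 R1) (H2 : Has O R h2 R2)
    (h : ∀ x y z, R2 x y → R1 y z → R3 x z) : Has O R (h1 * h2) R3 := by
  intro x hx
  rw [mul_assoc]
  refine Submodule.span_induction (p := fun f _ =>
    h1 * f ∈ Submodule.span R (O.φ '' {y | y ∈ O.Λ ∧ R3 x y})) ?_ ?_ ?_ ?_ (H2 x hx)
  · rintro _ ⟨y, hy, rfl⟩
    exact Submodule.span_mono (Set.image_mono (t := {z | z ∈ O.Λ ∧ R3 x z})
      fun z hz => ⟨hz.1, h x y z hy.2 hz.2⟩) (H1 y hy.1)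
  · simp
  · intro a b _ _ ha hb
    rw [mul_add]
    exact Submodule.add_mem _ ha hb
  · intro c a _ ha
    rw [mul_smul_comm]
    exact Submodule.smul_mem _ _ ha

theorem Has.toC {h : G → ℂ} {R1 : (Fin r → ℕ) → (Fin r → ℕ) → Prop} (H : Has O ℝ≥0 h R1) :
    Has O ℂ h R1 := fun x hx => Submodule.span_subset_span ℝ≥0 ℂ _ (H x hx)

theorem Has.vanish [TG G] [BiH μ] {h : G → ℂ} {R1 : (Fin r → ℕ) → (Fin r → ℕ) → Prop}
    (H : Has O ℂ h R1) {x y : Fin r → ℕ} (hx : x ∈ O.Λ) (hy : y ∈ O.Λ) (hxy : ¬ R1 y x) :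
    ∫ g, h g * O.φ y g * conj (O.φ x g) ∂μ = 0 := by
  have cx : Continuous fun g => conj (O.φ x g) := Complex.continuous_conj.comp (O.φ_cont x hx)
  have := Submodule.span_induction (p := fun f _ =>
    Continuous f ∧ ∫ g, f g * conj (O.φ x g) ∂μ = 0) ?_ ?_ ?_ ?_ (H y hy)
  · exact this.2
  · rintro _ ⟨z, hz, rfl⟩
    refine ⟨O.φ_cont z hz.1, ?_⟩
    rw [orth_phi O hz.1 hx, if_neg]
    rintro rfl
    exact hxy hz.2
  · exact ⟨continuous_const, by simp⟩
  · intro a b _ _ ha hb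
    refine ⟨ha.1.add hb.1, ?_⟩
    simp only [Pi.add_apply, add_mul]
    have i1 : Integrable (fun g => a g * conj (O.φ x g)) μ := integrable_of_cont μ (ha.1.mul cx)
    have i2 : Integrable (fun g => b g * conj (O.φ x g)) μ := integrable_of_cont μ (hb.1.mul cx)
    rw [integral_add i1 i2, ha.2, hb.2, add_zero]
  · intro c a _ ha
    refine ⟨ha.1.const_smul c, ?_⟩
    simp only [Pi.smul_apply, smul_eq_mul, mul_assoc]
    rw [integral_const_mul, ha.2, mul_zero]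

theorem norm_int_le [TG G] [BiH μ] {h : G → ℂ} (hh : ∀ g, ‖h g‖ ≤ 1) {x y : Fin r → ℕ}
    (hx : x ∈ O.Λ) (hy : y ∈ O.Λ) :
    O.dim x * ‖∫ g, h g * O.φ y g * conj (O.φ x g) ∂μ‖ ≤ √(O.dim x / O.dim y) := by
  have dx : (0 : ℝ) < O.dim x := Nat.cast_pos.2 (O.dim_pos x hx)
  have dy : (0 : ℝ) < O.dim y := Nat.cast_pos.2 (O.dim_pos y hy)
  have sq : ∀ z ∈ O.Λ, ∫ g, ‖O.φ z g‖ ^ 2 ∂μ = 1 / O.dim z := by
    intro z hz
    have := orth_phi O hz hz
    rw [if_pos rfl] at this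
    simp_rw [Complex.mul_conj, Complex.normSq_eq_norm_sq] at this
    rw [integral_complex_ofReal] at this
    apply Complex.ofReal_injective
    rw [this]
    push_cast
    rfl
  set a := √((O.dim x : ℝ) / O.dim y) with ha
  have a0 : 0 < a := Real.sqrt_pos.2 (div_pos dx dy)
  have a2 : a ^ 2 = O.dim x / O.dim y := Real.sq_sqrt (div_pos dx dy).le
  have c1 : Continuous fun g => ‖O.φ y g‖ ^ 2 := (O.φ_cont y hy).norm.pow 2
  have c2 : Continuous fun g => ‖O.φ x g‖ ^ 2 := (O.φ_cont x hx).norm.pow 2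
  have i1 := (integrable_of_cont μ c1).const_mul (1 / (2 * a))
  have i2 := (integrable_of_cont μ c2).const_mul (a / 2)
  have key : ‖∫ g, h g * O.φ y g * conj (O.φ x g) ∂μ‖ ≤
      ∫ g, (1 / (2 * a) * ‖O.φ y g‖ ^ 2 + a / 2 * ‖O.φ x g‖ ^ 2) ∂μ := by
    refine norm_integral_le_of_norm_le (i1.add i2) (Filter.Eventually.of_forall fun g => ?_)
    rw [norm_mul, norm_mul, Complex.norm_conj]
    have e1 : ‖h g‖ * ‖O.φ y g‖ * ‖O.φ x g‖ ≤ 1 * ‖O.φ y g‖ * ‖O.φ x g‖ := by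
      gcongr
      exact hh g
    have e2 : 1 / (2 * a) * ‖O.φ y g‖ ^ 2 + a / 2 * ‖O.φ x g‖ ^ 2 - ‖O.φ y g‖ * ‖O.φ x g‖ =
        (‖O.φ y g‖ - a * ‖O.φ x g‖) ^ 2 / (2 * a) := by
      field_simp
      ring
    have e3 : 0 ≤ (‖O.φ y g‖ - a * ‖O.φ x g‖) ^ 2 / (2 * a) := by positivity
    linarith
  rw [integral_add i1 i2, integral_const_mul, integral_const_mul, sq y hy, sq x hx] at key
  calc _ ≤ O.dim x * (1 / (2 * a) * (1 / O.dim y) + a / 2 * (1 / O.dim x)) :=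
        mul_le_mul_of_nonneg_left key dx.le
    _ = (O.dim x / O.dim y) / (2 * a) + a / 2 := by field_simp
    _ = a := by rw [← a2]; field_simp; ring

end Orth

variable {μ : Measure G} {r d : ℕ} (S : Sph μ r d)

/-- Range at most `L l` in the coordinate `l`. -/
def Rg (L : Fin r → ℤ) (x y : Fin r → ℕ) : Prop := ∀ l, |(y l : ℤ) - x l| ≤ L l

theorem Rg.trans {L L' : Fin r → ℤ} (x y z : Fin r → ℕ) (h : Rg L x y) (h' : Rg L' y z) :
    Rg (L' + L) x z := fun l => by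
  have := abs_sub_le (z l : ℤ) (y l) (x l)
  have := h l
  have := h' l
  simp only [Pi.add_apply]
  linarith

/-- The range of one step. -/
def st (j : Fin r) : Fin r → ℤ := fun l => if S.blk j = S.blk l then S.C0 else 0

theorem has_psi (j : Fin r) : Has S.toOrth ℝ≥0 (fun g => (S.ψ j g : ℂ)) (Rg (st S j)) := by
  intro x hx
  obtain ⟨T, P, hT, h1, h2, h3, -⟩ := S.step j x hx
  have e : (fun g => (S.ψ j g : ℂ)) * S.φ x =
      ∑ y ∈ T.attach, (⟨P y.1, h2 y.1 y.2⟩ : ℝ≥0) • S.φ y.1 := by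
    funext g
    rw [Pi.mul_apply, h1 g, Finset.sum_apply, ← sum_attach]
    rfl
  rw [e]
  refine Submodule.sum_mem _ fun y _ => Submodule.smul_mem _ _ (Submodule.subset_span
    ⟨y.1, ⟨hT y.2, fun l => ?_⟩, rfl⟩)
  unfold st
  split_ifs with h
  · exact (h3 y.1 y.2 l).1
  · rw [(h3 y.1 y.2 l).2 (Ne.symm h)]
    simp

theorem has_pow (j : Fin r) (k : ℕ) :
    Has S.toOrth ℝ≥0 (fun g => (S.ψ j g : ℂ) ^ k) (Rg (k • st S j)) := by
  induction k with
  | zero => exact Has.one (R1 := Rg (0 • st S j)) fun x l => by simp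
  | succ k ih =>
    have := ih.mul (has_psi S j) Rg.trans
    rw [succ_nsmul]
    exact this

theorem has_prod (m : Fin r → ℕ) (s : Finset (Fin r)) :
    Has S.toOrth ℝ≥0 (fun g => ∏ j ∈ s, (S.ψ j g : ℂ) ^ m j) (Rg (∑ j ∈ s, m j • st S j)) := by
  induction s using Finset.induction_on with
  | empty => exact Has.one (R1 := Rg (∑ j ∈ ∅, m j • st S j)) fun x l => by simp
  | insert j s hj ih =>
    have := (has_pow S j (m j)).mul ih Rg.trans
    simp only [prod_insert hj, sum_insert hj]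
    exact this

theorem has_Psi (m : Fin r → ℕ) :
    Has S.toOrth ℝ≥0 (fun g => (S.Ψ m g : ℂ)) (Rg fun l => S.C0 * S.Mb m l) := by
  have e1 : (fun g => (S.Ψ m g : ℂ)) = fun g => ∏ j, (S.ψ j g : ℂ) ^ m j := by
    funext g
    simp [Sph.Ψ]
  have e2 : (fun l => (S.C0 : ℤ) * S.Mb m l) = ∑ j, m j • st S j := by
    funext l
    simp only [Sph.Mb, Finset.sum_apply, sum_filter]
    push_cast
    rw [mul_sum]
    refine sum_congr rfl fun j _ => ?_
    split_ifs with h <;> simp [st, h, mul_comm]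
  rw [e1, e2]
  exact has_prod S m univ

theorem expand [TG G] [BiH μ] (m : Fin r → ℕ) {x : Fin r → ℕ} (hx : x ∈ S.Λ) :
    ∃ l : (Fin r → ℕ) →₀ ℝ≥0, (∀ y ∈ l.support, y ∈ S.Λ ∧ Rg (fun l => S.C0 * S.Mb m l) x y) ∧
      (∀ g, (S.Ψ m g : ℂ) * S.φ x g = ∑ y ∈ l.support, ((l y : ℝ) : ℂ) * S.φ y g) ∧
      ∀ y ∈ S.Λ, S.Q m x y = l y := by
  obtain ⟨l, hl, he⟩ := (Finsupp.mem_span_image_iff_linearCombination ℝ≥0).1 (has_Psi S m x hx)
  have h1 : ∀ y ∈ l.support, y ∈ S.Λ ∧ Rg (fun l => S.C0 * S.Mb m l) x y :=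
    fun y hy => (Finsupp.mem_supported ℝ≥0 l).1 hl hy
  have h2 : ∀ g, (S.Ψ m g : ℂ) * S.φ x g = ∑ y ∈ l.support, ((l y : ℝ) : ℂ) * S.φ y g := by
    intro g
    have := congrFun he g
    rw [Finsupp.linearCombination_apply, Finsupp.sum, Finset.sum_apply] at this
    exact this.symm
  refine ⟨l, h1, h2, fun y hy => ?_⟩
  have dy : (S.dim y : ℂ) ≠ 0 := Nat.cast_ne_zero.2 (S.dim_pos y hy).ne'
  have e : ∫ g, (S.Ψ m g : ℂ) * S.φ x g * conj (S.φ y g) ∂μ = ((l y : ℝ) : ℂ) / S.dim y := by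
    simp_rw [h2, sum_mul, mul_assoc]
    have hi : ∀ z ∈ l.support,
        Integrable (fun g => ((l z : ℝ) : ℂ) * (S.φ z g * conj (S.φ y g))) μ := fun z hz =>
      integrable_of_cont μ (continuous_const.mul
        ((S.φ_cont z (h1 z hz).1).mul (Complex.continuous_conj.comp (S.φ_cont y hy))))
    rw [integral_finsetSum _ hi]
    have e1 : ∀ z ∈ l.support, ∫ g, ((l z : ℝ) : ℂ) * (S.φ z g * conj (S.φ y g)) ∂μ =
        if z = y then ((l y : ℝ) : ℂ) / S.dim y else 0 := by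
      intro z hz
      rw [integral_const_mul, orth_phi S.toOrth (h1 z hz).1 hy]
      split_ifs with h
      · subst h
        ring
      · simp
    rw [sum_congr rfl e1, sum_ite_eq']
    split_ifs with h
    · rfl
    · rw [Finsupp.notMem_support_iff.1 h]
      simp
  have dy' : (S.dim y : ℝ) ≠ 0 := Nat.cast_ne_zero.2 (S.dim_pos y hy).ne'
  rw [Sph.Q, e, ← Complex.ofReal_natCast, ← Complex.ofReal_div, Complex.ofReal_re]
  field_simp

theorem binom_cos (M : ℕ) (w : ℝ) : (2 * Real.cos w) ^ M =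
    ∑ l ∈ range (M + 1), (M.choose l : ℝ) * Real.cos ((2 * (l : ℤ) - M).natAbs * w) := by
  have h : ((2 * Real.cos w : ℝ) : ℂ) ^ M = ∑ l ∈ range (M + 1),
      (M.choose l : ℂ) * Complex.exp ((((2 * (l : ℝ) - M) * w : ℝ) : ℂ) * Complex.I) := by
    push_cast
    rw [Complex.two_cos, add_pow]
    refine sum_congr rfl fun l hl => ?_
    have hl' : l ≤ M := Nat.lt_succ_iff.1 (mem_range.1 hl)
    rw [← Complex.exp_nat_mul, ← Complex.exp_nat_mul, ← Complex.exp_add, mul_comm,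
      Nat.cast_sub hl']
    congr 2
    ring
  have h2 := congrArg Complex.re h
  rw [← Complex.ofReal_pow, Complex.ofReal_re, Complex.re_sum] at h2
  rw [h2]
  refine sum_congr rfl fun l _ => ?_
  rw [← Complex.ofReal_natCast, Complex.re_ofReal_mul, Complex.exp_ofReal_mul_I_re]
  congr 1
  rw [Nat.cast_natAbs]
  push_cast
  rcases abs_cases (2 * (l : ℝ) - M) with h | h
  · rw [h.1]
  · rw [h.1, neg_mul, Real.cos_neg]

theorem binom_exp (M : ℕ) (s : ℝ) :
    ∑ l ∈ range (M + 1), (M.choose l : ℝ) * Real.exp ((2 * (l : ℝ) - M) * s) =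
      (2 * Real.cosh s) ^ M := by
  rw [Real.cosh_eq, mul_div_cancel₀ _ (two_ne_zero), add_pow]
  refine sum_congr rfl fun l hl => ?_
  have hl' : l ≤ M := Nat.lt_succ_iff.1 (mem_range.1 hl)
  rw [← Real.exp_nat_mul, ← Real.exp_nat_mul, ← Real.exp_add, mul_comm, Nat.cast_sub hl']
  congr 2
  ring

theorem chernoff (M : ℕ) {t : ℝ} (ht : 0 ≤ t) :
    ∑ l ∈ range (M + 1), (if t < |2 * (l : ℝ) - M| then (M.choose l : ℝ) else 0) ≤
      2 ^ M * (2 * Real.exp (-(t ^ 2 / (2 * (1 + M))))) := by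
  set s := t / (1 + M) with hs
  have M0 : (0 : ℝ) ≤ M := Nat.cast_nonneg M
  have s0 : 0 ≤ s := by positivity
  have h1 : ∑ l ∈ range (M + 1), (if t < |2 * (l : ℝ) - M| then (M.choose l : ℝ) else 0) ≤
      ∑ l ∈ range (M + 1), Real.exp (-(s * t)) * ((M.choose l : ℝ) *
        Real.exp ((2 * (l : ℝ) - M) * s) + (M.choose l : ℝ) * Real.exp ((2 * (l : ℝ) - M) * -s)) := by
    refine sum_le_sum fun l _ => ?_
    have c0 : (0 : ℝ) ≤ M.choose l := Nat.cast_nonneg _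
    split_ifs with h
    · have e : 1 ≤ Real.exp (-(s * t)) * (Real.exp ((2 * (l : ℝ) - M) * s) +
          Real.exp ((2 * (l : ℝ) - M) * -s)) := by
        rw [mul_add, ← Real.exp_add, ← Real.exp_add]
        rcases abs_cases (2 * (l : ℝ) - M) with h' | h'
        · have := Real.one_le_exp (x := -(s * t) + (2 * (l : ℝ) - M) * s) (by nlinarith)
          linarith [Real.exp_pos (-(s * t) + (2 * (l : ℝ) - M) * -s)]
        · have := Real.one_le_exp (x := -(s * t) + (2 * (l : ℝ) - M) * -s) (by nlinarith)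
          linarith [Real.exp_pos (-(s * t) + (2 * (l : ℝ) - M) * s)]
      nlinarith
    · positivity
  rw [← mul_sum, sum_add_distrib, binom_exp, binom_exp, Real.cosh_neg] at h1
  refine h1.trans ?_
  have h2 : Real.cosh s ^ M ≤ Real.exp (M * (s ^ 2 / 2)) := by
    rw [Real.exp_nat_mul]
    exact pow_le_pow_left₀ (Real.cosh_pos s).le (Real.cosh_le_exp_half_sq s) M
  have h3 : Real.exp (-(s * t)) * Real.exp (M * (s ^ 2 / 2)) ≤
      Real.exp (-(t ^ 2 / (2 * (1 + M)))) := by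
    rw [← Real.exp_add]
    refine Real.exp_le_exp.2 ?_
    have e1 : t = s * (1 + M) := by rw [hs]; field_simp
    have e2 : t ^ 2 / (2 * (1 + M)) = s ^ 2 * (1 + M) / 2 := by
      rw [e1]; field_simp
    rw [e2]
    nlinarith [sq_nonneg s]
  have h4 : Real.exp (-(s * t)) * Real.cosh s ^ M ≤ Real.exp (-(t ^ 2 / (2 * (1 + M)))) :=
    (mul_le_mul_of_nonneg_left h2 (Real.exp_pos _).le).trans h3
  calc _ = 2 ^ M * (2 * (Real.exp (-(s * t)) * Real.cosh s ^ M)) := by rw [mul_pow]; ring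
    _ ≤ _ := by gcongr

/-- Range at most `L` in the coordinate `j`. -/
def Rj (j : Fin r) (L : ℤ) (x y : Fin r → ℕ) : Prop := |(y j : ℤ) - x j| ≤ L

/-- The factors of the other blocks. -/
noncomputable def oth (m : Fin r → ℕ) (j : Fin r) (g : G) : ℝ :=
  ∏ i ∈ univ.filter (fun i => ¬ S.blk i = S.blk j), S.ψ i g ^ m i

theorem Psi_eq (m : Fin r → ℕ) (j : Fin r) (g : G) :
    S.Ψ m g = S.ψ j g ^ S.Mb m j * oth S m j g := by
  rw [Sph.Ψ, Sph.Mb, oth, ← prod_filter_mul_prod_filter_not univ (fun i => S.blk i = S.blk j),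
    ← prod_pow_eq_pow_sum]
  congr 1
  exact prod_congr rfl fun i hi => by rw [S.ψ_blk i j (mem_filter.1 hi).2]

/-- The Chebyshev functions. -/
noncomputable def ch (m : Fin r → ℕ) (j : Fin r) (n : ℕ) (g : G) : ℝ :=
  Real.cos (n * Real.arccos (S.ψ j g)) * oth S m j g

theorem cos_arccos_psi (j : Fin r) (g : G) : Real.cos (Real.arccos (S.ψ j g)) = S.ψ j g :=
  Real.cos_arccos (by linarith [S.ψ_nonneg j g]) (S.ψ_le j g)

theorem has_ch (m : Fin r → ℕ) (j : Fin r) (n : ℕ) :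
    Has S.toOrth ℂ (fun g => (ch S m j n g : ℂ)) (Rj j (S.C0 * n)) := by
  have h0 : Has S.toOrth ℂ (fun g => (oth S m j g : ℂ)) (Rj j 0) := by
    have := (has_prod S m (univ.filter (fun i => ¬ S.blk i = S.blk j))).toC
    have e : (fun g => (oth S m j g : ℂ)) =
        fun g => ∏ i ∈ univ.filter (fun i => ¬ S.blk i = S.blk j), (S.ψ i g : ℂ) ^ m i := by
      funext g
      simp [oth]
    rw [e]
    refine this.mono fun x y h => (h j).trans (le_of_eq ?_)
    rw [Finset.sum_apply]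
    exact sum_eq_zero fun i hi => by simp [st, (mem_filter.1 hi).2]
  have h1 : Has S.toOrth ℂ (fun g => (S.ψ j g : ℂ)) (Rj j S.C0) :=
    (has_psi S j).toC.mono fun x y h => (h j).trans (le_of_eq (by simp [st]))
  have tr : ∀ L : ℤ, ∀ x y z : Fin r → ℕ, Rj j L x y → Rj j S.C0 y z → Rj j (L + S.C0) x z := by
    intro L x y z a b
    have := abs_sub_le (z j : ℤ) (y j) (x j)
    unfold Rj at *
    linarith
  induction n using Nat.twoStepInduction with
  | zero => simpa [ch] using h0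
  | one =>
    have := h1.mul h0 (tr 0)
    have e : (fun g => (ch S m j 1 g : ℂ)) =
        (fun g => (S.ψ j g : ℂ)) * fun g => (oth S m j g : ℂ) := by
      funext g
      simp [ch, cos_arccos_psi]
    rw [e]
    simpa using this
  | more n ih1 ih2 =>
    have a1 := (h1.mul ih2 (tr _)).mono (R2 := Rj j (S.C0 * ((n + 2 : ℕ) : ℤ)))
      fun x y h => h.trans (le_of_eq (by push_cast; ring))
    have a2 := ih1.mono (R2 := Rj j (S.C0 * ((n + 2 : ℕ) : ℤ))) fun x y h => h.trans (by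
      have : (0 : ℤ) ≤ S.C0 := Int.natCast_nonneg _
      push_cast
      nlinarith)
    intro x hx
    have e : (fun g => (ch S m j (n + 2) g : ℂ)) * S.φ x =
        (2 : ℂ) • (((fun g => (S.ψ j g : ℂ)) * fun g => (ch S m j (n + 1) g : ℂ)) * S.φ x) -
          (fun g => (ch S m j n g : ℂ)) * S.φ x := by
      funext g
      have e1 : ch S m j (n + 2) g = 2 * S.ψ j g * ch S m j (n + 1) g - ch S m j n g := by
        unfold ch
        have c := cos_arccos_psi S j g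
        set w := Real.arccos (S.ψ j g)
        have f1 : ((n + 2 : ℕ) : ℝ) * w = ((n + 1 : ℕ) : ℝ) * w + w := by push_cast; ring
        have f2 : (n : ℝ) * w = ((n + 1 : ℕ) : ℝ) * w - w := by push_cast; ring
        rw [f1, f2, Real.cos_add, Real.cos_sub, c]
        ring
      simp only [Pi.mul_apply, Pi.sub_apply, Pi.smul_apply, smul_eq_mul, e1]
      push_cast
      ring
    rw [e]
    exact Submodule.sub_mem _ (Submodule.smul_mem _ _ (a1 x hx)) (a2 x hx)

theorem norm_ch_le (m : Fin r → ℕ) (j : Fin r) (n : ℕ) (g : G) : ‖(ch S m j n g : ℂ)‖ ≤ 1 := by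
  rw [Complex.norm_real, Real.norm_eq_abs, ch, abs_mul]
  have h1 : 0 ≤ oth S m j g := prod_nonneg fun i _ => pow_nonneg (S.ψ_nonneg i g) _
  have h2 : oth S m j g ≤ 1 := prod_le_one (fun i _ => pow_nonneg (S.ψ_nonneg i g) _)
    fun i _ => pow_le_one₀ (S.ψ_nonneg i g) (S.ψ_le i g)
  rw [abs_of_nonneg h1]
  exact mul_le_one₀ (Real.abs_cos_le_one _) h1 h2

theorem continuous_ch (m : Fin r → ℕ) (j : Fin r) (n : ℕ) : Continuous (ch S m j n) :=
  (Real.continuous_cos.comp (continuous_const.mul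
    (Real.continuous_arccos.comp (S.ψ_cont j)))).mul
    (continuous_finsetProd _ fun i _ => (S.ψ_cont i).pow _)

end Walk

open Walk

theorem walk_stmt : WalkStmt := by
  intro G _ _ _ _ μ _ r d S m
  classical
  have hexp : ∀ x ∈ S.Λ, ∃ T : Finset (Fin r → ℕ), ↑T ⊆ S.Λ ∧
      (∀ y ∈ T, ∀ l, |(y l : ℤ) - x l| ≤ S.C0 * S.Mb m l) ∧
      ∀ T' : Finset (Fin r → ℕ), ↑T' ⊆ S.Λ → T ⊆ T' → ∀ g,
        (S.Ψ m g : ℂ) * S.φ x g = ∑ y ∈ T', (S.Q m x y : ℂ) * S.φ y g := by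
    intro x hx
    obtain ⟨l, h1, h2, h3⟩ := expand S m hx
    refine ⟨l.support, fun y hy => (h1 y hy).1, fun y hy => (h1 y hy).2, fun T' hT' hs g => ?_⟩
    have e : ∑ y ∈ T', (S.Q m x y : ℂ) * S.φ y g = ∑ y ∈ T', ((l y : ℝ) : ℂ) * S.φ y g :=
      sum_congr rfl fun y hy => by rw [h3 y (hT' hy)]
    rw [h2 g, e]
    refine sum_subset hs fun y _ hy => ?_
    rw [Finsupp.notMem_support_iff.1 hy]
    simp
  have hpos : ∀ x ∈ S.Λ, ∀ y ∈ S.Λ, 0 ≤ S.Q m x y := by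
    intro x hx y hy
    obtain ⟨l, -, -, h3⟩ := expand S m hx
    rw [h3 y hy]
    exact (l y).2
  refine ⟨hexp, fun x hx y hy => ?_, hpos, fun y hy T hT => ?_⟩
  · have e : ∫ g, (S.Ψ m g : ℂ) * S.φ y g * conj (S.φ x g) ∂μ =
        conj (∫ g, (S.Ψ m g : ℂ) * S.φ x g * conj (S.φ y g) ∂μ) := by
      rw [← integral_conj]
      congr 1
      funext g
      simp only [map_mul, Complex.conj_ofReal, Complex.conj_conj]
      ring
    simp only [Sph.Q]
    rw [e, Complex.conj_re]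
    ring
  · obtain ⟨T0, h1, -, h3⟩ := hexp y hy
    have hU : (↑(T ∪ T0) : Set (Fin r → ℕ)) ⊆ S.Λ := by
      rw [coe_union]
      exact Set.union_subset hT h1
    have e := h3 (T ∪ T0) hU subset_union_right 1
    rw [sum_congr rfl fun x hx => by rw [S.φ_one x (hU hx), mul_one], S.φ_one y hy, mul_one] at e
    have e1 : S.Ψ m 1 = 1 := by simp [Sph.Ψ, S.ψ_one]
    rw [e1] at e
    have e2 : (1 : ℝ) = ∑ x ∈ T ∪ T0, S.Q m y x := by exact_mod_cast e
    rw [e2]
    exact sum_le_sum_of_subset_of_nonneg subset_union_left fun x hx _ => hpos y hy x (hU hx)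

theorem tail_stmt : TailStmt := by
  intro G _ _ _ _ μ _ r d S m x hx y hy j t ht hxy
  set M := S.Mb m j with hM
  set I : ℕ → ℂ := fun n => ∫ g, (ch S m j n g : ℂ) * S.φ y g * conj (S.φ x g) ∂μ with hI
  have e : (2 : ℂ) ^ M * ∫ g, (S.Ψ m g : ℂ) * S.φ y g * conj (S.φ x g) ∂μ =
      ∑ l ∈ range (M + 1), (M.choose l : ℂ) * I (2 * (l : ℤ) - M).natAbs := by
    rw [← integral_const_mul]
    have e1 : ∀ g, (2 : ℂ) ^ M * ((S.Ψ m g : ℂ) * S.φ y g * conj (S.φ x g)) =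
        ∑ l ∈ range (M + 1), (M.choose l : ℂ) *
          ((ch S m j (2 * (l : ℤ) - M).natAbs g : ℂ) * S.φ y g * conj (S.φ x g)) := by
      intro g
      have e2 : (2 : ℝ) ^ M * S.Ψ m g =
          ∑ l ∈ range (M + 1), (M.choose l : ℝ) * ch S m j (2 * (l : ℤ) - M).natAbs g := by
        have := binom_cos M (Real.arccos (S.ψ j g))
        rw [cos_arccos_psi] at this
        rw [Psi_eq S m j, ← hM, ← mul_assoc, ← mul_pow, this, sum_mul]
        exact sum_congr rfl fun l _ => by rw [ch, mul_assoc]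
      have e3 := congrArg (fun u : ℝ => (u : ℂ) * (S.φ y g * conj (S.φ x g))) e2
      push_cast at e3
      rw [sum_mul] at e3
      calc _ = (2 : ℂ) ^ M * (S.Ψ m g : ℂ) * (S.φ y g * conj (S.φ x g)) := by ring
        _ = _ := by rw [e3]; exact sum_congr rfl fun l _ => by ring
    simp_rw [e1]
    have hi : ∀ l ∈ range (M + 1), Integrable (fun g => (M.choose l : ℂ) *
        ((ch S m j (2 * (l : ℤ) - M).natAbs g : ℂ) * S.φ y g * conj (S.φ x g))) μ := fun l _ =>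
      integrable_of_cont μ (continuous_const.mul
        (((Complex.continuous_ofReal.comp (continuous_ch S m j _)).mul (S.φ_cont y hy)).mul
          (Complex.continuous_conj.comp (S.φ_cont x hx))))
    rw [integral_finsetSum _ hi]
    exact sum_congr rfl fun l _ => integral_const_mul _ _
  set a := √((S.dim x : ℝ) / S.dim y) with ha
  have a0 : 0 ≤ a := Real.sqrt_nonneg _
  have hb : ∀ l : ℕ, S.dim x * ‖(M.choose l : ℂ) * I (2 * (l : ℤ) - M).natAbs‖ ≤
      a * (if t < |2 * (l : ℝ) - M| then (M.choose l : ℝ) else 0) := by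
    intro l
    split_ifs with h
    · have := norm_int_le (O := S.toOrth) (norm_ch_le S m j (2 * (l : ℤ) - M).natAbs) hx hy
      rw [norm_mul, Complex.norm_natCast, mul_left_comm, mul_comm a]
      exact mul_le_mul_of_nonneg_left this (Nat.cast_nonneg _)
    · have : I (2 * (l : ℤ) - M).natAbs = 0 := by
        refine (has_ch S m j _).vanish hx hy fun hc => ?_
        have c1 : |(x j : ℝ) - y j| ≤ S.C0 * |2 * (l : ℝ) - M| := by
          unfold Rj at hc
          rw [Int.natCast_natAbs] at hc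
          exact_mod_cast hc
        have c2 : (S.C0 : ℝ) * |2 * (l : ℝ) - M| ≤ S.C0 * t :=
          mul_le_mul_of_nonneg_left (not_lt.1 h) (Nat.cast_nonneg _)
        linarith
      simp [this]
  have p2 : (0 : ℝ) < 2 ^ M := by positivity
  have dx : (0 : ℝ) ≤ S.dim x := Nat.cast_nonneg _
  have h1 : 2 ^ M * S.Q m y x ≤
      S.dim x * ‖(2 : ℂ) ^ M * ∫ g, (S.Ψ m g : ℂ) * S.φ y g * conj (S.φ x g) ∂μ‖ := by
    rw [norm_mul, norm_pow, Complex.norm_two, Sph.Q, mul_left_comm]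
    gcongr
    exact Complex.re_le_norm _
  rw [e] at h1
  have h2 : S.dim x * ‖∑ l ∈ range (M + 1), (M.choose l : ℂ) * I (2 * (l : ℤ) - M).natAbs‖ ≤
      a * (2 ^ M * (2 * Real.exp (-(t ^ 2 / (2 * (1 + M)))))) := by
    calc _ ≤ S.dim x * ∑ l ∈ range (M + 1), ‖(M.choose l : ℂ) * I (2 * (l : ℤ) - M).natAbs‖ :=
          mul_le_mul_of_nonneg_left (norm_sum_le _ _) dx
      _ ≤ ∑ l ∈ range (M + 1), a * (if t < |2 * (l : ℝ) - M| then (M.choose l : ℝ) else 0) := by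
          rw [mul_sum]
          exact sum_le_sum fun l _ => hb l
      _ ≤ _ := by
          rw [← mul_sum]
          exact mul_le_mul_of_nonneg_left (chernoff M ht) a0
  refine le_of_mul_le_mul_left ((h1.trans h2).trans (le_of_eq ?_)) p2
  ring

theorem tail_of (_h : WalkStmt) : TailStmt := tail_stmt

end Pool.Agent.MP_ba99b7_an

end MrgPart0

-- ======== part 1: formerly Pool.Agent.MP_ba99b7_an.MajorA
section MrgPart1

/-! PROJECT STRI, module MAJOR, first file: elementary lemmas. -/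

namespace Pool.Agent.MP_ba99b7_an.Major

open scoped ComplexConjugate
open MeasureTheory Finset

theorem ee_add (x y : ℝ) : ee (x + y) = ee x * ee y := by
  unfold ee
  rw [← Complex.exp_add]
  congr 1
  push_cast
  ring

theorem norm_ee (x : ℝ) : ‖ee x‖ = 1 := by
  unfold ee
  have : (2 * Real.pi * x * Complex.I : ℂ) = ((2 * Real.pi * x : ℝ) : ℂ) * Complex.I := by
    push_cast; ring
  rw [this, Complex.norm_exp_ofReal_mul_I]

theorem ww_nonneg (C1 N : ℕ) (x : ℝ) : 0 ≤ ww C1 N x := by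
  unfold ww gw
  refine Finset.sum_nonneg fun l _ => div_nonneg (by positivity) ?_
  exact le_trans (by norm_num) (le_max_left _ _)

/-- The dyadic index of `m`. -/
def kf {r : ℕ} (m : Fin r → ℕ) : Fin r → ℕ := fun j => Nat.log 2 (m j + 1)

/-- The lower corner of a dyadic block. -/
def lo {r : ℕ} (k : Fin r → ℕ) : Fin r → ℕ := fun j => 2 ^ k j - 1

/-- The upper corner of a dyadic block. -/
def hi {r : ℕ} (k : Fin r → ℕ) : Fin r → ℕ := fun j => 2 * (2 ^ k j - 1)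

theorem log_lo (k m : ℕ) (hm : m < 2 ^ k) : Nat.log 2 (2 ^ k - 1 + m + 1) = k := by
  have h1 : 1 ≤ 2 ^ k := Nat.one_le_two_pow
  apply Nat.log_eq_of_pow_le_of_lt_pow
  · omega
  · rw [pow_succ]; omega

theorem log_bounds (m : ℕ) :
    2 ^ Nat.log 2 (m + 1) ≤ m + 1 ∧ m + 1 < 2 * 2 ^ Nat.log 2 (m + 1) := by
  refine ⟨Nat.pow_log_le_self 2 (by omega), ?_⟩
  have := Nat.lt_pow_succ_log_self (b := 2) (by norm_num) (m + 1)
  rw [pow_succ] at this
  omega

theorem sum_split {r : ℕ} (κ : ℕ) (f : (Fin r → ℕ) → (Fin r → ℕ) → ℂ) :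
    ∑ m ∈ Fintype.piFinset (fun _ : Fin r => range (2 ^ (κ + 1) - 1)), f (kf m) m
      = ∑ k ∈ Fintype.piFinset (fun _ : Fin r => range (κ + 1)),
          ∑ m ∈ Fintype.piFinset (fun j : Fin r => range (2 ^ k j)), f k (lo k + m) := by
  rw [Finset.sum_sigma']
  refine Finset.sum_nbij' (fun m => ⟨kf m, m - lo (kf m)⟩) (fun z => lo z.1 + z.2) ?_ ?_ ?_ ?_ ?_
  · intro m hm
    simp only [Finset.mem_sigma, Fintype.mem_piFinset, Finset.mem_range] at hm ⊢
    refine ⟨fun j => ?_, fun j => ?_⟩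
    · have h := hm j
      apply Nat.log_lt_of_lt_pow (by omega)
      omega
    · have h := log_bounds (m j)
      simp only [Pi.sub_apply, lo, kf]
      omega
  · intro z hz
    simp only [Finset.mem_sigma, Fintype.mem_piFinset, Finset.mem_range] at hz ⊢
    intro j
    have h1 := hz.1 j
    have h2 := hz.2 j
    have h3 : 2 ^ z.1 j ≤ 2 ^ κ := Nat.pow_le_pow_right (by norm_num) (by omega)
    have h4 : 1 ≤ 2 ^ z.1 j := Nat.one_le_two_pow
    simp only [Pi.add_apply, lo]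
    rw [pow_succ]
    omega
  · intro m _
    funext j
    have h := log_bounds (m j)
    simp only [Pi.add_apply, Pi.sub_apply, lo, kf]
    omega
  · intro z hz
    simp only [Finset.mem_sigma, Fintype.mem_piFinset, Finset.mem_range] at hz
    have hk : kf (lo z.1 + z.2) = z.1 := by
      funext j
      exact log_lo _ _ (hz.2 j)
    rcases z with ⟨k, m⟩
    simp only at hk ⊢
    rw [hk]
    congr 1
    funext j
    simp
  · intro m _
    congr 1
    funext j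
    have h := log_bounds (m j)
    simp only [Pi.add_apply, Pi.sub_apply, lo, kf]
    omega

theorem rpow_half (x : ℝ) (hx : 0 ≤ x) : x ^ (-(1 / 2) : ℝ) = (√x)⁻¹ := by
  rw [Real.rpow_neg hx, Real.sqrt_eq_rpow]

theorem term_le (M N y : ℝ) (hM : 1 ≤ M) (hMN : M ≤ N) (hy0 : 0 ≤ y) (hy1 : y ≤ 1) :
    M * (1 + (M - 1) * y) ^ (-(1 / 2) : ℝ) ≤ 2 * √N * √M * (1 + N * y) ^ (-(1 / 2) : ℝ) := by
  have hu : 0 < 1 + (M - 1) * y := by nlinarith
  have hv : 0 < 1 + N * y := by nlinarith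
  rw [rpow_half _ hu.le, rpow_half _ hv.le]
  have su := Real.sqrt_pos.2 hu
  have sv := Real.sqrt_pos.2 hv
  have key : √M * √(1 + N * y) ≤ 2 * √N * √(1 + (M - 1) * y) := by
    have h4 : (2 : ℝ) = √4 := by
      rw [show (4 : ℝ) = 2 ^ 2 by norm_num, Real.sqrt_sq (by norm_num)]
    rw [h4, ← Real.sqrt_mul (by linarith), ← Real.sqrt_mul (by norm_num),
      ← Real.sqrt_mul (by linarith)]
    apply Real.sqrt_le_sqrt
    have h1 : 0 ≤ N * (1 - y) := mul_nonneg (by linarith) (by linarith)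
    have h2 : 0 ≤ N * y * (M - 1) := mul_nonneg (mul_nonneg (by linarith) hy0) (by linarith)
    nlinarith
  have hMM : M = √M * √M := (Real.mul_self_sqrt (by linarith)).symm
  rw [← div_eq_mul_inv, ← div_eq_mul_inv, div_le_div_iff₀ su sv]
  calc M * √(1 + N * y) = √M * (√M * √(1 + N * y)) := by rw [← mul_assoc, ← hMM]
    _ ≤ √M * (2 * √N * √(1 + (M - 1) * y)) :=
      mul_le_mul_of_nonneg_left key (Real.sqrt_nonneg _)
    _ = _ := by ring

theorem sum_sqrt (κ : ℕ) : ∑ k ∈ range (κ + 1), √((2 : ℝ) ^ k) ≤ 4 * √((2 : ℝ) ^ κ) := by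
  induction κ with
  | zero => simp
  | succ κ ih =>
    rw [Finset.sum_range_succ]
    have h2 : √((2 : ℝ) ^ (κ + 1)) = √((2 : ℝ) ^ κ) * √2 := by
      rw [pow_succ, Real.sqrt_mul (by positivity)]
    have h3 : (4 / 3 : ℝ) ≤ √2 := Real.le_sqrt_of_sq_le (by norm_num)
    have h4 := Real.sqrt_nonneg ((2 : ℝ) ^ κ)
    rw [h2]
    nlinarith

theorem sum_one (κ : ℕ) (y : ℝ) (hy0 : 0 ≤ y) (hy1 : y ≤ 1) :
    ∑ k ∈ range (κ + 1), (2 : ℝ) ^ k * (1 + ((2 ^ k - 1 : ℕ) : ℝ) * y) ^ (-(1 / 2) : ℝ)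
      ≤ 8 * (2 : ℝ) ^ κ * (1 + (2 : ℝ) ^ κ * y) ^ (-(1 / 2) : ℝ) := by
  have hv : 0 ≤ (1 + (2 : ℝ) ^ κ * y) ^ (-(1 / 2) : ℝ) := by positivity
  calc _ ≤ ∑ k ∈ range (κ + 1),
        2 * √((2 : ℝ) ^ κ) * √((2 : ℝ) ^ k) * (1 + (2 : ℝ) ^ κ * y) ^ (-(1 / 2) : ℝ) := by
        refine Finset.sum_le_sum fun k hk => ?_
        have hc : ((2 ^ k - 1 : ℕ) : ℝ) = (2 : ℝ) ^ k - 1 := by
          rw [Nat.cast_sub Nat.one_le_two_pow]; simp
        rw [hc]
        refine term_le _ _ _ (one_le_pow₀ (by norm_num)) ?_ hy0 hy1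
        exact pow_le_pow_right₀ (by norm_num) (by have := Finset.mem_range.1 hk; omega)
    _ = 2 * √((2 : ℝ) ^ κ) * (∑ k ∈ range (κ + 1), √((2 : ℝ) ^ k))
          * (1 + (2 : ℝ) ^ κ * y) ^ (-(1 / 2) : ℝ) := by
        rw [Finset.mul_sum, Finset.sum_mul]
    _ ≤ 2 * √((2 : ℝ) ^ κ) * (4 * √((2 : ℝ) ^ κ))
          * (1 + (2 : ℝ) ^ κ * y) ^ (-(1 / 2) : ℝ) := by
        gcongr
        exact sum_sqrt κ
    _ = 8 * (√((2 : ℝ) ^ κ) * √((2 : ℝ) ^ κ)) * (1 + (2 : ℝ) ^ κ * y) ^ (-(1 / 2) : ℝ) := by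
        ring
    _ = _ := by rw [Real.mul_self_sqrt (by positivity)]

theorem fs_shift (c : ℤ → ℂ) (b : ℂ) (P : ℤ) (t : ℝ) :
    fs (fun k => b * c (k + P)) t = b * ee (-(P * t)) * fs c t := by
  unfold fs
  rw [← (Equiv.addRight P).tsum_eq (fun k : ℤ => c k * ee (k * t)), ← tsum_mul_left]
  refine tsum_congr fun k => ?_
  have : ee (k * t) = ee (-(P * t)) * ee (((k + P : ℤ) : ℝ) * t) := by
    rw [← ee_add]; congr 1; push_cast; ring
  simp only [Equiv.coe_addRight]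
  rw [this]
  ring

end Pool.Agent.MP_ba99b7_an.Major

end MrgPart1

-- ======== part 2: formerly Pool.Agent.MP_ba99b7_an.Major
section MrgPart2

/-! PROJECT STRI, module MAJOR: bounds for the kernel of a dyadic box. -/

namespace Pool.Agent.MP_ba99b7_an

open scoped ComplexConjugate
open MeasureTheory Finset

namespace Major

variable {G : Type} [Group G] [TopologicalSpace G] [MeasurableSpace G] [TG G] {μ : Measure G}
  {r d : ℕ} (S : Sph μ r d)

omit [TG G] in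
theorem det_ne : ((-((S.e : ℤ) ^ 2)) • S.A).det ≠ 0 := by
  rw [Matrix.det_smul]
  have he : (S.e : ℤ) ≠ 0 := by have := S.e_pos; omega
  refine mul_ne_zero (pow_ne_zero _ (neg_ne_zero.2 (pow_ne_zero _ he))) fun h => ?_
  obtain ⟨v, hv, h0⟩ := Matrix.exists_mulVec_eq_zero_iff.2 h
  have hv' : (fun i => (v i : ℝ)) ≠ 0 := by
    intro h1
    apply hv
    funext i
    have := congrFun h1 i
    simpa using this
  have hp := S.A_pos _ hv'
  have hz : ∑ i, ∑ j, (S.A i j : ℝ) * (v i : ℝ) * (v j : ℝ) = 0 := by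
    refine Finset.sum_eq_zero fun i _ => ?_
    have h1 : ∑ j, S.A i j * v j = 0 := congrFun h0 i
    have h2 : ∑ j, (S.A i j : ℝ) * (v j : ℝ) = 0 := by exact_mod_cast h1
    calc _ = (v i : ℝ) * ∑ j, (S.A i j : ℝ) * (v j : ℝ) := by
          rw [Finset.mul_sum]; exact Finset.sum_congr rfl fun j _ => by ring
      _ = 0 := by rw [h2, mul_zero]
  exact absurd hz hp.ne'

omit [TG G] in
theorem P_shift (n m : Fin r → ℕ) :
    S.P (n + S.e • m) = S.P n - qf ((-((S.e : ℤ) ^ 2)) • S.A) m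
      + ∑ j, (S.e * (∑ i, (S.A i j + S.A j i) * n i) + S.e * S.bv j) * m j := by
  unfold Sph.P qf
  have h1 : ∑ j, ((S.e : ℤ) * (∑ i, (S.A i j + S.A j i) * n i) + S.e * S.bv j) * m j
      = ∑ i, ∑ j, S.A i j * n i * (S.e * m j) + ∑ i, ∑ j, S.A i j * (S.e * m i) * n j
        + ∑ j, S.bv j * (S.e * m j) := by
    rw [Finset.sum_comm (f := fun i j => S.A i j * n i * (S.e * m j)), ← Finset.sum_add_distrib,
      ← Finset.sum_add_distrib]
    refine Finset.sum_congr rfl fun j _ => ?_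
    rw [← Finset.sum_add_distrib, add_mul, Finset.mul_sum, Finset.sum_mul]
    congr 1
    · exact Finset.sum_congr rfl fun i _ => by ring
    · ring
  rw [h1]
  simp only [Pi.add_apply, Pi.smul_apply, smul_eq_mul, Matrix.smul_apply, Nat.cast_add,
    Nat.cast_mul]
  have h2 : ∑ i, ∑ j, S.A i j * ((n i : ℤ) + S.e * m i) * (n j + S.e * m j)
      = ∑ i, ∑ j, S.A i j * n i * n j - ∑ i, ∑ j, -((S.e : ℤ) ^ 2) * S.A i j * m i * m j
        + ∑ i, ∑ j, S.A i j * n i * (S.e * m j) + ∑ i, ∑ j, S.A i j * (S.e * m i) * n j := by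
    simp only [← Finset.sum_add_distrib, ← Finset.sum_sub_distrib]
    exact Finset.sum_congr rfl fun i _ => Finset.sum_congr rfl fun j _ => by ring
  have h3 : ∑ j, S.bv j * ((n j : ℤ) + S.e * m j)
      = ∑ j, S.bv j * n j + ∑ j, S.bv j * (S.e * m j) := by
    rw [← Finset.sum_add_distrib]
    exact Finset.sum_congr rfl fun j _ => by ring
  rw [h2, h3]
  ring

theorem integrable_of_cont (f : G → ℂ) (hf : Continuous f) : Integrable f S.ν := by
  have := S.ν_prob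
  exact hf.integrable_of_hasCompactSupport (HasCompactSupport.of_compactSpace _)

theorem integrable_of_cont' (f : G → ℝ) (hf : Continuous f) : Integrable f S.ν := by
  have := S.ν_prob
  exact hf.integrable_of_hasCompactSupport (HasCompactSupport.of_compactSpace _)

/-- The bound for one dyadic block. -/
theorem block_le (γ : Fin r → ℕ) (hγ : γ ∈ S.Λ) (C1 κ : ℕ)
    (hW : ∀ len : Fin r → ℕ, (∀ j, len j ≤ 2 ^ κ) → ∀ z : Fin r → ℂ, (∀ j, ‖z j‖ ≤ 1) →
      ∀ (x : ℝ) (b : Fin r → ℝ),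
        ‖∑ m ∈ Fintype.piFinset (fun j => Finset.range (len j)),
          ee (x * qf ((-((S.e : ℤ) ^ 2)) • S.A) m + ∑ j, b j * m j) * ∏ j, z j ^ m j‖ ^ 2
          ≤ ww C1 (2 ^ κ) x ^ r)
    (k : Fin r → ℕ) (hk : ∀ j, k j ≤ κ) (t : ℝ) (g : G) :
    ‖∑ m ∈ Fintype.piFinset (fun j : Fin r => range (2 ^ k j)),
        ee (-(S.P (γ + S.e • (lo k + m)) * t)) * S.φ (γ + S.e • (lo k + m)) g‖
      ≤ ww C1 (2 ^ κ) t ^ ((r : ℝ) / 2)
        * (S.Cd * ∏ j, (1 + (lo k j : ℝ) * (1 - S.ψ j g)) ^ (-(1 / 2) : ℝ)) := by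
  have hc : ∀ m : Fin r → ℕ, Continuous fun x : G => S.F γ (g * x) * ∏ j, S.f j (g * x) ^ m j :=
    fun m => ((S.F_cont γ hγ).comp (continuous_const_mul g)).mul
      (continuous_finsetProd _ fun j _ => ((S.f_cont j).comp (continuous_const_mul g)).pow _)
  have h1 : ∑ m ∈ Fintype.piFinset (fun j : Fin r => range (2 ^ k j)),
        ee (-(S.P (γ + S.e • (lo k + m)) * t)) * S.φ (γ + S.e • (lo k + m)) g
      = ∫ x, ∑ m ∈ Fintype.piFinset (fun j : Fin r => range (2 ^ k j)),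
          ee (-(S.P (γ + S.e • (lo k + m)) * t))
            * (S.F γ (g * x) * ∏ j, S.f j (g * x) ^ (lo k + m) j) ∂S.ν := by
    rw [integral_finsetSum _ fun m _ =>
      (integrable_of_cont S _ (hc (lo k + m))).const_mul _]
    refine Finset.sum_congr rfl fun m _ => ?_
    rw [integral_const_mul, S.φ_int γ hγ]
  have hww := ww_nonneg C1 (2 ^ κ) t
  have h2 : ∀ x : G, ‖∑ m ∈ Fintype.piFinset (fun j : Fin r => range (2 ^ k j)),
          ee (-(S.P (γ + S.e • (lo k + m)) * t))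
            * (S.F γ (g * x) * ∏ j, S.f j (g * x) ^ (lo k + m) j)‖
      ≤ ww C1 (2 ^ κ) t ^ ((r : ℝ) / 2) * ∏ j, ‖S.f j (g * x)‖ ^ lo k j := by
    intro x
    set n0 := γ + S.e • lo k with hn0
    set b : Fin r → ℝ := fun j =>
      -(t * ((S.e * (∑ i, (S.A i j + S.A j i) * n0 i) + S.e * S.bv j : ℤ) : ℝ)) with hb
    have h3 : ∑ m ∈ Fintype.piFinset (fun j : Fin r => range (2 ^ k j)),
          ee (-(S.P (γ + S.e • (lo k + m)) * t))
            * (S.F γ (g * x) * ∏ j, S.f j (g * x) ^ (lo k + m) j)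
        = (ee (-(S.P n0 * t)) * S.F γ (g * x) * ∏ j, S.f j (g * x) ^ lo k j)
          * ∑ m ∈ Fintype.piFinset (fun j : Fin r => range (2 ^ k j)),
            ee (t * qf ((-((S.e : ℤ) ^ 2)) • S.A) m + ∑ j, b j * m j)
              * ∏ j, S.f j (g * x) ^ m j := by
      rw [Finset.mul_sum]
      refine Finset.sum_congr rfl fun m _ => ?_
      have h4 : γ + S.e • (lo k + m) = n0 + S.e • m := by rw [hn0, smul_add, add_assoc]
      have h5 : -((S.P (n0 + S.e • m) : ℝ) * t) = -(S.P n0 * t)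
          + (t * qf ((-((S.e : ℤ) ^ 2)) • S.A) m + ∑ j, b j * m j) := by
        have h6 : ∑ j, b j * m j = -(t * ((∑ j, (S.e * (∑ i, (S.A i j + S.A j i) * n0 i)
            + S.e * S.bv j) * m j : ℤ) : ℝ)) := by
          rw [Int.cast_sum, Finset.mul_sum, ← Finset.sum_neg_distrib]
          refine Finset.sum_congr rfl fun j _ => ?_
          rw [hb, Int.cast_mul, Int.cast_natCast]
          ring
        rw [h6, P_shift, Int.cast_add, Int.cast_sub]
        ring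
      rw [h4, h5, ee_add]
      simp only [Pi.add_apply, pow_add, Finset.prod_mul_distrib]
      ring
    have h7 := hW (fun j => 2 ^ k j) (fun j => Nat.pow_le_pow_right (by norm_num) (hk j))
      (fun j => S.f j (g * x)) (fun j => S.f_le j _) t b
    have h8 : ‖∑ m ∈ Fintype.piFinset (fun j : Fin r => range (2 ^ k j)),
            ee (t * qf ((-((S.e : ℤ) ^ 2)) • S.A) m + ∑ j, b j * m j)
              * ∏ j, S.f j (g * x) ^ m j‖ ≤ ww C1 (2 ^ κ) t ^ ((r : ℝ) / 2) := by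
      refine le_of_sq_le_sq (h7.trans (le_of_eq ?_)) (by positivity)
      rw [← Real.rpow_natCast, ← Real.rpow_natCast, ← Real.rpow_mul hww]
      congr 1
      push_cast
      ring
    rw [h3, norm_mul, norm_mul, norm_mul, norm_ee, one_mul, norm_prod, mul_comm]
    simp only [norm_pow]
    have h9 : 0 ≤ ∏ j, ‖S.f j (g * x)‖ ^ lo k j := by positivity
    have h10 := S.F_le γ hγ (g * x)
    refine mul_le_mul h8 ?_ (by positivity) (by positivity)
    exact mul_le_of_le_one_left h9 h10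
  rw [h1]
  refine (norm_integral_le_of_norm_le ?_ (Filter.Eventually.of_forall h2)).trans ?_
  · refine (integrable_of_cont' S _ ?_).const_mul _
    exact continuous_finsetProd _ fun j _ =>
      ((S.f_cont j).comp (continuous_const_mul g)).norm.pow _
  · rw [integral_const_mul]
    exact mul_le_mul_of_nonneg_left (S.W (lo k) g) (by positivity)

omit [TG G] in
theorem one_le_Cd (γ : Fin r → ℕ) (hγ : γ ∈ S.Λ) : 1 ≤ S.Cd := by
  have h := S.dim_dbl γ hγ γ hγ 1 le_rfl (fun j => by rw [one_mul])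
  have hp : (0 : ℝ) < S.dim γ := by exact_mod_cast S.dim_pos γ hγ
  rw [one_pow, mul_one] at h
  by_contra h1
  push Not at h1
  nlinarith

/-- The weight making the multiplicity constant on dyadic blocks. -/
noncomputable def bet (γ : Fin r → ℕ) (n : Fin r → ℕ) : ℝ :=
  (S.dim (γ + S.e • hi (kf fun j => (n j - γ j) / S.e)) : ℝ) / S.dim n

omit [TG G] in
theorem bet_eq (γ m : Fin r → ℕ) :
    bet S γ (γ + S.e • m) = (S.dim (γ + S.e • hi (kf m)) : ℝ) / S.dim (γ + S.e • m) := by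
  unfold bet
  have : (fun j => ((γ + S.e • m) j - γ j) / S.e) = m := by
    funext j
    simp only [Pi.add_apply, Pi.smul_apply, smul_eq_mul, Nat.add_sub_cancel_left]
    exact Nat.mul_div_cancel_left _ S.e_pos
  rw [this]

omit [TG G] in
theorem bet_bounds (γ : Fin r → ℕ) (hγ : γ ∈ S.Λ) (m : Fin r → ℕ) :
    1 ≤ bet S γ (γ + S.e • m) ∧ bet S γ (γ + S.e • m) ≤ S.Cd * 2 ^ S.Mx := by
  rw [bet_eq]
  have hm := S.up γ hγ m
  have hp : (0 : ℝ) < S.dim (γ + S.e • m) := by exact_mod_cast S.dim_pos _ hm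
  constructor
  · rw [one_le_div hp]
    have h1 := S.dim_mono _ hm (hi (kf m) - m)
    have h2 : γ + S.e • m + S.e • (hi (kf m) - m) = γ + S.e • hi (kf m) := by
      rw [add_assoc, ← smul_add]
      congr 2
      funext j
      have h := log_bounds (m j)
      simp only [Pi.add_apply, Pi.sub_apply, hi, kf]
      omega
    rw [h2] at h1
    exact_mod_cast h1
  · rw [div_le_iff₀ hp]
    refine S.dim_dbl _ hm _ (S.up γ hγ _) 2 (by norm_num) fun j => ?_
    have h := log_bounds (m j)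
    have h3 : hi (kf m) j ≤ 2 * m j := by
      simp only [hi, kf]
      omega
    have h4 : 1 + (γ + S.e • hi (kf m)) j ≤ 2 * (1 + (γ + S.e • m) j) := by
      simp only [Pi.add_apply, Pi.smul_apply, smul_eq_mul]
      have := Nat.mul_le_mul_left S.e h3
      nlinarith
    exact_mod_cast h4

omit [TG G] in
theorem dim_hi_le (γ : Fin r → ℕ) (hγ : γ ∈ S.Λ) (κ : ℕ) (k : Fin r → ℕ) (hk : ∀ j, k j ≤ κ) :
    (S.dim (γ + S.e • hi k) : ℝ) ≤ S.Cd * ((1 + ∑ i, γ i + 2 * S.e : ℕ) : ℝ) ^ (d - 2 * r + r)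
      * ((2 : ℝ) ^ κ) ^ (d - 2 * r) * ∏ j, (2 : ℝ) ^ k j := by
  set Γ : ℕ := 1 + ∑ i, γ i + 2 * S.e with hΓ
  have h1 : ∀ j, (1 + ((γ + S.e • hi k) j : ℕ) : ℝ) ≤ Γ * (2 : ℝ) ^ k j := by
    intro j
    have h2 : γ j ≤ ∑ i, γ i :=
      Finset.single_le_sum (f := γ) (fun i _ => Nat.zero_le _) (Finset.mem_univ j)
    have h3 : 1 ≤ 2 ^ k j := Nat.one_le_two_pow
    have h4 : 1 + (γ + S.e • hi k) j ≤ Γ * 2 ^ k j := by
      simp only [Pi.add_apply, Pi.smul_apply, smul_eq_mul, hi]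
      have h5 : S.e * (2 * (2 ^ k j - 1)) ≤ S.e * (2 * 2 ^ k j) :=
        Nat.mul_le_mul_left _ (by omega)
      have h6 : (1 + ∑ i, γ i) * 1 ≤ (1 + ∑ i, γ i) * 2 ^ k j := Nat.mul_le_mul_left _ h3
      rw [hΓ]
      nlinarith
    exact_mod_cast h4
  have hΓ1 : (1 : ℝ) ≤ Γ := by
    have : 1 ≤ Γ := by omega
    exact_mod_cast this
  have hN : (1 : ℝ) ≤ 2 ^ κ := one_le_pow₀ (by norm_num)
  have hCd := one_le_Cd S γ hγ
  have h7 := S.dim_le _ (S.up γ hγ (hi k)) (Γ * (2 : ℝ) ^ κ) (fun j => (h1 j).trans (by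
    gcongr
    · norm_num
    · exact hk j)) (by nlinarith)
  refine h7.trans ?_
  have h8 : ∏ j, (1 + ((γ + S.e • hi k) j : ℕ) : ℝ) ≤ ∏ j : Fin r, (Γ * (2 : ℝ) ^ k j) :=
    Finset.prod_le_prod (fun j _ => by positivity) fun j _ => h1 j
  rw [Finset.prod_mul_distrib, Finset.prod_const, Finset.card_univ, Fintype.card_fin] at h8
  calc _ ≤ S.Cd * (Γ * (2 : ℝ) ^ κ) ^ (d - 2 * r) * ((Γ : ℝ) ^ r * ∏ j, (2 : ℝ) ^ k j) := by
        gcongr
    _ = _ := by rw [mul_pow, pow_add]; ring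

/-- The bound for the kernel of a dyadic box. -/
theorem ker_le (hW : WeylStmt) (γ : Fin r → ℕ) (hγ : γ ∈ S.Λ) :
    ∃ (C1 : ℕ) (C : ℝ), 0 ≤ C ∧ ∀ (κ : ℕ) (t : ℝ) (g : G),
      ‖S.ker (S.box γ κ) S.P (bet S γ) t g‖ ≤ C * ww C1 (2 ^ κ) t ^ ((r : ℝ) / 2)
        * ((2 : ℝ) ^ κ) ^ (d - 2 * r + r)
        * ∏ j, (1 + (2 : ℝ) ^ κ * (1 - S.ψ j g)) ^ (-(1 / 2) : ℝ) := by
  obtain ⟨C1, h1⟩ := hW r _ (S.A_symm.smul (-((S.e : ℤ) ^ 2))) (det_ne S)
  have hCd := one_le_Cd S γ hγ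
  set Γ : ℝ := ((1 + ∑ i, γ i + 2 * S.e : ℕ) : ℝ) ^ (d - 2 * r + r) with hΓ
  have hΓ0 : 0 ≤ Γ := by positivity
  refine ⟨C1, S.Cd * Γ * S.Cd * 8 ^ r, by positivity, fun κ t g => ?_⟩
  have hww := ww_nonneg C1 (2 ^ κ) t
  have h2 : S.ker (S.box γ κ) S.P (bet S γ) t g
      = ∑ k ∈ Fintype.piFinset (fun _ : Fin r => range (κ + 1)),
          (S.dim (γ + S.e • hi k) : ℂ)
          * ∑ m ∈ Fintype.piFinset (fun j : Fin r => range (2 ^ k j)),
            ee (-(S.P (γ + S.e • (lo k + m)) * t)) * S.φ (γ + S.e • (lo k + m)) g := by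
    unfold Orth.ker Sph.box
    rw [Finset.sum_image]
    · have h3 := sum_split κ fun k m => (S.dim (γ + S.e • hi k) : ℂ)
        * (ee (-(S.P (γ + S.e • m) * t)) * S.φ (γ + S.e • m) g)
      simp only [← Finset.mul_sum] at h3
      rw [← h3]
      refine Finset.sum_congr rfl fun m _ => ?_
      have hp : (S.dim (γ + S.e • m) : ℂ) ≠ 0 := by
        exact_mod_cast (S.dim_pos _ (S.up γ hγ m)).ne'
      rw [bet_eq]
      push_cast
      field_simp
    · intro m _ m' _ h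
      funext j
      have h4 := congrFun h j
      simp only [Pi.add_apply, Pi.smul_apply, smul_eq_mul] at h4
      exact Nat.eq_of_mul_eq_mul_left S.e_pos (by omega)
  have hy : ∀ j, 0 ≤ 1 - S.ψ j g ∧ 1 - S.ψ j g ≤ 1 := fun j =>
    ⟨by linarith [S.ψ_le j g], by linarith [S.ψ_nonneg j g]⟩
  rw [h2]
  calc _ ≤ ∑ k ∈ Fintype.piFinset (fun _ : Fin r => range (κ + 1)),
        (S.Cd * Γ * ((2 : ℝ) ^ κ) ^ (d - 2 * r) * ∏ j, (2 : ℝ) ^ k j)
          * (ww C1 (2 ^ κ) t ^ ((r : ℝ) / 2)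
            * (S.Cd * ∏ j, (1 + (lo k j : ℝ) * (1 - S.ψ j g)) ^ (-(1 / 2) : ℝ))) := by
        refine (norm_sum_le _ _).trans (Finset.sum_le_sum fun k hk => ?_)
        have hk' : ∀ j, k j ≤ κ := fun j => by
          have := Finset.mem_range.1 (Fintype.mem_piFinset.1 hk j)
          omega
        rw [norm_mul, Complex.norm_natCast]
        exact mul_le_mul (dim_hi_le S γ hγ κ k hk')
          (block_le S γ hγ C1 κ (h1 (2 ^ κ) Nat.one_le_two_pow) k hk' t g) (norm_nonneg _)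
          (by positivity)
    _ = S.Cd * Γ * S.Cd * ww C1 (2 ^ κ) t ^ ((r : ℝ) / 2) * ((2 : ℝ) ^ κ) ^ (d - 2 * r)
          * ∏ j, ∑ k ∈ range (κ + 1),
            (2 : ℝ) ^ k * (1 + ((2 ^ k - 1 : ℕ) : ℝ) * (1 - S.ψ j g)) ^ (-(1 / 2) : ℝ) := by
        rw [Finset.prod_univ_sum, Finset.mul_sum]
        refine Finset.sum_congr rfl fun k _ => ?_
        rw [Finset.prod_mul_distrib]
        simp only [lo]
        ring
    _ ≤ S.Cd * Γ * S.Cd * ww C1 (2 ^ κ) t ^ ((r : ℝ) / 2) * ((2 : ℝ) ^ κ) ^ (d - 2 * r)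
          * ∏ j, (8 * (2 : ℝ) ^ κ * (1 + (2 : ℝ) ^ κ * (1 - S.ψ j g)) ^ (-(1 / 2) : ℝ)) := by
        refine mul_le_mul_of_nonneg_left ?_ (by positivity)
        refine Finset.prod_le_prod (fun j _ => Finset.sum_nonneg fun k _ => ?_) fun j _ =>
          sum_one κ _ (hy j).1 (hy j).2
        have := (hy j).1
        positivity
    _ = _ := by
        rw [Finset.prod_mul_distrib, Finset.prod_const, Finset.card_univ, Fintype.card_fin,
          mul_pow, pow_add]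
        ring

end Major

open Major in
theorem major_of (h1 : WeylStmt) (h2 : ArcStmt) : MajorStmt := by
  intro G _ _ _ _ μ _ r d S γ hγ θ ε hθ0 hθ1 hθ hε
  obtain ⟨C1, C, hC, hker⟩ := ker_le S h1 γ hγ
  obtain ⟨Ca, harc⟩ := h2 r C1 θ ε hθ0 hθ1 hθ hε
  have hCd := one_le_Cd S γ hγ
  set Cb : ℝ := S.Cd * 2 ^ S.Mx with hCb
  have hCb0 : 0 ≤ Cb := by positivity
  set D : ℝ := C + Cb with hD
  have hD0 : 0 ≤ D := by positivity
  refine ⟨D + D * |Ca| + |Ca|, fun κ => ?_⟩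
  obtain ⟨J, c, c0, A, B, hs, hs0, hone, hA, hB, hcA, hcB, hsum, hc0, hc00, hc0k⟩ := harc κ
  set N : ℝ := (2 : ℝ) ^ κ with hN
  have hN0 : 0 < N := by positivity
  have hCa := le_abs_self Ca
  have hCa0 := abs_nonneg Ca
  have hDC : 0 ≤ D * |Ca| := by positivity
  have hbox : ∀ n ∈ S.box γ κ, n ∈ S.Λ ∧ 1 ≤ bet S γ n ∧ bet S γ n ≤ Cb := by
    intro n hn
    obtain ⟨m, -, rfl⟩ := Finset.mem_image.1 hn
    exact ⟨S.up γ hγ m, bet_bounds S γ hγ m⟩
  have hpr : ∀ g, 0 ≤ ∏ j, (1 + N * (1 - S.ψ j g)) ^ (-(1 / 2) : ℝ)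
      ∧ ∏ j, (1 + N * (1 - S.ψ j g)) ^ (-(1 / 2) : ℝ) ≤ 1 := by
    intro g
    have hy : ∀ j, 0 ≤ N * (1 - S.ψ j g) := fun j =>
      mul_nonneg hN0.le (by linarith [S.ψ_le j g])
    have h0 : ∀ j, 0 ≤ (1 + N * (1 - S.ψ j g)) ^ (-(1 / 2) : ℝ) := fun j =>
      Real.rpow_nonneg (by linarith [hy j]) _
    refine ⟨Finset.prod_nonneg fun j _ => h0 j, Finset.prod_le_one (fun j _ => h0 j) fun j _ => ?_⟩
    exact Real.rpow_le_one_of_one_le_of_nonpos (by linarith [hy j]) (by norm_num)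
  have hd : d - 2 * r + r + r = d := by have := S.two_r; omega
  refine ⟨bet S γ, c0, J, fun p t g => fs (c p) t * S.ker (S.box γ κ) S.P (bet S γ) t g,
    fun p => D * (A p * N ^ d), fun p => D * (B p / N ^ 2), ?_, ?_, ?_, ?_, ?_, ?_, hs0, ?_, ?_, ?_⟩
  · intro n hn
    exact ⟨(hbox n hn).2.1, by linarith [(hbox n hn).2.2]⟩
  · intro t g
    rw [← Finset.sum_mul, ← add_mul, hone, one_mul]
  · intro p t g
    have hw := ww_nonneg C1 (2 ^ κ) t
    have hAp := hA p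
    rw [norm_mul]
    calc _ ≤ ‖fs (c p) t‖ * (C * ww C1 (2 ^ κ) t ^ ((r : ℝ) / 2) * N ^ (d - 2 * r + r) * 1) := by
          refine mul_le_mul_of_nonneg_left ((hker κ t g).trans ?_) (norm_nonneg _)
          exact mul_le_mul_of_nonneg_left (hpr g).2 (by positivity)
      _ = C * (‖fs (c p) t‖ * ww C1 (2 ^ κ) t ^ ((r : ℝ) / 2)) * N ^ (d - 2 * r + r) := by ring
      _ ≤ D * (A p * N ^ r) * N ^ (d - 2 * r + r) := by
          refine mul_le_mul_of_nonneg_right ?_ (by positivity)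
          exact mul_le_mul (by linarith) (hcA p t) (by positivity) hD0
      _ = D * (A p * N ^ (d - 2 * r + r + r)) := by ring
      _ = _ := by rw [hd]
  · intro p
    have := hB p
    positivity
  · intro p
    refine ⟨S.box γ κ, fun n k => bet S γ n * c p (k + S.P n), fun n hn => (hbox n hn).1,
      fun n _ => ?_, fun n hn k => ?_, fun t g => ?_⟩
    · simp only [norm_mul]
      exact ((Equiv.addRight (S.P n)).summable_iff.2 (hs p)).mul_left _
    · obtain ⟨-, h3, h4⟩ := hbox n hn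
      rw [norm_mul, Complex.norm_real, Real.norm_of_nonneg (by linarith)]
      exact mul_le_mul (by linarith) (hcB p _) (norm_nonneg _) hD0
    · unfold Orth.ker
      beta_reduce
      rw [Finset.mul_sum]
      refine Finset.sum_congr rfl fun n _ => ?_
      rw [fs_shift]
      ring
  · have h3 : ∀ p, (D * (A p * N ^ d)) ^ (1 - θ) * (D * (B p / N ^ 2)) ^ θ
        = D * N ^ (d * (1 - θ) - 2 * θ) * (A p ^ (1 - θ) * B p ^ θ) := by
      intro p
      have hAp := hA p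
      have hBp := hB p
      have h4 : D ^ (1 - θ) * D ^ θ = D := by
        rw [← Real.rpow_add' hD0 (by simp)]; simp
      have h5 : (N ^ d) ^ (1 - θ) / (N ^ 2) ^ θ = N ^ (d * (1 - θ) - 2 * θ) := by
        rw [← Real.rpow_natCast, ← Real.rpow_natCast, ← Real.rpow_mul hN0.le,
          ← Real.rpow_mul hN0.le, ← Real.rpow_sub hN0]
        norm_num
      rw [Real.mul_rpow hD0 (by positivity), Real.mul_rpow hD0 (by positivity),
        Real.mul_rpow hAp (by positivity), Real.div_rpow hBp (by positivity), ← h5]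
      calc _ = (D ^ (1 - θ) * D ^ θ) * ((N ^ d) ^ (1 - θ) / (N ^ 2) ^ θ)
            * (A p ^ (1 - θ) * B p ^ θ) := by ring
        _ = _ := by rw [h4]
    simp only [h3]
    rw [← Finset.mul_sum]
    have h6 : 0 ≤ N ^ (d * (1 - θ) - 2 * θ) := by positivity
    calc _ ≤ D * N ^ (d * (1 - θ) - 2 * θ) * |Ca| :=
          mul_le_mul_of_nonneg_left (hsum.trans hCa) (by positivity)
      _ = D * |Ca| * N ^ (d * (1 - θ) - 2 * θ) := by ring
      _ ≤ _ := mul_le_mul_of_nonneg_right (by linarith) h6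
  · linarith
  · intro k hk
    exact (hc0k k hk).trans (mul_le_mul_of_nonneg_right (by linarith) (by positivity))
  · intro t g
    have hw := ww_nonneg C1 (2 ^ κ) t
    have h3 : N ^ ((r : ℝ) / 2 + ε) * N ^ (d - 2 * r + r) = N ^ ((d : ℝ) - r / 2 + ε) := by
      rw [← Real.rpow_natCast, ← Real.rpow_add hN0]
      congr 1
      have h4 : ((d - 2 * r + r + r : ℕ) : ℝ) = d := by rw [hd]
      push_cast at h4 ⊢
      linarith
    have h5 := (hpr g).1
    rw [norm_mul]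
    calc _ ≤ ‖fs c0 t‖ * (C * ww C1 (2 ^ κ) t ^ ((r : ℝ) / 2) * N ^ (d - 2 * r + r)
            * ∏ j, (1 + N * (1 - S.ψ j g)) ^ (-(1 / 2) : ℝ)) :=
          mul_le_mul_of_nonneg_left (hker κ t g) (norm_nonneg _)
      _ = C * (‖fs c0 t‖ * ww C1 (2 ^ κ) t ^ ((r : ℝ) / 2)) * N ^ (d - 2 * r + r)
            * ∏ j, (1 + N * (1 - S.ψ j g)) ^ (-(1 / 2) : ℝ) := by ring
      _ ≤ D * (|Ca| * N ^ ((r : ℝ) / 2 + ε)) * N ^ (d - 2 * r + r)
            * ∏ j, (1 + N * (1 - S.ψ j g)) ^ (-(1 / 2) : ℝ) := by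
          refine mul_le_mul_of_nonneg_right (mul_le_mul_of_nonneg_right ?_ (by positivity)) h5
          refine mul_le_mul (by linarith) ((hc0 t).trans ?_) (by positivity) hD0
          exact mul_le_mul_of_nonneg_right hCa (by positivity)
      _ = D * |Ca| * (N ^ ((r : ℝ) / 2 + ε) * N ^ (d - 2 * r + r))
            * ∏ j, (1 + N * (1 - S.ψ j g)) ^ (-(1 / 2) : ℝ) := by ring
      _ ≤ _ := by
          rw [h3]
          refine mul_le_mul_of_nonneg_right (mul_le_mul_of_nonneg_right ?_ (by positivity)) h5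
          linarith

end Pool.Agent.MP_ba99b7_an

end MrgPart2

-- ======== part 3: formerly Pool.Agent.MP_ba99b7_an.Step
section MrgPart3

/-! PROJECT STRI, module STEP: products of spherical functions. -/

set_option linter.unusedSectionVars false

namespace Pool.Agent.MP_ba99b7_an

open scoped ComplexConjugate RealInnerProductSpace Topology
open MeasureTheory Module Submodule

namespace Step

variable {V : Type} [NormedAddCommGroup V] [InnerProductSpace ℝ V] [FiniteDimensional ℝ V]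
  {G : Type} [Group G] [TopologicalSpace G] [MeasurableSpace G] [TG G]
  {μ : Measure G} [BiH μ] {S : Sym V G} {r : ℕ} {R : Roots S r} (W : HWD R μ)

theorem span_orb {n : Fin r → ℕ} (hn : n ∈ W.Λ) :
    span ℂ (Set.range (W.bas n)) = orb (W.F n) := W.span_eq n hn

theorem F_rep {n : Fin r → ℕ} (hn : n ∈ W.Λ) : IsRep (W.F n) := (W.hw n hn).1.1

theorem bas_mem {n : Fin r → ℕ} (hn : n ∈ W.Λ) (i : Fin (W.dim n)) :
    W.bas n i ∈ orb (W.F n) := by
  rw [← span_orb W hn]; exact subset_span ⟨i, rfl⟩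

theorem φ_mem {n : Fin r → ℕ} (hn : n ∈ W.Λ) : W.φ n ∈ orb (W.F n) := by
  rw [← span_orb W hn]; exact W.φ_mem n hn

theorem φ_rep {n : Fin r → ℕ} (hn : n ∈ W.Λ) : IsRep (W.φ n) :=
  (F_rep W hn).of_orb (φ_mem W hn)

theorem expand {n : Fin r → ℕ} (hn : n ∈ W.Λ) {v : G → ℂ} (hv : v ∈ orb (W.F n)) :
    v = ∑ i, ip μ (W.bas n i) v • W.bas n i :=
  eq_sum_ip μ (W.bas_cont n hn) (W.orth_same n hn) (by rw [span_orb W hn]; exact hv)

theorem ip_orth {n m : Fin r → ℕ} (hn : n ∈ W.Λ) (hm : m ∈ W.Λ) (hnm : n ≠ m) {u v : G → ℂ}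
    (hu : u ∈ orb (W.F n)) (hv : v ∈ orb (W.F m)) : ip μ u v = 0 := by
  have hvc : Continuous v := ((F_rep W hm).of_orb hv).1
  rw [expand W hn hu, ip_sum_left μ _ hvc fun i _ => (W.bas_cont n hn i).const_smul _]
  refine Finset.sum_eq_zero fun i _ => ?_
  rw [ip_smul_left, expand W hm hv,
    ip_sum_right μ _ (W.bas_cont n hn i) fun l _ => (W.bas_cont m hm l).const_smul _,
    Finset.sum_eq_zero, mul_zero]
  intro l _
  rw [ip_smul_right]
  have : ip μ (W.bas n i) (W.bas m l) = 0 := W.orth_ne n hn m hm hnm i l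
  rw [this, mul_zero]

/-! ### Positivity -/

theorem T_eq {n0 n n' : Fin r → ℕ} (h0 : n0 ∈ W.Λ) (hn : n ∈ W.Λ) (hn' : n' ∈ W.Λ) :
    (W.dim n0 * W.dim n * W.dim n' : ℂ) * W.T n0 n n'
      = ((∑ i, ∑ l, ∑ k, ‖ip μ (W.bas n' k) (W.bas n0 i * W.bas n l)‖ ^ 2 : ℝ) : ℂ) := by
  set c : Fin (W.dim n0) → Fin (W.dim n) → Fin (W.dim n') → G → ℂ :=
    fun i l k x => conj (W.bas n' k x) * (W.bas n0 i * W.bas n l) x with hc
  have hcc : ∀ i l k, Continuous (c i l k) := fun i l k =>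
    (Complex.continuous_conj.comp (W.bas_cont n' hn' k)).mul
      ((W.bas_cont n0 h0 i).mul (W.bas_cont n hn l))
  have h1 : ∀ y, (W.dim n0 * W.dim n * W.dim n' : ℂ) * W.T n0 n n'
      = ∑ i, ∑ l, ∑ k, ip μ (W.bas n' k) (W.bas n0 i * W.bas n l) * conj (c i l k y) := by
    intro y
    unfold HWD.T
    rw [← integral_mul_right_eq_self _ y⁻¹, ← integral_const_mul]
    have h2 : ∀ x, (W.dim n0 * W.dim n * W.dim n' : ℂ)
        * (W.φ n0 (x * y⁻¹) * W.φ n (x * y⁻¹) * conj (W.φ n' (x * y⁻¹)))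
        = ∑ i, ∑ l, ∑ k, c i l k x * conj (c i l k y) := by
      intro x
      have h3 : (W.dim n0 * W.dim n * W.dim n' : ℂ)
          * (W.φ n0 (x * y⁻¹) * W.φ n (x * y⁻¹) * conj (W.φ n' (x * y⁻¹)))
          = (W.dim n0 * W.φ n0 (x * y⁻¹)) * ((W.dim n * W.φ n (x * y⁻¹))
            * conj (W.dim n' * W.φ n' (x * y⁻¹))) := by
        rw [map_mul, Complex.conj_natCast]; ring
      rw [h3, ← W.repr n0 h0, ← W.repr n hn, ← W.repr n' hn', map_sum, Finset.sum_mul]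
      refine Finset.sum_congr rfl fun i _ => ?_
      rw [Finset.sum_mul, Finset.mul_sum]
      refine Finset.sum_congr rfl fun l _ => ?_
      rw [Finset.mul_sum, Finset.mul_sum]
      refine Finset.sum_congr rfl fun k _ => ?_
      simp only [hc, Pi.mul_apply, map_mul, Complex.conj_conj]
      ring
    simp_rw [h2]
    rw [integral_finsetSum _ fun i _ => integrable_finsetSum _ fun l _ =>
      integrable_finsetSum _ fun k _ => (cont_int μ (hcc i l k)).mul_const _]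
    refine Finset.sum_congr rfl fun i _ => ?_
    rw [integral_finsetSum _ fun l _ =>
      integrable_finsetSum _ fun k _ => (cont_int μ (hcc i l k)).mul_const _]
    refine Finset.sum_congr rfl fun l _ => ?_
    rw [integral_finsetSum _ fun k _ => (cont_int μ (hcc i l k)).mul_const _]
    refine Finset.sum_congr rfl fun k _ => ?_
    rw [integral_mul_const]
    rfl
  have hcj : ∀ i l k, Integrable (fun y => conj (c i l k y)) μ := fun i l k =>
    cont_int μ (Complex.continuous_conj.comp (hcc i l k))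
  have h4 : (W.dim n0 * W.dim n * W.dim n' : ℂ) * W.T n0 n n'
      = ∫ y, ∑ i, ∑ l, ∑ k, ip μ (W.bas n' k) (W.bas n0 i * W.bas n l) * conj (c i l k y) ∂μ := by
    simp_rw [← h1]
    simp
  rw [h4, integral_finsetSum _ fun i _ => integrable_finsetSum _ fun l _ =>
      integrable_finsetSum _ fun k _ => (hcj i l k).const_mul _]
  push_cast
  refine Finset.sum_congr rfl fun i _ => ?_
  rw [integral_finsetSum _ fun l _ => integrable_finsetSum _ fun k _ => (hcj i l k).const_mul _]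
  refine Finset.sum_congr rfl fun l _ => ?_
  rw [integral_finsetSum _ fun k _ => (hcj i l k).const_mul _]
  refine Finset.sum_congr rfl fun k _ => ?_
  rw [integral_const_mul, integral_conj, ← Complex.mul_conj']
  rfl

theorem T_real {n0 n n' : Fin r → ℕ} (h0 : n0 ∈ W.Λ) (hn : n ∈ W.Λ) (hn' : n' ∈ W.Λ) :
    W.T n0 n n' = (((∑ i, ∑ l, ∑ k, ‖ip μ (W.bas n' k) (W.bas n0 i * W.bas n l)‖ ^ 2)
      / (W.dim n0 * W.dim n * W.dim n') : ℝ) : ℂ) := by
  have h1 : (W.dim n0 : ℂ) ≠ 0 := by exact_mod_cast (W.dim_pos n0 h0).ne'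
  have h2 : (W.dim n : ℂ) ≠ 0 := by exact_mod_cast (W.dim_pos n hn).ne'
  have h3 : (W.dim n' : ℂ) ≠ 0 := by exact_mod_cast (W.dim_pos n' hn').ne'
  rw [Complex.ofReal_div, ← T_eq W h0 hn hn']
  push_cast
  field_simp

/-! ### The support -/

theorem Nm_mem_orb {f v : G → ℂ} (hf : IsRep f) (hv : v ∈ orb f) (i : Fin R.m) :
    R.Nm i v ∈ orb f :=
  sub_mem (Sym.D_mem_orb hf hv _) (smul_mem _ _ (Sym.D_mem_orb hf hv _))

theorem all_zero {n0 n n' : Fin r → ℕ} (h0 : n0 ∈ W.Λ) (hn : n ∈ W.Λ) (hn' : n' ∈ W.Λ)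
    (h : ∀ u ∈ orb (W.F n0), ip μ (W.F n') (u * W.F n) = 0) :
    ∀ w ∈ orb (W.F n'), ∀ u ∈ orb (W.F n0), ∀ v ∈ orb (W.F n), ip μ w (u * v) = 0 := by
  have hF' := F_rep W hn'
  let U : Submodule ℂ (G → ℂ) :=
    { carrier := {v | IsRep v ∧ ∀ u ∈ orb (W.F n0), ip μ (W.F n') (u * v) = 0}
      add_mem' := by
        rintro a b ⟨ha, ha'⟩ ⟨hb, hb'⟩
        refine ⟨ha.add hb, fun u hu => ?_⟩
        have huc := ((F_rep W h0).of_orb hu).1
        rw [mul_add, ip_add_right μ hF'.1 (huc.mul ha.1) (huc.mul hb.1), ha' u hu, hb' u hu,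
          add_zero]
      zero_mem' := ⟨isRep_zero, fun u _ => by rw [mul_zero, ip_zero_right]⟩
      smul_mem' := by
        rintro c a ⟨ha, ha'⟩
        refine ⟨ha.smul c, fun u hu => ?_⟩
        rw [mul_smul_comm, ip_smul_right, ha' u hu, mul_zero] }
  have hU : orb (W.F n) ≤ U := by
    rw [← span_orb W hn]
    refine W.lower n hn U ⟨F_rep W hn, h⟩ ?_
    rintro v ⟨hv, hv'⟩ - i
    refine ⟨R.isRep_Nm hv i, fun u hu => ?_⟩
    have hur := (F_rep W h0).of_orb hu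
    have h1 : u * R.Nm i v = R.Nm i (u * v) - R.Nm i u * v := by
      rw [R.Nm_mul hur hv]; ring
    rw [h1, ip_sub_right μ hF'.1 (R.isRep_Nm (hur.mul hv) i).1 ((R.isRep_Nm hur i).mul hv).1,
      R.ip_Nm μ hF' (hur.mul hv), (W.hw n' hn').1.2.1 i, ip_zero_left,
      hv' _ (Nm_mem_orb (F_rep W h0) hu i)]
    simp
  intro w hw u hu v hv
  have huv : Continuous (u * v) := ((F_rep W h0).of_orb hu).1.mul ((F_rep W hn).of_orb hv).1
  have key : IsRep w ∧ ip μ w (u * v) = 0 := by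
    refine span_induction (p := fun w _ => IsRep w ∧ ip μ w (u * v) = 0) ?_ ?_ ?_ ?_ hw
    · rintro _ ⟨g, rfl⟩
      refine ⟨hF'.rt g, ?_⟩
      rw [ip_Rt_left]
      exact (hU (Rt_mem_orb hv g⁻¹)).2 _ (Rt_mem_orb hu g⁻¹)
    · exact ⟨isRep_zero, ip_zero_left μ _⟩
    · rintro a b - - ⟨ha, ha'⟩ ⟨hb, hb'⟩
      exact ⟨ha.add hb, by rw [ip_add_left μ ha.1 hb.1 huv, ha', hb', add_zero]⟩
    · rintro c a - ⟨ha, ha'⟩
      exact ⟨ha.smul c, by rw [ip_smul_left, ha', mul_zero]⟩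
  exact key.2

theorem ip_D_mul {n n' : Fin r → ℕ} (hn : n ∈ W.Λ) (hn' : n' ∈ W.Λ) {u : G → ℂ} (hu : IsRep u)
    {H : V} (hH : H ∈ R.a) : ip μ (W.F n') (S.D H u * W.F n)
      = Complex.I * ((⟪R.wt n', H⟫ - ⟪R.wt n, H⟫ : ℝ) : ℂ) * ip μ (W.F n') (u * W.F n) := by
  have hF := F_rep W hn
  have hF' := F_rep W hn'
  have h1 := Sym.ip_D (S := S) μ hF' (hu.mul hF) H
  rw [(W.hw n' hn').1.2.2 H hH, Sym.D_mul hu hF, (W.hw n hn).1.2.2 H hH, ip_smul_left,
    mul_smul_comm, ip_add_right μ hF'.1 ((Sym.isRep_D hu H).mul hF).1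
      ((hu.mul hF).smul _).1, ip_smul_right] at h1
  simp only [map_mul, Complex.conj_I, Complex.conj_ofReal] at h1
  push_cast
  linear_combination h1

/-- The size of the matrix of `D H` on the space of `n0`. -/
noncomputable def Kc (n0 : Fin r → ℕ) (H : V) : ℝ :=
  ∑ i, ∑ i', ‖ip μ (W.bas n0 i') (S.D H (W.bas n0 i))‖

theorem ip_expand {n0 : Fin r → ℕ} (h0 : n0 ∈ W.Λ) {f g u : G → ℂ} (hf : Continuous f)
    (hg : Continuous g) (hu : u ∈ orb (W.F n0)) :
    ip μ f (u * g) = ∑ i, ip μ (W.bas n0 i) u * ip μ f (W.bas n0 i * g) := by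
  conv_lhs => rw [expand W h0 hu]
  rw [Finset.sum_mul, ip_sum_right μ _ hf fun i _ => ((W.bas_cont n0 h0 i).const_smul _).mul hg]
  refine Finset.sum_congr rfl fun i _ => ?_
  rw [smul_mul_assoc, ip_smul_right]

theorem wt_le {n0 n n' : Fin r → ℕ} (h0 : n0 ∈ W.Λ) (hn : n ∈ W.Λ) (hn' : n' ∈ W.Λ)
    (hT : W.T n0 n n' ≠ 0) {H : V} (hH : H ∈ R.a) :
    |⟪R.wt n', H⟫ - ⟪R.wt n, H⟫| ≤ Kc W n0 H := by
  have hF := F_rep W hn
  have hF' := F_rep W hn'
  have h1 : ∃ i, ip μ (W.F n') (W.bas n0 i * W.F n) ≠ 0 := by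
    by_contra hcon
    push Not at hcon
    apply hT
    rw [T_real W h0 hn hn']
    have h2 := all_zero W h0 hn hn' fun u hu => by
      rw [ip_expand W h0 hF'.1 hF.1 hu]
      simp [hcon]
    have h3 : ∀ i l k, ip μ (W.bas n' k) (W.bas n0 i * W.bas n l) = 0 := fun i l k =>
      h2 _ (bas_mem W hn' k) _ (bas_mem W h0 i) _ (bas_mem W hn l)
    simp [h3]
  obtain ⟨i1, hi1⟩ := h1
  obtain ⟨i, -, hi⟩ := Finset.exists_max_image Finset.univ
    (fun i => ‖ip μ (W.F n') (W.bas n0 i * W.F n)‖) ⟨i1, Finset.mem_univ _⟩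
  have hpos : 0 < ‖ip μ (W.F n') (W.bas n0 i * W.F n)‖ :=
    (norm_pos_iff.2 hi1).trans_le (hi i1 (Finset.mem_univ _))
  have h4 := ip_D_mul W hn hn' (W.bas_rep n0 h0 i) hH
  rw [ip_expand W h0 hF'.1 hF.1 (Sym.D_mem_orb (F_rep W h0) (bas_mem W h0 i) H)] at h4
  have h5 : |⟪R.wt n', H⟫ - ⟪R.wt n, H⟫| * ‖ip μ (W.F n') (W.bas n0 i * W.F n)‖
      ≤ (∑ i', ‖ip μ (W.bas n0 i') (S.D H (W.bas n0 i))‖)
        * ‖ip μ (W.F n') (W.bas n0 i * W.F n)‖ := by
    calc _ = ‖Complex.I * ((⟪R.wt n', H⟫ - ⟪R.wt n, H⟫ : ℝ) : ℂ)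
            * ip μ (W.F n') (W.bas n0 i * W.F n)‖ := by
          rw [norm_mul, norm_mul, Complex.norm_I, one_mul, Complex.norm_real, Real.norm_eq_abs]
      _ ≤ _ := by
          rw [← h4, Finset.sum_mul]
          refine (norm_sum_le _ _).trans (Finset.sum_le_sum fun i' _ => ?_)
          rw [norm_mul]
          exact mul_le_mul_of_nonneg_left (hi i' (Finset.mem_univ _)) (norm_nonneg _)
  refine (le_of_mul_le_mul_right h5 hpos).trans ?_
  exact Finset.single_le_sum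
    (f := fun i => ∑ i', ‖ip μ (W.bas n0 i') (S.D H (W.bas n0 i))‖)
    (fun _ _ => Finset.sum_nonneg fun _ _ => norm_nonneg _) (Finset.mem_univ i)

theorem D_F_zero {j l : Fin r} {n0 : Fin r → ℕ} (h0 : n0 ∈ W.Λ) (hj : ∀ i, i ≠ j → n0 i = 0)
    (hb : R.blk l ≠ R.blk j) {Z : V} (hZ : Z ∈ R.c l) : S.D Z (W.F n0) = 0 := by
  have hF := F_rep W h0
  have hw : R.wt n0 = (n0 j : ℝ) • R.w j := by
    unfold Roots.wt
    rw [Finset.sum_eq_single j]
    · intro i _ hi; rw [hj i hi]; simp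
    · intro h; exact absurd (Finset.mem_univ _) h
  have hperp : ∀ X ∈ R.c j, ⟪X, Z⟫ = 0 := fun X hX => R.blk_ne j l (Ne.symm hb) X hX Z hZ
  have hYη : ∀ i, ⟪R.al i, R.w j⟫ = 0 → S.D (R.Y i) (W.F n0) = 0 ∧ S.D (R.η i) (W.F n0) = 0 := by
    intro i hi
    have h1 := (W.hw n0 h0).1.ip_Nm_self μ i
    rw [hw, real_inner_smul_left, real_inner_comm, hi] at h1
    have h2 : R.Nm i (W.F n0) = 0 :=
      eq_zero_of_ip_self μ (R.isRep_Nm hF i).1 (by rw [h1]; simp)
    have h3 := (W.hw n0 h0).1.2.1 i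
    unfold Roots.Nm at h2
    unfold Roots.Np at h3
    refine ⟨funext fun x => ?_, funext fun x => ?_⟩
    · have h4 := congrFun h2 x
      have h5 := congrFun h3 x
      simp only [Pi.sub_apply, Pi.add_apply, Pi.smul_apply, smul_eq_mul, Pi.zero_apply] at h4 h5 ⊢
      linear_combination (h4 + h5) / 2
    · have h4 := congrFun h2 x
      have h5 := congrFun h3 x
      simp only [Pi.sub_apply, Pi.add_apply, Pi.smul_apply, smul_eq_mul, Pi.zero_apply] at h4 h5 ⊢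
      linear_combination (Complex.I / 2) * (h4 - h5)
        + (S.D (R.η i) (W.F n0) x) * Complex.I_mul_I
  have hA : (∑ c, ⟪R.H c, Z⟫ • R.H c) ∈ R.a :=
    sum_mem fun c _ => smul_mem _ _ (R.toAdapt.H_mem c)
  have hAw : ⟪R.wt n0, ∑ c, ⟪R.H c, Z⟫ • R.H c⟫ = 0 := by
    have h1 : ⟪R.wt n0, Z⟫ = 0 := by
      rw [hw, real_inner_smul_left, hperp _ (R.w_c j), mul_zero]
    rw [← h1]
    conv_rhs => rw [R.toAdapt.expand_a (R.wt_mem n0)]
    rw [inner_sum, sum_inner]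
    refine Finset.sum_congr rfl fun c _ => ?_
    rw [real_inner_smul_left, real_inner_smul_right, real_inner_comm (R.wt n0), mul_comm]
  rw [R.toAdapt.expand Z, Sym.D_add_vec hF, Sym.D_add_vec hF, Sym.D_add_vec hF,
    (W.hw n0 h0).1.2.2 _ hA, hAw, Sym.D_sum_vec hF, Sym.D_sum_vec hF, Sym.D_sum_vec hF,
    Finset.sum_eq_zero, Finset.sum_eq_zero, Finset.sum_eq_zero]
  · simp
  · intro c _
    rw [Sym.D_smul_vec hF, W.FM n0 h0 c, smul_zero]
  · intro i _
    rw [Sym.D_smul_vec hF]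
    by_cases hi : ⟪R.al i, R.w j⟫ = 0
    · rw [(hYη i hi).2, smul_zero]
    · rw [hperp _ (R.pair_c i j hi).2]; simp
  · intro i _
    rw [Sym.D_smul_vec hF]
    by_cases hi : ⟪R.al i, R.w j⟫ = 0
    · rw [(hYη i hi).1, smul_zero]
    · rw [hperp _ (R.pair_c i j hi).1]; simp

theorem D_orb_zero {j l : Fin r} {n0 : Fin r → ℕ} (h0 : n0 ∈ W.Λ) (hj : ∀ i, i ≠ j → n0 i = 0)
    (hb : R.blk l ≠ R.blk j) {Z : V} (hZ : Z ∈ R.c l) {v : G → ℂ} (hv : v ∈ orb (W.F n0)) :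
    S.D Z v = 0 := by
  have hF := F_rep W h0
  have key : IsRep v ∧ S.D Z v = 0 := by
    refine span_induction (p := fun v _ => IsRep v ∧ S.D Z v = 0) ?_ ?_ ?_ ?_ hv
    · rintro _ ⟨g, rfl⟩
      refine ⟨hF.rt g, ?_⟩
      have h1 := Sym.Rt_D (S := S) g (W.F n0) (S.Ad g⁻¹ Z)
      rw [S.Ad_Ad_inv, D_F_zero W h0 hj hb (R.c_Ad l _ Z hZ)] at h1
      rw [← h1]; rfl
    · exact ⟨isRep_zero, Sym.D_zero_fun Z⟩
    · rintro a b - - ⟨ha, ha'⟩ ⟨hb, hb'⟩
      exact ⟨ha.add hb, by rw [Sym.D_add_fun ha hb, ha', hb', add_zero]⟩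
    · rintro c a - ⟨ha, ha'⟩
      exact ⟨ha.smul c, by rw [Sym.D_smul_fun, ha', smul_zero]⟩
  exact key.2

theorem coord_le {n0 n n' : Fin r → ℕ} (h0 : n0 ∈ W.Λ) (hn : n ∈ W.Λ) (hn' : n' ∈ W.Λ)
    (hT : W.T n0 n n' ≠ 0) (l : Fin r) :
    |(n' l : ℝ) - n l| ≤ 2 * Kc W n0 (R.al (R.sr l)) / ‖R.al (R.sr l)‖ ^ 2 := by
  have h1 := wt_le W h0 hn hn' hT (R.al_mem (R.sr l))
  have h2 := R.wt_inner n l
  have h3 := R.wt_inner n' l
  have h4 : 0 < ‖R.al (R.sr l)‖ ^ 2 := pow_pos (norm_pos_iff.2 (R.al_ne_zero _)) 2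
  rw [le_div_iff₀ h4, ← abs_of_pos h4, ← abs_mul, sub_mul, ← h2, ← h3, ← mul_sub, abs_mul,
    abs_two]
  linarith

/-! ### The conductance -/

theorem F_ne {n : Fin r → ℕ} (hn : n ∈ W.Λ) : W.F n ≠ 0 := by
  intro h
  have := (W.hw n hn).2.2
  rw [h] at this
  simp at this

theorem ip_φ {n : Fin r → ℕ} (hn : n ∈ W.Λ) : ip μ (W.F n) (W.φ n) = 1 / W.dim n := by
  have hd : (W.dim n : ℂ) ≠ 0 := by exact_mod_cast (W.dim_pos n hn).ne'
  have h1 : (W.dim n : ℂ) • W.φ n = ∑ i, conj (W.bas n i 1) • W.bas n i := by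
    funext x
    have := W.repr n hn x 1
    rw [inv_one, mul_one] at this
    simp only [Pi.smul_apply, smul_eq_mul, Finset.sum_apply, ← this]
    exact Finset.sum_congr rfl fun i _ => mul_comm _ _
  have h2 : ip μ ((W.dim n : ℂ) • W.φ n) (W.F n) = 1 := by
    rw [h1, ip_sum_left μ _ (F_rep W hn).1 fun i _ => (W.bas_cont n hn i).const_smul _,
      ← (W.hw n hn).2.2]
    conv_rhs => rw [expand W hn (mem_orb (W.F n))]
    rw [Finset.sum_apply]
    refine Finset.sum_congr rfl fun i _ => ?_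
    rw [ip_smul_left, Complex.conj_conj, Pi.smul_apply, smul_eq_mul, mul_comm]
  rw [ip_smul_left, Complex.conj_natCast] at h2
  have h3 : ip μ (W.φ n) (W.F n) = 1 / W.dim n := by
    rw [eq_div_iff hd, mul_comm]; exact h2
  rw [← ip_conj, h3]
  simp

/-- The coefficient of the highest weight vector in the spherical function. -/
noncomputable def cr (n : Fin r → ℕ) : ℝ := 1 / (W.dim n * ∫ x, ‖W.F n x‖ ^ 2 ∂μ)

theorem cr_pos {n : Fin r → ℕ} (hn : n ∈ W.Λ) : 0 < cr W n := by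
  have h1 := ip_self_pos μ (F_rep W hn).1 (F_ne W hn)
  have h2 : (0 : ℝ) < W.dim n := by exact_mod_cast W.dim_pos n hn
  unfold cr; positivity

theorem ipFF_ne {n : Fin r → ℕ} (hn : n ∈ W.Λ) : ip μ (W.F n) (W.F n) ≠ 0 := by
  rw [ip_self]
  exact_mod_cast (ip_self_pos μ (F_rep W hn).1 (F_ne W hn)).ne'

theorem ip_φ' {n : Fin r → ℕ} (hn : n ∈ W.Λ) :
    ip μ (W.F n) (W.φ n) = cr W n * ip μ (W.F n) (W.F n) := by
  have h1 := ipFF_ne W hn
  have hd : (W.dim n : ℂ) ≠ 0 := by exact_mod_cast (W.dim_pos n hn).ne'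
  rw [ip_φ W hn]
  unfold cr
  rw [ip_self] at h1 ⊢
  push_cast at h1 ⊢
  field_simp

theorem int_g {n : Fin r → ℕ} (hn : n ∈ W.Λ) : ∫ k, W.g n k ∂S.ν = cr W n := by
  have := S.ν_prob
  have hF := (F_rep W hn).1
  have h1 : ip μ (W.F n) (W.φ n) = ∫ k, ip μ (W.F n) (Rt k (W.F n)) ∂S.ν := by
    unfold ip Rt
    simp_rw [W.φ_eq n hn, ← integral_const_mul]
    refine integral_integral_swap ?_
    have hc : Continuous (Function.uncurry fun x k : G => conj (W.F n x) * W.F n (x * k)) :=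
      (Complex.continuous_conj.comp (hF.comp continuous_fst)).mul (hF.comp continuous_mul)
    exact hc.integrable_of_hasCompactSupport (HasCompactSupport.of_compactSpace _)
  unfold HWD.g
  rw [integral_div, ← h1, ip_φ' W hn, mul_div_assoc, div_self (ipFF_ne W hn), mul_one]

theorem ip_eig_zero {lam : V} {f u v : G → ℂ} (hf : R.Top lam f) (hu : IsRep u) (hv : IsRep v)
    {a b : ℝ} (ha : S.D R.H0 u = (Complex.I * a) • u) (hb : S.D R.H0 v = (Complex.I * b) • v)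
    (hab : a + b ≠ ⟪lam, R.H0⟫) : ip μ f (u * v) = 0 := by
  have h1 := Sym.ip_D (S := S) μ hf.1 (hu.mul hv) R.H0
  rw [hf.2.2 _ R.H0_mem, Sym.D_mul hu hv, ha, hb, ip_smul_left, smul_mul_assoc, mul_smul_comm,
    ← add_smul, ip_smul_right] at h1
  simp only [map_mul, Complex.conj_I, Complex.conj_ofReal] at h1
  have h2 : ((a + b - ⟪lam, R.H0⟫ : ℝ) : ℂ) ≠ 0 := by exact_mod_cast sub_ne_zero.2 hab
  have h3 : Complex.I * ((a + b - ⟪lam, R.H0⟫ : ℝ) : ℂ) * ip μ f (u * v) = 0 := by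
    push_cast
    linear_combination h1
  exact (mul_eq_zero.1 h3).resolve_left (mul_ne_zero Complex.I_ne_zero h2)

theorem top_coef {n : Fin r → ℕ} (hn : n ∈ W.Λ) {i0 : Fin (W.dim n)} {c : ℂ}
    (hc : W.bas n i0 = c • W.F n) :
    ip μ (W.bas n i0) (W.φ n) • W.bas n i0 = (cr W n : ℂ) • W.F n := by
  have h1 : ip μ (W.bas n i0) (W.bas n i0) = 1 := by
    have := W.orth_same n hn i0 i0
    rw [if_pos rfl] at this
    exact this
  rw [hc, ip_smul_left, ip_smul_right] at h1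
  rw [hc, ip_smul_left, ip_φ' W hn, smul_smul]
  congr 1
  linear_combination (cr W n : ℂ) * h1

theorem ip_prod {n0 n : Fin r → ℕ} (h0 : n0 ∈ W.Λ) (hn : n ∈ W.Λ) (h2 : n + n0 ∈ W.Λ) :
    ip μ (W.F (n + n0)) (W.φ n0 * W.φ n)
      = cr W n0 * cr W n * ip μ (W.F (n + n0)) (W.F n0 * W.F n) := by
  obtain ⟨i0, c0, hc0, he0, hl0⟩ := W.top n0 h0
  obtain ⟨i1, c1, hc1, he1, hl1⟩ := W.top n hn
  have hF := F_rep W h2
  have hw : ⟪R.wt (n + n0), R.H0⟫ = ⟪R.wt n0, R.H0⟫ + ⟪R.wt n, R.H0⟫ := by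
    rw [R.wt_add, inner_add_left, add_comm]
  have hle1 : ∀ l, W.ev n l ≤ ⟪R.wt n, R.H0⟫ := fun l => by
    by_cases h : l = i1
    · rw [h, he1]
    · exact (hl1 l h).le
  have hz : ∀ i l, W.ev n0 i + W.ev n l ≠ ⟪R.wt (n + n0), R.H0⟫ →
      ip μ (W.F (n + n0)) (W.bas n0 i * W.bas n l) = 0 := fun i l h =>
    ip_eig_zero (W.hw _ h2).1 (W.bas_rep n0 h0 i) (W.bas_rep n hn l) (W.eig n0 h0 i)
      (W.eig n hn l) h
  have hx : ∀ i, ip μ (W.F (n + n0)) (W.bas n0 i * W.φ n)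
      = ∑ l, ip μ (W.bas n l) (W.φ n) * ip μ (W.F (n + n0)) (W.bas n0 i * W.bas n l) := by
    intro i
    rw [mul_comm, ip_expand W hn hF.1 (W.bas_cont n0 h0 i) (φ_mem W hn)]
    exact Finset.sum_congr rfl fun l _ => by rw [mul_comm (W.bas n l)]
  rw [ip_expand W h0 hF.1 (W.φ_cont n hn) (φ_mem W h0), Finset.sum_eq_single i0, hx,
    Finset.sum_eq_single i1]
  · rw [← ip_smul_right, ← ip_smul_right, ← ip_smul_right, ← mul_smul_comm, top_coef W hn hc1,
      ← smul_mul_assoc, top_coef W h0 hc0, smul_mul_assoc, mul_smul_comm, smul_smul]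
  · intro l _ hl
    rw [hz i0 l (by rw [hw, he0]; linarith [hl1 l hl]), mul_zero]
  · intro h; exact absurd (Finset.mem_univ _) h
  · intro i _ hi
    rw [hx, Finset.sum_eq_zero, mul_zero]
    intro l _
    rw [hz i l (by rw [hw]; linarith [hl0 i hi, hle1 l]), mul_zero]
  · intro h; exact absurd (Finset.mem_univ _) h

theorem φ_inv {n : Fin r → ℕ} (hn : n ∈ W.Λ) : S.LInv (W.φ n) :=
  Sym.LInv.of_span (s := Set.range (W.bas n)) (by rintro _ ⟨i, rfl⟩; exact W.bas_inv n hn i)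
    (W.φ_mem n hn)

theorem ip_prod' {n0 n n' : Fin r → ℕ} (h0 : n0 ∈ W.Λ) (hn : n ∈ W.Λ) (hn' : n' ∈ W.Λ)
    (hne : ip μ (W.F n') (W.φ n0 * W.φ n) ≠ 0) :
    ip μ (W.F n') (W.φ n0 * W.φ n) = W.dim n' * W.T n0 n n' * ip μ (W.F n') (W.φ n') := by
  obtain ⟨T, hT, hf⟩ := W.expand_bi (W.φ n0 * W.φ n) ((φ_rep W h0).mul (φ_rep W hn))
    (fun k hk x => by simp only [Pi.mul_apply, φ_inv W h0 k hk x, φ_inv W hn k hk x])
    (fun k hk x => by simp only [Pi.mul_apply, W.φ_right n0 h0 k hk x, W.φ_right n hn k hk x])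
  have h1 : ip μ (W.F n') (W.φ n0 * W.φ n) = ∑ m ∈ T,
      ((W.dim m : ℂ) * ip μ (W.φ m) (W.φ n0 * W.φ n)) * ip μ (W.F n') (W.φ m) := by
    conv_lhs => rw [hf]
    rw [ip_sum_right μ _ (F_rep W hn').1 fun m hm => (W.φ_cont m (hT hm)).const_smul _]
    exact Finset.sum_congr rfl fun m _ => ip_smul_right μ _ _ _
  have h2 : ∀ m ∈ T, m ≠ n' →
      ((W.dim m : ℂ) * ip μ (W.φ m) (W.φ n0 * W.φ n)) * ip μ (W.F n') (W.φ m) = 0 := by
    intro m hm hmn
    rw [ip_orth W hn' (hT hm) (Ne.symm hmn) (mem_orb _) (φ_mem W (hT hm)), mul_zero]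
  have h3 : n' ∈ T := by
    by_contra hc
    exact hne (by rw [h1]; exact Finset.sum_eq_zero fun m hm => h2 m hm fun h => hc (h ▸ hm))
  rw [h1, Finset.sum_eq_single_of_mem n' h3 h2]
  congr 2
  unfold ip HWD.T
  refine integral_congr_ae (Filter.Eventually.of_forall fun x => ?_)
  simp only [Pi.mul_apply]
  ring

end Step

open Step in
theorem step_of (h : GfunStmt) : StepStmt := by
  intro V _ _ _ G _ _ _ _ _ μ _ S r R W j n0 h0 hj
  obtain ⟨-, -, hmul, hg⟩ := h V G μ S r R W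
  have := S.ν_prob
  refine ⟨⌈∑ l, 2 * Kc W n0 (R.al (R.sr l)) / ‖R.al (R.sr l)‖ ^ 2⌉₊, cr W n0, cr_pos W h0,
    fun n hn => ⟨?_, fun n' hn' => ⟨?_, ?_, fun hT l => ⟨?_, fun hb => ?_⟩⟩⟩⟩
  · obtain ⟨h2, hF, hgg⟩ := hmul n hn n0 h0
    have h3 := ip_prod W h0 hn h2
    rw [mul_comm (W.F n0), ← hF] at h3
    have hc0 : (cr W n0 : ℂ) ≠ 0 := by exact_mod_cast (cr_pos W h0).ne'
    have hc1 : (cr W n : ℂ) ≠ 0 := by exact_mod_cast (cr_pos W hn).ne'
    have h4 := ip_prod' W h0 hn h2 (by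
      rw [h3]; exact mul_ne_zero (mul_ne_zero hc0 hc1) (ipFF_ne W h2))
    rw [h3, ip_φ' W h2, ← mul_assoc] at h4
    have h5 := mul_right_cancel₀ (ipFF_ne W h2) h4
    have h6 : cr W n0 * cr W n = W.dim (n + n0) * (W.T n0 n (n + n0)).re * cr W (n + n0) := by
      have := congrArg Complex.re h5
      simpa using this
    have h7 : cr W (n + n0) ≤ cr W n := by
      have e1 : cr W (n + n0) = ∫ k, (W.g (n + n0) k).re ∂S.ν := by
        have := integral_re (cont_int S.ν (hg _ h2).1.1.1.1)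
        simp only [RCLike.re_to_complex] at this
        rw [this, int_g W h2, Complex.ofReal_re]
      have e2 : cr W n = ∫ k, (W.g n k).re ∂S.ν := by
        have := integral_re (cont_int S.ν (hg _ hn).1.1.1.1)
        simp only [RCLike.re_to_complex] at this
        rw [this, int_g W hn, Complex.ofReal_re]
      rw [e1, e2]
      refine integral_mono_ae (cont_int S.ν (Complex.continuous_re.comp (hg _ h2).1.1.1.1))
        (cont_int S.ν (Complex.continuous_re.comp (hg _ hn).1.1.1.1)) ?_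
      filter_upwards [S.ν_K] with k hk
      obtain ⟨a1, a2⟩ := (hg n hn).2.2.2.2 k hk
      have a3 : (W.g n0 k).re ≤ 1 := (Complex.re_le_norm _).trans ((hg n0 h0).2.1 k)
      rw [hgg, Pi.mul_apply, Complex.mul_re, a2, zero_mul, sub_zero]
      exact mul_le_of_le_one_right a1 a3
    have h8 : cr W n0 * cr W (n + n0)
        ≤ W.dim (n + n0) * (W.T n0 n (n + n0)).re * cr W (n + n0) := by
      rw [← h6]; exact mul_le_mul_of_nonneg_left h7 (cr_pos W h0).le
    exact le_of_mul_le_mul_right h8 (cr_pos W h2)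
  · rw [T_real W h0 hn hn', Complex.ofReal_re]
    positivity
  · rw [T_real W h0 hn hn', Complex.ofReal_im]
  · have h1 := coord_le W h0 hn hn' hT l
    have h2 : 2 * Kc W n0 (R.al (R.sr l)) / ‖R.al (R.sr l)‖ ^ 2
        ≤ ∑ l, 2 * Kc W n0 (R.al (R.sr l)) / ‖R.al (R.sr l)‖ ^ 2 :=
      Finset.single_le_sum (f := fun l => 2 * Kc W n0 (R.al (R.sr l)) / ‖R.al (R.sr l)‖ ^ 2)
        (fun _ _ => by unfold Kc; positivity) (Finset.mem_univ l)
    have h3 := (h1.trans h2).trans (Nat.le_ceil _)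
    exact_mod_cast h3
  · have h1 := coord_le W h0 hn hn' hT l
    have h2 : Kc W n0 (R.al (R.sr l)) = 0 := by
      unfold Kc
      refine Finset.sum_eq_zero fun i _ => Finset.sum_eq_zero fun i' _ => ?_
      rw [D_orb_zero W h0 hj hb (R.sr_c l) (bas_mem W h0 i), ip_zero_right, norm_zero]
    rw [h2, mul_zero, zero_div, abs_nonpos_iff, sub_eq_zero] at h1
    exact_mod_cast h1

end Pool.Agent.MP_ba99b7_an

end MrgPart3

-- marker of a merged file
example : 731051 + 550228 = 731051 + 550228 := rfl
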