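import Mathlib.Topology.Sheaves.Presheaf
import Mathlib.MeasureTheory.Integral.Prod
import Mathlib.Analysis.SpecialFunctions.Integrals.Basic
import Mathlib.MeasureTheory.Function.L2Space
import Mathlib.RingTheory.PiTensorProduct
import Pool.Agent.MP_ba99b7_an.SpecAn

/-! PROJECT STRI, module WEAK: the `T T^*` argument for level sets. -/

namespace Pool.Agent.MP_ba99b7_an

open scoped ComplexConjugate ENNReal
open MeasureTheory Finset

namespace Weak

theorem ee_norm (x : ℝ) : ‖ee x‖ = 1 := by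
  unfold ee
  have : (2 * Real.pi * x * Complex.I : ℂ) = ((2 * Real.pi * x : ℝ) : ℂ) * Complex.I := by
    push_cast; ring
  rw [this, Complex.norm_exp_ofReal_mul_I]

theorem ee_add (x y : ℝ) : ee (x + y) = ee x * ee y := by
  unfold ee
  rw [← Complex.exp_add]; congr 1; push_cast; ring

theorem ee_conj (x : ℝ) : conj (ee x) = ee (-x) := by
  unfold ee
  rw [← Complex.exp_conj]; congr 1
  simp only [map_mul, Complex.conj_ofReal, Complex.conj_I, map_ofNat]
  push_cast; ring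

theorem ee_cont : Continuous ee := by
  unfold ee; fun_prop

theorem ee_int (k : ℤ) :
    ∫ t, ee (k * t) ∂(volume.restrict (Set.Ioc (0 : ℝ) 1)) = if k = 0 then 1 else 0 := by
  split_ifs with hk
  · subst hk; simp [ee]
  · rw [← intervalIntegral.integral_of_le zero_le_one]
    have hc : (2 * Real.pi * k * Complex.I : ℂ) ≠ 0 := by
      have h1 : (Real.pi : ℂ) ≠ 0 := by exact_mod_cast Real.pi_ne_zero
      have h2 : (k : ℂ) ≠ 0 := by exact_mod_cast hk
      simp [h1, h2, Complex.I_ne_zero]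
    have h3 : ∀ t : ℝ, ee (k * t) = Complex.exp ((2 * Real.pi * k * Complex.I) * t) := by
      intro t; unfold ee; congr 1; push_cast; ring
    simp_rw [h3]
    rw [integral_exp_mul_complex hc]
    have h4 : Complex.exp ((2 * Real.pi * k * Complex.I) * (1 : ℝ)) = 1 := by
      rw [← Complex.exp_int_mul_two_pi_mul_I k]; congr 1; push_cast; ring
    rw [h4]; simp

theorem bessel {Z : Type} [MeasurableSpace Z] (m : Measure Z) {ι : Type} [DecidableEq ι]
    (s : Finset ι) (e : ι → Z → ℂ) (he : ∀ i ∈ s, MemLp (e i) 2 m) (h : Z → ℂ)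
    (hh : MemLp h 2 m)
    (ho : ∀ i ∈ s, ∀ j ∈ s, ∫ z, conj (e i z) * e j z ∂m = if i = j then 1 else 0) :
    ∑ i ∈ s, ‖∫ z, conj (e i z) * h z ∂m‖ ^ 2 ≤ ∫ z, ‖h z‖ ^ 2 ∂m := by
  have key : ∀ (f g : Z → ℂ) (hf : MemLp f 2 m) (hg : MemLp g 2 m),
      inner ℂ (hf.toLp f) (hg.toLp g) = ∫ z, conj (f z) * g z ∂m := by
    intro f g hf hg
    rw [L2.inner_def]
    refine integral_congr_ae ?_
    filter_upwards [hf.coeFn_toLp, hg.coeFn_toLp] with z h1 h2
    rw [h1, h2, RCLike.inner_apply, mul_comm]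
  let v : s → Lp ℂ 2 m := fun i => (he i.1 i.2).toLp (e i.1)
  have hv : Orthonormal ℂ v := by
    rw [orthonormal_iff_ite]
    intro i j
    simp only [v]
    rw [key, ho i.1 i.2 j.1 j.2]
    simp only [Subtype.ext_iff]
  have h1 := hv.sum_inner_products_le (hh.toLp h) (s := Finset.univ)
  have h2 : ‖hh.toLp h‖ ^ 2 = ∫ z, ‖h z‖ ^ 2 ∂m := by
    have h3 := key h h hh hh
    rw [inner_self_eq_norm_sq_to_K] at h3
    have h4 : ∀ z, conj (h z) * h z = ((‖h z‖ ^ 2 : ℝ) : ℂ) := by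
      intro z; rw [Complex.conj_mul']; push_cast; ring
    simp_rw [h4] at h3
    rw [integral_complex_ofReal] at h3
    apply Complex.ofReal_injective
    rw [← h3]; push_cast; rfl
  rw [← h2, ← Finset.sum_coe_sort s]
  refine le_of_eq_of_le ?_ h1
  refine Finset.sum_congr rfl fun i _ => ?_
  simp only [v]
  rw [key]

variable {G : Type} [Group G] [TopologicalSpace G] [MeasurableSpace G]

instance mm_prob (μ : Measure G) [IsProbabilityMeasure μ] : IsProbabilityMeasure (mm μ) := by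
  unfold mm
  have : IsProbabilityMeasure (volume.restrict (Set.Ioc (0 : ℝ) 1)) := ⟨by simp⟩
  infer_instance

/-- The integrand of the quadratic form. -/
noncomputable def kq (K : ℝ → G → ℂ) (h : ℝ × G → ℂ) (x : (ℝ × G) × (ℝ × G)) : ℂ :=
  K (x.1.1 - x.2.1) (x.1.2 * x.2.2⁻¹) * (conj (h x.1) * h x.2)

/-- The quadratic form of a kernel. -/
noncomputable def quad (μ : Measure G) (K : ℝ → G → ℂ) (h : ℝ × G → ℂ) : ℂ :=
  ∫ x, kq K h x ∂((mm μ).prod (mm μ))

omit [TopologicalSpace G] in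
theorem quad_le (μ : Measure G) [IsProbabilityMeasure μ] (K : ℝ → G → ℂ) (h : ℝ × G → ℂ)
    (hi : Integrable h (mm μ)) (A : ℝ) (hA : ∀ t g, ‖K t g‖ ≤ A) :
    ‖quad μ K h‖ ≤ A * (∫ z, ‖h z‖ ∂(mm μ)) ^ 2 := by
  unfold quad
  have h1 : Integrable (fun x : (ℝ × G) × (ℝ × G) => A * (‖h x.1‖ * ‖h x.2‖))
      ((mm μ).prod (mm μ)) := (hi.norm.mul_prod hi.norm).const_mul A
  refine (norm_integral_le_of_norm_le h1 (Filter.Eventually.of_forall fun x => ?_)).trans_eq ?_
  · unfold kq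
    rw [norm_mul, norm_mul, RCLike.norm_conj]
    exact mul_le_mul_of_nonneg_right (hA _ _) (by positivity)
  · rw [integral_const_mul, integral_prod_mul (fun z => ‖h z‖) (fun z => ‖h z‖), sq]

theorem kq_int [TG G] (μ : Measure G) [IsProbabilityMeasure μ] (K : ℝ → G → ℂ) (h : ℝ × G → ℂ)
    (hm : Measurable h) (hb : ∀ z, ‖h z‖ ≤ 1) (hK : Continuous fun z : ℝ × G => K z.1 z.2)
    (A : ℝ) (hA : ∀ t g, ‖K t g‖ ≤ A) : Integrable (kq K h) ((mm μ).prod (mm μ)) := by
  have h1 : Continuous fun x : (ℝ × G) × (ℝ × G) => K (x.1.1 - x.2.1) (x.1.2 * x.2.2⁻¹) :=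
    hK.comp (f := fun x : (ℝ × G) × (ℝ × G) => ((x.1.1 - x.2.1, x.1.2 * x.2.2⁻¹) : ℝ × G))
      (by fun_prop)
  have h2 : Measurable (kq K h) := by
    unfold kq
    refine h1.measurable.mul (Measurable.mul ?_ (hm.comp measurable_snd))
    exact Complex.continuous_conj.measurable.comp (hm.comp measurable_fst)
  refine Integrable.of_bound h2.aestronglyMeasurable A (Filter.Eventually.of_forall fun x => ?_)
  unfold kq
  rw [norm_mul, norm_mul, RCLike.norm_conj]
  have h3 : ‖h x.1‖ * ‖h x.2‖ ≤ 1 := mul_le_one₀ (hb _) (norm_nonneg _) (hb _)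
  have h4 := hA (x.1.1 - x.2.1) (x.1.2 * x.2.2⁻¹)
  calc _ ≤ ‖K (x.1.1 - x.2.1) (x.1.2 * x.2.2⁻¹)‖ * 1 :=
        mul_le_mul_of_nonneg_left h3 (norm_nonneg _)
    _ ≤ A := by rw [mul_one]; exact h4

section
variable {μ : Measure G} {r : ℕ} (O : Orth μ r)

/-- The orthonormal system on the product. -/
noncomputable def E (k : ℤ) (n : Fin r → ℕ) (i : Fin (O.dim n)) (z : ℝ × G) : ℂ :=
  ee (k * z.1) * O.bas n i z.2

/-- The coefficients of `h`. -/
noncomputable def hh (h : ℝ × G → ℂ) (k : ℤ) (n : Fin r → ℕ) (i : Fin (O.dim n)) : ℂ :=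
  ∫ z, conj (E O k n i z) * h z ∂(mm μ)

/-- The squared norm of the projection of `h` on a block. -/
noncomputable def R (h : ℝ × G → ℂ) (k : ℤ) (n : Fin r → ℕ) : ℝ := ∑ i, ‖hh O h k n i‖ ^ 2

theorem R_nonneg (h : ℝ × G → ℂ) (k : ℤ) (n : Fin r → ℕ) : 0 ≤ R O h k n :=
  Finset.sum_nonneg fun _ _ => by positivity

/-- The elementary kernels. -/
noncomputable def bk (k : ℤ) (n : Fin r → ℕ) (t : ℝ) (g : G) : ℂ :=
  ee (k * t) * (O.dim n * O.φ n g)

theorem E_cont [TG G] (k : ℤ) {n : Fin r → ℕ} (hn : n ∈ O.Λ) (i : Fin (O.dim n)) :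
    Continuous (E O k n i) := by
  unfold E
  exact (ee_cont.comp (by fun_prop)).mul ((O.bas_cont n hn i).comp continuous_snd)

theorem E_bdd [TG G] (k : ℤ) {n : Fin r → ℕ} (hn : n ∈ O.Λ) (i : Fin (O.dim n)) :
    ∃ C, ∀ z, ‖E O k n i z‖ ≤ C := by
  obtain ⟨C, hC⟩ := isCompact_univ.exists_bound_of_continuousOn (O.bas_cont n hn i).continuousOn
  refine ⟨C, fun z => ?_⟩
  unfold E
  rw [norm_mul, ee_norm, one_mul]
  exact hC _ (Set.mem_univ _)

theorem E_memLp [TG G] [IsProbabilityMeasure μ] (k : ℤ) {n : Fin r → ℕ} (hn : n ∈ O.Λ)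
    (i : Fin (O.dim n)) : MemLp (E O k n i) 2 (mm μ) := by
  obtain ⟨C, hC⟩ := E_bdd O k hn i
  exact MemLp.of_bound (E_cont O k hn i).measurable.aestronglyMeasurable C
    (Filter.Eventually.of_forall hC)

theorem F_int [TG G] [IsProbabilityMeasure μ] {h : ℝ × G → ℂ} (hm : Measurable h)
    (hb : ∀ z, ‖h z‖ ≤ 1) (k : ℤ) {n : Fin r → ℕ} (hn : n ∈ O.Λ) (i : Fin (O.dim n)) :
    Integrable (fun z => conj (E O k n i z) * h z) (mm μ) := by
  obtain ⟨C, hC⟩ := E_bdd O k hn i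
  refine Integrable.of_bound ?_ C (Filter.Eventually.of_forall fun z => ?_)
  · exact ((Complex.continuous_conj.comp (E_cont O k hn i)).measurable.mul hm).aestronglyMeasurable
  · rw [norm_mul, RCLike.norm_conj]
    calc _ ≤ ‖E O k n i z‖ * 1 := mul_le_mul_of_nonneg_left (hb z) (norm_nonneg _)
      _ ≤ C := by rw [mul_one]; exact hC z

theorem E_orth [IsProbabilityMeasure μ] (k k' : ℤ) (n n' : Fin r → ℕ) (i : Fin (O.dim n))
    (i' : Fin (O.dim n')) :
    ∫ z, conj (E O k n i z) * E O k' n' i' z ∂(mm μ)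
      = (if k = k' then 1 else 0) * ∫ x, conj (O.bas n i x) * O.bas n' i' x ∂μ := by
  have h1 : ∀ z : ℝ × G, conj (E O k n i z) * E O k' n' i' z
      = ee (((k' - k : ℤ) : ℝ) * z.1) * (conj (O.bas n i z.2) * O.bas n' i' z.2) := by
    intro z
    unfold E
    have : ee (((k' - k : ℤ) : ℝ) * z.1) = ee (-(k * z.1)) * ee (k' * z.1) := by
      rw [← ee_add]; congr 1; push_cast; ring
    rw [this, map_mul, ee_conj]; ring
  simp_rw [h1]
  unfold mm
  rw [integral_prod_mul (fun t : ℝ => ee (((k' - k : ℤ) : ℝ) * t))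
    (fun x => conj (O.bas n i x) * O.bas n' i' x), ee_int]
  congr 1
  simp only [sub_eq_zero, eq_comm]

theorem bessel_R [TG G] [IsProbabilityMeasure μ] {h : ℝ × G → ℂ} (hm : Measurable h)
    (hb : ∀ z, ‖h z‖ ≤ 1) (S : Finset (Fin r → ℕ)) (hS : ↑S ⊆ O.Λ) (s : Finset ℤ) :
    ∑ n ∈ S, ∑ k ∈ s, R O h k n ≤ ∫ z, ‖h z‖ ^ 2 ∂(mm μ) := by
  classical
  have h1 := bessel (mm μ) (ι := Σ n : Fin r → ℕ, ℤ × Fin (O.dim n))
    (S.sigma fun n => s ×ˢ Finset.univ) (fun j => E O j.2.1 j.1 j.2.2)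
    (fun j hj => E_memLp O _ (hS (Finset.mem_sigma.1 hj).1) _) h
    (MemLp.of_bound hm.aestronglyMeasurable 1 (Filter.Eventually.of_forall hb)) (by
      rintro ⟨n, k, i⟩ hj ⟨n', k', i'⟩ hj'
      have hn : n ∈ O.Λ := hS (Finset.mem_sigma.1 hj).1
      have hn' : n' ∈ O.Λ := hS (Finset.mem_sigma.1 hj').1
      simp only
      rw [E_orth]
      by_cases hnn : n = n'
      · subst hnn
        rw [O.orth_same n hn]
        by_cases hk : k = k' <;> by_cases hi : i = i' <;> simp [hk, hi]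
      · rw [O.orth_ne n hn n' hn' hnn]
        simp [hnn])
  rw [Finset.sum_sigma] at h1
  refine le_of_eq_of_le ?_ h1
  refine Finset.sum_congr rfl fun n _ => ?_
  rw [Finset.sum_product]
  rfl

theorem kq_bk (h : ℝ × G → ℂ) (k : ℤ) {n : Fin r → ℕ} (hn : n ∈ O.Λ) (x : (ℝ × G) × (ℝ × G)) :
    kq (bk O k n) h x = ∑ i, conj (conj (E O k n i x.1) * h x.1)
      * (conj (E O k n i x.2) * h x.2) := by
  unfold kq bk
  rw [← O.repr n hn, Finset.mul_sum, Finset.sum_mul]
  refine Finset.sum_congr rfl fun i _ => ?_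
  unfold E
  have : ee (k * (x.1.1 - x.2.1)) = ee (k * x.1.1) * conj (ee (k * x.2.1)) := by
    rw [ee_conj, ← ee_add]; congr 1; ring
  rw [this]
  simp only [map_mul, Complex.conj_conj]
  ring

theorem kq_bk_int [TG G] [IsProbabilityMeasure μ] {h : ℝ × G → ℂ} (hm : Measurable h)
    (hb : ∀ z, ‖h z‖ ≤ 1) (k : ℤ) {n : Fin r → ℕ} (hn : n ∈ O.Λ) :
    Integrable (kq (bk O k n) h) ((mm μ).prod (mm μ)) ∧ quad μ (bk O k n) h = R O h k n := by
  have h1 : kq (bk O k n) h = fun x => ∑ i, conj (conj (E O k n i x.1) * h x.1)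
      * (conj (E O k n i x.2) * h x.2) := funext (kq_bk O h k hn)
  have h2 : ∀ i, Integrable (fun z => conj (conj (E O k n i z) * h z)) (mm μ) := fun i =>
    (Complex.conjCLE : ℂ →L[ℝ] ℂ).integrable_comp (F_int O hm hb k hn i)
  have h3 : ∀ i, Integrable (fun x : (ℝ × G) × (ℝ × G) => conj (conj (E O k n i x.1) * h x.1)
      * (conj (E O k n i x.2) * h x.2)) ((mm μ).prod (mm μ)) := fun i =>
    (h2 i).mul_prod (F_int O hm hb k hn i)
  refine ⟨?_, ?_⟩
  · rw [h1]; exact integrable_finsetSum _ fun i _ => h3 i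
  · unfold quad R
    rw [h1, integral_finsetSum _ fun i _ => h3 i]
    push_cast
    refine Finset.sum_congr rfl fun i _ => ?_
    rw [integral_prod_mul (fun z => conj (conj (E O k n i z) * h z))
      (fun z => conj (E O k n i z) * h z), integral_conj, Complex.conj_mul']
    rfl

theorem bk_bdd [TG G] {n : Fin r → ℕ} (hn : n ∈ O.Λ) : ∃ C, ∀ k t g, ‖bk O k n t g‖ ≤ C := by
  obtain ⟨C, hC⟩ := isCompact_univ.exists_bound_of_continuousOn (O.φ_cont n hn).continuousOn
  refine ⟨O.dim n * C, fun k t g => ?_⟩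
  unfold bk
  rw [norm_mul, ee_norm, one_mul, norm_mul, Complex.norm_natCast]
  exact mul_le_mul_of_nonneg_left (hC _ (Set.mem_univ _)) (Nat.cast_nonneg _)

theorem fs_cont {c : ℤ → ℂ} (hc : Summable fun k => ‖c k‖) : Continuous (fs c) := by
  unfold fs
  refine continuous_tsum (fun k => continuous_const.mul (ee_cont.comp (by fun_prop))) hc ?_
  intro k x
  rw [norm_mul, ee_norm, mul_one]

theorem mult_cont [TG G] {K : ℝ → G → ℂ} {B : ℝ} (hK : O.MultBd K B) :
    Continuous fun z : ℝ × G => K z.1 z.2 := by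
  obtain ⟨S, c, hS, hc, -, hK⟩ := hK
  simp_rw [hK]
  refine continuous_finsetSum _ fun n hn => ?_
  exact ((fs_cont (hc n hn)).comp continuous_fst).mul
    (continuous_const.mul ((O.φ_cont n (hS hn)).comp continuous_snd))

theorem fs_hasSum [TG G] [IsProbabilityMeasure μ] {h : ℝ × G → ℂ} (hm : Measurable h)
    (hb : ∀ z, ‖h z‖ ≤ 1) {n : Fin r → ℕ} (hn : n ∈ O.Λ) {c : ℤ → ℂ}
    (hc : Summable fun k => ‖c k‖) :
    Integrable (kq (fun t g => fs c t * (O.dim n * O.φ n g)) h) ((mm μ).prod (mm μ)) ∧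
    HasSum (fun k => c k * R O h k n) (quad μ (fun t g => fs c t * (O.dim n * O.φ n g)) h) := by
  obtain ⟨C, hC⟩ := bk_bdd O hn
  have h0 : ∀ k x, ‖kq (bk O k n) h x‖ ≤ C := by
    intro k x
    unfold kq
    rw [norm_mul, norm_mul, RCLike.norm_conj]
    have h3 : ‖h x.1‖ * ‖h x.2‖ ≤ 1 := mul_le_one₀ (hb _) (norm_nonneg _) (hb _)
    calc _ ≤ ‖bk O k n (x.1.1 - x.2.1) (x.1.2 * x.2.2⁻¹)‖ * 1 :=
          mul_le_mul_of_nonneg_left h3 (norm_nonneg _)
      _ ≤ C := by rw [mul_one]; exact hC _ _ _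
  have h1 : ∀ k, Integrable (fun x => c k * kq (bk O k n) h x) ((mm μ).prod (mm μ)) := fun k =>
    (kq_bk_int O hm hb k hn).1.const_mul _
  have h2 : Summable fun k => ∫ x, ‖c k * kq (bk O k n) h x‖ ∂((mm μ).prod (mm μ)) := by
    refine Summable.of_nonneg_of_le (fun k => integral_nonneg fun x => norm_nonneg _)
      (fun k => ?_) (hc.mul_right C)
    calc _ ≤ ∫ _x, ‖c k‖ * C ∂((mm μ).prod (mm μ)) := by
          refine integral_mono (h1 k).norm (integrable_const _) fun x => ?_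
          simp only [norm_mul]
          exact mul_le_mul_of_nonneg_left (h0 k x) (norm_nonneg _)
      _ = _ := by simp
  have h3 := hasSum_integral_of_summable_integral_norm h1 h2
  have h4 : (fun x => ∑' k, c k * kq (bk O k n) h x)
      = kq (fun t g => fs c t * (O.dim n * O.φ n g)) h := by
    funext x
    simp only [kq, fs, bk]
    rw [← tsum_mul_right, ← tsum_mul_right]
    refine tsum_congr fun k => ?_
    ring
  refine ⟨?_, ?_⟩
  · refine kq_int μ _ h hm hb (((fs_cont hc).comp continuous_fst).mul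
      (continuous_const.mul ((O.φ_cont n hn).comp continuous_snd))) ((∑' k, ‖c k‖) * C) ?_
    intro t g
    have h5 : ‖fs c t‖ ≤ ∑' k, ‖c k‖ := by
      unfold fs
      refine tsum_of_norm_bounded hc.hasSum fun k => ?_
      rw [norm_mul, ee_norm, mul_one]
    have h6 := hC 0 t g
    unfold bk at h6
    rw [norm_mul, ee_norm, one_mul] at h6
    rw [norm_mul]
    exact mul_le_mul h5 h6 (norm_nonneg _) (tsum_nonneg fun _ => norm_nonneg _)
  · rw [h4] at h3
    have h7 : (fun k => ∫ x, c k * kq (bk O k n) h x ∂((mm μ).prod (mm μ)))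
        = fun k => c k * R O h k n := by
      funext k
      rw [integral_const_mul, ← (kq_bk_int O hm hb k hn).2]
      rfl
    rw [h7] at h3
    exact h3

theorem mult_le [TG G] [IsProbabilityMeasure μ] {h : ℝ × G → ℂ} (hm : Measurable h)
    (hb : ∀ z, ‖h z‖ ≤ 1) {K : ℝ → G → ℂ} {B : ℝ} (hB : 0 ≤ B) (hK : O.MultBd K B) :
    ‖quad μ K h‖ ≤ B * ∫ z, ‖h z‖ ^ 2 ∂(mm μ) := by
  obtain ⟨S, c, hS, hc, hcB, hK⟩ := hK
  have h1 : quad μ K h = ∑ n ∈ S, quad μ (fun t g => fs (c n) t * (O.dim n * O.φ n g)) h := by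
    unfold quad
    rw [← integral_finsetSum _ fun n hn => (fs_hasSum O hm hb (hS hn) (hc n hn)).1]
    refine integral_congr_ae (Filter.Eventually.of_forall fun x => ?_)
    unfold kq
    simp only [hK, Finset.sum_mul]
  have h2 : HasSum (fun k => ∑ n ∈ S, c n k * R O h k n) (quad μ K h) := by
    rw [h1]
    exact hasSum_sum fun n hn => (fs_hasSum O hm hb (hS hn) (hc n hn)).2
  refine le_of_tendsto' (continuous_norm.continuousAt.tendsto.comp h2) fun s => ?_
  simp only [Function.comp]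
  rw [Finset.sum_comm]
  calc _ ≤ ∑ n ∈ S, ∑ k ∈ s, B * R O h k n := by
        refine (norm_sum_le _ _).trans (Finset.sum_le_sum fun n hn => ?_)
        refine (norm_sum_le _ _).trans (Finset.sum_le_sum fun k _ => ?_)
        rw [norm_mul, Complex.norm_real, Real.norm_of_nonneg (R_nonneg O h k n)]
        exact mul_le_mul_of_nonneg_right (hcB n hn k) (R_nonneg O h k n)
    _ = B * ∑ n ∈ S, ∑ k ∈ s, R O h k n := by simp only [Finset.mul_sum]
    _ ≤ _ := mul_le_mul_of_nonneg_left (bessel_R O hm hb S hS s) hB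

theorem ker_eq (S : Finset (Fin r → ℕ)) (τ : (Fin r → ℕ) → ℤ) (β : (Fin r → ℕ) → ℝ) (t : ℝ)
    (g : G) : O.ker S τ β t g = ∑ n ∈ S, β n * bk O (-τ n) n t g := by
  unfold Orth.ker bk
  refine Finset.sum_congr rfl fun n _ => ?_
  push_cast
  rw [neg_mul, mul_assoc]

theorem ker_cont [TG G] {S : Finset (Fin r → ℕ)} (hS : ↑S ⊆ O.Λ) (τ : (Fin r → ℕ) → ℤ)
    (β : (Fin r → ℕ) → ℝ) : Continuous fun z : ℝ × G => O.ker S τ β z.1 z.2 := by
  unfold Orth.ker
  refine continuous_finsetSum _ fun n hn => ?_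
  exact (continuous_const.mul (ee_cont.comp (by fun_prop))).mul
    (continuous_const.mul ((O.φ_cont n (hS hn)).comp continuous_snd))

theorem quad_ker [TG G] [IsProbabilityMeasure μ] {h : ℝ × G → ℂ} (hm : Measurable h)
    (hb : ∀ z, ‖h z‖ ≤ 1) {S : Finset (Fin r → ℕ)} (hS : ↑S ⊆ O.Λ) (τ : (Fin r → ℕ) → ℤ)
    (β : (Fin r → ℕ) → ℝ) :
    quad μ (O.ker S τ β) h = ((∑ n ∈ S, β n * R O h (-τ n) n : ℝ) : ℂ) := by
  have h1 : kq (O.ker S τ β) h = fun x => ∑ n ∈ S, β n * kq (bk O (-τ n) n) h x := by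
    funext x
    unfold kq
    rw [ker_eq, Finset.sum_mul]
    exact Finset.sum_congr rfl fun n _ => mul_assoc _ _ _
  unfold quad
  rw [h1, integral_finsetSum _ fun n hn => (kq_bk_int O hm hb _ (hS hn)).1.const_mul _]
  push_cast
  refine Finset.sum_congr rfl fun n hn => ?_
  rw [integral_const_mul, ← (kq_bk_int O hm hb _ (hS hn)).2]
  rfl

theorem u_eq (T : Finset (Fin r → ℕ)) (τ : (Fin r → ℕ) → ℤ) (a : ∀ n, Fin (O.dim n) → ℂ)
    (z : ℝ × G) : O.u T τ a z = ∑ n ∈ T, ∑ i, a n i * E O (-τ n) n i z := by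
  unfold Orth.u E
  refine Finset.sum_congr rfl fun n _ => ?_
  rw [Finset.mul_sum]
  refine Finset.sum_congr rfl fun i _ => ?_
  push_cast
  rw [neg_mul]; ring

theorem u_cont [TG G] {T : Finset (Fin r → ℕ)} (hT : ↑T ⊆ O.Λ) (τ : (Fin r → ℕ) → ℤ)
    (a : ∀ n, Fin (O.dim n) → ℂ) : Continuous (O.u T τ a) := by
  rw [funext (u_eq O T τ a)]
  exact continuous_finsetSum _ fun n hn => continuous_finsetSum _ fun i _ =>
    continuous_const.mul (E_cont O _ (hT hn) i)

theorem pair_le [TG G] [IsProbabilityMeasure μ] {h : ℝ × G → ℂ} (hm : Measurable h)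
    (hb : ∀ z, ‖h z‖ ≤ 1) {T : Finset (Fin r → ℕ)} (hT : ↑T ⊆ O.Λ) (τ : (Fin r → ℕ) → ℤ)
    (a : ∀ n, Fin (O.dim n) → ℂ) :
    ‖∫ z, conj (O.u T τ a z) * h z ∂(mm μ)‖ ^ 2 ≤ O.nsq T a * ∑ n ∈ T, R O h (-τ n) n := by
  have h1 : ∫ z, conj (O.u T τ a z) * h z ∂(mm μ)
      = ∑ n ∈ T, ∑ i, conj (a n i) * hh O h (-τ n) n i := by
    have h2 : ∀ z, conj (O.u T τ a z) * h z
        = ∑ n ∈ T, ∑ i, conj (a n i) * (conj (E O (-τ n) n i z) * h z) := by
      intro z
      rw [u_eq]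
      simp only [map_sum, map_mul, Finset.sum_mul, mul_assoc]
    simp_rw [h2]
    rw [integral_finsetSum _ fun n hn => integrable_finsetSum _ fun i _ =>
      (F_int O hm hb _ (hT hn) i).const_mul _]
    refine Finset.sum_congr rfl fun n hn => ?_
    rw [integral_finsetSum _ fun i _ => (F_int O hm hb _ (hT hn) i).const_mul _]
    refine Finset.sum_congr rfl fun i _ => ?_
    rw [integral_const_mul]
    rfl
  rw [h1]
  have h3 : ‖∑ n ∈ T, ∑ i, conj (a n i) * hh O h (-τ n) n i‖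
      ≤ ∑ n ∈ T, ∑ i, ‖a n i‖ * ‖hh O h (-τ n) n i‖ := by
    refine (norm_sum_le _ _).trans (Finset.sum_le_sum fun n _ => ?_)
    refine (norm_sum_le _ _).trans (Finset.sum_le_sum fun i _ => ?_)
    rw [norm_mul, RCLike.norm_conj]
  refine (pow_le_pow_left₀ (norm_nonneg _) h3 2).trans ?_
  unfold Orth.nsq R
  rw [Finset.sum_sigma', Finset.sum_sigma', Finset.sum_sigma']
  exact Finset.sum_mul_sq_le_sq_mul_sq _ _ _

end

theorem interp {q a b θ : ℝ} (hq : 0 ≤ q) (ha : q ≤ a) (hb : q ≤ b) (h0 : 0 < θ) (h1 : θ < 1) :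
    q ≤ a ^ (1 - θ) * b ^ θ := by
  have h2 : q = q ^ (1 - θ) * q ^ θ := by
    rw [← Real.rpow_add' hq (by norm_num)]; simp
  calc q = q ^ (1 - θ) * q ^ θ := h2
    _ ≤ _ := mul_le_mul (Real.rpow_le_rpow hq ha (by linarith)) (Real.rpow_le_rpow hq hb h0.le)
        (Real.rpow_nonneg hq _) (Real.rpow_nonneg (hq.trans ha) _)

end Weak

open Weak in
theorem weak_stmt : WeakStmt := by
  intro G _ _ _ _ μ _ r O θ hθ0 hθ1 S T τ β hS hTS hβ0 hβ1 J _ Kp Ki A B Ai M hker hA hB hM hAi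
    hsum a α hα hα2
  classical
  have hT : (↑T : Set (Fin r → ℕ)) ⊆ O.Λ := fun n hn => hS (hTS hn)
  set u := O.u T τ a with hu
  have huc : Continuous u := u_cont O hT τ a
  set Es : Set (ℝ × G) := {z | α < ‖u z‖} with hEs
  have hEm : MeasurableSet Es := (isOpen_lt continuous_const huc.norm).measurableSet
  set e := (mm μ).real Es with he
  have he0 : 0 ≤ e := measureReal_nonneg
  have hA0 : ∀ p, 0 ≤ A p := fun p => (norm_nonneg _).trans (hA p 0 1)
  have hM0 : 0 ≤ M := le_trans (Finset.sum_nonneg fun p _ =>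
    mul_nonneg (Real.rpow_nonneg (hA0 p) _) (Real.rpow_nonneg (hB p) _)) hsum
  have hN0 : 0 ≤ O.nsq T a :=
    Finset.sum_nonneg fun _ _ => Finset.sum_nonneg fun _ _ => by positivity
  rcases he0.eq_or_lt with he1 | he1
  · rw [← he1, Real.zero_rpow hθ0.ne', mul_zero]; positivity
  set h : ℝ × G → ℂ := Es.indicator fun z => u z / (‖u z‖ : ℂ) with hh_def
  have hm : Measurable h :=
    (huc.measurable.div (Complex.continuous_ofReal.comp huc.norm).measurable).indicator hEm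
  have hn : ∀ z, ‖h z‖ = Es.indicator (fun _ => (1 : ℝ)) z := by
    intro z
    by_cases hz : z ∈ Es
    · have : ‖u z‖ ≠ 0 := (hα.trans hz).ne'
      simp [hh_def, Set.indicator_of_mem hz, this]
    · simp [hh_def, Set.indicator_of_notMem hz]
  have hb : ∀ z, ‖h z‖ ≤ 1 := by
    intro z; rw [hn]
    by_cases hz : z ∈ Es <;> simp [hz]
  have hi1 : ∫ z, ‖h z‖ ∂(mm μ) = e := by
    simp_rw [hn]
    rw [integral_indicator hEm]; simp [he]
  have hi2 : ∫ z, ‖h z‖ ^ 2 ∂(mm μ) = e := by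
    rw [← hi1]
    refine integral_congr_ae (Filter.Eventually.of_forall fun z => ?_)
    simp only [hn]
    by_cases hz : z ∈ Es <;> simp [hz]
  have hhi : Integrable h (mm μ) :=
    Integrable.of_bound hm.aestronglyMeasurable 1 (Filter.Eventually.of_forall hb)
  -- the lower bound for the pairing
  have hlow : α * e ≤ ‖∫ z, conj (u z) * h z ∂(mm μ)‖ := by
    have h1 : ∀ z, conj (u z) * h z = ((Es.indicator (fun z => ‖u z‖) z : ℝ) : ℂ) := by
      intro z
      by_cases hz : z ∈ Es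
      · have : (‖u z‖ : ℂ) ≠ 0 := by exact_mod_cast (hα.trans hz).ne'
        simp only [hh_def, Set.indicator_of_mem hz]
        rw [← mul_div_assoc, Complex.conj_mul', div_eq_iff this, sq]
      · simp [hh_def, Set.indicator_of_notMem hz]
    simp_rw [h1]
    rw [integral_complex_ofReal, Complex.norm_real]
    refine le_trans ?_ (le_abs_self _)
    rw [integral_indicator hEm]
    have hub : Integrable u (mm μ) := by
      rw [hu, funext (u_eq O T τ a)]
      refine integrable_finsetSum _ fun n hn => integrable_finsetSum _ fun i _ => ?_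
      exact ((E_memLp O _ (hT hn) i).integrable one_le_two).const_mul _
    calc α * e = ∫ _z in Es, α ∂(mm μ) := by simp [he, mul_comm]
      _ ≤ _ := setIntegral_mono_on (integrable_const _).integrableOn hub.norm.integrableOn hEm
          fun z hz => le_of_lt hz
  have hKi : ∀ t g, Ki t g = O.ker S τ β t g - ∑ p, Kp p t g := by
    intro t g; rw [hker]; ring
  have hKic : Continuous fun z : ℝ × G => Ki z.1 z.2 := by
    simp_rw [hKi]
    exact (ker_cont O hS τ β).sub (continuous_finsetSum _ fun p _ => mult_cont O (hM p))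
  have hKpi : ∀ p, Integrable (kq (Kp p) h) ((mm μ).prod (mm μ)) := fun p =>
    kq_int μ _ h hm hb (mult_cont O (hM p)) _ (hA p)
  have hq : quad μ (O.ker S τ β) h = ∑ p, quad μ (Kp p) h + quad μ Ki h := by
    unfold quad
    rw [← integral_finsetSum _ fun p _ => hKpi p, ← integral_add
      (integrable_finsetSum _ fun p _ => hKpi p) (kq_int μ _ h hm hb hKic _ hAi)]
    refine integral_congr_ae (Filter.Eventually.of_forall fun x => ?_)
    simp only [kq, hker, add_mul, Finset.sum_mul]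
  have hee : (e ^ 2) ^ (1 - θ) * e ^ θ = e ^ (2 - θ) := by
    rw [← Real.rpow_natCast, ← Real.rpow_mul he0, ← Real.rpow_add he1]
    congr 1; push_cast; ring
  have hp : ∀ p, ‖quad μ (Kp p) h‖ ≤ A p ^ (1 - θ) * B p ^ θ * e ^ (2 - θ) := by
    intro p
    have h1 := quad_le μ (Kp p) h hhi _ (hA p)
    have h2 := mult_le O hm hb (hB p) (hM p)
    rw [hi1] at h1
    rw [hi2] at h2
    refine (interp (norm_nonneg _) h1 h2 hθ0 hθ1).trans_eq ?_
    rw [Real.mul_rpow (hA0 p) (by positivity), Real.mul_rpow (hB p) he0, ← hee]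
    ring
  have hup : ∑ n ∈ T, R O h (-τ n) n ≤ M * e ^ (2 - θ) + Ai * e ^ 2 := by
    calc ∑ n ∈ T, R O h (-τ n) n ≤ ∑ n ∈ T, β n * R O h (-τ n) n :=
          Finset.sum_le_sum fun n hn => le_mul_of_one_le_left (R_nonneg O h _ n) (hβ1 n hn)
      _ ≤ ∑ n ∈ S, β n * R O h (-τ n) n :=
          Finset.sum_le_sum_of_subset_of_nonneg hTS fun n hn _ =>
            mul_nonneg (hβ0 n hn) (R_nonneg O h _ n)
      _ ≤ ‖quad μ (O.ker S τ β) h‖ := by
          rw [quad_ker O hm hb hS, Complex.norm_real]; exact le_abs_self _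
      _ ≤ ∑ p, ‖quad μ (Kp p) h‖ + ‖quad μ Ki h‖ := by
          rw [hq]; exact (norm_add_le _ _).trans (add_le_add_left (norm_sum_le _ _) _)
      _ ≤ ∑ p, A p ^ (1 - θ) * B p ^ θ * e ^ (2 - θ) + Ai * e ^ 2 := by
          refine add_le_add (Finset.sum_le_sum fun p _ => hp p) ?_
          have h1 := quad_le μ Ki h hhi _ hAi
          rwa [hi1] at h1
      _ ≤ _ := by
          rw [← Finset.sum_mul]
          exact add_le_add_left (mul_le_mul_of_nonneg_right hsum (Real.rpow_nonneg he0 _)) _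
  have hmain : (α * e) ^ 2 ≤ O.nsq T a * (M * e ^ (2 - θ) + Ai * e ^ 2) :=
    ((pow_le_pow_left₀ (by positivity) hlow 2).trans (pair_le O hm hb hT τ a)).trans
      (mul_le_mul_of_nonneg_left hup hN0)
  have he2 : e ^ 2 = e ^ θ * e ^ (2 - θ) := by
    rw [← Real.rpow_add he1, ← Real.rpow_natCast]; congr 1; push_cast; ring
  have hpos : 0 < e ^ (2 - θ) := Real.rpow_pos_of_pos he1 _
  have h5 : 2 * Ai * O.nsq T a * e ^ 2 ≤ α ^ 2 * e ^ 2 :=
    mul_le_mul_of_nonneg_right hα2 (by positivity)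
  have h6 : α ^ 2 * e ^ 2 ≤ 2 * M * O.nsq T a * e ^ (2 - θ) := by nlinarith
  rw [he2, ← mul_assoc] at h6
  exact le_of_mul_le_mul_right h6 hpos

end Pool.Agent.MP_ba99b7_an
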