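import Mathlib.Algebra.BigOperators.Group.Finset.Interval
import Mathlib.Data.DFinsupp.WellFounded
import Mathlib.Order.Interval.Finset.Box
import Pool.Agent.MP_ba99b7_an.SpecAn
import Pool.Agent.MP_ba99b7_an.Dim
import Pool.Agent.MP_ba99b7_an.Root2a
import Pool.Agent.MP_ba99b7_an.Base
import Pool.Agent.MP_ba99b7_an.SphA
import Pool.Agent.MP_ba99b7_an.Weak
import Pool.Agent.MP_ba99b7_an.Step
import Pool.Agent.MP_ba99b7_an.Minor
import Pool.Agent.MP_ba99b7_an.Rk1a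
import Pool.Agent.MP_ba99b7_an.Wb
import Pool.Agent.MP_ba99b7_an.Root1
import Pool.Agent.MP_ba99b7_an.Mat

-- ======== part 0: formerly Pool.Agent.MP_ba99b7_an.WeylW
section MrgPart0

/-! PROJECT STRI, module WEYL: the bound for the Weyl majorant near a rational number. -/

namespace Pool.Agent.MP_ba99b7_an

open Finset

namespace Weyl

lemma sum_inj_le {α β : Type} [DecidableEq β] {s : Finset α} {t : Finset β} (e : α → β)
    {f : α → ℝ} {g : β → ℝ} (hinj : Set.InjOn e s) (hmap : ∀ a ∈ s, e a ∈ t)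
    (hg : ∀ b ∈ t, 0 ≤ g b) (h : ∀ a ∈ s, f a ≤ g (e a)) : ∑ a ∈ s, f a ≤ ∑ b ∈ t, g b := by
  refine (sum_le_sum h).trans ?_
  rw [← sum_image (f := g) hinj]
  refine sum_le_sum_of_subset_of_nonneg (fun b hb => ?_) fun b hb _ => hg b hb
  obtain ⟨a, ha, rfl⟩ := mem_image.1 hb
  exact hmap a ha

lemma gw_le {N : ℕ} {y D : ℝ} (hD : 0 < D) (h : D ≤ max 2 (N * nr y)) : gw N y ≤ 2 * N / D :=
  div_le_div_of_nonneg_left (by positivity) hD h

lemma gw_nonneg (N : ℕ) (y : ℝ) : 0 ≤ gw N y :=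
  div_nonneg (by positivity) (le_max_of_le_left zero_le_two)

lemma sum_range_le {X : ℝ} (hX : 0 < X) (Y : ℕ) :
    ∑ m ∈ range (Y + 1), X / (X + m) ≤ 1 + X * Real.log (1 + Y / X) := by
  induction Y with
  | zero => simp [hX.ne']
  | succ Y ih =>
    rw [sum_range_succ]
    have h1 : 0 < X + Y := by positivity
    have h2 := Real.log_le_sub_one_of_pos (x := (X + Y) / (X + (Y + 1))) (by positivity)
    have h3 : ∀ t : ℝ, 0 ≤ t → Real.log (1 + t / X) = Real.log (X + t) - Real.log X := by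
      intro t ht
      rw [← Real.log_div (by positivity) hX.ne']
      congr 1; field_simp
    rw [Real.log_div h1.ne' (by positivity)] at h2
    rw [h3 _ (by positivity)] at ih ⊢
    have h4 : X / (X + (Y + 1)) = X * -((X + Y) / (X + (Y + 1)) - 1) := by field_simp; ring
    push_cast
    nlinarith [mul_le_mul_of_nonneg_left h2 hX.le]

lemma sum_Icc_le {X : ℝ} (hX : 0 < X) (Y : ℕ) :
    ∑ l ∈ Icc (-(Y : ℤ)) Y, X / (X + |(l : ℝ)|) ≤ 1 + 2 * (X * Real.log (1 + Y / X)) := by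
  rw [sum_Icc_of_even_eq_range (f := fun l : ℤ => X / (X + |(l : ℝ)|)) (fun l => by simp) Y]
  have := sum_range_le hX Y
  simp only [Int.cast_natCast, Nat.abs_cast, Int.cast_zero, abs_zero, add_zero, div_self hX.ne',
    nsmul_eq_mul, Nat.cast_ofNat]
  linarith

end Weyl

open Weyl in
theorem ww_stmt : WwStmt := by
  intro C1
  refine ⟨4 * (2 + C1) * (1 + C1) + (24 * (8 * C1 + 6) + (2 + C1)), ?_⟩
  intro N hN x a q L hq hco hqN hβ hL1 hL2
  have hN' : (1 : ℝ) ≤ N := by exact_mod_cast hN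
  have hq' : (1 : ℝ) ≤ q := by exact_mod_cast hq
  have hqz : (0 : ℤ) < q := by exact_mod_cast hq
  have hqN' : (q : ℝ) ≤ (2 * C1 + 2) * N := by exact_mod_cast hqN
  have hC : (0 : ℝ) ≤ C1 := Nat.cast_nonneg _
  set β := x - a / q with hβd
  set I := Finset.Icc (-((C1 * N : ℕ) : ℤ)) ((C1 * N : ℕ) : ℤ) with hI
  set Y := C1 * N / q with hY
  have hYq : (Y : ℝ) * q ≤ C1 * N := by exact_mod_cast Nat.div_mul_le_self (C1 * N) q
  have hYz : ((C1 * N : ℕ) : ℤ) < (Y + 1) * q := by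
    exact_mod_cast (Nat.div_lt_iff_lt_mul hq).1 (Nat.lt_succ_self Y)
  set k : ℤ → ℤ := fun l => a * l - round (x * l) * q with hk
  have hnr : ∀ l : ℤ, nr (x * l) = |(k l : ℝ) / q + β * l| := by
    intro l
    rw [nr, hk, hβd]
    congr 1
    push_cast
    field_simp
    ring
  have hIabs : ∀ l ∈ I, |l| ≤ ((C1 * N : ℕ) : ℤ) := fun l hl => abs_le.2 (mem_Icc.1 hl)
  have hsm : ∀ l ∈ I, |β * l| ≤ 1 / (2 * q) := by
    intro l hl
    have h1 : |(l : ℝ)| ≤ C1 * N := by exact_mod_cast hIabs l hl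
    rw [abs_mul]
    refine (mul_le_mul hβ h1 (abs_nonneg _) (by positivity)).trans ?_
    rw [div_mul_eq_mul_div, div_le_div_iff₀ (by positivity) (by positivity)]
    nlinarith [mul_pos (show (0 : ℝ) < N by linarith) (show (0 : ℝ) < q by linarith)]
  have hdvd : ∀ l l' : ℤ, k l = k l' → (q : ℤ) ∣ l - l' := by
    intro l l' h
    refine hco.symm.dvd_of_dvd_mul_left ⟨round (x * l) - round (x * l'), ?_⟩
    simp only [hk] at h
    linear_combination h
  have hinj : ∀ l l' : ℤ, k l = k l' → l / q = l' / q → l = l' := by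
    intro l l' h1 h2
    have h3 : l % q = l' % q := (Int.emod_emod_of_dvd _ dvd_rfl).symm.trans
      ((Int.emod_emod_of_dvd _ dvd_rfl).trans (Int.modEq_iff_dvd.2 (hdvd l' l h1.symm)))
    rw [← Int.mul_ediv_add_emod l q, ← Int.mul_ediv_add_emod l' q, h2, h3]
  have hlogq : 0 ≤ Real.log q := Real.log_nonneg hq'
  have hlogL : 0 ≤ Real.log L := Real.log_nonneg hL1
  -- the frequencies that are not multiples of `q`
  have hA : ∑ l ∈ I.filter (fun l => ¬ k l = 0), gw N (x * l)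
      ≤ 24 * (8 * C1 + 6) * (N * (1 + Real.log q)) := by
    have hmain : ∀ l ∈ I.filter (fun l => ¬ k l = 0),
        |(k l : ℝ)| ≤ q ∧ gw N (x * l) ≤ 8 * q * (1 / (1 + |(k l : ℝ)|)) := by
      intro l hl
      obtain ⟨hl1, hl2⟩ := mem_filter.1 hl
      have h1 : (1 : ℝ) ≤ |(k l : ℝ)| := by exact_mod_cast Int.one_le_abs hl2
      have h2 : |(k l : ℝ)| / q ≤ nr (x * l) + 1 / (2 * q) := by
        have := abs_sub ((k l : ℝ) / q + β * l) (β * l)
        rw [add_sub_cancel_right, abs_div, Nat.abs_cast, ← hnr] at this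
        linarith [hsm l hl1]
      have h3 : nr (x * l) ≤ 1 / 2 := abs_sub_round _
      have h4 : |(k l : ℝ)| ≤ nr (x * l) * q + 1 / 2 := by
        rw [div_le_iff₀ (by linarith)] at h2
        refine h2.trans (le_of_eq ?_)
        field_simp
      refine ⟨by nlinarith, (gw_le (D := N * ((1 + |(k l : ℝ)|) / (4 * q))) (by positivity)
        (le_max_of_le_right ?_)).trans (le_of_eq (by field_simp; norm_num))⟩
      refine mul_le_mul_of_nonneg_left ?_ (by positivity)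
      rw [div_le_iff₀ (by positivity)]
      linarith
    refine (sum_inj_le (t := Icc (-(q : ℤ)) q ×ˢ Icc (-((Y + 1 : ℕ) : ℤ)) ((Y + 1 : ℕ) : ℤ))
      (fun l => (k l, l / q)) (g := fun z => 8 * q * (1 / (1 + |(z.1 : ℝ)|)))
      (fun l _ l' _ h => hinj l l' (congrArg Prod.fst h) (congrArg Prod.snd h))
      (fun l hl => ?_) (fun z _ => by positivity) fun l hl => (hmain l hl).2).trans ?_
    · have h1 := abs_le.1 (hIabs l (mem_filter.1 hl).1)
      refine mem_product.2 ⟨mem_Icc.2 (abs_le.1 (by exact_mod_cast (hmain l hl).1)),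
        mem_Icc.2 ⟨(Int.le_ediv_iff_mul_le hqz).2 ?_, ((Int.ediv_lt_iff_lt_mul hqz).2 ?_).le⟩⟩
      · push_cast at *; linarith
      · push_cast at *; linarith
    · rw [sum_product]
      simp only [sum_const, Int.card_Icc, nsmul_eq_mul]
      rw [← mul_sum, ← mul_sum]
      have h1 := sum_Icc_le one_pos q
      have h2 : Real.log (1 + q / 1) ≤ 1 + Real.log q := by
        have h3 : Real.log (1 + q / 1) ≤ Real.log (2 * q) :=
          Real.log_le_log (by positivity) (by linarith)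
        rw [Real.log_mul two_ne_zero (by positivity)] at h3
        linarith [Real.log_le_sub_one_of_pos two_pos]
      have h3 : ((((Y + 1 : ℕ) : ℤ) + 1 - -((Y + 1 : ℕ) : ℤ)).toNat : ℝ) = 2 * Y + 3 := by
        rw [show ((Y + 1 : ℕ) : ℤ) + 1 - -((Y + 1 : ℕ) : ℤ) = ((2 * Y + 3 : ℕ) : ℤ) by
          push_cast; ring, Int.toNat_natCast]
        push_cast; ring
      rw [h3, ← mul_assoc]
      calc _ ≤ (8 * ((8 * C1 + 6) * N)) * (3 * (1 + Real.log q)) :=
            mul_le_mul (by nlinarith) (by linarith) (sum_nonneg fun l _ => by positivity)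
              (by positivity)
        _ = _ := by ring
  -- the multiples of `q`
  set X : ℝ := 2 * N / (q * L) with hX
  have hX0 : 0 < X := by positivity
  have hXq : X * (q * L) = 2 * N := div_mul_cancel₀ _ (by positivity)
  have hB : ∑ l ∈ I.filter (fun l => k l = 0), gw N (x * l)
      ≤ (2 + C1) * N * (1 + 2 * (X * ((1 + C1) * (1 + Real.log L)))) := by
    have hmain : ∀ l ∈ I.filter (fun l => k l = 0), |l / q| ≤ Y ∧
        gw N (x * l) ≤ (2 + C1) * N * (X / (X + |((l / q : ℤ) : ℝ)|)) := by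
      intro l hl
      obtain ⟨hl1, hl2⟩ := mem_filter.1 hl
      obtain ⟨j, rfl⟩ : (q : ℤ) ∣ l := by simpa using hdvd l 0 (by rw [hl2]; simp [hk])
      rw [Int.mul_ediv_cancel_left _ hqz.ne']
      have h1 := hIabs _ hl1
      rw [abs_mul, abs_of_pos hqz] at h1
      have h2 : (q : ℝ) * |(j : ℝ)| ≤ C1 * N := by exact_mod_cast h1
      have hj := abs_nonneg (j : ℝ)
      refine ⟨Int.lt_add_one_iff.1 (lt_of_mul_lt_mul_right (a := (q : ℤ)) (by linarith) hqz.le), ?_⟩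
      rcases le_max_iff.1 hL2 with h | h
      · refine (gw_le two_pos (le_max_left _ _)).trans ?_
        have h3 : 2 * |(j : ℝ)| ≤ C1 * X := by
          refine le_of_mul_le_mul_right ?_ (show 0 < q * L by positivity)
          rw [mul_assoc (C1 : ℝ), hXq, le_antisymm h hL1]
          linarith
        rw [← mul_div_assoc, div_le_div_iff₀ two_pos (by positivity)]
        nlinarith [mul_le_mul_of_nonneg_left h3 (show (0 : ℝ) ≤ N by linarith),
          mul_nonneg (mul_nonneg hC hX0.le) (show (0 : ℝ) ≤ N by linarith),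
          mul_nonneg hX0.le (show (0 : ℝ) ≤ N by linarith)]
      · have h3 : 2 * (|(j : ℝ)| / X) ≤ N * nr (x * ((q * j : ℤ) : ℝ)) := by
          rw [hnr, hl2]
          push_cast
          rw [zero_div, zero_add, abs_mul, abs_mul, Nat.abs_cast, ← mul_div_assoc, div_le_iff₀ hX0]
          refine le_of_mul_le_mul_right ?_ (show 0 < q * L by positivity)
          rw [mul_assoc _ X, hXq]
          nlinarith [mul_le_mul_of_nonneg_left h (mul_nonneg (show (0 : ℝ) ≤ q by linarith) hj)]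
        refine (gw_le (D := 1 + |(j : ℝ)| / X) (by positivity) ?_).trans ?_
        · rcases le_total (|(j : ℝ)| / X) 1 with h4 | h4
          · exact le_max_of_le_left (by linarith)
          · exact le_max_of_le_right (by linarith)
        · rw [show 2 * (N : ℝ) / (1 + |(j : ℝ)| / X) = 2 * N * (X / (X + |(j : ℝ)|)) by field_simp]
          gcongr
          linarith
    refine (sum_inj_le (t := Icc (-(Y : ℤ)) Y) (fun l => l / q)
      (g := fun j => (2 + C1) * N * (X / (X + |(j : ℝ)|)))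
      (fun l hl l' hl' h => hinj l l' ((mem_filter.1 hl).2.trans (mem_filter.1 hl').2.symm) h)
      (fun l hl => mem_Icc.2 (abs_le.1 (hmain l hl).1)) (fun z _ => by positivity)
      fun l hl => (hmain l hl).2).trans ?_
    rw [← mul_sum]
    refine mul_le_mul_of_nonneg_left ((sum_Icc_le hX0 Y).trans ?_) (by positivity)
    have h1 : 2 * (Y : ℝ) ≤ C1 * L * X := by
      refine le_of_mul_le_mul_right ?_ (show (0 : ℝ) < q by linarith)
      nlinarith [congrArg (fun t => (C1 : ℝ) * t) hXq]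
    have h2 : Real.log (1 + Y / X) ≤ Real.log ((1 + C1) * L) := by
      refine Real.log_le_log (by positivity) ?_
      have : (Y : ℝ) / X ≤ C1 * L := by
        rw [div_le_iff₀ hX0]
        linarith [Nat.cast_nonneg (α := ℝ) Y]
      linarith
    rw [Real.log_mul (by positivity) (by positivity)] at h2
    have h3 := Real.log_le_sub_one_of_pos (x := 1 + C1) (by positivity)
    gcongr
    nlinarith
  rw [ww, ← sum_filter_add_sum_filter_not I (fun l => k l = 0)]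
  have e1 : (N : ℝ) * X = 2 * (N ^ 2 / (q * L)) := by rw [hX]; ring
  have p1 : 0 ≤ (N : ℝ) ^ 2 / (q * L) * (1 + Real.log L) := by positivity
  have p2 : (N : ℝ) ≤ N * (1 + Real.log q) := by nlinarith
  have e2 : (2 + C1) * N * (1 + 2 * (X * ((1 + C1) * (1 + Real.log L)))) = (2 + C1) * N
      + 4 * (2 + C1) * (1 + C1) * (N ^ 2 / (q * L) * (1 + Real.log L)) := by
    linear_combination 2 * (2 + C1) * (1 + C1) * (1 + Real.log L) * e1
  rw [e2] at hB
  generalize (N : ℝ) ^ 2 / (q * L) * (1 + Real.log L) = U at *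
  generalize (N : ℝ) * (1 + Real.log q) = V at *
  have p3 : 0 ≤ V := by linarith
  nlinarith [mul_le_mul_of_nonneg_left p2 (show (0 : ℝ) ≤ 2 + C1 by linarith),
    mul_nonneg (show (0 : ℝ) ≤ 24 * (8 * C1 + 6) + (2 + C1) by positivity) p1,
    mul_nonneg (show (0 : ℝ) ≤ 4 * (2 + C1) * (1 + C1) by positivity) p3]

end Pool.Agent.MP_ba99b7_an

end MrgPart0

-- ======== part 1: formerly Pool.Agent.MP_ba99b7_an.Weyl
section MrgPart1

/-! PROJECT STRI, module WEYL: Weyl differencing for quadratic exponential sums. -/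

namespace Pool.Agent.MP_ba99b7_an

open Finset
open scoped ComplexConjugate

namespace Weyl

lemma ee_add (x y : ℝ) : ee (x + y) = ee x * ee y := by
  rw [ee, ee, ee, ← Complex.exp_add]; congr 1; push_cast; ring

lemma ee_eq (x : ℝ) : ee x = Complex.exp (Complex.I * (2 * Real.pi * x : ℝ)) := by
  rw [ee]; congr 1; push_cast; ring

lemma norm_ee (x : ℝ) : ‖ee x‖ = 1 := by
  rw [ee_eq, Complex.norm_exp_I_mul_ofReal]

lemma conj_ee (x : ℝ) : conj (ee x) = ee (-x) := by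
  rw [ee, ee, ← Complex.exp_conj]
  congr 1
  simp only [map_mul, Complex.conj_ofReal, Complex.conj_I, map_ofNat]
  push_cast; ring

lemma ee_nat (y : ℝ) (n : ℕ) : ee (y * n) = ee y ^ n := by
  rw [ee, ee, ← Complex.exp_nat_mul]; congr 1; push_cast; ring

lemma ee_sum {ι : Type} (s : Finset ι) (f : ι → ℝ) : ee (∑ i ∈ s, f i) = ∏ i ∈ s, ee (f i) := by
  classical
  induction s using Finset.induction_on with
  | empty => simp [ee]
  | insert i s hi ih => rw [sum_insert hi, prod_insert hi, ee_add, ih]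

lemma ee_int (n : ℤ) : ee n = 1 := by
  rw [ee, ← Complex.exp_int_mul_two_pi_mul_I n]; congr 1; push_cast; ring

lemma nr_le (y : ℝ) : 4 * nr y ≤ ‖ee y - 1‖ := by
  have h1 : ee y = ee (y - round y) := by
    rw [sub_eq_add_neg, ee_add, ← Int.cast_neg, ee_int, mul_one]
  have h2 := abs_sub_round y
  have hp := Real.pi_pos
  have h3 := Real.mul_abs_le_abs_sin (x := Real.pi * (y - round y)) (by
    rw [abs_mul, abs_of_pos hp]; nlinarith)
  rw [h1, ee_eq, Complex.norm_exp_I_mul_ofReal_sub_one, Real.norm_eq_abs, abs_mul, abs_two,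
    show 2 * Real.pi * (y - round y) / 2 = Real.pi * (y - round y) by ring, nr]
  rw [abs_mul, abs_of_pos hp, ← mul_assoc, div_mul_cancel₀ _ hp.ne'] at h3
  linarith

lemma geom_le {N K : ℕ} (hK : K ≤ N) (y : ℝ) {z : ℂ} (hz : ‖z‖ ≤ 1) :
    ‖∑ n ∈ range K, (ee y * (conj z * z)) ^ n‖ ≤ gw N y := by
  set w := ee y * (conj z * z) with hw
  have h0 := norm_nonneg z
  have hw1 : ‖w‖ = ‖z‖ ^ 2 := by
    rw [hw, norm_mul, norm_mul, norm_ee, RCLike.norm_conj]; ring
  have hw2 : ‖w‖ ≤ 1 := by rw [hw1]; nlinarith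
  have h1 : ‖∑ n ∈ range K, w ^ n‖ ≤ N := by
    refine (norm_sum_le_of_le _ (n := fun _ => (1 : ℝ)) fun n _ => ?_).trans ?_
    · rw [norm_pow]; exact pow_le_one₀ (norm_nonneg _) hw2
    · simpa using hK
  have h2 : ‖∑ n ∈ range K, w ^ n‖ * ‖w - 1‖ ≤ 2 := by
    rw [← norm_mul, geom_sum_mul]
    refine (norm_sub_le _ _).trans ?_
    rw [norm_pow, norm_one]
    linarith [pow_le_one₀ (n := K) (norm_nonneg _) hw2]
  have h3 : nr y ≤ ‖w - 1‖ := by
    have a1 : ‖ee y - w‖ = 1 - ‖w‖ := by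
      rw [hw1, hw, ← mul_one_sub, norm_mul, norm_ee, one_mul, Complex.conj_mul']
      norm_cast
      exact abs_of_nonneg (by nlinarith)
    have a2 := norm_sub_le_norm_sub_add_norm_sub (ee y) w 1
    have a3 := norm_sub_norm_le (1 : ℂ) w
    rw [norm_one, norm_sub_rev] at a3
    linarith [nr_le y, norm_nonneg (w - 1)]
  rw [gw, le_div_iff₀ (lt_max_of_lt_left two_pos), mul_max_of_nonneg _ _ (norm_nonneg _)]
  refine max_le (by linarith) ?_
  nlinarith [mul_le_mul_of_nonneg_left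
    ((mul_le_mul_of_nonneg_left h3 (norm_nonneg (∑ n ∈ range K, w ^ n))).trans h2)
    (Nat.cast_nonneg (α := ℝ) N)]

/-- the powers of `z`, cut off outside `[0, L)` -/
noncomputable def tz (L : ℕ) (z : ℂ) (n : ℤ) : ℂ := if 0 ≤ n ∧ n < L then z ^ n.toNat else 0

lemma line_le {N L : ℕ} (hL : L ≤ N) (y : ℝ) {z : ℂ} (hz : ‖z‖ ≤ 1) (h : ℤ) :
    ‖∑ n ∈ range L, ee (y * n) * (conj (z ^ n) * tz L z (n + h))‖ ≤ gw N y := by
  have hp : ∀ k : ℕ, ‖z ^ k‖ ≤ 1 := fun k => by rw [norm_pow]; exact pow_le_one₀ (norm_nonneg _) hz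
  obtain ⟨k, rfl | rfl⟩ := Int.eq_nat_or_neg h
  · have e1 : ∑ n ∈ range L, ee (y * n) * (conj (z ^ n) * tz L z (n + k))
        = z ^ k * ∑ n ∈ range (L - k), (ee y * (conj z * z)) ^ n := by
      rw [mul_sum]
      refine (sum_of_injOn id (Set.injOn_id _) (fun n hn => ?_) (fun n hn hn' => ?_)
        fun n hn => ?_).symm
      · simp only [coe_range, Set.mem_Iio, id] at hn ⊢; omega
      · simp only [coe_range, Set.image_id, Set.mem_Iio] at hn'
        rw [tz, if_neg (by omega), mul_zero, mul_zero]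
      · have := mem_range.1 hn
        rw [id, tz, if_pos (by omega), ← Nat.cast_add, Int.toNat_natCast, ee_nat, map_pow]
        ring
    rw [e1, norm_mul]
    exact (mul_le_of_le_one_left (norm_nonneg _) (hp k)).trans (geom_le (by omega) y hz)
  · have e1 : ∑ n ∈ range L, ee (y * n) * (conj (z ^ n) * tz L z (n + -k))
        = ee y ^ k * conj (z ^ k) * ∑ n ∈ range (L - k), (ee y * (conj z * z)) ^ n := by
      rw [mul_sum]
      refine (sum_of_injOn (fun n => n + k) (fun n _ n' _ h => by simpa using h)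
        (fun n hn => ?_) (fun n hn hn' => ?_) fun n hn => ?_).symm
      · simp only [coe_range, Set.mem_Iio] at hn ⊢; omega
      · have h1 := mem_range.1 hn
        have h2 : ¬ k ≤ n := fun h => hn' ⟨n - k, by simp only [coe_range, Set.mem_Iio]; omega,
          Nat.sub_add_cancel h⟩
        rw [tz, if_neg (by omega), mul_zero, mul_zero]
      · have := mem_range.1 hn
        rw [tz, if_pos (by omega), show ((n + k : ℕ) : ℤ) + -k = n by omega, Int.toNat_natCast,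
          ee_nat, map_pow, map_pow]
        ring
    rw [e1, norm_mul, norm_mul, norm_pow, norm_ee, one_pow, one_mul, RCLike.norm_conj]
    exact (mul_le_of_le_one_left (norm_nonneg _) (hp k)).trans (geom_le (by omega) y hz)

/-- the quadratic form on integral vectors -/
def qz {r : ℕ} (A : Matrix (Fin r) (Fin r) ℤ) (m : Fin r → ℤ) : ℤ := ∑ i, ∑ j, A i j * m i * m j

lemma qz_add {r : ℕ} {A : Matrix (Fin r) (Fin r) ℤ} (hA : A.IsSymm) (m h : Fin r → ℤ) :
    qz A (m + h) = qz A m + qz A h + ∑ i, 2 * A.mulVec h i * m i := by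
  have h1 : ∑ i, ∑ j, A i j * h i * m j = ∑ i, ∑ j, A i j * h j * m i := by
    rw [sum_comm]
    exact sum_congr rfl fun i _ => sum_congr rfl fun j _ => by rw [hA.apply i j]
  have h2 : ∑ i, 2 * A.mulVec h i * m i
      = ∑ i, ∑ j, A i j * h i * m j + ∑ i, ∑ j, A i j * h j * m i := by
    rw [h1, ← sum_add_distrib]
    refine sum_congr rfl fun i _ => ?_
    rw [Matrix.mulVec, dotProduct, ← sum_mul]; ring
  rw [h2]
  simp only [qz, Pi.add_apply, ← sum_add_distrib]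
  exact sum_congr rfl fun i _ => sum_congr rfl fun j _ => by ring

end Weyl

open Weyl in
theorem weyl_stmt : WeylStmt := by
  intro r A hA hdet
  refine ⟨2 * ∑ i, ∑ j, (A i j).natAbs, fun N hN len hlen z hz x b => ?_⟩
  set C1 := 2 * ∑ i, ∑ j, (A i j).natAbs with hC1
  set B := Fintype.piFinset (fun j => Finset.range (len j)) with hB
  set H := Fintype.piFinset (fun _ : Fin r => Finset.Icc (-(N : ℤ)) N) with hH
  set T : (Fin r → ℕ) → ℂ := fun m => ee (x * qf A m + ∑ j, b j * m j) * ∏ j, z j ^ m j with hT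
  set TZ : (Fin r → ℤ) → ℂ := fun m =>
    ee (x * qz A m + ∑ j, b j * m j) * ∏ j, tz (len j) (z j) (m j) with hTZ
  have hmem : ∀ m ∈ B, ∀ j, m j < len j := fun m hm j => mem_range.1 (Fintype.mem_piFinset.1 hm j)
  have h1 : ∀ m ∈ B, ∑ m' ∈ B, T m' = ∑ h ∈ H, TZ ((fun j => (m j : ℤ)) + h) := by
    intro m hm
    refine sum_of_injOn (fun m' j => (m' j : ℤ) - m j) (fun u _ v _ h => funext fun j => ?_)
      (fun u hu => ?_) (fun h _ hn => ?_) fun u hu => ?_
    · have := congrFun h j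
      simp only at this
      omega
    · refine mem_coe.2 (Fintype.mem_piFinset.2 fun j => mem_Icc.2 ?_)
      have := hmem m hm j
      have := hmem u hu j
      have := hlen j
      simp only
      omega
    · by_contra hc
      have h2 : ∀ j, 0 ≤ (m j : ℤ) + h j ∧ (m j : ℤ) + h j < len j := fun j => by
        by_contra h3
        exact hc (mul_eq_zero_of_right _ (prod_eq_zero (mem_univ j) (if_neg h3)))
      refine hn ⟨fun j => ((m j : ℤ) + h j).toNat, mem_coe.2 (Fintype.mem_piFinset.2 fun j =>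
        mem_range.2 ?_), funext fun j => ?_⟩
      · have := h2 j
        omega
      · have := h2 j
        simp only
        omega
    · have e : ((fun j => (m j : ℤ)) + fun j => (u j : ℤ) - m j) = fun j => (u j : ℤ) := by
        funext j; simp
      rw [e, hT, hTZ]
      simp only [Int.cast_natCast]
      congr 1
      refine prod_congr rfl fun j _ => ?_
      have := hmem u hu j
      rw [tz, if_pos (by omega), Int.toNat_natCast]
  have h2 : ∀ (m : Fin r → ℕ) (h : Fin r → ℤ), conj (T m) * TZ ((fun j => (m j : ℤ)) + h)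
      = ee (x * qz A h + ∑ j, b j * h j) * ∏ j, (ee (x * (2 * A.mulVec h j : ℤ) * m j)
        * (conj (z j ^ m j) * tz (len j) (z j) (m j + h j))) := by
    intro m h
    have e1 : qf A m = qz A fun j => (m j : ℤ) := rfl
    simp only [hT, hTZ, map_mul, map_prod, conj_ee, prod_mul_distrib, ← ee_sum, Pi.add_apply]
    rw [mul_mul_mul_comm, ← ee_add, ← mul_assoc _ (ee _), ← ee_add, qz_add hA, e1]
    congr 2
    push_cast
    simp only [mul_add, sum_add_distrib, mul_sum, mul_assoc]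
    ring
  have h3 : ((‖∑ m ∈ B, T m‖ ^ 2 : ℝ) : ℂ) = ∑ h ∈ H, ee (x * qz A h + ∑ j, b j * h j) *
      ∏ j, ∑ n ∈ range (len j), (ee (x * (2 * A.mulVec h j : ℤ) * n)
        * (conj (z j ^ n) * tz (len j) (z j) (n + h j))) := by
    push_cast
    rw [← Complex.conj_mul', map_sum, sum_mul, sum_congr rfl fun m hm => by rw [h1 m hm, mul_sum],
      sum_comm]
    refine sum_congr rfl fun h _ => ?_
    rw [prod_univ_sum, mul_sum]
    refine sum_congr rfl fun m _ => (h2 m h).trans ?_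
    push_cast
    rfl
  have h4 : ‖∑ m ∈ B, T m‖ ^ 2 ≤ ∑ h ∈ H, ∏ j, gw N (x * (2 * A.mulVec h j : ℤ)) := by
    rw [← Real.norm_of_nonneg (sq_nonneg ‖∑ m ∈ B, T m‖), ← Complex.norm_real, h3]
    refine norm_sum_le_of_le _ fun h _ => ?_
    rw [norm_mul, norm_ee, one_mul, norm_prod]
    exact prod_le_prod (fun j _ => norm_nonneg _) fun j _ => line_le (hlen j) _ (hz j) _
  refine h4.trans ((sum_inj_le (t := Fintype.piFinset fun _ : Fin r =>
    Finset.Icc (-((C1 * N : ℕ) : ℤ)) ((C1 * N : ℕ) : ℤ)) (fun h j => 2 * A.mulVec h j)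
    (g := fun l => ∏ j, gw N (x * l j)) (fun u _ v _ h => ?_) (fun h hh => ?_)
    (fun l _ => prod_nonneg fun j _ => gw_nonneg _ _) fun h _ => le_rfl).trans (le_of_eq ?_))
  · have e : A.mulVec (u - v) = 0 := by
      funext j
      have := congrFun h j
      simp only [Matrix.mulVec_sub, Pi.sub_apply, Pi.zero_apply] at this ⊢
      omega
    exact sub_eq_zero.1 (Matrix.eq_zero_of_mulVec_eq_zero hdet e)
  · refine Fintype.mem_piFinset.2 fun i => mem_Icc.2 (abs_le.1 ?_)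
    have a1 : |A.mulVec h i| ≤ (∑ j, |A i j|) * N := by
      rw [sum_mul, Matrix.mulVec, dotProduct]
      refine (abs_sum_le_sum_abs _ _).trans (sum_le_sum fun j _ => ?_)
      rw [abs_mul]
      exact mul_le_mul_of_nonneg_left (abs_le.2 (mem_Icc.1 (Fintype.mem_piFinset.1 hh j)))
        (abs_nonneg _)
    have a2 : ∑ j, |A i j| ≤ ∑ i, ∑ j, |A i j| :=
      single_le_sum (f := fun i => ∑ j, |A i j|) (fun i _ => sum_nonneg fun j _ => abs_nonneg _)
        (mem_univ i)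
    rw [abs_mul, abs_two, hC1]
    push_cast
    nlinarith [mul_le_mul_of_nonneg_right a2 (Nat.cast_nonneg (α := ℤ) N)]
  · rw [← prod_univ_sum (fun _ : Fin r => Finset.Icc (-((C1 * N : ℕ) : ℤ)) ((C1 * N : ℕ) : ℤ))
      fun _ l => gw N (x * l), prod_const, card_univ, Fintype.card_fin, ww]

end Pool.Agent.MP_ba99b7_an

end MrgPart1

-- ======== part 2: formerly Pool.Agent.MP_ba99b7_an.SumB
section MrgPart2

/-! PROJECT STRI, module SUM, part B: rescaling of time. -/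

namespace Pool.Agent.MP_ba99b7_an

open scoped ComplexConjugate ENNReal
open MeasureTheory Finset

namespace Sum

lemma per_shift {H : ℝ → ℝ≥0∞} (hper : ∀ (t : ℝ) (k : ℤ), H (t + k) = H t) (k : ℤ) :
    ∫⁻ t in Set.Ioc (k : ℝ) (k + 1), H t = ∫⁻ t in Set.Ioc (0 : ℝ) 1, H t := by
  rw [← lintegral_indicator measurableSet_Ioc, ← lintegral_indicator measurableSet_Ioc,
    ← lintegral_add_right_eq_self _ (k : ℝ)]
  refine lintegral_congr fun t => ?_
  by_cases ht : t ∈ Set.Ioc (0 : ℝ) 1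
  · rw [Set.indicator_of_mem ht, Set.indicator_of_mem, hper]
    exact ⟨by linarith [ht.1], by linarith [ht.2]⟩
  · rw [Set.indicator_of_notMem ht, Set.indicator_of_notMem]
    intro h
    exact ht ⟨by linarith [h.1], by linarith [h.2]⟩

lemma per_many {H : ℝ → ℝ≥0∞} (hper : ∀ (t : ℝ) (k : ℤ), H (t + k) = H t) (a : ℤ) (n : ℕ) :
    ∫⁻ t in Set.Ioc (a : ℝ) (a + n), H t ≤ n * ∫⁻ t in Set.Ioc (0 : ℝ) 1, H t := by
  induction n with
  | zero => simp
  | succ n ih =>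
    have hsub : Set.Ioc (a : ℝ) (a + (n + 1 : ℕ)) ⊆
        Set.Ioc (a : ℝ) (a + n) ∪ Set.Ioc ((a + n : ℤ) : ℝ) ((a + n : ℤ) + 1) := by
      intro t ht
      by_cases h : t ≤ a + n
      · exact Or.inl ⟨ht.1, h⟩
      · right
        have h2 := ht.2
        push_cast at h2 ⊢
        exact ⟨not_le.1 h, by linarith⟩
    calc _ ≤ ∫⁻ t in Set.Ioc (a : ℝ) (a + n) ∪ Set.Ioc ((a + n : ℤ) : ℝ) ((a + n : ℤ) + 1), H t :=
          lintegral_mono_set hsub
      _ ≤ _ := lintegral_union_le _ _ _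
      _ ≤ n * (∫⁻ t in Set.Ioc (0 : ℝ) 1, H t) + ∫⁻ t in Set.Ioc (0 : ℝ) 1, H t := by
          rw [per_shift hper]
          gcongr
      _ = _ := by push_cast; ring

lemma per_scale {L : ℝ} (hL : 0 < L) {I : Set ℝ} (hI : Bornology.IsBounded I) : ∃ c : ℝ, 0 ≤ c ∧
    ∀ H : ℝ → ℝ≥0∞, Measurable H → (∀ (t : ℝ) (k : ℤ), H (t + k) = H t) →
      ∫⁻ t in I, H (t * L⁻¹) ≤ ENNReal.ofReal c * ∫⁻ t in Set.Ioc (0 : ℝ) 1, H t := by
  obtain ⟨R, hR⟩ := hI.exists_norm_le
  obtain ⟨M, hM⟩ := exists_nat_gt (R / L)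
  rw [div_lt_iff₀ hL] at hM
  refine ⟨L * (2 * M : ℕ), by positivity, fun H hH hper => ?_⟩
  set J : Set ℝ := Set.Ioc ((-(M : ℤ) : ℤ) : ℝ) (((-(M : ℤ) : ℤ) : ℝ) + (2 * M : ℕ)) with hJ
  have hJm : MeasurableSet J := measurableSet_Ioc
  have hsub : I ⊆ (fun t => t * L⁻¹) ⁻¹' J := by
    intro t ht
    have h1 := abs_le.1 (show |t| ≤ R from hR t ht)
    simp only [hJ, Set.mem_preimage, Set.mem_Ioc]
    push_cast
    rw [← div_eq_mul_inv, lt_div_iff₀ hL, div_le_iff₀ hL]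
    constructor <;> nlinarith [h1.1, h1.2]
  have hmeas : Measurable fun t : ℝ => t * L⁻¹ := measurable_id.mul_const _
  calc ∫⁻ t in I, H (t * L⁻¹) ≤ ∫⁻ t in (fun t => t * L⁻¹) ⁻¹' J, H (t * L⁻¹) :=
        lintegral_mono_set hsub
    _ = ∫⁻ t in J, H t ∂(Measure.map (fun t => t * L⁻¹) volume) :=
        (setLIntegral_map hJm hH hmeas).symm
    _ = ENNReal.ofReal L * ∫⁻ t in J, H t := by
        rw [Real.map_volume_mul_right (inv_ne_zero hL.ne'), inv_inv, abs_of_pos hL,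
          Measure.restrict_smul, lintegral_smul_measure, smul_eq_mul]
    _ ≤ ENNReal.ofReal L * ((2 * M : ℕ) * ∫⁻ t in Set.Ioc (0 : ℝ) 1, H t) := by
        gcongr
        exact per_many hper _ _
    _ = _ := by
        rw [ENNReal.ofReal_mul hL.le, ENNReal.ofReal_natCast, mul_assoc]

lemma ee_add_int (x : ℝ) (k : ℤ) : ee (x + k) = ee x := by
  unfold ee
  have : (2 * Real.pi * ((x + k : ℝ) : ℂ) * Complex.I)
      = 2 * Real.pi * x * Complex.I + k * (2 * Real.pi * Complex.I) := by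
    push_cast; ring
  rw [this, Complex.exp_add, Complex.exp_int_mul_two_pi_mul_I, mul_one]

lemma continuous_ee : Continuous ee := by
  unfold ee
  fun_prop

variable {G : Type} [Group G] [TopologicalSpace G] [MeasurableSpace G]

lemma P_nonneg {μ : Measure G} {r d : ℕ} (S : Sph μ r d) (n : Fin r → ℕ) : 0 ≤ S.P n := by
  have h1 : 0 ≤ qf S.A n := by
    by_cases h : (fun i => (n i : ℝ)) = 0
    · have : ∀ i, n i = 0 := fun i => by simpa using congrFun h i
      simp [qf, this]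
    · have := (S.A_pos _ h).le
      unfold qf
      exact_mod_cast this
  have h2 : 0 ≤ ∑ j, S.bv j * n j :=
    sum_nonneg fun j _ => mul_nonneg (S.bv_nonneg j) (by positivity)
  unfold Sph.P
  linarith

lemma u_cont {μ : Measure G} {r : ℕ} (O : Orth μ r) (T : Finset (Fin r → ℕ)) (hT : ↑T ⊆ O.Λ)
    (τ : (Fin r → ℕ) → ℤ) (a : ∀ n, Fin (O.dim n) → ℂ) : Continuous (O.u T τ a) := by
  unfold Orth.u
  refine continuous_finsetSum _ fun n hn => Continuous.mul ?_ ?_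
  · exact continuous_ee.comp (by fun_prop)
  · exact continuous_finsetSum _ fun i _ =>
      continuous_const.mul ((O.bas_cont n (hT hn) i).comp continuous_snd)

lemma u_per {μ : Measure G} {r : ℕ} (O : Orth μ r) (T : Finset (Fin r → ℕ))
    (τ : (Fin r → ℕ) → ℤ) (a : ∀ n, Fin (O.dim n) → ℂ) (t : ℝ) (k : ℤ) (x : G) :
    O.u T τ a (t + k, x) = O.u T τ a (t, x) := by
  unfold Orth.u
  refine sum_congr rfl fun n _ => ?_
  have : -((τ n : ℝ) * (t + k)) = -(τ n * t) + ((-(τ n * k) : ℤ) : ℝ) := by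
    push_cast; ring
  simp only
  rw [this, ee_add_int]

lemma weight_le {P D s : ℝ} (hP : 0 ≤ P) (hD : 1 ≤ D) :
    (1 + P) ^ s ≤ D ^ |s| * (1 + P / D) ^ s := by
  have hD0 : 0 < D := by linarith
  have h1 : P / D ≤ P := div_le_self hP hD
  have h2 : 0 ≤ P / D := by positivity
  rcases le_total 0 s with hs | hs
  · rw [abs_of_nonneg hs, ← Real.mul_rpow hD0.le (by positivity)]
    refine Real.rpow_le_rpow (by positivity) ?_ hs
    rw [mul_add, mul_div_cancel₀ _ hD0.ne']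
    linarith
  · have h3 : (1 + P) ^ s ≤ (1 + P / D) ^ s :=
      Real.rpow_le_rpow_of_nonpos (by positivity) (by linarith) hs
    have h4 : 1 ≤ D ^ |s| := Real.one_le_rpow hD (abs_nonneg s)
    have h5 : 0 ≤ (1 + P / D) ^ s := by positivity
    nlinarith

end Sum

theorem scale_of (h : CoreStmt) : ScaleStmt := by
  intro G _ _ _ _ μ _ r d S hr p hp D hD I hI
  obtain ⟨C, hC⟩ := h G μ r d S hr p hp
  have hr0 : (0 : ℝ) < r := by exact_mod_cast hr
  have hpp : 0 < p := lt_trans (by positivity) hp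
  have hD0 : (0 : ℝ) < D := by exact_mod_cast hD
  have hD1 : (1 : ℝ) ≤ D := by exact_mod_cast hD
  have hL : 0 < 2 * Real.pi * D := by positivity
  obtain ⟨c, hc0, hc⟩ := Sum.per_scale hL hI
  set s : ℝ := (d : ℝ) / 2 - (d + 2) / p with hs
  refine ⟨c ^ (1 / p) * (max C 0 * √((D : ℝ) ^ |s|)), fun T hT a => ?_⟩
  have hu := Sum.u_cont S.toOrth T hT S.P a
  set L : ℝ := 2 * Real.pi * D with hLd
  have hfun : (fun z : ℝ × G => ∑ n ∈ T, Complex.exp (-(Complex.I * z.1 * (S.P n / D : ℝ)))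
      * ∑ i, a n i * S.bas n i z.2⁻¹) = fun z => S.u T S.P a (z.1 * L⁻¹, z.2⁻¹) := by
    funext z
    unfold Orth.u
    refine sum_congr rfl fun n _ => ?_
    congr 1
    unfold ee
    congr 1
    have hπ : (Real.pi : ℂ) ≠ 0 := by exact_mod_cast Real.pi_ne_zero
    have hDc : (D : ℂ) ≠ 0 := by exact_mod_cast hD.ne'
    simp only [hLd]
    push_cast
    field_simp
  rw [hfun]
  have hm : Measurable fun z : ℝ × G => ‖S.u T S.P a z‖ₑ ^ p :=
    hu.measurable.enorm.pow_const _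
  have hcont2 : Continuous fun z : ℝ × G => S.u T S.P a (z.1 * L⁻¹, z.2⁻¹) :=
    hu.comp (by fun_prop)
  have hm2 : Measurable fun z : ℝ × G => ‖S.u T S.P a (z.1 * L⁻¹, z.2⁻¹)‖ₑ ^ p :=
    hcont2.measurable.enorm.pow_const _
  set H : ℝ → ℝ≥0∞ := fun t => ∫⁻ x, ‖S.u T S.P a (t, x)‖ₑ ^ p ∂μ with hH
  have hHm : Measurable H := hm.lintegral_prod_right'
  have hHper : ∀ (t : ℝ) (k : ℤ), H (t + k) = H t := fun t k => by
    simp only [hH, Sum.u_per]
  have key : ∫⁻ z, ‖S.u T S.P a (z.1 * L⁻¹, z.2⁻¹)‖ₑ ^ p ∂((volume.restrict I).prod μ)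
      ≤ ENNReal.ofReal c * ∫⁻ z, ‖S.u T S.P a z‖ₑ ^ p ∂(mm μ) := by
    rw [lintegral_prod _ hm2.aemeasurable, mm, lintegral_prod _ hm.aemeasurable]
    refine le_trans (le_of_eq ?_) (hc H hHm hHper)
    refine lintegral_congr fun t => ?_
    exact lintegral_inv_eq_self (fun x => ‖S.u T S.P a (t * L⁻¹, x)‖ₑ ^ p)
  have hC' := hC T hT a
  rw [eLpNorm_eq_lintegral_rpow_enorm_toReal (by simpa using hpp) ENNReal.ofReal_ne_top,
    ENNReal.toReal_ofReal hpp.le] at hC' ⊢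
  refine le_trans (ENNReal.rpow_le_rpow key (by positivity)) ?_
  rw [ENNReal.mul_rpow_of_nonneg _ _ (by positivity),
    ENNReal.ofReal_rpow_of_nonneg hc0 (by positivity), mul_assoc,
    ENNReal.ofReal_mul (by positivity)]
  gcongr
  refine le_trans hC' (ENNReal.ofReal_le_ofReal ?_)
  rw [mul_assoc, ← Real.sqrt_mul (by positivity)]
  refine mul_le_mul (le_max_left _ _) (Real.sqrt_le_sqrt ?_) (Real.sqrt_nonneg _)
    (le_max_right _ _)
  rw [mul_sum]
  refine sum_le_sum fun n _ => ?_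
  rw [← mul_assoc]
  refine mul_le_mul_of_nonneg_right (Sum.weight_le ?_ hD1) (by positivity)
  exact_mod_cast Sum.P_nonneg S n

end Pool.Agent.MP_ba99b7_an

end MrgPart2

-- ======== part 3: formerly Pool.Agent.MP_ba99b7_an.Core
section MrgPart3

/-! Module CORE: from dyadic blocks to the estimate on one period. -/

namespace Pool.Agent.MP_ba99b7_an

open scoped ComplexConjugate ENNReal
open MeasureTheory Finset

namespace Core

lemma dickson {r e : ℕ} (he : 0 < e) (Λ : Set (Fin r → ℕ)) : ∃ Γ : Finset (Fin r → ℕ),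
    ↑Γ ⊆ Λ ∧ ∀ n ∈ Λ, ∃ γ ∈ Γ, ∃ m : Fin r → ℕ, n = γ + e • m := by
  let M : Set (Fin r → ℕ) := {γ | γ ∈ Λ ∧ ∀ γ' ∈ Λ, (∃ m : Fin r → ℕ, γ = γ' + e • m) → γ' = γ}
  have hfin : M.Finite := by
    have h1 : ∀ ρ : Fin r → Fin e, {γ | γ ∈ M ∧ ∀ j, γ j % e = ρ j}.Finite := by
      intro ρ
      refine IsAntichain.finite_of_wellQuasiOrdered (r := (· ≤ ·)) ?_ wellQuasiOrdered_le
      rintro γ ⟨h1, h2⟩ γ' ⟨h3, h4⟩ hne hle
      refine hne (h3.2 γ h1.1 ⟨fun j => (γ' j - γ j) / e, funext fun j => ?_⟩)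
      have h5 : e ∣ γ' j - γ j := (Nat.modEq_iff_dvd' (hle j)).1 ((h2 j).trans (h4 j).symm)
      have h6 : γ j ≤ γ' j := hle j
      simp only [Pi.add_apply, Pi.smul_apply, smul_eq_mul, Nat.mul_div_cancel' h5]
      omega
    refine (Set.finite_iUnion h1).subset fun γ hγ => ?_
    exact Set.mem_iUnion.2 ⟨fun j => ⟨γ j % e, Nat.mod_lt _ he⟩, hγ, fun j => rfl⟩
  refine ⟨hfin.toFinset, fun γ h => ((Set.Finite.mem_toFinset _).1 h).1, fun n => ?_⟩
  induction n using WellFoundedLT.induction with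
  | ind n ih =>
    intro hn
    by_cases h : n ∈ M
    · exact ⟨n, (Set.Finite.mem_toFinset _).2 h, 0, by simp⟩
    · simp only [M, Set.mem_ofPred_eq, hn, true_and, not_forall] at h
      obtain ⟨γ', h1, ⟨m, h2⟩, h3⟩ := h
      obtain ⟨γ, h4, m', h5⟩ := ih γ' (lt_of_le_of_ne (by rw [h2]; exact le_self_add) h3) h1
      exact ⟨γ, h4, m' + m, by rw [h2, h5, smul_add, add_assoc]⟩

lemma posdef {r : ℕ} (A : Matrix (Fin r) (Fin r) ℤ)
    (hA : ∀ v : Fin r → ℝ, v ≠ 0 → 0 < ∑ i, ∑ j, (A i j : ℝ) * v i * v j) :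
    ∃ c : ℝ, 0 < c ∧ ∀ (n : Fin r → ℕ) (j : Fin r), c * (n j : ℝ) ^ 2 ≤ qf A n := by
  let q : (Fin r → ℝ) → ℝ := fun v => ∑ i, ∑ j, (A i j : ℝ) * v i * v j
  have hq : Continuous q := by fun_prop
  rcases (Metric.sphere (0 : Fin r → ℝ) 1).eq_empty_or_nonempty with h | h
  · refine ⟨1, one_pos, fun n j => ?_⟩
    have : (fun _ => (1 : ℝ)) ∈ Metric.sphere (0 : Fin r → ℝ) 1 := by
      have : Nonempty (Fin r) := ⟨j⟩
      simp
    rw [h] at this; exact this.elim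
  obtain ⟨v0, h0, hm⟩ := (isCompact_sphere (0 : Fin r → ℝ) 1).exists_isMinOn h hq.continuousOn
  refine ⟨q v0, hA v0 (by rintro rfl; simp at h0), fun n j => ?_⟩
  have hc : 0 < q v0 := hA v0 (by rintro rfl; simp at h0)
  let v : Fin r → ℝ := fun i => n i
  have e1 : (qf A n : ℝ) = q v := by simp [qf, q, v]
  rw [e1]
  by_cases hv : v = 0
  · have : (n j : ℝ) = 0 := congrFun hv j
    simp [this, hv, q]
  have hn : 0 < ‖v‖ := norm_pos_iff.2 hv
  have h1 : q v0 ≤ q (‖v‖⁻¹ • v) := hm (by simp [norm_smul, hn.ne'])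
  have h2 : q v = ‖v‖ ^ 2 * q (‖v‖⁻¹ • v) := by
    simp only [q, Pi.smul_apply, smul_eq_mul, mul_sum]
    refine sum_congr rfl fun i _ => sum_congr rfl fun k _ => ?_
    field_simp
  have h3 : (n j : ℝ) ≤ ‖v‖ := by simpa [v] using norm_le_pi_norm v j
  rw [h2, mul_comm]
  gcongr

variable {G : Type} [Group G] [TopologicalSpace G] [MeasurableSpace G]

lemma norm_ee (x : ℝ) : ‖ee x‖ = 1 := by
  have : ee x = Complex.exp ((2 * Real.pi * x : ℝ) * Complex.I) := by simp [ee]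
  rw [this, Complex.norm_exp_ofReal_mul_I]

lemma u_le {μ : Measure G} {r : ℕ} (O : Orth μ r) (T : Finset (Fin r → ℕ)) (hT : ↑T ⊆ O.Λ)
    (τ : (Fin r → ℕ) → ℤ) (a : ∀ n, Fin (O.dim n) → ℂ) (z : ℝ × G) :
    ‖O.u T τ a z‖ ≤ √(∑ n ∈ T, (O.dim n : ℝ)) * √(O.nsq T a) := by
  have h1 : ∀ n ∈ T, (O.dim n : ℝ) = ∑ i, ‖O.bas n i z.2‖ ^ 2 := by
    intro n hn
    have := O.repr n (hT hn) z.2 z.2
    simp only [mul_inv_cancel, O.φ_one n (hT hn), mul_one, Complex.mul_conj,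
      Complex.normSq_eq_norm_sq] at this
    exact_mod_cast this.symm
  rw [sum_congr rfl h1, Orth.nsq, sum_sigma', sum_sigma']
  refine le_trans ?_ (Real.sum_mul_le_sqrt_mul_sqrt _ _ _)
  rw [← sum_sigma' T (fun _ => univ) (fun n i => ‖O.bas n i z.2‖ * ‖a n i‖)]
  refine (norm_sum_le _ _).trans (sum_le_sum fun n _ => ?_)
  rw [norm_mul, norm_ee, one_mul]
  exact (norm_sum_le _ _).trans (le_of_eq (sum_congr rfl fun i _ => by rw [norm_mul, mul_comm]))

lemma u_cont {μ : Measure G} {r : ℕ} (O : Orth μ r) (T : Finset (Fin r → ℕ)) (hT : ↑T ⊆ O.Λ)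
    (τ : (Fin r → ℕ) → ℤ) (a : ∀ n, Fin (O.dim n) → ℂ) : Continuous (O.u T τ a) := by
  refine continuous_finsetSum _ fun n hn => Continuous.mul (by unfold ee; fun_prop)
    (continuous_finsetSum _ fun i _ => ?_)
  exact continuous_const.mul ((O.bas_cont n (hT hn) i).comp continuous_snd)

lemma dim_box {μ : Measure G} {r d : ℕ} (S : Sph μ r d) {γ : Fin r → ℕ} (hγ : γ ∈ S.Λ) :
    ∃ C : ℝ, 0 ≤ C ∧ ∀ (κ : ℕ) (T : Finset (Fin r → ℕ)), T ⊆ S.box γ κ →
      √(∑ n ∈ T, (S.dim n : ℝ)) ≤ C * ((2 : ℝ) ^ κ) ^ ((d : ℝ) / 2) := by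
  obtain ⟨B, hB⟩ : ∃ B : ℝ, B = 1 + ∑ j, (γ j : ℝ) + 2 * S.e := ⟨_, rfl⟩
  have hs : 0 ≤ ∑ j, (γ j : ℝ) := by positivity
  have hB1 : 1 ≤ B := by rw [hB]; have : (0 : ℝ) ≤ S.e := Nat.cast_nonneg _; linarith
  refine ⟨√(2 ^ r * (|S.Cd| * B ^ (d - 2 * r) * B ^ r)), Real.sqrt_nonneg _, fun κ T hT => ?_⟩
  set N : ℝ := 2 ^ κ with hN
  have hN1 : 1 ≤ N := one_le_pow₀ (by norm_num)
  have h1 : ∀ n ∈ T, (S.dim n : ℝ) ≤ |S.Cd| * (B * N) ^ (d - 2 * r) * (B * N) ^ r := by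
    intro n hn
    obtain ⟨m, hm, rfl⟩ := mem_image.1 (hT hn)
    have h2 : ∀ j, (1 + (γ + S.e • m) j : ℝ) ≤ B * N := by
      intro j
      have h3 : m j ≤ 2 * 2 ^ κ := by
        have := mem_range.1 (Fintype.mem_piFinset.1 hm j)
        rw [pow_succ] at this; omega
      have h4 : (m j : ℝ) ≤ 2 * N := by rw [hN]; exact_mod_cast h3
      have h5 : (γ j : ℝ) ≤ ∑ j, (γ j : ℝ) :=
        single_le_sum (f := fun j => (γ j : ℝ)) (fun _ _ => by positivity) (mem_univ j)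
      have h6 : (0 : ℝ) ≤ S.e := Nat.cast_nonneg _
      simp only [Pi.add_apply, Pi.smul_apply, smul_eq_mul, hB]
      push_cast
      nlinarith [mul_le_mul_of_nonneg_left h4 h6]
    refine (S.dim_le _ (S.up γ hγ m) _ h2 (by nlinarith)).trans ?_
    refine mul_le_mul (by gcongr; exact le_abs_self _) ?_ (by positivity) (by positivity)
    refine (prod_le_prod (fun _ _ => by positivity) fun j _ => h2 j).trans (by simp)
  have h2 : (T.card : ℝ) ≤ (2 * N) ^ r := by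
    have h3 : T.card ≤ (2 * 2 ^ κ) ^ r := by
      refine (card_le_card hT).trans (card_image_le.trans ?_)
      simp only [Fintype.card_piFinset, card_range, prod_const, card_univ, Fintype.card_fin]
      exact Nat.pow_le_pow_left (by rw [pow_succ]; omega) r
    rw [hN]; exact_mod_cast h3
  have h3 : N ^ ((d : ℝ) / 2) = √(N ^ d) := by
    rw [Real.sqrt_eq_rpow, ← Real.rpow_natCast, ← Real.rpow_mul (by positivity)]; congr 1; ring
  rw [h3, ← Real.sqrt_mul (by positivity)]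
  refine Real.sqrt_le_sqrt ((sum_le_card_nsmul _ _ _ h1).trans ?_)
  rw [nsmul_eq_mul]
  obtain ⟨k, rfl⟩ := Nat.exists_eq_add_of_le S.two_r
  rw [Nat.add_sub_cancel_left]
  calc _ ≤ (2 * N) ^ r * (|S.Cd| * (B * N) ^ k * (B * N) ^ r) := by gcongr
    _ = _ := by simp only [mul_pow]; ring

end Core

theorem core_of (h1 : ∀ r, 1 ≤ r → BlockStmt r) (h2 : SumStmt) : CoreStmt := by
  classical
  intro G _ _ _ _ μ _ r d S hr p hp
  have hr' : (1 : ℝ) ≤ r := by exact_mod_cast hr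
  have hr4 : 0 < 4 / (r : ℝ) := by positivity
  obtain ⟨p0, hp0, hp1⟩ := exists_between hp
  obtain ⟨Γ, hΓ, hdec⟩ := Core.dickson S.e_pos S.Λ
  choose! g hg m hm using hdec
  obtain ⟨c, hc, hq⟩ := Core.posdef S.A S.A_pos
  choose! Cb hCb hb using fun γ (h : γ ∈ S.Λ) => h1 r hr G μ d S γ h p0 hp0
  choose! Cd hCd hd using fun γ (h : γ ∈ S.Λ) => Core.dim_box S h
  obtain ⟨C0, hC0⟩ : ∃ C0 : ℝ, C0 = ∑ γ ∈ Γ, (Cb γ + Cd γ) := ⟨_, rfl⟩
  have hnn : ∀ γ ∈ Γ, 0 ≤ Cb γ + Cd γ := fun γ h => add_nonneg (hCb γ (hΓ h)) (hCd γ (hΓ h))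
  have hle : ∀ γ ∈ Γ, Cb γ + Cd γ ≤ C0 := fun γ h => hC0 ▸ single_le_sum hnn h
  obtain ⟨C, hC⟩ := h2 d p0 p C0 (by linarith) hp1 (hC0 ▸ sum_nonneg hnn)
  set s : ℝ := (d : ℝ) / 2 - (d + 2) / p with hs
  have hs0 : 0 ≤ s := by
    have h3 : (2 * r : ℝ) ≤ d := by exact_mod_cast S.two_r
    have h4 : 4 / (d : ℝ) ≤ 4 / r :=
      div_le_div_of_nonneg_left (by norm_num) (by linarith) (by linarith)
    have h5 : (d : ℝ) * (4 / d) = 4 := by field_simp [show (d : ℝ) ≠ 0 by linarith]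
    rw [hs, sub_nonneg, div_le_div_iff₀ (by linarith) (by norm_num)]
    nlinarith
  obtain ⟨c', hc'⟩ : ∃ c' : ℝ, c' = 2 / min 1 c := ⟨_, rfl⟩
  have hc0 : 0 < min 1 c := lt_min one_pos hc
  have hc1 : 0 < c' := by rw [hc']; positivity
  let κ : (Fin r → ℕ) → ℕ := fun n => Nat.log 2 (univ.sup (m n) + 1)
  have hbox : ∀ n ∈ S.Λ, n ∈ S.box (g n) (κ n) := by
    intro n hn
    refine mem_image.2 ⟨m n, Fintype.mem_piFinset.2 fun j => mem_range.2 ?_, (hm n hn).symm⟩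
    have h3 := Nat.lt_pow_succ_log_self (b := 2) (by norm_num) (univ.sup (m n) + 1)
    have h4 : m n j ≤ univ.sup (m n) := le_sup (mem_univ j)
    simp only [κ]; omega
  have hP : ∀ n ∈ S.Λ, ((2 : ℝ) ^ κ n) ^ 2 ≤ c' * (1 + S.P n) := by
    intro n hn
    have : Nonempty (Fin r) := ⟨⟨0, hr⟩⟩
    obtain ⟨j, -, hj⟩ := exists_mem_eq_sup (univ : Finset (Fin r)) univ_nonempty (m n)
    have h3 : 2 ^ κ n ≤ n j + 1 := by
      have h4 := Nat.pow_log_le_self 2 (x := univ.sup (m n) + 1) (by omega)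
      have h5 : m n j ≤ n j := by
        conv_rhs => rw [hm n hn]
        simp only [Pi.add_apply, Pi.smul_apply, smul_eq_mul]
        nlinarith [S.e_pos]
      simp only [κ]; omega
    have h4 : (2 : ℝ) ^ κ n ≤ n j + 1 := by exact_mod_cast h3
    have h5 := hq n j
    have h6 : (qf S.A n : ℝ) ≤ S.P n := by
      have : 0 ≤ ∑ j, S.bv j * n j := sum_nonneg fun j _ => mul_nonneg (S.bv_nonneg j) (by positivity)
      exact_mod_cast (by unfold Sph.P; omega : qf S.A n ≤ S.P n)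
    have h7 := pow_le_pow_left₀ (by positivity) h4 2
    rw [hc', div_mul_eq_mul_div, le_div_iff₀ hc0]
    have h8 := min_le_left 1 c
    have h9 := mul_le_mul_of_nonneg_right (min_le_right 1 c) (sq_nonneg (n j : ℝ))
    nlinarith [mul_le_mul_of_nonneg_right h7 hc0.le, mul_nonneg hc0.le (sq_nonneg ((n j : ℝ) - 1))]
  refine ⟨Γ.card * (|C| * √(c' ^ s)), fun T hT a => ?_⟩
  set R : ℝ := ∑ n ∈ T, (1 + S.P n : ℝ) ^ s * ∑ i, ‖a n i‖ ^ 2 with hR
  let K : ℕ := T.sup κ + 1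
  let Tp : (Fin r → ℕ) → ℕ → Finset (Fin r → ℕ) := fun γ k => (T.filter (g · = γ)).filter (κ · = k)
  have hTp : ∀ γ k, ↑(Tp γ k) ⊆ S.Λ := fun γ k n hn => hT (mem_filter.1 (mem_filter.1 hn).1).1
  have hTb : ∀ γ k, Tp γ k ⊆ S.box γ k := fun γ k n hn => by
    have := hbox n (hTp γ k hn)
    rwa [(mem_filter.1 (mem_filter.1 hn).1).2, (mem_filter.1 hn).2] at this
  have hK : ∀ γ, ∀ n ∈ T.filter (g · = γ), κ n ∈ range K := fun γ n hn =>
    mem_range.2 (Nat.lt_succ_of_le (le_sup (mem_filter.1 hn).1))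
  have hu : S.u T S.P a = ∑ γ ∈ Γ, fun z => ∑ k ∈ range K, S.u (Tp γ k) S.P a z := by
    funext z
    simp only [Finset.sum_apply, Orth.u, Tp]
    rw [← sum_fiberwise_of_maps_to (s := T) (t := Γ) (g := g) (fun n hn => hg n (hT hn))]
    exact sum_congr rfl fun γ _ => (sum_fiberwise_of_maps_to (hK γ) _).symm
  have : IsProbabilityMeasure (volume.restrict (Set.Ioc (0 : ℝ) 1)) := ⟨by simp⟩
  have : IsProbabilityMeasure (mm μ) := by unfold mm; infer_instance
  have hcont := fun γ k => Core.u_cont S.toOrth (Tp γ k) (hTp γ k) S.P a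
  have hone : ∀ γ ∈ Γ, eLpNorm (fun z => ∑ k ∈ range K, S.u (Tp γ k) S.P a z) (ENNReal.ofReal p)
      (mm μ) ≤ ENNReal.ofReal (|C| * √(c' ^ s) * √R) := by
    intro γ hγ
    refine (hC (ℝ × G) (mm μ) K (fun k => S.u (Tp γ k) S.P a) (fun k => √(S.nsq (Tp γ k) a))
      (fun k => (hcont γ k).measurable) (fun k => Real.sqrt_nonneg _) (fun k z => ?_)
      (fun k α hα => ?_)).trans (ENNReal.ofReal_le_ofReal ?_)
    · refine (Core.u_le S.toOrth _ (hTp γ k) _ a z).trans ?_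
      gcongr
      refine (hd γ (hΓ hγ) k _ (hTb γ k)).trans ?_
      gcongr
      linarith [hle γ hγ, hCb γ (hΓ hγ)]
    · refine (hb γ (hΓ hγ) k _ (hTb γ k) a α hα).trans ?_
      have := hCb γ (hΓ hγ)
      have h3 : Cb γ ≤ C0 := by linarith [hle γ hγ, hCd γ (hΓ hγ)]
      have h4 : 0 ≤ p0 := by linarith
      gcongr
    · rw [mul_assoc, ← Real.sqrt_mul (by positivity)]
      refine mul_le_mul (le_abs_self C) (Real.sqrt_le_sqrt ?_) (Real.sqrt_nonneg _) (abs_nonneg _)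
      have hpos : ∀ n ∈ T, 0 ≤ 1 + (S.P n : ℝ) := fun n hn =>
        (pos_iff_pos_of_mul_pos (lt_of_lt_of_le (by positivity) (hP n (hT hn)))).1 hc1 |>.le
      calc _ ≤ ∑ k ∈ range K, ∑ n ∈ Tp γ k, c' ^ s * ((1 + S.P n : ℝ) ^ s * ∑ i, ‖a n i‖ ^ 2) := by
            refine sum_le_sum fun k _ => ?_
            rw [mul_pow, Real.sq_sqrt (by unfold Orth.nsq; positivity), Orth.nsq, mul_sum]
            refine sum_le_sum fun n hn => ?_
            have h3 := hP n (hTp γ k hn)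
            rw [(mem_filter.1 hn).2] at h3
            rw [← mul_assoc, ← Real.mul_rpow hc1.le (hpos n (mem_filter.1 (mem_filter.1 hn).1).1),
              ← Real.rpow_natCast, ← Real.rpow_mul (by positivity), mul_comm s,
              Real.rpow_mul (by positivity), Real.rpow_natCast]
            gcongr
        _ = ∑ n ∈ T.filter (g · = γ), c' ^ s * ((1 + S.P n : ℝ) ^ s * ∑ i, ‖a n i‖ ^ 2) :=
            sum_fiberwise_of_maps_to (hK γ) _
        _ ≤ ∑ n ∈ T, c' ^ s * ((1 + S.P n : ℝ) ^ s * ∑ i, ‖a n i‖ ^ 2) :=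
            sum_le_sum_of_subset_of_nonneg (filter_subset _ _) fun n hn _ => by
              have := hpos n hn
              positivity
        _ = _ := by rw [← mul_sum]
  rw [hu]
  refine (eLpNorm_sum_le (fun γ _ => (continuous_finsetSum _ fun k _ =>
    hcont γ k).aestronglyMeasurable) (ENNReal.one_le_ofReal.2 (by linarith))).trans ?_
  refine (sum_le_card_nsmul _ _ _ hone).trans (le_of_eq ?_)
  rw [nsmul_eq_mul, mul_assoc (Γ.card : ℝ), ENNReal.ofReal_mul (Nat.cast_nonneg _),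
    ENNReal.ofReal_natCast]

end Pool.Agent.MP_ba99b7_an

end MrgPart3

-- ======== part 4: formerly Pool.Agent.MP_ba99b7_an.Root2
section MrgPart4

/-! PROJECT STRI, module ROOT2, second half: the irreducible components and `roots_stmt`. -/

set_option linter.unusedSectionVars false

namespace Pool.Agent.MP_ba99b7_an.Root2

open scoped RealInnerProductSpace
open Module Submodule

variable {V : Type} [NormedAddCommGroup V] [InnerProductSpace ℝ V] [FiniteDimensional ℝ V]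
  {G : Type} [Group G] [TopologicalSpace G] [MeasurableSpace G] [TG G]
  {S : Sym V G} {r : ℕ}

variable (S) in
/-- `θ`-stable ideals. -/
def Ideal (I : Submodule ℝ V) : Prop :=
  (∀ X, ∀ Z ∈ I, S.ad X Z ∈ I) ∧ ∀ Z ∈ I, S.θ Z ∈ I

namespace Ideal
variable {I : Submodule ℝ V} (h : Ideal S I)
include h

theorem perp : Ideal S Iᗮ :=
  ⟨fun X Z hZ => (mem_orthogonal _ _).2 fun u hu => by
      rw [skew', (mem_orthogonal _ _).1 hZ _ (h.1 X u hu), neg_zero],
    fun Z hZ => (mem_orthogonal _ _).2 fun u hu => by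
      rw [← S.θ_symm, (mem_orthogonal _ _).1 hZ _ (h.2 u hu)]⟩

theorem ad_zero {X Z : V} (hX : X ∈ I) (hZ : Z ∈ Iᗮ) : S.ad X Z = 0 := by
  have h1 : S.ad X Z ∈ I := by
    rw [S.ad_anti]
    exact neg_mem (h.1 Z X hX)
  exact inner_self_eq_zero.1 ((mem_orthogonal _ _).1 (h.perp.1 X Z hZ) _ h1)

theorem proj_ad (X Z : V) : I.starProjection (S.ad X Z) = S.ad X (I.starProjection Z) :=
  eq_starProjection_of_mem_orthogonal (h.1 _ _ (I.starProjection_apply_mem Z)) (by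
    rw [← map_sub]
    exact h.perp.1 _ _ (sub_starProjection_mem_orthogonal Z))

theorem proj_θ (Z : V) : I.starProjection (S.θ Z) = S.θ (I.starProjection Z) :=
  eq_starProjection_of_mem_orthogonal (h.2 _ (I.starProjection_apply_mem Z)) (by
    rw [← map_sub]
    exact h.perp.2 _ (sub_starProjection_mem_orthogonal Z))

theorem Ad_mem [ConnectedSpace G] (g : G) : ∀ Z ∈ I, S.Ad g Z ∈ I := by
  let H : Subgroup G :=
    { carrier := {g | (∀ Z ∈ I, S.Ad g Z ∈ I) ∧ ∀ Z ∈ I, S.Ad g⁻¹ Z ∈ I}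
      mul_mem' := fun {a b} ha hb => ⟨fun Z hZ => by
          rw [S.Ad_mul_apply]
          exact ha.1 _ (hb.1 _ hZ), fun Z hZ => by
          rw [mul_inv_rev, S.Ad_mul_apply]
          exact hb.2 _ (ha.2 _ hZ)⟩
      one_mem' := ⟨fun Z hZ => by simpa using hZ, fun Z hZ => by simpa using hZ⟩
      inv_mem' := fun {a} ha => ⟨ha.2, by simpa using ha.1⟩ }
  have hH : H = ⊤ := S.gen H fun X => ⟨S.Ad_ex_mem (h.1 X), by
    rw [← S.ex_neg]
    exact S.Ad_ex_mem (h.1 (-X))⟩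
  have hg : g ∈ H := hH ▸ Subgroup.mem_top g
  exact hg.1

variable (R : Adapt S r)

theorem proj_mem_a {X : V} (hX : X ∈ R.a) : I.starProjection X ∈ R.a :=
  mem_a R (by rw [← h.proj_θ, R.θH X hX, map_neg])
    (by rw [← h.proj_ad, R.adH _ R.H0_mem _ hX, map_zero])

theorem of_η {i : Fin R.m} (hη : R.η i ∈ I) : R.Y i ∈ I ∧ R.η i ∈ I ∧ R.al i ∈ I := by
  refine ⟨?_, hη, ?_⟩
  · have h1 := h.1 R.H0 _ hη
    rw [R.adη _ R.H0_mem] at h1
    exact (smul_mem_iff _ (R.pos i).ne').1 h1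
  · have h1 := h.1 (R.Y i) _ hη
    rw [R.Yη] at h1
    exact neg_mem_iff.1 h1

/-- A root pair lies in an ideal or in its orthogonal complement. -/
theorem dich (i : Fin R.m) : (R.Y i ∈ I ∧ R.η i ∈ I ∧ R.al i ∈ I) ∨
    (R.Y i ∈ Iᗮ ∧ R.η i ∈ Iᗮ ∧ R.al i ∈ Iᗮ) := by
  have h1 := R.adY _ (h.proj_mem_a R (R.al_mem i)) i
  rw [S.ad_anti, ← h.proj_ad, S.ad_anti (R.Y i), R.adY _ (R.al_mem i), neg_neg, map_smul,
    neg_inj] at h1
  by_cases h0 : ⟪R.al i, I.starProjection (R.al i)⟫ = 0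
  · rw [h0, zero_smul] at h1
    have h2 : I.starProjection (R.η i) = 0 :=
      (smul_eq_zero.1 h1).resolve_left fun h3 => al_ne R i (inner_self_eq_zero.1 h3)
    have h3 := sub_starProjection_mem_orthogonal (K := I) (R.η i)
    rw [h2, sub_zero] at h3
    exact Or.inr (h.perp.of_η R h3)
  · refine Or.inl (h.of_η R ((smul_mem_iff _ h0).1 ?_))
    rw [← h1]
    exact smul_mem _ _ (I.starProjection_apply_mem _)

end Ideal

variable (S) in
/-- The least `θ`-stable ideal containing `x`. -/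
def comp (x : V) : Submodule ℝ V := sInf {I | Ideal S I ∧ x ∈ I}

theorem comp_ideal (x : V) : Ideal S (comp S x) :=
  ⟨fun X Z hZ => mem_sInf.2 fun I hI => hI.1.1 X Z (mem_sInf.1 hZ I hI),
    fun Z hZ => mem_sInf.2 fun I hI => hI.1.2 Z (mem_sInf.1 hZ I hI)⟩

theorem mem_comp (x : V) : x ∈ comp S x := mem_sInf.2 fun _ hI => hI.2

theorem comp_dich (R : Adapt S r) (i : Fin R.m) {I : Submodule ℝ V} (h : Ideal S I) :
    comp S (R.al i) ≤ I ∨ comp S (R.al i) ≤ Iᗮ :=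
  (h.dich R i).imp (fun h1 => sInf_le ⟨h, h1.2.2⟩) fun h1 => sInf_le ⟨h.perp, h1.2.2⟩

end Root2

open Root2 in
theorem roots_stmt : RootsStmt := by
  intro V _ _ _ G _ _ _ _ _ S r R
  classical
  obtain ⟨sr, co, hinj, hco⟩ := exists_simple R
  obtain ⟨u, hu, hd⟩ := exists_dual hco
  obtain ⟨h1, h2, d, hd0, h3⟩ := exists_den hco hu hd
  choose Gm hGm using h2
  choose z hz using h3
  let w : Fin r → V := fun j => (‖R.al (sr j)‖ ^ 2 / 2) • u j
  have hw : ∀ j, w j ∈ R.a := fun j => Submodule.smul_mem _ _ (hu j)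
  have hn : ∀ j, ‖R.al (sr j)‖ ^ 2 ≠ 0 := fun j => pow_ne_zero _ (norm_ne_zero_iff.2 (al_ne R _))
  have hdual : ∀ i j, 2 * inner ℝ (w j) (R.al (sr i))
      = if i = j then ‖R.al (sr i)‖ ^ 2 else 0 := fun i j => by
    simp only [w, real_inner_smul_left, hd]
    split_ifs with hij
    · rw [hij]; ring
    · ring
  have hspan : ∀ X ∈ R.a,
      X = ∑ j, (2 * inner ℝ X (R.al (sr j)) / ‖R.al (sr j)‖ ^ 2) • w j := fun X hX => by
    refine sub_eq_zero.1 (zero_of_perp hco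
      (sub_mem hX (sum_mem fun k _ => Submodule.smul_mem _ _ (hw k))) fun j => ?_)
    rw [inner_sub_left, sum_inner]
    simp only [w, real_inner_smul_left, hd, mul_ite, mul_one, mul_zero, Finset.sum_ite_eq,
      Finset.mem_univ, if_true]
    have := hn j
    generalize ‖R.al (sr j)‖ ^ 2 = t at this
    field_simp
    ring
  let c : Fin r → Submodule ℝ V := fun j => comp S (R.al (sr j))
  have hc : ∀ j, Root2.Ideal S (c j) := fun j => comp_ideal _
  have hwc : ∀ j, w j ∈ c j := fun j => by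
    have h4 : w j - (c j).starProjection (w j) = 0 :=
      zero_of_perp hco (sub_mem (hw j) ((hc j).proj_mem_a R (hw j))) fun l => by
        rcases (hc j).dich R (sr l) with h5 | h5
        · exact (c j).starProjection_inner_eq_zero _ _ h5.2.2
        · have hlj : l ≠ j := by
            rintro rfl
            exact al_ne R _ (inner_self_eq_zero.1
              ((Submodule.mem_orthogonal _ _).1 h5.2.2 _ (mem_comp _)))
          have h6 := hdual l j
          rw [if_neg hlj] at h6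
          rw [inner_sub_left, (Submodule.mem_orthogonal _ _).1 h5.2.2 _
            ((c j).starProjection_apply_mem _)]
          linarith
    rw [sub_eq_zero.1 h4]
    exact (c j).starProjection_apply_mem _
  have hdd : ((4 * d.natAbs ^ 2 : ℕ) : ℝ) = 4 * (d : ℝ) ^ 2 := by
    push_cast
    rw [Nat.cast_natAbs, Int.cast_abs, sq_abs]
  refine ⟨{ R with
    sr := sr, sr_inj := hinj, w := w, co := co, w_mem := hw, dual := hdual, al_eq := hco
    w_span := hspan, Dn := 4 * d.natAbs ^ 2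
    Dn_pos := by have := Int.natAbs_pos.2 hd0; positivity
    A := fun i j => z i * z j * Gm i j
    bv := fun j => 2 * d * z j * ∑ i, (co i j : ℤ)
    hA := fun i j => ?_, hbv := fun j => ?_
    blk := fun j => (@Function.invFun _ _ ⟨j⟩ c (c j) : Fin r)
    c := c, π := fun j => (c j).starProjection
    π_mem := fun j X => (c j).starProjection_apply_mem X
    π_orth := fun j X Z hZ => (c j).starProjection_inner_eq_zero X Z hZ
    c_ad := fun j => (hc j).1, c_θ := fun j => (hc j).2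
    c_Ad := fun j g => (hc j).Ad_mem g
    w_c := hwc, sr_c := fun j => mem_comp _
    blk_eq := fun i j hij => ?_, blk_ne := fun i j hij X hX Z hZ => ?_
    c_min := fun j I hI hθ => ?_, pair_c := fun i j hij => ?_, perp_k := fun X hX => ?_ }⟩
  · rw [hdd]
    simp only [w, real_inner_smul_left, inner_smul_right, hGm]
    push_cast
    rw [← hz i, ← hz j]
    ring
  · rw [hdd, inner_sum]
    simp only [w, real_inner_smul_left, real_inner_comm (R.al _) (u j), h1]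
    push_cast
    rw [← hz j, ← Finset.mul_sum]
    ring
  · have h4 := Fin.ext hij
    rw [← @Function.invFun_eq _ _ ⟨i⟩ c _ ⟨i, rfl⟩, h4]
    exact @Function.invFun_eq _ _ ⟨j⟩ c _ ⟨j, rfl⟩
  · rcases comp_dich R (sr i) (hc j) with h4 | h4
    · rcases comp_dich R (sr j) (hc i) with h5 | h5
      · exact absurd (by rw [show c i = c j from le_antisymm h4 h5]) hij
      · exact (Submodule.mem_orthogonal _ _).1 (h5 hZ) X hX
    · exact (Submodule.mem_orthogonal' _ _).1 (h4 hX) Z hZ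
  · exact (comp_dich R (sr j) ⟨hI, hθ⟩).imp id fun h4 X hX Z hZ =>
      Root2.Ideal.ad_zero ⟨hI, hθ⟩ hX (h4 hZ)
  · rcases (hc j).dich R i with h4 | h4
    · exact ⟨h4.1, h4.2.1⟩
    · exact absurd ((Submodule.mem_orthogonal' _ _).1 h4.2.2 _ (hwc j)) hij
  · have h4 : ∀ j, X - S.θ X ∈ (c j)ᗮ := fun j => by
      have := (Submodule.mem_orthogonal' _ _).2 (hX j)
      exact sub_mem this ((hc j).perp.2 _ this)
    have h5 : X - S.θ X ∈ R.a := mem_a R (by rw [map_sub, S.θθ, neg_sub]) (by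
      rw [hspan _ R.H0_mem, map_sum, sum_apply]
      exact Finset.sum_eq_zero fun j _ => by
        rw [map_smul, smul_apply, (hc j).ad_zero (hwc j) (h4 j), smul_zero])
    exact (sub_eq_zero.1 (zero_of_perp hco h5 fun j =>
      (Submodule.mem_orthogonal' _ _).1 (h4 j) _ (mem_comp _))).symm

end Pool.Agent.MP_ba99b7_an

end MrgPart4

-- ======== part 5: formerly Pool.Agent.MP_ba99b7_an.Ode
section MrgPart5

/-! PROJECT STRI, module ODE: decay of spherical functions in rank one. -/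

set_option linter.unusedSectionVars false

namespace Pool.Agent.MP_ba99b7_an

open scoped RealInnerProductSpace Topology
open Module Submodule

namespace Ode

variable {V : Type} [NormedAddCommGroup V] [InnerProductSpace ℝ V] [FiniteDimensional ℝ V]
  {G : Type} [Group G] [TopologicalSpace G] [MeasurableSpace G] [TG G] {S : Sym V G}

theorem Ad_inv_congr {g h : G} (e : S.Ad g = S.Ad h) : S.Ad g⁻¹ = S.Ad h⁻¹ := by
  calc S.Ad g⁻¹ = S.Ad g⁻¹ * S.Ad h * S.Ad h⁻¹ := by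
        rw [mul_assoc, ← map_mul, mul_inv_cancel, map_one, mul_one]
    _ = S.Ad h⁻¹ := by rw [← e, ← map_mul, inv_mul_cancel, map_one, one_mul]

theorem θ_norm (X : V) : ‖S.θ X‖ = ‖X‖ := by
  rw [norm_eq_sqrt_real_inner, S.θ_inner, ← norm_eq_sqrt_real_inner]

theorem δ_eq (R : Roots S 1) (x : G) : R.δ 0 (S.s x) = ‖S.Ad (S.s x) - 1‖ := by
  have h1 : ∀ X, (∀ Z ∈ R.c 0, ⟪X, Z⟫ = 0) → S.Ad (S.s x) X = X := by
    intro X hX
    have a1 : S.θ X = X := R.perp_k X fun j => by rw [Subsingleton.elim j 0]; exact hX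
    have a2 : S.θ (S.Ad x X) = S.Ad x X := R.perp_k _ fun j Z hZ => by
      rw [Subsingleton.elim j 0] at hZ
      rw [S.Ad_adj]
      exact hX _ (R.c_Ad 0 _ Z hZ)
    rw [Sym.s, S.Ad_mul_apply, ← map_inv, S.Ad_σ]
    simp only [mul_apply_eq_comp]
    rw [a2, S.Ad_inv_Ad, a1]
  unfold Roots.δ
  congr 1
  ext X
  have h2 := h1 (X - R.π 0 X) (R.π_orth 0 X)
  rw [map_sub] at h2
  simp only [mul_apply_eq_comp, sub_apply, one_apply_eq_self]
  linear_combination (norm := module) -h2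

theorem exists_log (S : Sym V G) {ρ : ℝ} (hρ : 0 < ρ) : ∃ δ : ℝ, 0 < δ ∧ ∀ x,
    ‖S.Ad (S.s x) - 1‖ ≤ δ → ∃ X, ‖X‖ ≤ ρ ∧ S.θ X = -X ∧ S.Ad (S.s x) = S.Ad (S.ex X) := by
  obtain ⟨π, -, -, U, hU, hinj⟩ := S.exists_left_inv
  obtain ⟨ε, hε, hεU⟩ := Metric.mem_nhds_iff.mp hU
  obtain ⟨δ, hδ, h⟩ := S.Ad_near_one (U := Metric.ball 0 (min ε ρ))
    (Metric.ball_mem_nhds _ (lt_min hε hρ))
  refine ⟨δ, hδ, fun x hx => ?_⟩
  obtain ⟨X, hX, e⟩ := h _ hx
  rw [mem_ball_zero_iff, lt_min_iff] at hX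
  refine ⟨X, hX.2.le, hinj (hεU ?_) (hεU ?_) ?_, e⟩
  · rw [mem_ball_zero_iff, θ_norm]; exact hX.1
  · rw [mem_ball_zero_iff, norm_neg]; exact hX.1
  · have a1 : S.Ad (S.ex (S.θ X)) = S.Ad (S.ex (-X)) := by
      rw [← S.σ_ex, S.Ad_σ, ← e, ← S.Ad_σ, S.σ_s, S.ex_neg]
      exact Ad_inv_congr e
    simp only [a1]

theorem exists_adapt (h1 : AdaptStmt)
    (hr : ∀ a : Submodule ℝ V, a ≤ S.p → (∀ X ∈ a, ∀ Z ∈ a, S.ad X Z = 0) → finrank ℝ a ≤ 1)
    {X : V} (hX0 : X ≠ 0) (hX : S.θ X = -X) : ∃ R : Adapt S 1, R.a = span ℝ {X} := by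
  have e : finrank ℝ (span ℝ ({X} : Set V)) = 1 := finrank_span_singleton hX0
  have h := h1 V G S (span ℝ {X}) ((span_singleton_le_iff_mem _ _).mpr hX) ?_ ?_
  · rwa [e] at h
  · intro A hA B hB
    obtain ⟨a, rfl⟩ := mem_span_singleton.mp hA
    obtain ⟨b, rfl⟩ := mem_span_singleton.mp hB
    simp [S.ad_self]
  · intro Y hY hc
    have a1 : S.ad X Y = 0 := hc X (mem_span_singleton_self X)
    have a2 : S.ad Y X = 0 := by rw [S.ad_anti, a1, neg_zero]
    have a3 := hr (span ℝ {X, Y}) (span_le.mpr (by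
      rintro Z (rfl | rfl)
      · exact hX
      · exact hY)) fun A hA B hB => by
        obtain ⟨a, b, rfl⟩ := mem_span_pair.mp hA
        obtain ⟨c, d, rfl⟩ := mem_span_pair.mp hB
        simp [S.ad_self, a1, a2]
    have a4 : span ℝ ({X} : Set V) = span ℝ {X, Y} :=
      eq_of_le_of_finrank_le (span_mono (by simp)) (by rw [e]; exact a3)
    rw [a4]
    exact subset_span (by simp)

/-- the radial equation -/
theorem radial (R : Adapt S 1) {H : V} (hH : H ∈ R.a) (hn : ‖H‖ = 1) {φ : G → ℂ} (hφ : IsRep φ)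
    (hL : S.LInv φ) (hR : ∀ k ∈ S.K, ∀ x, φ (x * k) = φ x) {l : ℝ}
    (hc : ∀ x, S.cas R.B φ x = -(l : ℂ) * φ x) {y : G}
    (hy : ∀ Y, S.θ Y = Y → S.θ (S.Ad y Y) = S.Ad y Y) (t : ℝ)
    (ht : ∀ i, Real.sin (⟪R.al i, H⟫ * t) ≠ 0) :
    S.D H (S.D H φ) (y * S.ex (t • H)) +
      ((∑ i, ⟪R.al i, H⟫ * Real.cos (⟪R.al i, H⟫ * t) / Real.sin (⟪R.al i, H⟫ * t) : ℝ) : ℂ) *
        S.D H φ (y * S.ex (t • H)) + l * φ (y * S.ex (t • H)) = 0 := by
  have hH0 : ‖R.H 0‖ = 1 := by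
    have := R.B.orthonormal.1 (Sum.inr (Sum.inl 0))
    rwa [R.hB] at this
  set e : ℝ := ⟪R.H 0, H⟫ with he
  have e1 : H = e • R.H 0 := by simpa using R.expand_a hH
  have e2 : e * e = 1 := by
    have a := congrArg norm e1
    rw [norm_smul, hn, hH0, mul_one, Real.norm_eq_abs] at a
    rw [← abs_mul_abs_self, ← a, mul_one]
  have e3 : R.H 0 = e • H := by
    conv_rhs => rw [e1]
    rw [smul_smul, e2, one_smul]
  have e4 : ∀ i, R.al i = ⟪R.al i, H⟫ • H := fun i => by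
    have a : R.al i = ⟪R.H 0, R.al i⟫ • R.H 0 := by simpa using R.expand_a (R.al_mem i)
    conv_lhs => rw [a, e3, real_inner_smul_left, smul_smul, real_inner_comm]
    congr 1
    linear_combination ⟪R.al i, H⟫ * e2
  set g := y * S.ex (t • H) with hg
  have k1 : ∀ i, S.D (R.Y i) φ = 0 := fun i => Sym.D_eq_zero_of_right hR (R.θY i)
  have k2 : ∀ i, S.D (R.M i) φ = 0 := fun i => Sym.D_eq_zero_of_right hR (R.θM i)
  have k3 : S.D (R.H 0) (S.D (R.H 0) φ) g = S.D H (S.D H φ) g := by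
    rw [e3, Sym.D_smul_vec hφ, Sym.D_smul_fun, Sym.D_smul_vec (Sym.isRep_D hφ H), smul_smul,
      ← Complex.ofReal_mul, e2]
    simp
  have k4 : ∀ i, S.D (R.η i) (S.D (R.η i) φ) g =
      ((⟪R.al i, H⟫ * Real.cos (⟪R.al i, H⟫ * t) / Real.sin (⟪R.al i, H⟫ * t) : ℝ) : ℂ) *
        S.D H φ g := fun i => by
    have hf := Sym.isRep_D (S := S) hφ (R.η i)
    have a1 := Sym.D_eq_zero_of_left (S := S) (f := S.D (R.η i) φ) (Y := S.Ad y (R.Y i))
      (fun s x => (hL.D (R.η i)) _ (S.ex_K _ (by rw [map_smul, hy _ (R.θY i)])) x) g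
    have a2 : S.Ad g⁻¹ (S.Ad y (R.Y i)) =
        Real.cos (⟪R.al i, H⟫ * t) • R.Y i + Real.sin (⟪R.al i, H⟫ * t) • R.η i := by
      rw [hg, mul_inv_rev, S.Ad_mul_apply, S.Ad_inv_Ad, ← S.ex_neg, ← neg_smul,
        (S.Ad_ex_pair (R.adY H hH i) (R.adη H hH i) (-t)).1, mul_neg, Real.cos_neg, Real.sin_neg,
        neg_smul, sub_neg_eq_add]
    have a3 : S.D (R.Y i) (S.D (R.η i) φ) = -((⟪R.al i, H⟫ : ℝ) : ℂ) • S.D H φ := by
      rw [Sym.D_bracket hφ, k1, Sym.D_zero_fun, zero_add, R.Yη, Sym.D_neg_vec hφ, neg_smul,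
        ← Sym.D_smul_vec hφ, ← e4]
    rw [a2, Sym.D_add_vec hf, Sym.D_smul_vec hf, Sym.D_smul_vec hf, a3] at a1
    simp only [Pi.add_apply, Pi.smul_apply, smul_eq_mul] at a1
    have a4 : ((Real.sin (⟪R.al i, H⟫ * t) : ℝ) : ℂ) ≠ 0 := Complex.ofReal_ne_zero.mpr (ht i)
    rw [Complex.ofReal_div, Complex.ofReal_mul, div_mul_eq_mul_div, eq_div_iff a4]
    linear_combination a1
  have k5 := hc g
  rw [R.cas_eq] at k5
  simp only [k1, k2, Sym.D_zero_fun, Pi.zero_apply, Finset.sum_const_zero, zero_add, add_zero,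
    Fin.sum_univ_one, k3, k4] at k5
  rw [Complex.ofReal_sum, Finset.sum_mul]
  linear_combination k5

theorem rpow_comp {p q L : ℝ} (hp : 0 < p) (hq : 0 < q) (hL : 1 ≤ L) (h : q ≤ L * p) :
    p ^ (-(1 / 4) : ℝ) ≤ L * q ^ (-(1 / 4) : ℝ) := by
  have a1 : (L * p) ^ (-(1 / 4) : ℝ) ≤ q ^ (-(1 / 4) : ℝ) :=
    Real.rpow_le_rpow_of_nonpos hq h (by norm_num)
  rw [Real.mul_rpow (by linarith) hp.le] at a1
  have a2 : L ^ (-1 : ℝ) ≤ L ^ (-(1 / 4) : ℝ) := Real.rpow_le_rpow_of_exponent_le hL (by norm_num)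
  rw [Real.rpow_neg_one] at a2
  have hL0 : 0 < L := by linarith
  calc p ^ (-(1 / 4) : ℝ) = L * (L⁻¹ * p ^ (-(1 / 4) : ℝ)) := by field_simp
    _ ≤ L * (L ^ (-(1 / 4) : ℝ) * p ^ (-(1 / 4) : ℝ)) := by gcongr
    _ ≤ _ := by gcongr

end Ode

open Ode

theorem rk1_of (h1 : AdaptStmt) (h2 : OdeStmt) : Rk1Stmt := by
  intro V _ _ _ G _ _ _ _ S R hr
  obtain ⟨s0, C, hs0, hode⟩ := h2 ‖S.ad‖ R.m (R.sr 0).pos
  obtain ⟨δ, hδ, hlog⟩ := exists_log S (ρ := 2 * s0) (by linarith)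
  set L : ℝ := 1 + 4 * ‖S.ad‖ ^ 2 with hL
  have hL1 : 1 ≤ L := le_add_of_nonneg_right (by positivity)
  refine ⟨δ, max C 1 * L, hδ, fun φ l hφ hLi hRi hb hl hc x hx => ?_⟩
  rw [δ_eq] at hx ⊢
  obtain ⟨X, hX1, hX2, hX3⟩ := hlog x hx
  rcases eq_or_ne X 0 with rfl | hX0
  · rw [hX3, S.ex_zero, map_one, sub_self, norm_zero]
    have : 1 ≤ max C 1 * L := one_le_mul_of_one_le_of_one_le (le_max_right _ _) hL1
    simpa using (hb x).trans this
  obtain ⟨R', hR'⟩ := exists_adapt h1 hr hX0 hX2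
  have hm : R'.m = R.m := by have := R'.dim_p; have := R.dim_p; omega
  rw [← hm] at hode
  have hn0 : 0 < ‖X‖ := norm_pos_iff.mpr hX0
  set H : V := ‖X‖⁻¹ • X with hH
  set t0 : ℝ := ‖X‖ / 2 with ht0
  have hHa : H ∈ R'.a := by rw [hR']; exact smul_mem _ _ (mem_span_singleton_self X)
  have hHn : ‖H‖ = 1 := by rw [hH, norm_smul, norm_inv, norm_norm, inv_mul_cancel₀ hn0.ne']
  have hXH : X = (t0 + t0) • H := by
    rw [hH, smul_smul, ht0, add_halves, mul_inv_cancel₀ hn0.ne', one_smul]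
  set y := x * S.ex ((-t0) • H) with hy
  have hxy : y * S.ex (t0 • H) = x := by
    rw [hy, mul_assoc, ← S.ex_add, neg_add_cancel, zero_smul, S.ex_zero, mul_one]
  have hy1 : S.Ad (S.s y) = 1 := by
    rw [hy, S.s_mul_ex, map_smul, R'.θH H hHa, smul_neg, neg_neg, map_mul, map_mul, hX3,
      ← map_mul, ← map_mul]
    conv_lhs => rw [hXH]
    rw [← S.ex_add, ← S.ex_add, show -t0 + (t0 + t0) + -t0 = 0 by ring, zero_smul, S.ex_zero,
      map_one]
  have hy2 : ∀ Y, S.θ Y = Y → S.θ (S.Ad y Y) = S.Ad y Y := fun Y hY => by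
    have a1 : S.Ad y = S.Ad (S.σ y) := by
      calc S.Ad y = S.Ad (S.σ y * S.s y) := by rw [Sym.s, mul_inv_cancel_left]
        _ = _ := by rw [map_mul, hy1, mul_one]
    conv_rhs => rw [a1, S.Ad_σ]
    simp only [mul_apply_eq_comp, hY]
  have hcas : ∀ x, S.cas R'.B φ x = -(l : ℂ) * φ x := fun x => by
    rw [Sym.cas_indep hφ R'.B R.B]; exact hc x
  have hD1 := Sym.isRep_D (S := S) hφ H
  have hD2 := Sym.isRep_D (S := S) hD1 H
  have key := hode (fun i => ⟪R'.al i, H⟫) (fun i => ⟨?_, ?_⟩) l hl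
    (fun t => φ (y * S.ex (t • H))) (fun t => S.D H φ (y * S.ex (t • H)))
    (fun t => S.D H (S.D H φ) (y * S.ex (t • H))) (Sym.hasDerivAt_D hφ H y)
    (Sym.hasDerivAt_D hD1 H y)
    (continuous_iff_continuousAt.mpr fun t => (Sym.hasDerivAt_D hD2 H y t).continuousAt)
    (fun _ => hb _) (radial R' hHa hHn hφ hLi hRi hcas hy2) t0 (by positivity) (by linarith)
  · simp only [hxy] at key
    have a1 : ‖S.Ad (S.s x) - 1‖ ≤ ‖S.ad‖ * ‖X‖ := by
      refine ContinuousLinearMap.opNorm_le_bound _ (by positivity) fun Y => ?_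
      have b1 := S.norm_Ad_ex_sub X Y 0 1
      simp only [one_smul, zero_smul, S.ex_zero, map_one, sub_zero, abs_one, one_mul] at b1
      rw [hX3]
      exact b1.trans (S.ad.le_opNorm₂ X Y)
    have a2 : ‖S.Ad (S.s x) - 1‖ ^ 2 ≤ L * t0 ^ 2 := by
      calc _ ≤ (‖S.ad‖ * ‖X‖) ^ 2 := by gcongr
        _ = 4 * ‖S.ad‖ ^ 2 * t0 ^ 2 := by rw [ht0]; ring
        _ ≤ _ := by gcongr; linarith
    have a3 := rpow_comp (p := 1 + l * t0 ^ 2) (q := 1 + l * ‖S.Ad (S.s x) - 1‖ ^ 2)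
      (by positivity) (by positivity) hL1 (by nlinarith [mul_le_mul_of_nonneg_left a2 hl])
    calc ‖φ x‖ ≤ max C 1 * (1 + l * t0 ^ 2) ^ (-(1 / 4) : ℝ) :=
          key.trans (by gcongr; exact le_max_left _ _)
      _ ≤ max C 1 * (L * (1 + l * ‖S.Ad (S.s x) - 1‖ ^ 2) ^ (-(1 / 4) : ℝ)) := by gcongr
      _ = _ := by ring
  · intro h0
    have a1 := R'.pos i
    have a2 := R'.H0_mem
    rw [hR'] at a2
    obtain ⟨a, ha⟩ := mem_span_singleton.mp a2
    rw [← ha, hXH, real_inner_smul_right, real_inner_smul_right, h0] at a1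
    simp at a1
  · have a1 := congrArg norm (R'.adη H hHa i)
    have a2 : ‖R'.Y i‖ = 1 := by
      have := R'.B.orthonormal.1 (Sum.inl (Sum.inl i))
      rwa [R'.hB] at this
    have a3 : ‖R'.η i‖ = 1 := by
      have := R'.B.orthonormal.1 (Sum.inl (Sum.inr i))
      rwa [R'.hB] at this
    rw [norm_smul, a2, mul_one, Real.norm_eq_abs] at a1
    have a4 := S.ad.le_opNorm₂ H (R'.η i)
    rw [hHn, a3, mul_one, mul_one] at a4
    rw [← a1]; exact a4

end Pool.Agent.MP_ba99b7_an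

end MrgPart5

-- ======== part 6: formerly Pool.Agent.MP_ba99b7_an.SphB
section MrgPart6

/-! PROJECT STRI, module SPH, part B: the functions `psi` and the random walk on weights. -/

set_option linter.unusedSectionVars false

namespace Pool.Agent.MP_ba99b7_an.SphM

open scoped ComplexConjugate RealInnerProductSpace Topology
open MeasureTheory Module Submodule

variable {V : Type} [NormedAddCommGroup V] [InnerProductSpace ℝ V] [FiniteDimensional ℝ V]
  {G : Type} [Group G] [TopologicalSpace G] [MeasurableSpace G] [TG G]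
  {μ : Measure G} [BiH μ] {S : Sym V G} {r : ℕ} {R : Roots S r}

/-- The block of `j`. -/
def bl (R : Roots S r) (j : Fin r) : Finset (Fin r) := Finset.univ.filter fun i => R.blk i = R.blk j

theorem mem_bl {i j : Fin r} : i ∈ bl R j ↔ R.blk i = R.blk j := by simp [bl]

theorem bl_pos (R : Roots S r) (j : Fin r) : (0 : ℝ) < (bl R j).card := by
  have : 0 < (bl R j).card := Finset.card_pos.2 ⟨j, mem_bl.2 rfl⟩
  exact_mod_cast this

theorem bl_le (R : Roots S r) (j : Fin r) : ((bl R j).card : ℝ) ≤ r := by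
  have : (bl R j).card ≤ r := by simpa using Finset.card_le_univ (bl R j)
  exact_mod_cast this

variable (W : HWD R μ) (g : Fin r → Fin r → ℕ)

/-- The lazy average of the generating spherical functions of a block. -/
noncomputable def psi (j : Fin r) (x : G) : ℝ :=
  1 / 2 + (2 * (bl R j).card : ℝ)⁻¹ * ∑ i ∈ bl R j, (W.φ (g i) x).re

theorem psi_blk {i j : Fin r} (h : R.blk i = R.blk j) : psi W g i = psi W g j := by
  have : bl R i = bl R j := by ext l; rw [mem_bl, mem_bl, h]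
  funext x
  rw [psi, psi, this]

theorem one_sub_psi (j : Fin r) (x : G) :
    1 - psi W g j x = (2 * (bl R j).card : ℝ)⁻¹ * ∑ i ∈ bl R j, (1 - (W.φ (g i) x).re) := by
  have := bl_pos R j
  rw [psi, Finset.sum_sub_distrib, Finset.sum_const, nsmul_eq_mul, mul_one]
  field_simp
  ring

theorem one_sub_psi_le (j : Fin r) (x : G) {b : ℝ} (h : ∀ i ∈ bl R j, 1 - (W.φ (g i) x).re ≤ b) :
    1 - psi W g j x ≤ b / 2 := by
  have := bl_pos R j
  have h1 := Finset.sum_le_card_nsmul _ _ _ h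
  rw [nsmul_eq_mul] at h1
  rw [one_sub_psi, inv_mul_le_iff₀ (by positivity)]
  linarith

variable {W g} (hg : ∀ i, g i ∈ W.Λ)
include hg

theorem psi_cont (j : Fin r) : Continuous (psi W g j) :=
  continuous_const.add (continuous_const.mul (continuous_finsetSum _ fun i _ =>
    Complex.continuous_re.comp (W.φ_cont _ (hg i))))

theorem psi_one (j : Fin r) : psi W g j 1 = 1 := by
  have := one_sub_psi W g j 1
  simp only [W.φ_one _ (hg _), Complex.one_re, sub_self, Finset.sum_const_zero, mul_zero] at this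
  linarith

theorem psi_le (h1 : ∀ n ∈ W.Λ, ∀ x, ‖W.φ n x‖ ≤ 1) (j : Fin r) (x : G) : psi W g j x ≤ 1 := by
  have := bl_pos R j
  have h : 0 ≤ 1 - psi W g j x := by
    rw [one_sub_psi]
    refine mul_nonneg (by positivity) (Finset.sum_nonneg fun i _ => ?_)
    have := (Complex.re_le_norm _).trans (h1 _ (hg i) x)
    linarith
  linarith

theorem psi_nonneg (h1 : ∀ n ∈ W.Λ, ∀ x, ‖W.φ n x‖ ≤ 1) (j : Fin r) (x : G) :
    0 ≤ psi W g j x := by
  have := one_sub_psi_le W g j x (b := 2) fun i _ => by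
    have := (Complex.abs_re_le_norm _).trans (h1 _ (hg i) x)
    linarith [(abs_le.1 this).1]
  linarith

omit hg in
theorem psi_mul (j : Fin r) (n : Fin r → ℕ) : (fun x => (psi W g j x : ℂ) * W.φ n x)
    = (1 / 2 : ℂ) • W.φ n + (((4 * (bl R j).card : ℝ)⁻¹ : ℝ) : ℂ) •
      ∑ i ∈ bl R j, (W.φ (g i) * W.φ n + (fun x => conj (W.φ (g i) x)) * W.φ n) := by
  funext x
  have h : ∀ i, W.φ (g i) x * W.φ n x + conj (W.φ (g i) x) * W.φ n x
      = 2 * (((W.φ (g i) x).re : ℂ) * W.φ n x) := fun i => by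
    rw [← add_mul, Complex.add_conj]
    push_cast
    ring
  simp only [psi, Pi.add_apply, Pi.smul_apply, Finset.sum_apply, Pi.mul_apply, smul_eq_mul, h]
  rw [← Finset.mul_sum, ← Finset.sum_mul]
  push_cast
  ring

theorem ip_psi (j : Fin r) {n n' : Fin r → ℕ} (hn : n ∈ W.Λ) (hn' : n' ∈ W.Λ) :
    ip μ (W.φ n') (fun x => (psi W g j x : ℂ) * W.φ n x) = 1 / 2 * ip μ (W.φ n') (W.φ n)
      + (((4 * (bl R j).card : ℝ)⁻¹ : ℝ) : ℂ) *
        ∑ i ∈ bl R j, (W.T (g i) n n' + conj (W.T (g i) n' n)) := by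
  have hc := W.φ_cont n hn
  have hc' := W.φ_cont n' hn'
  have h1 : ∀ i, Continuous (W.φ (g i) * W.φ n) := fun i => (W.φ_cont _ (hg i)).mul hc
  have h2 : ∀ i, Continuous ((fun x => conj (W.φ (g i) x)) * W.φ n) := fun i =>
    (Complex.continuous_conj.comp (W.φ_cont _ (hg i))).mul hc
  rw [psi_mul, ip_add_right μ hc' (hc.const_smul _)
    ((cont_sum _ fun i _ => (h1 i).add (h2 i)).const_smul _), ip_smul_right, ip_smul_right,
    ip_sum_right μ _ hc' fun i _ => (h1 i).add (h2 i)]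
  congr 2
  refine Finset.sum_congr rfl fun i _ => ?_
  rw [ip_add_right μ hc' (h1 i) (h2 i)]
  congr 1
  · unfold ip HWD.T
    refine integral_congr_ae (Filter.Eventually.of_forall fun x => ?_)
    simp only [Pi.mul_apply]
    ring
  · unfold ip HWD.T
    rw [← integral_conj]
    refine integral_congr_ae (Filter.Eventually.of_forall fun x => ?_)
    simp only [Pi.mul_apply, map_mul, Complex.conj_conj]
    ring

theorem step_aux (C0 : ℕ) (c0 : ℝ) (hc0 : 0 < c0)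
    (hT : ∀ i, ∀ n ∈ W.Λ, n + g i ∈ W.Λ ∧ c0 ≤ W.dim (n + g i) * (W.T (g i) n (n + g i)).re ∧
      ∀ n' ∈ W.Λ, 0 ≤ (W.T (g i) n n').re ∧ (W.T (g i) n n').im = 0 ∧ (W.T (g i) n n' ≠ 0 →
        ∀ l, |(n' l : ℤ) - n l| ≤ C0 ∧ (R.blk l ≠ R.blk i → n' l = n l)))
    (j : Fin r) {n : Fin r → ℕ} (hn : n ∈ W.Λ) :
    ∃ (T : Finset (Fin r → ℕ)) (P : (Fin r → ℕ) → ℝ), ↑T ⊆ W.Λ ∧
      (∀ x, (psi W g j x : ℂ) * W.φ n x = ∑ n' ∈ T, (P n' : ℂ) * W.φ n' x) ∧
      (∀ n' ∈ T, 0 ≤ P n') ∧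
      (∀ n' ∈ T, ∀ l, |(n' l : ℤ) - n l| ≤ C0 ∧ (R.blk l ≠ R.blk j → n' l = n l)) ∧
      n + g j ∈ T ∧ c0 / (4 * (r + 1)) ≤ P (n + g j) := by
  classical
  set h : G → ℂ := fun x => (psi W g j x : ℂ) * W.φ n x with hh
  have hrep : IsRep h := by
    rw [hh, psi_mul]
    exact ((φ_rep W hn).smul _).add ((IsRep.sum fun i _ => ((φ_rep W (hg i)).mul
      (φ_rep W hn)).add ((φ_rep W (hg i)).conj.mul (φ_rep W hn))).smul _)
  have hl : S.LInv h := fun k hk x => by
    simp only [hh, psi, φ_left W hn k hk x, φ_left W (hg _) k hk x]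
  have hr : ∀ k ∈ S.K, ∀ x, h (x * k) = h x := fun k hk x => by
    simp only [hh, psi, W.φ_right n hn k hk x, W.φ_right _ (hg _) k hk x]
  obtain ⟨T, hTs, hexp⟩ := W.expand_bi h hrep hl hr
  have hb := bl_pos R j
  set κ : ℝ := (4 * (bl R j).card : ℝ)⁻¹ with hκ
  have hκ0 : 0 < κ := inv_pos.2 (mul_pos four_pos hb)
  set P : (Fin r → ℕ) → ℝ := fun n' => W.dim n' * (1 / 2 * (ip μ (W.φ n') (W.φ n)).re
    + κ * ∑ i ∈ bl R j, ((W.T (g i) n n').re + (W.T (g i) n' n).re)) with hP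
  have hip : ∀ n' ∈ W.Λ, 0 ≤ (ip μ (W.φ n') (W.φ n)).re ∧ (ip μ (W.φ n') (W.φ n)).im = 0 := by
    intro n' hn'
    by_cases he : n' = n
    · rw [he, ip_self]
      exact ⟨by rw [Complex.ofReal_re]; positivity, Complex.ofReal_im _⟩
    · rw [ip_φ_ne W hn' hn he]
      simp
  have hPa : ∀ n' ∈ W.Λ, (W.dim n' : ℂ) * ip μ (W.φ n') h = P n' := by
    intro n' hn'
    rw [hh, ip_psi hg j hn hn']
    have e1 : ∀ z : ℂ, z.im = 0 → z = (z.re : ℂ) := fun z hz => Complex.ext rfl (by simpa using hz)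
    have e2 : ∑ i ∈ bl R j, (W.T (g i) n n' + conj (W.T (g i) n' n))
        = ((∑ i ∈ bl R j, ((W.T (g i) n n').re + (W.T (g i) n' n).re) : ℝ) : ℂ) := by
      push_cast
      refine Finset.sum_congr rfl fun i _ => ?_
      rw [← e1 _ ((hT i n hn).2.2 n' hn').2.1]
      congr 1
      rw [e1 _ ((hT i n' hn').2.2 n hn).2.1, Complex.conj_ofReal, Complex.ofReal_re]
    rw [e2, e1 _ (hip n' hn').2]
    simp only [hP]
    push_cast
    simp only [hκ]
    push_cast
    rfl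
  have hS0 : ∀ n' ∈ W.Λ, ∀ i ∈ bl R j, 0 ≤ (W.T (g i) n n').re + (W.T (g i) n' n).re :=
    fun n' hn' i _ => add_nonneg ((hT i n hn).2.2 n' hn').1 ((hT i n' hn').2.2 n hn).1
  have hP0 : ∀ n' ∈ W.Λ, 0 ≤ P n' := fun n' hn' =>
    mul_nonneg (Nat.cast_nonneg _) (add_nonneg (mul_nonneg (by norm_num) (hip n' hn').1)
      (mul_nonneg hκ0.le (Finset.sum_nonneg (hS0 n' hn'))))
  have hN := (hT j n hn).1
  have hlow : c0 / (4 * (r + 1)) ≤ P (n + g j) := by
    have h1 : (W.T (g j) n (n + g j)).re ≤ ∑ i ∈ bl R j,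
        ((W.T (g i) n (n + g j)).re + (W.T (g i) (n + g j) n).re) :=
      le_trans (le_add_of_nonneg_right ((hT j _ hN).2.2 n hn).1)
        (Finset.single_le_sum (hS0 _ hN) (mem_bl.2 rfl))
    have h2 := (hT j n hn).2.1
    have h3 := (hip _ hN).1
    have h4 : (0 : ℝ) ≤ W.dim (n + g j) := Nat.cast_nonneg _
    have h5 : c0 / (4 * (r + 1)) ≤ κ * c0 := by
      rw [hκ, ← div_eq_inv_mul]
      exact div_le_div_of_nonneg_left hc0.le (mul_pos four_pos hb) (by linarith [bl_le R j])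
    calc c0 / (4 * (r + 1)) ≤ κ * (W.dim (n + g j) * (W.T (g j) n (n + g j)).re) :=
          h5.trans (mul_le_mul_of_nonneg_left h2 hκ0.le)
      _ = W.dim (n + g j) * (κ * (W.T (g j) n (n + g j)).re) := by ring
      _ ≤ P (n + g j) := mul_le_mul_of_nonneg_left
          (le_add_of_nonneg_of_le (by positivity) (mul_le_mul_of_nonneg_left h1 hκ0.le)) h4
  have hpos : 0 < P (n + g j) := lt_of_lt_of_le (by positivity) hlow
  refine ⟨T.filter fun n' => P n' ≠ 0, P, fun n' hn' => hTs (Finset.mem_filter.1 hn').1,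
    fun x => ?_, fun n' hn' => hP0 n' (hTs (Finset.mem_filter.1 hn').1), fun n' hn' => ?_,
    Finset.mem_filter.2 ⟨?_, hpos.ne'⟩, hlow⟩
  · rw [Finset.sum_filter_of_ne (p := fun n' => P n' ≠ 0)
      (f := fun n' => (P n' : ℂ) * W.φ n' x) fun n' _ hne h0 => hne (by simp only [h0]; simp)]
    have := congrFun hexp x
    rw [Finset.sum_apply] at this
    refine this.trans (Finset.sum_congr rfl fun n' hn' => ?_)
    rw [Pi.smul_apply, smul_eq_mul, hPa n' (hTs hn')]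
  · obtain ⟨h1, h2⟩ := Finset.mem_filter.1 hn'
    have hn'Λ : n' ∈ W.Λ := hTs h1
    by_cases he : n' = n
    · intro l
      rw [he]
      simp
    have h3 : ∑ i ∈ bl R j, ((W.T (g i) n n').re + (W.T (g i) n' n).re) ≠ 0 := by
      intro h0
      apply h2
      simp only [hP]
      rw [h0, ip_φ_ne W hn'Λ hn he]
      simp
    obtain ⟨i, hi, h4⟩ := Finset.exists_ne_zero_of_sum_ne_zero h3
    rw [← mem_bl.1 hi]
    by_cases h5 : W.T (g i) n n' = 0
    · have h6 : W.T (g i) n' n ≠ 0 := fun h6 => h4 (by rw [h5, h6]; simp)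
      intro l
      obtain ⟨h7, h8⟩ := ((hT i n' hn'Λ).2.2 n hn).2.2 h6 l
      exact ⟨by rwa [abs_sub_comm], fun h => (h8 h).symm⟩
    · exact ((hT i n hn).2.2 n' hn'Λ).2.2 h5
  · by_contra hnot
    have h0 : ip μ (W.φ (n + g j)) h = 0 := by
      rw [hexp, ip_sum_right μ _ (W.φ_cont _ hN) fun n' hn' => (W.φ_cont _ (hTs hn')).const_smul _]
      refine Finset.sum_eq_zero fun n' hn' => ?_
      rw [ip_smul_right, ip_φ_ne W hN (hTs hn') fun he => hnot (he ▸ hn'), mul_zero]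
    have h1 := hPa _ hN
    rw [h0, mul_zero] at h1
    exact hpos.ne' (by exact_mod_cast h1.symm)

end Pool.Agent.MP_ba99b7_an.SphM

end MrgPart6

-- ======== part 7: formerly Pool.Agent.MP_ba99b7_an.Sph
section MrgPart7

/-! PROJECT STRI, module SPH: the assembly of the spherical system. -/

set_option linter.unusedSectionVars false

namespace Pool.Agent.MP_ba99b7_an

open scoped ComplexConjugate RealInnerProductSpace Topology
open MeasureTheory Module Submodule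

namespace SphM

variable {V : Type} [NormedAddCommGroup V] [InnerProductSpace ℝ V] [FiniteDimensional ℝ V]
  {G : Type} [Group G] [TopologicalSpace G] [MeasurableSpace G] [TG G]
  {μ : Measure G} [BiH μ] {S : Sym V G} {r : ℕ}

theorem ρ_cont (R : Roots S r) (j : Fin r) : Continuous (R.ρ j) :=
  ((S.Ad_cont.clm_apply continuous_const).sub continuous_const).norm

theorem gauss_int (R : Roots S r) (x : G) (t : Fin r → ℝ) :
    Integrable (fun k => Real.exp (-∑ j, t j * R.ρ j (S.s (x * k)) ^ 2)) S.ν := by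
  have := S.ν_prob
  refine cont_int _ (Real.continuous_exp.comp (Continuous.neg ?_))
  exact continuous_finsetSum _ fun j _ => continuous_const.mul
    (((ρ_cont R j).comp (S.s_cont.comp (continuous_const.mul continuous_id))).pow 2)

theorem W_aux {R : Roots S r} {f : Fin r → G → ℂ} {ψ : Fin r → G → ℝ} {c C Cw : ℝ} (hc : 0 < c)
    (hC : 0 ≤ C) (hf : ∀ j x, ‖f j x‖ ≤ Real.exp (-(c * R.ρ j (S.s x) ^ 2)))
    (hψ1 : ∀ j x, ψ j x ≤ 1) (hψ : ∀ j x, 1 - ψ j x ≤ C * R.δ j (S.s x) ^ 2)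
    (hw : ∀ (x : G) (t : Fin r → ℝ), (∀ j, 0 ≤ t j) →
      ∫ k, Real.exp (-∑ j, t j * R.ρ j (S.s (x * k)) ^ 2) ∂S.ν
        ≤ Cw * ∏ j, (1 + t j * R.δ j (S.s x) ^ 2) ^ (-(1 / 2) : ℝ))
    (m : Fin r → ℕ) (x : G) : ∫ k, ∏ j, ‖f j (x * k)‖ ^ m j ∂S.ν
      ≤ max Cw 0 * (1 + C / c) ^ r * ∏ j, (1 + m j * (1 - ψ j x)) ^ (-(1 / 2) : ℝ) := by
  have h1 : ∫ k, ∏ j, ‖f j (x * k)‖ ^ m j ∂S.ν
      ≤ ∫ k, Real.exp (-∑ j, (c * m j) * R.ρ j (S.s (x * k)) ^ 2) ∂S.ν := by
    refine integral_mono_of_nonneg (Filter.Eventually.of_forall fun k => ?_) (gauss_int R x _)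
      (Filter.Eventually.of_forall fun k => ?_)
    · exact Finset.prod_nonneg fun j _ => by positivity
    · simp only
      rw [← Finset.sum_neg_distrib, Real.exp_sum]
      refine Finset.prod_le_prod (fun j _ => by positivity) fun j _ => ?_
      refine (pow_le_pow_left₀ (norm_nonneg _) (hf j _) _).trans (le_of_eq ?_)
      rw [← Real.exp_nat_mul]
      congr 1
      ring
  have hL : 0 ≤ C / c := by positivity
  have h2 : ∏ j, (1 + (c * m j) * R.δ j (S.s x) ^ 2) ^ (-(1 / 2) : ℝ)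
      ≤ ∏ j, ((1 + C / c) * (1 + m j * (1 - ψ j x)) ^ (-(1 / 2) : ℝ)) := by
    refine Finset.prod_le_prod (fun j _ => by positivity) fun j _ => ?_
    have a1 : 0 ≤ (m j : ℝ) * (1 - ψ j x) := mul_nonneg (Nat.cast_nonneg _) (by linarith [hψ1 j x])
    have a2 : 0 ≤ c * m j * R.δ j (S.s x) ^ 2 := by positivity
    refine rpow_cmp (by linarith) (by linarith) (by linarith) ?_ (by norm_num) (by norm_num)
    have a3 : (m j : ℝ) * (1 - ψ j x) ≤ C / c * (c * m j * R.δ j (S.s x) ^ 2) := by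
      refine (mul_le_mul_of_nonneg_left (hψ j x) (Nat.cast_nonneg _)).trans (le_of_eq ?_)
      field_simp
    nlinarith
  rw [Finset.prod_mul_distrib, Finset.prod_const, Finset.card_univ, Fintype.card_fin] at h2
  refine h1.trans ((hw x _ fun j => by positivity).trans ?_)
  rw [mul_assoc]
  exact mul_le_mul (le_max_left _ _) h2 (Finset.prod_nonneg fun j _ => by positivity)
    (le_max_right _ _)

theorem rk1_aux (hr : Rk1Stmt) {R : Roots S 1} (W : HWD R μ)
    (ha : ∀ a : Submodule ℝ V, a ≤ S.p → (∀ X ∈ a, ∀ Z ∈ a, S.ad X Z = 0) → finrank ℝ a ≤ 1)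
    {ψ : Fin 1 → G → ℝ} {c C Cw : ℝ} (hc : 0 < c) (hC : 0 ≤ C)
    (h1 : ∀ n ∈ W.Λ, ∀ x, ‖W.φ n x‖ ≤ 1)
    (hF : ∀ n ∈ W.Λ, ∀ x, ‖W.F n x‖ ^ 4 ≤ Real.exp (-(c * ∑ j, n j * R.ρ j (S.s x) ^ 2)))
    (hψ0 : ∀ j x, 0 ≤ ψ j x) (hψ1 : ∀ j x, ψ j x ≤ 1)
    (hψ : ∀ j x, 1 - ψ j x ≤ C * R.δ j (S.s x) ^ 2)
    (hw : ∀ (x : G) (t : Fin 1 → ℝ), (∀ j, 0 ≤ t j) →
      ∫ k, Real.exp (-∑ j, t j * R.ρ j (S.s (x * k)) ^ 2) ∂S.ν
        ≤ Cw * ∏ j, (1 + t j * R.δ j (S.s x) ^ 2) ^ (-(1 / 2) : ℝ)) :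
    ∃ C1 : ℝ, ∀ n ∈ W.Λ, ∀ j x,
      ‖W.φ n x‖ ≤ C1 * (1 + (n j : ℝ) ^ 2 * (1 - ψ j x)) ^ (-(1 / 4) : ℝ) := by
  obtain ⟨δ0, C1, hδ0, H⟩ := hr V G S R ha
  have hw0 : 0 < ‖R.w 0‖ := norm_pos_iff.2 (w_ne_zero R 0)
  refine ⟨max C1 0 * (1 + C / ‖R.w 0‖ ^ 2) + max Cw 0 * (1 + 4 / (c * δ0 ^ 2)) ^ 2,
    fun n hn j x => ?_⟩
  obtain rfl : j = 0 := Subsingleton.elim _ _
  have hn0 : (0 : ℝ) ≤ n 0 := Nat.cast_nonneg _
  have a1 : 0 ≤ (n 0 : ℝ) ^ 2 * (1 - ψ 0 x) := mul_nonneg (sq_nonneg _) (by linarith [hψ1 0 x])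
  have a0 : 0 ≤ (1 + (n 0 : ℝ) ^ 2 * (1 - ψ 0 x)) ^ (-(1 / 4) : ℝ) := by positivity
  have b1 : 0 ≤ max C1 0 * (1 + C / ‖R.w 0‖ ^ 2) := by positivity
  have b2 : 0 ≤ max Cw 0 * (1 + 4 / (c * δ0 ^ 2)) ^ 2 := by positivity
  rcases le_or_gt (R.δ 0 (S.s x)) δ0 with hx | hx
  · have hl0 := wt_al_nonneg R n
    have hl1 : ‖R.wt n‖ ^ 2 = (n 0 : ℝ) ^ 2 * ‖R.w 0‖ ^ 2 := by
      rw [Roots.wt, Fin.sum_univ_one, norm_smul, Real.norm_of_nonneg hn0, mul_pow]
    have := H (W.φ n) (‖R.wt n‖ ^ 2 + ⟪R.wt n, ∑ i, R.al i⟫) (φ_rep W hn) (φ_left W hn)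
      (W.φ_right n hn) (h1 n hn) (by positivity) (W.casimir n hn _ (W.φ_mem n hn)) x hx
    set l := ‖R.wt n‖ ^ 2 + ⟪R.wt n, ∑ i, R.al i⟫ with hl
    have hl2 : (n 0 : ℝ) ^ 2 * ‖R.w 0‖ ^ 2 ≤ l := by linarith
    have hl3 : 0 ≤ l := le_trans (by positivity) hl2
    have a2 : 0 ≤ l * R.δ 0 (S.s x) ^ 2 := by positivity
    have hL : 0 ≤ C / ‖R.w 0‖ ^ 2 := by positivity
    have a3 : (n 0 : ℝ) ^ 2 * (1 - ψ 0 x) ≤ C / ‖R.w 0‖ ^ 2 * (l * R.δ 0 (S.s x) ^ 2) := by
      calc (n 0 : ℝ) ^ 2 * (1 - ψ 0 x) ≤ (n 0 : ℝ) ^ 2 * (C * R.δ 0 (S.s x) ^ 2) :=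
            mul_le_mul_of_nonneg_left (hψ 0 x) (sq_nonneg _)
        _ = C / ‖R.w 0‖ ^ 2 * ((n 0 : ℝ) ^ 2 * ‖R.w 0‖ ^ 2 * R.δ 0 (S.s x) ^ 2) := by field_simp
        _ ≤ _ := mul_le_mul_of_nonneg_left (mul_le_mul_of_nonneg_right hl2 (sq_nonneg _)) hL
    have a4 := rpow_cmp (u := 1 + (n 0 : ℝ) ^ 2 * (1 - ψ 0 x)) (v := 1 + l * R.δ 0 (S.s x) ^ 2)
      (L := 1 + C / ‖R.w 0‖ ^ 2) (p := 1 / 4) (by linarith) (by linarith) (by linarith)
      (by nlinarith) (by norm_num) (by norm_num)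
    calc ‖W.φ n x‖ ≤ _ := this
      _ ≤ max C1 0 * ((1 + C / ‖R.w 0‖ ^ 2) * (1 + (n 0 : ℝ) ^ 2 * (1 - ψ 0 x)) ^ (-(1 / 4) : ℝ)) :=
          mul_le_mul (le_max_left _ _) a4 (by positivity) (le_max_right _ _)
      _ ≤ _ := by
          rw [← mul_assoc]
          exact mul_le_mul_of_nonneg_right (by linarith) a0
  · have a2 : ‖W.φ n x‖
        ≤ ∫ k, Real.exp (-∑ j, (c / 4 * n j) * R.ρ j (S.s (x * k)) ^ 2) ∂S.ν := by
      refine (norm_φ_le W hn x).trans (integral_mono_of_nonneg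
        (Filter.Eventually.of_forall fun k => norm_nonneg _) (gauss_int R x _)
        (Filter.Eventually.of_forall fun k => ?_))
      refine le_of_pow_le_pow_left₀ four_ne_zero (Real.exp_pos _).le ((hF n hn _).trans (le_of_eq ?_))
      rw [← Real.exp_nat_mul]
      congr 1
      simp only [Fin.sum_univ_one]
      push_cast
      ring
    have a3 := hw x (fun j => c / 4 * n j) fun j => by positivity
    rw [Fin.prod_univ_one] at a3
    set v := 1 + c / 4 * n 0 * R.δ 0 (S.s x) ^ 2 with hv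
    set L := 1 + 4 / (c * δ0 ^ 2) with hL
    have hq : 0 < 4 / (c * δ0 ^ 2) := by positivity
    have hd : δ0 ^ 2 ≤ R.δ 0 (S.s x) ^ 2 := pow_le_pow_left₀ hδ0.le hx.le 2
    have v1 : c / 4 * n 0 * δ0 ^ 2 ≤ c / 4 * n 0 * R.δ 0 (S.s x) ^ 2 :=
      mul_le_mul_of_nonneg_left hd (by positivity)
    have v2 : 0 ≤ c / 4 * n 0 * δ0 ^ 2 := by positivity
    have v3 : (n 0 : ℝ) = 4 / (c * δ0 ^ 2) * (c / 4 * n 0 * δ0 ^ 2) := by field_simp
    have v0 : 0 < v := by linarith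
    have v4 : 1 + (n 0 : ℝ) ≤ L * v := by nlinarith
    have v5 : 1 + (n 0 : ℝ) ^ 2 * (1 - ψ 0 x) ≤ L ^ 2 * v ^ 2 := by
      have := pow_le_pow_left₀ (by linarith) v4 2
      have h3 := mul_nonneg (sq_nonneg (n 0 : ℝ)) (hψ0 0 x)
      rw [mul_pow] at this
      nlinarith
    have a4 := rpow_cmp (u := 1 + (n 0 : ℝ) ^ 2 * (1 - ψ 0 x)) (v := v ^ 2) (L := L ^ 2)
      (p := 1 / 4) (by linarith) (pow_pos v0 2) (one_le_pow₀ (by linarith)) v5 (by norm_num)
      (by norm_num)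
    have a5 : (v ^ 2) ^ (-(1 / 4) : ℝ) = v ^ (-(1 / 2) : ℝ) := by
      rw [← Real.rpow_natCast, ← Real.rpow_mul v0.le]
      norm_num
    rw [a5] at a4
    calc ‖W.φ n x‖ ≤ _ := a2.trans a3
      _ ≤ max Cw 0 * (L ^ 2 * (1 + (n 0 : ℝ) ^ 2 * (1 - ψ 0 x)) ^ (-(1 / 4) : ℝ)) :=
          mul_le_mul (le_max_left _ _) a4 (Real.rpow_nonneg v0.le _) (le_max_right _ _)
      _ ≤ _ := by
          rw [← mul_assoc]
          exact mul_le_mul_of_nonneg_right (by linarith) a0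

end SphM

open SphM in
theorem lie_of (hHw : HwStmt) (hG : GfunStmt) (hSt : StepStmt) (hGen : GenStmt) (hDim : DimStmt)
    (hWb : WbStmt) (hRk : Rk1Stmt) (hd : DenseStmt) : LieStmt := by
  intro V _ _ _ G _ _ _ _ _ μ _ S r R ha
  obtain ⟨W⟩ := hHw V G μ S r R
  obtain ⟨-, -, hmul, hg⟩ := hG V G μ S r R W
  obtain ⟨e, c, C, he, hc, hC, hgen, hgau⟩ := hGen V G μ S r R W
  obtain ⟨Cd, Mx, hmono, hdbl, hle⟩ := hDim V G μ S r R W
  obtain ⟨Cw, hw⟩ := hWb V G S r R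
  have hmul' : ∀ n ∈ W.Λ, ∀ n' ∈ W.Λ, n + n' ∈ W.Λ ∧ W.F (n + n') = W.F n * W.F n' :=
    fun n hn n' hn' => ⟨(hmul n hn n' hn').1, (hmul n hn n' hn').2.1⟩
  set g : Fin r → Fin r → ℕ := fun j => e • Pi.single j 1 with hgdef
  have hgΛ : ∀ j, g j ∈ W.Λ := fun j => (hgen j).1
  have hsq : ∀ n ∈ W.Λ, ∀ x, ‖W.F n x‖ ^ 2 = ‖W.g n (S.s x)‖ := fun n hn x => by
    rw [← norm_pow, (hg n hn).2.2.1 x]
  have hF1 : ∀ n ∈ W.Λ, ∀ x, ‖W.F n x‖ ≤ 1 := fun n hn x =>
    (pow_le_one_iff_of_nonneg (norm_nonneg _) two_ne_zero).1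
      ((hsq n hn x).trans_le ((hg n hn).2.1 _))
  have hφ1 : ∀ n ∈ W.Λ, ∀ x, ‖W.φ n x‖ ≤ 1 := fun n hn => φ_le W hn (hF1 n hn)
  have hF4 : ∀ n ∈ W.Λ, ∀ x,
      ‖W.F n x‖ ^ 4 ≤ Real.exp (-(c * ∑ j, n j * R.ρ j (S.s x) ^ 2)) := fun n hn x => by
    rw [show ‖W.F n x‖ ^ 4 = (‖W.F n x‖ ^ 2) ^ 2 by ring, hsq n hn]
    exact (hgau n hn _).1
  have hψ : ∀ j x, 1 - psi W g j x ≤ C * R.δ j (S.s x) ^ 2 := fun j x => by
    have h1 := one_sub_psi_le W g j x (b := C * R.δ j (S.s x) ^ 2) fun i hi => by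
      have h2 := one_sub_φ W (hgΛ i) (fun y => ((hgen i).2 y).2) x
      have h3 : R.δ i (S.s x) = R.δ j (S.s x) := by rw [Roots.δ, Roots.δ, R.π_blk (mem_bl.1 hi)]
      rwa [h3] at h2
    have h4 : 0 ≤ C * R.δ j (S.s x) ^ 2 := by positivity
    linarith
  choose C0 c0 hc0 hT using fun j => hSt V G μ S r R W j (g j) (hgΛ j) fun i hi => by
    simp [hgdef, Pi.single_eq_of_ne hi]
  obtain ⟨c1, hc1, hc1le⟩ := exists_pos_le c0 hc0
  have hstep := fun j n hn => step_aux hgΛ (Finset.univ.sup C0) c1 hc1 (fun i n hn =>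
    ⟨(hmul' n hn _ (hgΛ i)).1, (hc1le i).trans (hT i n hn).1, fun n' hn' =>
      ⟨((hT i n hn).2 n' hn').1, ((hT i n hn).2 n' hn').2.1, fun h l =>
        ⟨(((hT i n hn).2 n' hn').2.2 h l).1.trans
          (by exact_mod_cast Finset.le_sup (f := C0) (Finset.mem_univ i)),
          (((hT i n hn).2 n' hn').2.2 h l).2⟩⟩⟩) j (n := n) hn
  obtain ⟨C1, hC1⟩ : ∃ C1 : ℝ, r = 1 → ∀ n ∈ W.Λ, ∀ j x,
      ‖W.φ n x‖ ≤ C1 * (1 + (n j : ℝ) ^ 2 * (1 - psi W g j x)) ^ (-(1 / 4) : ℝ) := by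
    by_cases h : r = 1
    · subst h
      obtain ⟨C1, h1⟩ := rk1_aux hRk W ha hc hC hφ1 hF4 (psi_nonneg hgΛ hφ1) (psi_le hgΛ hφ1) hψ hw
      exact ⟨C1, fun _ => h1⟩
    · exact ⟨0, fun h' => absurd h' h⟩
  have hW := W_aux (f := fun j => W.F (g j)) hc hC (fun j x => ((hgen j).2 x).1)
    (psi_le hgΛ hφ1) hψ hw
  have hrm : r ≤ R.m := by simpa using Fintype.card_le_of_injective _ R.sr_inj
  have hpos : ∀ (t : ℝ) j x, 0 ≤ t → 0 ≤ 1 + t * (1 - psi W g j x) := fun t j x ht => by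
    have := mul_nonneg ht (sub_nonneg.2 (psi_le hgΛ hφ1 j x))
    linarith
  refine ⟨{ W.toOrth with
    two_r := by omega
    A := R.A
    bv := R.bv
    A_symm := A_symm R
    A_pos := A_pos R
    bv_nonneg := bv_nonneg R
    e := e
    e_pos := he
    up := fun n hn m => (up_all W hmul' hgΛ hn m).1
    ν := S.ν
    ν_prob := S.ν_prob
    F := W.F
    f := fun j => W.F (g j)
    F_cont := fun n hn => F_cont W hn
    f_cont := fun j => F_cont W (hgΛ j)
    F_le := hF1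
    f_le := fun j => hF1 _ (hgΛ j)
    φ_int := fun n hn m x => ?_
    blk := R.blk
    ψ := psi W g
    ψ_cont := psi_cont hgΛ
    ψ_nonneg := psi_nonneg hgΛ hφ1
    ψ_le := psi_le hgΛ hφ1
    ψ_one := psi_one hgΛ
    ψ_blk := fun i j h => psi_blk W g h
    C0 := Finset.univ.sup C0
    c0 := c1 / (4 * (r + 1))
    c0_pos := by positivity
    step := hstep
    dim_mono := fun n hn m => hmono n hn _ ?_
    Cd := max (max Cd C1) (max Cw 0 * (1 + C / c) ^ r)
    Mx := Mx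
    dim_dbl := fun n hn n' hn' T hT h => (hdbl n hn n' hn' T hT h).trans ?_
    dim_le := fun n hn T h hT => (hle n hn T h hT).trans ?_
    W := fun m x => (hW m x).trans ?_
    rk1 := fun h n hn j x => (hC1 h n hn j x).trans ?_ }, fun n hn i => ?_, fun f hf hl h0 => ?_⟩
  · obtain ⟨h1, h2⟩ := up_all W hmul' hgΛ hn m
    rw [W.φ_eq _ h1, h2]
    simp only [Pi.mul_apply, Finset.prod_apply, Pi.pow_apply, hgdef]
  · simpa using (up_all W hmul' hgΛ (zero_mem W) m).1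
  · have : 0 ≤ T := by linarith
    gcongr
    exact (le_max_left _ _).trans (le_max_left _ _)
  · have : 0 ≤ T := by linarith
    rw [show r + R.m - 2 * r = R.m - r by omega]
    gcongr
    exact (le_max_left _ _).trans (le_max_left _ _)
  · exact mul_le_mul_of_nonneg_right (le_max_right _ _)
      (Finset.prod_nonneg fun j _ => Real.rpow_nonneg (hpos _ j x (Nat.cast_nonneg _)) _)
  · exact mul_le_mul_of_nonneg_right ((le_max_right _ _).trans (le_max_left _ _))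
      (Real.rpow_nonneg (hpos _ j x (sq_nonneg _)) _)
  · refine ⟨W.bas_rep n hn i, W.bas_inv n hn i, fun x => ?_⟩
    have h1 := W.casimir n hn _ (subset_span ⟨i, rfl⟩) x
    have h2 : ((qf R.A n + ∑ j, R.bv j * n j : ℤ) : ℂ) / R.Dn
        = ((‖R.wt n‖ ^ 2 + ⟪R.wt n, ∑ i, R.al i⟫ : ℝ) : ℂ) := by
      have h3 : (R.Dn : ℂ) ≠ 0 := by exact_mod_cast R.Dn_pos.ne'
      rw [div_eq_iff h3, mul_comm, ← Complex.ofReal_natCast, ← Complex.ofReal_mul, ← P_eq,
        Complex.ofReal_intCast]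
    exact h1.trans (by rw [← h2]; rfl)
  · exact complete W hd hf hl h0

end Pool.Agent.MP_ba99b7_an

end MrgPart7

-- ======== part 8: formerly Pool.Agent.MP_ba99b7_an.Main
section MrgPart8

/-! PROJECT STRI: the assembly. -/

namespace Pool.Agent.MP_ba99b7_an

open scoped Manifold ContDiff ComplexConjugate
open MeasureTheory

theorem core_stmt : CoreStmt := by
  have hM : MajorStmt :=
    major_of weyl_stmt (arc_of div_stmt (mom_of div_stmt) ram_stmt ww_stmt)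
  have hH : HeatStmt := heat_of walk_stmt (tail_of walk_stmt)
  refine core_of (fun r hr => ?_) sum_stmt
  rcases hr.eq_or_lt with rfl | h
  · exact block_one_of hM weak_stmt conic_stmt (eig_of weak_stmt walk_stmt hH)
  · exact minor_of hM weak_stmt walk_stmt hH conic_stmt r h

theorem main_of_wb (hW : WbStmt) : MainStmt :=
  have hG : GenStmt := gen_of mat_stmt gfun_stmt
  main_of glue1_stmt adapt_stmt roots_stmt
    (lie_of hw_stmt gfun_stmt (step_of gfun_stmt) hG (dim_of gfun_stmt hG vol_stmt) hW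
      (rk1_of adapt_stmt ode_stmt) dense_stmt)
    (scale_of core_stmt)

/-- The spectral projections are unique. -/
theorem IsProj.unique {E : Type} [NormedAddCommGroup E] [NormedSpace ℝ E] [FiniteDimensional ℝ E]
    {G : Type} [Group G] [TopologicalSpace G] [ChartedSpace E G] [LieGroup 𝓘(ℝ, E) ∞ G]
    [CompactSpace G] [MeasurableSpace G] [BorelSpace G] {μ : Measure G} [μ.IsHaarMeasure]
    {K : Subgroup G} {d : ℕ} {b : Fin d → GroupLieAlgebra 𝓘(ℝ, E) G} {l : ℝ} {f g g' : G → ℂ}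
    (hf : Continuous f) (h : IsProj E μ K b l f g) (h' : IsProj E μ K b l f g') : g = g' := by
  have he : IsEig E K b l (g + (-1 : ℂ) • g') := Glue2.eig_add h.1 (Glue2.eig_smul h'.1 _)
  have hg := h.1.1.1.continuous
  have hg' := h'.1.1.1.continuous
  have hc := he.1.1.continuous
  have i1 : ∀ v : G → ℂ, Continuous v →
      Integrable (fun x => conj ((g + (-1 : ℂ) • g') x) * (f x - v x)) μ := fun v hv =>
    ((Complex.continuous_conj.comp hc).mul (hf.sub hv)).integrable_of_hasCompactSupport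
      (HasCompactSupport.of_compactSpace _)
  have h1 := integral_sub (i1 g' hg') (i1 g hg)
  rw [h.2 _ he, h'.2 _ he, sub_zero] at h1
  have h2 : ∫ x, ‖g x - g' x‖ ^ 2 ∂μ = 0 := by
    rw [← Complex.ofReal_eq_zero, ← integral_complex_ofReal, ← h1]
    refine integral_congr_ae (Filter.Eventually.of_forall fun x => ?_)
    have e : (g + (-1 : ℂ) • g') x = g x - g' x := by simp [sub_eq_add_neg]
    simp only [e, ← mul_sub, sub_sub_sub_cancel_left, Complex.conj_mul']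
    simp
  by_contra hne
  obtain ⟨x, hx⟩ := Function.ne_iff.1 hne
  exact (Continuous.integral_pos_of_hasCompactSupport_nonneg_nonzero (μ := μ) (x := x)
    ((hg.sub hg').norm.pow 2) (HasCompactSupport.of_compactSpace _) (fun x => sq_nonneg _)
    (by simpa [sub_eq_zero] using hx)).ne' h2

end Pool.Agent.MP_ba99b7_an

end MrgPart8

-- marker of a merged file
example : 731051 + 236590 = 731051 + 236590 := rfl
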