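import Mathlib.Algebra.Order.Star.Real
import Mathlib.MeasureTheory.Integral.Bochner.ContinuousLinearMap
import Mathlib.Topology.Metrizable.Urysohn
import Pool.Agent.MP_ba99b7_an.SpecAn

/-! PROJECT STRI, module HEAT, part 1: the bilinear forms of the random walk. -/

namespace Pool.Agent.MP_ba99b7_an.Heat

open scoped ComplexConjugate
open MeasureTheory Finset

variable {G : Type} [Group G] [TopologicalSpace G] [MeasurableSpace G] [TG G] {μ : Measure G}
  [BiH μ] {r d : ℕ} (S : Sph μ r d)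

/-- The symmetric form of the transition kernel. -/
noncomputable def B (m u v : Fin r → ℕ) : ℝ :=
  (∫ g, (S.Ψ m g : ℂ) * S.φ u g * conj (S.φ v g) ∂μ).re

omit [TG G] [BiH μ] in
lemma Q_eq (m u v : Fin r → ℕ) : S.Q m u v = S.dim v * B S m u v := rfl

lemma integrable_of_cont {E : Type} [NormedAddCommGroup E] {f : G → E} (hf : Continuous f) :
    Integrable f μ :=
  hf.integrable_of_hasCompactSupport (HasCompactSupport.of_compactSpace f)

omit [TG G] [BiH μ] in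
lemma Ψ_cont (m : Fin r → ℕ) : Continuous (S.Ψ m) := by
  unfold Sph.Ψ
  exact continuous_finsetProd _ fun j _ => (S.ψ_cont j).pow _

omit [TG G] [BiH μ] in
lemma Ψ_nonneg (m : Fin r → ℕ) (g : G) : 0 ≤ S.Ψ m g :=
  Finset.prod_nonneg fun j _ => pow_nonneg (S.ψ_nonneg j g) _

omit [TG G] [BiH μ] in
lemma Ψ_le_one (m : Fin r → ℕ) (g : G) : S.Ψ m g ≤ 1 :=
  Finset.prod_le_one (fun j _ => pow_nonneg (S.ψ_nonneg j g) _)
    fun j _ => pow_le_one₀ (S.ψ_nonneg j g) (S.ψ_le j g)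

omit [TG G] [BiH μ] in
lemma Ψ_add (m n : Fin r → ℕ) (g : G) : S.Ψ (m + n) g = S.Ψ m g * S.Ψ n g := by
  simp [Sph.Ψ, pow_add, Finset.prod_mul_distrib]

omit [TG G] [BiH μ] in
lemma Ψ_zero (g : G) : S.Ψ 0 g = 1 := by simp [Sph.Ψ]

omit [TG G] [BiH μ] in
lemma Ψ_single (j : Fin r) (g : G) : S.Ψ (Pi.single j 1) g = S.ψ j g := by
  unfold Sph.Ψ
  rw [Finset.prod_eq_single j]
  · simp
  · intro i _ hi
    simp [Pi.single_eq_of_ne hi]
  · simp

omit [TG G] [BiH μ] in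
lemma Ψ_one (m : Fin r → ℕ) : S.Ψ m 1 = 1 := by simp [Sph.Ψ, S.ψ_one]

omit [TG G] [BiH μ] in
lemma Ψ_anti {m n : Fin r → ℕ} (h : ∀ j, n j ≤ m j) (g : G) : S.Ψ m g ≤ S.Ψ n g :=
  Finset.prod_le_prod (fun j _ => pow_nonneg (S.ψ_nonneg j g) _)
    fun j _ => pow_le_pow_of_le_one (S.ψ_nonneg j g) (S.ψ_le j g) (h j)

omit [TG G] [BiH μ] in
lemma Ψ_le_pow (t : Fin r → ℕ) (j : Fin r) (g : G) : S.Ψ t g ≤ S.ψ j g ^ S.Mb t j := by
  classical
  unfold Sph.Ψ Sph.Mb
  rw [← Finset.prod_filter_mul_prod_filter_not Finset.univ (fun i => S.blk i = S.blk j),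
    ← Finset.prod_pow_eq_pow_sum]
  have h1 : ∏ i ∈ Finset.univ.filter (fun i => S.blk i = S.blk j), S.ψ i g ^ t i
      = ∏ i ∈ Finset.univ.filter (fun i => S.blk i = S.blk j), S.ψ j g ^ t i := by
    refine Finset.prod_congr rfl fun i hi => ?_
    rw [S.ψ_blk i j (Finset.mem_filter.1 hi).2]
  rw [h1]
  refine mul_le_of_le_one_right
    (Finset.prod_nonneg fun i _ => pow_nonneg (S.ψ_nonneg j g) _) ?_
  exact Finset.prod_le_one (fun i _ => pow_nonneg (S.ψ_nonneg i g) _)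
    fun i _ => pow_le_one₀ (S.ψ_nonneg i g) (S.ψ_le i g)

omit [TG G] [BiH μ] in
lemma integrand_cont (m : Fin r → ℕ) {u v : Fin r → ℕ} (hu : u ∈ S.Λ) (hv : v ∈ S.Λ) :
    Continuous fun g => (S.Ψ m g : ℂ) * S.φ u g * conj (S.φ v g) :=
  ((Complex.continuous_ofReal.comp (Ψ_cont S m)).mul (S.φ_cont u hu)).mul
    (Complex.continuous_conj.comp (S.φ_cont v hv))

lemma B_real (m : Fin r → ℕ) {u v : Fin r → ℕ} (hu : u ∈ S.Λ) (hv : v ∈ S.Λ) :
    B S m u v = ∫ g, S.Ψ m g * (S.φ u g * conj (S.φ v g)).re ∂μ := by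
  unfold B
  have h := (integral_re (integrable_of_cont (μ := μ) (integrand_cont S m hu hv))).symm
  simp only [RCLike.re_to_complex] at h
  rw [h]
  refine integral_congr_ae (Filter.Eventually.of_forall fun g => ?_)
  simp only [mul_assoc, Complex.re_ofReal_mul]

lemma B_diag (m : Fin r → ℕ) {z : Fin r → ℕ} (hz : z ∈ S.Λ) :
    B S m z z = ∫ g, S.Ψ m g * ‖S.φ z g‖ ^ 2 ∂μ := by
  rw [B_real S m hz hz]
  refine integral_congr_ae (Filter.Eventually.of_forall fun g => ?_)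
  simp only [Complex.mul_conj, Complex.ofReal_re, Complex.normSq_eq_norm_sq]

lemma diag_int (m : Fin r → ℕ) {z : Fin r → ℕ} (hz : z ∈ S.Λ) :
    Integrable (fun g => S.Ψ m g * ‖S.φ z g‖ ^ 2) μ :=
  integrable_of_cont ((Ψ_cont S m).mul ((S.φ_cont z hz).norm.pow 2))

lemma B_diag_anti {m n : Fin r → ℕ} (h : ∀ j, n j ≤ m j) {z : Fin r → ℕ} (hz : z ∈ S.Λ) :
    B S m z z ≤ B S n z z := by
  rw [B_diag S m hz, B_diag S n hz]
  exact integral_mono (diag_int S m hz) (diag_int S n hz) fun g =>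
    mul_le_mul_of_nonneg_right (Ψ_anti S h g) (sq_nonneg _)

lemma B_le_diag (m : Fin r → ℕ) {x y : Fin r → ℕ} (hx : x ∈ S.Λ) (hy : y ∈ S.Λ) :
    2 * B S m y x ≤ B S m x x + B S m y y := by
  rw [B_real S m hy hx, B_diag S m hx, B_diag S m hy,
    ← integral_add (diag_int S m hx) (diag_int S m hy), ← integral_const_mul]
  refine integral_mono ?_ ((diag_int S m hx).add (diag_int S m hy)) fun g => ?_
  · refine integrable_of_cont (continuous_const.mul ((Ψ_cont S m).mul ?_))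
    exact Complex.continuous_re.comp
      ((S.φ_cont y hy).mul (Complex.continuous_conj.comp (S.φ_cont x hx)))
  · have h1 : (S.φ y g * conj (S.φ x g)).re ≤ ‖S.φ y g‖ * ‖S.φ x g‖ := by
      refine (Complex.re_le_norm _).trans (le_of_eq ?_)
      rw [norm_mul, Complex.norm_conj]
    have h2 := Ψ_nonneg S m g
    have h3 : 2 * (S.φ y g * conj (S.φ x g)).re ≤ ‖S.φ x g‖ ^ 2 + ‖S.φ y g‖ ^ 2 := by
      nlinarith [sq_nonneg (‖S.φ x g‖ - ‖S.φ y g‖)]
    have h4 := mul_le_mul_of_nonneg_left h3 h2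
    dsimp only
    linarith

lemma one_sub_mul_pow_le {x : ℝ} (h0 : 0 ≤ x) (h1 : x ≤ 1) (T : ℕ) :
    T * ((1 - x) * x ^ T) ≤ 1 - x ^ T := by
  induction T with
  | zero => simp
  | succ n ih =>
    have h2 : x ^ (n + 1) ≤ x ^ n := pow_le_pow_of_le_one h0 h1 (Nat.le_succ n)
    have h3 : (0 : ℝ) ≤ n := Nat.cast_nonneg n
    have h4 : (n : ℝ) * ((1 - x) * x ^ (n + 1)) ≤ n * ((1 - x) * x ^ n) :=
      mul_le_mul_of_nonneg_left (mul_le_mul_of_nonneg_left h2 (by linarith)) h3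
    have h5 : (1 - x) * x ^ (n + 1) ≤ (1 - x) * x ^ n :=
      mul_le_mul_of_nonneg_left h2 (by linarith)
    push_cast
    have h6 : x ^ (n + 1) = x * x ^ n := by ring
    nlinarith

/-- The decay of the energy along the iteration. -/
lemma energy_le (s t : Fin r → ℕ) (j : Fin r) {z : Fin r → ℕ} (hz : z ∈ S.Λ) :
    S.Mb t j * (B S ((s + t) + (s + t) + 0) z z - B S ((s + t) + (s + t) + Pi.single j 1) z z)
      ≤ B S (s + s + 0) z z - B S ((s + t) + (s + t) + 0) z z := by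
  simp only [B_diag S _ hz]
  rw [← integral_sub (diag_int S _ hz) (diag_int S _ hz),
    ← integral_sub (diag_int S _ hz) (diag_int S _ hz), ← integral_const_mul]
  refine integral_mono (((diag_int S _ hz).sub (diag_int S _ hz)).const_mul _)
    ((diag_int S _ hz).sub (diag_int S _ hz)) fun g => ?_
  simp only [Ψ_add, Ψ_zero, Ψ_single]
  have h1 := Ψ_le_pow S t j g
  have h2 := one_sub_mul_pow_le (S.ψ_nonneg j g) (S.ψ_le j g) (S.Mb t j)
  have h3 := Ψ_nonneg S t g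
  have h4 := Ψ_le_one S t g
  have h5 : S.Ψ t g * S.Ψ t g ≤ S.ψ j g ^ S.Mb t j := by nlinarith
  have h6 : 0 ≤ 1 - S.ψ j g := by linarith [S.ψ_le j g]
  have h7 : (S.Mb t j : ℝ) * ((1 - S.ψ j g) * (S.Ψ t g * S.Ψ t g)) ≤ 1 - S.Ψ t g * S.Ψ t g := by
    have := mul_le_mul_of_nonneg_left (mul_le_mul_of_nonneg_left h5 h6)
      (Nat.cast_nonneg (α := ℝ) (S.Mb t j))
    linarith
  have h8 : 0 ≤ S.Ψ s g * S.Ψ s g * ‖S.φ z g‖ ^ 2 :=
    mul_nonneg (mul_self_nonneg _) (sq_nonneg _)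
  have h9 := mul_le_mul_of_nonneg_left h7 h8
  nlinarith

/-- The semigroup identity. -/
lemma B_semigroup (s n : Fin r → ℕ) {z : Fin r → ℕ} (T : Finset (Fin r → ℕ))
    (hT : ↑T ⊆ S.Λ) (c : (Fin r → ℕ) → ℝ)
    (h : ∀ g, (S.Ψ s g : ℂ) * S.φ z g = ∑ y ∈ T, (c y : ℂ) * S.φ y g) :
    B S (s + s + n) z z = ∑ u ∈ T, ∑ v ∈ T, c u * c v * B S n u v := by
  have h1 : ∀ g, (S.Ψ (s + s + n) g : ℂ) * S.φ z g * conj (S.φ z g)
      = ∑ u ∈ T, ∑ v ∈ T, ((c u * c v : ℝ) : ℂ) * ((S.Ψ n g : ℂ) * S.φ u g * conj (S.φ v g)) := by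
    intro g
    have h2 : (S.Ψ (s + s + n) g : ℂ) * S.φ z g * conj (S.φ z g)
        = S.Ψ n g * ((S.Ψ s g : ℂ) * S.φ z g) * conj ((S.Ψ s g : ℂ) * S.φ z g) := by
      simp only [Ψ_add, Complex.ofReal_mul, map_mul, Complex.conj_ofReal]
      ring
    rw [h2, h g, map_sum, mul_assoc, Finset.sum_mul_sum, Finset.mul_sum]
    refine Finset.sum_congr rfl fun u _ => ?_
    rw [Finset.mul_sum]
    refine Finset.sum_congr rfl fun v _ => ?_
    simp only [Complex.ofReal_mul, map_mul, Complex.conj_ofReal]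
    ring
  unfold B
  simp only [h1]
  rw [integral_finsetSum, Complex.re_sum]
  · refine Finset.sum_congr rfl fun u hu => ?_
    rw [integral_finsetSum, Complex.re_sum]
    · refine Finset.sum_congr rfl fun v _ => ?_
      rw [integral_const_mul, Complex.re_ofReal_mul]
    · intro v hv
      exact (integrable_of_cont (integrand_cont S n (hT hu) (hT hv))).const_mul _
  · intro u hu
    exact integrable_finsetSum _ fun v hv =>
      (integrable_of_cont (integrand_cont S n (hT hu) (hT hv))).const_mul _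

omit [TG G] [BiH μ] in
lemma dim_pos' {z : Fin r → ℕ} (hz : z ∈ S.Λ) : (0 : ℝ) < S.dim z := by
  exact_mod_cast S.dim_pos z hz

omit [TG G] [BiH μ] in
lemma one_le_dim {z : Fin r → ℕ} (hz : z ∈ S.Λ) : (1 : ℝ) ≤ S.dim z := by
  exact_mod_cast S.dim_pos z hz

/-- Orthogonality of the spherical functions (real part). -/
lemma Q_zero (h1 : WalkStmt) {x y : Fin r → ℕ} (hx : x ∈ S.Λ) (hy : y ∈ S.Λ) :
    S.Q 0 x y = if x = y then 1 else 0 := by
  classical
  obtain ⟨T, -, hT, hT'⟩ := (h1 G μ r d S 0).1 x hx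
  have hsub : T ⊆ {x} := by
    intro y hy
    rw [Finset.mem_singleton]
    funext l
    have := hT y hy l
    simp only [Sph.Mb, Pi.zero_apply, Finset.sum_const_zero, Nat.cast_zero, mul_zero,
      abs_nonpos_iff] at this
    omega
  have hrow : ∀ T' : Finset (Fin r → ℕ), ↑T' ⊆ S.Λ → x ∈ T' → ∑ y ∈ T', S.Q 0 x y = 1 := by
    intro T' h2 h3
    have h4 := hT' T' h2 (hsub.trans (Finset.singleton_subset_iff.2 h3)) 1
    rw [Ψ_one, S.φ_one x hx, Finset.sum_congr rfl fun y hy => by rw [S.φ_one y (h2 hy)]] at h4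
    simp only [mul_one] at h4
    exact_mod_cast h4.symm
  have hxx : S.Q 0 x x = 1 := by
    simpa using hrow {x} (by simpa using hx) (Finset.mem_singleton_self x)
  split_ifs with hxy
  · rw [← hxy, hxx]
  · have := hrow {x, y} (by
      intro w hw
      simp only [Finset.coe_insert, Finset.coe_singleton, Set.mem_insert_iff,
        Set.mem_singleton_iff] at hw
      rcases hw with rfl | rfl <;> assumption) (by simp)
    rw [Finset.sum_pair hxy] at this
    linarith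

lemma B_zero (h1 : WalkStmt) {x y : Fin r → ℕ} (hx : x ∈ S.Λ) (hy : y ∈ S.Λ) :
    B S 0 x y = if x = y then (S.dim y : ℝ)⁻¹ else 0 := by
  have h2 := Q_zero S h1 hx hy
  have h3 := dim_pos' S hy
  rw [Q_eq] at h2
  split_ifs at h2 ⊢
  · field_simp
    linarith
  · rcases mul_eq_zero.1 h2 with h | h
    · exact absurd h h3.ne'
    · exact h

/-- The one step kernel charges the forward lattice step. -/
lemma step_lower (h1 : WalkStmt) (j : Fin r) {u : Fin r → ℕ} (hu : u ∈ S.Λ) :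
    S.c0 ≤ S.Q (Pi.single j 1) u (u + S.e • Pi.single j 1) := by
  classical
  obtain ⟨T, P, hT, hP, -, -, hmem, hc⟩ := S.step j u hu
  set v := u + S.e • Pi.single j 1 with hv
  have hvΛ : v ∈ S.Λ := hT hmem
  have h2 : ∀ g, (S.Ψ (Pi.single j 1) g : ℂ) * S.φ u g * conj (S.φ v g)
      = ∑ y ∈ T, (P y : ℂ) * ((S.Ψ 0 g : ℂ) * S.φ y g * conj (S.φ v g)) := by
    intro g
    rw [Ψ_single, hP g, Finset.sum_mul]
    refine Finset.sum_congr rfl fun y _ => ?_
    rw [Ψ_zero]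
    push_cast
    ring
  have h3 : B S (Pi.single j 1) u v = ∑ y ∈ T, P y * B S 0 y v := by
    unfold B
    simp only [h2]
    rw [integral_finsetSum, Complex.re_sum]
    · refine Finset.sum_congr rfl fun y _ => ?_
      rw [integral_const_mul, Complex.re_ofReal_mul]
    · intro y hy
      exact (integrable_of_cont (integrand_cont S 0 (hT hy) hvΛ)).const_mul _
  have h4 : ∑ y ∈ T, P y * B S 0 y v = P v * (S.dim v : ℝ)⁻¹ := by
    rw [Finset.sum_eq_single v]
    · rw [B_zero S h1 hvΛ hvΛ, if_pos rfl]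
    · intro y hy hne
      rw [B_zero S h1 (hT hy) hvΛ, if_neg hne, mul_zero]
    · intro h
      exact absurd hmem h
  have h5 := dim_pos' S hvΛ
  rw [Q_eq, h3, h4, mul_comm (P v), ← mul_assoc, mul_inv_cancel₀ h5.ne', one_mul]
  exact hc

end Pool.Agent.MP_ba99b7_an.Heat
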