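import Mathlib.Topology.Sheaves.Presheaf
import Mathlib.Data.Int.Star
import Mathlib.Algebra.Order.Ring.Star
import Mathlib.Combinatorics.Matroid.Basic
import Mathlib.Algebra.Order.Star.Real
import Mathlib.MeasureTheory.Integral.Prod
import Mathlib.Topology.Metrizable.Urysohn
import Mathlib.Analysis.SpecialFunctions.Integrals.Basic
import Mathlib.Tactic.Polynomial.Basic
import Pool.Agent.MP_ba99b7_an.SpecAn

-- ======== part 0: formerly Pool.Agent.MP_ba99b7_an.Rk1aBase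
section MrgPart0

/-! PROJECT STRI, module RK1A: general lemmas. -/

namespace Pool.Agent.MP_ba99b7_an.Rk1a

open scoped ComplexConjugate ENNReal
open MeasureTheory Finset

lemma ee_zero : ee 0 = 1 := by simp [ee]

lemma ee_add (x y : ℝ) : ee (x + y) = ee x * ee y := by
  simp only [ee, ← Complex.exp_add]; congr 1; push_cast; ring

lemma norm_ee (x : ℝ) : ‖ee x‖ = 1 := by
  have : (2 * Real.pi * x * Complex.I : ℂ) = ((2 * Real.pi * x : ℝ) : ℂ) * Complex.I := by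
    push_cast; ring
  rw [ee, this, Complex.norm_exp_ofReal_mul_I]

lemma conj_ee (x : ℝ) : conj (ee x) = ee (-x) := by
  simp only [ee, ← Complex.exp_conj, map_mul, Complex.conj_ofReal, Complex.conj_I, map_ofNat]
  congr 1; push_cast; ring

lemma cont_ee : Continuous ee := by
  unfold ee; fun_prop

lemma int_ee (k : ℤ) : ∫ t in Set.Ioc (0 : ℝ) 1, ee (k * t) = if k = 0 then 1 else 0 := by
  split_ifs with hk
  · simp [hk, ee_zero]
  · rw [← intervalIntegral.integral_of_le zero_le_one]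
    have hc : (2 * Real.pi * k * Complex.I : ℂ) ≠ 0 := by
      have h1 : (Real.pi : ℂ) ≠ 0 := by exact_mod_cast Real.pi_ne_zero
      have h2 : (k : ℂ) ≠ 0 := by exact_mod_cast hk
      simp [h1, h2]
    have : (fun t : ℝ => ee (k * t)) = fun t : ℝ => Complex.exp ((2 * Real.pi * k * Complex.I) * t) := by
      funext t; simp only [ee]; congr 1; push_cast; ring
    rw [this, integral_exp_mul_complex hc]
    have h3 : Complex.exp (2 * Real.pi * k * Complex.I * ((1 : ℝ) : ℂ)) = 1 := by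
      have := Complex.exp_int_mul_two_pi_mul_I k
      rw [← this]; congr 1; push_cast; ring
    rw [h3]; simp

/-- Orthogonality in time with a bound on the multiplicity of the frequencies. -/
lemma time_orth {ι : Type} (I : Finset ι) (τ : ι → ℤ) (v : ι → ℂ) (R : ℝ)
    (hR : ∀ j ∈ I, ((I.filter fun j' => τ j' = τ j).card : ℝ) ≤ R) :
    ∫ t in Set.Ioc (0 : ℝ) 1, ‖∑ j ∈ I, ee (-(τ j * t)) * v j‖ ^ 2 ≤ R * ∑ j ∈ I, ‖v j‖ ^ 2 := by
  classical
  have h1 : ∀ t : ℝ, ((‖∑ j ∈ I, ee (-(τ j * t)) * v j‖ ^ 2 : ℝ) : ℂ)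
      = ∑ j ∈ I, ∑ j' ∈ I, ee (((τ j' - τ j : ℤ) : ℝ) * t) * (v j * conj (v j')) := by
    intro t
    rw [← Complex.normSq_eq_norm_sq, ← Complex.mul_conj, map_sum, Finset.sum_mul_sum]
    refine Finset.sum_congr rfl fun j _ => Finset.sum_congr rfl fun j' _ => ?_
    rw [map_mul, conj_ee]
    have : ee (((τ j' - τ j : ℤ) : ℝ) * t) = ee (-(τ j * t)) * ee (- -(τ j' * t)) := by
      rw [← ee_add]; congr 1; push_cast; ring
    rw [this]; ring
  have hi : ∀ (k : ℤ) (w : ℂ), Integrable (fun t : ℝ => ee (k * t) * w)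
      (volume.restrict (Set.Ioc (0 : ℝ) 1)) := by
    intro k w
    have : Continuous fun t : ℝ => ee (k * t) * w :=
      (cont_ee.comp (by fun_prop)).mul continuous_const
    exact (this.integrableOn_Icc (a := 0) (b := 1)).mono_set Set.Ioc_subset_Icc_self
  have h2 : ((∫ t in Set.Ioc (0 : ℝ) 1, ‖∑ j ∈ I, ee (-(τ j * t)) * v j‖ ^ 2 : ℝ) : ℂ)
      = ∑ j ∈ I, ∑ j' ∈ I, (if τ j' = τ j then v j * conj (v j') else 0) := by
    rw [← integral_complex_ofReal]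
    simp_rw [h1]
    rw [integral_finsetSum _ fun j _ => integrable_finsetSum _ fun j' _ => hi _ _]
    refine Finset.sum_congr rfl fun j _ => ?_
    rw [integral_finsetSum _ fun j' _ => hi _ _]
    refine Finset.sum_congr rfl fun j' _ => ?_
    rw [integral_mul_const, int_ee]
    simp [sub_eq_zero]
  have h3 : ∫ t in Set.Ioc (0 : ℝ) 1, ‖∑ j ∈ I, ee (-(τ j * t)) * v j‖ ^ 2
      ≤ ∑ j ∈ I, ∑ j' ∈ I, (if τ j' = τ j then (‖v j‖ ^ 2 + ‖v j'‖ ^ 2) / 2 else 0) := by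
    refine le_trans (le_abs_self _) ?_
    rw [← Real.norm_eq_abs, ← Complex.norm_real, h2]
    refine (norm_sum_le _ _).trans (Finset.sum_le_sum fun j _ => ?_)
    refine (norm_sum_le _ _).trans (Finset.sum_le_sum fun j' _ => ?_)
    split_ifs
    · rw [norm_mul, Complex.norm_conj]; nlinarith [sq_nonneg (‖v j‖ - ‖v j'‖)]
    · simp
  refine h3.trans ?_
  have h4 : ∑ j ∈ I, ∑ j' ∈ I, (if τ j' = τ j then ‖v j‖ ^ 2 / 2 else 0)
      ≤ R * ∑ j ∈ I, ‖v j‖ ^ 2 / 2 := by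
    rw [Finset.mul_sum]
    refine Finset.sum_le_sum fun j hj => ?_
    rw [← Finset.sum_filter, Finset.sum_const, nsmul_eq_mul]
    exact mul_le_mul_of_nonneg_right (hR j hj) (by positivity)
  have h5 : ∑ j ∈ I, ∑ j' ∈ I, (if τ j' = τ j then ‖v j'‖ ^ 2 / 2 else 0)
      = ∑ j ∈ I, ∑ j' ∈ I, (if τ j' = τ j then ‖v j‖ ^ 2 / 2 else 0) := by
    rw [Finset.sum_comm]
    refine Finset.sum_congr rfl fun j _ => Finset.sum_congr rfl fun j' _ => ?_
    simp only [eq_comm]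
  have h6 : ∑ j ∈ I, ∑ j' ∈ I, (if τ j' = τ j then (‖v j‖ ^ 2 + ‖v j'‖ ^ 2) / 2 else 0)
      = ∑ j ∈ I, ∑ j' ∈ I, (if τ j' = τ j then ‖v j‖ ^ 2 / 2 else 0)
        + ∑ j ∈ I, ∑ j' ∈ I, (if τ j' = τ j then ‖v j'‖ ^ 2 / 2 else 0) := by
    rw [← Finset.sum_add_distrib]
    refine Finset.sum_congr rfl fun j _ => ?_
    rw [← Finset.sum_add_distrib]
    refine Finset.sum_congr rfl fun j' _ => ?_
    split_ifs <;> ring
  rw [h6, h5]
  rw [← Finset.sum_div] at h4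
  linarith

/-- Pointwise dyadic layer bound. -/
lemma layer_pt (s F : ℝ) (hF : 0 ≤ F) (K : ℕ) (h : F ≤ 2 ^ K * s) :
    F ^ 6 ≤ s ^ 6 + ∑ k ∈ Finset.range K, (if 2 ^ k * s < F then 64 * (2 ^ k * s) ^ 6 else 0) := by
  induction K with
  | zero =>
    simp only [pow_zero, one_mul] at h
    simpa using pow_le_pow_left₀ hF h 6
  | succ K ih =>
    rw [Finset.sum_range_succ]
    have hn : 0 ≤ ∑ k ∈ Finset.range K, (if 2 ^ k * s < F then 64 * (2 ^ k * s) ^ 6 else 0) :=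
      Finset.sum_nonneg fun k _ => by split_ifs <;> positivity
    by_cases hc : 2 ^ K * s < F
    · rw [if_pos hc]
      have : F ^ 6 ≤ (2 ^ (K + 1) * s) ^ 6 := pow_le_pow_left₀ hF h 6
      have h2 : (2 ^ (K + 1) * s) ^ 6 = 64 * (2 ^ K * s) ^ 6 := by ring
      have : 0 ≤ s ^ 6 := by positivity
      linarith
    · rw [if_neg hc]
      simpa using ih (not_lt.1 hc)

/-- From weak type to strong type with a logarithmic loss. -/
lemma layer {X : Type} [MeasurableSpace X] (m : Measure X) [IsProbabilityMeasure m] (F : X → ℝ)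
    (hm : Measurable F) (s W : ℝ) (hs : 0 ≤ s) (hW : 0 ≤ W) (hF : ∀ x, 0 ≤ F x) (K : ℕ)
    (h : ∀ x, F x ≤ 2 ^ K * s) (hw : ∀ α : ℝ, 0 < α → α ^ 6 * m.real {x | α < F x} ≤ W) :
    ∫ x, F x ^ 6 ∂m ≤ s ^ 6 + K * (64 * W) := by
  have hms : ∀ k : ℕ, MeasurableSet {x | 2 ^ k * s < F x} := fun k =>
    measurableSet_lt measurable_const hm
  have hi : ∀ k : ℕ, Integrable
      (fun x => ({x | 2 ^ k * s < F x} : Set X).indicator (fun _ => 64 * (2 ^ k * s) ^ 6) x) m :=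
    fun k => (integrable_const _).indicator (hms k)
  have h1 : ∫ x, F x ^ 6 ∂m ≤ ∫ x, (s ^ 6 + ∑ k ∈ Finset.range K,
      ({x | 2 ^ k * s < F x} : Set X).indicator (fun _ => 64 * (2 ^ k * s) ^ 6) x) ∂m := by
    refine integral_mono_of_nonneg (Filter.Eventually.of_forall fun x => pow_nonneg (hF x) 6)
      ((integrable_const _).add (integrable_finsetSum _ fun k _ => hi k))
      (Filter.Eventually.of_forall fun x => ?_)
    have := layer_pt s (F x) (hF x) K (h x)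
    simpa only [Set.indicator, Set.mem_ofPred_eq] using this
  refine h1.trans ?_
  rw [integral_add (integrable_const _) (integrable_finsetSum _ fun k _ => hi k),
    integral_finsetSum _ fun k _ => hi k]
  simp only [integral_const, probReal_univ, one_smul]
  have h2 : ∀ k ∈ Finset.range K, ∫ x, ({x | 2 ^ k * s < F x} : Set X).indicator
      (fun _ => 64 * (2 ^ k * s) ^ 6) x ∂m ≤ 64 * W := by
    intro k _
    rw [integral_indicator_const _ (hms k), smul_eq_mul]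
    rcases hs.eq_or_lt with h0 | h0
    · subst h0; simp; positivity
    · have := hw (2 ^ k * s) (by positivity)
      linarith
  have := Finset.sum_le_sum h2
  simp only [Finset.sum_const, Finset.card_range, nsmul_eq_mul] at this
  linarith

/-- The power mean inequality for cubes. -/
lemma jensen3 {ι : Type} (I : Finset ι) (s z : ι → ℝ) (hs : ∀ i ∈ I, 0 ≤ s i)
    (hz : ∀ i ∈ I, 0 ≤ z i) :
    (∑ i ∈ I, s i * z i) ^ 3 ≤ (∑ i ∈ I, s i) ^ 2 * ∑ i ∈ I, s i * z i ^ 3 := by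
  rcases (Finset.sum_nonneg hs).eq_or_lt with h0 | h0
  · have : ∀ i ∈ I, s i = 0 := (Finset.sum_eq_zero_iff_of_nonneg hs).1 h0.symm
    rw [Finset.sum_eq_zero fun i hi => by rw [this i hi, zero_mul], ← h0]
    simp
  · set S := ∑ i ∈ I, s i with hS
    have h := Real.pow_arith_mean_le_arith_mean_pow I (fun i => s i / S) z
      (fun i hi => div_nonneg (hs i hi) h0.le) (by rw [← Finset.sum_div]; exact div_self h0.ne') hz 3
    have e1 : ∑ i ∈ I, s i / S * z i = (∑ i ∈ I, s i * z i) / S := by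
      rw [Finset.sum_div]; exact Finset.sum_congr rfl fun i _ => by ring
    have e2 : ∑ i ∈ I, s i / S * z i ^ 3 = (∑ i ∈ I, s i * z i ^ 3) / S := by
      rw [Finset.sum_div]; exact Finset.sum_congr rfl fun i _ => by ring
    rw [e1, e2, div_pow, div_le_div_iff₀ (by positivity) h0] at h
    have : (∑ i ∈ I, s i * z i) ^ 3 * S ≤ (S ^ 2 * ∑ i ∈ I, s i * z i ^ 3) * S := by
      refine h.trans (le_of_eq ?_); ring
    exact le_of_mul_le_mul_right this h0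

/-- Polynomials in `κ` are smaller than small powers of `2 ^ κ`. -/
lemma lin_le (ε : ℝ) (hε : 0 < ε) : ∃ C : ℝ, 0 < C ∧ ∀ κ : ℕ,
    (1 + κ : ℝ) ≤ C * ((2 : ℝ) ^ κ) ^ ε := by
  have hl : 0 < Real.log 2 := Real.log_pos one_lt_two
  refine ⟨1 + 1 / (ε * Real.log 2), by positivity, fun κ => ?_⟩
  have h1 : ((2 : ℝ) ^ κ) ^ ε = Real.exp (κ * (ε * Real.log 2)) := by
    rw [Real.rpow_def_of_pos (by positivity), Real.log_pow]; congr 1; ring
  rw [h1]
  have h2 := Real.add_one_le_exp (κ * (ε * Real.log 2))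
  have h3 : 0 ≤ (κ : ℝ) * (ε * Real.log 2) := by positivity
  set c := ε * Real.log 2 with hc
  have hc0 : 0 < c := by positivity
  have h4 : (κ : ℝ) ≤ 1 / c * Real.exp (κ * c) := by
    rw [one_div, ← div_eq_inv_mul, le_div_iff₀ hc0]; linarith
  nlinarith

end Pool.Agent.MP_ba99b7_an.Rk1a

end MrgPart0

-- ======== part 1: formerly Pool.Agent.MP_ba99b7_an.Rk1aEig
section MrgPart1

/-! PROJECT STRI, module RK1A: the eigenfunction bound in rank one. -/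

namespace Pool.Agent.MP_ba99b7_an.Rk1a

open scoped ComplexConjugate ENNReal
open MeasureTheory Finset

variable {G : Type} [Group G] [TopologicalSpace G] [MeasurableSpace G] {μ : Measure G}

lemma fs_single (v : ℂ) (t : ℝ) : fs (fun k => if k = 0 then v else 0) t = v := by
  rw [fs, tsum_eq_single 0]
  · simp [ee_zero]
  · intro k hk; simp [hk]

lemma sup_bd {r : ℕ} (O : Orth μ r) {n : Fin r → ℕ} (hn : n ∈ O.Λ) (a : Fin (O.dim n) → ℂ)
    (x : G) : ‖∑ i, a i * O.bas n i x‖ ≤ √(O.dim n) * √(∑ i, ‖a i‖ ^ 2) := by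
  have h1 : ∑ i, ‖O.bas n i x‖ ^ 2 = O.dim n := by
    have h := O.repr n hn x x
    rw [mul_inv_cancel, O.φ_one n hn, mul_one] at h
    simp_rw [Complex.mul_conj, Complex.normSq_eq_norm_sq] at h
    exact_mod_cast h
  calc ‖∑ i, a i * O.bas n i x‖ ≤ ∑ i, ‖a i‖ * ‖O.bas n i x‖ := by
        refine (norm_sum_le _ _).trans (le_of_eq ?_); simp
    _ ≤ √(∑ i, ‖a i‖ ^ 2) * √(∑ i, ‖O.bas n i x‖ ^ 2) := Real.sum_mul_le_sqrt_mul_sqrt _ _ _
    _ = _ := by rw [h1, mul_comm]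

lemma multbd (hW : WalkStmt) [TG G] [BiH μ] {r d : ℕ} (S : Sph μ r d) {n : Fin r → ℕ}
    (hn : n ∈ S.Λ) (m1 m2 : Fin r → ℕ) (c b : ℝ) (hc0 : 0 ≤ c) (hc1 : c ≤ 1) (hb : 0 ≤ b)
    (h1 : ∀ y ∈ S.Λ, S.Q m1 y n ≤ b) (h2 : ∀ y ∈ S.Λ, S.Q m2 y n ≤ b) :
    S.MultBd (fun _ g => (S.dim n * S.φ n g) * ((S.Ψ m1 g - c * S.Ψ m2 g : ℝ) : ℂ)) b := by
  classical
  obtain ⟨hA1, hs1, hp1, -⟩ := hW G μ r d S m1
  obtain ⟨hA2, hs2, hp2, -⟩ := hW G μ r d S m2
  obtain ⟨T1, hT1, -, e1⟩ := hA1 n hn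
  obtain ⟨T2, hT2, -, e2⟩ := hA2 n hn
  have hT : (↑(T1 ∪ T2) : Set (Fin r → ℕ)) ⊆ S.Λ := by
    rw [Finset.coe_union]; exact Set.union_subset hT1 hT2
  refine ⟨T1 ∪ T2, fun y k => if k = 0 then ((S.Q m1 y n - c * S.Q m2 y n : ℝ) : ℂ) else 0,
    hT, fun y _ => ?_, fun y hy k => ?_, fun t g => ?_⟩
  · refine summable_of_ne_finset_zero (s := {0}) fun k hk => ?_
    simp only [Finset.mem_singleton] at hk
    simp [hk]
  · have hy' := hT hy
    have a1 := hp1 y hy' n hn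
    have a2 := hp2 y hy' n hn
    have a3 := h1 y hy'
    have a4 := h2 y hy'
    dsimp only
    split_ifs
    · rw [Complex.norm_real, Real.norm_eq_abs, abs_le]
      constructor <;> nlinarith
    · simpa using hb
  · have f1 := e1 _ hT Finset.subset_union_left g
    have f2 := e2 _ hT Finset.subset_union_right g
    simp_rw [fs_single]
    have : (S.dim n * S.φ n g : ℂ) * ((S.Ψ m1 g - c * S.Ψ m2 g : ℝ) : ℂ)
        = S.dim n * ((S.Ψ m1 g : ℂ) * S.φ n g) - c * (S.dim n * ((S.Ψ m2 g : ℂ) * S.φ n g)) := by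
      push_cast; ring
    rw [this, f1, f2, Finset.mul_sum, Finset.mul_sum, Finset.mul_sum, ← Finset.sum_sub_distrib]
    refine Finset.sum_congr rfl fun y hy => ?_
    have g1 : ((S.dim n : ℂ)) * (S.Q m1 n y : ℂ) = S.dim y * (S.Q m1 y n : ℂ) := by
      exact_mod_cast hs1 n hn y (hT hy)
    have g2 : ((S.dim n : ℂ)) * (S.Q m2 n y : ℂ) = S.dim y * (S.Q m2 y n : ℂ) := by
      exact_mod_cast hs2 n hn y (hT hy)
    push_cast
    linear_combination S.φ y g * g1 - c * S.φ y g * g2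

/-- The cut-off pieces. -/
noncomputable def pc (L l : ℕ) (x : ℝ) : ℝ :=
  x ^ (2 ^ l - 1) - (if l < L then 1 else 0) * x ^ (2 ^ min (l + 1) L - 1)

lemma pc_sum (L : ℕ) (x : ℝ) : ∑ l ∈ Finset.range (L + 1), pc L l x = 1 := by
  rw [Finset.sum_range_succ]
  have : ∑ l ∈ Finset.range L, pc L l x
      = ∑ l ∈ Finset.range L, (x ^ (2 ^ l - 1) - x ^ (2 ^ (l + 1) - 1)) := by
    refine Finset.sum_congr rfl fun l hl => ?_
    have hl' := Finset.mem_range.1 hl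
    rw [pc, if_pos hl', min_eq_left hl', one_mul]
  rw [this, Finset.sum_range_sub' (fun l => x ^ (2 ^ l - 1))]
  simp [pc]

lemma pc_bd (L l : ℕ) (x : ℝ) (h0 : 0 ≤ x) (h1 : x ≤ 1) :
    0 ≤ pc L l x ∧ pc L l x ≤ 1 ∧ (l < L → pc L l x ≤ 2 ^ l * (1 - x)) := by
  have a0 : 0 ≤ x ^ (2 ^ l - 1) := pow_nonneg h0 _
  have a1 : x ^ (2 ^ l - 1) ≤ 1 := pow_le_one₀ h0 h1
  by_cases hl : l < L
  · have e : pc L l x = x ^ (2 ^ l - 1) * (1 - x ^ 2 ^ l) := by
      rw [pc, if_pos hl, min_eq_left hl, one_mul, mul_sub, mul_one, ← pow_add]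
      congr 2
      have : 1 ≤ 2 ^ l := Nat.one_le_two_pow
      rw [pow_succ]; omega
    have b0 : 0 ≤ x ^ 2 ^ l := pow_nonneg h0 _
    have b1 : x ^ 2 ^ l ≤ 1 := pow_le_one₀ h0 h1
    have b2 : 1 - x ^ 2 ^ l ≤ 2 ^ l * (1 - x) := by
      have := one_add_mul_le_pow (a := x - 1) (by linarith) (2 ^ l)
      push_cast at this
      simp only [add_sub_cancel] at this
      linarith
    rw [e]
    refine ⟨by nlinarith, by nlinarith, fun _ => by nlinarith⟩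
  · have e : pc L l x = x ^ (2 ^ l - 1) := by rw [pc, if_neg hl]; ring
    rw [e]
    exact ⟨a0, a1, fun h => absurd h hl⟩

lemma pt_bd (p y n N M : ℝ) (hp : 0 ≤ p) (hp1 : p ≤ 1) (hy : 0 ≤ y) (hn : 0 ≤ n)
    (hN : 1 + n ≤ N) (hM : 1 ≤ M) (h : p ≤ M * y ∨ N ^ 2 ≤ M) :
    (1 + n) * (1 + n ^ 2 * y) ^ (-(1 / 4) : ℝ) * p ≤ 2 * √N * √(√M) := by
  have hq : 0 < 1 + n ^ 2 * y := by positivity
  have hN0 : 0 ≤ N := by linarith
  refine le_of_pow_le_pow_left₀ (n := 4) (by norm_num) (by positivity) ?_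
  have e1 : ((1 + n ^ 2 * y) ^ (-(1 / 4) : ℝ)) ^ 4 = (1 + n ^ 2 * y)⁻¹ := by
    rw [← Real.rpow_natCast, ← Real.rpow_mul hq.le, ← Real.rpow_neg_one]; norm_num
  have e2 : √N ^ 4 = N ^ 2 := by
    rw [show √N ^ 4 = (√N ^ 2) ^ 2 by ring, Real.sq_sqrt hN0]
  have e3 : √(√M) ^ 4 = M := by
    rw [show √(√M) ^ 4 = (√(√M) ^ 2) ^ 2 by ring, Real.sq_sqrt (Real.sqrt_nonneg _),
      Real.sq_sqrt (by linarith)]
  rw [mul_pow, mul_pow, mul_pow, mul_pow, e1, e2, e3]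
  have h4 : p ^ 4 ≤ p := by
    have : p ^ 3 ≤ 1 := pow_le_one₀ hp hp1
    nlinarith
  have h5 : (1 + n) ^ 2 ≤ N ^ 2 := pow_le_pow_left₀ (by positivity) hN 2
  have h6 : (1 + n) ^ 2 * p ^ 4 ≤ 16 * M * (1 + n ^ 2 * y) := by
    have hny : 0 ≤ n ^ 2 * y := by positivity
    rcases h with h | h
    · have b1 : (1 + n) ^ 2 ≤ 2 + 2 * n ^ 2 := by nlinarith [sq_nonneg (n - 1)]
      have b2 : (1 + n) ^ 2 * p ^ 4 ≤ (2 + 2 * n ^ 2) * p :=
        mul_le_mul b1 h4 (by positivity) (by positivity)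
      have b3 : n ^ 2 * p ≤ n ^ 2 * (M * y) := mul_le_mul_of_nonneg_left h (by positivity)
      nlinarith
    · have b2 : (1 + n) ^ 2 * p ^ 4 ≤ M * 1 :=
        mul_le_mul (h5.trans h) (h4.trans hp1) (by positivity) (by linarith)
      nlinarith
  have : (1 + n) ^ 4 * (1 + n ^ 2 * y)⁻¹ * p ^ 4
      = (1 + n) ^ 2 * ((1 + n) ^ 2 * p ^ 4 / (1 + n ^ 2 * y)) := by
    field_simp
  rw [this]
  have h7 : (1 + n) ^ 2 * p ^ 4 / (1 + n ^ 2 * y) ≤ 16 * M := by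
    rw [div_le_iff₀ hq]; exact h6
  calc _ ≤ N ^ 2 * (16 * M) := mul_le_mul h5 h7 (by positivity) (by positivity)
    _ = _ := by ring

lemma Psi_one {d : ℕ} (S : Sph μ 1 d) (M : ℕ) (g : G) : S.Ψ (fun _ => M) g = S.ψ 0 g ^ M := by
  simp [Sph.Ψ]

lemma Mb_one {d : ℕ} (S : Sph μ 1 d) (M : ℕ) : S.Mb (fun _ => M) 0 = M := by
  have : (Finset.univ.filter fun i : Fin 1 => S.blk i = S.blk 0) = {0} := by
    ext i; simp [Subsingleton.elim i 0]
  rw [Sph.Mb, this, Finset.sum_singleton]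

lemma Cd_nonneg {d : ℕ} (S : Sph μ 1 d) {n : Fin 1 → ℕ} (hn : n ∈ S.Λ) : 0 ≤ S.Cd := by
  have h := S.rk1 rfl n hn 0 1
  rw [S.ψ_one, S.φ_one n hn] at h
  simp at h
  linarith

/-- The weak type bound for an eigenfunction. -/
lemma eig_weak (h2 : WeakStmt) (h3 : WalkStmt) (h4 : HeatStmt) [TG G] [BiH μ] {d : ℕ}
    (S : Sph μ 1 d) (ε : ℝ) (hε : 0 < ε) : ∃ C : ℝ, 0 ≤ C ∧ ∀ κ : ℕ, ∀ n ∈ S.Λ,
      1 + n 0 ≤ 2 ^ κ → ∀ (a : Fin (S.dim n) → ℂ) (α : ℝ), 0 < α →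
      α ^ 6 * μ.real {x | α < ‖∑ i, a i * S.bas n i x‖}
        ≤ C * (1 + κ) ^ 3 * ((2 : ℝ) ^ κ) ^ (2 * (d : ℝ) - 3 + ε) * (∑ i, ‖a i‖ ^ 2) ^ 3 := by
  classical
  obtain ⟨C, hC⟩ := h4 G μ 1 d S ε 0 hε
  refine ⟨256 * S.Cd ^ 4 * |C|, by positivity, fun κ n hn hκ a α hα => ?_⟩
  have hCd := Cd_nonneg S hn
  set N : ℝ := 2 ^ κ with hN
  have hN1 : 1 ≤ N := one_le_pow₀ one_le_two
  have hκ' : (1 + n 0 : ℝ) ≤ N := by rw [hN]; exact_mod_cast hκ
  have hd : 2 ≤ d := by simpa using S.two_r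
  set L := 2 * κ with hL
  let A : Fin (L + 1) → ℝ := fun l => S.Cd ^ 2 * N ^ (d - 2) * (2 * √N * √(√(2 ^ (l : ℕ))))
  let B : Fin (L + 1) → ℝ := fun l => |C| * N ^ ε / √(2 ^ (l : ℕ))
  let W : ℝ := 4 * S.Cd ^ 4 * |C| * N ^ (2 * (d : ℝ) - 3 + ε)
  have hW0 : 0 ≤ W := by positivity
  have hQ : ∀ l l' : ℕ, l ≤ l' → l' ≤ L → ∀ y ∈ S.Λ,
      S.Q (fun _ => 2 ^ l' - 1) y n ≤ |C| * N ^ ε / √(2 ^ l) := by
    intro l l' hl hl' y hy
    have h := (hC (2 ^ κ) Nat.one_le_two_pow (fun _ => 2 ^ l' - 1) (fun _ => ?_) n hn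
      (fun j => ?_) y hy).1
    · rw [Fin.prod_univ_one, Mb_one] at h
      have e1 : (1 + ((2 ^ l' - 1 : ℕ) : ℝ)) = 2 ^ l' := by
        rw [Nat.cast_sub Nat.one_le_two_pow]; push_cast; ring
      rw [e1, Real.rpow_neg (by positivity), ← Real.sqrt_eq_rpow] at h
      push_cast at h
      refine h.trans ?_
      rw [div_eq_mul_inv]
      refine mul_le_mul (mul_le_mul_of_nonneg_right (le_abs_self C) (by positivity)) ?_
        (by positivity) (by positivity)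
      exact inv_anti₀ (by positivity) (Real.sqrt_le_sqrt (pow_le_pow_right₀ one_le_two hl))
    · have : 2 ^ l' ≤ 2 ^ L := Nat.pow_le_pow_right two_pos hl'
      rw [← pow_mul, mul_comm κ 2, ← hL]; exact (Nat.sub_le _ _).trans this
    · rw [Subsingleton.elim j 0]; omega
  have hAB : ∀ l, A l ^ (1 - (1 / 3 : ℝ)) * B l ^ (1 / 3 : ℝ) = W ^ (1 / 3 : ℝ) := by
    intro l
    have hA : 0 ≤ A l := by positivity
    have hB : 0 ≤ B l := by positivity
    have e1 : A l ^ (1 - (1 / 3 : ℝ)) = (A l ^ 2) ^ (1 / 3 : ℝ) := by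
      rw [← Real.rpow_natCast, ← Real.rpow_mul hA]; norm_num
    rw [e1, ← Real.mul_rpow (by positivity) hB]
    congr 1
    have e2 : N ^ (2 * (d : ℝ) - 3 + ε) = (N ^ (d - 2)) ^ 2 * N * N ^ ε := by
      rw [Real.rpow_add (by positivity), ← pow_mul, ← pow_succ, ← Real.rpow_natCast]
      congr 2
      push_cast [Nat.cast_sub hd]; ring
    have hs : 0 < √((2 : ℝ) ^ (l : ℕ)) := by positivity
    simp only [A, B, W, mul_pow, Real.sq_sqrt hs.le, Real.sq_sqrt (zero_le_one.trans hN1), e2]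
    field_simp
    ring
  have hw := h2 G μ 1 S.toOrth (1 / 3) (by norm_num) (by norm_num) {n} {n} (fun _ => 0)
    (fun _ => 1) (by simpa using hn) subset_rfl (by simp) (by simp) (Fin (L + 1))
    (fun l _ g => (S.dim n * S.φ n g) * ((pc L l (S.ψ 0 g) : ℝ) : ℂ)) (fun _ _ => 0) A B 0
    ((L + 1) * W ^ (1 / 3 : ℝ)) (fun t g => ?_) (fun l _ g => ?_) (fun l => by positivity)
    (fun l => ?_) (by simp) (by simp only [hAB]; simp) (Function.update 0 n a) α hα (by simpa using by positivity)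
  · have e1 : {z : ℝ × G | α < ‖S.toOrth.u {n} (fun _ => 0) (Function.update 0 n a) z‖}
        = Set.univ ×ˢ {x | α < ‖∑ i, a i * S.bas n i x‖} := by
      ext z; simp [Orth.u, ee_zero]
    have e2 : S.toOrth.nsq {n} (Function.update 0 n a) = ∑ i, ‖a i‖ ^ 2 := by simp [Orth.nsq]
    rw [e1, e2, mm, measureReal_prod_prod] at hw
    simp only [measureReal_restrict_apply_univ, Real.volume_real_Ioc, sub_zero,
      max_eq_left zero_le_one, one_mul] at hw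
    have h3 := pow_le_pow_left₀ (by positivity) hw 3
    have e3 : ∀ x : ℝ, 0 ≤ x → (x ^ (1 / 3 : ℝ)) ^ 3 = x := by
      intro x hx
      rw [← Real.rpow_natCast, ← Real.rpow_mul hx]; norm_num
    rw [mul_pow, mul_pow, mul_pow, mul_pow, e3 _ measureReal_nonneg, e3 _ hW0, ← pow_mul] at h3
    refine h3.trans ?_
    have h5 : ((L : ℝ) + 1) ^ 3 ≤ (2 * (1 + κ)) ^ 3 := by
      refine pow_le_pow_left₀ (by positivity) ?_ 3
      rw [hL]; push_cast; linarith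
    have h6 : 0 ≤ (∑ i, ‖a i‖ ^ 2) ^ 3 := by positivity
    calc _ ≤ 2 ^ 3 * ((2 * (1 + κ)) ^ 3 * W) * (∑ i, ‖a i‖ ^ 2) ^ 3 := by gcongr
      _ = _ := by simp only [W]; ring
  · rw [add_zero, ← Finset.mul_sum, ← Complex.ofReal_sum,
      Fin.sum_univ_eq_sum_range (fun l => pc L l (S.ψ 0 g)), pc_sum]
    simp [Orth.ker, ee_zero]
  · obtain ⟨p0, p1, p2⟩ := pc_bd L l (S.ψ 0 g) (S.ψ_nonneg 0 g) (S.ψ_le 0 g)
    have hdim := S.dim_le n hn N (fun j => by rw [Subsingleton.elim j 0]; exact hκ') hN1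
    rw [Fin.prod_univ_one, mul_one] at hdim
    have hφ := S.rk1 rfl n hn 0 g
    have hy : 0 ≤ 1 - S.ψ 0 g := by linarith [S.ψ_le 0 g]
    have hpt := pt_bd (pc L l (S.ψ 0 g)) (1 - S.ψ 0 g) (n 0) N (2 ^ (l : ℕ)) p0 p1 hy
      (by positivity) hκ' (one_le_pow₀ one_le_two) (by
        by_cases hl : (l : ℕ) < L
        · exact Or.inl (p2 hl)
        · right
          have : (l : ℕ) = L := by have := l.2; omega
          rw [this, hN, ← pow_mul, mul_comm κ 2])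
    rw [norm_mul, norm_mul, Complex.norm_real, Real.norm_eq_abs, abs_of_nonneg p0,
      Complex.norm_natCast]
    calc _ ≤ (S.Cd * N ^ (d - 2) * (1 + n 0)) * (S.Cd * (1 + (n 0 : ℝ) ^ 2 * (1 - S.ψ 0 g))
          ^ (-(1 / 4) : ℝ)) * pc L l (S.ψ 0 g) := by gcongr
      _ = S.Cd ^ 2 * N ^ (d - 2) * ((1 + n 0) * (1 + (n 0 : ℝ) ^ 2 * (1 - S.ψ 0 g))
          ^ (-(1 / 4) : ℝ) * pc L l (S.ψ 0 g)) := by ring
      _ ≤ _ := mul_le_mul_of_nonneg_left hpt (by positivity)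
  · have hl : (l : ℕ) ≤ L := by have := l.2; omega
    have := multbd h3 S hn (fun _ => 2 ^ (l : ℕ) - 1) (fun _ => 2 ^ min ((l : ℕ) + 1) L - 1)
      (if (l : ℕ) < L then 1 else 0) (B l) (by split_ifs <;> norm_num)
      (by split_ifs <;> norm_num) (by positivity) (hQ l l le_rfl hl)
      (hQ l _ (le_min (Nat.le_succ _) hl) (min_le_right _ _))
    simpa only [Psi_one, pc] using this

end Pool.Agent.MP_ba99b7_an.Rk1a

namespace Pool.Agent.MP_ba99b7_an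

open MeasureTheory Rk1a

theorem eig_of (h2 : WeakStmt) (h3 : WalkStmt) (h4 : HeatStmt) : EigStmt := by
  intro G _ _ _ _ μ _ d S ε hε
  obtain ⟨C, hC0, hC⟩ := eig_weak h2 h3 h4 S (ε / 5) (by positivity)
  obtain ⟨C1, hC1, hlin⟩ := lin_le (ε / 5) (by positivity)
  obtain ⟨K0, hK0⟩ := pow_unbounded_of_one_lt S.Cd (one_lt_two (α := ℝ))
  have hd : 2 ≤ d := by simpa using S.two_r
  have hd' : (2 : ℝ) ≤ d := by exact_mod_cast hd
  refine ⟨1 + (K0 + d) * 64 * C * C1 ^ 4 * 2 ^ (2 * (d : ℝ) - 3 + ε), fun N hN n hn hnN a => ?_⟩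
  set κ := Nat.log 2 N + 1 with hκ
  have k1 : N < 2 ^ κ := Nat.lt_pow_succ_log_self one_lt_two N
  have k2 : 2 ^ κ ≤ 2 * N := by
    have := Nat.pow_log_le_self 2 (x := N) (by omega)
    rw [hκ, pow_succ]; omega
  set M : ℝ := 2 ^ κ with hM
  have hM1 : 1 ≤ M := one_le_pow₀ one_le_two
  have hM2 : M ≤ 2 * N := by rw [hM]; exact_mod_cast k2
  have hnM : (1 + n 0 : ℝ) ≤ M := by
    rw [hM]; exact_mod_cast (by omega : 1 + n 0 ≤ 2 ^ κ)
  have hN1 : (1 : ℝ) ≤ N := by exact_mod_cast hN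
  set q := ∑ i, ‖a i‖ ^ 2 with hq
  have hq0 : 0 ≤ q := by positivity
  have hcont : Continuous fun x => ‖∑ i, a i * S.bas n i x‖ :=
    (continuous_finsetSum _ fun i _ => continuous_const.mul (S.bas_cont n hn i)).norm
  have hdim : √(S.dim n) ≤ (2 : ℝ) ^ (K0 + κ * d) := by
    have a1 : (1 : ℝ) ≤ S.dim n := by exact_mod_cast S.dim_pos n hn
    have a2 : √(S.dim n) ≤ (S.dim n : ℝ) := by
      rw [Real.sqrt_le_left (by positivity)]; nlinarith
    have a3 := S.dim_le n hn M (fun j => by rw [Subsingleton.elim j 0]; exact hnM) hM1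
    rw [Fin.prod_univ_one, mul_one] at a3
    have a4 : M ^ (d - 2) * M ≤ M ^ d := by
      rw [← pow_succ]; exact pow_le_pow_right₀ hM1 (by omega)
    have hCd := Cd_nonneg S hn
    calc _ ≤ S.Cd * M ^ (d - 2) * (1 + n 0) := a2.trans a3
      _ ≤ 2 ^ K0 * M ^ (d - 2) * M := by gcongr
      _ ≤ 2 ^ K0 * M ^ d := by rw [mul_assoc]; gcongr
      _ = _ := by rw [pow_add (2 : ℝ) K0, pow_mul]
  have hl := layer μ (fun x => ‖∑ i, a i * S.bas n i x‖) hcont.measurable (√q)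
    (C * (1 + κ) ^ 3 * M ^ (2 * (d : ℝ) - 3 + ε / 5) * q ^ 3) (Real.sqrt_nonneg _) (by positivity)
    (fun x => norm_nonneg _) (K0 + κ * d)
    (fun x => (sup_bd S.toOrth hn a x).trans
      (mul_le_mul_of_nonneg_right hdim (Real.sqrt_nonneg _)))
    (fun α hα => hC κ n hn (by omega) a α hα)
  refine hl.trans ?_
  have e1 : √q ^ 6 = q ^ 3 := by rw [show √q ^ 6 = (√q ^ 2) ^ 3 by ring, Real.sq_sqrt hq0]
  have e2 : (1 : ℝ) ≤ (N : ℝ) ^ (2 * (d : ℝ) - 3 + ε) := Real.one_le_rpow hN1 (by linarith)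
  have e3 : ((K0 + κ * d : ℕ) : ℝ) ≤ (K0 + d) * (1 + κ) := by
    push_cast
    have : (0 : ℝ) ≤ K0 * κ := by positivity
    nlinarith
  have e4 : (1 + κ : ℝ) ^ 4 ≤ (C1 * M ^ (ε / 5)) ^ 4 := pow_le_pow_left₀ (by positivity) (hlin κ) 4
  have e5 : (M ^ (ε / 5)) ^ 4 * M ^ (2 * (d : ℝ) - 3 + ε / 5) = M ^ (2 * (d : ℝ) - 3 + ε) := by
    rw [← Real.rpow_natCast, ← Real.rpow_mul (by positivity), ← Real.rpow_add (by positivity)]
    congr 1; push_cast; ring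
  have e6 : M ^ (2 * (d : ℝ) - 3 + ε) ≤ 2 ^ (2 * (d : ℝ) - 3 + ε) * (N : ℝ) ^ (2 * (d : ℝ) - 3 + ε) := by
    rw [← Real.mul_rpow (by norm_num) (by positivity)]
    exact Real.rpow_le_rpow (by positivity) hM2 (by linarith)
  have hq3 : 0 ≤ q ^ 3 := by positivity
  rw [e1]
  calc q ^ 3 + ((K0 + κ * d : ℕ) : ℝ) * (64 * (C * (1 + κ) ^ 3 * M ^ (2 * (d : ℝ) - 3 + ε / 5) * q ^ 3))
      ≤ q ^ 3 + (K0 + d) * (1 + κ) * (64 * (C * (1 + κ) ^ 3 * M ^ (2 * (d : ℝ) - 3 + ε / 5) * q ^ 3)) := by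
        gcongr
    _ = q ^ 3 + (K0 + d) * 64 * C * ((1 + κ) ^ 4 * M ^ (2 * (d : ℝ) - 3 + ε / 5)) * q ^ 3 := by ring
    _ ≤ q ^ 3 + (K0 + d) * 64 * C * ((C1 * M ^ (ε / 5)) ^ 4 * M ^ (2 * (d : ℝ) - 3 + ε / 5)) * q ^ 3 := by
        gcongr
    _ = q ^ 3 + (K0 + d) * 64 * C * C1 ^ 4 * M ^ (2 * (d : ℝ) - 3 + ε) * q ^ 3 := by
        rw [← e5]; ring
    _ ≤ (N : ℝ) ^ (2 * (d : ℝ) - 3 + ε) * q ^ 3 + (K0 + d) * 64 * C * C1 ^ 4
          * (2 ^ (2 * (d : ℝ) - 3 + ε) * (N : ℝ) ^ (2 * (d : ℝ) - 3 + ε)) * q ^ 3 := by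
        gcongr
        exact le_mul_of_one_le_left hq3 e2
    _ = _ := by ring

end Pool.Agent.MP_ba99b7_an

end MrgPart1

-- ======== part 2: formerly Pool.Agent.MP_ba99b7_an.Rk1a
section MrgPart2

/-! PROJECT STRI, module RK1A: the block estimate in rank one. -/

namespace Pool.Agent.MP_ba99b7_an.Rk1a

open scoped ComplexConjugate ENNReal
open MeasureTheory Finset

variable {G : Type} [Group G] [TopologicalSpace G] [MeasurableSpace G] {μ : Measure G}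

lemma P_one {d : ℕ} (S : Sph μ 1 d) (n : Fin 1 → ℕ) :
    S.P n = S.A 0 0 * (n 0 : ℤ) ^ 2 + S.bv 0 * n 0 := by
  simp [Sph.P, qf]; ring

lemma A_pos_one {d : ℕ} (S : Sph μ 1 d) : 0 < S.A 0 0 := by
  have h := S.A_pos (fun _ => 1) (by intro h; simpa using congrFun h 0)
  simpa using h

lemma box_lt {d : ℕ} (S : Sph μ 1 d) (γ : Fin 1 → ℕ) (κ : ℕ) {n : Fin 1 → ℕ}
    (hn : n ∈ S.box γ κ) : n 0 < (γ 0 + 1 + 2 * S.e) * 2 ^ κ := by
  obtain ⟨m, hm, rfl⟩ := Finset.mem_image.1 hn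
  have h1 := Finset.mem_range.1 (Fintype.mem_piFinset.1 hm 0)
  have h2 : 1 ≤ 2 ^ κ := Nat.one_le_two_pow
  have h3 : m 0 ≤ 2 * 2 ^ κ := by rw [pow_succ] at h1; omega
  simp only [Pi.add_apply, Pi.smul_apply, smul_eq_mul]
  nlinarith [Nat.mul_le_mul_left S.e h3, Nat.mul_le_mul_left (γ 0 + 1) h2]

lemma box_sub {r d : ℕ} (S : Sph μ r d) {γ : Fin r → ℕ} (hγ : γ ∈ S.Λ) (κ : ℕ) :
    (↑(S.box γ κ) : Set (Fin r → ℕ)) ⊆ S.Λ := by
  intro n hn
  obtain ⟨m, -, rfl⟩ := Finset.mem_image.1 hn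
  exact S.up γ hγ m

/-- The number of triples with a given sum of frequencies. -/
lemma count3 (h5 : ConicStmt) {d : ℕ} (S : Sph μ 1 d) (C0 : ℕ) (hb : S.bv 0 ≤ C0) (ε : ℝ)
    (hε : 0 < ε) : ∃ C : ℝ, 0 ≤ C ∧ ∀ N : ℕ, 1 ≤ N → ∀ T : Finset (Fin 1 → ℕ),
      (∀ n ∈ T, n 0 < C0 * N) → ∀ k : ℤ,
      (((T ×ˢ T ×ˢ T).filter fun j => S.P j.1 + S.P j.2.1 + S.P j.2.2 = k).card : ℝ)
        ≤ C * (N : ℝ) ^ (1 + ε) := by
  classical
  have hA := A_pos_one S
  obtain ⟨C, hC⟩ := h5 (S.A 0 0) 0 (S.A 0 0) hA (by nlinarith) C0 ε hε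
  refine ⟨C0 * |C|, by positivity, fun N hN T hT k => ?_⟩
  have hinj : Function.Injective fun n : Fin 1 → ℕ => n 0 := by
    intro n n' h; funext j; rw [Subsingleton.elim j 0]; exact h
  have hTc : T.card ≤ C0 * N := by
    rw [← Finset.card_range (C0 * N)]
    exact Finset.card_le_card_of_injOn (fun n => n 0)
      (fun n hn => Finset.mem_coe.2 (Finset.mem_range.2 (hT n hn))) hinj.injOn
  have hbv : |S.bv 0| ≤ C0 * N := by
    rw [abs_of_nonneg (S.bv_nonneg 0)]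
    have : (1 : ℤ) ≤ N := by exact_mod_cast hN
    have h0 : (0 : ℤ) ≤ C0 := by positivity
    nlinarith
  have h2 : ∀ k' : ℤ, (((T ×ˢ T).filter fun j => S.P j.1 + S.P j.2 = k').card : ℝ)
      ≤ |C| * (N : ℝ) ^ ε := by
    intro k'
    refine le_trans ?_ ((hC N hN (S.bv 0) (S.bv 0) k' hbv hbv).trans
      (mul_le_mul_of_nonneg_right (le_abs_self C) (by positivity)))
    refine Nat.cast_le.2 (Finset.card_le_card_of_injOn (fun j => (j.1 0, j.2 0)) ?_ ?_)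
    · intro j hj
      simp only [Finset.coe_filter, Finset.mem_product, Set.mem_ofPred_eq, Finset.mem_range] at hj ⊢
      refine ⟨⟨hT _ hj.1.1, hT _ hj.1.2⟩, ?_⟩
      have := hj.2
      rw [P_one, P_one] at this
      linarith
    · intro j _ j' _ h
      simp only [Prod.mk.injEq] at h
      exact Prod.ext (hinj h.1) (hinj h.2)
  have h3 : (((T ×ˢ T ×ˢ T).filter fun j => S.P j.1 + S.P j.2.1 + S.P j.2.2 = k).card : ℝ)
      = ∑ n ∈ T, (((T ×ˢ T).filter fun j => S.P j.1 + S.P j.2 = k - S.P n).card : ℝ) := by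
    rw [Finset.card_filter, Finset.sum_product]
    push_cast
    refine Finset.sum_congr rfl fun n _ => ?_
    rw [Finset.card_filter]
    push_cast
    refine Finset.sum_congr rfl fun j _ => ?_
    congr 1
    exact propext ⟨fun h => by linarith, fun h => by linarith⟩
  rw [h3]
  refine (Finset.sum_le_sum fun n _ => h2 _).trans ?_
  rw [Finset.sum_const, nsmul_eq_mul, Real.rpow_add (by positivity), Real.rpow_one]
  have : (T.card : ℝ) ≤ C0 * N := by exact_mod_cast hTc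
  calc _ ≤ (C0 * N) * (|C| * (N : ℝ) ^ ε) := by gcongr
    _ = _ := by ring

/-- The sixth moment in time of a trigonometric polynomial. -/
lemma time_six {ι : Type} (T : Finset ι) (τ : ι → ℤ) (v : ι → ℂ) (R : ℝ)
    (hR : ∀ k : ℤ, (((T ×ˢ T ×ˢ T).filter fun j => τ j.1 + τ j.2.1 + τ j.2.2 = k).card : ℝ) ≤ R) :
    ∫ t in Set.Ioc (0 : ℝ) 1, ‖∑ n ∈ T, ee (-(τ n * t)) * v n‖ ^ 6
      ≤ R * (∑ n ∈ T, ‖v n‖ ^ 2) ^ 3 := by
  have h := time_orth (T ×ˢ T ×ˢ T) (fun j => τ j.1 + τ j.2.1 + τ j.2.2)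
    (fun j => v j.1 * v j.2.1 * v j.2.2) R (fun j _ => hR _)
  have e0 : ∀ {M : Type} [CommSemiring M] (w : ι → M),
      (∑ n ∈ T, w n) ^ 3 = ∑ j ∈ T ×ˢ T ×ˢ T, w j.1 * w j.2.1 * w j.2.2 := by
    intro M _ w
    rw [Finset.sum_product, pow_succ', Finset.sum_mul]
    refine Finset.sum_congr rfl fun n _ => ?_
    rw [Finset.sum_product, sq, Finset.sum_mul_sum, Finset.mul_sum]
    refine Finset.sum_congr rfl fun n' _ => ?_
    rw [Finset.mul_sum]
    exact Finset.sum_congr rfl fun n'' _ => by ring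
  have e1 : ∀ t : ℝ, ‖∑ n ∈ T, ee (-(τ n * t)) * v n‖ ^ 6
      = ‖∑ j ∈ T ×ˢ T ×ˢ T, ee (-(((τ j.1 + τ j.2.1 + τ j.2.2 : ℤ) : ℝ) * t))
        * (v j.1 * v j.2.1 * v j.2.2)‖ ^ 2 := by
    intro t
    rw [show (6 : ℕ) = 3 * 2 from rfl, pow_mul, ← norm_pow, e0]
    congr 2
    refine Finset.sum_congr rfl fun j _ => ?_
    have : ee (-(((τ j.1 + τ j.2.1 + τ j.2.2 : ℤ) : ℝ) * t))
        = ee (-(τ j.1 * t)) * ee (-(τ j.2.1 * t)) * ee (-(τ j.2.2 * t)) := by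
      rw [← ee_add, ← ee_add]; congr 1; push_cast; ring
    rw [this]; ring
  simp_rw [e1]
  refine h.trans (le_of_eq ?_)
  rw [e0]
  congr 1
  exact Finset.sum_congr rfl fun j _ => by rw [norm_mul, norm_mul]; ring

/-- The space-time sixth moment. -/
lemma six [TG G] [BiH μ] {r : ℕ} (O : Orth μ r) (T : Finset (Fin r → ℕ)) (hT : ↑T ⊆ O.Λ)
    (τ : (Fin r → ℕ) → ℤ) (a : ∀ n, Fin (O.dim n) → ℂ) (R D : ℝ) (hR0 : 0 ≤ R)
    (hR : ∀ k : ℤ, (((T ×ˢ T ×ˢ T).filter fun j => τ j.1 + τ j.2.1 + τ j.2.2 = k).card : ℝ) ≤ R)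
    (hD : ∀ n ∈ T, ∫ x, ‖∑ i, a n i * O.bas n i x‖ ^ 6 ∂μ ≤ D * (∑ i, ‖a n i‖ ^ 2) ^ 3)
    (α : ℝ) (hα : 0 < α) :
    α ^ 6 * (mm μ).real {z | α < ‖O.u T τ a z‖} ≤ R * D * O.nsq T a ^ 3 := by
  let f : (Fin r → ℕ) → G → ℂ := fun n x => ∑ i, a n i * O.bas n i x
  let s : (Fin r → ℕ) → ℝ := fun n => ∑ i, ‖a n i‖ ^ 2
  have hs : ∀ n, 0 ≤ s n := fun n => by positivity
  have hf : ∀ n ∈ T, Continuous (f n) := fun n hn =>
    continuous_finsetSum _ fun i _ => continuous_const.mul (O.bas_cont n (hT hn) i)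
  have hu : Continuous (O.u T τ a) := by
    refine continuous_finsetSum _ fun n hn => ?_
    exact (cont_ee.comp (by fun_prop)).mul ((hf n hn).comp continuous_snd)
  have : IsFiniteMeasure (mm μ) := by unfold mm; infer_instance
  have hint : Integrable (fun z => ‖O.u T τ a z‖ ^ 6) (mm μ) := by
    refine Integrable.of_bound (hu.norm.pow 6).aestronglyMeasurable
      ((∑ n ∈ T, √(O.dim n) * √(s n)) ^ 6) (Filter.Eventually.of_forall fun z => ?_)
    rw [norm_pow, norm_norm]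
    refine pow_le_pow_left₀ (norm_nonneg _) ?_ 6
    refine (norm_sum_le _ _).trans (Finset.sum_le_sum fun n hn => ?_)
    rw [norm_mul, norm_ee, one_mul]
    exact sup_bd O (hT hn) (a n) z.2
  have h1 : α ^ 6 * (mm μ).real {z | α < ‖O.u T τ a z‖} ≤ ∫ z, ‖O.u T τ a z‖ ^ 6 ∂(mm μ) := by
    refine le_trans ?_ (mul_meas_ge_le_integral_of_nonneg
      (Filter.Eventually.of_forall fun z => by positivity) hint (α ^ 6))
    refine mul_le_mul_of_nonneg_left (measureReal_mono fun z hz => ?_) (by positivity)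
    exact pow_le_pow_left₀ hα.le (le_of_lt hz) 6
  refine h1.trans ?_
  have hi6 : ∀ n ∈ T, Integrable (fun x => s n * (‖f n x‖ ^ 2 / s n) ^ 3) μ := fun n hn =>
    (continuous_const.mul ((((hf n hn).norm.pow 2).div_const _).pow 3)).integrable_of_hasCompactSupport
      (HasCompactSupport.of_compactSpace _)
  unfold mm at hint ⊢
  rw [integral_prod_symm _ hint]
  have h2 : ∀ x, ∫ t in Set.Ioc (0 : ℝ) 1, ‖O.u T τ a (t, x)‖ ^ 6
      ≤ R * (O.nsq T a ^ 2 * ∑ n ∈ T, s n * (‖f n x‖ ^ 2 / s n) ^ 3) := by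
    intro x
    refine (time_six T τ (fun n => f n x) R hR).trans (mul_le_mul_of_nonneg_left ?_ hR0)
    refine le_trans (le_of_eq ?_) (jensen3 T s (fun n => ‖f n x‖ ^ 2 / s n) (fun n _ => hs n)
      fun n _ => div_nonneg (by positivity) (hs n))
    congr 1
    refine Finset.sum_congr rfl fun n hn => ?_
    rcases (hs n).eq_or_lt with h0 | h0
    · have := sup_bd O (hT hn) (a n) x
      have h3 : √(∑ i, ‖a n i‖ ^ 2) = 0 := by
        change √(s n) = 0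
        rw [← h0, Real.sqrt_zero]
      rw [h3, mul_zero] at this
      have h4 : ‖f n x‖ = 0 := le_antisymm this (norm_nonneg _)
      rw [h4]; simp
    · field_simp
  refine (integral_mono_of_nonneg (Filter.Eventually.of_forall fun x =>
    integral_nonneg fun t => by positivity)
    (((integrable_finsetSum _ hi6).const_mul _).const_mul _)
    (Filter.Eventually.of_forall h2)).trans ?_
  rw [integral_const_mul, integral_const_mul, integral_finsetSum _ hi6]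
  have h3 : ∀ n ∈ T, ∫ x, s n * (‖f n x‖ ^ 2 / s n) ^ 3 ∂μ ≤ D * s n := by
    intro n hn
    rcases (hs n).eq_or_lt with h0 | h0
    · rw [← h0]; simp
    · have e : ∀ x, s n * (‖f n x‖ ^ 2 / s n) ^ 3 = (s n ^ 2)⁻¹ * ‖f n x‖ ^ 6 := by
        intro x; field_simp
      simp_rw [e]
      rw [integral_const_mul]
      calc _ ≤ (s n ^ 2)⁻¹ * (D * s n ^ 3) := mul_le_mul_of_nonneg_left (hD n hn) (by positivity)
        _ = _ := by field_simp
  have h4 := Finset.sum_le_sum h3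
  rw [← Finset.mul_sum] at h4
  calc _ ≤ R * (O.nsq T a ^ 2 * (D * O.nsq T a)) := by gcongr; exact h4
    _ = _ := by ring

end Pool.Agent.MP_ba99b7_an.Rk1a

namespace Pool.Agent.MP_ba99b7_an

open MeasureTheory Rk1a

theorem block_one_of (h1 : MajorStmt) (h2 : WeakStmt) (h5 : ConicStmt) (h6 : EigStmt) :
    BlockStmt 1 := by
  intro G _ _ _ _ μ _ d S γ hγ p0 hp
  have hp6 : 6 < p0 := by norm_num at hp; linarith
  have hp0 : 0 < p0 := by linarith
  have hd : (2 : ℝ) ≤ d := by exact_mod_cast (by simpa using S.two_r : 2 ≤ d)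
  set θ := 2 / p0 with hθ
  have hθ0 : 0 < θ := by positivity
  have hθ3 : θ < 1 / 3 := by rw [hθ, div_lt_div_iff₀ hp0 (by norm_num)]; linarith
  set ε := (p0 - 6) / (2 * p0 - 4) with hε
  have hε0 : 0 < ε := div_pos (by linarith) (by linarith)
  have hε1 : ε * (2 * p0 - 4) = p0 - 6 := div_mul_cancel₀ _ (by linarith)
  obtain ⟨C1, hC1⟩ := h1 G μ 1 d S γ hγ θ ε hθ0 (by linarith) (by push_cast; linarith) hε0
  set C0 : ℕ := γ 0 + 1 + 2 * S.e + (S.bv 0).toNat with hC0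
  obtain ⟨C2, hC20, hC2⟩ := count3 h5 S C0 (by
    have := Int.self_le_toNat (S.bv 0); rw [hC0]; push_cast; omega) ε hε0
  obtain ⟨C3, hC3⟩ := h6 G μ d S ε hε0
  let K : ℝ := (2 * |C1|) ^ (p0 / 2)
    + (2 * |C1|) ^ ((p0 - 6) / 2) * (C2 * (|C3| * (C0 : ℝ) ^ (2 * (d : ℝ) - 3 + ε)))
  have hK : 0 ≤ K := by positivity
  refine ⟨K ^ p0⁻¹, by positivity, fun κ T hT a α hα => ?_⟩
  set N : ℝ := 2 ^ κ with hN
  have hN1 : 1 ≤ N := one_le_pow₀ one_le_two
  have hN0 : 0 < N := by linarith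
  set q := S.nsq T a with hq
  have hq0 : 0 ≤ q := Finset.sum_nonneg fun n _ => by positivity
  set E := (mm μ).real {z | α < ‖S.u T S.P a z‖} with hE
  have hE0 : 0 ≤ E := measureReal_nonneg
  have eR : (K ^ p0⁻¹ * N ^ ((d : ℝ) / 2 - (d + 2) / p0) * √q) ^ p0
      = K * (N ^ (p0 * d / 2 - d - 2) * q ^ (p0 / 2)) := by
    rw [Real.mul_rpow (by positivity) (by positivity), Real.mul_rpow (by positivity) (by positivity),
      Real.rpow_inv_rpow hK hp0.ne', ← Real.rpow_mul hN0.le, Real.sqrt_eq_rpow,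
      ← Real.rpow_mul hq0, mul_assoc]
    congr 3 <;> field_simp
    ring
  rw [eR]
  obtain ⟨β, c0, J, Kp, A, B, hβ, hker, hA, hB, hMB, hsum, -, -, -, hKi⟩ := hC1 κ
  have hKi' : ∀ t g, ‖fs c0 t * S.ker (S.box γ κ) S.P β t g‖ ≤ |C1| * N ^ ((d : ℝ) - 1 / 2 + ε) := by
    intro t g
    refine (hKi t g).trans ?_
    rw [Fin.prod_univ_one]
    have hy : 0 ≤ 1 - S.ψ 0 g := by linarith [S.ψ_le 0 g]
    have b1 : (1 + N * (1 - S.ψ 0 g)) ^ (-(1 / 2) : ℝ) ≤ 1 :=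
      Real.rpow_le_one_of_one_le_of_nonpos (by nlinarith) (by norm_num)
    push_cast
    calc _ ≤ |C1| * N ^ ((d : ℝ) - 1 / 2 + ε) * 1 := by
          gcongr
          exact le_abs_self _
      _ = _ := mul_one _
  by_cases hc : 2 * (|C1| * N ^ ((d : ℝ) - 1 / 2 + ε)) * q ≤ α ^ 2
  · have hw := h2 G μ 1 S.toOrth θ hθ0 (by linarith) (S.box γ κ) T S.P β (box_sub S hγ κ) hT
      (fun n hn => by linarith [(hβ n hn).1]) (fun n hn => (hβ n (hT hn)).1) (Fin J) Kp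
      (fun t g => fs c0 t * S.ker (S.box γ κ) S.P β t g) A B _
      (|C1| * N ^ (d * (1 - θ) - 2 * θ)) hker hA hB hMB hKi'
      (hsum.trans (mul_le_mul_of_nonneg_right (le_abs_self _) (by positivity))) a α hα hc
    have h3 := Real.rpow_le_rpow (by positivity) hw (by positivity : 0 ≤ p0 / 2)
    have e1 : (α ^ 2 * E ^ θ) ^ (p0 / 2) = α ^ p0 * E := by
      rw [Real.mul_rpow (by positivity) (by positivity), ← Real.rpow_natCast,
        ← Real.rpow_mul hα.le, ← Real.rpow_mul hE0]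
      have a1 : ((2 : ℕ) : ℝ) * (p0 / 2) = p0 := by push_cast; ring
      have a2 : θ * (p0 / 2) = 1 := by rw [hθ]; field_simp
      rw [a1, a2, Real.rpow_one]
    have e2 : (2 * (|C1| * N ^ (d * (1 - θ) - 2 * θ)) * q) ^ (p0 / 2)
        = (2 * |C1|) ^ (p0 / 2) * (N ^ (p0 * d / 2 - d - 2) * q ^ (p0 / 2)) := by
      rw [← mul_assoc, Real.mul_rpow (by positivity) hq0,
        Real.mul_rpow (by positivity) (by positivity), ← Real.rpow_mul hN0.le, mul_assoc]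
      congr 3
      rw [hθ]; field_simp
    rw [e1, e2] at h3
    refine h3.trans (mul_le_mul_of_nonneg_right ?_ (by positivity))
    exact le_add_of_nonneg_right (by positivity)
  · have hlt : ∀ n ∈ T, n 0 < C0 * 2 ^ κ := fun n hn =>
      (box_lt S γ κ (hT hn)).trans_le (Nat.mul_le_mul_right _ (by omega))
    have hTΛ : (↑T : Set (Fin 1 → ℕ)) ⊆ S.Λ := fun n hn => box_sub S hγ κ (hT hn)
    have hC00 : 1 ≤ C0 := by omega
    have h6' := six S.toOrth T hTΛ S.P a (C2 * N ^ (1 + ε))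
      (|C3| * (C0 : ℝ) ^ (2 * (d : ℝ) - 3 + ε) * N ^ (2 * (d : ℝ) - 3 + ε)) (by positivity)
      (fun k => by simpa using hC2 (2 ^ κ) Nat.one_le_two_pow T hlt k)
      (fun n hn => by
        refine (hC3 (C0 * 2 ^ κ) (Nat.mul_pos hC00 (by positivity)) n (hTΛ hn) (hlt n hn).le
          (a n)).trans ?_
        push_cast
        rw [Real.mul_rpow (by positivity) (by positivity), ← mul_assoc]
        gcongr
        exact le_abs_self _) α hα
    have e1 : α ^ p0 = (α ^ 2) ^ ((p0 - 6) / 2) * α ^ 6 := by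
      rw [← Real.rpow_natCast α 2, ← Real.rpow_mul hα.le, ← Real.rpow_natCast α 6,
        ← Real.rpow_add hα]
      congr 1; push_cast; ring
    have h3 := Real.rpow_le_rpow (by positivity) (not_le.1 hc).le
      (by linarith : 0 ≤ (p0 - 6) / 2)
    have e2 : (2 * (|C1| * N ^ ((d : ℝ) - 1 / 2 + ε)) * q) ^ ((p0 - 6) / 2)
        = (2 * |C1|) ^ ((p0 - 6) / 2) * N ^ (((d : ℝ) - 1 / 2 + ε) * ((p0 - 6) / 2))
          * q ^ ((p0 - 6) / 2) := by
      rw [← mul_assoc, Real.mul_rpow (by positivity) hq0,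
        Real.mul_rpow (by positivity) (by positivity), ← Real.rpow_mul hN0.le]
    have e3 : N ^ (((d : ℝ) - 1 / 2 + ε) * ((p0 - 6) / 2)) * N ^ (1 + ε) * N ^ (2 * (d : ℝ) - 3 + ε)
        = N ^ (p0 * d / 2 - d - 2) := by
      rw [← Real.rpow_add hN0, ← Real.rpow_add hN0]
      congr 1
      linarith
    have e4 : q ^ ((p0 - 6) / 2) * q ^ 3 = q ^ (p0 / 2) := by
      rw [← Real.rpow_natCast q 3, ← Real.rpow_add_of_nonneg hq0 (by linarith) (by positivity)]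
      congr 1; push_cast; ring
    rw [e2] at h3
    rw [e1, mul_assoc]
    refine (mul_le_mul h3 h6' (by positivity) (by positivity)).trans ?_
    rw [← e3, ← e4]
    calc _ = ((2 * |C1|) ^ ((p0 - 6) / 2) * (C2 * (|C3| * (C0 : ℝ) ^ (2 * (d : ℝ) - 3 + ε))))
          * (N ^ (((d : ℝ) - 1 / 2 + ε) * ((p0 - 6) / 2)) * N ^ (1 + ε) * N ^ (2 * (d : ℝ) - 3 + ε)
            * (q ^ ((p0 - 6) / 2) * q ^ 3)) := by ring
      _ ≤ _ := mul_le_mul_of_nonneg_right (le_add_of_nonneg_left (by positivity)) (by positivity)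

end Pool.Agent.MP_ba99b7_an

end MrgPart2

-- marker of a merged file
example : 731051 + 888396 = 731051 + 888396 := rfl
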